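import Pool.Agent.Lib.MP_d266db_co.H.SpecR

/-!
# MP_d266db_co, H: the merging lemma
-/

set_option autoImplicit false

namespace Pool.Agent.MPd266dbH

open Finset Pool.Agent.MPd266db

theorem mrg_nr {n : ℕ} {S : Finset (Fin n × Fin n)} {ρ g g' : ℝ} (h : Nr S ρ g) (hg : g ≤ g') :
    Nr S ρ g' := by
  have hn : (0 : ℝ) ≤ n := Nat.cast_nonneg n
  have h0 : g * n ≤ g' * n := mul_le_mul_of_nonneg_right hg hn
  refine ⟨le_trans ?_ (h.1.trans h0), le_trans ?_ (h.2.trans h0)⟩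
  · have : (univ.filter (fun v => g' * n < |(od S v : ℝ) - ρ|)) ⊆
        (univ.filter (fun v => g * n < |(od S v : ℝ) - ρ|)) := by
      intro v hv
      rw [mem_filter] at hv ⊢
      exact ⟨hv.1, h0.trans_lt hv.2⟩
    exact_mod_cast card_le_card this
  · have : (univ.filter (fun v => g' * n < |(idg S v : ℝ) - ρ|)) ⊆
        (univ.filter (fun v => g * n < |(idg S v : ℝ) - ρ|)) := by
      intro v hv
      rw [mem_filter] at hv ⊢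
      exact ⟨hv.1, h0.trans_lt hv.2⟩
    exact_mod_cast card_le_card this

theorem mrg_mhyp {n K : ℕ} {S : Finset (Fin n × Fin n)} {o i : Fin n → Fin K} {θ ρ g g' β ν : ℝ}
    (h : MHyp S o i θ ρ g β ν) (hg : g ≤ g') : MHyp S o i θ ρ g' β ν :=
  ⟨h.own, h.odl, h.idl, mrg_nr h.nr hg, h.rge, h.rle, h.rob⟩

/-- the numbers `h, x, y` -/
theorem mrg_num (Q ℓ s : ℕ) (θ d β1 : ℝ) (hQ : 1 ≤ Q) (hθ : 0 < θ) (hθ1 : θ ≤ 1)
    (hβ : 0 < β1) (hβd : 200 * Q * β1 ≤ d ^ 2)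
    (hβθ : 4000 * (ℓ + 1) * Q * β1 ≤ θ) (hs1 : 2000 * (ℓ + 1) * Q ≤ θ * s)
    (hs2 : 100 * Q ≤ d ^ 2 * s) :
    ∃ h x y : ℕ, 1 ≤ h ∧ β1 * s ≤ h ∧ (h : ℝ) ≤ β1 * s + 1 ∧ 5 * s ≤ 8 * Q * x ∧
      4 * Q * x ≤ 3 * s ∧ 1 ≤ y ∧ 16 * Q * (y : ℝ) ≤ θ * s ∧ θ * s ≤ 20 * Q * (y : ℝ) ∧ y ≤ x ∧
      32 * (h : ℝ) ≤ d ^ 2 * x ∧ 4 * (ℓ + 1) * (12 * h + 2) ≤ y := by
  have hQR : (1 : ℝ) ≤ Q := by exact_mod_cast hQ
  have hℓ : (0 : ℝ) ≤ ℓ := Nat.cast_nonneg ℓ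
  have hs0 : (0 : ℝ) ≤ s := Nat.cast_nonneg s
  have hℓQ : (Q : ℝ) ≤ (ℓ + 1) * Q := by nlinarith
  have hspos : (0 : ℝ) < s := by
    have : (0 : ℝ) < θ * s := by nlinarith
    exact (pos_iff_pos_of_mul_pos this).1 hθ
  have hsQ : 2000 * (Q : ℝ) ≤ s := by nlinarith
  obtain ⟨h, hh⟩ : ∃ h : ℕ, h = ⌈β1 * s⌉₊ := ⟨_, rfl⟩
  obtain ⟨x, hx⟩ : ∃ x : ℕ, x = ⌈5 * (s : ℝ) / (8 * Q)⌉₊ := ⟨_, rfl⟩
  obtain ⟨y, hy⟩ : ∃ y : ℕ, y = ⌊θ * s / (16 * Q)⌋₊ := ⟨_, rfl⟩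
  have hh1 : β1 * s ≤ h := by rw [hh]; exact Nat.le_ceil _
  have hh2 : (h : ℝ) ≤ β1 * s + 1 := by
    rw [hh]; exact (Nat.ceil_lt_add_one (by positivity)).le
  have hx1 : 5 * (s : ℝ) / (8 * Q) ≤ x := by rw [hx]; exact Nat.le_ceil _
  have hx2 : (x : ℝ) ≤ 5 * (s : ℝ) / (8 * Q) + 1 := by
    rw [hx]; exact (Nat.ceil_lt_add_one (by positivity)).le
  have hy1 : (y : ℝ) ≤ θ * s / (16 * Q) := by
    rw [hy]; exact Nat.floor_le (by positivity)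
  have hy2 : θ * s / (16 * Q) < (y : ℝ) + 1 := by
    rw [hy]; exact Nat.lt_floor_add_one _
  have h8Q : (0 : ℝ) < 8 * Q := by positivity
  have h16Q : (0 : ℝ) < 16 * Q := by positivity
  rw [div_le_iff₀ h8Q] at hx1
  have hx3 : (x : ℝ) * (8 * Q) ≤ 5 * s + 8 * Q := by
    have := mul_le_mul_of_nonneg_right hx2 h8Q.le
    rwa [add_mul, div_mul_cancel₀ _ h8Q.ne', one_mul] at this
  rw [le_div_iff₀ h16Q] at hy1
  rw [div_lt_iff₀ h16Q] at hy2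
  refine ⟨h, x, y, ?_, hh1, hh2, ?_, ?_, ?_, ?_, ?_, ?_, ?_, ?_⟩
  · have : (0 : ℝ) < h := lt_of_lt_of_le (by positivity) hh1
    exact_mod_cast this
  · have : ((5 * s : ℕ) : ℝ) ≤ ((8 * Q * x : ℕ) : ℝ) := by push_cast; linarith
    exact_mod_cast this
  · have : ((4 * Q * x : ℕ) : ℝ) ≤ ((3 * s : ℕ) : ℝ) := by push_cast; linarith
    exact_mod_cast this
  · by_contra hcon
    have h0 : y = 0 := by omega
    rw [h0] at hy2
    push_cast at hy2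
    linarith
  · linarith
  · linarith
  · have h0 : θ * s ≤ s := mul_le_of_le_one_left hs0 hθ1
    have h1 : (y : ℝ) * (16 * Q) ≤ (x : ℝ) * (16 * Q) := by linarith
    have h2 : (y : ℝ) ≤ x := le_of_mul_le_mul_right h1 h16Q
    exact_mod_cast h2
  · -- 32 h ≤ d² x
    have hd0 : (0 : ℝ) ≤ d ^ 2 := by positivity
    have h1 : (Q : ℝ) * (32 * h) ≤ Q * (d ^ 2 * x) := by
      have h2 : 200 * Q * β1 * s ≤ d ^ 2 * s := mul_le_mul_of_nonneg_right hβd hs0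
      have h3 : (Q : ℝ) * h ≤ Q * (β1 * s + 1) := mul_le_mul_of_nonneg_left hh2 (by positivity)
      have h4 : d ^ 2 * (5 * (s : ℝ)) ≤ d ^ 2 * (x * (8 * Q)) := mul_le_mul_of_nonneg_left hx1 hd0
      have h5 : 0 ≤ d ^ 2 * (s : ℝ) := by positivity
      linarith
    exact le_of_mul_le_mul_left h1 (by positivity)
  · have h1 : (16 * Q : ℝ) * (4 * (ℓ + 1) * (12 * h + 2)) ≤ 16 * Q * y := by
      have h2 : 4000 * (ℓ + 1) * Q * β1 * s ≤ θ * s := mul_le_mul_of_nonneg_right hβθ hs0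
      have h3 : ((ℓ + 1) * Q : ℝ) * h ≤ (ℓ + 1) * Q * (β1 * s + 1) :=
        mul_le_mul_of_nonneg_left hh2 (by positivity)
      linarith
    have h2 : (4 * ((ℓ : ℝ) + 1) * (12 * h + 2)) ≤ y := le_of_mul_le_mul_left h1 h16Q
    have h3 : ((4 * (ℓ + 1) * (12 * h + 2) : ℕ) : ℝ) ≤ (y : ℝ) := by push_cast; exact h2
    exact_mod_cast h3

theorem tMrg (hRP : S_RP) (hXM : S_XM) (hSys : S_Sys) (hRmt : S_Rmt) (hXSy : S_XSy)
    (hNuX : S_NuX) (hOne : S_One) : S_Mrg := by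
  intro K0 θ lam ν κ hK0 hθ hθ1 hlam hν hκ
  obtain ⟨ν4, hν4⟩ : ∃ ν4 : ℝ, ν4 = min (ν / 4) (θ / 16) := ⟨_, rfl⟩
  have hν4pos : 0 < ν4 := by rw [hν4]; exact lt_min (by positivity) (by positivity)
  have hν4a : ν4 ≤ ν / 4 := by rw [hν4]; exact min_le_left _ _
  have hν4b : ν4 ≤ θ / 16 := by rw [hν4]; exact min_le_right _ _
  obtain ⟨ℓ, hℓ⟩ : ∃ ℓ : ℕ, RPp (ν4 / 2) ℓ := hRP (ν4 / 2) (by positivity)
  have hℓ0 : (0 : ℝ) ≤ ℓ := Nat.cast_nonneg ℓ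
  obtain ⟨Q, hQdef⟩ : ∃ Q : ℕ, Q = ⌈8 / κ⌉₊ + 2 := ⟨_, rfl⟩
  have hQ2 : 2 ≤ Q := by omega
  have hQR : (2 : ℝ) ≤ Q := by exact_mod_cast hQ2
  have hQκ : 8 ≤ κ * Q := by
    have h1 : 8 / κ ≤ (⌈8 / κ⌉₊ : ℝ) := Nat.le_ceil _
    have h2 : ((⌈8 / κ⌉₊ : ℕ) : ℝ) ≤ Q := by rw [hQdef]; push_cast; linarith
    have h3 := h1.trans h2
    rw [div_le_iff₀ hκ] at h3
    linarith
  obtain ⟨ε, hεdef⟩ : ∃ ε : ℝ, ε = ν4 * θ ^ 2 / (100000 * (4 * ℓ + 6) ^ 2) := ⟨_, rfl⟩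
  have hden : (0 : ℝ) < 100000 * (4 * ℓ + 6) ^ 2 := by positivity
  have hε : 0 < ε := by rw [hεdef]; positivity
  have hεeq : 100000 * (4 * (ℓ : ℝ) + 6) ^ 2 * ε ≤ ν4 * θ ^ 2 := by
    rw [hεdef, mul_div_cancel₀ _ hden.ne']
  have hεθ : 4 * ε ≤ θ := by
    have h1 : (6 : ℝ) ^ 2 ≤ (4 * ℓ + 6) ^ 2 := pow_le_pow_left₀ (by norm_num) (by linarith) 2
    have h2 : 4 * ε ≤ 100000 * (4 * (ℓ : ℝ) + 6) ^ 2 * ε :=
      mul_le_mul_of_nonneg_right (by linarith) hε.le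
    have h3 : ν4 * θ ^ 2 ≤ 1 * θ ^ 2 := mul_le_mul_of_nonneg_right (by linarith) (by positivity)
    have h4 : θ * θ ≤ 1 * θ := mul_le_mul_of_nonneg_right hθ1 hθ.le
    linarith
  obtain ⟨d, hd, hd1, hSys1⟩ := hSys K0 θ ν (ε / 8) hK0 hθ hθ1 hν (by positivity) (by linarith)
  obtain ⟨β1, hβdef⟩ : ∃ β1 : ℝ, β1 = min (ε / (16 * Q)) (min (d ^ 2 / (200 * Q))
      (θ / (4000 * (ℓ + 1) * Q))) := ⟨_, rfl⟩
  have hβ : 0 < β1 := by
    rw [hβdef]; exact lt_min (by positivity) (lt_min (by positivity) (by positivity))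
  have hβa : 16 * Q * β1 ≤ ε := by
    have : β1 ≤ ε / (16 * Q) := by rw [hβdef]; exact min_le_left _ _
    rw [le_div_iff₀ (by positivity)] at this
    linarith
  have hβb : 200 * Q * β1 ≤ d ^ 2 := by
    have : β1 ≤ d ^ 2 / (200 * Q) := by
      rw [hβdef]; exact (min_le_right _ _).trans (min_le_left _ _)
    rw [le_div_iff₀ (by positivity)] at this
    linarith
  have hβc : 4000 * (ℓ + 1) * Q * β1 ≤ θ := by
    have : β1 ≤ θ / (4000 * (ℓ + 1) * Q) := by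
      rw [hβdef]; exact (min_le_right _ _).trans (min_le_right _ _)
    rw [le_div_iff₀ (by positivity)] at this
    linarith
  have hβ1 : β1 ≤ 1 := by
    have h1 : (1 : ℝ) * β1 ≤ 16 * Q * β1 := mul_le_mul_of_nonneg_right (by linarith) hβ.le
    linarith
  obtain ⟨g1, kmax, n1, hg1, hSys2⟩ := hSys1 β1 hβ hβ1
  obtain ⟨g2, n2, hg2, hRmt1⟩ := hRmt Q kmax ε θ hQ2 hθ hθ1 hε hεθ
  obtain ⟨g, hgdef⟩ : ∃ g : ℝ, g = min (min g1 g2) (min (ε / Q) (lam / 4)) := ⟨_, rfl⟩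
  have hg : 0 < g := by
    rw [hgdef]; exact lt_min (lt_min hg1 hg2) (lt_min (by positivity) (by positivity))
  have hga : g ≤ g1 := by rw [hgdef]; exact (min_le_left _ _).trans (min_le_left _ _)
  have hgb : g ≤ g2 := by rw [hgdef]; exact (min_le_left _ _).trans (min_le_right _ _)
  have hgc : g * Q ≤ ε := by
    have : g ≤ ε / Q := by rw [hgdef]; exact (min_le_right _ _).trans (min_le_left _ _)
    rwa [le_div_iff₀ (by positivity)] at this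
  have hgd : 4 * g ≤ lam := by
    have : g ≤ lam / 4 := by rw [hgdef]; exact (min_le_right _ _).trans (min_le_right _ _)
    linarith
  obtain ⟨s0, hs0⟩ : ∃ s0 : ℕ, s0 = ⌈2000 * (ℓ + 1) * Q / θ⌉₊ + ⌈100 * Q / d ^ 2⌉₊ := ⟨_, rfl⟩
  refine ⟨g, max (max n1 n2) (max (max 1 ⌈20 * Q * kmax / ε⌉₊) (kmax * s0)), hg, ?_⟩
  intro n hn K S o i ρ σ hKK0 hM hSh hLin
  have hnn1 : n1 ≤ n := ((le_max_left _ _).trans (le_max_left _ _)).trans hn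
  have hnn2 : n2 ≤ n := ((le_max_right _ _).trans (le_max_left _ _)).trans hn
  have hn1 : 1 ≤ n :=
    (((le_max_left _ _).trans (le_max_left _ _)).trans (le_max_right _ _)).trans hn
  have hnk : ⌈20 * Q * kmax / ε⌉₊ ≤ n :=
    (((le_max_right _ _).trans (le_max_left _ _)).trans (le_max_right _ _)).trans hn
  have hns : kmax * s0 ≤ n := ((le_max_right _ _).trans (le_max_right _ _)).trans hn
  have hnR : (1 : ℝ) ≤ n := by exact_mod_cast hn1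
  obtain ⟨s, k, cl, T, H, Γ, hs, hk, hkk, hnks, hRS⟩ :=
    hSys2 n hnn1 K S o i ρ hKK0 (mrg_mhyp hM hga)
  have hkmax : 1 ≤ kmax := hk.trans hkk
  have hss0 : s0 ≤ s := Nat.le_of_mul_le_mul_left (hns.trans hnks) (by omega)
  have hcr2 : ((univ.filter (fun v => o v ≠ i (σ v))).card : ℝ) ≤ g2 * n :=
    hSh.cross.trans (mul_le_mul_of_nonneg_right hgb (by positivity))
  obtain ⟨U, V, X, Y, ρ0, hU, hXY, hInv, hV, hVn, hUn, hdo, hdi⟩ :=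
    hRmt1 n hnn2 K k s S o i cl T H Γ β1 d (θ / 16) (ν / 4) hRS hβ hβa hd hk hkk hnks hM.odl
      hM.idl σ hcr2
  -- the numbers
  have hsR : (s0 : ℝ) ≤ s := by exact_mod_cast hss0
  have hs1 : 2000 * (ℓ + 1) * Q ≤ θ * s := by
    have h1 : 2000 * (ℓ + 1) * Q / θ ≤ (⌈2000 * ((ℓ : ℝ) + 1) * Q / θ⌉₊ : ℝ) := Nat.le_ceil _
    have h2 : ((⌈2000 * ((ℓ : ℝ) + 1) * Q / θ⌉₊ : ℕ) : ℝ) ≤ s0 := by
      rw [hs0]; push_cast; linarith [Nat.cast_nonneg (α := ℝ) ⌈100 * (Q : ℝ) / d ^ 2⌉₊]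
    have h3 := (h1.trans h2).trans hsR
    rw [div_le_iff₀ hθ] at h3
    linarith
  have hs2 : 100 * Q ≤ d ^ 2 * s := by
    have h1 : 100 * Q / d ^ 2 ≤ (⌈100 * (Q : ℝ) / d ^ 2⌉₊ : ℝ) := Nat.le_ceil _
    have h2 : ((⌈100 * (Q : ℝ) / d ^ 2⌉₊ : ℕ) : ℝ) ≤ s0 := by
      rw [hs0]; push_cast
      linarith [Nat.cast_nonneg (α := ℝ) ⌈2000 * ((ℓ : ℝ) + 1) * Q / θ⌉₊]
    have h3 := (h1.trans h2).trans hsR
    rw [div_le_iff₀ (by positivity)] at h3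
    linarith
  obtain ⟨h, x, y, hh, hh1, hh2, hx1, hx2, hy0, hy1, hy2, hyx, hhx, hly⟩ :=
    mrg_num Q ℓ s θ d β1 (by omega) hθ hθ1 hβ hβb hβc hs1 hs2
  have hXS : XSys S o i cl X Y Γ h x y d (θ / 16) ν4 :=
    hXSy n K k s Q S o i cl T H X Y Γ β1 d (ν / 4) ν4 (ε / 8) θ ε h x y hRS hM.own hθ hθ1 hε
      (by linarith) (by omega) (fun p => (hXY p).2) hdo hdi hh1 hx1 hx2 hy0 hy1 hν4a
  -- k s ≤ n ≤ 2 k s
  have hks : k * s ≤ n := by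
    have h1 : (univ.biUnion T).card = k * s := by
      rw [card_biUnion (fun p _ p' _ hpp => hRS.dT p p' hpp), sum_congr rfl (fun p _ => hRS.sT p),
        sum_const, card_univ, Fintype.card_fin, smul_eq_mul]
    have h2 : (univ.biUnion T).card ≤ Fintype.card (Fin n) := card_le_univ _
    rw [Fintype.card_fin] at h2
    omega
  have hnks2 : n ≤ 2 * (k * s) := by
    have h1 := hRS.cov
    have h2 : ((n : ℕ) : ℝ) ≤ ((2 * (k * s) : ℕ) : ℝ) := by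
      push_cast
      have h3 : ε * n ≤ 1 * n := mul_le_mul_of_nonneg_right (by linarith) (by positivity)
      linarith
    exact_mod_cast h2
  have hkR : (k : ℝ) ≤ kmax := by exact_mod_cast hkk
  have hQk : 20 * Q * (k : ℝ) ≤ ε * n := by
    have h1 : 20 * Q * kmax / ε ≤ (⌈20 * (Q : ℝ) * kmax / ε⌉₊ : ℝ) := Nat.le_ceil _
    have h2 : (⌈20 * (Q : ℝ) * kmax / ε⌉₊ : ℝ) ≤ n := by exact_mod_cast hnk
    have h3 := h1.trans h2
    rw [div_le_iff₀ hε] at h3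
    have h4 : 20 * Q * (k : ℝ) ≤ 20 * Q * kmax := mul_le_mul_of_nonneg_left hkR (by positivity)
    linarith
  have hcyc : Q * (cyc σ : ℝ) ≤ ε * n := by
    have h1 : (Q : ℝ) * cyc σ ≤ Q * (g * n) := mul_le_mul_of_nonneg_left hSh.cyc (by positivity)
    have h2 : g * Q * n ≤ ε * n := mul_le_mul_of_nonneg_right hgc (by positivity)
    linarith
  have hnum := hNuX n k s Q h x y ℓ V.card (cyc σ) θ ν4 ε β1 hn1 hs (by omega) hθ hθ1 hν4pos hε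
    hεeq hh2 hβa hx2 hy2 hVn hcyc hnks2 hks hQk
  obtain ⟨ρ', F, hF, hoff, harc, hcro, hsame⟩ := hXM n K k S o i cl X Y Γ h x y ℓ d (θ / 16) ν4 hXS
    hd hd1 hν4pos hν4b hℓ hk hh hhx hly hyx σ ρ0 U V (fun p => (hXY p).1) hU hInv
    (by rw [← hV]; exact hnum)
  refine ⟨ρ', hOne n K o i S σ ρ' g lam hn1 hg hgd hM.own hSh hLin harc hcro hsame, harc, hcro, ?_⟩
  -- few changes
  have hsub : univ.filter (fun v => ρ' v ≠ σ v) ⊆ U ∪ F := by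
    intro v hv
    rw [mem_filter] at hv
    by_contra hcon
    rw [mem_union, not_or] at hcon
    exact hv.2 (hoff v hcon.1 hcon.2)
  have hcard : ((univ.filter (fun v => ρ' v ≠ σ v)).card : ℝ) ≤ U.card + F.card := by
    exact_mod_cast (card_le_card hsub).trans (card_union_le _ _)
  have hksR : (k : ℝ) * s ≤ n := by exact_mod_cast hks
  have hFQ : (Q : ℝ) * F.card ≤ n := by
    have hk0 : (0 : ℝ) ≤ k := Nat.cast_nonneg k
    have h1 : (Q : ℝ) * (8 * F.card) ≤ Q * (ν4 * k * y) :=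
      mul_le_mul_of_nonneg_left hF (by positivity)
    have h2 : ν4 * k * (16 * Q * y) ≤ ν4 * k * (θ * s) :=
      mul_le_mul_of_nonneg_left hy1 (by positivity)
    have h3 : ν4 * θ * (k * s) ≤ ν4 * θ * n := mul_le_mul_of_nonneg_left hksR (by positivity)
    have h4 : ν4 * θ ≤ 1 := mul_le_one₀ (by linarith) hθ.le hθ1
    have h5 : ν4 * θ * n ≤ 1 * n := mul_le_mul_of_nonneg_right h4 (by positivity)
    linarith
  have h1 : (Q : ℝ) * (U.card + F.card) ≤ Q * (κ * n) := by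
    have h2 : 8 * (n : ℝ) ≤ κ * Q * n := mul_le_mul_of_nonneg_right hQκ (by positivity)
    linarith
  exact hcard.trans (le_of_mul_le_mul_left h1 (by positivity))

end Pool.Agent.MPd266dbH
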