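import Pool.Agent.Lib.MP_d266db_co.H.SpecQ

/-!
# MP_d266db_co, H, Bad: few permutations have many cycles (helper43)
-/

set_option autoImplicit false

namespace Pool.Agent.MPd266dbH

open Finset Pool.Agent.MPd266db

private theorem bad_sub {n k : ℕ} (σ : Equiv.Perm (Fin n)) (h : k ≤ cyc σ) :
    ∃ W : Finset (Fin n), W.card = k ∧ ∀ v ∈ W, ∀ w ∈ W, σ.SameCycle v w → v = w := by
  obtain ⟨W', h1, _, h3⟩ := cyc_trans σ
  obtain ⟨W, hW, hWc⟩ := Finset.exists_subset_card_eq (h1 ▸ h : k ≤ W'.card)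
  exact ⟨W, hWc, fun v hv w hw => h3 v (hW hv) w (hW hw)⟩

private theorem bad_inj {n : ℕ} (σ σ' : Equiv.Perm (Fin n)) (W Z : Finset (Fin n))
    (h1 : ∀ v ∈ W, ∀ w ∈ W, σ.SameCycle v w → v = w)
    (h2 : ∀ v ∈ W, ∀ w ∈ W, σ'.SameCycle v w → v = w)
    (hZ : ∀ v, v ∈ Z ↔ σ v ∈ W) (hZ' : ∀ v, v ∈ Z ↔ σ' v ∈ W)
    (h : ∀ v, v ∉ Z → σ v = σ' v) : σ = σ' := by
  ext z
  by_cases hz : z ∈ Z
  · have hw : σ z ∈ W := (hZ z).1 hz
    have hex : ∃ j : ℕ, (σ ^ j) (σ z) ∈ Z := by
      refine ⟨orderOf σ - 1, ?_⟩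
      have e1 : (σ ^ (orderOf σ - 1)) (σ z) = z := by
        rw [← Equiv.Perm.mul_apply, ← pow_succ, Nat.sub_add_cancel (orderOf_pos σ),
          pow_orderOf_eq_one, Equiv.Perm.one_apply]
      rw [e1]
      exact hz
    classical
    have hL := Nat.find_spec hex
    have hmin : ∀ j, j < Nat.find hex → (σ ^ j) (σ z) ∉ Z := fun j hj => Nat.find_min hex hj
    set L := Nat.find hex with hLd
    -- the first visit of `Z` is `z`
    have e1 : σ ((σ ^ L) (σ z)) = σ z := by
      have e2 : σ ((σ ^ L) (σ z)) ∈ W := (hZ _).1 hL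
      refine (h1 _ hw _ e2 ?_).symm
      refine ⟨(L : ℤ) + 1, ?_⟩
      rw [add_comm, zpow_add, zpow_natCast, zpow_one, Equiv.Perm.mul_apply]
    have e3 : (σ ^ L) (σ z) = z := σ.injective e1
    have e4 : ∀ j, j ≤ L → (σ' ^ j) (σ z) = (σ ^ j) (σ z) := by
      intro j
      induction j with
      | zero => intro _; rfl
      | succ j ih =>
        intro hj
        rw [pow_succ', pow_succ', Equiv.Perm.mul_apply, Equiv.Perm.mul_apply, ih (by omega)]
        exact (h _ (hmin j (by omega))).symm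
    have e5 : (σ' ^ L) (σ z) = z := by rw [e4 L le_rfl, e3]
    have e6 : σ z = σ' z := by
      refine h2 _ hw _ ((hZ' z).1 hz) ⟨(L : ℤ) + 1, ?_⟩
      rw [add_comm, zpow_add, zpow_natCast, zpow_one, Equiv.Perm.mul_apply, e5]
    rw [e6]
  · rw [h z hz]

theorem tBad : S_Bad := by
  intro n k hk
  classical
  choose! W hWc hW using fun (σ : Equiv.Perm (Fin n)) (h : k ≤ cyc σ) => bad_sub σ h
  have hcard := Finset.card_le_mul_card_image_of_maps_to
    (s := univ.filter (fun σ : Equiv.Perm (Fin n) => k ≤ cyc σ))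
    (t := (univ : Finset (Finset (Fin n) × Finset (Fin n))))
    (f := fun σ => (W σ, univ.filter (fun v => σ v ∈ W σ))) (fun σ _ => mem_univ _)
    (n ^ (n - k)) (by
      rintro ⟨W0, Z0⟩ _
      by_cases hne : ((univ.filter (fun σ : Equiv.Perm (Fin n) => k ≤ cyc σ)).filter
        (fun σ => (W σ, univ.filter (fun v => σ v ∈ W σ)) = (W0, Z0))).Nonempty
      · obtain ⟨σ0, hσ0⟩ := hne
        rw [mem_filter, mem_filter] at hσ0
        obtain ⟨⟨_, hk0⟩, he0⟩ := hσ0
        have hW0 : W σ0 = W0 := (Prod.ext_iff.1 he0).1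
        have hZ0 : univ.filter (fun v => σ0 v ∈ W σ0) = Z0 := (Prod.ext_iff.1 he0).2
        have hZc : Z0.card = k := by
          rw [← hZ0, ← hWc σ0 hk0]
          refine Finset.card_bij (fun v _ => σ0 v) (fun v hv => (mem_filter.1 hv).2)
            (fun v _ w _ h => σ0.injective h) fun w hw => ⟨σ0.symm w, ?_, ?_⟩
          · rw [mem_filter]
            refine ⟨mem_univ _, ?_⟩
            rw [Equiv.apply_symm_apply]
            exact hw
          · exact Equiv.apply_symm_apply _ _
        have hle := Finset.card_le_card_of_injOn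
          (s := (univ.filter (fun σ : Equiv.Perm (Fin n) => k ≤ cyc σ)).filter
            (fun σ => (W σ, univ.filter (fun v => σ v ∈ W σ)) = (W0, Z0)))
          (t := (univ : Finset ({v // v ∉ Z0} → Fin n)))
          (fun σ v => σ v) (fun σ _ => mem_coe.2 (mem_univ _)) (by
            intro σ hσ σ' hσ' hh
            rw [mem_coe, mem_filter, mem_filter] at hσ hσ'
            have a1 : W σ = W0 := (Prod.ext_iff.1 hσ.2).1
            have a2 : univ.filter (fun v => σ v ∈ W σ) = Z0 := (Prod.ext_iff.1 hσ.2).2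
            have b1 : W σ' = W0 := (Prod.ext_iff.1 hσ'.2).1
            have b2 : univ.filter (fun v => σ' v ∈ W σ') = Z0 := (Prod.ext_iff.1 hσ'.2).2
            refine bad_inj σ σ' W0 Z0 ?_ ?_ ?_ ?_ ?_
            · rw [← a1]
              exact hW σ hσ.1.2
            · rw [← b1]
              exact hW σ' hσ'.1.2
            · intro v
              rw [← a2, mem_filter, a1]
              exact ⟨fun h => h.2, fun h => ⟨mem_univ _, h⟩⟩
            · intro v
              rw [← b2, mem_filter, b1]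
              exact ⟨fun h => h.2, fun h => ⟨mem_univ _, h⟩⟩
            · intro v hv
              exact congrFun hh ⟨v, hv⟩)
        refine hle.trans ?_
        rw [Finset.card_univ, Fintype.card_fun, Fintype.card_fin]
        have hc : Fintype.card {v // v ∉ Z0} = n - k := by
          rw [Fintype.card_subtype_compl, Fintype.card_fin, Fintype.card_coe, hZc]
        rw [hc]
      · rw [not_nonempty_iff_eq_empty] at hne
        rw [hne, card_empty]
        exact Nat.zero_le _)
  refine hcard.trans ?_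
  rw [Finset.card_univ, Fintype.card_prod, Fintype.card_finset, Fintype.card_fin]
  have : 2 ^ n * 2 ^ n = 4 ^ n := (mul_pow 2 2 n).symm
  rw [this, mul_comm]

end Pool.Agent.MPd266dbH
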