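import Pool.Agent.Lib.MP_d266db_co.H.SpecP

/-!
# MP_d266db_co, H: disjoint intervals for several sets
-/

set_option autoImplicit false

namespace Pool.Agent.MPd266dbH

open Finset Pool.Agent.MPd266db

/-- the elements of `D` with position in `[lo, hi)` -/
def cake_F {n : ℕ} (pos : Fin n → ℕ) (D : Finset (Fin n)) (lo hi : ℕ) : Finset (Fin n) :=
  D.filter (fun x => lo ≤ pos x ∧ pos x < hi)

theorem cake_mem {n : ℕ} {pos : Fin n → ℕ} {D : Finset (Fin n)} {lo hi : ℕ} {x : Fin n} :
    x ∈ cake_F pos D lo hi ↔ x ∈ D ∧ lo ≤ pos x ∧ pos x < hi := by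
  simp [cake_F]

/-- the intervals -/
theorem cake_claim {n L r : ℕ} {pos : Fin n → ℕ} {D : Fin L → Finset (Fin n)}
    (hpos : Function.Injective pos) (hr : 0 < r) (m : ℕ) : ∀ (I : Finset (Fin L)) (t : ℕ), I.card = m →
      (∀ i ∈ I, m * r ≤ ((D i).filter (fun x => t ≤ pos x)).card) →
      ∃ lo hi : Fin L → ℕ, (∀ i ∈ I, t ≤ lo i ∧ r ≤ (cake_F pos (D i) (lo i) (hi i)).card) ∧
        ∀ i ∈ I, ∀ j ∈ I, i ≠ j → hi i ≤ lo j ∨ hi j ≤ lo i := by
  classical
  induction m with
  | zero =>
    intro I t hI _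
    rw [card_eq_zero] at hI
    subst hI
    exact ⟨fun _ => 0, fun _ => 0, fun i hi => by simp at hi, fun i hi => by simp at hi⟩
  | succ m ih =>
    intro I t hI hD
    have hne : I.Nonempty := by
      rw [← card_pos, hI]
      omega
    have hex : ∃ h, ∃ i ∈ I, r ≤ (cake_F pos (D i) t h).card := by
      obtain ⟨i, hi⟩ := hne
      refine ⟨univ.sup pos + 1, i, hi, ?_⟩
      have h1 : (D i).filter (fun x => t ≤ pos x) ⊆ cake_F pos (D i) t (univ.sup pos + 1) := by
        intro x hx
        rw [mem_filter] at hx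
        rw [cake_mem]
        exact ⟨hx.1, hx.2, Nat.lt_succ_of_le (le_sup (f := pos) (mem_univ x))⟩
      have h2 := card_le_card h1
      have h3 := hD i hi
      have h4 : r ≤ (m + 1) * r := Nat.le_mul_of_pos_left r (by omega)
      omega
    obtain ⟨i, hi, hh⟩ := Nat.find_spec hex
    have hmin := fun {k : ℕ} (hk : k < Nat.find hex) => Nat.find_min hex hk
    generalize Nat.find hex = h at hh hmin
    have hth : t < h := by
      have : (cake_F pos (D i) t h).Nonempty := by
        rw [← card_pos]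
        omega
      obtain ⟨x, hx⟩ := this
      rw [cake_mem] at hx
      omega
    -- at most `r` elements of `D j` are in `[t, h)`
    have hle : ∀ j ∈ I, (cake_F pos (D j) t h).card ≤ r := by
      intro j hj
      have h1 : ¬ r ≤ (cake_F pos (D j) t (h - 1)).card := fun h2 => hmin (by omega) ⟨j, hj, h2⟩
      have h3 : cake_F pos (D j) t h ⊆
          cake_F pos (D j) t (h - 1) ∪ (univ.filter (fun x => pos x = h - 1)) := by
        intro x hx
        rw [cake_mem] at hx
        rw [mem_union, cake_mem, mem_filter]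
        by_cases h4 : pos x = h - 1
        · exact Or.inr ⟨mem_univ x, h4⟩
        · exact Or.inl ⟨hx.1, hx.2.1, by omega⟩
      have h5 : (univ.filter (fun x : Fin n => pos x = h - 1)).card ≤ 1 := by
        rw [card_le_one]
        intro x hx y hy
        rw [mem_filter] at hx hy
        exact hpos (hx.2.trans hy.2.symm)
      have h6 := (card_le_card h3).trans (card_union_le _ _)
      omega
    have hrest : ∀ j ∈ I.erase i, m * r ≤ ((D j).filter (fun x => h ≤ pos x)).card := by
      intro j hj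
      have hj' := mem_of_mem_erase hj
      have h1 : (D j).filter (fun x => t ≤ pos x) ⊆
          cake_F pos (D j) t h ∪ (D j).filter (fun x => h ≤ pos x) := by
        intro x hx
        rw [mem_filter] at hx
        rw [mem_union, cake_mem, mem_filter]
        by_cases h4 : h ≤ pos x
        · exact Or.inr ⟨hx.1, h4⟩
        · exact Or.inl ⟨hx.1, hx.2, by omega⟩
      have h2 := (card_le_card h1).trans (card_union_le _ _)
      have h3 := hle j hj'
      have h4 := hD j hj'
      have h5 : (m + 1) * r = m * r + r := by ring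
      omega
    obtain ⟨lo, hi', c1, c2⟩ := ih (I.erase i) h (by rw [card_erase_of_mem hi, hI]; rfl) hrest
    refine ⟨fun j => if j = i then t else lo j, fun j => if j = i then h else hi' j, ?_, ?_⟩
    · intro j hj
      by_cases hji : j = i
      · subst hji
        simp only [if_true]
        exact ⟨le_rfl, hh⟩
      · simp only [if_neg hji]
        have := c1 j (mem_erase.2 ⟨hji, hj⟩)
        exact ⟨hth.le.trans this.1, this.2⟩
    · intro j hj k hk hjk
      by_cases hji : j = i
      · have hki : k ≠ i := fun h' => hjk (hji.trans h'.symm)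
        simp only [if_pos hji, if_neg hki]
        exact Or.inl (c1 k (mem_erase.2 ⟨hki, hk⟩)).1
      · by_cases hki : k = i
        · simp only [if_pos hki, if_neg hji]
          exact Or.inr (c1 j (mem_erase.2 ⟨hji, hj⟩)).1
        · simp only [if_neg hji, if_neg hki]
          exact c2 j (mem_erase.2 ⟨hji, hj⟩) k (mem_erase.2 ⟨hki, hk⟩) hjk

/-- cutting an interval at two positions -/
theorem cake_cut {n q : ℕ} {pos : Fin n → ℕ} {D : Finset (Fin n)} (hpos : Function.Injective pos)
    (u v : Fin n) (huv : pos u ≤ pos v) (lo hi : ℕ) (hq : 3 * q + 2 ≤ (cake_F pos D lo hi).card) :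
    ∃ lo' hi', lo ≤ lo' ∧ hi' ≤ hi ∧ q ≤ (cake_F pos D lo' hi').card ∧
      ¬ (lo' ≤ pos u ∧ pos u < hi') ∧ ¬ (lo' ≤ pos v ∧ pos v < hi') := by
  classical
  have h1 : cake_F pos D lo hi ⊆ ((cake_F pos D lo (min hi (pos u)) ∪
      cake_F pos D (max lo (pos u + 1)) (min hi (pos v))) ∪
      cake_F pos D (max lo (pos v + 1)) hi) ∪ {u, v} := by
    intro x hx
    rw [cake_mem] at hx
    rw [mem_union, mem_union, mem_union, cake_mem, cake_mem, cake_mem, mem_insert, mem_singleton]
    by_cases hu : pos x = pos u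
    · exact Or.inr (Or.inl (hpos hu))
    by_cases hv : pos x = pos v
    · exact Or.inr (Or.inr (hpos hv))
    left
    rcases lt_or_gt_of_ne hu with h2 | h2
    · exact Or.inl (Or.inl ⟨hx.1, hx.2.1, lt_min hx.2.2 h2⟩)
    · rcases lt_or_gt_of_ne hv with h3 | h3
      · exact Or.inl (Or.inr ⟨hx.1, max_le hx.2.1 h2, lt_min hx.2.2 h3⟩)
      · exact Or.inr ⟨hx.1, max_le hx.2.1 h3, hx.2.2⟩
  have h2 := (card_le_card h1).trans (card_union_le _ _)
  have h3 := card_union_le (cake_F pos D lo (min hi (pos u)) ∪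
      cake_F pos D (max lo (pos u + 1)) (min hi (pos v))) (cake_F pos D (max lo (pos v + 1)) hi)
  have h4 := card_union_le (cake_F pos D lo (min hi (pos u)))
    (cake_F pos D (max lo (pos u + 1)) (min hi (pos v)))
  have h5 : ({u, v} : Finset (Fin n)).card ≤ 2 := card_le_two
  by_cases k1 : q ≤ (cake_F pos D lo (min hi (pos u))).card
  · exact ⟨lo, min hi (pos u), le_rfl, min_le_left _ _, k1,
      fun h => absurd (lt_min_iff.1 h.2).2 (lt_irrefl _),
      fun h => absurd (lt_min_iff.1 h.2).2 (not_lt.2 huv)⟩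
  by_cases k2 : q ≤ (cake_F pos D (max lo (pos u + 1)) (min hi (pos v))).card
  · exact ⟨max lo (pos u + 1), min hi (pos v), le_max_left _ _, min_le_left _ _, k2,
      fun h => absurd (max_le_iff.1 h.1).2 (by omega),
      fun h => absurd (lt_min_iff.1 h.2).2 (lt_irrefl _)⟩
  refine ⟨max lo (pos v + 1), hi, le_max_left _ _, le_rfl, by omega,
      fun h => absurd (max_le_iff.1 h.1).2 (by omega),
      fun h => absurd (max_le_iff.1 h.1).2 (by omega)⟩

theorem tCake : S_Cake := by
  classical
  intro n L q pos u v D hpos hD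
  obtain ⟨lo, hi, c1, c2⟩ := cake_claim (D := D) hpos (r := 3 * q + 2) (by omega) L univ 0
    (by rw [card_univ, Fintype.card_fin]) (fun i _ => by
      have h1 : (D i).filter (fun x => 0 ≤ pos x) = D i := by
        rw [filter_true_of_mem]
        exact fun x _ => Nat.zero_le _
      rw [h1]
      exact hD i)
  have key : ∀ i, ∃ lo' hi', lo i ≤ lo' ∧ hi' ≤ hi i ∧ q ≤ (cake_F pos (D i) lo' hi').card ∧
      ¬ (lo' ≤ pos u ∧ pos u < hi') ∧ ¬ (lo' ≤ pos v ∧ pos v < hi') := by
    intro i
    rcases le_total (pos u) (pos v) with h | h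
    · exact cake_cut hpos u v h _ _ (c1 i (mem_univ i)).2
    · obtain ⟨a, b, k1, k2, k3, k4, k5⟩ := cake_cut hpos v u h _ _ (c1 i (mem_univ i)).2
      exact ⟨a, b, k1, k2, k3, k5, k4⟩
  choose lo' hi' k1 k2 k3 k4 k5 using key
  refine ⟨fun i => cake_F pos (D i) (lo' i) (hi' i), lo', hi', ?_, ?_⟩
  · intro i
    refine ⟨fun x hx => (cake_mem.1 hx).1, k3 i, fun x hx => (cake_mem.1 hx).2, k4 i, k5 i⟩
  · intro i j hij
    rcases c2 i (mem_univ i) j (mem_univ j) hij with h | h
    · exact Or.inl ((k2 i).trans (h.trans (k1 j)))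
    · exact Or.inr ((k2 j).trans (h.trans (k1 i)))

end Pool.Agent.MPd266dbH
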