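import Pool.Agent.Lib.MP_d266db_co.H.SpecQ

/-!
# MP_d266db_co, H: the cells (helper18)
-/

set_option autoImplicit false

namespace Pool.Agent.MPd266dbH

open Finset Pool.Agent.MPd266db

section

variable {n M : ℕ}

/-- the number of the elements as a sum over the fibres -/
theorem cel_fib {α : Type} [DecidableEq α] (H : Finset α) (π : α → Fin n) :
    ∑ v, ((H.filter (fun e => π e = v)).card : ℝ) = H.card := by
  classical
  have h := card_eq_sum_card_fiberwise (s := H) (f := π) (t := univ) (fun _ _ => mem_univ _)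
  rw [h, Nat.cast_sum]

theorem cel_chl (hChL : S_ChL) {α : Type} [DecidableEq α] (B : Finset (Fin M)) (H : Finset α)
    (π : α → Fin n) (D : ℕ) (t : ℝ) (hM : 1 ≤ M) (ht : 0 < t)
    (hD : ∀ v, (H.filter (fun e => π e = v)).card ≤ D) (S : Finset (Fin n → Fin M))
    (hS : ∀ c ∈ S, t ≤ |((H.filter (fun e => c (π e) ∈ B)).card : ℝ) -
      (B.card : ℝ) / M * H.card|) : (S.card : ℝ) * t ^ 2 ≤ (M : ℝ) ^ n * (D * H.card) := by
  classical
  have h := hChL n M B (fun v => ((H.filter (fun e => π e = v)).card : ℝ)) t hM ht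
  have hsum2 : ∀ c : Fin n → Fin M, ∑ v, ((H.filter (fun e => π e = v)).card : ℝ) *
      (if c v ∈ B then 1 else 0) = ((H.filter (fun e => c (π e) ∈ B)).card : ℝ) := by
    intro c
    rw [← cel_fib (H.filter (fun e => c (π e) ∈ B)) π]
    refine sum_congr rfl fun v _ => ?_
    by_cases hv : c v ∈ B
    · rw [if_pos hv, mul_one, filter_filter]
      congr 2
      ext e
      simp only [mem_filter]
      constructor
      · rintro ⟨h1, h2⟩
        exact ⟨h1, h2 ▸ hv, h2⟩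
      · rintro ⟨h1, _, h2⟩
        exact ⟨h1, h2⟩
    · rw [if_neg hv, mul_zero, filter_filter]
      symm
      rw [Nat.cast_eq_zero, card_eq_zero, filter_eq_empty_iff]
      rintro e _ ⟨h1, h2⟩
      exact hv (h2 ▸ h1)
  have hsq : ∑ v, ((H.filter (fun e => π e = v)).card : ℝ) ^ 2 ≤ D * H.card := by
    rw [← cel_fib H π, mul_sum]
    refine sum_le_sum fun v _ => ?_
    rw [sq]
    exact mul_le_mul_of_nonneg_right (by exact_mod_cast hD v) (Nat.cast_nonneg _)
  have hsub : S ⊆ univ.filter (fun c : Fin n → Fin M => t ≤ |∑ v,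
      ((H.filter (fun e => π e = v)).card : ℝ) * (if c v ∈ B then 1 else 0) - (B.card : ℝ) / M *
        ∑ v, ((H.filter (fun e => π e = v)).card : ℝ)|) := by
    intro c hc
    rw [mem_filter]
    refine ⟨mem_univ _, ?_⟩
    rw [hsum2, cel_fib]
    exact hS c hc
  have h1 : (S.card : ℝ) * t ^ 2 ≤ (M : ℝ) ^ n * ∑ v, ((H.filter (fun e => π e = v)).card : ℝ) ^ 2 := by
    refine le_trans (mul_le_mul_of_nonneg_right ?_ (sq_nonneg t)) h
    exact_mod_cast card_le_card hsub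
  exact h1.trans (mul_le_mul_of_nonneg_left hsq (by positivity))

theorem cel_chb (hChB : S_ChB) {Δ : ℕ} (B1 B2 : Finset (Fin M)) (L : Finset (Fin n × Fin n)) (t : ℝ)
    (hM : 1 ≤ M) (ht : 0 < t) (hl : ∀ e ∈ L, e.1 ≠ e.2) (hΔ : ∀ v, od L v ≤ Δ ∧ idg L v ≤ Δ)
    (S : Finset (Fin n → Fin M))
    (hS : ∀ c ∈ S, t ≤ |((L.filter (fun e => c e.1 ∈ B1 ∧ c e.2 ∈ B2)).card : ℝ) -
      (B1.card : ℝ) * B2.card / M ^ 2 * L.card|) :
    (S.card : ℝ) * t ^ 2 ≤ (M : ℝ) ^ n * (4 * Δ * L.card) := by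
  classical
  have h := hChB n M Δ B1 B2 L t hM ht hl hΔ
  refine le_trans (mul_le_mul_of_nonneg_right ?_ (sq_nonneg t)) h
  have hsub : S ⊆ univ.filter (fun c : Fin n → Fin M =>
      t ≤ |((L.filter (fun e => c e.1 ∈ B1 ∧ c e.2 ∈ B2)).card : ℝ) -
        (B1.card : ℝ) * B2.card / M ^ 2 * L.card|) := by
    intro c hc
    rw [mem_filter]
    exact ⟨mem_univ _, hS c hc⟩
  exact_mod_cast card_le_card hsub

/-- from Chebyshev to a bound of the number of the bad functions -/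
theorem cel_num {x T h m D ε δ : ℝ} (hx : 0 ≤ x) (hT : 0 ≤ T) (hh : 0 ≤ h) (hm : 0 < m) (hε : 0 < ε)
    (hδ : 0 ≤ δ) (hD : D ≤ δ * m) (h0 : x * (ε * (h + m)) ^ 2 ≤ T * (D * h)) :
    x ≤ T * (δ / (4 * ε ^ 2)) := by
  rcases hh.eq_or_lt with hz | hp
  · rw [← hz, zero_add, mul_zero, mul_zero] at h0
    have h1 : 0 < (ε * m) ^ 2 := by positivity
    have h2 : x ≤ 0 := by
      by_contra hc
      have := mul_pos (not_le.1 hc) h1
      linarith
    have h3 : 0 ≤ T * (δ / (4 * ε ^ 2)) := by positivity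
    linarith
  · have h1 : 4 * (h * m) ≤ (h + m) ^ 2 := by nlinarith [sq_nonneg (h - m)]
    have h2 : x * ε ^ 2 * (4 * (h * m)) ≤ x * ε ^ 2 * (h + m) ^ 2 :=
      mul_le_mul_of_nonneg_left h1 (by positivity)
    have h3 : T * (D * h) ≤ T * (δ * m * h) :=
      mul_le_mul_of_nonneg_left (mul_le_mul_of_nonneg_right hD hh) hT
    have h4 : x * ε ^ 2 * (h + m) ^ 2 = x * (ε * (h + m)) ^ 2 := by ring
    have h5 : (x * (4 * ε ^ 2)) * (h * m) ≤ (T * δ) * (h * m) := by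
      have e1 : (x * (4 * ε ^ 2)) * (h * m) = x * ε ^ 2 * (4 * (h * m)) := by ring
      have e2 : (T * δ) * (h * m) = T * (δ * m * h) := by ring
      rw [e1, e2]
      linarith
    have h6 := le_of_mul_le_mul_right h5 (mul_pos hp hm)
    rw [← mul_div_assoc, le_div_iff₀ (by positivity)]
    exact h6

theorem cel_union {α ι : Type} [Fintype α] [DecidableEq α] (I : Finset ι) (P : ι → α → Prop)
    [∀ x, DecidablePred (P x)] [DecidablePred fun c => ∃ x ∈ I, P x c] (β : ℝ)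
    (h : ∀ x ∈ I, ((univ.filter (P x)).card : ℝ) ≤ β) :
    ((univ.filter (fun c => ∃ x ∈ I, P x c)).card : ℝ) ≤ I.card * β := by
  have h1 : univ.filter (fun c => ∃ x ∈ I, P x c) ⊆ I.biUnion (fun x => univ.filter (P x)) := by
    intro c hc
    obtain ⟨x, hx, hc'⟩ := (mem_filter.1 hc).2
    exact mem_biUnion.2 ⟨x, hx, mem_filter.2 ⟨mem_univ _, hc'⟩⟩
  have h2 : ((univ.filter (fun c => ∃ x ∈ I, P x c)).card : ℝ) ≤
      ∑ x ∈ I, ((univ.filter (P x)).card : ℝ) := by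
    have := (card_le_card h1).trans card_biUnion_le
    exact_mod_cast this
  refine h2.trans ?_
  have h3 := sum_le_card_nsmul I _ β h
  rwa [nsmul_eq_mul] at h3

theorem cel_exists {α : Type} [Fintype α] [DecidableEq α] (S1 S2 S3 S4 S5 : Finset α)
    (h : (S1.card : ℝ) + S2.card + S3.card + S4.card + S5.card < Fintype.card α) :
    ∃ c, c ∉ S1 ∧ c ∉ S2 ∧ c ∉ S3 ∧ c ∉ S4 ∧ c ∉ S5 := by
  by_contra hc
  push Not at hc
  have h1 : (univ : Finset α) ⊆ S1 ∪ (S2 ∪ (S3 ∪ (S4 ∪ S5))) := by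
    intro c _
    by_cases h1 : c ∈ S1
    · exact mem_union_left _ h1
    · refine mem_union_right _ ?_
      by_cases h2 : c ∈ S2
      · exact mem_union_left _ h2
      · refine mem_union_right _ ?_
        by_cases h3 : c ∈ S3
        · exact mem_union_left _ h3
        · refine mem_union_right _ ?_
          by_cases h4 : c ∈ S4
          · exact mem_union_left _ h4
          · exact mem_union_right _ (hc c h1 h2 h3 h4)
  have h2 := card_le_card h1
  have h3 := card_union_le S1 (S2 ∪ (S3 ∪ (S4 ∪ S5)))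
  have h4 := card_union_le S2 (S3 ∪ (S4 ∪ S5))
  have h5 := card_union_le S3 (S4 ∪ S5)
  have h6 := card_union_le S4 S5
  rw [card_univ] at h2
  have h7 : Fintype.card α ≤ S1.card + S2.card + S3.card + S4.card + S5.card := by omega
  have h8 : (Fintype.card α : ℝ) ≤ (S1.card : ℝ) + S2.card + S3.card + S4.card + S5.card := by
    exact_mod_cast h7
  linarith

/-- bad functions for a set of vertices -/
theorem cel_f1 (hChL : S_ChL) (hM : 1 ≤ M) (hn : 1 ≤ n) {ε : ℝ} (hε : 0 < ε) (W : Finset (Fin n))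
    (B : Finset (Fin M)) (S : Finset (Fin n → Fin M))
    (hS : ∀ c ∈ S, ε * n < |((W.filter (fun w => c w ∈ B)).card : ℝ) -
      (B.card : ℝ) / M * W.card|) : (S.card : ℝ) ≤ (M : ℝ) ^ n / (ε ^ 2 * n) := by
  classical
  have hnp : (0 : ℝ) < n := by exact_mod_cast hn
  have h := cel_chl hChL B W id 1 (ε * n) hM (by positivity) (fun v => by
    refine card_le_one.2 fun a ha b hb => ?_
    rw [mem_filter] at ha hb
    exact ha.2.trans hb.2.symm) S (fun c hc => (hS c hc).le)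
  have h1 : (W.card : ℝ) ≤ n := by
    have := card_le_univ W
    rw [Fintype.card_fin] at this
    exact_mod_cast this
  have h2 : (M : ℝ) ^ n * (((1 : ℕ) : ℝ) * W.card) ≤ (M : ℝ) ^ n * n := by
    rw [Nat.cast_one, one_mul]
    exact mul_le_mul_of_nonneg_left h1 (by positivity)
  rw [le_div_iff₀ (by positivity)]
  have h3 : (S.card : ℝ) * (ε ^ 2 * n) * n ≤ (M : ℝ) ^ n * n := by
    have e1 : (S.card : ℝ) * (ε ^ 2 * n) * n = S.card * (ε * n) ^ 2 := by ring
    rw [e1]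
    exact h.trans h2
  exact le_of_mul_le_mul_right h3 hnp

/-- bad functions for a set of arcs, one end -/
theorem cel_f2 (hChL : S_ChL) (hM : 1 ≤ M) (hn : 1 ≤ n) {ε δ : ℝ} (hε : 0 < ε) (hδ : 0 ≤ δ)
    (H : Finset (Fin n × Fin n)) (π : Fin n × Fin n → Fin n) (D : ℕ)
    (hD : ∀ v, (H.filter (fun e => π e = v)).card ≤ D) (hDδ : (D : ℝ) ≤ δ * n)
    (B : Finset (Fin M)) (S : Finset (Fin n → Fin M))
    (hS : ∀ c ∈ S, ε * (H.card + n) < |((H.filter (fun e => c (π e) ∈ B)).card : ℝ) -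
      (B.card : ℝ) / M * H.card|) : (S.card : ℝ) ≤ (M : ℝ) ^ n * (δ / (4 * ε ^ 2)) := by
  classical
  have hnp : (0 : ℝ) < n := by exact_mod_cast hn
  have h := cel_chl hChL B H π D (ε * (H.card + n)) hM (by positivity) hD S
    (fun c hc => (hS c hc).le)
  exact cel_num (by positivity) (by positivity) (by positivity) hnp hε hδ hDδ h

/-- bad functions for a set of arcs, both ends -/
theorem cel_f3 (hChB : S_ChB) (hM : 1 ≤ M) (hn : 1 ≤ n) {ε δ : ℝ} {Δ : ℕ} (hε : 0 < ε) (hδ : 0 ≤ δ)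
    (L : Finset (Fin n × Fin n)) (hl : ∀ e ∈ L, e.1 ≠ e.2) (hΔ : ∀ v, od L v ≤ Δ ∧ idg L v ≤ Δ)
    (hDδ : (Δ : ℝ) ≤ δ * n) (B1 B2 : Finset (Fin M)) (S : Finset (Fin n → Fin M))
    (hS : ∀ c ∈ S, ε * (L.card + n) < |((L.filter (fun e => c e.1 ∈ B1 ∧ c e.2 ∈ B2)).card : ℝ) -
      (B1.card : ℝ) * B2.card / M ^ 2 * L.card|) :
    (S.card : ℝ) ≤ (M : ℝ) ^ n * (4 * δ / (4 * ε ^ 2)) := by
  classical
  have hnp : (0 : ℝ) < n := by exact_mod_cast hn
  have h := cel_chb hChB B1 B2 L (ε * (L.card + n)) hM (by positivity) hl hΔ S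
    (fun c hc => (hS c hc).le)
  exact cel_num (by positivity) (by positivity) (by positivity) hnp hε (by positivity)
    (by linarith : (4 : ℝ) * Δ ≤ 4 * δ * n) h

/-- the sums of the bounds -/
theorem cel_sum1 {T ε δ m v M' K' K0' : ℝ} (hT : 0 < T) (hε : 0 < ε) (hm : 0 < m) (hM : 0 ≤ M')
    (hK' : 0 ≤ K') (hK : K' ≤ K0') (hK0 : 1 ≤ K0') (hv0 : 0 ≤ v) (hv : v ≤ δ * m)
    (hδ : 0 ≤ δ) (h2 : δ * (64 * M' * K0' ^ 2) ≤ ε ^ 2) :
    v * (M' * K') * (T / (ε ^ 2 * m)) ≤ T / 16 := by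
  have h3 : v * (M' * K') ≤ δ * m * (M' * K0') :=
    mul_le_mul hv (mul_le_mul_of_nonneg_left hK hM) (by positivity) (by positivity)
  have h4 : v * (M' * K') * (T / (ε ^ 2 * m)) ≤ δ * m * (M' * K0') * (T / (ε ^ 2 * m)) :=
    mul_le_mul_of_nonneg_right h3 (by positivity)
  refine h4.trans ?_
  rw [← mul_div_assoc, div_le_div_iff₀ (by positivity) (by norm_num)]
  have h5 : K0' ≤ K0' ^ 2 := by nlinarith
  have h6 : δ * M' * K0' ≤ δ * M' * K0' ^ 2 := mul_le_mul_of_nonneg_left h5 (by positivity)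
  have h7 : δ * M' * K0' * 16 ≤ ε ^ 2 := by
    have : 0 ≤ δ * M' * K0' ^ 2 := by positivity
    linarith
  have h8 : 0 < m * T := by positivity
  have h9 := mul_le_mul_of_nonneg_right h7 h8.le
  have e1 : δ * m * (M' * K0') * T * 16 = δ * M' * K0' * 16 * (m * T) := by ring
  have e2 : T * (ε ^ 2 * m) = ε ^ 2 * (m * T) := by ring
  rw [e1, e2]
  exact h9

theorem cel_sum2 {T ε δ M' K' K0' : ℝ} (hT : 0 < T) (hε : 0 < ε) (hM : 0 ≤ M')
    (hK' : 0 ≤ K') (hK : K' ≤ K0') (hδ : 0 ≤ δ)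
    (h2 : δ * (16 * M' * K0' ^ 2) ≤ ε ^ 2) :
    M' * (K' * K') * (T * (4 * δ / (4 * ε ^ 2))) ≤ T / 16 := by
  have h3 : M' * (K' * K') ≤ M' * (K0' * K0') :=
    mul_le_mul_of_nonneg_left (mul_le_mul hK hK hK' (hK'.trans hK)) hM
  have h4 : M' * (K' * K') * (T * (4 * δ / (4 * ε ^ 2))) ≤
      M' * (K0' * K0') * (T * (4 * δ / (4 * ε ^ 2))) :=
    mul_le_mul_of_nonneg_right h3 (by positivity)
  refine h4.trans ?_
  rw [← mul_div_assoc, ← mul_div_assoc, div_le_div_iff₀ (by positivity) (by norm_num)]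
  have h9 := mul_le_mul_of_nonneg_right h2 (show 0 ≤ 4 * T by positivity)
  have e1 : M' * (K0' * K0') * (T * (4 * δ)) * 16 = δ * (16 * M' * K0' ^ 2) * (4 * T) := by ring
  have e2 : T * (4 * ε ^ 2) = ε ^ 2 * (4 * T) := by ring
  rw [e1, e2]
  exact h9

theorem cel_main (hChL : S_ChL) (hChB : S_ChB) {K K0 : ℕ} (A : Finset (Fin n × Fin n))
    (o i : Fin n → Fin K) (b : Fin M → Fin M → Bool) (V0 : Finset (Fin n)) (ε γ1 δ : ℝ)
    (hn : 1 ≤ n) (hM : 1 ≤ M) (hK0 : 1 ≤ K0) (hK : K ≤ K0) (hε : 0 < ε) (hγ1 : 0 < γ1)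
    (hδ : 0 < δ) (h1 : γ1 * (16 * M * K0 ^ 2) ≤ ε ^ 2) (h2 : δ * (64 * M * K0 ^ 2) ≤ ε ^ 2)
    (hδγ : δ ≤ γ1) (hV : (V0.card : ℝ) ≤ δ * n)
    (hV1 : ∀ v, v ∉ V0 → ∀ a, (eb A {v} (Cl i a) : ℝ) < γ1 * n ∧
      (eb A (Cl o a) {v} : ℝ) < γ1 * n) (hloop : ∀ e ∈ A, e.1 ≠ e.2) :
    ∃ c : Fin n → Fin M,
      (∀ m a, ∀ u ∈ V0,
        |((univ.filter (fun w => w ∉ V0 ∧ (u, w) ∈ A ∧ i w = a ∧ b m (c w) = true)).card : ℝ) -
          ((univ.filter (fun p => b m p = true)).card : ℝ) / M *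
          (univ.filter (fun w => w ∉ V0 ∧ (u, w) ∈ A ∧ i w = a)).card| ≤ ε * n ∧
        |((univ.filter (fun w => w ∉ V0 ∧ (w, u) ∈ A ∧ o w = a ∧ b m (c w) = false)).card : ℝ) -
          ((univ.filter (fun p => b m p = false)).card : ℝ) / M *
          (univ.filter (fun w => w ∉ V0 ∧ (w, u) ∈ A ∧ o w = a)).card| ≤ ε * n) ∧
      ∀ m a a',
        (((univ.filter (fun p => b m p = true)).card : ℝ) / M *
          ((A.filter (fun e => e.1 ∈ V0 ∧ e.2 ∉ V0 ∧ o e.1 = a ∧ i e.2 = a')).card : ℝ) -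
          ε * ((A.filter (fun e => e.1 ∈ V0 ∧ e.2 ∉ V0 ∧ o e.1 = a ∧ i e.2 = a')).card + n) ≤
          (A.filter (fun e => (e.1 ∈ V0 ∧ e.2 ∉ V0 ∧ o e.1 = a ∧ i e.2 = a') ∧
            b m (c e.2) = true)).card) ∧
        (((univ.filter (fun p => b m p = false)).card : ℝ) / M *
          ((A.filter (fun e => e.1 ∉ V0 ∧ e.2 ∈ V0 ∧ o e.1 = a ∧ i e.2 = a')).card : ℝ) -
          ε * ((A.filter (fun e => e.1 ∉ V0 ∧ e.2 ∈ V0 ∧ o e.1 = a ∧ i e.2 = a')).card + n) ≤
          (A.filter (fun e => (e.1 ∉ V0 ∧ e.2 ∈ V0 ∧ o e.1 = a ∧ i e.2 = a') ∧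
            b m (c e.1) = false)).card) ∧
        (((univ.filter (fun p => b m p = false)).card : ℝ) *
            (univ.filter (fun p => b m p = true)).card / M ^ 2 *
          ((A.filter (fun e => (e.1 ∈ V0 ↔ e.2 ∈ V0) ∧ o e.1 = a ∧ i e.2 = a')).card : ℝ) -
          ε * ((A.filter (fun e => (e.1 ∈ V0 ↔ e.2 ∈ V0) ∧ o e.1 = a ∧ i e.2 = a')).card + n) ≤
          (A.filter (fun e => ((e.1 ∈ V0 ↔ e.2 ∈ V0) ∧ o e.1 = a ∧ i e.2 = a') ∧
            b m (c e.1) = false ∧ b m (c e.2) = true)).card) := by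
  classical
  have hnp : (0 : ℝ) < n := by exact_mod_cast hn
  have hMp : (0 : ℝ) < M := by exact_mod_cast hM
  have hT : (0 : ℝ) < (M : ℝ) ^ n := by positivity
  have hKr : (K : ℝ) ≤ K0 := by exact_mod_cast hK
  have hK0r : (1 : ℝ) ≤ K0 := by exact_mod_cast hK0
  have hKp : (0 : ℝ) ≤ K := Nat.cast_nonneg K
  have h2' : δ / 4 * (16 * M * K0 ^ 2) ≤ ε ^ 2 := by
    have : 0 ≤ δ * (M * K0 ^ 2) := by positivity
    linarith
  -- the bad events
  let P1 : Fin n × Fin M × Fin K → (Fin n → Fin M) → Prop := fun x c => ε * n <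
    |(((univ.filter (fun w => w ∉ V0 ∧ (x.1, w) ∈ A ∧ i w = x.2.2)).filter
      (fun w => c w ∈ univ.filter (fun p => b x.2.1 p = true))).card : ℝ) -
      ((univ.filter (fun p => b x.2.1 p = true)).card : ℝ) / M *
      (univ.filter (fun w => w ∉ V0 ∧ (x.1, w) ∈ A ∧ i w = x.2.2)).card|
  let P2 : Fin n × Fin M × Fin K → (Fin n → Fin M) → Prop := fun x c => ε * n <
    |(((univ.filter (fun w => w ∉ V0 ∧ (w, x.1) ∈ A ∧ o w = x.2.2)).filter
      (fun w => c w ∈ univ.filter (fun p => b x.2.1 p = false))).card : ℝ) -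
      ((univ.filter (fun p => b x.2.1 p = false)).card : ℝ) / M *
      (univ.filter (fun w => w ∉ V0 ∧ (w, x.1) ∈ A ∧ o w = x.2.2)).card|
  let H1 : Fin K → Fin K → Finset (Fin n × Fin n) := fun a a' =>
    A.filter (fun e => e.1 ∈ V0 ∧ e.2 ∉ V0 ∧ o e.1 = a ∧ i e.2 = a')
  let H2 : Fin K → Fin K → Finset (Fin n × Fin n) := fun a a' =>
    A.filter (fun e => e.1 ∉ V0 ∧ e.2 ∈ V0 ∧ o e.1 = a ∧ i e.2 = a')
  let L : Fin K → Fin K → Finset (Fin n × Fin n) := fun a a' =>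
    A.filter (fun e => (e.1 ∈ V0 ↔ e.2 ∈ V0) ∧ o e.1 = a ∧ i e.2 = a')
  let P3 : Fin M × Fin K × Fin K → (Fin n → Fin M) → Prop := fun x c =>
    ε * ((H1 x.2.1 x.2.2).card + n) < |(((H1 x.2.1 x.2.2).filter
      (fun e => c e.2 ∈ univ.filter (fun p => b x.1 p = true))).card : ℝ) -
      ((univ.filter (fun p => b x.1 p = true)).card : ℝ) / M * (H1 x.2.1 x.2.2).card|
  let P4 : Fin M × Fin K × Fin K → (Fin n → Fin M) → Prop := fun x c =>
    ε * ((H2 x.2.1 x.2.2).card + n) < |(((H2 x.2.1 x.2.2).filter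
      (fun e => c e.1 ∈ univ.filter (fun p => b x.1 p = false))).card : ℝ) -
      ((univ.filter (fun p => b x.1 p = false)).card : ℝ) / M * (H2 x.2.1 x.2.2).card|
  let P5 : Fin M × Fin K × Fin K → (Fin n → Fin M) → Prop := fun x c =>
    ε * ((L x.2.1 x.2.2).card + n) < |(((L x.2.1 x.2.2).filter
      (fun e => c e.1 ∈ univ.filter (fun p => b x.1 p = false) ∧
        c e.2 ∈ univ.filter (fun p => b x.1 p = true))).card : ℝ) -
      ((univ.filter (fun p => b x.1 p = false)).card : ℝ) *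
        (univ.filter (fun p => b x.1 p = true)).card / M ^ 2 * (L x.2.1 x.2.2).card|
  have hI1 : (((V0 ×ˢ (univ : Finset (Fin M × Fin K))).card : ℕ) : ℝ) = V0.card * (M * K) := by
    rw [card_product, card_univ, Fintype.card_prod, Fintype.card_fin, Fintype.card_fin]
    push_cast
    ring
  have hI2 : (((univ : Finset (Fin M × Fin K × Fin K)).card : ℕ) : ℝ) = M * (K * K) := by
    rw [card_univ, Fintype.card_prod, Fintype.card_prod, Fintype.card_fin, Fintype.card_fin]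
    push_cast
    ring
  have c1 := cel_union (V0 ×ˢ (univ : Finset (Fin M × Fin K))) P1 ((M : ℝ) ^ n / (ε ^ 2 * n))
    (fun x _ => cel_f1 hChL hM hn hε _ _ _ (fun c hc => (mem_filter.1 hc).2))
  have c2 := cel_union (V0 ×ˢ (univ : Finset (Fin M × Fin K))) P2 ((M : ℝ) ^ n / (ε ^ 2 * n))
    (fun x _ => cel_f1 hChL hM hn hε _ _ _ (fun c hc => (mem_filter.1 hc).2))
  rw [hI1] at c1 c2
  have d1 := c1.trans (cel_sum1 hT hε hnp hMp.le hKp hKr hK0r (Nat.cast_nonneg _) hV hδ.le h2)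
  have d2 := c2.trans (cel_sum1 hT hε hnp hMp.le hKp hKr hK0r (Nat.cast_nonneg _) hV hδ.le h2)
  have hVn : ∀ (H : Finset (Fin n × Fin n)) (v : Fin n), (∀ e ∈ H, e.1 ∈ V0) →
      (H.filter (fun e => e.2 = v)).card ≤ V0.card := by
    intro H v hH
    refine card_le_card_of_injOn (fun e => e.1) (fun e he => ?_) ?_
    · have he' := mem_filter.1 (mem_coe.1 he)
      exact mem_coe.2 (hH e he'.1)
    · intro e he f hf hef
      have he' := mem_filter.1 (mem_coe.1 he)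
      have hf' := mem_filter.1 (mem_coe.1 hf)
      exact Prod.ext hef (he'.2.trans hf'.2.symm)
  have hVn' : ∀ (H : Finset (Fin n × Fin n)) (v : Fin n), (∀ e ∈ H, e.2 ∈ V0) →
      (H.filter (fun e => e.1 = v)).card ≤ V0.card := by
    intro H v hH
    refine card_le_card_of_injOn (fun e => e.2) (fun e he => ?_) ?_
    · have he' := mem_filter.1 (mem_coe.1 he)
      exact mem_coe.2 (hH e he'.1)
    · intro e he f hf hef
      have he' := mem_filter.1 (mem_coe.1 he)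
      have hf' := mem_filter.1 (mem_coe.1 hf)
      exact Prod.ext (he'.2.trans hf'.2.symm) hef
  have c3 := cel_union (univ : Finset (Fin M × Fin K × Fin K)) P3
    ((M : ℝ) ^ n * (δ / (4 * ε ^ 2))) (fun x _ => cel_f2 hChL hM hn hε hδ.le (H1 x.2.1 x.2.2)
      (fun e => e.2) V0.card (fun v => hVn _ v (fun e he => (mem_filter.1 he).2.1)) hV _ _
      (fun c hc => (mem_filter.1 hc).2))
  have c4 := cel_union (univ : Finset (Fin M × Fin K × Fin K)) P4
    ((M : ℝ) ^ n * (δ / (4 * ε ^ 2))) (fun x _ => cel_f2 hChL hM hn hε hδ.le (H2 x.2.1 x.2.2)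
      (fun e => e.1) V0.card (fun v => hVn' _ v (fun e he => (mem_filter.1 he).2.2.1)) hV _ _
      (fun c hc => (mem_filter.1 hc).2))
  have hγn : 0 ≤ γ1 * n := by positivity
  have hVγ : (V0.card : ℝ) ≤ γ1 * n := hV.trans (mul_le_mul_of_nonneg_right hδγ hnp.le)
  have hfl : ∀ d : ℕ, (d : ℝ) ≤ γ1 * n → d ≤ ⌊γ1 * n⌋₊ := fun d hd => Nat.le_floor hd
  have hdeg : ∀ a a' v, od (L a a') v ≤ ⌊γ1 * n⌋₊ ∧ idg (L a a') v ≤ ⌊γ1 * n⌋₊ := by
    intro a a' v
    by_cases hv : v ∈ V0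
    · constructor
      · refine (?_ : od (L a a') v ≤ V0.card).trans (hfl _ hVγ)
        have h3 := hVn' ((L a a').filter (fun e => e.1 = v)) v (fun e he => by
          have h4 := mem_filter.1 he
          have h5 := mem_filter.1 h4.1
          exact h5.2.1.1 (h4.2 ▸ hv))
        rw [filter_filter] at h3
        unfold od
        simpa only [and_self] using h3
      · refine (?_ : idg (L a a') v ≤ V0.card).trans (hfl _ hVγ)
        have h3 := hVn ((L a a').filter (fun e => e.2 = v)) v (fun e he => by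
          have h4 := mem_filter.1 he
          have h5 := mem_filter.1 h4.1
          exact h5.2.1.2 (h4.2 ▸ hv))
        rw [filter_filter] at h3
        unfold idg
        simpa only [and_self] using h3
    · constructor
      · refine hfl _ (le_trans ?_ (hV1 v hv a').1.le)
        have h3 : od (L a a') v ≤ eb A {v} (Cl i a') := by
          unfold od eb
          refine card_le_card fun e he => ?_
          have h4 := mem_filter.1 he
          have h5 := mem_filter.1 h4.1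
          refine mem_filter.2 ⟨h5.1, mem_singleton.2 h4.2, ?_⟩
          unfold Cl
          exact mem_filter.2 ⟨mem_univ _, h5.2.2.2⟩
        exact_mod_cast h3
      · refine hfl _ (le_trans ?_ (hV1 v hv a).2.le)
        have h3 : idg (L a a') v ≤ eb A (Cl o a) {v} := by
          unfold idg eb
          refine card_le_card fun e he => ?_
          have h4 := mem_filter.1 he
          have h5 := mem_filter.1 h4.1
          refine mem_filter.2 ⟨h5.1, ?_, mem_singleton.2 h4.2⟩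
          unfold Cl
          exact mem_filter.2 ⟨mem_univ _, h5.2.2.1⟩
        exact_mod_cast h3
  have c5 := cel_union (univ : Finset (Fin M × Fin K × Fin K)) P5
    ((M : ℝ) ^ n * (4 * γ1 / (4 * ε ^ 2))) (fun x _ => cel_f3 hChB hM hn hε hγ1.le (L x.2.1 x.2.2)
      (fun e he => hloop e (mem_filter.1 he).1) (hdeg x.2.1 x.2.2) (Nat.floor_le hγn) _ _ _
      (fun c hc => (mem_filter.1 hc).2))
  rw [hI2] at c3 c4 c5
  have e4 : (M : ℝ) ^ n * (δ / (4 * ε ^ 2)) = (M : ℝ) ^ n * (4 * (δ / 4) / (4 * ε ^ 2)) := by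
    congr 2
    ring
  rw [e4] at c3 c4
  have d3 := c3.trans (cel_sum2 hT hε hMp.le hKp hKr (by positivity) h2')
  have d4 := c4.trans (cel_sum2 hT hε hMp.le hKp hKr (by positivity) h2')
  have d5 := c5.trans (cel_sum2 hT hε hMp.le hKp hKr hγ1.le h1)
  obtain ⟨c, g1, g2, g3, g4, g5⟩ := cel_exists
    (univ.filter (fun c => ∃ x ∈ (V0 ×ˢ (univ : Finset (Fin M × Fin K))), P1 x c))
    (univ.filter (fun c => ∃ x ∈ (V0 ×ˢ (univ : Finset (Fin M × Fin K))), P2 x c))
    (univ.filter (fun c => ∃ x ∈ (univ : Finset (Fin M × Fin K × Fin K)), P3 x c))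
    (univ.filter (fun c => ∃ x ∈ (univ : Finset (Fin M × Fin K × Fin K)), P4 x c))
    (univ.filter (fun c => ∃ x ∈ (univ : Finset (Fin M × Fin K × Fin K)), P5 x c)) (by
      have h3 : ((Fintype.card (Fin n → Fin M) : ℕ) : ℝ) = (M : ℝ) ^ n := by
        rw [Fintype.card_fun, Fintype.card_fin, Fintype.card_fin]
        push_cast
        rfl
      rw [h3]
      linarith)
  have gen : ∀ {ι : Type} {I : Finset ι} {P : ι → (Fin n → Fin M) → Prop},
      c ∉ univ.filter (fun c => ∃ x ∈ I, P x c) → ∀ x ∈ I, ¬ P x c := by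
    intro ι I P h x hx hP
    exact h (mem_filter.2 ⟨mem_univ _, x, hx, hP⟩)
  refine ⟨c, fun m a u hu => ⟨?_, ?_⟩, fun m a a' => ⟨?_, ?_, ?_⟩⟩
  · have h3 := not_lt.1 (gen g1 (u, m, a) (mem_product.2 ⟨hu, mem_univ _⟩))
    have h4 : (univ.filter (fun w => w ∉ V0 ∧ (u, w) ∈ A ∧ i w = a)).filter
        (fun w => c w ∈ univ.filter (fun p => b m p = true)) =
        univ.filter (fun w => w ∉ V0 ∧ (u, w) ∈ A ∧ i w = a ∧ b m (c w) = true) := by
      ext w
      simp only [mem_filter, mem_univ, true_and]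
      tauto
    rw [← h4]
    exact h3
  · have h3 := not_lt.1 (gen g2 (u, m, a) (mem_product.2 ⟨hu, mem_univ _⟩))
    have h4 : (univ.filter (fun w => w ∉ V0 ∧ (w, u) ∈ A ∧ o w = a)).filter
        (fun w => c w ∈ univ.filter (fun p => b m p = false)) =
        univ.filter (fun w => w ∉ V0 ∧ (w, u) ∈ A ∧ o w = a ∧ b m (c w) = false) := by
      ext w
      simp only [mem_filter, mem_univ, true_and]
      tauto
    rw [← h4]
    exact h3
  · have h3 := (abs_le.1 (not_lt.1 (gen g3 (m, a, a') (mem_univ _)))).1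
    have h4 : (H1 a a').filter (fun e => c e.2 ∈ univ.filter (fun p => b m p = true)) =
        A.filter (fun e => (e.1 ∈ V0 ∧ e.2 ∉ V0 ∧ o e.1 = a ∧ i e.2 = a') ∧
            b m (c e.2) = true) := by
      ext e
      simp only [H1, mem_filter, mem_univ, true_and]
      tauto
    rw [← h4]
    have h5 : -(ε * (((H1 a a').card : ℝ) + n)) ≤ (((H1 a a').filter
      (fun e => c e.2 ∈ univ.filter (fun p => b m p = true))).card : ℝ) -
      ((univ.filter (fun p => b m p = true)).card : ℝ) / M * (H1 a a').card := h3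
    linarith
  · have h3 := (abs_le.1 (not_lt.1 (gen g4 (m, a, a') (mem_univ _)))).1
    have h4 : (H2 a a').filter (fun e => c e.1 ∈ univ.filter (fun p => b m p = false)) =
        A.filter (fun e => (e.1 ∉ V0 ∧ e.2 ∈ V0 ∧ o e.1 = a ∧ i e.2 = a') ∧
            b m (c e.1) = false) := by
      ext e
      simp only [H2, mem_filter, mem_univ, true_and]
      tauto
    rw [← h4]
    have h5 : -(ε * (((H2 a a').card : ℝ) + n)) ≤ (((H2 a a').filter
      (fun e => c e.1 ∈ univ.filter (fun p => b m p = false))).card : ℝ) -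
      ((univ.filter (fun p => b m p = false)).card : ℝ) / M * (H2 a a').card := h3
    linarith
  · have h3 := (abs_le.1 (not_lt.1 (gen g5 (m, a, a') (mem_univ _)))).1
    have h4 : (L a a').filter (fun e => c e.1 ∈ univ.filter (fun p => b m p = false) ∧
        c e.2 ∈ univ.filter (fun p => b m p = true)) =
        A.filter (fun e => ((e.1 ∈ V0 ↔ e.2 ∈ V0) ∧ o e.1 = a ∧ i e.2 = a') ∧
            b m (c e.1) = false ∧ b m (c e.2) = true) := by
      ext e
      simp only [L, mem_filter, mem_univ, true_and]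
      tauto
    rw [← h4]
    have h5 : -(ε * (((L a a').card : ℝ) + n)) ≤ (((L a a').filter
      (fun e => c e.1 ∈ univ.filter (fun p => b m p = false) ∧
        c e.2 ∈ univ.filter (fun p => b m p = true))).card : ℝ) -
      ((univ.filter (fun p => b m p = false)).card : ℝ) *
        (univ.filter (fun p => b m p = true)).card / M ^ 2 * (L a a').card := h3
    linarith

theorem cel_cnt (V : Finset (Fin n)) (d : Fin n → ℕ) {γ1 δ s : ℝ} (hn : 1 ≤ n) (hγ1 : 0 < γ1)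
    (hd : ∀ v ∈ V, γ1 * n ≤ d v) (hs : ((∑ v, d v : ℕ) : ℝ) ≤ s)
    (hA : s ≤ γ1 * δ / 2 * (n : ℝ) ^ 2) : (V.card : ℝ) ≤ δ / 2 * n := by
  classical
  have hnp : (0 : ℝ) < n := by exact_mod_cast hn
  have h1 : (V.card : ℝ) * (γ1 * n) ≤ ∑ v ∈ V, (d v : ℝ) := by
    have h2 := card_nsmul_le_sum V (fun v => (d v : ℝ)) (γ1 * n) (fun v hv => hd v hv)
    rwa [nsmul_eq_mul] at h2
  have h2 : ∑ v ∈ V, (d v : ℝ) ≤ ∑ v, (d v : ℝ) :=
    sum_le_sum_of_subset_of_nonneg (subset_univ V) (fun v _ _ => Nat.cast_nonneg _)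
  have h3 : ((∑ v, d v : ℕ) : ℝ) = ∑ v, (d v : ℝ) := by push_cast; rfl
  rw [h3] at hs
  have h4 : (V.card : ℝ) * (γ1 * n) ≤ δ / 2 * n * (γ1 * n) := by
    refine (h1.trans (h2.trans (hs.trans hA))).trans (le_of_eq ?_)
    ring
  exact le_of_mul_le_mul_right h4 (mul_pos hγ1 hnp)

theorem cel_V0 {K : ℕ} (A : Finset (Fin n × Fin n)) (o i : Fin n → Fin K) {γ1 δ : ℝ} (hn : 1 ≤ n)
    (hγ1 : 0 < γ1) (hA : (A.card : ℝ) ≤ γ1 * δ / 2 * (n : ℝ) ^ 2) :
    ∃ V0 : Finset (Fin n), (V0.card : ℝ) ≤ δ * n ∧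
      ∀ v, v ∉ V0 → ∀ a, (eb A {v} (Cl i a) : ℝ) < γ1 * n ∧
      (eb A (Cl o a) {v} : ℝ) < γ1 * n := by
  classical
  refine ⟨univ.filter (fun v => γ1 * n ≤ (od A v : ℝ)) ∪
    univ.filter (fun v => γ1 * n ≤ (idg A v : ℝ)), ?_, ?_⟩
  · have hA1 : ((∑ v, od A v : ℕ) : ℝ) ≤ A.card := by
      have h := eb_univ_right A (univ : Finset (Fin n))
      rw [← h]
      exact_mod_cast card_le_card (filter_subset _ _)
    have hA2 : ((∑ v, idg A v : ℕ) : ℝ) ≤ A.card := by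
      have h := eb_univ_left A (univ : Finset (Fin n))
      rw [← h]
      exact_mod_cast card_le_card (filter_subset _ _)
    have h1 := cel_cnt (univ.filter (fun v => γ1 * n ≤ (od A v : ℝ))) (od A) hn hγ1
      (fun v hv => (mem_filter.1 hv).2) hA1 hA
    have h2 := cel_cnt (univ.filter (fun v => γ1 * n ≤ (idg A v : ℝ))) (idg A) hn hγ1
      (fun v hv => (mem_filter.1 hv).2) hA2 hA
    have h3 : ((univ.filter (fun v => γ1 * n ≤ (od A v : ℝ)) ∪
        univ.filter (fun v => γ1 * n ≤ (idg A v : ℝ))).card : ℝ) ≤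
        (univ.filter (fun v => γ1 * n ≤ (od A v : ℝ))).card +
        (univ.filter (fun v => γ1 * n ≤ (idg A v : ℝ))).card := by
      exact_mod_cast card_union_le _ _
    linarith
  · intro v hv a
    rw [mem_union, not_or] at hv
    have hv1 : (od A v : ℝ) < γ1 * n := not_le.1 fun h => hv.1 (mem_filter.2 ⟨mem_univ _, h⟩)
    have hv2 : (idg A v : ℝ) < γ1 * n := not_le.1 fun h => hv.2 (mem_filter.2 ⟨mem_univ _, h⟩)
    have h1 : eb A {v} (Cl i a) ≤ od A v := by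
      unfold od eb
      refine card_le_card fun e he => ?_
      have h4 := mem_filter.1 he
      exact mem_filter.2 ⟨h4.1, mem_singleton.1 h4.2.1⟩
    have h2 : eb A (Cl o a) {v} ≤ idg A v := by
      unfold idg eb
      refine card_le_card fun e he => ?_
      have h4 := mem_filter.1 he
      exact mem_filter.2 ⟨h4.1, mem_singleton.1 h4.2.2⟩
    exact ⟨lt_of_le_of_lt (by exact_mod_cast h1) hv1, lt_of_le_of_lt (by exact_mod_cast h2) hv2⟩

theorem tCel (hChL : S_ChL) (hChB : S_ChB) : S_Cel := by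
  classical
  intro K0 k ε hK0 hk hε
  have hK0r : (1 : ℝ) ≤ K0 := by exact_mod_cast hK0
  have h2k : (4 : ℝ) ≤ 2 ^ k := by
    calc (4 : ℝ) = 2 ^ 2 := by norm_num
      _ ≤ 2 ^ k := pow_le_pow_right₀ (by norm_num) hk
  have hM1 : 1 ≤ 2 ^ k - 1 := by
    have : 2 ^ 2 ≤ 2 ^ k := Nat.pow_le_pow_right (by norm_num) hk
    omega
  have hMc : ((2 ^ k - 1 : ℕ) : ℝ) = 2 ^ k - 1 := by
    rw [Nat.cast_sub Nat.one_le_two_pow]
    push_cast
    rfl
  have hMp : (0 : ℝ) < ((2 ^ k - 1 : ℕ) : ℝ) := by rw [hMc]; linarith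
  have hc1 : (0 : ℝ) < 16 * ((2 ^ k - 1 : ℕ) : ℝ) * K0 ^ 2 := by positivity
  have hc2 : (0 : ℝ) < 64 * ((2 ^ k - 1 : ℕ) : ℝ) * K0 ^ 2 := by positivity
  obtain ⟨γ1, hγ1, hγa, hγb⟩ : ∃ γ1 : ℝ, 0 < γ1 ∧ γ1 ≤ ε / 2 ^ k ∧
      γ1 ≤ ε ^ 2 / (16 * ((2 ^ k - 1 : ℕ) : ℝ) * K0 ^ 2) :=
    ⟨min (ε / 2 ^ k) (ε ^ 2 / (16 * ((2 ^ k - 1 : ℕ) : ℝ) * K0 ^ 2)), lt_min (by positivity)
      (by positivity), min_le_left _ _, min_le_right _ _⟩
  obtain ⟨δ, hδ, hδa, hδb, hδc⟩ : ∃ δ : ℝ, 0 < δ ∧ δ ≤ γ1 ∧ δ ≤ ε / 2 ^ (3 * k) ∧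
      δ ≤ ε ^ 2 / (64 * ((2 ^ k - 1 : ℕ) : ℝ) * K0 ^ 2) :=
    ⟨min γ1 (min (ε / 2 ^ (3 * k)) (ε ^ 2 / (64 * ((2 ^ k - 1 : ℕ) : ℝ) * K0 ^ 2))),
      lt_min hγ1 (lt_min (by positivity) (by positivity)), min_le_left _ _,
      (min_le_right _ _).trans (min_le_left _ _), (min_le_right _ _).trans (min_le_right _ _)⟩
  refine ⟨γ1, γ1 * δ / 2, hγ1, by positivity, ?_, ?_⟩
  · have h := (le_div_iff₀ (by positivity : (0 : ℝ) < 2 ^ k)).1 hγa
    linarith
  · intro n K A o i b hn hK hb hA hloop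
    obtain ⟨V0, hV, hV1⟩ := cel_V0 A o i hn hγ1 hA
    have hnp : (0 : ℝ) < n := by exact_mod_cast hn
    obtain ⟨c, g1, g2⟩ := cel_main hChL hChB A o i b V0 ε γ1 δ hn hM1 hK0 hK hε hγ1 hδ
      ((le_div_iff₀ hc1).1 hγb) ((le_div_iff₀ hc2).1 hδc) hδa hV hV1 hloop
    have hpow : 2 ^ k = 2 * 2 ^ (k - 1) := by
      rw [← pow_succ']
      congr 1
      omega
    have hbt : ∀ m, ((univ.filter (fun p => b m p = true)).card : ℝ) = 2 ^ (k - 1) := by
      intro m
      rw [hb m]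
      push_cast
      rfl
    have hbf : ∀ m, ((univ.filter (fun p => b m p = false)).card : ℝ) = 2 ^ (k - 1) - 1 := by
      intro m
      have h1 : (univ.filter (fun p => b m p = true)).card +
          (univ.filter (fun p => b m p = false)).card = 2 ^ k - 1 := by
        have h2 := card_filter_add_card_filter_not (s := univ) (fun p => b m p = true)
        rw [card_univ, Fintype.card_fin] at h2
        have h3 : (univ.filter (fun p => ¬ b m p = true)) =
            (univ.filter (fun p => b m p = false)) := by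
          refine filter_congr fun p _ => ?_
          exact Bool.not_eq_true _ ▸ Iff.rfl
        rwa [h3] at h2
      have h4 : (((univ.filter (fun p => b m p = true)).card : ℕ) : ℝ) +
          (univ.filter (fun p => b m p = false)).card = ((2 ^ k - 1 : ℕ) : ℝ) := by
        exact_mod_cast h1
      rw [hbt, hMc] at h4
      have h5 : (2 : ℝ) ^ k = 2 * 2 ^ (k - 1) := by exact_mod_cast hpow
      linarith
    simp only [hbt, hbf, hMc] at g1 g2
    refine ⟨V0, c, ?_, hV1, g1, fun m a a' => ⟨(g2 m a a').1, (g2 m a a').2.1, ?_⟩⟩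
    · have h := (le_div_iff₀ (by positivity : (0 : ℝ) < 2 ^ (3 * k))).1 hδb
      calc (2 : ℝ) ^ (3 * k) * V0.card ≤ 2 ^ (3 * k) * (δ * n) :=
            mul_le_mul_of_nonneg_left hV (by positivity)
        _ = (δ * 2 ^ (3 * k)) * n := by ring
        _ ≤ ε * n := mul_le_mul_of_nonneg_right h hnp.le
    · have h := (g2 m a a').2.2
      rw [mul_comm ((2 : ℝ) ^ (k - 1) - 1) (2 ^ (k - 1))] at h
      exact h

end

end Pool.Agent.MPd266dbH
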