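import Pool.Agent.Lib.MP_d266db_co.H.SpecQ

/-!
# MP_d266db_co, H, ChB: Chebyshev, bilinear form (helper43)
-/

set_option autoImplicit false

namespace Pool.Agent.MPd266dbH

open Finset Pool.Agent.MPd266db

/-- averaging over one coordinate -/
private theorem chb_avg {n M : ℕ} (H : (Fin n → Fin M) → ℝ) (u : Fin n) :
    ∑ c : Fin n → Fin M, ∑ p : Fin M, H (Function.update c u p) = M * ∑ c, H c := by
  classical
  have hinv : Function.Involutive (fun x : (Fin n → Fin M) × Fin M =>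
      ((Function.update x.1 u x.2, x.1 u) : (Fin n → Fin M) × Fin M)) := by
    rintro ⟨c, p⟩
    simp
  have h1 := Equiv.sum_comp hinv.toPerm (fun x : (Fin n → Fin M) × Fin M => H x.1)
  rw [Fintype.sum_prod_type, Fintype.sum_prod_type] at h1
  have h2 : ∀ c : Fin n → Fin M, ∑ _p : Fin M, H c = M * H c := by
    intro c
    rw [Finset.sum_const, Finset.card_univ, Fintype.card_fin, nsmul_eq_mul]
  rw [Finset.mul_sum]
  simp only [h2] at h1
  exact h1

/-- independence -/
private theorem chb_ind {n M : ℕ} (f : Fin M → Fin M → ℝ) (hf : ∑ p, ∑ q, f p q = 0)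
    (G : (Fin n → Fin M) → ℝ) (u v : Fin n) (huv : u ≠ v)
    (hG : ∀ c p q, G (Function.update (Function.update c u p) v q) = G c) (hM : 1 ≤ M) :
    ∑ c : Fin n → Fin M, f (c u) (c v) * G c = 0 := by
  classical
  have h1 := chb_avg (fun c : Fin n → Fin M => f (c u) (c v) * G c) v
  have h2 := chb_avg (fun c : Fin n → Fin M => ∑ q : Fin M,
    f ((Function.update c v q) u) ((Function.update c v q) v) * G (Function.update c v q)) u
  rw [h1] at h2
  have h3 : ∀ (c : Fin n → Fin M) (p q : Fin M),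
      f ((Function.update (Function.update c u p) v q) u)
        ((Function.update (Function.update c u p) v q) v) *
        G (Function.update (Function.update c u p) v q) = f p q * G c := by
    intro c p q
    rw [hG, Function.update_self, Function.update_of_ne huv, Function.update_self]
  simp only [h3] at h2
  have h4 : ∀ c : Fin n → Fin M, ∑ p : Fin M, ∑ q : Fin M, f p q * G c = 0 := by
    intro c
    simp only [← Finset.sum_mul]
    rw [hf, zero_mul]
  rw [Finset.sum_congr rfl fun c _ => h4 c, Finset.sum_const_zero] at h2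
  have hM0 : (M : ℝ) ≠ 0 := by
    have : (0 : ℝ) < M := by exact_mod_cast hM
    exact this.ne'
  have h5 := h2.symm
  rcases mul_eq_zero.1 h5 with h | h
  · exact absurd h hM0
  · rcases mul_eq_zero.1 h with h | h
    · exact absurd h hM0
    · exact h

theorem tChB : S_ChB := by
  intro n M Δ B1 B2 L t hM ht hloop hdeg
  classical
  have hM0 : (0 : ℝ) < M := by exact_mod_cast hM
  set β : ℝ := (B1.card : ℝ) * B2.card / M ^ 2 with hβ
  have hb1 : (B1.card : ℝ) ≤ M := by
    have := Finset.card_le_univ B1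
    rw [Fintype.card_fin] at this
    exact_mod_cast this
  have hb2 : (B2.card : ℝ) ≤ M := by
    have := Finset.card_le_univ B2
    rw [Fintype.card_fin] at this
    exact_mod_cast this
  have hβ0 : 0 ≤ β := by positivity
  have hβ1 : β ≤ 1 := by
    rw [hβ, div_le_one (by positivity), pow_two]
    exact mul_le_mul hb1 hb2 (Nat.cast_nonneg _) hM0.le
  let f : Fin M → Fin M → ℝ := fun p q => (if p ∈ B1 ∧ q ∈ B2 then 1 else 0) - β
  have hf : ∑ p, ∑ q, f p q = 0 := by
    have h1 : ∑ p : Fin M, ∑ q : Fin M, (if p ∈ B1 ∧ q ∈ B2 then (1 : ℝ) else 0) =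
        B1.card * B2.card := by
      have : ∀ p q : Fin M, (if p ∈ B1 ∧ q ∈ B2 then (1 : ℝ) else 0) =
          (if p ∈ B1 then 1 else 0) * (if q ∈ B2 then 1 else 0) := by
        intro p q
        by_cases hp : p ∈ B1 <;> by_cases hq : q ∈ B2 <;> simp [hp, hq]
      simp only [this, ← Finset.mul_sum, ← Finset.sum_mul]
      simp
    have h2 : ∑ p : Fin M, ∑ q : Fin M, β = M ^ 2 * β := by
      simp only [Finset.sum_const, Finset.card_univ, Fintype.card_fin, nsmul_eq_mul]
      ring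
    simp only [f, Finset.sum_sub_distrib]
    rw [h1, h2, hβ]
    field_simp
    ring
  have hfabs : ∀ p q, |f p q| ≤ 1 := by
    intro p q
    simp only [f]
    by_cases h : p ∈ B1 ∧ q ∈ B2
    · rw [if_pos h, abs_le]
      constructor <;> linarith
    · rw [if_neg h, abs_le]
      constructor <;> linarith
  let F : Fin n × Fin n → (Fin n → Fin M) → ℝ := fun e c => f (c e.1) (c e.2)
  have hZ : ∀ c : Fin n → Fin M,
      ((L.filter (fun e => c e.1 ∈ B1 ∧ c e.2 ∈ B2)).card : ℝ) - β * L.card =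
        ∑ e ∈ L, F e c := by
    intro c
    simp only [F, f, Finset.sum_sub_distrib, Finset.sum_const, nsmul_eq_mul]
    rw [Finset.sum_boole]
    ring
  -- pairs of arcs
  have hpair : ∀ e ∈ L, ∀ e' ∈ L, ∑ c : Fin n → Fin M, F e c * F e' c ≤
      if e'.1 = e.1 ∨ e'.1 = e.2 ∨ e'.2 = e.1 ∨ e'.2 = e.2 then (M : ℝ) ^ n else 0 := by
    intro e he e' he'
    by_cases hsh : e'.1 = e.1 ∨ e'.1 = e.2 ∨ e'.2 = e.1 ∨ e'.2 = e.2
    · rw [if_pos hsh]
      have h1 : ∀ c : Fin n → Fin M, F e c * F e' c ≤ 1 := by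
        intro c
        refine (le_abs_self _).trans ?_
        rw [abs_mul]
        exact mul_le_one₀ (hfabs _ _) (abs_nonneg _) (hfabs _ _)
      refine (Finset.sum_le_sum fun c _ => h1 c).trans ?_
      rw [Finset.sum_const, Finset.card_univ, Fintype.card_fun, Fintype.card_fin,
        Fintype.card_fin, nsmul_eq_mul, mul_one]
      exact le_of_eq (by push_cast; rfl)
    · rw [if_neg hsh]
      push Not at hsh
      obtain ⟨h1, h2, h3, h4⟩ := hsh
      refine le_of_eq (chb_ind f hf (fun c => F e' c) e.1 e.2 (hloop e he) ?_ hM)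
      intro c p q
      simp only [F]
      rw [Function.update_of_ne h2, Function.update_of_ne h1, Function.update_of_ne h4,
        Function.update_of_ne h3]
  have hcnt : ∀ e ∈ L, ∑ e' ∈ L, (if e'.1 = e.1 ∨ e'.1 = e.2 ∨ e'.2 = e.1 ∨ e'.2 = e.2 then
      (M : ℝ) ^ n else 0) ≤ 4 * Δ * (M : ℝ) ^ n := by
    intro e _
    rw [← Finset.sum_filter, Finset.sum_const, nsmul_eq_mul]
    have hsub : L.filter (fun e' => e'.1 = e.1 ∨ e'.1 = e.2 ∨ e'.2 = e.1 ∨ e'.2 = e.2) ⊆
        (L.filter (fun e' => e'.1 = e.1) ∪ L.filter (fun e' => e'.1 = e.2)) ∪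
        (L.filter (fun e' => e'.2 = e.1) ∪ L.filter (fun e' => e'.2 = e.2)) := by
      intro x hx
      simp only [mem_filter, mem_union] at hx ⊢
      tauto
    have h1 := (Finset.card_le_card hsub).trans ((Finset.card_union_le _ _).trans
      (Nat.add_le_add (Finset.card_union_le _ _) (Finset.card_union_le _ _)))
    have e1 : (L.filter (fun e' => e'.1 = e.1)).card ≤ Δ := (hdeg e.1).1
    have e2 : (L.filter (fun e' => e'.1 = e.2)).card ≤ Δ := (hdeg e.2).1
    have e3 : (L.filter (fun e' => e'.2 = e.1)).card ≤ Δ := (hdeg e.1).2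
    have e4 : (L.filter (fun e' => e'.2 = e.2)).card ≤ Δ := (hdeg e.2).2
    have h2 : (L.filter (fun e' => e'.1 = e.1 ∨ e'.1 = e.2 ∨ e'.2 = e.1 ∨ e'.2 = e.2)).card ≤
        4 * Δ := by omega
    have h3 : ((L.filter (fun e' => e'.1 = e.1 ∨ e'.1 = e.2 ∨ e'.2 = e.1 ∨ e'.2 = e.2)).card : ℝ) ≤
        4 * Δ := by exact_mod_cast h2
    exact mul_le_mul_of_nonneg_right h3 (by positivity)
  have hvar : ∑ c : Fin n → Fin M, (∑ e ∈ L, F e c) ^ 2 ≤ (M : ℝ) ^ n * (4 * Δ * L.card) := by
    have h1 : ∀ c : Fin n → Fin M, (∑ e ∈ L, F e c) ^ 2 = ∑ e ∈ L, ∑ e' ∈ L, F e c * F e' c := by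
      intro c
      rw [pow_two, Finset.sum_mul_sum]
    rw [Finset.sum_congr rfl fun c _ => h1 c, Finset.sum_comm]
    calc ∑ e ∈ L, ∑ c : Fin n → Fin M, ∑ e' ∈ L, F e c * F e' c
        = ∑ e ∈ L, ∑ e' ∈ L, ∑ c : Fin n → Fin M, F e c * F e' c :=
          Finset.sum_congr rfl fun e _ => Finset.sum_comm
      _ ≤ ∑ e ∈ L, ∑ e' ∈ L, (if e'.1 = e.1 ∨ e'.1 = e.2 ∨ e'.2 = e.1 ∨ e'.2 = e.2 then
          (M : ℝ) ^ n else 0) :=
          Finset.sum_le_sum fun e he => Finset.sum_le_sum fun e' he' => hpair e he e' he'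
      _ ≤ ∑ e ∈ L, 4 * Δ * (M : ℝ) ^ n := Finset.sum_le_sum hcnt
      _ = (M : ℝ) ^ n * (4 * Δ * L.card) := by
          rw [Finset.sum_const, nsmul_eq_mul]
          ring
  refine le_trans ?_ hvar
  calc ((univ.filter (fun c : Fin n → Fin M =>
      t ≤ |((L.filter (fun e => c e.1 ∈ B1 ∧ c e.2 ∈ B2)).card : ℝ) - β * L.card|)).card : ℝ) *
        t ^ 2
      = ∑ c ∈ univ.filter (fun c : Fin n → Fin M =>
        t ≤ |((L.filter (fun e => c e.1 ∈ B1 ∧ c e.2 ∈ B2)).card : ℝ) - β * L.card|), t ^ 2 := by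
        rw [Finset.sum_const, nsmul_eq_mul]
    _ ≤ ∑ c ∈ univ.filter (fun c : Fin n → Fin M =>
        t ≤ |((L.filter (fun e => c e.1 ∈ B1 ∧ c e.2 ∈ B2)).card : ℝ) - β * L.card|),
          (∑ e ∈ L, F e c) ^ 2 := by
        refine Finset.sum_le_sum fun c hc => ?_
        rw [mem_filter] at hc
        rw [← hZ c, ← sq_abs (((L.filter (fun e => c e.1 ∈ B1 ∧ c e.2 ∈ B2)).card : ℝ) -
          β * L.card)]
        exact pow_le_pow_left₀ ht.le hc.2 2
    _ ≤ ∑ c : Fin n → Fin M, (∑ e ∈ L, F e c) ^ 2 :=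
        Finset.sum_le_sum_of_subset_of_nonneg (Finset.filter_subset _ _)
          fun c _ _ => sq_nonneg _

end Pool.Agent.MPd266dbH
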