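import Pool.Agent.Lib.MP_d266db_co.H.SpecQ

/-!
# MP_d266db_co, H: Chebyshev, linear form
-/

set_option autoImplicit false

namespace Pool.Agent.MPd266dbH

open Finset Pool.Agent.MPd266db

theorem chl_off {n M : ℕ} (f : Fin M → ℝ) (hf : ∑ p, f p = 0) {v v' : Fin n} (h : v ≠ v') :
    ∑ c : Fin n → Fin M, f (c v) * f (c v') = 0 := by
  classical
  have h1 := Finset.prod_univ_sum (fun _ : Fin n => (univ : Finset (Fin M)))
    (fun (u : Fin n) (p : Fin M) => (if u = v then f p else 1) * (if u = v' then f p else 1))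
  have h2 : ∏ u : Fin n, ∑ p : Fin M,
      ((if u = v then f p else 1) * (if u = v' then f p else 1)) = 0 := by
    apply Finset.prod_eq_zero (mem_univ v)
    rw [← hf]
    refine Finset.sum_congr rfl fun p _ => ?_
    rw [if_pos rfl, if_neg h, mul_one]
  rw [h2, Fintype.piFinset_univ] at h1
  rw [h1]
  refine Finset.sum_congr rfl fun c _ => ?_
  rw [Finset.prod_mul_distrib, Finset.prod_ite_eq', Finset.prod_ite_eq', if_pos (mem_univ _),
    if_pos (mem_univ _)]

theorem tChL : S_ChL := by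
  classical
  intro n M B w t hM ht
  have hM0 : (0 : ℝ) < (M : ℝ) := by exact_mod_cast hM
  obtain ⟨β, hβ⟩ : ∃ β : ℝ, β = (B.card : ℝ) / M := ⟨_, rfl⟩
  have hBM : (B.card : ℝ) ≤ M := by
    have h1 := card_le_univ B
    rw [Fintype.card_fin] at h1
    exact_mod_cast h1
  have hβ0 : 0 ≤ β := by rw [hβ]; positivity
  have hβ1 : β ≤ 1 := by rw [hβ, div_le_one hM0]; exact hBM
  obtain ⟨f, hf⟩ : ∃ f : Fin M → ℝ, ∀ p, f p = (if p ∈ B then 1 else 0) - β := ⟨_, fun _ => rfl⟩
  have hf0 : ∑ p, f p = 0 := by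
    simp only [hf]
    rw [Finset.sum_sub_distrib, Finset.sum_ite_mem, univ_inter, sum_const, sum_const, card_univ,
      Fintype.card_fin, nsmul_eq_mul, nsmul_eq_mul, mul_one, hβ, mul_div_cancel₀ _ hM0.ne', sub_self]
  have hf1 : ∀ p, f p * f p ≤ 1 := by
    intro p
    rw [hf]
    split_ifs
    · nlinarith
    · nlinarith
  have hS : ∀ c : Fin n → Fin M, ∑ v, w v * (if c v ∈ B then 1 else 0) -
      (B.card : ℝ) / M * ∑ v, w v = ∑ v, w v * f (c v) := by
    intro c
    rw [← hβ, Finset.mul_sum, ← Finset.sum_sub_distrib]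
    refine Finset.sum_congr rfl fun v _ => ?_
    rw [hf]
    ring
  have hsum : ∑ c : Fin n → Fin M, (∑ v, w v * f (c v)) ^ 2 ≤ (M : ℝ) ^ n * ∑ v, w v ^ 2 := by
    have h1 : ∀ c : Fin n → Fin M, (∑ v, w v * f (c v)) ^ 2 =
        ∑ v, ∑ v', w v * w v' * (f (c v) * f (c v')) := by
      intro c
      rw [sq, Finset.sum_mul_sum]
      refine Finset.sum_congr rfl fun v _ => Finset.sum_congr rfl fun v' _ => ?_
      ring
    rw [Finset.sum_congr rfl fun c _ => h1 c, Finset.sum_comm, Finset.mul_sum]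
    refine Finset.sum_le_sum fun v _ => ?_
    rw [Finset.sum_comm, Finset.sum_eq_single v]
    · rw [← Finset.mul_sum]
      have h2 : ∑ c : Fin n → Fin M, f (c v) * f (c v) ≤ (M : ℝ) ^ n := by
        refine (Finset.sum_le_sum fun c _ => hf1 (c v)).trans ?_
        rw [sum_const, card_univ, nsmul_eq_mul, mul_one, Fintype.card_fun, Fintype.card_fin,
          Fintype.card_fin]
        push_cast
        exact le_rfl
      have h3 : 0 ≤ w v * w v := mul_self_nonneg _
      have h4 := mul_le_mul_of_nonneg_left h2 h3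
      linarith [h4, mul_comm ((M : ℝ) ^ n) (w v ^ 2), sq (w v)]
    · intro v' _ hv'
      rw [← Finset.mul_sum, chl_off f hf0 hv'.symm, mul_zero]
    · intro h
      exact (h (mem_univ _)).elim
  refine le_trans ?_ hsum
  have h5 : ∀ c ∈ univ.filter (fun c : Fin n → Fin M =>
      t ≤ |∑ v, w v * (if c v ∈ B then 1 else 0) - (B.card : ℝ) / M * ∑ v, w v|),
      t ^ 2 ≤ (∑ v, w v * f (c v)) ^ 2 := by
    intro c hc
    rw [mem_filter, hS c] at hc
    rw [← sq_abs (∑ v, w v * f (c v))]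
    exact pow_le_pow_left₀ ht.le hc.2 2
  have h6 := Finset.card_nsmul_le_sum _ _ _ h5
  rw [nsmul_eq_mul] at h6
  refine h6.trans ?_
  exact Finset.sum_le_sum_of_subset_of_nonneg (filter_subset _ _) fun c _ _ => sq_nonneg _

end Pool.Agent.MPd266dbH
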