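import Pool.Agent.Lib.MP_d266db_co.H.SpecQ

/-!
# MP_d266db_co, H, Chf: Chernoff bound (lower tail) for random functions
-/

set_option autoImplicit false

namespace Pool.Agent.MPd266dbH

open Finset Pool.Agent.MPd266db

theorem chf_exp {δ : ℝ} (h0 : 0 ≤ δ) : Real.exp (-δ) ≤ 1 - δ + δ ^ 2 / 2 := by
  have h1 := Real.quadratic_le_exp_of_nonneg h0
  have h2 : Real.exp (-δ) * Real.exp δ = 1 := by
    rw [← Real.exp_add, neg_add_cancel, Real.exp_zero]
  have h3 : 0 < Real.exp (-δ) := Real.exp_pos _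
  have h4 : Real.exp (-δ) * (1 + δ + δ ^ 2 / 2) ≤ 1 :=
    (mul_le_mul_of_nonneg_left h1 h3.le).trans h2.le
  have h5 : 0 < 1 + δ + δ ^ 2 / 2 := by positivity
  have h6 : 1 ≤ (1 - δ + δ ^ 2 / 2) * (1 + δ + δ ^ 2 / 2) := by
    have : (1 - δ + δ ^ 2 / 2) * (1 + δ + δ ^ 2 / 2) = 1 + δ ^ 4 / 4 := by ring
    rw [this]
    have : 0 ≤ δ ^ 4 / 4 := by positivity
    linarith
  exact le_of_mul_le_mul_right (h4.trans h6) h5

theorem tChf : S_Chf := by
  intro ι _ _ Λ F A δ hΛ h0 h1
  classical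
  set μ : ℝ := ∑ e ∈ F, ((A e).card : ℝ) / Λ with hμ
  have hΛ' : (0 : ℝ) < Λ := by exact_mod_cast hΛ
  have hμ0 : 0 ≤ μ := Finset.sum_nonneg fun e _ => by positivity
  set Z : (ι → Fin Λ) → ℕ := fun c => (F.filter (fun e => c e ∈ A e)).card with hZ
  set g : ι → Fin Λ → ℝ := fun e x => if e ∈ F ∧ x ∈ A e then Real.exp (-δ) else 1 with hg
  have hprod : ∀ c : ι → Fin Λ, ∏ e, g e (c e) = Real.exp (-δ * Z c) := by
    intro c
    have hE : Real.exp (-δ * Z c) = Real.exp (-δ) ^ (Z c) := by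
      rw [← Real.exp_nat_mul, mul_comm]
    rw [hE, hg, Finset.prod_ite, Finset.prod_const, Finset.prod_const_one, mul_one]
    congr 1
    rw [hZ]
    congr 1
    ext e
    simp
  have hsum : ∑ c : ι → Fin Λ, Real.exp (-δ * Z c) = ∏ e, ∑ x, g e x := by
    rw [Finset.prod_univ_sum, Fintype.piFinset_univ]
    exact Finset.sum_congr rfl fun c _ => (hprod c).symm
  have hfac : ∀ e, ∑ x, g e x ≤ (Λ : ℝ) *
      (if e ∈ F then Real.exp (-((1 - Real.exp (-δ)) * (((A e).card : ℝ) / Λ))) else 1) := by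
    intro e
    by_cases he : e ∈ F
    · rw [if_pos he]
      have : ∑ x, g e x = (A e).card * Real.exp (-δ) + ((Λ : ℝ) - (A e).card) := by
        have h2 : ∀ x : Fin Λ, g e x = if x ∈ A e then Real.exp (-δ) else 1 := by
          intro x
          simp [hg, he]
        rw [Finset.sum_congr rfl fun x _ => h2 x, Finset.sum_ite, Finset.sum_const, Finset.sum_const]
        have h3 : (univ.filter (fun x => x ∈ A e)) = A e := by ext x; simp
        have h4 : (univ.filter (fun x => x ∉ A e)) = (A e)ᶜ := by ext x; simp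
        rw [h3, h4, Finset.card_compl, Fintype.card_fin, nsmul_eq_mul, nsmul_eq_mul, mul_one,
          Nat.cast_sub]
        have := Finset.card_le_univ (A e)
        rwa [Fintype.card_fin] at this
      rw [this]
      have h5 := Real.add_one_le_exp (-((1 - Real.exp (-δ)) * (((A e).card : ℝ) / Λ)))
      have h6 : ((A e).card : ℝ) * Real.exp (-δ) + ((Λ : ℝ) - (A e).card) =
          Λ * (-((1 - Real.exp (-δ)) * (((A e).card : ℝ) / Λ)) + 1) := by
        field_simp
        ring
      rw [h6]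
      exact mul_le_mul_of_nonneg_left h5 hΛ'.le
    · rw [if_neg he]
      have h2 : ∀ x : Fin Λ, g e x = 1 := by
        intro x
        simp [hg, he]
      rw [Finset.sum_congr rfl fun x _ => h2 x, Finset.sum_const, Finset.card_univ, Fintype.card_fin,
        nsmul_eq_mul]
  have hbig : ∑ c : ι → Fin Λ, Real.exp (-δ * Z c) ≤
      (Λ : ℝ) ^ (Fintype.card ι) * Real.exp (-((1 - Real.exp (-δ)) * μ)) := by
    rw [hsum]
    calc ∏ e, ∑ x, g e x ≤ ∏ e, ((Λ : ℝ) *
      (if e ∈ F then Real.exp (-((1 - Real.exp (-δ)) * (((A e).card : ℝ) / Λ))) else 1)) := by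
          apply Finset.prod_le_prod
          · intro e _
            apply Finset.sum_nonneg
            intro x _
            simp only [hg]
            split_ifs
            · exact (Real.exp_pos _).le
            · exact zero_le_one
          · intro e _
            exact hfac e
      _ = (Λ : ℝ) ^ (Fintype.card ι) * Real.exp (-((1 - Real.exp (-δ)) * μ)) := by
          rw [Finset.prod_mul_distrib, Finset.prod_const, Finset.card_univ, Finset.prod_ite_mem,
            Finset.univ_inter, ← Real.exp_sum, Finset.sum_neg_distrib, ← Finset.mul_sum]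
  have hlow : ((univ.filter (fun c : ι → Fin Λ => (Z c : ℝ) ≤ (1 - δ) * μ)).card : ℝ) *
      Real.exp (-δ * ((1 - δ) * μ)) ≤ ∑ c : ι → Fin Λ, Real.exp (-δ * Z c) := by
    calc ((univ.filter (fun c : ι → Fin Λ => (Z c : ℝ) ≤ (1 - δ) * μ)).card : ℝ) *
      Real.exp (-δ * ((1 - δ) * μ)) = ∑ c ∈ univ.filter (fun c : ι → Fin Λ => (Z c : ℝ) ≤ (1 - δ) * μ),
        Real.exp (-δ * ((1 - δ) * μ)) := by rw [Finset.sum_const, nsmul_eq_mul]
      _ ≤ ∑ c ∈ univ.filter (fun c : ι → Fin Λ => (Z c : ℝ) ≤ (1 - δ) * μ), Real.exp (-δ * Z c) := by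
          apply Finset.sum_le_sum
          intro c hc
          rw [mem_filter] at hc
          apply Real.exp_le_exp.2
          have := mul_le_mul_of_nonneg_left hc.2 h0
          linarith
      _ ≤ ∑ c : ι → Fin Λ, Real.exp (-δ * Z c) :=
          Finset.sum_le_sum_of_subset_of_nonneg (Finset.subset_univ _)
            fun c _ _ => (Real.exp_pos _).le
  have hfin : ((univ.filter (fun c : ι → Fin Λ => (Z c : ℝ) ≤ (1 - δ) * μ)).card : ℝ) *
      Real.exp (-δ * ((1 - δ) * μ)) ≤ (Λ : ℝ) ^ (Fintype.card ι) *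
        Real.exp (-(δ ^ 2 * μ / 2)) * Real.exp (-δ * ((1 - δ) * μ)) := by
    refine (hlow.trans hbig).trans ?_
    rw [mul_assoc, ← Real.exp_add]
    apply mul_le_mul_of_nonneg_left _ (by positivity)
    apply Real.exp_le_exp.2
    have h7 := chf_exp h0
    have h8 : (δ - δ ^ 2 / 2) * μ ≤ (1 - Real.exp (-δ)) * μ :=
      mul_le_mul_of_nonneg_right (by linarith) hμ0
    nlinarith
  exact le_of_mul_le_mul_right hfin (Real.exp_pos _)

end Pool.Agent.MPd266dbH
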