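import Pool.Agent.Lib.MP_d266db_co.H.SpecP

/-!
# MP_d266db_co, H: inserting a pair which is far from the changes
-/

set_option autoImplicit false

namespace Pool.Agent.MPd266dbH

open Finset Pool.Agent.MPd266db

theorem tChn (hIns : S_Ins) : S_Chn := by
  intro n ρ g F x a b m hg hxF hab hb hs
  have hpow : ∀ s ≤ m, (g ^ s) a = (ρ ^ s) a := by
    intro s
    induction s with
    | zero => intro _; rw [pow_zero, pow_zero]
    | succ s ih =>
      intro hle
      rw [pow_succ', Equiv.Perm.mul_apply, ih (by omega), hg _ (hs s (by omega)), pow_succ',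
        Equiv.Perm.mul_apply]
  have haF : a ∉ F := by
    have := hs 0 (Nat.zero_le _)
    rwa [pow_zero, Equiv.Perm.one_apply] at this
  have hbF : b ∉ F := by
    have := hs m le_rfl
    rwa [← hb] at this
  have hxa : x ≠ a := fun h => haF (h ▸ hxF)
  have hxb : x ≠ b := fun h => hbF (h ▸ hxF)
  have h1 := hIns n g x a b m hab (by rw [hpow m le_rfl]; exact hb)
    (fun s hle h => hs s hle (by rw [← hpow s hle, h]; exact hxF))
  refine ⟨g * Equiv.swap x b * Equiv.swap x a, h1, ?_, ?_, ?_, ?_⟩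
  · rw [Equiv.Perm.mul_apply, Equiv.Perm.mul_apply, Equiv.swap_apply_left,
      Equiv.swap_apply_of_ne_of_ne hxa.symm hab, hg a haF]
  · rw [Equiv.Perm.mul_apply, Equiv.Perm.mul_apply, Equiv.swap_apply_right, Equiv.swap_apply_left,
      hg b hbF]
  · rw [Equiv.Perm.mul_apply, Equiv.Perm.mul_apply, Equiv.swap_apply_of_ne_of_ne hxb.symm hab.symm,
      Equiv.swap_apply_right]
  · intro v h2 h3 h4
    rw [Equiv.Perm.mul_apply, Equiv.Perm.mul_apply, Equiv.swap_apply_of_ne_of_ne h2 h3,
      Equiv.swap_apply_of_ne_of_ne h2 h4]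

end Pool.Agent.MPd266dbH
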