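import Pool.Agent.Lib.MP_d266db_co.H.SpecC

/-!
# MP_d266db_co, H: a robust partition into classes
-/

set_option autoImplicit false

namespace Pool.Agent.MPd266dbH

open Finset Pool.Agent.MPd266db

theorem cls_mem {n K : ℕ} {o : Fin n → Fin K} {a : Fin K} {v : Fin n} : v ∈ Cl o a ↔ o v = a := by
  simp [Cl]

theorem cls_sz_out {n K r : ℕ} {R : Finset (Fin n × Fin n)} (hR : Reg R r) (o i : Fin n → Fin K)
    (c : Fin K) :
    r * (Cl o c).card ≤ (Cl o c).card * (Cl i c).card + (crs o i R).card := by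
  have h1 := Reg.out (Cl o c) (Cl i c) hR
  have h2 := eb_le_card_mul R (Cl o c) (Cl i c)
  have h3 : eb R (Cl o c) (Cl i c)ᶜ ≤ (crs o i R).card := by
    unfold eb crs
    apply card_le_card
    intro e he
    simp only [mem_filter, mem_compl, cls_mem] at he ⊢
    exact ⟨he.1, fun h => he.2.2 (h.symm.trans he.2.1)⟩
  linarith

theorem cls_sz_in {n K r : ℕ} {R : Finset (Fin n × Fin n)} (hR : Reg R r) (o i : Fin n → Fin K)
    (c : Fin K) :
    r * (Cl i c).card ≤ (Cl o c).card * (Cl i c).card + (crs o i R).card := by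
  have h1 := Reg.in (Cl o c) (Cl i c) hR
  have h2 := eb_le_card_mul R (Cl o c) (Cl i c)
  have h3 : eb R (Cl o c)ᶜ (Cl i c) ≤ (crs o i R).card := by
    unfold eb crs
    apply card_le_card
    intro e he
    simp only [mem_filter, mem_compl, cls_mem] at he ⊢
    exact ⟨he.1, fun h => he.2.1 (h.trans he.2.2)⟩
  linarith

theorem cls_crs_rev {n K : ℕ} (R : Finset (Fin n × Fin n)) (o i : Fin n → Fin K) :
    (crs i o (rev R)).card = (crs o i R).card := by
  unfold crs rev
  rw [Finset.filter_map, Finset.card_map]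
  congr 1
  ext e
  simp only [mem_filter, Function.comp, Equiv.coe_toEmbedding, Equiv.prodComm_apply, Prod.fst_swap,
    Prod.snd_swap]
  exact ⟨fun h => ⟨h.1, fun h' => h.2 h'.symm⟩, fun h => ⟨h.1, fun h' => h.2 h'.symm⟩⟩

theorem cls_own_rev {n K : ℕ} (R : Finset (Fin n × Fin n)) (o i : Fin n → Fin K) :
    own i o (rev R) = rev (own o i R) := by
  ext ⟨u, v⟩
  rw [mem_rev]
  unfold own
  rw [mem_filter, mem_filter, mem_rev]
  exact ⟨fun h => ⟨h.1, h.2.symm⟩, fun h => ⟨h.1, h.2.symm⟩⟩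

theorem cls_reg_rev {n r : ℕ} {R : Finset (Fin n × Fin n)} (hR : Reg R r) : Reg (rev R) r := by
  intro v
  rw [od_rev, idg_rev]
  exact ⟨(hR v).2, (hR v).1⟩

/-- the number of the cross arcs after a change at `v` -/
theorem cls_upd {n K r : ℕ} {R : Finset (Fin n × Fin n)} (hR : Reg R r) (o i : Fin n → Fin K)
    (v : Fin n) (b : Fin K) :
    (crs (Function.update o v b) i R).card + (R.filter (fun e => e.1 = v ∧ i e.2 = b)).card =
      (R.filter (fun e => e.1 ≠ v ∧ o e.1 ≠ i e.2)).card + r := by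
  have h1 : crs (Function.update o v b) i R = R.filter (fun e => e.1 ≠ v ∧ o e.1 ≠ i e.2) ∪
      R.filter (fun e => e.1 = v ∧ i e.2 ≠ b) := by
    ext e
    unfold crs
    rw [mem_union, mem_filter, mem_filter, mem_filter]
    by_cases h : e.1 = v
    · rw [h, Function.update_self]
      constructor
      · intro h2
        exact Or.inr ⟨h2.1, rfl, fun h3 => h2.2 h3.symm⟩
      · rintro (h2 | h2)
        · exact (h2.2.1 rfl).elim
        · exact ⟨h2.1, fun h3 => h2.2.2 h3.symm⟩
    · rw [Function.update_of_ne h]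
      constructor
      · intro h2
        exact Or.inl ⟨h2.1, h, h2.2⟩
      · rintro (h2 | h2)
        · exact ⟨h2.1, h2.2.2⟩
        · exact (h h2.2.1).elim
  have h2 : Disjoint (R.filter (fun e => e.1 ≠ v ∧ o e.1 ≠ i e.2))
      (R.filter (fun e => e.1 = v ∧ i e.2 ≠ b)) := by
    rw [Finset.disjoint_left]
    intro e he he'
    rw [mem_filter] at he he'
    exact he.2.1 he'.2.1
  have h3 : (R.filter (fun e => e.1 = v ∧ i e.2 = b)).card +
      (R.filter (fun e => e.1 = v ∧ i e.2 ≠ b)).card = r := by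
    have h4 := (hR v).1
    unfold od at h4
    rw [← h4, ← Finset.card_filter_add_card_filter_not (s := R.filter (fun e => e.1 = v))
      (fun e => i e.2 = b), Finset.filter_filter, Finset.filter_filter]
  rw [h1, card_union_of_disjoint h2]
  omega

theorem cls_own_out {n K r : ℕ} {R : Finset (Fin n × Fin n)} (hR : Reg R r) (o i : Fin n → Fin K)
    (v : Fin n) (hmin : ∀ b, (crs o i R).card ≤ (crs (Function.update o v b) i R).card) :
    r ≤ K * od (own o i R) v := by
  have h0 := cls_upd hR o i v (o v)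
  rw [Function.update_eq_self] at h0
  have h1 : od (own o i R) v = (R.filter (fun e => e.1 = v ∧ i e.2 = o v)).card := by
    unfold od own
    rw [Finset.filter_filter]
    congr 1
    ext e
    rw [mem_filter, mem_filter]
    constructor
    · rintro ⟨h2, h3, h4⟩
      exact ⟨h2, h4, by rw [← h4, h3]⟩
    · rintro ⟨h2, h3, h4⟩
      exact ⟨h2, by rw [h3, h4], h3⟩
  have h2 : ∀ b, (R.filter (fun e => e.1 = v ∧ i e.2 = b)).card ≤ od (own o i R) v := by
    intro b
    have h3 := cls_upd hR o i v b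
    have h4 := hmin b
    omega
  have h3 : r = ∑ b : Fin K, (R.filter (fun e => e.1 = v ∧ i e.2 = b)).card := by
    have h4 := (hR v).1
    unfold od at h4
    have h5 := Finset.card_eq_sum_card_fiberwise (s := R.filter (fun e => e.1 = v)) (t := univ)
      (f := fun e => i e.2) (fun _ _ => mem_coe.2 (mem_univ _))
    rw [h4] at h5
    rw [h5]
    refine Finset.sum_congr rfl fun b _ => ?_
    rw [Finset.filter_filter]
  have h4 := Finset.sum_le_card_nsmul univ
    (fun b : Fin K => (R.filter (fun e => e.1 = v ∧ i e.2 = b)).card) _ (fun b _ => h2 b)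
  rw [← h3, card_univ, Fintype.card_fin, smul_eq_mul] at h4
  exact h4

/-- the thresholds -/
noncomputable def cls_t (f : ℝ → ℝ) (t₀ : ℝ) : ℕ → ℝ
  | 0 => t₀
  | m + 1 => min (f (cls_t f t₀ m / 2)) (cls_t f t₀ m / 2)

theorem cls_t_pos {f : ℝ → ℝ} {t₀ : ℝ} (hf : ∀ x, 0 < x → 0 < f x) (h0 : 0 < t₀) :
    ∀ m, 0 < cls_t f t₀ m
  | 0 => h0
  | m + 1 => lt_min (hf _ (half_pos (cls_t_pos hf h0 m))) (half_pos (cls_t_pos hf h0 m))

theorem cls_t_le {f : ℝ → ℝ} {t₀ : ℝ} (hf : ∀ x, 0 < x → 0 < f x) (h0 : 0 < t₀) :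
    ∀ m, cls_t f t₀ m ≤ t₀
  | 0 => le_rfl
  | m + 1 => by
    have h1 : cls_t f t₀ (m + 1) ≤ cls_t f t₀ m / 2 := min_le_right _ _
    have h2 := cls_t_le hf h0 m
    have h3 := cls_t_pos hf h0 m
    linarith

/-- the sizes of the parts of a class -/
theorem cls_part {α β s N T H r c : ℝ} (hα : 0 < α) (hβ : 0 < β) (hN : 0 < N) (hr : α * N ≤ r)
    (hs1 : s ≤ α * β / 4) (hs2 : s ≤ α ^ 2 / 8) (hc : c ≤ s * N ^ 2) (hT : 0 ≤ T) (hH : 0 ≤ H)
    (h1 : r * T ≤ T * H + c) (h2 : r * H ≤ T * H + c) (hTH : β * N ≤ T + H) :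
    α * N ≤ 2 * T ∧ α * N ≤ 2 * H := by
  have hN2 : 0 < N ^ 2 := by positivity
  have hαN : 0 < α * N := by positivity
  have e1 : s * N ^ 2 ≤ α * β / 4 * N ^ 2 := mul_le_mul_of_nonneg_right hs1 hN2.le
  have e2 : s * N ^ 2 ≤ α ^ 2 / 8 * N ^ 2 := mul_le_mul_of_nonneg_right hs2 hN2.le
  -- one of the sides is large, then both
  have key : ∀ A B : ℝ, 0 ≤ A → 0 ≤ B → r * A ≤ A * B + c → r * B ≤ A * B + c →
      β * N ≤ 2 * A → α * N ≤ 2 * A ∧ α * N ≤ 2 * B := by
    intro A B hA hB hA1 hB1 hA2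
    have hBB : α * N ≤ 2 * B := by
      by_contra hcon
      push Not at hcon
      have h3 : (r - B) * A ≤ α * β / 4 * N ^ 2 := by nlinarith
      have h4 : α * N / 2 < r - B := by linarith
      have hA3 : β * N / 2 ≤ A := by linarith
      have hβN : 0 < β * N / 2 := by positivity
      have h5 : α * N / 2 * (β * N / 2) < (r - B) * A :=
        mul_lt_mul h4 hA3 hβN (by linarith)
      nlinarith
    refine ⟨?_, hBB⟩
    by_contra hcon
    push Not at hcon
    have h3 : (r - A) * B ≤ α ^ 2 / 8 * N ^ 2 := by nlinarith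
    have h4 : α * N / 2 < r - A := by linarith
    have hB3 : α * N / 2 ≤ B := by linarith
    have h5 : α * N / 2 * (α * N / 2) < (r - A) * B :=
      mul_lt_mul h4 hB3 (by positivity) (by linarith)
    have h6 : 0 < α ^ 2 * N ^ 2 := by positivity
    nlinarith
  rcases le_total T H with h | h
  · have h3 := key H T hH hT (by linarith [mul_comm T H]) (by linarith [mul_comm T H])
      (by linarith)
    exact ⟨h3.2, h3.1⟩
  · exact key T H hT hH h1 h2 (by linarith)

/-- admissible pairs -/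
def cls_Adm {n K : ℕ} (α : ℝ) (o i : Fin n → Fin K) : Prop :=
  ∀ a, α * n ≤ 2 * (Cl o a).card ∧ α * n ≤ 2 * (Cl i a).card

theorem cls_Adm_le {n K : ℕ} {α : ℝ} {o i : Fin n → Fin K} (h : cls_Adm α o i)
    (hn : 0 < (n : ℝ)) : α * K ≤ 2 := by
  have h1 : (n : ℝ) = ∑ a : Fin K, ((Cl o a).card : ℝ) := by
    have h2 := Finset.card_eq_sum_card_fiberwise (s := (univ : Finset (Fin n))) (t := univ)
      (f := o) (fun _ _ => mem_coe.2 (mem_univ _))
    rw [card_univ, Fintype.card_fin] at h2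
    exact_mod_cast h2
  have h2 : (K : ℝ) * (α * n) ≤ ∑ a : Fin K, 2 * ((Cl o a).card : ℝ) := by
    have h3 := Finset.card_nsmul_le_sum univ (fun a : Fin K => 2 * ((Cl o a).card : ℝ)) (α * n)
      (fun a _ => (h a).1)
    rw [card_univ, Fintype.card_fin, nsmul_eq_mul] at h3
    exact h3
  rw [← Finset.mul_sum, ← h1] at h2
  by_contra hcon
  push Not at hcon
  nlinarith

theorem cls_card_update {n K : ℕ} (o : Fin n → Fin K) (v : Fin n) (b a : Fin K) :
    (Cl o a).card ≤ (Cl (Function.update o v b) a).card + 1 := by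
  have h1 : Cl o a ⊆ insert v (Cl (Function.update o v b) a) := by
    intro w hw
    rw [mem_insert, cls_mem]
    by_cases h : w = v
    · exact Or.inl h
    · rw [Function.update_of_ne h]
      exact Or.inr (cls_mem.1 hw)
  exact (card_le_card h1).trans (card_insert_le _ _)

theorem tCls : S_Cls := by
  classical
  intro α β hα hα1 hβ f hf
  obtain ⟨K0, hK0⟩ : ∃ K0 : ℕ, K0 = ⌊2 / α⌋₊ := ⟨_, rfl⟩
  obtain ⟨t₀, ht₀⟩ : ∃ t₀ : ℝ, t₀ = min (α * β / 4) (α ^ 2 / 8) := ⟨_, rfl⟩
  have ht0 : 0 < t₀ := by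
    rw [ht₀]
    exact lt_min (by positivity) (by positivity)
  have ht1 : t₀ ≤ α * β / 4 := by rw [ht₀]; exact min_le_left _ _
  have ht2 : t₀ ≤ α ^ 2 / 8 := by rw [ht₀]; exact min_le_right _ _
  refine ⟨fun K => cls_t f t₀ (K0 - K) / 2, fun K => half_pos (cls_t_pos hf ht0 _), ?_⟩
  intro n r R hn hR hr
  have hn0 : 0 < (n : ℝ) := by
    by_contra hcon
    push Not at hcon
    nlinarith
  have hKle : ∀ (K : ℕ) (o i : Fin n → Fin K), cls_Adm α o i → K ≤ K0 := by
    intro K o i h
    rw [hK0]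
    apply Nat.le_floor
    rw [le_div_iff₀ hα, mul_comm]
    exact cls_Adm_le h hn0
  -- the maximal number of classes
  obtain ⟨P, hP⟩ : ∃ P : ℕ → Prop, ∀ K, P K ↔ (1 ≤ K ∧ ∃ o i : Fin n → Fin K, cls_Adm α o i ∧
    ((crs o i R).card : ℝ) ≤ cls_t f t₀ (K0 + 1 - K) * (n : ℝ) ^ 2) := ⟨_, fun _ => Iff.rfl⟩
  have hP1 : P 1 := by
    rw [hP]
    refine ⟨le_rfl, fun _ => 0, fun _ => 0, ?_, ?_⟩
    · intro a
      have h1 : Cl (fun _ : Fin n => (0 : Fin 1)) a = univ := by
        ext v
        rw [cls_mem]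
        simp [Subsingleton.elim (0 : Fin 1) a]
      rw [h1, card_univ, Fintype.card_fin]
      constructor <;> nlinarith
    · have h1 : crs (fun _ : Fin n => (0 : Fin 1)) (fun _ => 0) R = ∅ := by
        unfold crs
        simp
      rw [h1, card_empty, Nat.cast_zero]
      exact mul_nonneg (cls_t_pos hf ht0 _).le (by positivity)
  have hPle : ∀ K, P K → K ≤ K0 := by
    intro K h
    rw [hP] at h
    obtain ⟨-, o, i, h1, -⟩ := h
    exact hKle K o i h1
  obtain ⟨K, hK⟩ : ∃ K, K = Nat.findGreatest P K0 := ⟨_, rfl⟩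
  have hPK : P K := by
    rw [hK]
    exact Nat.findGreatest_spec (hPle 1 hP1) hP1
  have hPmax : ¬ P (K + 1) := by
    intro h
    refine Nat.findGreatest_is_greatest (P := P) (n := K0) (k := K + 1) ?_ (hPle _ h) h
    rw [← hK]
    exact Nat.lt_succ_self K
  have hKK : K ≤ K0 := hPle K hPK
  have hPK' := (hP K).1 hPK
  obtain ⟨hK1, o₀, i₀, hadm₀, hcrs₀⟩ := hPK'
  -- the minimal number of cross arcs
  have hex : ∃ m : ℕ, ∃ o i : Fin n → Fin K, cls_Adm α o i ∧ (crs o i R).card = m :=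
    ⟨_, o₀, i₀, hadm₀, rfl⟩
  obtain ⟨o, i, hadm, hcm⟩ := Nat.find_spec hex
  have hmin : ∀ o' i' : Fin n → Fin K, cls_Adm α o' i' → (crs o i R).card ≤ (crs o' i' R).card := by
    intro o' i' h
    rw [hcm]
    exact Nat.find_min' hex ⟨o', i', h, rfl⟩
  obtain ⟨s, hs⟩ : ∃ s : ℝ, s = cls_t f t₀ (K0 - K + 1) := ⟨_, rfl⟩
  have hcs : ((crs o i R).card : ℝ) ≤ s * (n : ℝ) ^ 2 := by
    have h1 : ((crs o i R).card : ℝ) ≤ ((crs o₀ i₀ R).card : ℝ) := by
      exact_mod_cast hmin o₀ i₀ hadm₀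
    have h2 : K0 + 1 - K = K0 - K + 1 := by omega
    rw [hs, ← h2]
    exact h1.trans hcrs₀
  have hs1 : s ≤ f (cls_t f t₀ (K0 - K) / 2) := by
    rw [hs]
    exact min_le_left _ _
  have hs2 : s ≤ cls_t f t₀ (K0 - K) / 2 := by
    rw [hs]
    exact min_le_right _ _
  have hst : s ≤ t₀ := by
    rw [hs]
    exact cls_t_le hf ht0 _
  have hnsq : 0 < (n : ℝ) ^ 2 := by positivity
  -- (a) sizes
  have hsize : ∀ A B : ℝ, 0 ≤ A → α * n ≤ 2 * B → (r : ℝ) * B ≤ A * B + (crs o i R).card →
      3 * (α * n) ≤ 4 * A := by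
    intro A B hA hB h1
    by_contra hcon
    push Not at hcon
    have h2 : ((r : ℝ) - A) * B ≤ α ^ 2 / 8 * (n : ℝ) ^ 2 := by
      have h3 : s * (n : ℝ) ^ 2 ≤ α ^ 2 / 8 * (n : ℝ) ^ 2 :=
        mul_le_mul_of_nonneg_right (hst.trans ht2) hnsq.le
      nlinarith
    have h4 : α * n / 4 < (r : ℝ) - A := by linarith
    have h5 : α * n / 2 ≤ B := by linarith
    have h6 : α * n / 4 * (α * n / 2) < ((r : ℝ) - A) * B :=
      mul_lt_mul h4 h5 (by positivity) (by linarith [show 0 < α * n / 4 by positivity])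
    nlinarith
  have hO : ∀ a, 3 * (α * n) ≤ 4 * ((Cl o a).card : ℝ) := by
    intro a
    refine hsize _ ((Cl i a).card : ℝ) (Nat.cast_nonneg _) (hadm a).2 ?_
    exact_mod_cast cls_sz_in hR o i a
  have hI : ∀ a, 3 * (α * n) ≤ 4 * ((Cl i a).card : ℝ) := by
    intro a
    refine hsize _ ((Cl o a).card : ℝ) (Nat.cast_nonneg _) (hadm a).1 ?_
    have h1 := cls_sz_out hR o i a
    rw [mul_comm (Cl o a).card (Cl i a).card] at h1
    exact_mod_cast h1
  refine ⟨K, hK1, cls_Adm_le hadm hn0, o, i, ?_, ?_, ?_, ?_, hadm⟩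
  · exact hcs.trans (mul_le_mul_of_nonneg_right hs1 hnsq.le)
  · -- (c) robustness
    intro a X Y hX hY hβ1 hβ2
    by_contra hcon
    push Not at hcon
    apply hPmax
    rw [hP]
    obtain ⟨o', ho'⟩ : ∃ o' : Fin n → Fin (K + 1), ∀ v, o' v =
      if v ∈ Cl o a \ X then Fin.last K else (o v).castSucc := ⟨_, fun _ => rfl⟩
    obtain ⟨i', hi'⟩ : ∃ i' : Fin n → Fin (K + 1), ∀ v, i' v =
      if v ∈ Y then Fin.last K else (i v).castSucc := ⟨_, fun _ => rfl⟩
    have hlast : ∀ c : Fin K, c.castSucc ≠ Fin.last K := fun c => (Fin.castSucc_lt_last c).ne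
    -- the classes
    have hOl : Cl o' (Fin.last K) = Cl o a \ X := by
      ext v
      rw [cls_mem, ho']
      by_cases h : v ∈ Cl o a \ X
      · rw [if_pos h]
        exact ⟨fun _ => h, fun _ => rfl⟩
      · rw [if_neg h]
        exact ⟨fun h2 => (hlast _ h2).elim, fun h2 => (h h2).elim⟩
    have hIl : Cl i' (Fin.last K) = Y := by
      ext v
      rw [cls_mem, hi']
      by_cases h : v ∈ Y
      · rw [if_pos h]
        exact ⟨fun _ => h, fun _ => rfl⟩
      · rw [if_neg h]
        exact ⟨fun h2 => (hlast _ h2).elim, fun h2 => (h h2).elim⟩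
    have hOa : Cl o' a.castSucc = X := by
      ext v
      rw [cls_mem, ho']
      by_cases h : v ∈ Cl o a \ X
      · rw [if_pos h]
        rw [mem_sdiff] at h
        exact ⟨fun h2 => (hlast _ h2.symm).elim, fun h2 => (h.2 h2).elim⟩
      · rw [if_neg h, Fin.castSucc_inj]
        rw [mem_sdiff, not_and, not_not] at h
        exact ⟨fun h2 => h (cls_mem.2 h2), fun h2 => cls_mem.1 (hX h2)⟩
    have hIa : Cl i' a.castSucc = Cl i a \ Y := by
      ext v
      rw [cls_mem, hi', mem_sdiff]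
      by_cases h : v ∈ Y
      · rw [if_pos h]
        exact ⟨fun h2 => (hlast _ h2.symm).elim, fun h2 => (h2.2 h).elim⟩
      · rw [if_neg h, Fin.castSucc_inj]
        exact ⟨fun h2 => ⟨cls_mem.2 h2, h⟩, fun h2 => cls_mem.1 h2.1⟩
    have hOc : ∀ c, c ≠ a → Cl o' c.castSucc = Cl o c := by
      intro c hc
      ext v
      rw [cls_mem, ho', cls_mem]
      by_cases h : v ∈ Cl o a \ X
      · rw [if_pos h]
        rw [mem_sdiff, cls_mem] at h
        exact ⟨fun h2 => (hlast _ h2.symm).elim, fun h2 => (hc (h2.symm.trans h.1)).elim⟩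
      · rw [if_neg h, Fin.castSucc_inj]
    have hIc : ∀ c, c ≠ a → Cl i' c.castSucc = Cl i c := by
      intro c hc
      ext v
      rw [cls_mem, hi', cls_mem]
      by_cases h : v ∈ Y
      · rw [if_pos h]
        exact ⟨fun h2 => (hlast _ h2.symm).elim,
          fun h2 => (hc (h2.symm.trans (cls_mem.1 (hY h)))).elim⟩
      · rw [if_neg h, Fin.castSucc_inj]
    -- the cross arcs
    have hcr : (crs o' i' R).card ≤ (crs o i R).card + (eb R X Y + eb R (Cl o a \ X) (Cl i a \ Y)) := by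
      have hsub : crs o' i' R ⊆ crs o i R ∪ (R.filter (fun e => e.1 ∈ X ∧ e.2 ∈ Y) ∪
          R.filter (fun e => e.1 ∈ Cl o a \ X ∧ e.2 ∈ Cl i a \ Y)) := by
        intro e he
        unfold crs at he ⊢
        rw [mem_filter, ho', hi'] at he
        obtain ⟨heR, hne⟩ := he
        rw [mem_union, mem_union, mem_filter, mem_filter, mem_filter]
        by_cases h1 : o e.1 = i e.2
        · right
          by_cases h2 : e.1 ∈ Cl o a \ X
          · right
            refine ⟨heR, h2, ?_⟩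
            rw [if_pos h2] at hne
            rw [mem_sdiff, cls_mem] at h2 ⊢
            refine ⟨h1.symm.trans h2.1, fun h3 => ?_⟩
            rw [if_pos h3] at hne
            exact hne rfl
          · left
            rw [if_neg h2] at hne
            have h3 : e.2 ∈ Y := by
              by_contra h3
              rw [if_neg h3, h1] at hne
              exact hne rfl
            refine ⟨heR, ?_, h3⟩
            by_contra h4
            apply h2
            rw [mem_sdiff, cls_mem]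
            exact ⟨h1.trans (cls_mem.1 (hY h3)), h4⟩
        · exact Or.inl ⟨heR, h1⟩
      refine (card_le_card hsub).trans ((card_union_le _ _).trans ?_)
      exact Nat.add_le_add_left (card_union_le _ _) _
    have hcr' : ((crs o' i' R).card : ℝ) ≤ cls_t f t₀ (K0 - K) * (n : ℝ) ^ 2 := by
      have h1 : ((crs o' i' R).card : ℝ) ≤ ((crs o i R).card : ℝ) +
          ((eb R X Y : ℝ) + eb R (Cl o a \ X) (Cl i a \ Y)) := by exact_mod_cast hcr
      have h2 : s * (n : ℝ) ^ 2 ≤ cls_t f t₀ (K0 - K) / 2 * (n : ℝ) ^ 2 :=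
        mul_le_mul_of_nonneg_right hs2 hnsq.le
      have h3 : (eb R X Y : ℝ) + eb R (Cl o a \ X) (Cl i a \ Y) <
        cls_t f t₀ (K0 - K) / 2 * (n : ℝ) ^ 2 := hcon
      linarith
    have htl := cls_t_le hf ht0 (K0 - K)
    refine ⟨by omega, o', i', ?_, ?_⟩
    · -- admissible
      have hpart : ∀ c, β * n ≤ ((Cl o' c).card : ℝ) + (Cl i' c).card →
          α * n ≤ 2 * ((Cl o' c).card : ℝ) ∧ α * n ≤ 2 * ((Cl i' c).card : ℝ) := by
        intro c hc
        refine cls_part hα hβ hn0 hr (htl.trans ht1) (htl.trans ht2) hcr' (Nat.cast_nonneg _)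
          (Nat.cast_nonneg _) ?_ ?_ hc
        · exact_mod_cast cls_sz_out hR o' i' c
        · exact_mod_cast cls_sz_in hR o' i' c
      intro c
      induction c using Fin.lastCases with
      | last =>
        apply hpart
        rw [hOl, hIl]
        exact hβ2
      | cast c =>
        by_cases hca : c = a
        · subst hca
          apply hpart
          rw [hOa, hIa]
          exact hβ1
        · rw [hOc c hca, hIc c hca]
          exact hadm c
    · have h2 : K0 + 1 - (K + 1) = K0 - K := by omega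
      rw [h2]
      exact hcr'
  · -- (b) tails
    intro v
    apply cls_own_out hR o i v
    intro b
    apply hmin
    intro a
    refine ⟨?_, (hadm a).2⟩
    have h1 : ((Cl o a).card : ℝ) ≤ (Cl (Function.update o v b) a).card + 1 := by
      exact_mod_cast cls_card_update o v b a
    have h2 := hO a
    linarith
  · -- (b) heads
    intro v
    have h0 : idg (own o i R) v = od (own i o (rev R)) v := by
      rw [cls_own_rev, od_rev]
    rw [h0]
    apply cls_own_out (cls_reg_rev hR) i o v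
    intro b
    rw [cls_crs_rev, cls_crs_rev]
    apply hmin
    intro a
    refine ⟨(hadm a).1, ?_⟩
    have h1 : ((Cl i a).card : ℝ) ≤ (Cl (Function.update i v b) a).card + 1 := by
      exact_mod_cast cls_card_update i v b a
    have h2 := hI a
    linarith

end Pool.Agent.MPd266dbH
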