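import Pool.Agent.Lib.MP_d266db_co.H.SpecR

/-!
# MP_d266db_co, H/Clu: clusters
-/

set_option autoImplicit false

namespace Pool.Agent.MPd266dbH

open Finset Pool.Agent.MPd266db

theorem clu_sum {n kt kh : ℕ} (S : Finset (Fin n × Fin n)) (T : Fin kt → Finset (Fin n))
    (H : Fin kh → Finset (Fin n)) (hT : ∀ p p', p ≠ p' → Disjoint (T p) (T p'))
    (hH : ∀ q q', q ≠ q' → Disjoint (H q) (H q')) (P : Finset (Fin kt × Fin kh))
    (X Y : Finset (Fin n)) (hX : ∀ e ∈ P, T e.1 ⊆ X) (hY : ∀ e ∈ P, H e.2 ⊆ Y) :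
    ∑ e ∈ P, eb S (T e.1) (H e.2) ≤ eb S X Y := by
  classical
  unfold eb
  rw [← Finset.card_biUnion]
  · apply Finset.card_le_card
    intro a ha
    rw [mem_biUnion] at ha
    obtain ⟨e, he, ha⟩ := ha
    rw [mem_filter] at ha ⊢
    exact ⟨ha.1, hX e he ha.2.1, hY e he ha.2.2⟩
  · intro e _ e' _ hne
    rw [Function.onFun, Finset.disjoint_left]
    intro a ha ha'
    rw [mem_filter] at ha ha'
    apply hne
    apply Prod.ext
    · by_contra h
      exact Finset.disjoint_left.1 (hT _ _ h) ha.2.1 ha'.2.1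
    · by_contra h
      exact Finset.disjoint_left.1 (hH _ _ h) ha.2.2 ha'.2.2

theorem clu_group {n kt kh M : ℕ} (S : Finset (Fin n × Fin n)) (T : Fin kt → Finset (Fin n))
    (H : Fin kh → Finset (Fin n)) (hT : ∀ p p', p ≠ p' → Disjoint (T p) (T p'))
    (hH : ∀ q q', q ≠ q' → Disjoint (H q) (H q')) (jt : Fin kt → Fin M) (jh : Fin kh → Fin M)
    (pt ph : Fin n → Fin M) (hjt : ∀ p, ∀ v ∈ T p, pt v = jt p) (hjh : ∀ q, ∀ v ∈ H q, ph v = jh q)
    (R : Finset (Fin kt × Fin kh)) (G : Finset (Fin M × Fin M))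
    (hR : ∀ e ∈ R, eb S (T e.1) (H e.2) ≠ 0 → (jt e.1, jh e.2) ∈ G) :
    ∑ e ∈ R, eb S (T e.1) (H e.2) ≤ ∑ x ∈ G, eb S (Cl pt x.1) (Cl ph x.2) := by
  classical
  have h1 : ∑ e ∈ R, eb S (T e.1) (H e.2)
      = ∑ e ∈ R.filter (fun e => (jt e.1, jh e.2) ∈ G), eb S (T e.1) (H e.2) := by
    rw [Finset.sum_filter]
    apply Finset.sum_congr rfl
    intro e he
    split_ifs with h
    · rfl
    · by_contra h0
      exact h (hR e he h0)
  rw [h1, ← Finset.sum_fiberwise_of_maps_to (t := G)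
    (g := fun e : Fin kt × Fin kh => (jt e.1, jh e.2)) (fun e he => (mem_filter.1 he).2)]
  apply Finset.sum_le_sum
  intro x _
  apply clu_sum S T H hT hH
  · intro e he v hv
    rw [mem_filter] at he
    rw [← he.2]
    simp only [Cl, mem_filter, mem_univ, true_and]
    exact hjt _ v hv
  · intro e he v hv
    rw [mem_filter] at he
    rw [← he.2]
    simp only [Cl, mem_filter, mem_univ, true_and]
    exact hjh _ v hv

theorem clu_cut (hPcs : S_Pcs) {n M K s : ℕ} (pt : Fin n → Fin M) (o : Fin n → Fin K) (hs : 1 ≤ s) :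
    ∃ (k : ℕ) (T : Fin k → Finset (Fin n)) (jt : Fin k → Fin M) (ct : Fin k → Fin K),
      (∀ p, (T p).card = s) ∧ (∀ p p', p ≠ p' → Disjoint (T p) (T p')) ∧
      (∀ p, ∀ v ∈ T p, pt v = jt p) ∧ (∀ p, ∀ v ∈ T p, o v = ct p) ∧
      (univ \ univ.biUnion T).card ≤ M * K * s := by
  classical
  obtain ⟨k, T, f, hT, hd, hu⟩ := hPcs n (M * K) s
    (fun x => univ.filter (fun v => finProdFinEquiv (pt v, o v) = x)) hs (by
      intro j j' hne
      rw [Finset.disjoint_left]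
      intro v hv hv'
      rw [mem_filter] at hv hv'
      exact hne (hv.2.symm.trans hv'.2))
  have hmem : ∀ p, ∀ v ∈ T p, (pt v, o v) = finProdFinEquiv.symm (f p) := by
    intro p v hv
    have h1 := (hT p).1 hv
    rw [mem_filter] at h1
    rw [← h1.2, Equiv.symm_apply_apply]
  refine ⟨k, T, fun p => (finProdFinEquiv.symm (f p)).1, fun p => (finProdFinEquiv.symm (f p)).2,
    fun p => (hT p).2, hd, ?_, ?_, ?_⟩
  · intro p v hv
    exact congrArg Prod.fst (hmem p v hv)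
  · intro p v hv
    exact congrArg Prod.snd (hmem p v hv)
  · have hall : (univ : Finset (Fin (M * K))).biUnion
        (fun x => univ.filter (fun v => finProdFinEquiv (pt v, o v) = x)) = univ := by
      ext v
      simp only [mem_biUnion, mem_univ, true_and, mem_filter, iff_true]
      exact ⟨_, rfl⟩
    rw [hall] at hu
    exact hu

theorem clu_rest {n M : ℕ} (S : Finset (Fin n × Fin n)) (pt ph : Fin n → Fin M)
    (Bd : Finset (Fin M × Fin M)) (δ : Fin M → Fin M → ℝ) (τ ε : ℝ) (hτ : 0 < τ)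
    (hM : 100 ≤ τ * M) (hε : ε ≤ τ / 100)
    (hsz : ∀ j, M * ((Cl pt j).card + (Cl ph j).card) ≤ 3 * n)
    (hBd : (Bd.card : ℝ) ≤ ε * (M : ℝ) ^ 2 + M)
    (hreg : ∀ j j', (j, j') ∉ Bd →
        (eb S (Cl pt j) (Cl ph j') : ℝ) * (M : ℝ) ^ 2 ≤ δ j j' * (3 * n) ^ 2)
    (G : Finset (Fin M × Fin M)) (hG : ∀ x ∈ G, x ∉ Bd → δ x.1 x.2 < τ / 16) :
    ∑ x ∈ G, (eb S (Cl pt x.1) (Cl ph x.2) : ℝ) ≤ τ * (n : ℝ) ^ 2 := by
  classical
  have hM0 : (0 : ℝ) < M := by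
    by_contra h
    push Not at h
    nlinarith
  have hM2 : (0 : ℝ) < (M : ℝ) ^ 2 := by positivity
  have hx : ∀ x ∈ G, (eb S (Cl pt x.1) (Cl ph x.2) : ℝ) * (M : ℝ) ^ 2
      ≤ (if x ∈ Bd then 9 * (n : ℝ) ^ 2 else 0) + τ / 16 * (9 * (n : ℝ) ^ 2) := by
    intro x hx
    by_cases hB : x ∈ Bd
    · rw [if_pos hB]
      have h1 : (eb S (Cl pt x.1) (Cl ph x.2) : ℝ) ≤ (Cl pt x.1).card * (Cl ph x.2).card := by
        exact_mod_cast eb_le_card_mul S (Cl pt x.1) (Cl ph x.2)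
      have h2 : (M : ℝ) * (Cl pt x.1).card ≤ 3 * n := by
        have h3 : M * (Cl pt x.1).card ≤ 3 * n :=
          (Nat.mul_le_mul_left M (Nat.le_add_right _ _)).trans (hsz x.1)
        exact_mod_cast h3
      have h3 : (M : ℝ) * (Cl ph x.2).card ≤ 3 * n := by
        have h3 : M * (Cl ph x.2).card ≤ 3 * n :=
          (Nat.mul_le_mul_left M (Nat.le_add_left _ _)).trans (hsz x.2)
        exact_mod_cast h3
      have h4 : ((M : ℝ) * (Cl pt x.1).card) * (M * (Cl ph x.2).card) ≤ (3 * n) * (3 * n) :=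
        mul_le_mul h2 h3 (by positivity) (by positivity)
      have h5 : (eb S (Cl pt x.1) (Cl ph x.2) : ℝ) * (M : ℝ) ^ 2
          ≤ ((Cl pt x.1).card * (Cl ph x.2).card) * (M : ℝ) ^ 2 :=
        mul_le_mul_of_nonneg_right h1 hM2.le
      have h6 : (0 : ℝ) ≤ τ / 16 * (9 * (n : ℝ) ^ 2) := by positivity
      nlinarith
    · rw [if_neg hB, zero_add]
      have h1 := hreg x.1 x.2 hB
      have h2 := hG x hx hB
      have h3 : δ x.1 x.2 * (3 * (n : ℝ)) ^ 2 ≤ τ / 16 * (3 * (n : ℝ)) ^ 2 :=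
        mul_le_mul_of_nonneg_right h2.le (by positivity)
      calc (eb S (Cl pt x.1) (Cl ph x.2) : ℝ) * (M : ℝ) ^ 2 ≤ δ x.1 x.2 * (3 * (n : ℝ)) ^ 2 := h1
        _ ≤ τ / 16 * (3 * (n : ℝ)) ^ 2 := h3
        _ = τ / 16 * (9 * (n : ℝ) ^ 2) := by ring
  have hsum : (∑ x ∈ G, (eb S (Cl pt x.1) (Cl ph x.2) : ℝ)) * (M : ℝ) ^ 2
      ≤ (Bd.card : ℝ) * (9 * (n : ℝ) ^ 2) + (M : ℝ) ^ 2 * (τ / 16 * (9 * (n : ℝ) ^ 2)) := by
    rw [Finset.sum_mul]
    refine (Finset.sum_le_sum hx).trans ?_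
    rw [Finset.sum_add_distrib]
    apply add_le_add
    · rw [← Finset.sum_filter, Finset.sum_const, nsmul_eq_mul]
      apply mul_le_mul_of_nonneg_right _ (by positivity)
      have h1 : G.filter (· ∈ Bd) ⊆ Bd := fun x hx => (mem_filter.1 hx).2
      exact_mod_cast card_le_card h1
    · rw [Finset.sum_const, nsmul_eq_mul]
      apply mul_le_mul_of_nonneg_right _ (by positivity)
      have h1 : G.card ≤ M ^ 2 := by
        refine (card_le_univ G).trans (le_of_eq ?_)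
        rw [Fintype.card_prod, Fintype.card_fin, sq]
      exact_mod_cast h1
  have hfin : (Bd.card : ℝ) * (9 * (n : ℝ) ^ 2) + (M : ℝ) ^ 2 * (τ / 16 * (9 * (n : ℝ) ^ 2))
      ≤ (τ * (n : ℝ) ^ 2) * (M : ℝ) ^ 2 := by
    have h1 : (M : ℝ) ≤ τ / 100 * (M : ℝ) ^ 2 := by nlinarith
    have h2 : ε * (M : ℝ) ^ 2 ≤ τ / 100 * (M : ℝ) ^ 2 := mul_le_mul_of_nonneg_right hε hM2.le
    have h3 : (Bd.card : ℝ) ≤ τ / 50 * (M : ℝ) ^ 2 := by linarith
    have h4 : (Bd.card : ℝ) * (9 * (n : ℝ) ^ 2) ≤ (τ / 50 * (M : ℝ) ^ 2) * (9 * (n : ℝ) ^ 2) :=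
      mul_le_mul_of_nonneg_right h3 (by positivity)
    have h5 : (0 : ℝ) ≤ τ * (n : ℝ) ^ 2 * (M : ℝ) ^ 2 := by positivity
    have h6 : (τ / 50 * (M : ℝ) ^ 2) * (9 * (n : ℝ) ^ 2) + (M : ℝ) ^ 2 * (τ / 16 * (9 * (n : ℝ) ^ 2))
        = (9 / 50 + 9 / 16) * (τ * (n : ℝ) ^ 2 * (M : ℝ) ^ 2) := by ring
    linarith
  exact le_of_mul_le_mul_right (hsum.trans hfin) hM2

theorem tClu (hSzr : S_Szr) (hPcs : S_Pcs) : S_Clu := by
  classical
  intro K0 τ hK0 hτ hτ1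
  have hK0' : (1 : ℝ) ≤ K0 := by exact_mod_cast hK0
  refine ⟨τ / 32, by positivity, by linarith, ?_⟩
  intro β1 hβ hβ1
  obtain ⟨ξ, hξ⟩ : ∃ ξ : ℝ, ξ = τ / (8 * K0) := ⟨_, rfl⟩
  have hξ0 : 0 < ξ := by rw [hξ]; positivity
  have hξK : K0 * ξ ≤ τ := by
    rw [hξ]
    have : (K0 : ℝ) * (τ / (8 * K0)) = τ / 8 := by field_simp
    rw [this]
    linarith
  obtain ⟨ε, hε⟩ : ∃ ε : ℝ, ε = min (τ / 100) (min (β1 * ξ / 6) (τ / 32)) := ⟨_, rfl⟩
  have hε0 : 0 < ε := by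
    rw [hε]
    exact lt_min (by positivity) (lt_min (by positivity) (by positivity))
  have hε1 : ε ≤ τ / 100 := by rw [hε]; exact min_le_left _ _
  have hε2 : ε ≤ β1 * ξ / 6 := by rw [hε]; exact (min_le_right _ _).trans (min_le_left _ _)
  have hε3 : ε ≤ τ / 32 := by rw [hε]; exact (min_le_right _ _).trans (min_le_right _ _)
  obtain ⟨Mx, n1, hS⟩ := hSzr ε ⌈100 / τ⌉₊ hε0
  refine ⟨⌈2 * Mx / ξ⌉₊ + 1, max n1 (max 1 ⌈2 * Mx / ξ⌉₊), ?_⟩
  intro n hn K S o i hK hown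
  have hn1 : n1 ≤ n := (le_max_left _ _).trans hn
  have hn2 : 1 ≤ n := (le_max_left _ _).trans ((le_max_right _ _).trans hn)
  have hn3 : 2 * Mx / ξ ≤ n := by
    have h1 : ⌈2 * Mx / ξ⌉₊ ≤ n := (le_max_right _ _).trans ((le_max_right _ _).trans hn)
    exact (Nat.le_ceil _).trans (by exact_mod_cast h1)
  obtain ⟨M, pt, ph, Bd, δ, hlM, hMMx, hsz, hBd, hreg⟩ := hS n hn1 S
  have hM100 : 100 ≤ τ * M := by
    have h1 : 100 / τ ≤ M := (Nat.le_ceil _).trans (by exact_mod_cast hlM)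
    rw [div_le_iff₀ hτ] at h1
    linarith
  have hM0 : (0 : ℝ) < M := by
    by_contra h
    push Not at h
    nlinarith
  have hnR : (1 : ℝ) ≤ n := by exact_mod_cast hn2
  have hMx : (M : ℝ) ≤ Mx := by exact_mod_cast hMMx
  have hMn : 2 * M ≤ ξ * n := by
    rw [div_le_iff₀ hξ0] at hn3
    nlinarith
  obtain ⟨s, hs⟩ : ∃ s : ℕ, s = ⌊ξ * n / M⌋₊ := ⟨_, rfl⟩
  have hs_le : (s : ℝ) ≤ ξ * n / M := by rw [hs]; exact Nat.floor_le (by positivity)
  have hs_gt : ξ * n / M < s + 1 := by rw [hs]; exact Nat.lt_floor_add_one _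
  have h2 : 2 ≤ ξ * n / M := by rw [le_div_iff₀ hM0]; linarith
  have hs1 : 1 ≤ s := by
    have h3 : (0 : ℝ) < s := by linarith
    exact_mod_cast h3
  have hMs : (M : ℝ) * s ≤ ξ * n := by
    rw [le_div_iff₀ hM0] at hs_le
    linarith
  have hMs2 : ξ * n ≤ 2 * (M * s) := by
    have h3 : ξ * n / M ≤ 2 * s := by
      have h4 : (1 : ℝ) ≤ s := by exact_mod_cast hs1
      linarith
    rw [div_le_iff₀ hM0] at h3
    linarith
  have hkn : n ≤ (⌈2 * Mx / ξ⌉₊ + 1) * s := by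
    have h3 : (n : ℝ) ≤ (2 * Mx / ξ) * s := by
      have h4 : (n : ℝ) * ξ ≤ 2 * Mx * s := by
        have h5 : (M : ℝ) * s ≤ Mx * s := mul_le_mul_of_nonneg_right hMx (by positivity)
        linarith
      have h6 : (2 * Mx / ξ) * s = 2 * Mx * s / ξ := by ring
      rw [h6, le_div_iff₀ hξ0]
      exact h4
    have h7 : (2 * Mx / ξ) * s ≤ ((⌈2 * Mx / ξ⌉₊ + 1 : ℕ) : ℝ) * s := by
      apply mul_le_mul_of_nonneg_right _ (by positivity)
      push_cast
      linarith [Nat.le_ceil (2 * (Mx : ℝ) / ξ)]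
    exact_mod_cast h3.trans h7
  have hMKs : ((M * K * s : ℕ) : ℝ) ≤ τ * n := by
    push_cast
    have h3 : (K : ℝ) ≤ K0 := by exact_mod_cast hK
    calc (M : ℝ) * K * s = K * (M * s) := by ring
      _ ≤ K0 * (ξ * n) := mul_le_mul h3 hMs (by positivity) (by positivity)
      _ = (K0 * ξ) * n := by ring
      _ ≤ τ * n := mul_le_mul_of_nonneg_right hξK (by positivity)
  obtain ⟨kt, T, jt, ct, hT1, hT2, hT3, hT4, hT5⟩ := clu_cut hPcs pt o hs1
  obtain ⟨kh, H, jh, ch, hH1, hH2, hH3, hH4, hH5⟩ := clu_cut hPcs ph i hs1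
  refine ⟨s, kt, kh, T, H, ct, ch, univ.filter (fun e => ct e.1 = ch e.2 ∧
    (jt e.1, jh e.2) ∉ Bd ∧ τ / 16 ≤ δ (jt e.1) (jh e.2)), hn2, hs1, hkn, ?_⟩
  refine ⟨hT1, hH1, hT2, hH2, hT4, hH4, ?_, ?_, ?_, ?_, ?_⟩
  · have h3 : ((univ \ univ.biUnion T).card : ℝ) ≤ ((M * K * s : ℕ) : ℝ) := by exact_mod_cast hT5
    exact h3.trans hMKs
  · have h3 : ((univ \ univ.biUnion H).card : ℝ) ≤ ((M * K * s : ℕ) : ℝ) := by exact_mod_cast hH5
    exact h3.trans hMKs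
  · intro e he
    rw [mem_filter] at he
    exact he.2.1
  · intro e he A B hA hB hAs hBs
    rw [mem_filter] at he
    obtain ⟨-, -, hb, hd⟩ := he
    have hbig : ∀ A : Finset (Fin n), β1 * s ≤ A.card → ε * (3 * n) ≤ M * (A.card : ℝ) := by
      intro A hA
      have h3 : M * (β1 * s) ≤ M * (A.card : ℝ) := mul_le_mul_of_nonneg_left hA hM0.le
      have h4 : ε * (3 * n) ≤ (β1 * ξ / 6) * (3 * n) :=
        mul_le_mul_of_nonneg_right hε2 (by positivity)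
      have h5 : β1 * (ξ * n) ≤ β1 * (2 * (M * s)) := mul_le_mul_of_nonneg_left hMs2 hβ.le
      linarith
    have h3 := (hreg (jt e.1) (jh e.2) hb).2 A B
      (fun v hv => by
        simp only [Cl, mem_filter, mem_univ, true_and]
        exact hT3 _ v (hA hv))
      (fun v hv => by
        simp only [Cl, mem_filter, mem_univ, true_and]
        exact hH3 _ v (hB hv)) (hbig A hAs) (hbig B hBs)
    have h4 := (abs_le.1 h3).1
    have h5 : (0 : ℝ) ≤ (A.card : ℝ) * B.card := by positivity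
    have h6 : τ / 16 * ((A.card : ℝ) * B.card) ≤ δ (jt e.1) (jh e.2) * (A.card * B.card) :=
      mul_le_mul_of_nonneg_right hd h5
    have h7 : ε * ((A.card : ℝ) * B.card) ≤ τ / 32 * (A.card * B.card) :=
      mul_le_mul_of_nonneg_right hε3 h5
    linarith
  · have h3 := clu_group S T H hT2 hH2 jt jh pt ph hT3 hH3
      (univ.filter (fun e => ct e.1 = ch e.2 ∧
        (jt e.1, jh e.2) ∉ Bd ∧ τ / 16 ≤ δ (jt e.1) (jh e.2)))ᶜ
      (univ.filter (fun x : Fin M × Fin M => x ∈ Bd ∨ δ x.1 x.2 < τ / 16)) (by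
        intro e he h0
        rw [mem_compl, mem_filter] at he
        rw [mem_filter]
        refine ⟨mem_univ _, ?_⟩
        by_contra hcon
        push Not at hcon
        apply he
        refine ⟨mem_univ _, ?_, hcon.1, hcon.2⟩
        have hpos : 0 < eb S (T e.1) (H e.2) := Nat.pos_of_ne_zero h0
        unfold eb at hpos
        rw [card_pos] at hpos
        obtain ⟨a, ha⟩ := hpos
        rw [mem_filter] at ha
        have h4 := hown a ha.1
        rw [hT4 _ _ ha.2.1, hH4 _ _ ha.2.2] at h4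
        exact h4)
    have h4 := clu_rest S pt ph Bd δ τ ε hτ hM100 hε1 hsz hBd (fun j j' hj => (hreg j j' hj).1)
      (univ.filter (fun x : Fin M × Fin M => x ∈ Bd ∨ δ x.1 x.2 < τ / 16)) (by
        intro x hx hxB
        rw [mem_filter] at hx
        exact hx.2.resolve_left hxB)
    refine le_trans ?_ h4
    exact_mod_cast h3

end Pool.Agent.MPd266dbH
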