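import Pool.Agent.Lib.MP_d266db_co.H.SpecM

/-! # MP_d266db_co, H: Cnt -/

set_option autoImplicit false

namespace Pool.Agent.MPd266dbH

open Finset Pool.Agent.MPd266db

theorem tCnt : S_Cnt := by
  classical
  intro n k X h x y σ ρ U Q hdis hsz hoff htyp
  have hT : ∀ p, ∃ T : Finset (Fin n), 4 * (X p ∩ Q).card ≤ y → (T ⊆ X p \ Q ∧
      (X p \ Q).card ≤ T.card + 2 * h ∧ ∀ v ∈ T, ∀ w ∈ T, ρ.SameCycle v w) := by
    intro p
    by_cases hp : 4 * (X p ∩ Q).card ≤ y
    · obtain ⟨T, h1, h2, h3⟩ := htyp p hp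
      exact ⟨T, fun _ => ⟨h1, h2, h3⟩⟩
    · exact ⟨∅, fun h' => absurd h' hp⟩
  choose T hT using hT
  set N : Finset (Fin k) := univ.filter (fun p => y < 4 * (X p ∩ Q).card) with hN
  have hNm : ∀ p, p ∉ N → 4 * (X p ∩ Q).card ≤ y := by
    intro p hp
    rw [hN, mem_filter] at hp
    push Not at hp
    exact hp (mem_univ p)
  -- the number of saturated clusters
  have hNc : y * N.card ≤ 4 * Q.card := by
    have h1 : ∑ p ∈ N, y ≤ ∑ p ∈ N, 4 * (X p ∩ Q).card := by
      refine sum_le_sum fun p hp => ?_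
      rw [hN, mem_filter] at hp
      exact hp.2.le
    have h2 : (N.biUnion fun p => X p ∩ Q).card = ∑ p ∈ N, (X p ∩ Q).card := by
      apply card_biUnion
      intro p _ p' _ hpp'
      exact (hdis p p' hpp').mono inter_subset_left inter_subset_left
    have h3 : (N.biUnion fun p => X p ∩ Q).card ≤ Q.card := by
      apply card_le_card
      intro z hz
      rw [mem_biUnion] at hz
      obtain ⟨p, _, hz⟩ := hz
      exact (mem_inter.1 hz).2
    rw [sum_const, smul_eq_mul, ← mul_sum, ← h2] at h1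
    rw [mul_comm]
    exact h1.trans (Nat.mul_le_mul_left 4 h3)
  obtain ⟨W0, hW0, hW0c, -⟩ := cyc_trans σ
  set R : Finset (Fin n) := univ.biUnion
    (fun p : Fin k => if hp : (T p).Nonempty then {hp.choose} else ∅) with hR
  have hRc : R.card ≤ k := by
    refine card_biUnion_le.trans ?_
    have h1 : ∀ p ∈ (univ : Finset (Fin k)),
        (if hp : (T p).Nonempty then ({hp.choose} : Finset (Fin n)) else ∅).card ≤ 1 := by
      intro p _
      split_ifs
      · simp
      · simp
    refine (sum_le_sum h1).trans ?_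
    simp
  set A : Finset (Fin n) := N.biUnion X with hA
  have hAc : A.card ≤ 2 * x * N.card := by
    refine card_biUnion_le.trans ?_
    refine (sum_le_sum fun p _ => hsz p).trans ?_
    rw [sum_const, smul_eq_mul, mul_comm]
  set B : Finset (Fin n) := (univ \ N).biUnion (fun p => (X p \ Q) \ T p) with hB
  have hBc : B.card ≤ 2 * h * k := by
    refine card_biUnion_le.trans ?_
    have h1 : ∀ p ∈ univ \ N, ((X p \ Q) \ T p).card ≤ 2 * h := by
      intro p hp
      obtain ⟨q1, q2, -⟩ := hT p (hNm p (mem_sdiff.1 hp).2)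
      rw [card_sdiff_of_subset q1]
      omega
    refine (sum_le_sum h1).trans ?_
    rw [sum_const, smul_eq_mul]
    have h2 : (univ \ N : Finset (Fin k)).card ≤ k := by
      refine (card_le_univ _).trans ?_
      simp
    calc (univ \ N : Finset (Fin k)).card * (2 * h) ≤ k * (2 * h) := Nat.mul_le_mul_right _ h2
      _ = 2 * h * k := by ring
  set D : Finset (Fin n) := U \ univ.biUnion X with hD
  have hcyc : cyc ρ ≤ (R ∪ Q ∪ A ∪ B ∪ D ∪ W0).card := by
    apply cyc_le
    intro v
    by_contra hcon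
    push Not at hcon
    simp only [mem_union] at hcon
    have hstay : ∀ z, ρ.SameCycle v z → ρ z = σ z := by
      intro z hz
      have hzQ : z ∉ Q := fun hq => hcon z (by tauto) hz
      apply hoff z _ hzQ
      intro hzU
      have hzX : z ∈ univ.biUnion X := by
        by_contra hzX
        exact hcon z (by
          have : z ∈ D := mem_sdiff.2 ⟨hzU, hzX⟩
          tauto) hz
      rw [mem_biUnion] at hzX
      obtain ⟨p, -, hzp⟩ := hzX
      have hpN : p ∉ N := by
        intro hpN
        exact hcon z (by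
          have : z ∈ A := mem_biUnion.2 ⟨p, hpN, hzp⟩
          tauto) hz
      obtain ⟨q1, q2, q3⟩ := hT p (hNm p hpN)
      have hzT : z ∈ T p := by
        by_contra hzT
        exact hcon z (by
          have : z ∈ B := mem_biUnion.2 ⟨p, mem_sdiff.2 ⟨mem_univ p, hpN⟩,
            mem_sdiff.2 ⟨mem_sdiff.2 ⟨hzp, hzQ⟩, hzT⟩⟩
          tauto) hz
      have hne : (T p).Nonempty := ⟨z, hzT⟩
      have hrT : hne.choose ∈ T p := hne.choose_spec
      have hrR : hne.choose ∈ R := by
        rw [hR, mem_biUnion]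
        refine ⟨p, mem_univ p, ?_⟩
        rw [dif_pos hne]
        exact mem_singleton_self _
      exact hcon hne.choose (by tauto) (hz.trans (q3 z hzT _ hrT))
    have hpow : ∀ j : ℕ, (σ ^ j) v = (ρ ^ j) v := by
      intro j
      induction j with
      | zero => rfl
      | succ j ih =>
        rw [pow_succ', pow_succ', Equiv.Perm.mul_apply, Equiv.Perm.mul_apply, ih]
        refine (hstay _ ⟨j, ?_⟩).symm
        rw [zpow_natCast]
    obtain ⟨w, hw, hvw⟩ := hW0c v
    obtain ⟨j, hj⟩ := hvw.exists_nat_pow_eq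
    refine hcon w (by tauto) ⟨j, ?_⟩
    rw [zpow_natCast, ← hpow, hj]
  have h1 := card_union_le (R ∪ Q ∪ A ∪ B ∪ D) W0
  have h2 := card_union_le (R ∪ Q ∪ A ∪ B) D
  have h3 := card_union_le (R ∪ Q ∪ A) B
  have h4 := card_union_le (R ∪ Q) A
  have h5 := card_union_le R Q
  have h6 : cyc ρ ≤ k + Q.card + 2 * h * k + D.card + cyc σ + 2 * x * N.card := by
    omega
  calc y * cyc ρ ≤ y * (k + Q.card + 2 * h * k + D.card + cyc σ + 2 * x * N.card) :=
        Nat.mul_le_mul_left y h6
    _ = y * (k + Q.card + 2 * h * k + D.card + cyc σ) + 2 * x * (y * N.card) := by ring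
    _ ≤ y * (k + Q.card + 2 * h * k + D.card + cyc σ) + 2 * x * (4 * Q.card) := by
        exact Nat.add_le_add_left (Nat.mul_le_mul_left _ hNc) _
    _ = y * (k + Q.card + 2 * h * k + D.card + cyc σ) + 8 * x * Q.card := by ring

end Pool.Agent.MPd266dbH
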