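import Pool.Agent.Lib.MP_d266db_co.H.SpecF

/-!
# MP_d266db_co, H: the decomposition
-/

set_option autoImplicit false

namespace Pool.Agent.MPd266dbH

open Finset Pool.Agent.MPd266db

theorem dcp_rob {n K : ℕ} {o i : Fin n → Fin K} {E : Finset (Fin n × Fin n)} {β β' ν : ℝ}
    (h : Rob o i E β ν) (hβ : β ≤ β') : Rob o i E β' ν := by
  have hn : (0 : ℝ) ≤ n := Nat.cast_nonneg n
  have h0 : β * n ≤ β' * n := mul_le_mul_of_nonneg_right hβ hn
  intro a X Y hX hY h1 h2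
  exact h a X Y hX hY (h0.trans h1) (h0.trans h2)

theorem dcp_nr {n : ℕ} {S : Finset (Fin n × Fin n)} {ρ g g' : ℝ} (h : Nr S ρ g) (hg : g ≤ g') :
    Nr S ρ g' := by
  have hn : (0 : ℝ) ≤ n := Nat.cast_nonneg n
  have h0 : g * n ≤ g' * n := mul_le_mul_of_nonneg_right hg hn
  refine ⟨le_trans ?_ (h.1.trans h0), le_trans ?_ (h.2.trans h0)⟩
  · have : (univ.filter (fun v => g' * n < |(od S v : ℝ) - ρ|)) ⊆
        (univ.filter (fun v => g * n < |(od S v : ℝ) - ρ|)) := by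
      intro v hv
      rw [mem_filter] at hv ⊢
      exact ⟨hv.1, h0.trans_lt hv.2⟩
    exact_mod_cast card_le_card this
  · have : (univ.filter (fun v => g' * n < |(idg S v : ℝ) - ρ|)) ⊆
        (univ.filter (fun v => g * n < |(idg S v : ℝ) - ρ|)) := by
      intro v hv
      rw [mem_filter] at hv ⊢
      exact ⟨hv.1, h0.trans_lt hv.2⟩
    exact_mod_cast card_le_card this

theorem dcp_mhyp {n K : ℕ} {S : Finset (Fin n × Fin n)} {o i : Fin n → Fin K} {θ ρ g g' β ν : ℝ}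
    (h : MHyp S o i θ ρ g β ν) (hg : g ≤ g') : MHyp S o i θ ρ g' β ν :=
  ⟨h.own, h.odl, h.idl, dcp_nr h.nr hg, h.rge, h.rle, h.rob⟩

theorem dcp_shyp {n K : ℕ} {o i : Fin n → Fin K} {σ : Equiv.Perm (Fin n)} {g g' : ℝ}
    (h : SHyp o i σ g) (hg : g ≤ g') : SHyp o i σ g' := by
  have hn : (0 : ℝ) ≤ n := Nat.cast_nonneg n
  have h0 : g * n ≤ g' * n := mul_le_mul_of_nonneg_right hg hn
  exact ⟨h.cyc.trans h0, h.cross.trans h0, h.own⟩

theorem dcp_mono {n K r : ℕ} {R : Finset (Fin n × Fin n)} {o i : Fin n → Fin K}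
    {θ lam ε g g' ν : ℝ} (h : DcpC n K r R o i θ lam ε g ν) (hg : g ≤ g') :
    DcpC n K r R o i θ lam ε g' ν := by
  obtain ⟨S, ρ, t, σ, h1, h2, h3, h4, h5, h6, h7⟩ := h
  exact ⟨S, ρ, t, σ, h1, h2, h3, h4, dcp_mhyp h5 hg, fun j => dcp_shyp (h6 j) hg, h7⟩

theorem tDcp (hCls : S_Cls) (hLow : S_Low) (hGrp : S_Grp) (hPrt : S_Prt) (hDcA : S_DcA) :
    S_Dcp := by
  intro α η ε hα hα1 hη hε hε1
  obtain ⟨K0, hK0def⟩ : ∃ K0 : ℕ, K0 = ⌊2 / α⌋₊ := ⟨_, rfl⟩
  have hK0 : 1 ≤ K0 := by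
    rw [hK0def]
    apply Nat.le_floor
    rw [Nat.cast_one, le_div_iff₀ hα]
    linarith
  have hKle : ∀ K : ℕ, α * K ≤ 2 → K ≤ K0 := by
    intro K hK
    rw [hK0def]
    apply Nat.le_floor
    rw [le_div_iff₀ hα]
    linarith
  have hK0R : (1 : ℝ) ≤ K0 := by exact_mod_cast hK0
  obtain ⟨ε1, hε1pos, hLow1⟩ := hLow α (ε / 8) K0 hα hα1 (by linarith) (by linarith) hK0
  obtain ⟨M, hMM0, hM1, γG, hγG, nG, hGrp1⟩ := hGrp K0 ⌈8 / ε⌉₊ ε1 hK0 hε1pos
  have hM1R : (1 : ℝ) ≤ M := by exact_mod_cast hM1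
  have hM8 : 8 ≤ ε * (M + 1) := by
    have h1 : 8 / ε ≤ (⌈8 / ε⌉₊ : ℝ) := Nat.le_ceil _
    have h2 : (⌈8 / ε⌉₊ : ℝ) ≤ M := by exact_mod_cast hMM0
    have h3 := h1.trans h2
    rw [div_le_iff₀ hε] at h3
    nlinarith
  obtain ⟨βL, hβL, hLow2⟩ := hLow1 (M + 1) (by omega)
  choose! γL cL hγL hcL hLow3 using hLow2
  obtain ⟨θ, hθdef⟩ : ∃ θ : ℝ, θ = α / (2 * K0 * (M + 1)) := ⟨_, rfl⟩
  have hden : (0 : ℝ) < 2 * K0 * (M + 1) := by positivity
  have hθ : 0 < θ := by rw [hθdef]; positivity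
  have hθ1 : θ ≤ 1 := by
    rw [hθdef, div_le_one hden]
    have : (1 : ℝ) ≤ 2 * K0 * (M + 1) := by nlinarith
    linarith
  refine ⟨K0, θ, η * α ^ 2 / (16 * K0 ^ 2), hK0, hθ, hθ1, by positivity, ?_⟩
  intro gf hgf
  obtain ⟨gx, hgx⟩ : ∃ gx : ℝ → ℝ, gx = fun x => min (gf (x / (2 * (M + 1)))) 1 := ⟨_, rfl⟩
  have hgxpos : ∀ x, 0 < x → 0 < gx x := by
    intro x hx
    rw [hgx]
    exact lt_min (hgf _ (by positivity)) one_pos
  have hgx1 : ∀ x, gx x ≤ 1 := by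
    intro x; rw [hgx]; exact min_le_right _ _
  have hgxle : ∀ x, gx x ≤ gf (x / (2 * (M + 1))) := by
    intro x; rw [hgx]; exact min_le_left _ _
  obtain ⟨f, hf⟩ : ∃ f : ℝ → ℝ, f = fun x => min (γL x) (min γG (min (η * α ^ 2 / 16)
      (min (ε * α * gx x / 8) (gx x ^ 2 / 16)))) := ⟨_, rfl⟩
  have hfpos : ∀ x, 0 < x → 0 < f x := by
    intro x hx
    rw [hf]
    have h1 := hgxpos x hx
    have h2 := hγL x hx
    refine lt_min h2 (lt_min hγG (lt_min (by positivity) (lt_min (by positivity) (by positivity))))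
  have hf1 : ∀ x, f x ≤ γL x := by
    intro x; rw [hf]; exact min_le_left _ _
  have hf2 : ∀ x, f x ≤ γG := by
    intro x; rw [hf]; exact (min_le_right _ _).trans (min_le_left _ _)
  have hf3 : ∀ x, f x ≤ η * α ^ 2 / 16 := by
    intro x; rw [hf]
    exact (min_le_right _ _).trans ((min_le_right _ _).trans (min_le_left _ _))
  have hf4 : ∀ x, f x ≤ ε * α * gx x / 8 := by
    intro x; rw [hf]
    exact (min_le_right _ _).trans ((min_le_right _ _).trans ((min_le_right _ _).trans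
      (min_le_left _ _)))
  have hf5 : ∀ x, f x ≤ gx x ^ 2 / 16 := by
    intro x; rw [hf]
    exact (min_le_right _ _).trans ((min_le_right _ _).trans ((min_le_right _ _).trans
      (min_le_right _ _)))
  obtain ⟨νs0, hνs0, hCls1⟩ := hCls α (min βL (θ / 32)) hα hα1 (lt_min hβL (by positivity)) f hfpos
  obtain ⟨dl, hdl⟩ : ∃ dl : ℕ → ℝ, dl = fun K => min (ε / 8) (min (ε * α / (8 * (M + 1)))
      (min (gx (νs0 K) ^ 2 / 16) (min (νs0 K / 4) (1 / 2)))) := ⟨_, rfl⟩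
  have hdlpos : ∀ K, 0 < dl K := by
    intro K
    rw [hdl]
    have h1 := hgxpos _ (hνs0 K)
    have h2 := hνs0 K
    refine lt_min (by positivity) (lt_min (by positivity) (lt_min (by positivity)
      (lt_min (by positivity) (by norm_num))))
  have hd1 : ∀ K, dl K ≤ ε / 8 := by
    intro K; rw [hdl]; exact min_le_left _ _
  have hd2 : ∀ K, dl K ≤ ε * α / (8 * (M + 1)) := by
    intro K; rw [hdl]; exact (min_le_right _ _).trans (min_le_left _ _)
  have hd3 : ∀ K, dl K ≤ gx (νs0 K) ^ 2 / 16 := by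
    intro K; rw [hdl]
    exact (min_le_right _ _).trans ((min_le_right _ _).trans (min_le_left _ _))
  have hd4 : ∀ K, dl K ≤ νs0 K / 4 := by
    intro K; rw [hdl]
    exact (min_le_right _ _).trans ((min_le_right _ _).trans ((min_le_right _ _).trans
      (min_le_left _ _)))
  have hd5 : ∀ K, dl K ≤ 1 / 2 := by
    intro K; rw [hdl]
    exact (min_le_right _ _).trans ((min_le_right _ _).trans ((min_le_right _ _).trans
      (min_le_right _ _)))
  have hP : ∀ K : ℕ, _ := fun K => hPrt K0 M (cL (νs0 K)) (dl K) (gx (νs0 K)) (α / K0) hM1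
    (hcL _ (hνs0 K)) (hdlpos K) ((hd5 K).trans (by norm_num)) (hgxpos _ (hνs0 K)) (hgx1 _)
    (by positivity)
  choose nP hP1 using hP
  refine ⟨fun K => νs0 K / (2 * (M + 1)), fun K => div_pos (hνs0 K) (by positivity),
    max (max nG ⌈4 / α⌉₊) (max 1 ((range (K0 + 1)).sup nP)), ?_⟩
  intro n hn r R hloop hReg har hcut
  have hnG : nG ≤ n := ((le_max_left _ _).trans (le_max_left _ _)).trans hn
  have hn4 : ⌈4 / α⌉₊ ≤ n := ((le_max_right _ _).trans (le_max_left _ _)).trans hn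
  have hn1 : 1 ≤ n := ((le_max_left _ _).trans (le_max_right _ _)).trans hn
  have hnP : ∀ K, K ≤ K0 → nP K ≤ n := by
    intro K hK
    have h1 : nP K ≤ (range (K0 + 1)).sup nP := Finset.le_sup (f := nP) (mem_range.2 (by omega))
    exact (h1.trans ((le_max_right _ _).trans (le_max_right _ _))).trans hn
  have hnR : (1 : ℝ) ≤ n := by exact_mod_cast hn1
  have h4 : 4 ≤ α * n := by
    have h1 : 4 / α ≤ (⌈4 / α⌉₊ : ℝ) := Nat.le_ceil _
    have h2 : (⌈4 / α⌉₊ : ℝ) ≤ n := by exact_mod_cast hn4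
    have h3 := h1.trans h2
    rw [div_le_iff₀ hα] at h3
    linarith
  obtain ⟨K, hK1, hαK, o, i, hcrs, hRob, hod, hid, hsz⟩ := hCls1 n r R h4 hReg har
  have hKK0 := hKle K hαK
  have hx := hνs0 K
  have hgp := hgxpos _ hx
  have hcrsG : ((crs o i R).card : ℝ) ≤ γG * (n : ℝ) ^ 2 :=
    hcrs.trans (mul_le_mul_of_nonneg_right (hf2 _) (by positivity))
  have hcrsL : ((crs o i R).card : ℝ) ≤ γL (νs0 K) * (n : ℝ) ^ 2 :=
    hcrs.trans (mul_le_mul_of_nonneg_right (hf1 _) (by positivity))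
  obtain ⟨C, hCc, hCd, hrk, hC1, hC2, hC3⟩ := hGrp1 n hnG K (crs o i R) o i hKK0 hcrsG
    (fun e he => hloop e (mem_filter.1 he).1)
  have hlow : ∀ m, ∀ X Y : Finset (Fin n), n + 1 ≤ X.card + Y.card →
      (1 - ε / 8) * r * ((X.card : ℝ) + Y.card - n) ≤
        (eb (own o i R) X Y : ℝ) + (M + 1) * eb (C m) X Y ∧
      ∃ J : Finset (Fin K), cL (νs0 K) * n * (1 + (symmDiff X (ClU o J)).card +
        (symmDiff Y (ClU i Jᶜ)).card) ≤ (eb (own o i R) X Y : ℝ) + (M + 1) * eb (C m) X Y := by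
    intro m X Y hXY
    have h1 := hLow3 (νs0 K) hx n r K R (C m) o i hReg har hK1 hKK0 (hCc m) hcrsL
      (dcp_rob hRob (min_le_left _ _)) hod hid
      (by intro a b; have := hC1 m a b; push_cast; linarith)
      (by intro v b; have := hC2 m v b; push_cast; linarith)
      (by intro v a; have := hC3 m v a; push_cast; linarith) X Y hXY
    push_cast at h1
    exact h1
  have hdisj : ∀ m, Disjoint (own o i R) (C m) := by
    intro m
    rw [Finset.disjoint_left]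
    intro e he he'
    exact (mem_filter.1 (hCc m he')).2 (mem_filter.1 he).2
  obtain ⟨T, S, P, hT, hTδ, hS, hP, hSP, hPP, hPcut, hPcyc, hSe, hSo, hSi⟩ :=
    hP1 K n (hnP K hKK0) K o i (own o i R) C hKK0 hdisj hCd
      (fun m X Y hXY => (hlow m X Y hXY).2)
  have hKR : (1 : ℝ) ≤ K := by exact_mod_cast hK1
  have hKK0R : (K : ℝ) ≤ K0 := by exact_mod_cast hKK0
  have hdeg : ∀ q : ℕ, r ≤ K * q → α / K0 * n ≤ (q : ℝ) := by
    intro q hq
    have h1 : (r : ℝ) ≤ K * q := by exact_mod_cast hq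
    have h2 : α * n ≤ K0 * q :=
      (har.trans h1).trans (mul_le_mul_of_nonneg_right hKK0R (Nat.cast_nonneg q))
    rw [div_mul_eq_mul_div, div_le_iff₀ (by positivity)]
    linarith
  have hfin := hDcA n r K K0 M T R S o i C P α η ε (f (νs0 K)) (dl K) (gx (νs0 K)) (νs0 K) hn1
    hReg har hα hη hε hε1 hK1 hKK0 hM8 (hfpos _ hx).le (hdlpos K)
    (by have := hd1 K; linarith)
    (by
      have h1 := hd2 K
      rw [le_div_iff₀ (by positivity)] at h1
      have h2 := hdlpos K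
      nlinarith)
    (by have := hd5 K; linarith) hgp
    (by have := hd4 K; linarith)
    (by
      have h1 := hd3 K
      have h2 := hf5 (νs0 K)
      have h3 : 0 < gx (νs0 K) ^ 2 := by positivity
      linarith)
    (by have := hf4 (νs0 K); linarith)
    (by have := hf3 (νs0 K); linarith)
    hcut hcrs (by rw [← hθdef]; exact dcp_rob hRob (min_le_right _ _)) hod hid
    (fun a => (hsz a).1) hCc hrk (fun m X Y hXY => (hlow m X Y hXY).1) hT hTδ hS hP hSP hPP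
    hPcut hPcyc hSe (fun v => hSo v (hdeg _ (hod v))) (fun v => hSi v (hdeg _ (hid v)))
  rw [← hθdef] at hfin
  exact ⟨K, o, i, hKK0, dcp_mono hfin (hgxle _)⟩

end Pool.Agent.MPd266dbH
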