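import Pool.Agent.Lib.MP_d266db_co.H.SpecQ
import Pool.Agent.Lib.MP_d266db_co.Fac

/-!
# MP_d266db_co, H, Dec1: a `d`-regular digraph is a union of `d` permutations
-/

set_option autoImplicit false

namespace Pool.Agent.MPd266dbH

open Finset Pool.Agent.MPd266db

theorem dec1_od_sdiff {n : ℕ} {H H₁ : Finset (Fin n × Fin n)} (h : H₁ ⊆ H) (v : Fin n) :
    od (H \ H₁) v + od H₁ v = od H v := by
  classical
  unfold od
  rw [← Finset.card_sdiff_add_card_eq_card (Finset.filter_subset_filter (fun e => e.1 = v) h)]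
  congr 2
  ext e
  simp only [mem_filter, mem_sdiff]
  tauto

theorem dec1_idg_sdiff {n : ℕ} {H H₁ : Finset (Fin n × Fin n)} (h : H₁ ⊆ H) (v : Fin n) :
    idg (H \ H₁) v + idg H₁ v = idg H v := by
  classical
  unfold idg
  rw [← Finset.card_sdiff_add_card_eq_card (Finset.filter_subset_filter (fun e => e.2 = v) h)]
  congr 2
  ext e
  simp only [mem_filter, mem_sdiff]
  tauto

/-- A `1`-regular digraph is the graph of a permutation. -/
theorem dec1_perm {n : ℕ} (H : Finset (Fin n × Fin n)) (h : ∀ v, od H v = 1 ∧ idg H v = 1) :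
    ∃ σ : Equiv.Perm (Fin n), ∀ v, (v, σ v) ∈ H := by
  classical
  have h1 : ∀ v, ∃ w, (v, w) ∈ H := by
    intro v
    obtain ⟨e, he⟩ := Finset.card_eq_one.mp (h v).1
    have h2 : e ∈ H.filter (fun e => e.1 = v) := by
      rw [he]
      exact mem_singleton_self e
    rw [mem_filter] at h2
    refine ⟨e.2, ?_⟩
    rw [← h2.2]
    exact h2.1
  choose f hf using h1
  have hinj : Function.Injective f := by
    intro v v' hvv
    obtain ⟨e, he⟩ := Finset.card_eq_one.mp (h (f v)).2
    have h2 : (v, f v) ∈ H.filter (fun e => e.2 = f v) := mem_filter.mpr ⟨hf v, rfl⟩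
    have h3 : (v', f v') ∈ H.filter (fun e => e.2 = f v) := mem_filter.mpr ⟨hf v', hvv.symm⟩
    rw [he, mem_singleton] at h2 h3
    have h4 : (v, f v) = (v', f v') := h2.trans h3.symm
    exact congrArg Prod.fst h4
  exact ⟨Equiv.ofBijective f (Finite.injective_iff_bijective.mp hinj), fun v => hf v⟩

theorem dec1_cut {n d : ℕ} {H : Finset (Fin n × Fin n)} (h : Reg H (d + 1))
    (X Y : Finset (Fin n)) : X.card ≤ eb H X Y + Yᶜ.card := by
  have h1 := Reg.out X Y h
  have h2 := Reg.in X Yᶜ h
  have h3 : eb H X Yᶜ ≤ (d + 1) * Yᶜ.card := by omega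
  have h4 : (d + 1) * X.card ≤ eb H X Y + (d + 1) * Yᶜ.card := by omega
  rcases Nat.le_total X.card Yᶜ.card with h5 | h5
  · omega
  · obtain ⟨k, hk⟩ := Nat.exists_eq_add_of_le h5
    rw [hk] at h4 ⊢
    have h6 : (d + 1) * k ≤ eb H X Y := by
      rw [Nat.mul_add] at h4
      omega
    have h7 : k ≤ (d + 1) * k := Nat.le_mul_of_pos_left k (Nat.succ_pos d)
    omega

theorem tDec1 : S_Dec1 := by
  classical
  intro n d
  induction d with
  | zero =>
    intro H _
    exact ⟨fun j => j.elim0, fun j => j.elim0, fun j => j.elim0⟩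
  | succ d ih =>
    intro H hH
    obtain ⟨H₁, hsub, hH₁⟩ := tFac n H (fun _ => 1) (fun _ => 1) rfl (by
      intro X Y
      have := dec1_cut hH X Y
      simpa using this)
    obtain ⟨σ₀, hσ₀⟩ := dec1_perm H₁ hH₁
    have hreg : Reg (H \ H₁) d := by
      intro v
      have h1 := dec1_od_sdiff hsub v
      have h2 := dec1_idg_sdiff hsub v
      have h3 := hH v
      have h4 := hH₁ v
      constructor
      · omega
      · omega
    obtain ⟨σ, hσ1, hσ2⟩ := ih (H \ H₁) hreg
    have hne : ∀ j v, σ₀ v ≠ σ j v := by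
      intro j v h
      have h1 := (mem_sdiff.mp (hσ1 j v)).2
      rw [← h] at h1
      exact h1 (hσ₀ v)
    refine ⟨Fin.cons σ₀ σ, ?_, ?_⟩
    · intro j
      refine Fin.cases ?_ (fun j => ?_) j
      · intro v
        rw [Fin.cons_zero]
        exact hsub (hσ₀ v)
      · intro v
        rw [Fin.cons_succ]
        exact (mem_sdiff.mp (hσ1 j v)).1
    · intro j j'
      refine Fin.cases ?_ (fun j => ?_) j
      · refine Fin.cases ?_ (fun j' => ?_) j'
        · intro h
          exact absurd rfl h
        · intro _ v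
          rw [Fin.cons_zero, Fin.cons_succ]
          exact hne j' v
      · refine Fin.cases ?_ (fun j' => ?_) j'
        · intro _ v
          rw [Fin.cons_zero, Fin.cons_succ]
          exact (hne j v).symm
        · intro h v
          rw [Fin.cons_succ, Fin.cons_succ]
          exact hσ2 j j' (fun h' => h (congrArg Fin.succ h')) v

end Pool.Agent.MPd266dbH
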