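import Pool.Agent.Lib.MP_d266db_co.H.SpecF

/-!
# MP_d266db_co, H, Dis: discarding factors with many cross arcs
-/

set_option autoImplicit false

namespace Pool.Agent.MPd266dbH

open Finset Pool.Agent.MPd266db

theorem tDis : S_Dis := by
  classical
  intro n t0 K R o i σ γ g hn hg hR hdis hcrs
  have hn0 : (0 : ℝ) < n := by exact_mod_cast hn
  let F : Fin t0 → Finset (Fin n) := fun j => univ.filter (fun v => o v ≠ i (σ j v))
  let B : Finset (Fin t0) := univ.filter (fun j => g * n < ((F j).card : ℝ))
  have h1 : ∑ j ∈ B, (F j).card ≤ (crs o i R).card := by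
    rw [← Finset.card_sigma]
    apply Finset.card_le_card_of_injOn (fun x : (_ : Fin t0) × Fin n => (x.2, σ x.1 x.2))
    · rintro ⟨j, v⟩ hx
      have hx' := (Finset.mem_sigma.mp hx).2
      have hv := (Finset.mem_filter.mp hx').2
      exact Finset.mem_filter.mpr ⟨hR j v, hv⟩
    · rintro ⟨j, v⟩ _ ⟨j', v'⟩ _ h
      have h2 := (Prod.mk.injEq _ _ _ _).mp h
      obtain ⟨h3, h4⟩ := h2
      dsimp only at h3 h4
      subst h3
      by_cases h5 : j = j'
      · subst h5
        rfl
      · exact absurd h4 (hdis j j' h5 v)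
  have h2 : (B.card : ℝ) * (g * n) ≤ γ * (n : ℝ) ^ 2 := by
    have h3 : (B.card : ℝ) * (g * n) ≤ ∑ j ∈ B, ((F j).card : ℝ) := by
      rw [← nsmul_eq_mul, ← Finset.sum_const]
      exact Finset.sum_le_sum (fun j hj => (Finset.mem_filter.mp hj).2.le)
    have h4 : (∑ j ∈ B, ((F j).card : ℝ)) ≤ ((crs o i R).card : ℝ) := by exact_mod_cast h1
    exact h3.trans (h4.trans hcrs)
  have h3 : g * B.card ≤ γ * n := by
    have h4 : (g * B.card) * n ≤ (γ * n) * n := by
      calc (g * B.card) * n = (B.card : ℝ) * (g * n) := by ring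
        _ ≤ γ * (n : ℝ) ^ 2 := h2
        _ = (γ * n) * n := by ring
    exact le_of_mul_le_mul_right h4 hn0
  let C : Finset (Fin t0) := univ.filter (fun j => ¬ g * n < ((F j).card : ℝ))
  refine ⟨C.card, fun x => (C.equivFin.symm x).1, ?_, ?_, ?_⟩
  · intro x y hxy
    exact C.equivFin.symm.injective (Subtype.ext hxy)
  · have h4 : B.card + C.card = t0 := by
      have h5 := Finset.card_filter_add_card_filter_not (s := (univ : Finset (Fin t0)))
        (fun j => g * n < ((F j).card : ℝ))
      rw [Finset.card_univ, Fintype.card_fin] at h5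
      exact h5
    have h5 : (t0 : ℝ) = B.card + C.card := by exact_mod_cast h4.symm
    rw [h5]
    linarith
  · intro j
    have h4 := (Finset.mem_filter.mp (C.equivFin.symm j).2).2
    rw [not_lt] at h4
    exact h4

end Pool.Agent.MPd266dbH
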