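import Pool.Agent.Lib.MP_d266db_co.H.SpecR

/-!
# MP_d266db_co, H, ExpR: expansion of the reduced digraph
-/

set_option autoImplicit false

namespace Pool.Agent.MPd266dbH

open Finset Pool.Agent.MPd266db

/-- a disjoint union of sets with `s` elements -/
theorem expr_card {n k m s : ℕ} (T : Fin m → Finset (Fin n)) (f : Fin k → Fin m)
    (hf : Function.Injective f) (sT : ∀ p, (T p).card = s)
    (dT : ∀ p p', p ≠ p' → Disjoint (T p) (T p')) (B : Finset (Fin k)) :
    (B.biUnion (fun p => T (f p))).card = B.card * s := by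
  classical
  rw [card_biUnion]
  · simp [sT]
  · intro p _ p' _ hpp
    exact dT _ _ (fun h => hpp (hf h))

/-- all arcs with tail in `X ⊆ Cl o a` have their head in `Cl i a` -/
theorem expr_own {n K : ℕ} (S : Finset (Fin n × Fin n)) (o i : Fin n → Fin K)
    (hS : ∀ e ∈ S, o e.1 = i e.2) (a : Fin K) (X Y : Finset (Fin n)) (hX : X ⊆ Cl o a)
    (_ : Y ⊆ Cl i a) :
    eb S X Y + eb S X (Cl i a \ Y) = ∑ v ∈ X, od S v := by
  classical
  rw [← eb_compl_right (E := S) (X := X) (Y := Y)]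
  congr 1
  unfold eb
  congr 1
  ext e
  simp only [mem_filter, mem_sdiff, mem_compl]
  constructor
  · rintro ⟨h1, h2, h3, h4⟩
    exact ⟨h1, h2, h4⟩
  · rintro ⟨h1, h2, h3⟩
    refine ⟨h1, h2, ?_, h3⟩
    have := hX h2
    simp only [Cl, mem_filter, mem_univ, true_and] at this ⊢
    rw [← hS e h1, this]

/-- the arcs between unions -/
theorem expr_sum {n k mt mh : ℕ} (S : Finset (Fin n × Fin n)) (T : Fin mt → Finset (Fin n))
    (H : Fin mh → Finset (Fin n)) (f : Fin k → Fin mt) (g : Fin k → Fin mh)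
    (B B' : Finset (Fin k)) :
    eb S (B.biUnion (fun p => T (f p))) (B'.biUnion (fun p => H (g p))) ≤
      ∑ w ∈ B ×ˢ B', eb S (T (f w.1)) (H (g w.2)) := by
  classical
  unfold eb
  refine le_trans (card_le_card ?_) card_biUnion_le
  intro e he
  rw [mem_filter] at he
  obtain ⟨h1, h2, h3⟩ := he
  rw [mem_biUnion] at h2 h3
  obtain ⟨p, hp, hep⟩ := h2
  obtain ⟨q, hq, heq⟩ := h3
  rw [mem_biUnion]
  exact ⟨(p, q), mem_product.2 ⟨hp, hq⟩, mem_filter.2 ⟨h1, hep, heq⟩⟩

theorem tExpR (hNrS : S_NrS) : S_ExpR := by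
  classical
  intro n K kt kh s k S o i T H ct ch D β1 d τ θ ρ ν f g hC hS hn hs hτ hθ hθ1 hρ0 hρn hNr hRob
    hf hg hD hks h14 hν a B hB hBc hB'c
  set B' := Cl (fun p => ct (f p)) a \ B with hB'
  set X := B.biUnion (fun p => T (f p)) with hX
  set Y := B'.biUnion (fun p => H (g p)) with hY
  have hn0 : (0 : ℝ) < n := by exact_mod_cast hn
  have hs0 : (0 : ℝ) < s := by exact_mod_cast hs
  have hq : 7 * τ / θ ≤ 1 / 2 := by
    rw [div_le_iff₀ hθ]; linarith
  have hq0 : 0 ≤ 7 * τ / θ := by positivity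
  have hksn : (n : ℝ) / 2 ≤ k * s := by nlinarith
  -- k s <= n
  have hkT : (univ.biUnion (fun p : Fin k => T (f p))).card = k * s := by
    rw [expr_card T f hf hC.sT hC.dT]; simp
  have hkH : (univ.biUnion (fun p : Fin k => H (g p))).card = k * s := by
    rw [expr_card H g hg hC.sH hC.dH]; simp
  have hksn' : ((k : ℝ) * s) ≤ n := by
    have h1 : (univ.biUnion (fun p : Fin k => T (f p))).card ≤ n := by
      refine le_trans (card_le_univ _) ?_
      simp
    rw [hkT] at h1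
    exact_mod_cast h1
  have hXc : (X.card : ℝ) = B.card * s := by
    rw [hX, expr_card T f hf hC.sT hC.dT]; push_cast; ring
  have hYc : (Y.card : ℝ) = B'.card * s := by
    rw [hY, expr_card H g hg hC.sH hC.dH]; push_cast; ring
  have hcg : ∀ p, ch (g p) = ct (f p) := fun p => (hC.cls _ (hD p)).symm
  have hXs : X ⊆ Cl o a := by
    intro v hv
    rw [hX, mem_biUnion] at hv
    obtain ⟨p, hp, hvp⟩ := hv
    have h1 := hB hp
    simp only [Cl, mem_filter, mem_univ, true_and] at h1 ⊢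
    rw [hC.oT _ v hvp, h1]
  have hYs : Y ⊆ Cl i a := by
    intro w hw
    rw [hY, mem_biUnion] at hw
    obtain ⟨p, hp, hwp⟩ := hw
    rw [hB', mem_sdiff] at hp
    have h1 := hp.1
    simp only [Cl, mem_filter, mem_univ, true_and] at h1 ⊢
    rw [hC.iH _ w hwp, hcg, h1]
  -- robustness
  have hR := hRob a X Y hXs hYs (by
      have h1 : θ / 32 * n ≤ X.card := by
        rw [hXc]
        have : θ / 16 * k * s ≤ B.card * s := mul_le_mul_of_nonneg_right hBc hs0.le
        nlinarith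
      have h2 : (0 : ℝ) ≤ ((Cl i a \ Y).card : ℝ) := by positivity
      linarith) (by
      have h1 : θ / 32 * n ≤ Y.card := by
        rw [hYc]
        have : θ / 16 * k * s ≤ B'.card * s := mul_le_mul_of_nonneg_right hB'c hs0.le
        nlinarith
      have h2 : (0 : ℝ) ≤ ((Cl o a \ X).card : ℝ) := by positivity
      linarith)
  -- degrees
  have hN := hNrS n S ρ τ hρ0 hρn hτ.le hNr
  have e1 : (eb S X Y : ℝ) + eb S X (Cl i a \ Y) = ∑ v ∈ X, (od S v : ℝ) := by
    exact_mod_cast expr_own S o i hS a X Y hXs hYs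
  have e2 : (eb S (Cl o a \ X) (Cl i a \ Y) : ℝ) + eb S X (Cl i a \ Y) ≤
      ∑ v ∈ Cl i a \ Y, (idg S v : ℝ) := by
    have h1 : eb S (Cl o a \ X) (Cl i a \ Y) + eb S X (Cl i a \ Y) ≤ ∑ v ∈ Cl i a \ Y, idg S v := by
      rw [← eb_union_left (E := S) (h := sdiff_disjoint), ← eb_univ_left]
      exact eb_mono (Subset.refl _) (subset_univ _) (Subset.refl _)
    exact_mod_cast h1
  have hN1 := (abs_le.1 (hN X).1).1
  have hN2 := (abs_le.1 (hN (Cl i a \ Y)).2).2
  -- the rest of the heads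
  have hrest : ((Cl i a \ Y).card : ℝ) ≤ X.card + (n - k * s) := by
    have h1 : Cl i a \ Y ⊆ B.biUnion (fun p => H (g p)) ∪
        (univ \ univ.biUnion (fun p : Fin k => H (g p))) := by
      intro w hw
      rw [mem_sdiff] at hw
      rw [mem_union]
      by_cases hwe : w ∈ univ.biUnion (fun p : Fin k => H (g p))
      · left
        rw [mem_biUnion] at hwe ⊢
        obtain ⟨p, -, hwp⟩ := hwe
        refine ⟨p, ?_, hwp⟩
        by_contra hpB
        apply hw.2
        rw [hY, mem_biUnion]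
        refine ⟨p, ?_, hwp⟩
        rw [hB', mem_sdiff]
        refine ⟨?_, hpB⟩
        have h2 := hw.1
        simp only [Cl, mem_filter, mem_univ, true_and] at h2 ⊢
        rw [← h2, hC.iH _ w hwp, hcg]
      · right
        rw [mem_sdiff]
        exact ⟨mem_univ _, hwe⟩
    have h2 := (card_le_card h1).trans (card_union_le _ _)
    rw [expr_card H g hg hC.sH hC.dH, card_sdiff_of_subset (subset_univ _), hkH, card_univ,
      Fintype.card_fin] at h2
    have h3 : k * s ≤ n := by exact_mod_cast hksn'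
    have h4 : ((Cl i a \ Y).card : ℝ) ≤ (B.card * s + (n - k * s : ℕ) : ℕ) := by exact_mod_cast h2
    rw [Nat.cast_add, Nat.cast_sub h3] at h4
    rw [hXc]
    push_cast at h4
    linarith
  have hrest' : ((Cl i a \ Y).card : ℝ) ≤ X.card + 7 * τ / θ * n := by linarith
  have hXY : ν / 3 * (n : ℝ) ^ 2 ≤ eb S X Y := by
    have h1 : ρ * ((Cl i a \ Y).card : ℝ) ≤ ρ * X.card + 7 * τ / θ * (n : ℝ) ^ 2 := by
      have h2 : ρ * ((Cl i a \ Y).card : ℝ) ≤ ρ * (X.card + 7 * τ / θ * n) :=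
        mul_le_mul_of_nonneg_left hrest' hρ0
      have h3 : ρ * (7 * τ / θ * n) ≤ n * (7 * τ / θ * n) :=
        mul_le_mul_of_nonneg_right hρn (by positivity)
      nlinarith
    have h4 : (7 * τ / θ + 4 * τ) * (n : ℝ) ^ 2 ≤ ν / 3 * (n : ℝ) ^ 2 :=
      mul_le_mul_of_nonneg_right hν (by positivity)
    nlinarith
  -- the set W
  refine ⟨(B ×ˢ B').filter (fun w => (f w.1, g w.2) ∈ D), filter_subset _ _,
    fun w hw => (mem_filter.1 hw).2, ?_⟩
  set W := (B ×ˢ B').filter (fun w => (f w.1, g w.2) ∈ D) with hW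
  have h5 : (eb S X Y : ℝ) ≤ ∑ w ∈ B ×ˢ B', (eb S (T (f w.1)) (H (g w.2)) : ℝ) := by
    exact_mod_cast expr_sum S T H f g B B'
  rw [← sum_filter_add_sum_filter_not (B ×ˢ B') (fun w => (f w.1, g w.2) ∈ D)] at h5
  have h6 : ∑ w ∈ (B ×ˢ B').filter (fun w => (f w.1, g w.2) ∈ D),
      (eb S (T (f w.1)) (H (g w.2)) : ℝ) ≤ W.card * (s : ℝ) ^ 2 := by
    rw [← hW, ← nsmul_eq_mul]
    refine sum_le_card_nsmul _ _ _ (fun w _ => ?_)
    have h7 : eb S (T (f w.1)) (H (g w.2)) ≤ s * s := by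
      have := eb_le_card_mul (E := S) (X := T (f w.1)) (Y := H (g w.2))
      rwa [hC.sT, hC.sH] at this
    have h8 : (eb S (T (f w.1)) (H (g w.2)) : ℝ) ≤ (s * s : ℕ) := by exact_mod_cast h7
    rw [Nat.cast_mul] at h8
    nlinarith
  have h9 : ∑ w ∈ (B ×ˢ B').filter (fun w => ¬ (f w.1, g w.2) ∈ D),
      (eb S (T (f w.1)) (H (g w.2)) : ℝ) ≤ τ * (n : ℝ) ^ 2 := by
    refine le_trans ?_ hC.rest
    have hinj : Set.InjOn (fun w : Fin k × Fin k => (f w.1, g w.2))
        ((B ×ˢ B').filter (fun w => ¬ (f w.1, g w.2) ∈ D)) := by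
      intro w _ w' _ hww
      simp only [Prod.mk.injEq] at hww
      exact Prod.ext (hf hww.1) (hg hww.2)
    have h10 := sum_image (f := fun e : Fin kt × Fin kh => (eb S (T e.1) (H e.2) : ℝ)) hinj
    rw [← h10]
    refine sum_le_sum_of_subset_of_nonneg ?_ (fun _ _ _ => by positivity)
    intro e he
    rw [mem_image] at he
    obtain ⟨w, hw, rfl⟩ := he
    rw [mem_compl]
    exact (mem_filter.1 hw).2
  have h11 : τ ≤ ν / 12 := by linarith
  have hν0 : 0 ≤ ν := by linarith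
  have h12 : ν / 4 * (n : ℝ) ^ 2 ≤ W.card * (s : ℝ) ^ 2 := by
    have : τ * (n : ℝ) ^ 2 ≤ ν / 12 * (n : ℝ) ^ 2 := mul_le_mul_of_nonneg_right h11 (by positivity)
    nlinarith
  have h13 : ((k : ℝ) * s) ^ 2 ≤ (n : ℝ) ^ 2 := by
    apply pow_le_pow_left₀ (by positivity) hksn'
  have h14' : ν / 4 * (k : ℝ) ^ 2 * (s : ℝ) ^ 2 ≤ W.card * (s : ℝ) ^ 2 := by
    have : ν / 4 * ((k : ℝ) * s) ^ 2 ≤ ν / 4 * (n : ℝ) ^ 2 :=
      mul_le_mul_of_nonneg_left h13 (by positivity)
    nlinarith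
  exact le_of_mul_le_mul_right h14' (by positivity)

end Pool.Agent.MPd266dbH
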