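import Pool.Agent.Lib.MP_d266db_co.H.SpecR

/-!
# MP_d266db_co, H, Ext: extension to a permutation which respects the classes
-/

set_option autoImplicit false

namespace Pool.Agent.MPd266dbH

open Finset Pool.Agent.MPd266db

theorem ext_inj {n : ℕ} (A B : Finset (Fin n)) (h : A.card = B.card) :
    ∃ f : Fin n → Fin n, (∀ v ∈ A, f v ∈ B) ∧ ∀ v ∈ A, ∀ w ∈ A, f v = f w → v = w := by
  classical
  let e : A ≃ B := Finset.equivOfCardEq h
  refine ⟨fun v => if hv : v ∈ A then (e ⟨v, hv⟩ : Fin n) else v, ?_, ?_⟩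
  · intro v hv
    show (if hv : v ∈ A then (e ⟨v, hv⟩ : Fin n) else v) ∈ B
    rw [dif_pos hv]
    exact (e ⟨v, hv⟩).2
  · intro v hv w hw hvw
    have h1 : (if hv : v ∈ A then (e ⟨v, hv⟩ : Fin n) else v) =
        if hw : w ∈ A then (e ⟨w, hw⟩ : Fin n) else w := hvw
    rw [dif_pos hv, dif_pos hw] at h1
    have h2 := e.injective (Subtype.ext h1)
    exact congrArg Subtype.val h2

theorem tExt : S_Ext := by
  classical
  intro n K o i σ U Z φ hU hZU hφ hinj
  have hcard : ∀ a : Fin K, ((U \ Z).filter (fun v => o v = a)).card =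
      ((U.image σ \ Z.image φ).filter (fun w => i w = a)).card := by
    intro a
    have h1 : (U \ Z).filter (fun v => o v = a) =
        U.filter (fun v => o v = a) \ Z.filter (fun v => o v = a) := by
      ext v
      simp only [mem_filter, mem_sdiff]
      tauto
    have h2 : (U.image σ \ Z.image φ).filter (fun w => i w = a) =
        (U.image σ).filter (fun w => i w = a) \ (Z.image φ).filter (fun w => i w = a) := by
      ext v
      simp only [mem_filter, mem_sdiff]
      tauto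
    have hs1 : Z.filter (fun v => o v = a) ⊆ U.filter (fun v => o v = a) := by
      intro v hv
      rw [mem_filter] at hv ⊢
      exact ⟨hZU hv.1, hv.2⟩
    have hs2 : (Z.image φ).filter (fun w => i w = a) ⊆ (U.image σ).filter (fun w => i w = a) := by
      intro w hw
      rw [mem_filter, mem_image] at hw
      obtain ⟨⟨v, hv, rfl⟩, h3⟩ := hw
      rw [mem_filter]
      exact ⟨(hφ v hv).1, h3⟩
    have h3 : (U.image σ).filter (fun w => i w = a) = (U.filter (fun v => o v = a)).image σ := by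
      ext w
      simp only [mem_filter, mem_image]
      constructor
      · rintro ⟨⟨v, hv, rfl⟩, h4⟩
        exact ⟨v, ⟨hv, (hU v hv).trans h4⟩, rfl⟩
      · rintro ⟨v, ⟨hv, h4⟩, rfl⟩
        exact ⟨⟨v, hv, rfl⟩, (hU v hv).symm.trans h4⟩
    have h4 : (Z.image φ).filter (fun w => i w = a) = (Z.filter (fun v => o v = a)).image φ := by
      ext w
      simp only [mem_filter, mem_image]
      constructor
      · rintro ⟨⟨v, hv, rfl⟩, h4⟩
        exact ⟨v, ⟨hv, (hφ v hv).2.symm.trans h4⟩, rfl⟩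
      · rintro ⟨v, ⟨hv, h4⟩, rfl⟩
        exact ⟨⟨v, hv, rfl⟩, (hφ v hv).2.trans h4⟩
    rw [h1, h2, card_sdiff_of_subset hs1, card_sdiff_of_subset hs2, h3, h4,
      card_image_of_injective _ σ.injective, card_image_of_injOn]
    intro v hv w hw hvw
    exact hinj (mem_filter.mp hv).1 (mem_filter.mp hw).1 hvw
  have hψ : ∀ a : Fin K, ∃ f : Fin n → Fin n,
      (∀ v ∈ (U \ Z).filter (fun v => o v = a), f v ∈
        (U.image σ \ Z.image φ).filter (fun w => i w = a)) ∧
      ∀ v ∈ (U \ Z).filter (fun v => o v = a), ∀ w ∈ (U \ Z).filter (fun v => o v = a),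
        f v = f w → v = w := fun a => ext_inj _ _ (hcard a)
  choose ψ hψ1 hψ2 using hψ
  let ρf : Fin n → Fin n := fun v => if v ∈ Z then φ v else if v ∈ U then ψ (o v) v else σ v
  have hf1 : ∀ v ∈ Z, ρf v = φ v := fun v hv => if_pos hv
  have hf2 : ∀ v, v ∉ Z → v ∈ U → ρf v = ψ (o v) v := fun v hv hvU => by
    show (if v ∈ Z then φ v else if v ∈ U then ψ (o v) v else σ v) = _
    rw [if_neg hv, if_pos hvU]
  have hf3 : ∀ v, v ∉ U → ρf v = σ v := fun v hv => by
    show (if v ∈ Z then φ v else if v ∈ U then ψ (o v) v else σ v) = _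
    rw [if_neg (fun h => hv (hZU h)), if_neg hv]
  have hg2 : ∀ v, v ∉ Z → v ∈ U → ρf v ∈ U.image σ ∧ ρf v ∉ Z.image φ ∧ i (ρf v) = o v := by
    intro v hv hvU
    rw [hf2 v hv hvU]
    have h1 := hψ1 (o v) v (mem_filter.mpr ⟨mem_sdiff.mpr ⟨hvU, hv⟩, rfl⟩)
    rw [mem_filter, mem_sdiff] at h1
    exact ⟨h1.1.1, h1.1.2, h1.2⟩
  have hgU : ∀ v ∈ U, ρf v ∈ U.image σ ∧ o v = i (ρf v) := by
    intro v hv
    by_cases hvZ : v ∈ Z
    · rw [hf1 v hvZ]
      exact ⟨(hφ v hvZ).1, (hφ v hvZ).2.symm⟩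
    · exact ⟨(hg2 v hvZ hv).1, (hg2 v hvZ hv).2.2.symm⟩
  have hg3 : ∀ v, v ∉ U → ρf v ∉ U.image σ := by
    intro v hv h
    rw [hf3 v hv, mem_image] at h
    obtain ⟨w, hw, hwv⟩ := h
    exact hv (σ.injective hwv ▸ hw)
  have hinj' : Function.Injective ρf := by
    intro v w hvw
    by_cases hvU : v ∈ U
    · by_cases hwU : w ∈ U
      · by_cases hvZ : v ∈ Z
        · by_cases hwZ : w ∈ Z
          · rw [hf1 v hvZ, hf1 w hwZ] at hvw
            exact hinj hvZ hwZ hvw
          · exfalso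
            apply (hg2 w hwZ hwU).2.1
            rw [← hvw, hf1 v hvZ]
            exact mem_image_of_mem _ hvZ
        · by_cases hwZ : w ∈ Z
          · exfalso
            apply (hg2 v hvZ hvU).2.1
            rw [hvw, hf1 w hwZ]
            exact mem_image_of_mem _ hwZ
          · have h1 : o v = o w := by
              rw [← (hg2 v hvZ hvU).2.2, hvw, (hg2 w hwZ hwU).2.2]
            rw [hf2 v hvZ hvU, hf2 w hwZ hwU, h1] at hvw
            exact hψ2 (o w) v (mem_filter.mpr ⟨mem_sdiff.mpr ⟨hvU, hvZ⟩, h1⟩) w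
              (mem_filter.mpr ⟨mem_sdiff.mpr ⟨hwU, hwZ⟩, rfl⟩) hvw
      · exact absurd (hvw ▸ (hgU v hvU).1) (hg3 w hwU)
    · by_cases hwU : w ∈ U
      · exact absurd (hvw.symm ▸ (hgU w hwU).1) (hg3 v hvU)
      · rw [hf3 v hvU, hf3 w hwU] at hvw
        exact σ.injective hvw
  exact ⟨Equiv.ofBijective ρf (Finite.injective_iff_bijective.mp hinj'), hf1, hf3, hgU⟩

end Pool.Agent.MPd266dbH
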