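import Pool.Agent.Lib.MP_d266db_co.H.SpecF

/-!
# MP_d266db_co, H, Fct: factors of the parts
-/

set_option autoImplicit false

namespace Pool.Agent.MPd266dbH

open Finset Pool.Agent.MPd266db

theorem tFct (hRgx : S_Rgx) (hDec1 : S_Dec1) : S_Fct := by
  intro n d M T P hdis hP
  have h1 : ∀ m s, ∃ H ⊆ P m s, Reg H d := fun m s => hRgx n d (P m s) (hP m s)
  choose H hHP hHR using h1
  have h2 : ∀ m s, ∃ σ : Fin d → Equiv.Perm (Fin n), (∀ j v, (v, σ j v) ∈ H m s) ∧
      ∀ j j', j ≠ j' → ∀ v, σ j v ≠ σ j' v := fun m s => hDec1 n d (H m s) (hHR m s)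
  choose τ hτH hτd using h2
  refine ⟨fun j => τ (finProdFinEquiv.symm (finProdFinEquiv.symm j).1).1
    (finProdFinEquiv.symm (finProdFinEquiv.symm j).1).2 (finProdFinEquiv.symm j).2, ?_, ?_⟩
  · intro j
    exact ⟨_, _, fun v => hHP _ _ (hτH _ _ _ v)⟩
  · intro j j' hjj v hv
    obtain ⟨⟨a, b⟩, rfl⟩ := finProdFinEquiv.surjective j
    obtain ⟨⟨a', b'⟩, rfl⟩ := finProdFinEquiv.surjective j'
    obtain ⟨⟨m, s⟩, rfl⟩ := finProdFinEquiv.surjective a
    obtain ⟨⟨m', s'⟩, rfl⟩ := finProdFinEquiv.surjective a'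
    simp only [Equiv.symm_apply_apply] at hv
    by_cases h3 : (m, s) = (m', s')
    · rw [Prod.mk.injEq] at h3
      obtain ⟨rfl, rfl⟩ := h3
      have h4 : b ≠ b' := by
        rintro rfl
        exact hjj rfl
      exact hτd m s b b' h4 v hv
    · have h4 := hHP _ _ (hτH m s b v)
      have h5 := hHP _ _ (hτH m' s' b' v)
      rw [← hv] at h5
      exact Finset.disjoint_left.mp (hdis m s m' s' h3) h4 h5

end Pool.Agent.MPd266dbH
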