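import Pool.Agent.Lib.MP_d266db_co.H.SpecM

/-!
# MP_d266db_co, H: removing a virtual arc (helper18)
-/

set_option autoImplicit false

namespace Pool.Agent.MPd266dbH

open Finset Pool.Agent.MPd266db

/-- disjoint subsets of given size which avoid a vertex -/
theorem fix_dis {n : ℕ} (u : Fin n) (D : ℕ → Finset (Fin n)) (q M : ℕ) :
    ∀ t, (∀ j < t, t * q + 1 ≤ M → M ≤ (D j).card) → t * q + 1 ≤ M →
      ∃ Λ : ℕ → Finset (Fin n), (∀ j < t, Λ j ⊆ D j ∧ u ∉ Λ j ∧ (Λ j).card = q) ∧
        ∀ j < t, ∀ j' < t, j ≠ j' → Disjoint (Λ j) (Λ j') := by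
  classical
  intro t
  induction t with
  | zero =>
    intro _ _
    exact ⟨fun _ => ∅, fun j hj => absurd hj (Nat.not_lt_zero j),
      fun j hj => absurd hj (Nat.not_lt_zero j)⟩
  | succ t ih =>
    intro hD hM
    have hM' : t * q + 1 ≤ M := by
      have : (t + 1) * q = t * q + q := by ring
      omega
    obtain ⟨Λ, h1, h2⟩ := ih (fun j hj _ => hD j (by omega) hM) hM'
    have hcu : (insert u ((range t).biUnion Λ)).card ≤ t * q + 1 := by
      refine (card_insert_le _ _).trans ?_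
      have h3 : ((range t).biUnion Λ).card ≤ (range t).card * q :=
        card_biUnion_le_card_mul _ _ _ (fun j hj => (h1 j (mem_range.1 hj)).2.2.le)
      rw [card_range] at h3
      omega
    have h4 : q ≤ (D t \ insert u ((range t).biUnion Λ)).card := by
      have h5 := le_card_sdiff (insert u ((range t).biUnion Λ)) (D t)
      have h6 := hD t (by omega) hM
      have : (t + 1) * q = t * q + q := by ring
      omega
    obtain ⟨T, hT, hTc⟩ := exists_subset_card_eq h4
    have hTu : u ∉ T := fun h => (mem_sdiff.1 (hT h)).2 (mem_insert_self _ _)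
    have hTd : ∀ j < t, Disjoint (Λ j) T := by
      intro j hj
      rw [Finset.disjoint_left]
      intro v hv hvT
      exact (mem_sdiff.1 (hT hvT)).2
        (mem_insert_of_mem (mem_biUnion.2 ⟨j, mem_range.2 hj, hv⟩))
    refine ⟨fun j => if j = t then T else Λ j, ?_, ?_⟩
    · intro j hj
      by_cases hjt : j = t
      · subst hjt
        beta_reduce
        rw [if_pos rfl]
        exact ⟨fun v hv => (mem_sdiff.1 (hT hv)).1, hTu, hTc⟩
      · beta_reduce
        rw [if_neg hjt]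
        exact h1 j (by omega)
    · intro j hj j' hj' hne
      beta_reduce
      by_cases hjt : j = t
      · rw [if_pos hjt, if_neg (fun h => hne (hjt.trans h.symm))]
        exact (hTd j' (by omega)).symm
      · rw [if_neg hjt]
        by_cases hjt' : j' = t
        · rw [if_pos hjt']
          exact hTd j (by omega)
        · rw [if_neg hjt']
          exact h2 j (by omega) j' (by omega) hne

theorem tFix (hSat : S_Sat) (hLay : S_Lay) (hSw : S_Sw) : S_Fix := by
  classical
  intro n K k S o i cl X Y Γ h x y ℓ d c ν H hd hν hνc hRP hk hh hy hyx ρ Q hst hQ u hu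
  have hL : 48 * ((ℓ + 1) * h) + 8 * (ℓ + 1) ≤ y := by
    have : 4 * (ℓ + 1) * (12 * h + 2) = 48 * ((ℓ + 1) * h) + 8 * (ℓ + 1) := by ring
    omega
  have hy1 : 1 ≤ y := by omega
  obtain ⟨N, hN, hOut, hIn, hExp⟩ := hSat n K k S o i cl X Y Γ h x y d c ν H hν hνc hy1 ρ Q hst hQ
  obtain ⟨P, hPA, hPc, hP⟩ := hOut u
  obtain ⟨P', hPA', hPc', hP'⟩ := hIn (ρ u)
  rw [← hu] at hPA'
  have hck : 0 < c * k := by
    have h1 : (0 : ℝ) < c := lt_of_lt_of_le hν hνc
    have h2 : (0 : ℝ) < k := by exact_mod_cast hk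
    positivity
  have hPne : P.Nonempty := by
    rw [← card_pos]
    have h1 : (0 : ℝ) < P.card := lt_of_lt_of_le hck hPc
    exact_mod_cast h1
  obtain ⟨m, w, hm1, hmℓ, hw0, hwm, hwA, hwΓ⟩ := hRP k Γ c (Cl cl (o u) \ N) P P'
    (fun p _ => H.loop p) (fun B hB h1 h2 => hExp (o u) B hB h1 h2) hPA hPA' hPne hPc hPc'
  -- the layers
  obtain ⟨D, hDdef⟩ : ∃ D : ℕ → Finset (Fin n), D = fun j =>
    if j = 0 then (X (w 0) \ Q).filter (fun v => (u, ρ v) ∈ S)
    else if j = m then (X (w m) \ Q).filter (fun v => (v, ρ u) ∈ S)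
    else X (w j) \ Q := ⟨_, rfl⟩
  have hD0 : D 0 = (X (w 0) \ Q).filter (fun v => (u, ρ v) ∈ S) := by
    rw [hDdef]
    beta_reduce
    rw [if_pos rfl]
  have hDm : D m = (X (w m) \ Q).filter (fun v => (v, ρ u) ∈ S) := by
    rw [hDdef]
    beta_reduce
    rw [if_neg (by omega), if_pos rfl]
  have hDmid : ∀ j, j ≠ 0 → j ≠ m → D j = X (w j) \ Q := by
    intro j h0 h1
    rw [hDdef]
    beta_reduce
    rw [if_neg h0, if_neg h1]
  have hDX : ∀ j, D j ⊆ X (w j) \ Q := by
    intro j
    by_cases h0 : j = 0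
    · rw [h0, hD0]; exact filter_subset _ _
    · by_cases h1 : j = m
      · rw [h1, hDm]; exact filter_subset _ _
      · rw [hDmid j h0 h1]
  have hDc : ∀ j ≤ m, 3 * y ≤ 4 * (D j).card := by
    intro j hj
    by_cases h0 : j = 0
    · rw [h0, hD0]
      exact hP _ hw0
    · by_cases h1 : j = m
      · rw [h1, hDm]
        exact hP' _ hwm
      · rw [hDmid j h0 h1]
        have h2 : w j ∉ N := (mem_sdiff.1 (hwA j hj)).2
        have h3 := (hN (w j)).1 h2
        have h4 := (H.sz (w j)).2.1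
        have h5 := card_sdiff_add_card_inter (X (w j)) Q
        omega
  have hmq : (m + 1) * (2 * h) + 1 ≤ (ℓ + 1) * (2 * h) + 1 := by
    have := Nat.mul_le_mul_right (2 * h) (show m + 1 ≤ ℓ + 1 by omega)
    omega
  have hqL : (ℓ + 1) * (2 * h) = 2 * ((ℓ + 1) * h) := by ring
  obtain ⟨Λ, hΛ, hΛd⟩ := fix_dis u D (2 * h) ((ℓ + 1) * (2 * h) + 1) (m + 1)
    (fun j hj _ => by
      have := hDc j (by omega)
      omega) hmq
  obtain ⟨xx, hxx, hxR⟩ := hLay n m h Λ (fun _ v z => (v, ρ z) ∈ S) hh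
    (fun j hj => ((hΛ j (by omega)).2.2).ge) (by
      intro j hj A B hA hB hAc hBc
      have h1 : A ⊆ X (w j) := fun v hv =>
        (mem_sdiff.1 (hDX j ((hΛ j (by omega)).1 (hA hv)))).1
      have h2 : B.image ρ ⊆ Y (w (j + 1)) := by
        intro z hz
        obtain ⟨v, hv, rfl⟩ := mem_image.1 hz
        have h3 := mem_sdiff.1 (hDX (j + 1) ((hΛ (j + 1) (by omega)).1 (hB hv)))
        exact hst _ v h3.1 h3.2
      have h3 : (B.image ρ).card = B.card := card_image_of_injective _ ρ.injective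
      have h4 := H.dens (w j) (w (j + 1)) (hwΓ j hj) A (B.image ρ) h1 h2 hAc (by omega)
      have h5 : 0 < d * A.card * (B.image ρ).card := by
        have h6 : (0 : ℝ) < A.card := Nat.cast_pos.2 (by omega)
        have h7 : (0 : ℝ) < (B.image ρ).card := Nat.cast_pos.2 (by omega)
        exact mul_pos (mul_pos hd h6) h7
      have h6 : (0 : ℝ) < eb S A (B.image ρ) := lt_of_lt_of_le h5 h4
      have h7 : 0 < eb S A (B.image ρ) := by exact_mod_cast h6
      unfold eb at h7
      rw [card_pos] at h7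
      obtain ⟨e, he⟩ := h7
      rw [mem_filter] at he
      obtain ⟨he, heA, heB⟩ := he
      obtain ⟨v, hv, hve⟩ := mem_image.1 heB
      refine ⟨e.1, heA, v, hv, ?_⟩
      show (e.1, ρ v) ∈ S
      rw [hve]
      exact he)
  -- the closed walk
  obtain ⟨z, hz0, hzs⟩ : ∃ z : ℕ → Fin n, z 0 = u ∧ ∀ j, z (j + 1) = xx j :=
    ⟨fun j => if j = 0 then u else xx (j - 1), rfl, fun j => by
      beta_reduce
      rw [if_neg (by omega), Nat.add_sub_cancel]⟩
  have hxΛ : ∀ j ≤ m, xx j ∈ Λ j := hxx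
  have hxu : ∀ j ≤ m, u ≠ xx j := fun j hj he => (hΛ j (by omega)).2.1 (he ▸ hxΛ j hj)
  have hxd : ∀ j ≤ m, ∀ j' ≤ m, j ≠ j' → xx j ≠ xx j' := fun j hj j' hj' hne he =>
    Finset.disjoint_left.1 (hΛd j (by omega) j' (by omega) hne) (hxΛ j hj) (he ▸ hxΛ j' hj')
  have hxX : ∀ j ≤ m, xx j ∈ X (w j) ∧ xx j ∉ Q := fun j hj =>
    mem_sdiff.1 (hDX j ((hΛ j (by omega)).1 (hxΛ j hj)))
  obtain ⟨ρ', hρ1, hρ2, hρ3⟩ := hSw n ρ (m + 1) z (by
    intro a ha b hb hab
    rcases a with _ | a
    · rcases b with _ | b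
      · exact absurd rfl hab
      · rw [hz0, hzs]
        exact hxu b (by omega)
    · rcases b with _ | b
      · rw [hz0, hzs]
        exact (hxu a (by omega)).symm
      · rw [hzs, hzs]
        exact hxd a (by omega) b (by omega) (by omega))
  refine ⟨ρ', (range (m + 2)).image z, ?_, ?_, ?_, ?_, ?_⟩
  · exact mem_image.2 ⟨0, mem_range.2 (by omega), hz0⟩
  · refine card_image_le.trans ?_
    rw [card_range]
    omega
  · intro v hv
    obtain ⟨a, ha, rfl⟩ := mem_image.1 hv
    rw [mem_range] at ha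
    by_cases ham : a = m + 1
    · subst ham
      rw [hρ2, hz0, hzs]
      have h1 := (hΛ m (by omega)).1 (hxΛ m le_rfl)
      rw [hDm, mem_filter] at h1
      exact h1.2
    · rw [hρ1 a (by omega), hzs]
      rcases a with _ | a
      · rw [hz0]
        have h1 := (hΛ 0 (by omega)).1 (hxΛ 0 (by omega))
        rw [hD0, mem_filter] at h1
        exact h1.2
      · rw [hzs]
        exact hxR a (by omega)
  · intro v hv
    refine hρ3 v (fun a ha he => hv ?_)
    exact mem_image.2 ⟨a, mem_range.2 (by omega), he.symm⟩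
  · intro v hv
    obtain ⟨a, ha, rfl⟩ := mem_image.1 hv
    rw [mem_range] at ha
    rcases a with _ | a
    · rw [hz0]
      exact hu
    · rw [hzs]
      obtain ⟨h1, h2⟩ := hxX a (by omega)
      rw [H.oX _ _ h1, H.iY _ _ (hst _ _ h1 h2)]

end Pool.Agent.MPd266dbH
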