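import Pool.Agent.Lib.MP_d266db_co.H.SpecP

/-!
# MP_d266db_co, H: a reducing closed walk of length four
-/

set_option autoImplicit false

namespace Pool.Agent.MPd266dbH

open Finset Pool.Agent.MPd266db

theorem tFour (hMer : S_Mer) (hInsB : S_InsB) (hChn : S_Chn) : S_Four := by
  intro n ρ S u a b v huv hab hua hub hva hvb hc h1 h2 h3 h4
  have huv' : u ≠ v := fun h => huv (h ▸ Equiv.Perm.SameCycle.refl _ _)
  obtain ⟨c1, c2⟩ := hMer n ρ u v huv
  have e1 : (ρ * Equiv.swap u v) u = ρ v := by rw [Equiv.Perm.mul_apply, Equiv.swap_apply_left]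
  have e2 : (ρ * Equiv.swap u v) v = ρ u := by rw [Equiv.Perm.mul_apply, Equiv.swap_apply_right]
  have e3 : ∀ x, x ≠ u → x ≠ v → (ρ * Equiv.swap u v) x = ρ x := by
    intro x hx hx'
    rw [Equiv.Perm.mul_apply, Equiv.swap_apply_of_ne_of_ne hx hx']
  -- it suffices to find a permutation with the right values
  suffices hs : ∃ ρ' : Equiv.Perm (Fin n), cyc ρ' ≤ cyc (ρ * Equiv.swap u v) ∧ ρ' u = ρ a ∧
      ρ' a = ρ b ∧ ρ' b = ρ v ∧ ∀ x, x ≠ u → x ≠ a → x ≠ b → ρ' x = (ρ * Equiv.swap u v) x by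
    obtain ⟨ρ', k1, k2, k3, k4, k5⟩ := hs
    refine ⟨ρ', by omega, ?_, ?_, ?_, ?_, ?_⟩
    · intro x x1 x2 x3 x4
      rw [k5 x x1 x2 x3, e3 x x1 x4]
    · rw [k2]; exact h1
    · rw [k3]; exact h2
    · rw [k4]; exact h3
    · rw [k5 v huv'.symm hva hvb, e2]; exact h4
  rcases hc with ⟨n1, n2, n3⟩ | ⟨m, hm, hs⟩
  · have hg : ¬ (ρ * Equiv.swap u v).SameCycle a b := by
      intro h
      rcases (c2 a b).1 h with h | ⟨h5, h6⟩
      · exact n1 h
      · rcases h5 with h5 | h5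
        · exact n2 h5
        · rcases h6 with h6 | h6
          · exact n3 h6
          · exact n1 (h5.symm.trans h6)
    refine ⟨ρ * Equiv.swap u v * Equiv.swap u b * Equiv.swap u a, hInsB n _ u a b hua hub hg,
      ?_, ?_, ?_, ?_⟩
    · rw [Equiv.Perm.mul_apply, Equiv.Perm.mul_apply, Equiv.swap_apply_left,
        Equiv.swap_apply_of_ne_of_ne hua.symm hab, e3 a hua.symm hva.symm]
    · rw [Equiv.Perm.mul_apply, Equiv.Perm.mul_apply, Equiv.swap_apply_right, Equiv.swap_apply_left,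
        e3 b hub.symm hvb.symm]
    · rw [Equiv.Perm.mul_apply, Equiv.Perm.mul_apply, Equiv.swap_apply_of_ne_of_ne hub.symm hab.symm,
        Equiv.swap_apply_right, e1]
    · intro x x1 x2 x3
      rw [Equiv.Perm.mul_apply, Equiv.Perm.mul_apply, Equiv.swap_apply_of_ne_of_ne x1 x2,
        Equiv.swap_apply_of_ne_of_ne x1 x3]
  · obtain ⟨ρ', k1, k2, k3, k4, k5⟩ := hChn n ρ (ρ * Equiv.swap u v) {u, v} u a b m
      (fun w hw => by
        simp only [mem_insert, mem_singleton, not_or] at hw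
        exact e3 w hw.1 hw.2)
      (by simp) hab hm (fun s hle => by
        simp only [mem_insert, mem_singleton, not_or]
        exact hs s hle)
    exact ⟨ρ', k1.le, k2, k3, k4.trans e1, k5⟩

end Pool.Agent.MPd266dbH
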