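import Pool.Agent.Lib.MP_d266db_co.H.SpecQ

/-! # MP_d266db_co, H: the groups of cross arcs -/

set_option autoImplicit false

namespace Pool.Agent.MPd266dbH

open Finset Pool.Agent.MPd266db

theorem grp_fib {n M : ℕ} {κ : Type} [DecidableEq κ] (A : Finset (Fin n × Fin n))
    (key : Fin n × Fin n → κ) (g : Fin n × Fin n → Option (Fin M)) (m : Fin M) (T : Finset κ) (r : ℝ)
    (h : ∀ x ∈ T, |r * ((A.filter (fun e => key e = x ∧ g e = some m)).card : ℝ) -
      (A.filter (fun e => key e = x)).card| ≤ r) :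
    |r * ((A.filter (fun e => key e ∈ T ∧ g e = some m)).card : ℝ) -
      (A.filter (fun e => key e ∈ T)).card| ≤ r * T.card := by
  have h1 : (A.filter (fun e => key e ∈ T ∧ g e = some m)).card =
      ∑ x ∈ T, (A.filter (fun e => key e = x ∧ g e = some m)).card := by
    rw [Finset.card_eq_sum_card_fiberwise (f := key) (t := T)]
    · apply sum_congr rfl
      intro x hx
      congr 1
      ext e
      simp only [mem_filter]
      constructor
      · rintro ⟨⟨h1, h2, h3⟩, h4⟩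
        exact ⟨h1, h4, h3⟩
      · rintro ⟨h1, h2, h3⟩
        exact ⟨⟨h1, h2 ▸ hx, h3⟩, h2⟩
    · intro e he
      have he' := mem_filter.1 (mem_coe.1 he)
      exact mem_coe.2 he'.2.1
  have h2 : (A.filter (fun e => key e ∈ T)).card = ∑ x ∈ T, (A.filter (fun e => key e = x)).card := by
    rw [Finset.card_eq_sum_card_fiberwise (f := key) (t := T)]
    · apply sum_congr rfl
      intro x hx
      congr 1
      ext e
      simp only [mem_filter]
      constructor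
      · rintro ⟨⟨h1, h2⟩, h4⟩
        exact ⟨h1, h4⟩
      · rintro ⟨h1, h2⟩
        exact ⟨⟨h1, h2 ▸ hx⟩, h2⟩
    · intro e he
      have he' := mem_filter.1 (mem_coe.1 he)
      exact mem_coe.2 he'.2
  rw [h1, h2]
  push_cast
  rw [mul_sum, ← sum_sub_distrib]
  calc |∑ x ∈ T, (r * ((A.filter (fun e => key e = x ∧ g e = some m)).card : ℝ) -
        (A.filter (fun e => key e = x)).card)| ≤ ∑ x ∈ T,
        |r * ((A.filter (fun e => key e = x ∧ g e = some m)).card : ℝ) -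
        (A.filter (fun e => key e = x)).card| := abs_sum_le_sum_abs _ _
    _ ≤ ∑ _x ∈ T, r := sum_le_sum h
    _ = r * T.card := by rw [sum_const, nsmul_eq_mul, mul_comm]

/-- the keys -/
abbrev GrpKey (n K M : ℕ) : Type :=
  (Fin n × Fin K × Fin M) ⊕ ((Fin n × Fin K × Fin M) ⊕ (Fin K × Fin K × Fin M × Fin M))

instance grp_dec (n K M : ℕ) : DecidableEq (GrpKey n K M) := instDecidableEqSum

/-- the key of an arc -/
def grp_key {n K M : ℕ} (V0 : Finset (Fin n)) (o i : Fin n → Fin K) (c : Fin n → Fin M)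
    (e : Fin n × Fin n) : GrpKey n K M :=
  if e.1 ∈ V0 ∧ e.2 ∉ V0 then .inl (e.1, i e.2, c e.2)
  else if e.1 ∉ V0 ∧ e.2 ∈ V0 then .inr (.inl (e.2, o e.1, c e.1))
  else .inr (.inr (o e.1, i e.2, c e.1, c e.2))

/-- the allowed groups for a key -/
def grp_G {n K M : ℕ} (b : Fin M → Fin M → Bool) : GrpKey n K M → Finset (Fin M)
  | .inl x => univ.filter (fun m => b m x.2.2 = true)
  | .inr (.inl x) => univ.filter (fun m => b m x.2.2 = false)
  | .inr (.inr x) => univ.filter (fun m => b m x.2.2.1 = false ∧ b m x.2.2.2 = true)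

/-- keys of type H+ -/
def grp_T1 {n K M : ℕ} (b : Fin M → Fin M → Bool) (S : Finset (Fin n)) (a : Fin K) (m : Fin M) :
    Finset (GrpKey n K M) :=
  (S ×ˢ univ.filter (fun p => b m p = true)).image (fun x => .inl (x.1, a, x.2))

/-- keys of type H- -/
def grp_T2 {n K M : ℕ} (b : Fin M → Fin M → Bool) (S : Finset (Fin n)) (a : Fin K) (m : Fin M) :
    Finset (GrpKey n K M) :=
  (S ×ˢ univ.filter (fun p => b m p = false)).image (fun x => .inr (.inl (x.1, a, x.2)))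

/-- keys of type L -/
def grp_T3 {n K M : ℕ} (b : Fin M → Fin M → Bool) (a a' : Fin K) (m : Fin M) :
    Finset (GrpKey n K M) :=
  (univ.filter (fun p => b m p = false) ×ˢ univ.filter (fun p => b m p = true)).image
    (fun x => .inr (.inr (a, a', x.1, x.2)))

section
variable {n K M : ℕ} (V0 : Finset (Fin n)) (o i : Fin n → Fin K) (c : Fin n → Fin M)
  (b : Fin M → Fin M → Bool)

theorem grp_mem1 (S : Finset (Fin n)) (a : Fin K) (m : Fin M) (e : Fin n × Fin n) :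
    grp_key V0 o i c e ∈ grp_T1 b S a m ↔
      e.1 ∈ V0 ∧ e.2 ∉ V0 ∧ e.1 ∈ S ∧ i e.2 = a ∧ b m (c e.2) = true := by
  unfold grp_key grp_T1
  simp only [mem_image, mem_product, mem_filter, mem_univ, true_and, Prod.exists]
  by_cases h1 : e.1 ∈ V0 <;> by_cases h2 : e.2 ∈ V0
  · simp [h1, h2]
  · simp only [h1, h2, not_false_eq_true, and_self, if_true, Sum.inl.injEq, Prod.mk.injEq, true_and]
    constructor
    · rintro ⟨u, p, ⟨hu, hp⟩, rfl, rfl, rfl⟩
      exact ⟨hu, rfl, hp⟩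
    · rintro ⟨hu, rfl, hp⟩
      exact ⟨_, _, ⟨hu, hp⟩, rfl, rfl, rfl⟩
  · simp [h1, h2]
  · simp [h1, h2]

theorem grp_mem2 (S : Finset (Fin n)) (a : Fin K) (m : Fin M) (e : Fin n × Fin n) :
    grp_key V0 o i c e ∈ grp_T2 b S a m ↔
      e.1 ∉ V0 ∧ e.2 ∈ V0 ∧ e.2 ∈ S ∧ o e.1 = a ∧ b m (c e.1) = false := by
  unfold grp_key grp_T2
  simp only [mem_image, mem_product, mem_filter, mem_univ, true_and, Prod.exists]
  by_cases h1 : e.1 ∈ V0 <;> by_cases h2 : e.2 ∈ V0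
  · simp [h1, h2]
  · simp [h1, h2]
  · simp only [h1, h2, not_false_eq_true, and_self, if_true, if_false, Sum.inr.injEq, Sum.inl.injEq,
      Prod.mk.injEq, true_and, not_true_eq_false]
    constructor
    · rintro ⟨u, p, ⟨hu, hp⟩, rfl, rfl, rfl⟩
      exact ⟨hu, rfl, hp⟩
    · rintro ⟨hu, rfl, hp⟩
      exact ⟨_, _, ⟨hu, hp⟩, rfl, rfl, rfl⟩
  · simp [h1, h2]

theorem grp_mem3 (a a' : Fin K) (m : Fin M) (e : Fin n × Fin n) :
    grp_key V0 o i c e ∈ grp_T3 b a a' m ↔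
      (e.1 ∈ V0 ↔ e.2 ∈ V0) ∧ o e.1 = a ∧ i e.2 = a' ∧ b m (c e.1) = false ∧ b m (c e.2) = true := by
  unfold grp_key grp_T3
  simp only [mem_image, mem_product, mem_filter, mem_univ, true_and, Prod.exists]
  by_cases h1 : e.1 ∈ V0 <;> by_cases h2 : e.2 ∈ V0
  · simp only [h1, h2, not_true_eq_false, and_false, false_and, if_false, Sum.inr.injEq,
      Prod.mk.injEq, true_and]
    constructor
    · rintro ⟨u, p, ⟨hu, hp⟩, rfl, rfl, rfl, rfl⟩
      exact ⟨rfl, rfl, hu, hp⟩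
    · rintro ⟨rfl, rfl, hu, hp⟩
      exact ⟨_, _, ⟨hu, hp⟩, rfl, rfl, rfl, rfl⟩
  · simp [h1, h2]
  · simp [h1, h2]
  · simp only [h1, h2, and_false, false_and, if_false, Sum.inr.injEq,
      Prod.mk.injEq, true_and]
    constructor
    · rintro ⟨u, p, ⟨hu, hp⟩, rfl, rfl, rfl, rfl⟩
      exact ⟨rfl, rfl, hu, hp⟩
    · rintro ⟨rfl, rfl, hu, hp⟩
      exact ⟨_, _, ⟨hu, hp⟩, rfl, rfl, rfl, rfl⟩

theorem grp_card1 (S : Finset (Fin n)) (a : Fin K) (m : Fin M) :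
    ((grp_T1 b S a m).card : ℝ) ≤ S.card * M := by
  have h : (grp_T1 b S a m).card ≤ S.card * M := by
    refine card_image_le.trans ?_
    rw [card_product]
    exact Nat.mul_le_mul_left _ ((card_filter_le _ _).trans (by simp))
  exact_mod_cast h

theorem grp_card2 (S : Finset (Fin n)) (a : Fin K) (m : Fin M) :
    ((grp_T2 b S a m).card : ℝ) ≤ S.card * M := by
  have h : (grp_T2 b S a m).card ≤ S.card * M := by
    refine card_image_le.trans ?_
    rw [card_product]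
    exact Nat.mul_le_mul_left _ ((card_filter_le _ _).trans (by simp))
  exact_mod_cast h

theorem grp_card3 (a a' : Fin K) (m : Fin M) :
    ((grp_T3 (n := n) b a a' m).card : ℝ) ≤ M * M := by
  have h : (grp_T3 (n := n) b a a' m).card ≤ M * M := by
    refine card_image_le.trans ?_
    rw [card_product]
    exact Nat.mul_le_mul ((card_filter_le _ _).trans (by simp)) ((card_filter_le _ _).trans (by simp))
  exact_mod_cast h

end

/-! ## arithmetic -/

theorem grp_arL {q F s t e ε n : ℝ} (hq : 1 ≤ q) (he : 0 ≤ e) (h1 : |q * F - s| ≤ q * t)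
    (h2 : 2 * q * (2 * q - 1) / (4 * q - 1) ^ 2 * e - ε * (e + n) ≤ s) :
    (1 - 1 / (4 * q - 1)) * e - 4 * ε * (e + n) - 4 * q * t ≤ 4 * q * F := by
  have h3 := (abs_le.1 h1).1
  have h4 : (1 - 1 / (4 * q - 1)) ≤ 4 * (2 * q * (2 * q - 1) / (4 * q - 1) ^ 2) := by
    have hp : 0 < 4 * q - 1 := by linarith
    have : 4 * (2 * q * (2 * q - 1) / (4 * q - 1) ^ 2) - (1 - 1 / (4 * q - 1)) =
        (4 * q - 2) / (4 * q - 1) ^ 2 := by
      field_simp
      ring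
    have h5 : 0 ≤ (4 * q - 2) / (4 * q - 1) ^ 2 := by
      apply div_nonneg (by linarith) (by positivity)
    linarith
  have h6 := mul_le_mul_of_nonneg_right h4 he
  linarith

theorem grp_arP {q F s t e ε n : ℝ} (hq : 1 ≤ q) (he : 0 ≤ e) (h1 : |2 * q * F - s| ≤ 2 * q * t)
    (h2 : 2 * q / (4 * q - 1) * e - ε * (e + n) ≤ s) :
    e - 2 * ε * (e + n) - 4 * q * t ≤ 4 * q * F := by
  have h3 := (abs_le.1 h1).1
  have h4 : 1 ≤ 2 * (2 * q / (4 * q - 1)) := by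
    have hp : 0 < 4 * q - 1 := by linarith
    rw [← mul_div_assoc, le_div_iff₀ hp]
    linarith
  have h6 := mul_le_mul_of_nonneg_right h4 he
  linarith

theorem grp_arM {q F s t e ε n : ℝ} (hq : 1 ≤ q) (he : 0 ≤ e) (hε : 0 ≤ ε * (e + n))
    (h1 : |(2 * q - 1) * F - s| ≤ (2 * q - 1) * t)
    (h2 : (2 * q - 1) / (4 * q - 1) * e - ε * (e + n) ≤ s) :
    e - 4 * ε * (e + n) - 4 * q * t ≤ 4 * q * F := by
  have h3 := (abs_le.1 h1).1
  have hr : 0 < 2 * q - 1 := by linarith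
  have hp : 0 < 4 * q - 1 := by linarith
  set z : ℝ := 4 * q / (2 * q - 1) with hz
  have hz4 : z ≤ 4 := by
    rw [hz, div_le_iff₀ hr]
    linarith
  have hz0 : 0 ≤ z := by rw [hz]; positivity
  have hzq : z * (2 * q - 1) = 4 * q := by
    rw [hz]
    exact div_mul_cancel₀ _ hr.ne'
  have h5 : z * ((2 * q - 1) / (4 * q - 1) * e - ε * (e + n)) ≤ z * ((2 * q - 1) * F + (2 * q - 1) * t) := by
    apply mul_le_mul_of_nonneg_left _ hz0
    linarith
  have h6 : z * ((2 * q - 1) * F + (2 * q - 1) * t) = 4 * q * F + 4 * q * t := by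
    rw [← hzq]
    ring
  have h7 : z * ((2 * q - 1) / (4 * q - 1) * e) = 4 * q / (4 * q - 1) * e := by
    rw [← hzq]
    ring
  have h8 : e ≤ 4 * q / (4 * q - 1) * e := by
    have : 1 ≤ 4 * q / (4 * q - 1) := by
      rw [le_div_iff₀ hp]
      linarith
    nlinarith
  have h9 : z * (ε * (e + n)) ≤ 4 * (ε * (e + n)) := mul_le_mul_of_nonneg_right hz4 hε
  rw [mul_sub, h6, h7] at h5
  linarith

theorem grp_arT {q x s t y ε n : ℝ} (hq : 1 ≤ q) (hy : 0 ≤ y) (hyn : y ≤ n)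
    (h1 : |2 * q * x - s| ≤ 2 * q * t) (h2 : |s - 2 * q / (4 * q - 1) * y| ≤ ε * n) :
    |4 * q * x - y| ≤ 4 * q * t + 2 * ε * n + 1 / (4 * q - 1) * n := by
  have hp : 0 < 4 * q - 1 := by linarith
  have hpn := hp.ne'
  have h3 : 2 * (2 * q / (4 * q - 1) * y) = y + 1 / (4 * q - 1) * y := by
    rw [show 2 * (2 * q / (4 * q - 1) * y) = ((4 * q - 1) + 1) / (4 * q - 1) * y by ring, add_div,
      div_self hpn]
    ring
  have h4 : 1 / (4 * q - 1) * y ≤ 1 / (4 * q - 1) * n := by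
    apply mul_le_mul_of_nonneg_left hyn
    positivity
  have h5 : 0 ≤ 1 / (4 * q - 1) * y := by positivity
  rw [abs_le] at h1 h2 ⊢
  constructor <;> linarith [h1.1, h1.2, h2.1, h2.2]

theorem grp_arH {q x s t y ε n : ℝ} (hq : 1 ≤ q) (hy : 0 ≤ y) (hyn : y ≤ n) (hε : 0 ≤ ε * n)
    (h1 : |(2 * q - 1) * x - s| ≤ (2 * q - 1) * t)
    (h2 : |s - (2 * q - 1) / (4 * q - 1) * y| ≤ ε * n) :
    |4 * q * x - y| ≤ 4 * q * t + 4 * ε * n + 1 / (4 * q - 1) * n := by
  have hr : 0 < 2 * q - 1 := by linarith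
  have hp : 0 < 4 * q - 1 := by linarith
  set z : ℝ := 4 * q / (2 * q - 1) with hz
  have hz4 : z ≤ 4 := by
    rw [hz, div_le_iff₀ hr]
    linarith
  have hz0 : 0 ≤ z := by rw [hz]; positivity
  have hzq : z * (2 * q - 1) = 4 * q := by
    rw [hz]
    exact div_mul_cancel₀ _ hr.ne'
  have h7 : z * ((2 * q - 1) / (4 * q - 1) * y) = y + 1 / (4 * q - 1) * y := by
    have : z * ((2 * q - 1) / (4 * q - 1) * y) = (z * (2 * q - 1)) / (4 * q - 1) * y := by ring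
    have hpn := hp.ne'
    rw [this, hzq]
    field_simp
    ring
  have h4 : 1 / (4 * q - 1) * y ≤ 1 / (4 * q - 1) * n := by
    apply mul_le_mul_of_nonneg_left hyn
    positivity
  have h5 : 0 ≤ 1 / (4 * q - 1) * y := by positivity
  have h8 : |z * ((2 * q - 1) * x - s)| ≤ z * ((2 * q - 1) * t) := by
    rw [abs_mul, abs_of_nonneg hz0]
    exact mul_le_mul_of_nonneg_left h1 hz0
  have h9 : |z * (s - (2 * q - 1) / (4 * q - 1) * y)| ≤ 4 * (ε * n) := by
    rw [abs_mul, abs_of_nonneg hz0]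
    exact (mul_le_mul_of_nonneg_left h2 hz0).trans (mul_le_mul_of_nonneg_right hz4 hε)
  have h10 : z * ((2 * q - 1) * x - s) = 4 * q * x - z * s := by rw [← hzq]; ring
  have h11 : z * ((2 * q - 1) * t) = 4 * q * t := by rw [← hzq]; ring
  rw [h10, h11] at h8
  rw [mul_sub, h7] at h9
  rw [abs_le] at h8 h9 ⊢
  constructor <;> linarith [h8.1, h8.2, h9.1, h9.2]

/-- the rank of a vertex for the group `m` -/
def grp_rk {n M : ℕ} (V0 : Finset (Fin n)) (c : Fin n → Fin M) (b : Fin M → Fin M → Bool) (m : Fin M)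
    (v : Fin n) : ℕ :=
  if v ∈ V0 then (if b m (c v) = true then 2 else 1) else (if b m (c v) = true then 3 else 0)

theorem grp_rk_lt {n K M : ℕ} (V0 : Finset (Fin n)) (o i : Fin n → Fin K) (c : Fin n → Fin M)
    (b : Fin M → Fin M → Bool) (m : Fin M) (e : Fin n × Fin n)
    (h : m ∈ grp_G b (grp_key V0 o i c e)) : grp_rk V0 c b m e.1 < grp_rk V0 c b m e.2 := by
  unfold grp_key at h
  unfold grp_rk
  by_cases h1 : e.1 ∈ V0 <;> by_cases h2 : e.2 ∈ V0
  · simp only [h1, h2, not_true_eq_false, and_false, false_and, if_false, grp_G, mem_filter, mem_univ,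
      true_and] at h
    simp [h1, h2, h.1, h.2]
  · simp only [h1, h2, not_false_eq_true, and_self, if_true, grp_G, mem_filter, mem_univ,
      true_and] at h
    simp only [h1, h2, h, if_true, if_false]
    split_ifs <;> norm_num
  · simp only [h1, h2, not_false_eq_true, and_self, if_true, grp_G, mem_filter, mem_univ,
      true_and, not_true_eq_false, if_false] at h
    simp only [h1, h2, h, if_true, if_false]
    split_ifs <;> norm_num at *
  · simp only [h1, h2, and_false, false_and, if_false, grp_G, mem_filter, mem_univ,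
      true_and] at h
    simp [h1, h2, h.1, h.2]

theorem grp_G1 {n K M : ℕ} {V0 : Finset (Fin n)} {o i : Fin n → Fin K} {c : Fin n → Fin M}
    {b : Fin M → Fin M → Bool} {m : Fin M} {e : Fin n × Fin n}
    (h : m ∈ grp_G b (grp_key V0 o i c e)) (h1 : e.1 ∈ V0) (h2 : e.2 ∉ V0) : b m (c e.2) = true := by
  unfold grp_key at h
  simpa only [h1, h2, not_false_eq_true, and_self, if_true, grp_G, mem_filter, mem_univ,
      true_and] using h

theorem grp_G2 {n K M : ℕ} {V0 : Finset (Fin n)} {o i : Fin n → Fin K} {c : Fin n → Fin M}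
    {b : Fin M → Fin M → Bool} {m : Fin M} {e : Fin n × Fin n}
    (h : m ∈ grp_G b (grp_key V0 o i c e)) (h1 : e.1 ∉ V0) (h2 : e.2 ∈ V0) : b m (c e.1) = false := by
  unfold grp_key at h
  simpa only [h1, h2, not_false_eq_true, and_self, if_true, grp_G, mem_filter, mem_univ,
      true_and, not_true_eq_false, if_false] using h

theorem grp_G3 {n K M : ℕ} {V0 : Finset (Fin n)} {o i : Fin n → Fin K} {c : Fin n → Fin M}
    {b : Fin M → Fin M → Bool} {m : Fin M} {e : Fin n × Fin n}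
    (h : m ∈ grp_G b (grp_key V0 o i c e)) (h1 : e.1 ∈ V0 ↔ e.2 ∈ V0) :
    b m (c e.1) = false ∧ b m (c e.2) = true := by
  unfold grp_key at h
  by_cases h2 : e.2 ∈ V0
  · have h3 := h1.2 h2
    simpa only [h3, h2, not_true_eq_false, and_false, false_and, if_false, grp_G, mem_filter, mem_univ,
      true_and] using h
  · have h3 : e.1 ∉ V0 := fun h => h2 (h1.1 h)
    simpa only [h3, h2, and_false, false_and, if_false, grp_G, mem_filter, mem_univ,
      true_and] using h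

theorem grp_split {n : ℕ} (A : Finset (Fin n × Fin n)) (V0 : Finset (Fin n))
    (P : Fin n × Fin n → Prop) [DecidablePred P] : (A.filter P).card =
      (A.filter (fun e => (e.1 ∈ V0 ∧ e.2 ∉ V0) ∧ P e)).card +
      (A.filter (fun e => (e.1 ∉ V0 ∧ e.2 ∈ V0) ∧ P e)).card +
      (A.filter (fun e => (e.1 ∈ V0 ↔ e.2 ∈ V0) ∧ P e)).card := by
  simp only [card_filter, ← sum_add_distrib]
  apply sum_congr rfl
  intro e _
  by_cases h1 : e.1 ∈ V0 <;> by_cases h2 : e.2 ∈ V0 <;> by_cases h3 : P e <;> simp [h1, h2, h3]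

theorem grp_cntT {n : ℕ} (A : Finset (Fin n × Fin n)) (v : Fin n) (P : Fin n → Prop)
    [DecidablePred P] : (univ.filter (fun w => (v, w) ∈ A ∧ P w)).card =
      (A.filter (fun e => e.1 = v ∧ P e.2)).card := by
  apply card_bij (fun w _ => (v, w))
  · intro w hw
    rw [mem_filter] at hw ⊢
    exact ⟨hw.2.1, rfl, hw.2.2⟩
  · intro w _ w' _ h
    exact (Prod.mk.inj h).2
  · intro e he
    rw [mem_filter] at he
    obtain ⟨h1, h2, h3⟩ := he
    subst h2
    exact ⟨e.2, mem_filter.2 ⟨mem_univ _, h1, h3⟩, rfl⟩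

theorem grp_cntH {n : ℕ} (A : Finset (Fin n × Fin n)) (v : Fin n) (P : Fin n → Prop)
    [DecidablePred P] : (univ.filter (fun w => (w, v) ∈ A ∧ P w)).card =
      (A.filter (fun e => e.2 = v ∧ P e.1)).card := by
  apply card_bij (fun w _ => (w, v))
  · intro w hw
    rw [mem_filter] at hw ⊢
    exact ⟨hw.2.1, rfl, hw.2.2⟩
  · intro w _ w' _ h
    exact (Prod.mk.inj h).1
  · intro e he
    rw [mem_filter] at he
    obtain ⟨h1, h2, h3⟩ := he
    subst h2
    exact ⟨e.1, mem_filter.2 ⟨mem_univ _, h1, h3⟩, rfl⟩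

/-- splitting of a star with centre `v ∈ V0` as tail -/
theorem grp_splitT {n : ℕ} (A : Finset (Fin n × Fin n)) (V0 : Finset (Fin n)) (v : Fin n) (hv : v ∈ V0)
    (P : Fin n × Fin n → Prop) [DecidablePred P] (hP : ∀ e, P e → e.1 = v) : ∃ r : ℕ, r ≤ V0.card ∧
      (A.filter P).card = (A.filter (fun e => (e.1 ∈ V0 ∧ e.2 ∉ V0) ∧ P e)).card + r := by
  refine ⟨(A.filter (fun e => (e.1 ∈ V0 ↔ e.2 ∈ V0) ∧ P e)).card, ?_, ?_⟩
  · apply card_le_card_of_injOn (fun e => e.2)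
    · intro e he
      have he' := mem_filter.1 (mem_coe.1 he)
      have h1 := hP e he'.2.2
      exact mem_coe.2 (he'.2.1.1 (h1 ▸ hv))
    · intro e he e' he' h
      have h1 := hP e (mem_filter.1 (mem_coe.1 he)).2.2
      have h2 := hP e' (mem_filter.1 (mem_coe.1 he')).2.2
      exact Prod.ext (h1.trans h2.symm) h
  · rw [grp_split A V0 P]
    have : (A.filter (fun e => (e.1 ∉ V0 ∧ e.2 ∈ V0) ∧ P e)).card = 0 := by
      rw [card_eq_zero, filter_eq_empty_iff]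
      rintro e he ⟨⟨h1, h2⟩, h3⟩
      exact h1 ((hP e h3).symm ▸ hv)
    omega

/-- splitting of a star with centre `v ∈ V0` as head -/
theorem grp_splitH {n : ℕ} (A : Finset (Fin n × Fin n)) (V0 : Finset (Fin n)) (v : Fin n) (hv : v ∈ V0)
    (P : Fin n × Fin n → Prop) [DecidablePred P] (hP : ∀ e, P e → e.2 = v) : ∃ r : ℕ, r ≤ V0.card ∧
      (A.filter P).card = (A.filter (fun e => (e.1 ∉ V0 ∧ e.2 ∈ V0) ∧ P e)).card + r := by
  refine ⟨(A.filter (fun e => (e.1 ∈ V0 ↔ e.2 ∈ V0) ∧ P e)).card, ?_, ?_⟩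
  · apply card_le_card_of_injOn (fun e => e.1)
    · intro e he
      have he' := mem_filter.1 (mem_coe.1 he)
      have h1 := hP e he'.2.2
      exact mem_coe.2 (he'.2.1.2 (h1 ▸ hv))
    · intro e he e' he' h
      have h1 := hP e (mem_filter.1 (mem_coe.1 he)).2.2
      have h2 := hP e' (mem_filter.1 (mem_coe.1 he')).2.2
      exact Prod.ext h (h1.trans h2.symm)
  · rw [grp_split A V0 P]
    have : (A.filter (fun e => (e.1 ∈ V0 ∧ e.2 ∉ V0) ∧ P e)).card = 0 := by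
      rw [card_eq_zero, filter_eq_empty_iff]
      rintro e he ⟨⟨h1, h2⟩, h3⟩
      exact h2 ((hP e h3).symm ▸ hv)
    omega

/-! ## the main estimates -/

section
variable {n K M Q : ℕ} {A : Finset (Fin n × Fin n)} {o i : Fin n → Fin K}
  {b : Fin M → Fin M → Bool} {V0 : Finset (Fin n)}
  {c : Fin n → Fin M} {g : Fin n × Fin n → Option (Fin M)}

theorem grp_F1
    (hb1 : ∀ p, (univ.filter (fun m => b m p = true)).card = 2 * Q)
    (hg2 : ∀ (x : GrpKey n K M) (m : Fin M), m ∈ grp_G b x →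
      |(((grp_G b x).card : ℝ) * (A.filter (fun e => grp_key V0 o i c e = x ∧ g e = some m)).card) -
        (A.filter (fun e => grp_key V0 o i c e = x)).card| ≤ (grp_G b x).card)
    (S : Finset (Fin n)) (a : Fin K) (m : Fin M) :
    |2 * (Q : ℝ) * ((A.filter (fun e => grp_key V0 o i c e ∈ grp_T1 b S a m ∧ g e = some m)).card : ℝ) -
      (A.filter (fun e => grp_key V0 o i c e ∈ grp_T1 b S a m)).card| ≤
      2 * (Q : ℝ) * (grp_T1 b S a m).card := by
  apply grp_fib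
  intro x hx
  unfold grp_T1 at hx
  rw [mem_image] at hx
  obtain ⟨⟨u, p⟩, h1, rfl⟩ := hx
  rw [mem_product, mem_filter] at h1
  have hmem : m ∈ grp_G b (Sum.inl (u, a, p) : GrpKey n K M) := by
    simp only [grp_G, mem_filter, mem_univ, true_and]
    exact h1.2.2
  have hcard : ((grp_G b (Sum.inl (u, a, p) : GrpKey n K M)).card : ℝ) = 2 * Q := by
    simp only [grp_G]
    rw [hb1 p]
    push_cast
    ring
  have h := hg2 _ m hmem
  rw [hcard] at h
  exact h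

theorem grp_F2 (hM : M + 1 = 4 * Q)
    (hb1 : ∀ p, (univ.filter (fun m => b m p = true)).card = 2 * Q)
    (hg2 : ∀ (x : GrpKey n K M) (m : Fin M), m ∈ grp_G b x →
      |(((grp_G b x).card : ℝ) * (A.filter (fun e => grp_key V0 o i c e = x ∧ g e = some m)).card) -
        (A.filter (fun e => grp_key V0 o i c e = x)).card| ≤ (grp_G b x).card)
    (S : Finset (Fin n)) (a : Fin K) (m : Fin M) :
    |(2 * (Q : ℝ) - 1) * ((A.filter (fun e => grp_key V0 o i c e ∈ grp_T2 b S a m ∧ g e = some m)).card : ℝ) -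
      (A.filter (fun e => grp_key V0 o i c e ∈ grp_T2 b S a m)).card| ≤
      (2 * (Q : ℝ) - 1) * (grp_T2 b S a m).card := by
  apply grp_fib
  intro x hx
  unfold grp_T2 at hx
  rw [mem_image] at hx
  obtain ⟨⟨u, p⟩, h1, rfl⟩ := hx
  rw [mem_product, mem_filter] at h1
  have hmem : m ∈ grp_G b (Sum.inr (Sum.inl (u, a, p)) : GrpKey n K M) := by
    simp only [grp_G, mem_filter, mem_univ, true_and]
    exact h1.2.2
  have hcard : ((grp_G b (Sum.inr (Sum.inl (u, a, p)) : GrpKey n K M)).card : ℝ) =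
      2 * Q - 1 := by
    simp only [grp_G]
    have h2 : ((univ.filter (fun m => b m p = true)).card : ℝ) + (univ.filter (fun m => b m p = false)).card =
        4 * Q - 1 := by
      have hM' : (M : ℝ) = 4 * Q - 1 := by
        have : (M : ℝ) + 1 = 4 * Q := by exact_mod_cast hM
        linarith
      rw [← hM']
      have h3 := card_filter_add_card_filter_not (s := (univ : Finset (Fin M)))
        (fun m => b m p = true)
      simp only [Bool.not_eq_true, card_univ, Fintype.card_fin] at h3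
      exact_mod_cast h3
    rw [hb1 p] at h2
    push_cast at h2
    linarith
  have h := hg2 _ m hmem
  rw [hcard] at h
  exact h

theorem grp_F3
    (hb2 : ∀ p q, p ≠ q → (univ.filter (fun m => b m p = false ∧ b m q = true)).card = Q)
    (hg2 : ∀ (x : GrpKey n K M) (m : Fin M), m ∈ grp_G b x →
      |(((grp_G b x).card : ℝ) * (A.filter (fun e => grp_key V0 o i c e = x ∧ g e = some m)).card) -
        (A.filter (fun e => grp_key V0 o i c e = x)).card| ≤ (grp_G b x).card)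
    (a a' : Fin K) (m : Fin M) :
    |(Q : ℝ) * ((A.filter (fun e => grp_key V0 o i c e ∈ grp_T3 b a a' m ∧ g e = some m)).card : ℝ) -
      (A.filter (fun e => grp_key V0 o i c e ∈ grp_T3 b a a' m)).card| ≤
      (Q : ℝ) * (grp_T3 (n := n) b a a' m).card := by
  apply grp_fib
  intro x hx
  unfold grp_T3 at hx
  rw [mem_image] at hx
  obtain ⟨⟨p, p'⟩, h1, rfl⟩ := hx
  rw [mem_product, mem_filter, mem_filter] at h1
  have hmem : m ∈ grp_G b (Sum.inr (Sum.inr (a, a', p, p')) : GrpKey n K M) := by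
    simp only [grp_G, mem_filter, mem_univ, true_and]
    exact ⟨h1.1.2, h1.2.2⟩
  have hne : p ≠ p' := by
    intro h
    have h2 := h1.1.2
    have h3 := h1.2.2
    simp only at h2 h3
    rw [h, h3] at h2
    exact absurd h2 (by simp)
  have hcard : ((grp_G b (Sum.inr (Sum.inr (a, a', p, p')) : GrpKey n K M)).card : ℝ) =
      Q := by
    simp only [grp_G]
    rw [hb2 p p' hne]
  have h := hg2 _ m hmem
  rw [hcard] at h
  exact h

/-- the group `m` -/
def grp_C {n M : ℕ} (A : Finset (Fin n × Fin n)) (g : Fin n × Fin n → Option (Fin M)) (m : Fin M) :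
    Finset (Fin n × Fin n) := A.filter (fun e => g e = some m)

/-- the estimate for the types -/
theorem grp_type {ε ε1 : ℝ} (hM : M + 1 = 4 * Q) (hQ : 1 ≤ Q)
    (hb1 : ∀ p, (univ.filter (fun m => b m p = true)).card = 2 * Q)
    (hb2 : ∀ p q, p ≠ q → (univ.filter (fun m => b m p = false ∧ b m q = true)).card = Q)
    (hg1 : ∀ e m, g e = some m → e ∈ A ∧ m ∈ grp_G b (grp_key V0 o i c e))
    (hg2 : ∀ (x : GrpKey n K M) (m : Fin M), m ∈ grp_G b x →
      |(((grp_G b x).card : ℝ) * (A.filter (fun e => grp_key V0 o i c e = x ∧ g e = some m)).card) -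
        (A.filter (fun e => grp_key V0 o i c e = x)).card| ≤ (grp_G b x).card)
    (hε : 0 < ε) (hε1 : ε ≤ ε1 / 64) (hN : 1 / (4 * (Q : ℝ) - 1) ≤ ε1 / 8)
    (hN3 : (4 * (Q : ℝ)) ^ 3 ≤ ε * n) (hV : (4 * (Q : ℝ)) ^ 3 * V0.card ≤ ε * n)
    (a a' : Fin K) (m : Fin M)
    (h1 : 2 * Q / (4 * Q - 1) *
            ((A.filter (fun e => e.1 ∈ V0 ∧ e.2 ∉ V0 ∧ o e.1 = a ∧ i e.2 = a')).card : ℝ) -
            ε * ((A.filter (fun e => e.1 ∈ V0 ∧ e.2 ∉ V0 ∧ o e.1 = a ∧ i e.2 = a')).card + n) ≤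
            (A.filter (fun e => (e.1 ∈ V0 ∧ e.2 ∉ V0 ∧ o e.1 = a ∧ i e.2 = a') ∧
              b m (c e.2) = true)).card)
    (h2 : (2 * Q - 1) / (4 * Q - 1) *
            ((A.filter (fun e => e.1 ∉ V0 ∧ e.2 ∈ V0 ∧ o e.1 = a ∧ i e.2 = a')).card : ℝ) -
            ε * ((A.filter (fun e => e.1 ∉ V0 ∧ e.2 ∈ V0 ∧ o e.1 = a ∧ i e.2 = a')).card + n) ≤
            (A.filter (fun e => (e.1 ∉ V0 ∧ e.2 ∈ V0 ∧ o e.1 = a ∧ i e.2 = a') ∧
              b m (c e.1) = false)).card)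
    (h3 : 2 * Q * (2 * Q - 1) / (4 * Q - 1) ^ 2 *
            ((A.filter (fun e => (e.1 ∈ V0 ↔ e.2 ∈ V0) ∧ o e.1 = a ∧ i e.2 = a')).card : ℝ) -
            ε * ((A.filter (fun e => (e.1 ∈ V0 ↔ e.2 ∈ V0) ∧ o e.1 = a ∧ i e.2 = a')).card + n) ≤
            (A.filter (fun e => ((e.1 ∈ V0 ↔ e.2 ∈ V0) ∧ o e.1 = a ∧ i e.2 = a') ∧
              b m (c e.1) = false ∧ b m (c e.2) = true)).card) :
    (1 - ε1) * eb A (Cl o a) (Cl i a') - ε1 * n ≤
          (M + 1 : ℝ) * (eb (grp_C A g m) (Cl o a) (Cl i a') : ℝ) := by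
  have hMr : (M : ℝ) + 1 = 4 * Q := by exact_mod_cast hM
  have hQr : (1 : ℝ) ≤ Q := by exact_mod_cast hQ
  have hn : (0 : ℝ) ≤ n := Nat.cast_nonneg n
  -- the three sums over the keys
  have f1 := grp_F1 (A := A) hb1 hg2 (V0.filter (fun v => o v = a)) a' m
  have f2 := grp_F2 (A := A) hM hb1 hg2 (V0.filter (fun v => i v = a')) a m
  have f3 := grp_F3 (A := A) hb2 hg2 a a' m
  have t1 := grp_card1 b (V0.filter (fun v => o v = a)) a' m
  have t2 := grp_card2 b (V0.filter (fun v => i v = a')) a m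
  have t3 := grp_card3 (n := n) b a a' m
  have s1 : A.filter (fun e => grp_key V0 o i c e ∈ grp_T1 b (V0.filter (fun v => o v = a)) a' m) =
      A.filter (fun e => (e.1 ∈ V0 ∧ e.2 ∉ V0 ∧ o e.1 = a ∧ i e.2 = a') ∧ b m (c e.2) = true) := by
    apply filter_congr
    intro e _
    rw [grp_mem1, mem_filter]
    tauto
  have s2 : A.filter (fun e => grp_key V0 o i c e ∈ grp_T2 b (V0.filter (fun v => i v = a')) a m) =
      A.filter (fun e => (e.1 ∉ V0 ∧ e.2 ∈ V0 ∧ o e.1 = a ∧ i e.2 = a') ∧ b m (c e.1) = false) := by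
    apply filter_congr
    intro e _
    rw [grp_mem2, mem_filter]
    tauto
  have s3 : A.filter (fun e => grp_key V0 o i c e ∈ grp_T3 b a a' m) =
      A.filter (fun e => ((e.1 ∈ V0 ↔ e.2 ∈ V0) ∧ o e.1 = a ∧ i e.2 = a') ∧
              b m (c e.1) = false ∧ b m (c e.2) = true) := by
    apply filter_congr
    intro e _
    rw [grp_mem3]
    tauto
  have g1 : A.filter (fun e => grp_key V0 o i c e ∈ grp_T1 b (V0.filter (fun v => o v = a)) a' m ∧
      g e = some m) = A.filter (fun e => (e.1 ∈ V0 ∧ e.2 ∉ V0) ∧ g e = some m ∧ o e.1 = a ∧ i e.2 = a') := by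
    apply filter_congr
    intro e _
    rw [grp_mem1, mem_filter]
    constructor
    · rintro ⟨⟨x1, x2, x3, x4, x5⟩, x6⟩
      exact ⟨⟨x1, x2⟩, x6, x3.2, x4⟩
    · rintro ⟨⟨x1, x2⟩, x3, x4, x5⟩
      exact ⟨⟨x1, x2, ⟨x1, x4⟩, x5, grp_G1 (hg1 e m x3).2 x1 x2⟩, x3⟩
  have g2 : A.filter (fun e => grp_key V0 o i c e ∈ grp_T2 b (V0.filter (fun v => i v = a')) a m ∧
      g e = some m) = A.filter (fun e => (e.1 ∉ V0 ∧ e.2 ∈ V0) ∧ g e = some m ∧ o e.1 = a ∧ i e.2 = a') := by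
    apply filter_congr
    intro e _
    rw [grp_mem2, mem_filter]
    constructor
    · rintro ⟨⟨x1, x2, x3, x4, x5⟩, x6⟩
      exact ⟨⟨x1, x2⟩, x6, x4, x3.2⟩
    · rintro ⟨⟨x1, x2⟩, x3, x4, x5⟩
      exact ⟨⟨x1, x2, ⟨x2, x5⟩, x4, grp_G2 (hg1 e m x3).2 x1 x2⟩, x3⟩
  have g3 : A.filter (fun e => grp_key V0 o i c e ∈ grp_T3 b a a' m ∧
      g e = some m) = A.filter (fun e => (e.1 ∈ V0 ↔ e.2 ∈ V0) ∧ g e = some m ∧ o e.1 = a ∧ i e.2 = a') := by
    apply filter_congr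
    intro e _
    rw [grp_mem3]
    constructor
    · rintro ⟨⟨x1, x2, x3, x4, x5⟩, x6⟩
      exact ⟨x1, x6, x2, x3⟩
    · rintro ⟨x1, x3, x4, x5⟩
      have := grp_G3 (hg1 e m x3).2 x1
      exact ⟨⟨x1, x4, x5, this.1, this.2⟩, x3⟩
  rw [s1, g1] at f1
  rw [s2, g2] at f2
  rw [s3, g3] at f3
  -- totals
  have eA : (eb A (Cl o a) (Cl i a')) = (A.filter (fun e => e.1 ∈ V0 ∧ e.2 ∉ V0 ∧ o e.1 = a ∧ i e.2 = a')).card +
      (A.filter (fun e => e.1 ∉ V0 ∧ e.2 ∈ V0 ∧ o e.1 = a ∧ i e.2 = a')).card +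
      (A.filter (fun e => (e.1 ∈ V0 ↔ e.2 ∈ V0) ∧ o e.1 = a ∧ i e.2 = a')).card := by
    unfold eb
    have h := grp_split A V0 (fun e => e.1 ∈ Cl o a ∧ e.2 ∈ Cl i a')
    simpa only [Cl, mem_filter, mem_univ, true_and, and_assoc] using h
  have eC : (eb (grp_C A g m) (Cl o a) (Cl i a')) =
      (A.filter (fun e => (e.1 ∈ V0 ∧ e.2 ∉ V0) ∧ g e = some m ∧ o e.1 = a ∧ i e.2 = a')).card +
      (A.filter (fun e => (e.1 ∉ V0 ∧ e.2 ∈ V0) ∧ g e = some m ∧ o e.1 = a ∧ i e.2 = a')).card +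
      (A.filter (fun e => (e.1 ∈ V0 ↔ e.2 ∈ V0) ∧ g e = some m ∧ o e.1 = a ∧ i e.2 = a')).card := by
    unfold eb grp_C
    rw [filter_filter]
    have h := grp_split A V0 (fun e => g e = some m ∧ e.1 ∈ Cl o a ∧ e.2 ∈ Cl i a')
    simpa only [Cl, mem_filter, mem_univ, true_and] using h
  rw [eA, eC]
  push_cast
  rw [hMr]
  set e1 : ℝ := ((A.filter (fun e => e.1 ∈ V0 ∧ e.2 ∉ V0 ∧ o e.1 = a ∧ i e.2 = a')).card : ℝ) with he1
  set e2 : ℝ := ((A.filter (fun e => e.1 ∉ V0 ∧ e.2 ∈ V0 ∧ o e.1 = a ∧ i e.2 = a')).card : ℝ) with he2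
  set e3 : ℝ := ((A.filter (fun e => (e.1 ∈ V0 ↔ e.2 ∈ V0) ∧ o e.1 = a ∧ i e.2 = a')).card : ℝ) with he3
  have he1' : 0 ≤ e1 := Nat.cast_nonneg _
  have he2' : 0 ≤ e2 := Nat.cast_nonneg _
  have he3' : 0 ≤ e3 := Nat.cast_nonneg _
  have r1 := grp_arP (ε := ε) (n := n) hQr he1' f1 h1
  have r2 := grp_arM (ε := ε) (n := n) hQr he2' (by positivity) f2 h2
  have r3 := grp_arL (ε := ε) (n := n) hQr he3' f3 h3
  have hVc : ((V0.filter (fun v => o v = a)).card : ℝ) ≤ V0.card := by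
    exact_mod_cast card_filter_le _ _
  have hVc' : ((V0.filter (fun v => i v = a')).card : ℝ) ≤ V0.card := by
    exact_mod_cast card_filter_le _ _
  have hMQ : (M : ℝ) ≤ 4 * Q := by linarith
  have hM0 : (0 : ℝ) ≤ M := Nat.cast_nonneg _
  have hV0 : (0 : ℝ) ≤ V0.card := Nat.cast_nonneg _
  have q1 : 4 * (Q : ℝ) * (V0.card * M) ≤ ε * n := by
    refine le_trans ?_ hV
    calc 4 * (Q : ℝ) * (V0.card * M) ≤ 4 * (Q : ℝ) * (V0.card * (4 * Q)) := by gcongr
      _ = (4 * (Q : ℝ)) ^ 2 * V0.card := by ring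
      _ ≤ (4 * (Q : ℝ)) ^ 3 * V0.card := by
        apply mul_le_mul_of_nonneg_right _ hV0
        exact pow_le_pow_right₀ (by linarith) (by norm_num)
  have q2 : 4 * (Q : ℝ) * (M * M) ≤ ε * n := by
    refine le_trans ?_ hN3
    calc 4 * (Q : ℝ) * (M * M) ≤ 4 * (Q : ℝ) * ((4 * Q) * (4 * Q)) := by gcongr
      _ = (4 * (Q : ℝ)) ^ 3 := by ring
  have p1 : 4 * (Q : ℝ) * ((grp_T1 b (V0.filter (fun v => o v = a)) a' m).card : ℝ) ≤ ε * n := by
    refine le_trans ?_ q1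
    apply mul_le_mul_of_nonneg_left _ (by positivity)
    exact t1.trans (mul_le_mul_of_nonneg_right hVc hM0)
  have p2 : 4 * (Q : ℝ) * ((grp_T2 b (V0.filter (fun v => i v = a')) a m).card : ℝ) ≤ ε * n := by
    refine le_trans ?_ q1
    apply mul_le_mul_of_nonneg_left _ (by positivity)
    exact t2.trans (mul_le_mul_of_nonneg_right hVc' hM0)
  have p3 : 4 * (Q : ℝ) * ((grp_T3 (n := n) b a a' m).card : ℝ) ≤ ε * n := by
    refine le_trans ?_ q2
    exact mul_le_mul_of_nonneg_left t3 (by positivity)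
  have w1 : ε * n ≤ ε1 / 64 * n := mul_le_mul_of_nonneg_right hε1 hn
  have w2 : ε * e1 ≤ ε1 / 64 * e1 := mul_le_mul_of_nonneg_right hε1 he1'
  have w3 : ε * e2 ≤ ε1 / 64 * e2 := mul_le_mul_of_nonneg_right hε1 he2'
  have w4 : ε * e3 ≤ ε1 / 64 * e3 := mul_le_mul_of_nonneg_right hε1 he3'
  have w5 : 1 / (4 * (Q : ℝ) - 1) * e3 ≤ ε1 / 8 * e3 := mul_le_mul_of_nonneg_right hN he3'
  have hε10 : 0 < ε1 := by linarith
  have z1 : 0 ≤ ε1 * e1 := by positivity
  have z2 : 0 ≤ ε1 * e2 := by positivity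
  have z3 : 0 ≤ ε1 * e3 := by positivity
  have z4 : 0 ≤ ε1 * n := by positivity
  linarith

theorem grp_small {ε ε1 γ1 x y q nn : ℝ} (hn : 0 ≤ nn) (hq : 1 ≤ q) (hγ : 4 * q * γ1 ≤ ε)
    (hε1 : ε ≤ ε1 / 64) (hε : 0 < ε)
    (hx : 0 ≤ x) (hxy : x ≤ y) (hy : y ≤ γ1 * nn) : |4 * q * x - y| ≤ ε1 * nn := by
  have hy0 : 0 ≤ y := hx.trans hxy
  have h1 : 4 * q * y ≤ ε1 * nn := by
    calc 4 * q * y ≤ 4 * q * (γ1 * nn) := by gcongr
      _ = (4 * q * γ1) * nn := by ring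
      _ ≤ ε1 * nn := by
        apply mul_le_mul_of_nonneg_right _ hn
        linarith
  have h2 : 4 * q * x ≤ 4 * q * y := by gcongr
  have h3 : y ≤ 4 * q * y := by nlinarith
  have h4 : 0 ≤ 4 * q * x := by positivity
  rw [abs_le]
  constructor <;> linarith

theorem grp_fin {ε ε1 x y x' y' r r' V q nn t : ℝ} (hn : 0 ≤ nn) (hq : 1 ≤ q)
    (hε1 : ε ≤ ε1 / 64) (hε : 0 < ε) (hN : 1 / (4 * q - 1) ≤ ε1 / 8) (ht : 4 * q * t ≤ ε * nn)
    (h : |4 * q * x' - y'| ≤ 4 * q * t + 4 * ε * nn + 1 / (4 * q - 1) * nn)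
    (hr0 : 0 ≤ r) (hr : r ≤ V) (hr0' : 0 ≤ r') (hr' : r' ≤ V) (hV : 4 * q * V ≤ ε * nn)
    (hx : x = x' + r) (hy : y = y' + r') : |4 * q * x - y| ≤ ε1 * nn := by
  have h1 : 4 * q * r ≤ ε * nn := by
    calc 4 * q * r ≤ 4 * q * V := by gcongr
      _ ≤ ε * nn := hV
  have h2 : r' ≤ ε * nn := by
    have : r' ≤ 4 * q * r' := by nlinarith
    calc r' ≤ 4 * q * r' := this
      _ ≤ 4 * q * V := by gcongr
      _ ≤ ε * nn := hV
  have h3 : 0 ≤ 4 * q * r := by positivity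
  have w1 : ε * nn ≤ ε1 / 64 * nn := mul_le_mul_of_nonneg_right hε1 hn
  have w2 : 1 / (4 * q - 1) * nn ≤ ε1 / 8 * nn := mul_le_mul_of_nonneg_right hN hn
  have hε10 : 0 < ε1 := by linarith
  have z4 : 0 ≤ ε1 * nn := by positivity
  subst hx hy
  rw [abs_le] at h ⊢
  constructor <;> linarith [h.1, h.2]

/-- the estimate for the tails -/
theorem grp_tail {ε ε1 γ1 : ℝ} (hM : M + 1 = 4 * Q) (hQ : 1 ≤ Q)
    (hb1 : ∀ p, (univ.filter (fun m => b m p = true)).card = 2 * Q)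
    (hg1 : ∀ e m, g e = some m → e ∈ A ∧ m ∈ grp_G b (grp_key V0 o i c e))
    (hg2 : ∀ (x : GrpKey n K M) (m : Fin M), m ∈ grp_G b x →
      |(((grp_G b x).card : ℝ) * (A.filter (fun e => grp_key V0 o i c e = x ∧ g e = some m)).card) -
        (A.filter (fun e => grp_key V0 o i c e = x)).card| ≤ (grp_G b x).card)
    (hε : 0 < ε) (hε1 : ε ≤ ε1 / 64) (hN : 1 / (4 * (Q : ℝ) - 1) ≤ ε1 / 8)
    (hN3 : (4 * (Q : ℝ)) ^ 3 ≤ ε * n) (hV : (4 * (Q : ℝ)) ^ 3 * V0.card ≤ ε * n)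
    (hγ : 4 * (Q : ℝ) * γ1 ≤ ε)
    (v : Fin n) (a : Fin K) (m : Fin M)
    (h1 : v ∉ V0 → (eb A {v} (Cl i a) : ℝ) < γ1 * n)
    (h2 : v ∈ V0 → |((univ.filter (fun w => w ∉ V0 ∧ (v, w) ∈ A ∧ i w = a ∧ b m (c w) = true)).card : ℝ) -
            2 * Q / (4 * Q - 1) *
            (univ.filter (fun w => w ∉ V0 ∧ (v, w) ∈ A ∧ i w = a)).card| ≤ ε * n) :
    |(M + 1 : ℝ) * (eb (grp_C A g m) {v} (Cl i a) : ℝ) - eb A {v} (Cl i a)| ≤ ε1 * n := by
  have hMr : (M : ℝ) + 1 = 4 * Q := by exact_mod_cast hM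
  have hQr : (1 : ℝ) ≤ Q := by exact_mod_cast hQ
  have hn : (0 : ℝ) ≤ n := Nat.cast_nonneg n
  have hMQ : (M : ℝ) ≤ 4 * Q := by linarith
  have hM0 : (0 : ℝ) ≤ M := Nat.cast_nonneg _
  rw [hMr]
  by_cases hv : v ∈ V0
  · have h2' := h2 hv
    have hP : ∀ e : Fin n × Fin n, (e.1 = v ∧ i e.2 = a) → e.1 = v := fun e h => h.1
    have hP' : ∀ e : Fin n × Fin n, (g e = some m ∧ e.1 = v ∧ i e.2 = a) → e.1 = v := fun e h => h.2.1
    obtain ⟨r', hr', hy⟩ := grp_splitT A V0 v hv (fun e => e.1 = v ∧ i e.2 = a) hP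
    obtain ⟨r, hr, hx⟩ := grp_splitT A V0 v hv (fun e => g e = some m ∧ e.1 = v ∧ i e.2 = a) hP'
    have eA : eb A {v} (Cl i a) = (A.filter (fun e => e.1 = v ∧ i e.2 = a)).card := by
      unfold eb
      simp only [Cl, mem_filter, mem_univ, true_and, mem_singleton]
    have eC : eb (grp_C A g m) {v} (Cl i a) =
        (A.filter (fun e => g e = some m ∧ e.1 = v ∧ i e.2 = a)).card := by
      unfold eb grp_C
      rw [filter_filter]
      simp only [Cl, mem_filter, mem_univ, true_and, mem_singleton]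
    have f1 := grp_F1 (A := A) hb1 hg2 {v} a m
    have t1 := grp_card1 b {v} a m
    rw [card_singleton, Nat.cast_one, one_mul] at t1
    have s1 : (A.filter (fun e => grp_key V0 o i c e ∈ grp_T1 b {v} a m)).card =
        (univ.filter (fun w => w ∉ V0 ∧ (v, w) ∈ A ∧ i w = a ∧ b m (c w) = true)).card := by
      have h3 := grp_cntT A v (fun w => w ∉ V0 ∧ i w = a ∧ b m (c w) = true)
      have h4 : (univ.filter (fun w => w ∉ V0 ∧ (v, w) ∈ A ∧ i w = a ∧ b m (c w) = true)) =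
          (univ.filter (fun w => (v, w) ∈ A ∧ w ∉ V0 ∧ i w = a ∧ b m (c w) = true)) := by
        apply filter_congr
        intro w _
        tauto
      rw [h4, h3]
      congr 1
      apply filter_congr
      intro e _
      rw [grp_mem1, mem_singleton]
      constructor
      · rintro ⟨x1, x2, x3, x4, x5⟩
        exact ⟨x3, x2, x4, x5⟩
      · rintro ⟨x1, x2, x3, x4⟩
        exact ⟨x1 ▸ hv, x2, x1, x3, x4⟩
    have g1 : (A.filter (fun e => grp_key V0 o i c e ∈ grp_T1 b {v} a m ∧ g e = some m)).card =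
        (A.filter (fun e => (e.1 ∈ V0 ∧ e.2 ∉ V0) ∧ g e = some m ∧ e.1 = v ∧ i e.2 = a)).card := by
      congr 1
      apply filter_congr
      intro e _
      rw [grp_mem1, mem_singleton]
      constructor
      · rintro ⟨⟨x1, x2, x3, x4, x5⟩, x6⟩
        exact ⟨⟨x1, x2⟩, x6, x3, x4⟩
      · rintro ⟨⟨x1, x2⟩, x3, x4, x5⟩
        exact ⟨⟨x1, x2, x4, x5, grp_G1 (hg1 e m x3).2 x1 x2⟩, x3⟩
    have y1 : (univ.filter (fun w => w ∉ V0 ∧ (v, w) ∈ A ∧ i w = a)).card =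
        (A.filter (fun e => (e.1 ∈ V0 ∧ e.2 ∉ V0) ∧ e.1 = v ∧ i e.2 = a)).card := by
      have h3 := grp_cntT A v (fun w => w ∉ V0 ∧ i w = a)
      have h4 : (univ.filter (fun w => w ∉ V0 ∧ (v, w) ∈ A ∧ i w = a)) =
          (univ.filter (fun w => (v, w) ∈ A ∧ w ∉ V0 ∧ i w = a)) := by
        apply filter_congr
        intro w _
        tauto
      rw [h4, h3]
      congr 1
      apply filter_congr
      intro e _
      constructor
      · rintro ⟨x1, x2, x3⟩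
        exact ⟨⟨x1 ▸ hv, x2⟩, x1, x3⟩
      · rintro ⟨⟨x1, x2⟩, x3, x4⟩
        exact ⟨x3, x2, x4⟩
    rw [s1, g1] at f1
    rw [y1] at h2'
    have hyn : ((A.filter (fun e => (e.1 ∈ V0 ∧ e.2 ∉ V0) ∧ e.1 = v ∧ i e.2 = a)).card : ℝ) ≤ n := by
      rw [← y1]
      have := card_filter_le (univ : Finset (Fin n)) (fun w => w ∉ V0 ∧ (v, w) ∈ A ∧ i w = a)
      rw [card_univ, Fintype.card_fin] at this
      exact_mod_cast this
    have k1 := grp_arT hQr (Nat.cast_nonneg _) hyn f1 h2'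
    have hεn : 0 ≤ ε * n := by positivity
    have ht : 4 * (Q : ℝ) * ((grp_T1 b {v} a m).card : ℝ) ≤ ε * n := by
      refine le_trans ?_ hN3
      calc 4 * (Q : ℝ) * ((grp_T1 b {v} a m).card : ℝ) ≤ 4 * (Q : ℝ) * (4 * Q) := by
            gcongr
            exact t1.trans hMQ
        _ = (4 * (Q : ℝ)) ^ 2 := by ring
        _ ≤ (4 * (Q : ℝ)) ^ 3 := pow_le_pow_right₀ (by linarith) (by norm_num)
    have hVq : 4 * (Q : ℝ) * (V0.card : ℝ) ≤ ε * n := by
      refine le_trans ?_ hV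
      apply mul_le_mul_of_nonneg_right _ (Nat.cast_nonneg _)
      calc 4 * (Q : ℝ) = (4 * (Q : ℝ)) ^ 1 := by ring
        _ ≤ (4 * (Q : ℝ)) ^ 3 := pow_le_pow_right₀ (by linarith) (by norm_num)
    rw [eA, eC]
    have k2 := k1.trans (show _ ≤ 4 * (Q : ℝ) * ((grp_T1 b {v} a m).card : ℝ) + 4 * ε * n +
      1 / (4 * (Q : ℝ) - 1) * n by linarith)
    exact grp_fin (r := (r : ℝ)) (r' := (r' : ℝ)) (V := (V0.card : ℝ)) hn hQr hε1 hε hN ht k2
      (Nat.cast_nonneg _) (by exact_mod_cast hr) (Nat.cast_nonneg _) (by exact_mod_cast hr') hVq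
      (by exact_mod_cast hx) (by exact_mod_cast hy)
  · have h3 := (h1 hv).le
    apply grp_small (ε := ε) (γ1 := γ1) hn hQr hγ hε1 hε (Nat.cast_nonneg _) _ h3
    exact_mod_cast eb_mono (filter_subset _ _) (le_refl _) (le_refl _)

/-- the estimate for the heads -/
theorem grp_head {ε ε1 γ1 : ℝ} (hM : M + 1 = 4 * Q) (hQ : 1 ≤ Q)
    (hb1 : ∀ p, (univ.filter (fun m => b m p = true)).card = 2 * Q)
    (hg1 : ∀ e m, g e = some m → e ∈ A ∧ m ∈ grp_G b (grp_key V0 o i c e))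
    (hg2 : ∀ (x : GrpKey n K M) (m : Fin M), m ∈ grp_G b x →
      |(((grp_G b x).card : ℝ) * (A.filter (fun e => grp_key V0 o i c e = x ∧ g e = some m)).card) -
        (A.filter (fun e => grp_key V0 o i c e = x)).card| ≤ (grp_G b x).card)
    (hε : 0 < ε) (hε1 : ε ≤ ε1 / 64) (hN : 1 / (4 * (Q : ℝ) - 1) ≤ ε1 / 8)
    (hN3 : (4 * (Q : ℝ)) ^ 3 ≤ ε * n) (hV : (4 * (Q : ℝ)) ^ 3 * V0.card ≤ ε * n)
    (hγ : 4 * (Q : ℝ) * γ1 ≤ ε)
    (v : Fin n) (a : Fin K) (m : Fin M)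
    (h1 : v ∉ V0 → (eb A (Cl o a) {v} : ℝ) < γ1 * n)
    (h2 : v ∈ V0 → |((univ.filter (fun w => w ∉ V0 ∧ (w, v) ∈ A ∧ o w = a ∧ b m (c w) = false)).card : ℝ) -
            (2 * Q - 1) / (4 * Q - 1) *
            (univ.filter (fun w => w ∉ V0 ∧ (w, v) ∈ A ∧ o w = a)).card| ≤ ε * n) :
    |(M + 1 : ℝ) * (eb (grp_C A g m) (Cl o a) {v} : ℝ) - eb A (Cl o a) {v}| ≤ ε1 * n := by
  have hMr : (M : ℝ) + 1 = 4 * Q := by exact_mod_cast hM
  have hQr : (1 : ℝ) ≤ Q := by exact_mod_cast hQ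
  have hn : (0 : ℝ) ≤ n := Nat.cast_nonneg n
  have hMQ : (M : ℝ) ≤ 4 * Q := by linarith
  have hM0 : (0 : ℝ) ≤ M := Nat.cast_nonneg _
  rw [hMr]
  by_cases hv : v ∈ V0
  · have h2' := h2 hv
    have hP : ∀ e : Fin n × Fin n, (o e.1 = a ∧ e.2 = v) → e.2 = v := fun e h => h.2
    have hP' : ∀ e : Fin n × Fin n, (g e = some m ∧ o e.1 = a ∧ e.2 = v) → e.2 = v := fun e h => h.2.2
    obtain ⟨r', hr', hy⟩ := grp_splitH A V0 v hv (fun e => o e.1 = a ∧ e.2 = v) hP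
    obtain ⟨r, hr, hx⟩ := grp_splitH A V0 v hv (fun e => g e = some m ∧ o e.1 = a ∧ e.2 = v) hP'
    have eA : eb A (Cl o a) {v} = (A.filter (fun e => o e.1 = a ∧ e.2 = v)).card := by
      unfold eb
      simp only [Cl, mem_filter, mem_univ, true_and, mem_singleton]
    have eC : eb (grp_C A g m) (Cl o a) {v} =
        (A.filter (fun e => g e = some m ∧ o e.1 = a ∧ e.2 = v)).card := by
      unfold eb grp_C
      rw [filter_filter]
      simp only [Cl, mem_filter, mem_univ, true_and, mem_singleton]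
    have f1 := grp_F2 (A := A) hM hb1 hg2 {v} a m
    have t1 := grp_card2 b {v} a m
    rw [card_singleton, Nat.cast_one, one_mul] at t1
    have s1 : (A.filter (fun e => grp_key V0 o i c e ∈ grp_T2 b {v} a m)).card =
        (univ.filter (fun w => w ∉ V0 ∧ (w, v) ∈ A ∧ o w = a ∧ b m (c w) = false)).card := by
      have h3 := grp_cntH A v (fun w => w ∉ V0 ∧ o w = a ∧ b m (c w) = false)
      have h4 : (univ.filter (fun w => w ∉ V0 ∧ (w, v) ∈ A ∧ o w = a ∧ b m (c w) = false)) =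
          (univ.filter (fun w => (w, v) ∈ A ∧ w ∉ V0 ∧ o w = a ∧ b m (c w) = false)) := by
        apply filter_congr
        intro w _
        tauto
      rw [h4, h3]
      congr 1
      apply filter_congr
      intro e _
      rw [grp_mem2, mem_singleton]
      constructor
      · rintro ⟨x1, x2, x3, x4, x5⟩
        exact ⟨x3, x1, x4, x5⟩
      · rintro ⟨x1, x2, x3, x4⟩
        exact ⟨x2, x1 ▸ hv, x1, x3, x4⟩
    have g1 : (A.filter (fun e => grp_key V0 o i c e ∈ grp_T2 b {v} a m ∧ g e = some m)).card =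
        (A.filter (fun e => (e.1 ∉ V0 ∧ e.2 ∈ V0) ∧ g e = some m ∧ o e.1 = a ∧ e.2 = v)).card := by
      congr 1
      apply filter_congr
      intro e _
      rw [grp_mem2, mem_singleton]
      constructor
      · rintro ⟨⟨x1, x2, x3, x4, x5⟩, x6⟩
        exact ⟨⟨x1, x2⟩, x6, x4, x3⟩
      · rintro ⟨⟨x1, x2⟩, x3, x4, x5⟩
        exact ⟨⟨x1, x2, x5, x4, grp_G2 (hg1 e m x3).2 x1 x2⟩, x3⟩
    have y1 : (univ.filter (fun w => w ∉ V0 ∧ (w, v) ∈ A ∧ o w = a)).card =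
        (A.filter (fun e => (e.1 ∉ V0 ∧ e.2 ∈ V0) ∧ o e.1 = a ∧ e.2 = v)).card := by
      have h3 := grp_cntH A v (fun w => w ∉ V0 ∧ o w = a)
      have h4 : (univ.filter (fun w => w ∉ V0 ∧ (w, v) ∈ A ∧ o w = a)) =
          (univ.filter (fun w => (w, v) ∈ A ∧ w ∉ V0 ∧ o w = a)) := by
        apply filter_congr
        intro w _
        tauto
      rw [h4, h3]
      congr 1
      apply filter_congr
      intro e _
      constructor
      · rintro ⟨x1, x2, x3⟩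
        exact ⟨⟨x2, x1 ▸ hv⟩, x3, x1⟩
      · rintro ⟨⟨x1, x2⟩, x3, x4⟩
        exact ⟨x4, x1, x3⟩
    rw [s1, g1] at f1
    rw [y1] at h2'
    have hyn : ((A.filter (fun e => (e.1 ∉ V0 ∧ e.2 ∈ V0) ∧ o e.1 = a ∧ e.2 = v)).card : ℝ) ≤ n := by
      rw [← y1]
      have := card_filter_le (univ : Finset (Fin n)) (fun w => w ∉ V0 ∧ (w, v) ∈ A ∧ o w = a)
      rw [card_univ, Fintype.card_fin] at this
      exact_mod_cast this
    have hεn : 0 ≤ ε * n := by positivity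
    have k1 := grp_arH hQr (Nat.cast_nonneg _) hyn hεn f1 h2'
    have ht : 4 * (Q : ℝ) * ((grp_T2 b {v} a m).card : ℝ) ≤ ε * n := by
      refine le_trans ?_ hN3
      calc 4 * (Q : ℝ) * ((grp_T2 b {v} a m).card : ℝ) ≤ 4 * (Q : ℝ) * (4 * Q) := by
            gcongr
            exact t1.trans hMQ
        _ = (4 * (Q : ℝ)) ^ 2 := by ring
        _ ≤ (4 * (Q : ℝ)) ^ 3 := pow_le_pow_right₀ (by linarith) (by norm_num)
    have hVq : 4 * (Q : ℝ) * (V0.card : ℝ) ≤ ε * n := by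
      refine le_trans ?_ hV
      apply mul_le_mul_of_nonneg_right _ (Nat.cast_nonneg _)
      calc 4 * (Q : ℝ) = (4 * (Q : ℝ)) ^ 1 := by ring
        _ ≤ (4 * (Q : ℝ)) ^ 3 := pow_le_pow_right₀ (by linarith) (by norm_num)
    rw [eA, eC]
    exact grp_fin (r := (r : ℝ)) (r' := (r' : ℝ)) (V := (V0.card : ℝ)) hn hQr hε1 hε hN ht k1
      (Nat.cast_nonneg _) (by exact_mod_cast hr) (Nat.cast_nonneg _) (by exact_mod_cast hr') hVq
      (by exact_mod_cast hx) (by exact_mod_cast hy)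
  · have h3 := (h1 hv).le
    apply grp_small (ε := ε) (γ1 := γ1) hn hQr hγ hε1 hε (Nat.cast_nonneg _) _ h3
    exact_mod_cast eb_mono (filter_subset _ _) (le_refl _) (le_refl _)

end

theorem grp_choose (M0 : ℕ) (ε1 : ℝ) (hε1 : 0 < ε1) : ∃ j : ℕ, M0 ≤ 2 ^ (j + 2) - 1 ∧
    1 / (4 * ((2 ^ j : ℕ) : ℝ) - 1) ≤ ε1 / 8 := by
  obtain ⟨x, hx⟩ := exists_nat_gt (8 / ε1)
  refine ⟨max M0 x, ?_, ?_⟩
  · have h1 : max M0 x < 2 ^ (max M0 x) := Nat.lt_two_pow_self
    have h2 : M0 ≤ max M0 x := le_max_left _ _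
    have h3 : 2 ^ (max M0 x + 2) = 4 * 2 ^ (max M0 x) := by ring
    omega
  · have h1 : max M0 x < 2 ^ (max M0 x) := Nat.lt_two_pow_self
    have h2 : x ≤ max M0 x := le_max_right _ _
    have h3 : ((x : ℕ) : ℝ) + 1 ≤ ((2 ^ (max M0 x) : ℕ) : ℝ) := by
      have : x + 1 ≤ 2 ^ (max M0 x) := by omega
      exact_mod_cast this
    have h4 : (0 : ℝ) ≤ x := Nat.cast_nonneg x
    have h5 : 8 / ε1 ≤ 4 * ((2 ^ (max M0 x) : ℕ) : ℝ) - 1 := by linarith
    have h6 : 0 < 8 / ε1 := by positivity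
    calc 1 / (4 * ((2 ^ (max M0 x) : ℕ) : ℝ) - 1) ≤ 1 / (8 / ε1) := one_div_le_one_div_of_le h6 h5
      _ = ε1 / 8 := by rw [one_div_div]

theorem tGrp (hHad : S_Had) (hRR : S_RR) (hCel : S_Cel) : S_Grp := by
  intro K0 M0 ε1 hK0 hε1
  obtain ⟨j, hj1, hj2⟩ := grp_choose M0 ε1 hε1
  have hQ1 : 1 ≤ 2 ^ j := Nat.one_le_two_pow
  have hpow : 2 ^ (j + 2) = 4 * 2 ^ j := by ring
  have hMQ : 2 ^ (j + 2) - 1 + 1 = 4 * 2 ^ j := by omega
  refine ⟨2 ^ (j + 2) - 1, hj1, by omega, ?_⟩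
  set ε : ℝ := min (ε1 / 64) (1 / 4) with hε
  have hε0 : 0 < ε := by
    rw [hε]
    exact lt_min (by positivity) (by norm_num)
  have hεle : ε ≤ ε1 / 64 := min_le_left _ _
  obtain ⟨γ1, γ, hγ1, hγ, hγε, hcel⟩ := hCel K0 (j + 2) ε hK0 (by omega) hε0
  obtain ⟨b, hbs, hb1, hb2⟩ := hHad (j + 2) (by omega)
  obtain ⟨n0, hn0⟩ := exists_nat_gt ((4 * ((2 ^ j : ℕ) : ℝ)) ^ 3 / ε)
  refine ⟨γ, hγ, max n0 1, fun n hn K A o i hK hA hloop => ?_⟩
  have hn1 : 1 ≤ n := (le_max_right _ _).trans hn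
  have hnn : n0 ≤ n := (le_max_left _ _).trans hn
  have hbrow : ∀ m, (univ.filter (fun p => b m p = true)).card = 2 ^ (j + 2 - 1) := by
    intro m
    rw [← hb1 m]
    congr 1
    apply filter_congr
    intro p _
    rw [hbs m p]
  obtain ⟨V0, c, hV, hout, hin, htyp⟩ := hcel n K A o i b hn1 hK hbrow hA hloop
  obtain ⟨g, hg1, hg2⟩ := hRR n (2 ^ (j + 2) - 1) A (GrpKey n K (2 ^ (j + 2) - 1))
    (grp_key V0 o i c) (grp_G b)
  -- generalise
  have hb1' : ∀ p, (univ.filter (fun m => b m p = true)).card = 2 * 2 ^ j := by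
    intro p
    rw [hb1 p, show j + 2 - 1 = j + 1 by omega, pow_succ, mul_comm]
  have hb2' : ∀ p q, p ≠ q → (univ.filter (fun m => b m p = false ∧ b m q = true)).card = 2 ^ j := by
    intro p q hpq
    rw [hb2 p q hpq, show j + 2 - 2 = j by omega]
  have hn0' : (4 * ((2 ^ j : ℕ) : ℝ)) ^ 3 ≤ ε * n := by
    rw [div_lt_iff₀ hε0] at hn0
    have : (n0 : ℝ) ≤ n := by exact_mod_cast hnn
    calc (4 * ((2 ^ j : ℕ) : ℝ)) ^ 3 ≤ n0 * ε := hn0.le
      _ ≤ n * ε := by gcongr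
      _ = ε * n := by ring
  have hV' : (4 * ((2 ^ j : ℕ) : ℝ)) ^ 3 * V0.card ≤ ε * n := by
    refine le_trans (le_of_eq ?_) hV
    congr 1
    push_cast
    ring
  have hγ' : 4 * ((2 ^ j : ℕ) : ℝ) * γ1 ≤ ε := by
    refine le_trans (le_of_eq ?_) hγε
    push_cast
    ring
  have c1 : (2 : ℝ) ^ (j + 2 - 1) = 2 * ((2 ^ j : ℕ) : ℝ) := by
    rw [show j + 2 - 1 = j + 1 by omega]
    push_cast
    ring
  have c2 : (2 : ℝ) ^ (j + 2) = 4 * ((2 ^ j : ℕ) : ℝ) := by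
    push_cast
    ring
  simp only [c1, c2] at hin htyp
  refine ⟨fun m => grp_C A g m, fun m => filter_subset _ _, ?_, ?_, ?_, ?_, ?_⟩
  · intro m m' hmm
    rw [Finset.disjoint_left]
    intro e he he'
    have h1 := (mem_filter.1 he).2
    have h2 := (mem_filter.1 he').2
    rw [h1] at h2
    exact hmm (Option.some.inj h2)
  · intro m
    refine ⟨grp_rk V0 c b m, fun e he => ?_⟩
    exact grp_rk_lt V0 o i c b m e (hg1 e m (mem_filter.1 he).2).2
  · intro m a a'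
    exact grp_type hMQ hQ1 hb1' hb2' hg1 hg2 hε0 hεle hj2 hn0' hV' a a' m (htyp m a a').1
      (htyp m a a').2.1 (htyp m a a').2.2
  · intro m v a
    exact grp_tail hMQ hQ1 hb1' hg1 hg2 hε0 hεle hj2 hn0' hV' hγ' v a m (fun hv => (hout v hv a).1)
      (fun hv => (hin m a v hv).1)
  · intro m v a
    exact grp_head hMQ hQ1 hb1' hg1 hg2 hε0 hεle hj2 hn0' hV' hγ' v a m (fun hv => (hout v hv a).2)
      (fun hv => (hin m a v hv).2)

end Pool.Agent.MPd266dbH
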