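import Pool.Agent.Lib.MP_d266db_co.H.SpecQ

/-!
# MP_d266db_co, H, Had: characters of `(ℤ/2)^k`
-/

set_option autoImplicit false

namespace Pool.Agent.MPd266dbH

open Finset Pool.Agent.MPd266db

theorem had_z2 (x : ZMod 2) : (x + 1 = 1 ↔ ¬ x = 1) ∧ (x ≠ 0 ↔ x = 1) ∧ (¬ x = 1 ↔ x = 0) := by
  revert x
  decide

/-- the pairing -/
def hadD {k : ℕ} (v p : Fin k → ZMod 2) : ZMod 2 := ∑ j, v j * p j

theorem had_comm {k : ℕ} (v p : Fin k → ZMod 2) : hadD v p = hadD p v :=
  Finset.sum_congr rfl (fun _ _ => mul_comm _ _)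

theorem had_add {k : ℕ} (v w p : Fin k → ZMod 2) : hadD (v + w) p = hadD v p + hadD w p := by
  unfold hadD
  rw [← Finset.sum_add_distrib]
  exact Finset.sum_congr rfl (fun j _ => by rw [Pi.add_apply, add_mul])

theorem had_single {k : ℕ} (j : Fin k) (p : Fin k → ZMod 2) : hadD (Pi.single j 1) p = p j := by
  classical
  unfold hadD
  rw [Finset.sum_eq_single j]
  · rw [Pi.single_eq_same, one_mul]
  · intro l _ hl
    rw [Pi.single_eq_of_ne hl, zero_mul]
  · intro h
    exact absurd (mem_univ j) h

/-- a translation which changes the value of a character halves a set -/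
theorem had_flip {k : ℕ} (Q : (Fin k → ZMod 2) → Prop) [DecidablePred Q] (p e : Fin k → ZMod 2)
    (he : hadD e p = 1) (hQ : ∀ v, Q (v + e) ↔ Q v) :
    2 * (univ.filter (fun v => Q v ∧ hadD v p = 1)).card = (univ.filter Q).card ∧
      2 * (univ.filter (fun v => Q v ∧ ¬ hadD v p = 1)).card = (univ.filter Q).card := by
  classical
  have h1 : (univ.filter (fun v => Q v ∧ hadD v p = 1)).card =
      (univ.filter (fun v => Q v ∧ ¬ hadD v p = 1)).card := by
    symm
    apply Finset.card_bij (fun v _ => v + e)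
    · intro v hv
      rw [mem_filter] at hv ⊢
      refine ⟨mem_univ _, (hQ v).2 hv.2.1, ?_⟩
      rw [had_add, he]
      exact (had_z2 _).1.2 hv.2.2
    · intro v _ w _ h
      exact add_right_cancel h
    · intro w hw
      rw [mem_filter] at hw
      have hee : w + e + e = w := by
        funext j
        have h0 : ∀ x y : ZMod 2, x + y + y = x := by decide
        exact h0 _ _
      refine ⟨w + e, ?_, hee⟩
      rw [mem_filter]
      refine ⟨mem_univ _, (hQ w).2 hw.2.1, ?_⟩
      rw [had_add, he, hw.2.2]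
      decide
  have h2 : (univ.filter Q).card = (univ.filter (fun v => Q v ∧ hadD v p = 1)).card +
      (univ.filter (fun v => Q v ∧ ¬ hadD v p = 1)).card := by
    rw [← Finset.card_filter_add_card_filter_not (s := univ.filter Q) (fun v => hadD v p = 1),
      Finset.filter_filter, Finset.filter_filter]
  omega

/-- half of all vectors have value `1` -/
theorem had_half {k : ℕ} (p : Fin k → ZMod 2) (hp : p ≠ 0) :
    2 * (univ.filter (fun v => hadD v p = 1)).card = 2 ^ k := by
  classical
  obtain ⟨j, hj⟩ : ∃ j, p j ≠ 0 := by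
    by_contra h
    push Not at h
    exact hp (funext h)
  have h := (had_flip (fun _ => True) p (Pi.single j 1)
    (by rw [had_single]; exact (had_z2 _).2.1.1 hj) (fun _ => Iff.rfl)).1
  have h1 : (univ.filter (fun v => True ∧ hadD v p = 1)) = univ.filter (fun v => hadD v p = 1) :=
    Finset.filter_congr (fun v _ => by rw [true_and])
  rw [h1, Finset.filter_true_of_mem (fun _ _ => trivial), Finset.card_univ, Fintype.card_fun,
    ZMod.card, Fintype.card_fin] at h
  exact h

/-- separating two characters -/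
theorem had_sep {k : ℕ} (p q : Fin k → ZMod 2) (hp : p ≠ 0) (hpq : p ≠ q) :
    ∃ e, hadD e p = 1 ∧ hadD e q = 0 := by
  classical
  by_cases h : ∃ j, p j = 1 ∧ q j = 0
  · obtain ⟨j, h1, h2⟩ := h
    exact ⟨Pi.single j 1, by rw [had_single, h1], by rw [had_single, h2]⟩
  · obtain ⟨j, hj⟩ : ∃ j, p j ≠ 0 := by
      by_contra h'
      push Not at h'
      exact hp (funext h')
    have hj1 : p j = 1 := (had_z2 _).2.1.1 hj
    have key : ∀ l, p l = 1 → q l = 1 := by
      intro l hl
      by_contra h'
      exact h ⟨l, hl, (had_z2 _).2.2.1 h'⟩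
    obtain ⟨l, hl⟩ : ∃ l, p l ≠ q l := by
      by_contra h'
      push Not at h'
      exact hpq (funext h')
    have hl0 : p l = 0 := by
      apply (had_z2 _).2.2.1
      intro h1
      exact hl (by rw [h1, key l h1])
    have hql : q l = 1 := by
      apply (had_z2 _).2.1.1
      intro h1
      exact hl (by rw [hl0, h1])
    refine ⟨Pi.single j 1 + Pi.single l 1, ?_, ?_⟩
    · rw [had_add, had_single, had_single, hj1, hl0, add_zero]
    · rw [had_add, had_single, had_single, key j hj1, hql]
      decide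

theorem tHad : S_Had := by
  intro k hk
  classical
  have hcard : Fintype.card {v : Fin k → ZMod 2 // v ≠ 0} = 2 ^ k - 1 := by
    have h1 : Fintype.card {v : Fin k → ZMod 2 // v ≠ 0} =
        Fintype.card (Fin k → ZMod 2) - Fintype.card {v : Fin k → ZMod 2 // v = 0} :=
      Fintype.card_subtype_compl _
    rw [h1, Fintype.card_subtype_eq, Fintype.card_fun, ZMod.card, Fintype.card_fin]
  let E : Fin (2 ^ k - 1) ≃ {v : Fin k → ZMod 2 // v ≠ 0} := (Fintype.equivFinOfCardEq hcard).symm
  have tr : ∀ (P : (Fin k → ZMod 2) → Prop) [DecidablePred P], (∀ v, P v → v ≠ 0) →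
      (univ.filter (fun m => P (E m).1)).card = (univ.filter P).card := by
    intro P _ hP
    apply Finset.card_bij (fun m _ => (E m).1)
    · intro m hm
      rw [mem_filter] at hm ⊢
      exact ⟨mem_univ _, hm.2⟩
    · intro m _ m' _ h
      exact E.injective (Subtype.ext h)
    · intro v hv
      rw [mem_filter] at hv
      refine ⟨E.symm ⟨v, hP v hv.2⟩, ?_, ?_⟩
      · rw [mem_filter, Equiv.apply_symm_apply]
        exact ⟨mem_univ _, hv.2⟩
      · rw [Equiv.apply_symm_apply]
  have hz : ∀ p : Fin k → ZMod 2, hadD 0 p = 0 := by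
    intro p
    unfold hadD
    exact Finset.sum_eq_zero (fun j _ => by rw [Pi.zero_apply, zero_mul])
  have h01 : (0 : ZMod 2) ≠ 1 := by decide
  have hk1 : 2 ^ k = 2 * 2 ^ (k - 1) := by
    rw [← pow_succ']
    congr 1
    omega
  have hk2 : 2 ^ (k - 1) = 2 * 2 ^ (k - 2) := by
    rw [← pow_succ']
    congr 1
    omega
  refine ⟨fun m p => decide (hadD (E m).1 (E p).1 = 1), ?_, ?_, ?_⟩
  · intro m p
    simp only [had_comm]
  · intro p
    have h1 : (univ.filter (fun m => decide (hadD (E m).1 (E p).1 = 1) = true)) =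
        univ.filter (fun m => hadD (E m).1 (E p).1 = 1) :=
      Finset.filter_congr (fun m _ => by rw [decide_eq_true_eq])
    have h2 := tr (fun v => hadD v (E p).1 = 1) (fun v hv h0 => by
      rw [h0, hz] at hv
      exact h01 hv)
    have h3 := had_half (E p).1 (E p).2
    rw [h1]
    omega
  · intro p q hpq
    have hpq' : (E p).1 ≠ (E q).1 := fun h => hpq (E.injective (Subtype.ext h))
    obtain ⟨e, he1, he2⟩ := had_sep (E p).1 (E q).1 (E p).2 hpq'
    have h1 : (univ.filter (fun m => decide (hadD (E m).1 (E p).1 = 1) = false ∧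
        decide (hadD (E m).1 (E q).1 = 1) = true)) =
        univ.filter (fun m => hadD (E m).1 (E q).1 = 1 ∧ ¬ hadD (E m).1 (E p).1 = 1) :=
      Finset.filter_congr (fun m _ => by rw [decide_eq_true_eq, decide_eq_false_iff_not, and_comm])
    have h2 := tr (fun v => hadD v (E q).1 = 1 ∧ ¬ hadD v (E p).1 = 1) (fun v hv h0 => by
      rw [h0, hz] at hv
      exact h01 hv.1)
    have h3 := had_half (E q).1 (E q).2
    have h4 := (had_flip (fun v => hadD v (E q).1 = 1) (E p).1 e he1 (fun v => by
      rw [had_add, he2, add_zero])).2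
    rw [h1]
    omega

end Pool.Agent.MPd266dbH
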