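import Pool.Agent.Lib.MP_d266db_co.H.SpecP

/-!
# MP_d266db_co, H, Hlv: lower and upper part (helper86)
-/

set_option autoImplicit false

namespace Pool.Agent.MPd266dbH

open Finset Pool.Agent.MPd266db

theorem hlv_low {n : ℕ} (pos : Fin n → ℕ) (D : Finset (Fin n)) (hp : Function.Injective pos) :
    ∀ q : ℕ, q ≤ D.card → ∃ A ⊆ D, A.card = q ∧ ∀ a ∈ A, ∀ b ∈ D \ A, pos a < pos b := by
  classical
  intro q
  induction q with
  | zero => exact fun _ => ⟨∅, empty_subset _, card_empty, fun a ha => by simp at ha⟩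
  | succ q ih =>
    intro hq
    obtain ⟨A, hA, hc, hlt⟩ := ih (by omega)
    have hne : (D \ A).Nonempty := by
      rw [← card_pos, card_sdiff_of_subset hA]
      omega
    obtain ⟨c, hcm, hcmin⟩ := exists_min_image (D \ A) pos hne
    have hcD := mem_sdiff.1 hcm
    refine ⟨insert c A, insert_subset hcD.1 hA, ?_, ?_⟩
    · rw [card_insert_of_notMem hcD.2, hc]
    · intro a ha b hb
      rw [mem_sdiff, mem_insert, not_or] at hb
      have hb' : b ∈ D \ A := mem_sdiff.2 ⟨hb.1, hb.2.2⟩
      rcases mem_insert.1 ha with rfl | ha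
      · exact lt_of_le_of_ne (hcmin b hb') (fun h => hb.2.1 (hp h).symm)
      · exact hlt a ha b hb'

theorem tHlv : S_Hlv := by
  classical
  intro n q pos D hp hq
  obtain ⟨A, hA, hc, hlt⟩ := hlv_low pos D hp q (by omega)
  have h1 : q ≤ (D \ A).card := by
    rw [card_sdiff_of_subset hA]
    omega
  obtain ⟨B, hB, hBc⟩ := exists_subset_card_eq h1
  exact ⟨A, B, hA, hB.trans sdiff_subset, hc, hBc, fun a ha b hb => hlt a ha b (hB hb)⟩

end Pool.Agent.MPd266dbH
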