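import Pool.Agent.Lib.MP_d266db_co.H.SpecP

/-!
# MP_d266db_co, H: inserting a pair
-/

set_option autoImplicit false

namespace Pool.Agent.MPd266dbH

open Finset Pool.Agent.MPd266db

/-- before the first visit of `b` the two permutations agree -/
theorem ins_pow {n : ℕ} {g : Equiv.Perm (Fin n)} {x a b : Fin n} {m : ℕ}
    (hb : ∀ s < m, (g ^ s) a ≠ b) (hx : ∀ s < m, (g ^ s) a ≠ x) :
    ((g * Equiv.swap x b) ^ m) a = (g ^ m) a := by
  induction m with
  | zero => simp
  | succ m ih =>
    have h1 := ih (fun s hs => hb s (by omega)) (fun s hs => hx s (by omega))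
    rw [pow_succ', Equiv.Perm.mul_apply, h1, Equiv.Perm.mul_apply,
      Equiv.swap_apply_of_ne_of_ne (hx m (by omega)) (hb m (by omega)), pow_succ',
      Equiv.Perm.mul_apply]

theorem tIns (hMer : S_Mer) (hSpl : S_Spl) : S_Ins := by
  classical
  intro n g x a b m hab hb hx
  have hxa : x ≠ a := fun h => hx 0 (Nat.zero_le _) (by rw [pow_zero, Equiv.Perm.one_apply]; exact h.symm)
  have hxb : x ≠ b := fun h => hx m le_rfl (by rw [← hb]; exact h.symm)
  have hsab : g.SameCycle a b := ⟨m, by rw [zpow_natCast]; exact hb.symm⟩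
  by_cases hxbc : g.SameCycle x b
  · obtain ⟨c1, c2⟩ := hSpl n g x b hxb hxbc
    have hex : ∃ k, (g ^ k) a = b := ⟨m, hb.symm⟩
    have hk1 := Nat.find_spec hex
    have hk2 : Nat.find hex ≤ m := Nat.find_min' hex hb.symm
    have h3 : (g * Equiv.swap x b).SameCycle a b := by
      refine ⟨(Nat.find hex : ℕ), ?_⟩
      rw [zpow_natCast, ins_pow (fun s hs => Nat.find_min hex hs) (fun s hs => hx s (by omega))]
      exact hk1
    have h4 : ¬ (g * Equiv.swap x b).SameCycle x a := fun h => c2 (h.trans h3)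
    have h5 := (hMer n _ x a h4).1
    omega
  · obtain ⟨c1, c2⟩ := hMer n g x b hxbc
    have h3 : (g * Equiv.swap x b).SameCycle x a :=
      (c2 x a).2 (Or.inr ⟨Or.inl (Equiv.Perm.SameCycle.refl _ _), Or.inr hsab.symm⟩)
    have h5 := (hSpl n _ x a hxa h3).1
    omega

end Pool.Agent.MPd266dbH
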