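import Pool.Agent.Lib.MP_d266db_co.H.SpecP

/-!
# MP_d266db_co, H: inserting a pair from two cycles
-/

set_option autoImplicit false

namespace Pool.Agent.MPd266dbH

open Finset Pool.Agent.MPd266db

theorem tInsB (hMer : S_Mer) (hSpl : S_Spl) : S_InsB := by
  intro n g x a b hxa hxb hab
  have hup : cyc (g * Equiv.swap x b * Equiv.swap x a) ≤ cyc (g * Equiv.swap x b) + 1 := by
    by_cases h : (g * Equiv.swap x b).SameCycle x a
    · exact (hSpl n _ x a hxa h).1.le
    · have := (hMer n _ x a h).1
      omega
  by_cases h : g.SameCycle x b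
  · obtain ⟨c1, c2⟩ := hSpl n g x b hxb h
    have hback : g * Equiv.swap x b * Equiv.swap x b = g := by
      rw [mul_assoc, Equiv.swap_mul_self, mul_one]
    have h1 := hMer n _ x b c2
    rw [hback] at h1
    have h2 : ¬ (g * Equiv.swap x b).SameCycle x a := by
      intro h3
      have h4 : g.SameCycle x a := (h1.2 x a).2 (Or.inl h3)
      exact hab (h4.symm.trans h)
    have h3 := (hMer n _ x a h2).1
    omega
  · have := (hMer n g x b h).1
    omega

end Pool.Agent.MPd266dbH
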