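import Pool.Agent.Lib.MP_d266db_co.H.SpecF

/-!
# MP_d266db_co, H: the iteration (`S_Itr`)
-/

set_option autoImplicit false

namespace Pool.Agent.MPd266dbH

open Finset Pool.Agent.MPd266db

section itr_sec

variable {n : ℕ}

/-- exchange the arcs `(v, ρ v)` and `(v, σ v)` -/
private def itr_ex (S : Finset (Fin n × Fin n)) (ρ σ : Equiv.Perm (Fin n)) :
    Finset (Fin n × Fin n) :=
  univ.filter (fun e => (e.1, Equiv.swap (ρ e.1) (σ e.1) e.2) ∈ S)

private theorem itr_mem {S : Finset (Fin n × Fin n)} {ρ σ : Equiv.Perm (Fin n)} {v w : Fin n} :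
    (v, w) ∈ itr_ex S ρ σ ↔ (v, Equiv.swap (ρ v) (σ v) w) ∈ S := by
  simp [itr_ex]

/-- membership, in words -/
private theorem itr_mem' {S : Finset (Fin n × Fin n)} {ρ σ : Equiv.Perm (Fin n)}
    (h1 : ∀ v, (v, σ v) ∉ S) (h2 : ∀ v, ρ v = σ v ∨ (v, ρ v) ∈ S) {v w : Fin n} :
    (v, w) ∈ itr_ex S ρ σ ↔ ((v, w) ∈ S ∧ w ≠ ρ v) ∨ (w = σ v ∧ ρ v ≠ σ v) := by
  rw [itr_mem]
  by_cases hr : w = ρ v
  · subst hr
    rw [Equiv.swap_apply_left]
    constructor
    · intro h; exact absurd h (h1 v)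
    · rintro (⟨_, h⟩ | ⟨h, h'⟩)
      · exact absurd rfl h
      · exact absurd h h'
  · by_cases hs : w = σ v
    · subst hs
      rw [Equiv.swap_apply_right]
      constructor
      · intro _; exact Or.inr ⟨rfl, fun h => hr h.symm⟩
      · intro _
        rcases h2 v with h | h
        · exact absurd h.symm hr
        · exact h
    · rw [Equiv.swap_apply_of_ne_of_ne hr hs]
      constructor
      · intro h; exact Or.inl ⟨h, hr⟩
      · rintro (⟨h, _⟩ | ⟨h, _⟩)
        · exact h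
        · exact absurd h hs

/-- the same seen from the heads -/
private theorem itr_mem_head {S : Finset (Fin n × Fin n)} {ρ σ : Equiv.Perm (Fin n)}
    (h1 : ∀ v, (v, σ v) ∉ S) (h2 : ∀ v, ρ v = σ v ∨ (v, ρ v) ∈ S) {v w : Fin n} :
    (v, w) ∈ itr_ex S ρ σ ↔ (Equiv.swap (ρ.symm w) (σ.symm w) v, w) ∈ S := by
  rw [itr_mem' h1 h2]
  by_cases hr : v = ρ.symm w
  · have hw : ρ v = w := by rw [hr]; simp
    rw [← hr, Equiv.swap_apply_left]
    have h3 : (σ.symm w, w) ∉ S := by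
      have := h1 (σ.symm w)
      simpa using this
    constructor
    · rintro (⟨_, h⟩ | ⟨h, h'⟩)
      · exact absurd hw.symm h
      · exact absurd (hw.trans h) h'
    · intro h; exact absurd h h3
  · have hr' : w ≠ ρ v := by
      intro h; apply hr; rw [h]; simp
    by_cases hs : v = σ.symm w
    · have hw : σ v = w := by rw [hs]; simp
      have h4 : (ρ.symm w, w) ∈ S := by
        rcases h2 (ρ.symm w) with h | h
        · exfalso
          apply hr
          rw [hs]
          have h5 : ρ (ρ.symm w) = w := by simp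
          rw [h5] at h
          rw [Equiv.symm_apply_eq]
          exact h
        · simpa using h
      rw [← hs, Equiv.swap_apply_right]
      constructor
      · intro _; exact h4
      · intro _
        exact Or.inr ⟨hw.symm, fun h => hr' (by rw [h, hw])⟩
    · have hs' : w ≠ σ v := by
        intro h; apply hs; rw [h]; simp
      rw [Equiv.swap_apply_of_ne_of_ne hr hs]
      constructor
      · rintro (⟨h, _⟩ | ⟨h, _⟩)
        · exact h
        · exact absurd h hs'
      · intro h; exact Or.inl ⟨h, hr'⟩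

private theorem itr_od (S : Finset (Fin n × Fin n)) (ρ σ : Equiv.Perm (Fin n)) (v : Fin n) :
    od (itr_ex S ρ σ) v = od S v := by
  unfold od
  refine Finset.card_bij' (fun e _ => (e.1, Equiv.swap (ρ v) (σ v) e.2))
    (fun e _ => (e.1, Equiv.swap (ρ v) (σ v) e.2)) ?_ ?_ ?_ ?_
  · rintro ⟨a, b⟩ h
    simp only [mem_filter, itr_mem] at h ⊢
    obtain ⟨h, rfl⟩ := h
    exact ⟨h, rfl⟩
  · rintro ⟨a, b⟩ h
    simp only [mem_filter, itr_mem] at h ⊢
    obtain ⟨h, rfl⟩ := h
    refine ⟨?_, rfl⟩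
    rw [Equiv.swap_apply_self]
    exact h
  · rintro ⟨a, b⟩ _
    simp
  · rintro ⟨a, b⟩ _
    simp

private theorem itr_idg {S : Finset (Fin n × Fin n)} {ρ σ : Equiv.Perm (Fin n)}
    (h1 : ∀ v, (v, σ v) ∉ S) (h2 : ∀ v, ρ v = σ v ∨ (v, ρ v) ∈ S) (w : Fin n) :
    idg (itr_ex S ρ σ) w = idg S w := by
  unfold idg
  refine Finset.card_bij' (fun e _ => (Equiv.swap (ρ.symm w) (σ.symm w) e.1, e.2))
    (fun e _ => (Equiv.swap (ρ.symm w) (σ.symm w) e.1, e.2)) ?_ ?_ ?_ ?_
  · rintro ⟨a, b⟩ h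
    simp only [mem_filter, itr_mem_head h1 h2] at h ⊢
    obtain ⟨h, rfl⟩ := h
    exact ⟨h, rfl⟩
  · rintro ⟨a, b⟩ h
    simp only [mem_filter, itr_mem_head h1 h2] at h ⊢
    obtain ⟨h, rfl⟩ := h
    refine ⟨?_, rfl⟩
    rw [Equiv.swap_apply_self]
    exact h
  · rintro ⟨a, b⟩ _
    simp
  · rintro ⟨a, b⟩ _
    simp

private theorem itr_eb {S T : Finset (Fin n × Fin n)} {X Y X' Y' : Finset (Fin n)}
    (hX : Disjoint X X') :
    eb S X Y + eb S X' Y' ≤ eb T X Y + eb T X' Y' + (S \ T).card := by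
  classical
  have hA : ∀ A B : Finset (Fin n), eb S A B ≤ eb T A B +
      ((S \ T).filter (fun e => e.1 ∈ A ∧ e.2 ∈ B)).card := by
    intro A B
    unfold eb
    refine le_trans (Finset.card_le_card (t := T.filter (fun e => e.1 ∈ A ∧ e.2 ∈ B) ∪
      (S \ T).filter (fun e => e.1 ∈ A ∧ e.2 ∈ B)) ?_) (Finset.card_union_le _ _)
    intro e he
    rw [mem_filter] at he
    rw [mem_union, mem_filter, mem_filter, mem_sdiff]
    by_cases h : e ∈ T
    · exact Or.inl ⟨h, he.2⟩
    · exact Or.inr ⟨⟨he.1, h⟩, he.2⟩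
  have hB : ((S \ T).filter (fun e => e.1 ∈ X ∧ e.2 ∈ Y)).card +
      ((S \ T).filter (fun e => e.1 ∈ X' ∧ e.2 ∈ Y')).card ≤ (S \ T).card := by
    rw [← Finset.card_union_of_disjoint]
    · refine Finset.card_le_card ?_
      intro e he
      rw [mem_union, mem_filter, mem_filter] at he
      rcases he with h | h
      · exact h.1
      · exact h.1
    · rw [Finset.disjoint_left]
      intro e he he'
      rw [mem_filter] at he he'
      exact (Finset.disjoint_left.mp hX) he.2.1 he'.2.1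
  have h1 := hA X Y
  have h2 := hA X' Y'
  omega

/-- the state after `q` steps -/
private structure itr_P {K t : ℕ} (o i : Fin n → Fin K) (S : Finset (Fin n × Fin n)) (κ : ℝ)
    (σ : Fin t → Equiv.Perm (Fin n)) (q : ℕ) (Sq : Finset (Fin n × Fin n))
    (τ : Fin t → Equiv.Perm (Fin n)) : Prop where
  own : ∀ e ∈ Sq, o e.1 = i e.2
  od : ∀ v, Pool.Agent.MPd266db.od Sq v = Pool.Agent.MPd266db.od S v
  idg : ∀ v, Pool.Agent.MPd266db.idg Sq v = Pool.Agent.MPd266db.idg S v
  cd : ((S \ Sq).card : ℝ) ≤ q * (κ * n)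
  sub : ∀ v w, (v, w) ∈ Sq → (v, w) ∈ S ∨ ∃ j, w = σ j v
  nt : ∀ j : Fin t, j.val < q → ∀ v, (v, τ j v) ∉ Sq
  ns : ∀ j : Fin t, q ≤ j.val → ∀ v, (v, σ j v) ∉ Sq
  cyc : ∀ j : Fin t, j.val < q → ∀ v w, (τ j).SameCycle v w
  arc : ∀ j : Fin t, j.val < q → ∀ v, (v, τ j v) ∈ S ∨ ∃ j', τ j v = σ j' v
  tt : ∀ j j' : Fin t, j.val < q → j'.val < q → j ≠ j' → ∀ v, τ j v ≠ τ j' v
  ts : ∀ j j' : Fin t, j.val < q → q ≤ j'.val → ∀ v, τ j v ≠ σ j' v

private theorem itr_mhyp {K t : ℕ} {o i : Fin n → Fin K} {S : Finset (Fin n × Fin n)}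
    {θ ρ g β ν κ : ℝ} {σ : Fin t → Equiv.Perm (Fin n)} {q : ℕ} {Sq : Finset (Fin n × Fin n)}
    {τ : Fin t → Equiv.Perm (Fin n)} (hq : q ≤ n) (hκ : 0 ≤ κ) (hν : 2 * κ ≤ ν)
    (hM : MHyp S o i θ ρ g β ν) (h : itr_P o i S κ σ q Sq τ) : MHyp Sq o i θ ρ g β (ν / 2) where
  own := h.own
  odl := fun v => by rw [h.od v]; exact hM.odl v
  idl := fun v => by rw [h.idg v]; exact hM.idl v
  nr := by
    have h1 : od Sq = od S := funext h.od
    have h2 : idg Sq = idg S := funext h.idg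
    have h3 := hM.nr
    unfold Nr at h3 ⊢
    rw [h1, h2]
    exact h3
  rge := hM.rge
  rle := hM.rle
  rob := by
    intro a X Y hX hY h1 h2
    have h3 := hM.rob a X Y hX hY h1 h2
    have h4 : eb S X Y + eb S (Cl o a \ X) (Cl i a \ Y) ≤
        eb Sq X Y + eb Sq (Cl o a \ X) (Cl i a \ Y) + (S \ Sq).card :=
      itr_eb Finset.disjoint_sdiff
    have h5 : ((eb S X Y : ℝ) + eb S (Cl o a \ X) (Cl i a \ Y)) ≤
        (eb Sq X Y : ℝ) + eb Sq (Cl o a \ X) (Cl i a \ Y) + (S \ Sq).card := by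
      exact_mod_cast h4
    have h6 := h.cd
    have h7 : (q : ℝ) * (κ * n) ≤ n * (κ * n) := by
      apply mul_le_mul_of_nonneg_right
      · exact_mod_cast hq
      · positivity
    have h8 : (n : ℝ) * (κ * n) ≤ ν / 2 * (n : ℝ) ^ 2 := by
      have : 0 ≤ (ν / 2 - κ) * (n : ℝ) ^ 2 := by
        apply mul_nonneg
        · linarith
        · positivity
      nlinarith [this]
    nlinarith [h3, h5, h6, h7, h8]

private theorem itr_step {K t : ℕ} {o i : Fin n → Fin K} {S : Finset (Fin n × Fin n)}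
    {θ ρ g β ν κ : ℝ} {σ : Fin t → Equiv.Perm (Fin n)} {q : ℕ} {Sq : Finset (Fin n × Fin n)}
    {τ : Fin t → Equiv.Perm (Fin n)} (hq : q < t) (ht : t ≤ n) (hκ : 0 ≤ κ) (hν : 2 * κ ≤ ν)
    (hM : MHyp S o i θ ρ g β ν) (hdis : ∀ j j', j ≠ j' → ∀ v, σ j v ≠ σ j' v)
    (hmrg : ∀ S' : Finset (Fin n × Fin n), MHyp S' o i θ ρ g β (ν / 2) → ∀ j,
      MrgOK o i S' (σ j) κ) (h : itr_P o i S κ σ q Sq τ) :
    ∃ (Sq' : Finset (Fin n × Fin n)) (τ' : Fin t → Equiv.Perm (Fin n)),
      itr_P o i S κ σ (q + 1) Sq' τ' := by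
  classical
  obtain ⟨r, hcyc, hr, hcr, hcard⟩ :=
    hmrg Sq (itr_mhyp (by omega) hκ hν hM h) ⟨q, hq⟩
  set s : Equiv.Perm (Fin n) := σ ⟨q, hq⟩ with hs
  have h1 : ∀ v, (v, s v) ∉ Sq := h.ns ⟨q, hq⟩ (le_refl q)
  have hmem : ∀ {v w : Fin n}, (v, w) ∈ itr_ex Sq r s ↔
      ((v, w) ∈ Sq ∧ w ≠ r v) ∨ (w = s v ∧ r v ≠ s v) := itr_mem' h1 hr
  have hτ : ∀ j : Fin t, j.val < q → Function.update τ ⟨q, hq⟩ r j = τ j := by
    intro j hj
    apply Function.update_of_ne
    intro h'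
    rw [h'] at hj
    exact absurd hj (lt_irrefl q)
  have hτq : Function.update τ ⟨q, hq⟩ r ⟨q, hq⟩ = r := Function.update_self _ _ _
  have hcase : ∀ j : Fin t, j.val < q + 1 → j.val < q ∨ j = ⟨q, hq⟩ := by
    intro j hj
    rcases Nat.lt_or_ge j.val q with h' | h'
    · exact Or.inl h'
    · exact Or.inr (Fin.ext (by simpa using le_antisymm (Nat.lt_succ_iff.mp hj) h'))
  refine ⟨itr_ex Sq r s, Function.update τ ⟨q, hq⟩ r, ?_⟩
  constructor
  · rintro ⟨v, w⟩ hvw
    rcases hmem.mp hvw with ⟨h2, _⟩ | ⟨h2, h3⟩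
    · exact h.own _ h2
    · change o v = i w
      rw [h2]
      by_contra h4
      exact h3 (hcr v h4)
  · intro v
    rw [itr_od, h.od]
  · intro v
    rw [itr_idg h1 hr, h.idg]
  · have h2 : S \ itr_ex Sq r s ⊆ (S \ Sq) ∪
        (univ.filter (fun v => r v ≠ s v)).image (fun v => (v, r v)) := by
      rintro ⟨v, w⟩ hvw
      rw [mem_sdiff] at hvw
      rw [mem_union, mem_sdiff, mem_image]
      by_cases h3 : (v, w) ∈ Sq
      · right
        have h4 : w = r v := by
          by_contra h5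
          exact hvw.2 (hmem.mpr (Or.inl ⟨h3, h5⟩))
        refine ⟨v, ?_, ?_⟩
        · rw [mem_filter]
          refine ⟨mem_univ _, fun h5 => h1 v ?_⟩
          rw [← h5, ← h4]
          exact h3
        · rw [h4]
      · left
        exact ⟨hvw.1, h3⟩
    have h3 : (S \ itr_ex Sq r s).card ≤ (S \ Sq).card +
        (univ.filter (fun v => r v ≠ s v)).card :=
      (Finset.card_le_card h2).trans ((Finset.card_union_le _ _).trans
        (Nat.add_le_add_left Finset.card_image_le _))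
    have h4 : ((S \ itr_ex Sq r s).card : ℝ) ≤ ((S \ Sq).card : ℝ) +
        (univ.filter (fun v => r v ≠ s v)).card := by
      exact_mod_cast h3
    have h5 := h.cd
    push_cast
    nlinarith [h4, h5, hcard]
  · intro v w hvw
    rcases hmem.mp hvw with ⟨h2, _⟩ | ⟨h2, h3⟩
    · exact h.sub v w h2
    · exact Or.inr ⟨⟨q, hq⟩, h2⟩
  · intro j hj v hv
    rcases hcase j hj with h2 | h2
    · rw [hτ j h2] at hv
      rcases hmem.mp hv with ⟨h3, _⟩ | ⟨h3, _⟩
      · exact h.nt j h2 v h3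
      · exact h.ts j ⟨q, hq⟩ h2 (le_refl q) v h3
    · rw [h2, hτq] at hv
      rcases hmem.mp hv with ⟨_, h3⟩ | ⟨h3, h4⟩
      · exact h3 rfl
      · exact h4 h3
  · intro j hj v hv
    rcases hmem.mp hv with ⟨h3, _⟩ | ⟨h3, _⟩
    · exact h.ns j (by omega) v h3
    · refine hdis j ⟨q, hq⟩ ?_ v h3
      intro h4
      rw [h4] at hj
      exact absurd hj (by simp)
  · intro j hj v w
    rcases hcase j hj with h2 | h2
    · rw [hτ j h2]
      exact h.cyc j h2 v w
    · rw [h2, hτq]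
      exact hcyc v w
  · intro j hj v
    rcases hcase j hj with h2 | h2
    · rw [hτ j h2]
      exact h.arc j h2 v
    · rw [h2, hτq]
      rcases hr v with h3 | h3
      · exact Or.inr ⟨⟨q, hq⟩, h3⟩
      · exact h.sub v (r v) h3
  · have hnew : ∀ j : Fin t, j.val < q → ∀ v, τ j v ≠ r v := by
      intro j hj v h3
      rcases hr v with h4 | h4
      · exact h.ts j ⟨q, hq⟩ hj (le_refl q) v (h3.trans h4)
      · apply h.nt j hj v
        rw [h3]
        exact h4
    intro j j' hj hj' hne v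
    rcases hcase j hj with h2 | h2
    · rcases hcase j' hj' with h3 | h3
      · rw [hτ j h2, hτ j' h3]
        exact h.tt j j' h2 h3 hne v
      · rw [hτ j h2, h3, hτq]
        exact hnew j h2 v
    · rcases hcase j' hj' with h3 | h3
      · rw [hτ j' h3, h2, hτq]
        exact fun h4 => hnew j' h3 v h4.symm
      · exact absurd (h2.trans h3.symm) hne
  · intro j j' hj hj' v
    rcases hcase j hj with h2 | h2
    · rw [hτ j h2]
      exact h.ts j j' h2 (by omega) v
    · rw [h2, hτq]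
      intro h3
      rcases hr v with h4 | h4
      · refine hdis ⟨q, hq⟩ j' ?_ v (h4.symm.trans h3)
        intro h5
        rw [← h5] at hj'
        exact absurd hj' (by simp)
      · apply h.ns j' (by omega) v
        rw [← h3]
        exact h4

end itr_sec

/-- **The iteration.** -/
theorem tItr : S_Itr := by
  intro n K t o i S θ ρ g β ν κ σ ht hκ hν hM hσS hdis hmrg
  have key : ∀ q : ℕ, q ≤ t → ∃ (Sq : Finset (Fin n × Fin n)) (τ : Fin t → Equiv.Perm (Fin n)),
      itr_P o i S κ σ q Sq τ := by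
    intro q
    induction q with
    | zero =>
      intro _
      refine ⟨S, σ, ?_⟩
      constructor
      · exact hM.own
      · intro v; rfl
      · intro v; rfl
      · simp
      · intro v w h; exact Or.inl h
      · intro j hj; exact absurd hj (Nat.not_lt_zero _)
      · intro j _ v; exact hσS j v
      · intro j hj; exact absurd hj (Nat.not_lt_zero _)
      · intro j hj; exact absurd hj (Nat.not_lt_zero _)
      · intro j j' hj; exact absurd hj (Nat.not_lt_zero _)
      · intro j j' hj; exact absurd hj (Nat.not_lt_zero _)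
    | succ q ih =>
      intro hq
      obtain ⟨Sq, τ, h⟩ := ih (by omega)
      exact itr_step (by omega) ht hκ hν hM hdis hmrg h
  obtain ⟨Sq, τ, h⟩ := key t (le_refl t)
  refine ⟨τ, fun j => h.cyc j j.isLt, fun j j' hne => h.tt j j' j.isLt j'.isLt hne,
    fun j v => h.arc j j.isLt v⟩

end Pool.Agent.MPd266dbH
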