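import Pool.Agent.Lib.MP_d266db_co.H.SpecP

/-!
# MP_d266db_co, H, Lay: paths through layers without large holes (helper86)
-/

set_option autoImplicit false

namespace Pool.Agent.MPd266dbH

open Finset Pool.Agent.MPd266db

theorem tLay : S_Lay := by
  classical
  intro n m h Λ R hh hcard hR
  have key : ∀ j ≤ m, h ≤ (univ.filter (fun y : Fin n => ∃ x : ℕ → Fin n,
      (∀ i ≤ j, x i ∈ Λ i) ∧ (∀ i < j, R i (x i) (x (i + 1))) ∧ x j = y)).card := by
    intro j
    induction j with
    | zero =>
      intro _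
      have h1 := hcard 0 (Nat.zero_le _)
      have h2 : Λ 0 ⊆ univ.filter (fun y : Fin n => ∃ x : ℕ → Fin n,
          (∀ i ≤ 0, x i ∈ Λ i) ∧ (∀ i < 0, R i (x i) (x (i + 1))) ∧ x 0 = y) := by
        intro y hy
        rw [mem_filter]
        refine ⟨mem_univ _, fun _ => y, fun i hi => ?_, fun i hi => absurd hi (Nat.not_lt_zero _),
          rfl⟩
        rw [Nat.le_zero.1 hi]
        exact hy
      have h3 := card_le_card h2
      omega
    | succ j ih =>
      intro hj
      have ih' := ih (by omega)
      set S1 := univ.filter (fun y : Fin n => ∃ x : ℕ → Fin n,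
        (∀ i ≤ j, x i ∈ Λ i) ∧ (∀ i < j, R i (x i) (x (i + 1))) ∧ x j = y) with hS1
      set S2 := univ.filter (fun y : Fin n => ∃ x : ℕ → Fin n,
        (∀ i ≤ j + 1, x i ∈ Λ i) ∧ (∀ i < j + 1, R i (x i) (x (i + 1))) ∧ x (j + 1) = y) with hS2
      by_contra hcon
      push Not at hcon
      have h1 := hcard (j + 1) hj
      have h2 : h ≤ (Λ (j + 1) \ S2).card := by
        have h3 := le_card_sdiff S2 (Λ (j + 1))
        omega
      have hS1Λ : S1 ⊆ Λ j := by
        intro y hy
        rw [hS1, mem_filter] at hy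
        obtain ⟨-, x, hx1, -, rfl⟩ := hy
        exact hx1 j le_rfl
      obtain ⟨a, ha, b, hb, hab⟩ := hR j (by omega) S1 (Λ (j + 1) \ S2) hS1Λ sdiff_subset ih' h2
      obtain ⟨hb1, hb2⟩ := mem_sdiff.1 hb
      apply hb2
      rw [hS1, mem_filter] at ha
      obtain ⟨-, x, hx1, hx2, hx3⟩ := ha
      rw [hS2, mem_filter]
      refine ⟨mem_univ _, Function.update x (j + 1) b, fun i hi => ?_, fun i hi => ?_, ?_⟩
      · by_cases hij : i = j + 1
        · rw [hij, Function.update_self]
          exact hb1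
        · rw [Function.update_of_ne hij]
          exact hx1 i (by omega)
      · rw [Function.update_of_ne (by omega : i ≠ j + 1)]
        by_cases hij : i = j
        · rw [hij, Function.update_self, hx3]
          exact hab
        · rw [Function.update_of_ne (by omega : i + 1 ≠ j + 1)]
          exact hx2 i (by omega)
      · rw [Function.update_self]
  have hk := key m le_rfl
  have hne : (univ.filter (fun y : Fin n => ∃ x : ℕ → Fin n,
      (∀ i ≤ m, x i ∈ Λ i) ∧ (∀ i < m, R i (x i) (x (i + 1))) ∧ x m = y)).Nonempty := by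
    rw [← card_pos]
    omega
  obtain ⟨y, hy⟩ := hne
  rw [mem_filter] at hy
  obtain ⟨-, x, hx1, hx2, -⟩ := hy
  exact ⟨x, hx1, hx2⟩

end Pool.Agent.MPd266dbH
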