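import Pool.Agent.Lib.MP_d266db_co.H.SpecC

/-!
# MP_d266db_co, H: links between the classes
-/

set_option autoImplicit false

namespace Pool.Agent.MPd266dbH

open Finset Pool.Agent.MPd266db

theorem tLnC : S_LnC := by
  classical
  intro n K R o i α η γ lam hα hη hγ hlam hsmall hcut hcrs hcl J hJ hJu
  by_contra hcon
  push Not at hcon
  obtain ⟨a0, ha0⟩ := hJ
  obtain ⟨b0, hb0⟩ : ∃ b0, b0 ∉ J := by
    by_contra h
    push Not at h
    exact hJu (Finset.eq_univ_iff_forall.2 h)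
  have hn : 0 < (n : ℝ) := by
    have h1 := hcon a0 ha0 b0 hb0
    have h2 : (0 : ℝ) ≤ (Cl o b0 ∩ Cl i a0).card := Nat.cast_nonneg _
    by_contra hc
    have h3 : (n : ℝ) = 0 := le_antisymm (not_lt.1 hc) (Nat.cast_nonneg _)
    rw [h3, mul_zero] at h1
    linarith
  set W : Finset (Fin n) := ClU o J with hW
  -- the exceptional vertices
  set V : Finset (Fin n) := univ.filter (fun y => o y ∉ J ∧ i y ∈ J) with hV
  have hVsub : V ⊆ (J ×ˢ Jᶜ).biUnion (fun p => Cl o p.2 ∩ Cl i p.1) := by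
    intro y hy
    have hy' := (Finset.mem_filter.1 hy).2
    rw [Finset.mem_biUnion]
    refine ⟨(i y, o y), Finset.mem_product.2 ⟨hy'.2, Finset.mem_compl.2 hy'.1⟩, ?_⟩
    simp [Cl]
  have hVcard : (V.card : ℝ) ≤ (K : ℝ) ^ 2 * (lam * n) := by
    have h1 : V.card ≤ ∑ p ∈ J ×ˢ Jᶜ, (Cl o p.2 ∩ Cl i p.1).card :=
      (Finset.card_le_card hVsub).trans Finset.card_biUnion_le
    have h2 : (V.card : ℝ) ≤ ∑ p ∈ J ×ˢ Jᶜ, ((Cl o p.2 ∩ Cl i p.1).card : ℝ) := by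
      exact_mod_cast h1
    have h3 : ∑ p ∈ J ×ˢ Jᶜ, ((Cl o p.2 ∩ Cl i p.1).card : ℝ) ≤ ∑ p ∈ J ×ˢ Jᶜ, lam * n := by
      refine Finset.sum_le_sum fun p hp => ?_
      have hp' := Finset.mem_product.1 hp
      exact (hcon p.1 hp'.1 p.2 (Finset.mem_compl.1 hp'.2)).le
    have h4 : ∑ p ∈ J ×ˢ Jᶜ, lam * (n : ℝ) = ((J ×ˢ Jᶜ).card : ℝ) * (lam * n) := by
      rw [Finset.sum_const, nsmul_eq_mul]
    have h5 : ((J ×ˢ Jᶜ).card : ℝ) ≤ (K : ℝ) ^ 2 := by
      have h6 : (J ×ˢ Jᶜ).card ≤ K ^ 2 := by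
        rw [Finset.card_product, pow_two]
        have e1 : J.card ≤ K := (Finset.card_le_univ J).trans (by simp)
        have e2 : Jᶜ.card ≤ K := (Finset.card_le_univ Jᶜ).trans (by simp)
        exact Nat.mul_le_mul e1 e2
      exact_mod_cast h6
    have h7 : ((J ×ˢ Jᶜ).card : ℝ) * (lam * n) ≤ (K : ℝ) ^ 2 * (lam * n) :=
      mul_le_mul_of_nonneg_right h5 (mul_nonneg hlam hn.le)
    linarith
  -- the arcs from `W` to its complement
  have hsub : R.filter (fun e => e.1 ∈ W ∧ e.2 ∈ Wᶜ) ⊆ (univ ×ˢ V) ∪ crs o i R := by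
    rintro ⟨x, y⟩ he
    obtain ⟨heR, hx, hy⟩ := Finset.mem_filter.1 he
    have hx' : o x ∈ J := (Finset.mem_filter.1 hx).2
    have hy' : o y ∉ J := fun h => (Finset.mem_compl.1 hy) (Finset.mem_filter.2 ⟨mem_univ _, h⟩)
    rw [Finset.mem_union]
    by_cases hi : i y ∈ J
    · left
      exact Finset.mem_product.2 ⟨mem_univ _, Finset.mem_filter.2 ⟨mem_univ _, hy', hi⟩⟩
    · right
      refine Finset.mem_filter.2 ⟨heR, ?_⟩
      intro h
      have h' : o x = i y := h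
      exact hi (h' ▸ hx')
  have heb : (eb R W Wᶜ : ℝ) ≤ n * ((K : ℝ) ^ 2 * (lam * n)) + γ * (n : ℝ) ^ 2 := by
    have h1 : eb R W Wᶜ ≤ n * V.card + (crs o i R).card := by
      have h2 := (Finset.card_le_card hsub).trans (Finset.card_union_le _ _)
      rw [Finset.card_product, Finset.card_univ, Fintype.card_fin] at h2
      exact h2
    have h2 : (eb R W Wᶜ : ℝ) ≤ n * V.card + (crs o i R).card := by exact_mod_cast h1
    have h3 : (n : ℝ) * V.card ≤ n * ((K : ℝ) ^ 2 * (lam * n)) :=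
      mul_le_mul_of_nonneg_left hVcard hn.le
    linarith
  have hW1 : α * n / 2 ≤ (W.card : ℝ) := by
    have h1 : Cl o a0 ⊆ W := by
      intro x hx
      exact Finset.mem_filter.2 ⟨mem_univ _, by rw [(Finset.mem_filter.1 hx).2]; exact ha0⟩
    have h2 : ((Cl o a0).card : ℝ) ≤ W.card := by exact_mod_cast Finset.card_le_card h1
    have h3 := hcl a0
    linarith
  have hW2 : α * n / 2 ≤ (Wᶜ.card : ℝ) := by
    have h1 : Cl o b0 ⊆ Wᶜ := by
      intro x hx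
      rw [Finset.mem_compl]
      intro hx'
      have h2 := (Finset.mem_filter.1 hx').2
      rw [(Finset.mem_filter.1 hx).2] at h2
      exact hb0 h2
    have h2 : ((Cl o b0).card : ℝ) ≤ Wᶜ.card := by exact_mod_cast Finset.card_le_card h1
    have h3 := hcl b0
    linarith
  have h0 : 0 ≤ α * n / 2 := by positivity
  have h1 : (α * n / 2) * (α * n / 2) ≤ (W.card : ℝ) * Wᶜ.card :=
    mul_le_mul hW1 hW2 h0 (Nat.cast_nonneg _)
  have h2 : η * ((α * n / 2) * (α * n / 2)) ≤ η * ((W.card : ℝ) * Wᶜ.card) :=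
    mul_le_mul_of_nonneg_left h1 hη.le
  have h3 := hcut W
  have h4 : (η * α ^ 2 / 4) * (n : ℝ) ^ 2 ≤ ((K : ℝ) ^ 2 * lam + γ) * (n : ℝ) ^ 2 := by
    nlinarith [h2, h3, heb]
  have h5 : ((K : ℝ) ^ 2 * lam + γ) * (n : ℝ) ^ 2 < (η * α ^ 2 / 4) * (n : ℝ) ^ 2 :=
    mul_lt_mul_of_pos_right hsmall (by positivity)
  linarith

end Pool.Agent.MPd266dbH
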