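import Pool.Agent.Lib.MP_d266db_co.H.SpecM

/-!
# MP_d266db_co, H: linking the classes
-/

set_option autoImplicit false

namespace Pool.Agent.MPd266dbH

open Finset Pool.Agent.MPd266db

theorem tLnk : S_Lnk := by
  classical
  intro n K o i ρ g h1 h2 h3 h4 v w
  obtain ⟨v0, hv0, hown0⟩ := h2 v
  set J : Finset (Fin K) := univ.filter (fun a => ∃ u, ρ.SameCycle v0 u ∧ o u = a ∧ o u = i (ρ u))
    with hJ
  have memJ : ∀ a, a ∈ J ↔ ∃ u, ρ.SameCycle v0 u ∧ o u = a ∧ o u = i (ρ u) := by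
    intro a
    rw [hJ, mem_filter]
    exact ⟨fun h => h.2, fun h => ⟨mem_univ _, h⟩⟩
  -- good vertices
  have hgood : ∀ B : Finset (Fin n), 2 * g < B.card →
      ∃ z ∈ B, o z = i (ρ z) ∧ o (ρ⁻¹ z) = i z := by
    intro B hB
    by_contra hcon
    push Not at hcon
    have hsub : B ⊆ univ.filter (fun v => o v ≠ i (ρ v)) ∪
        (univ.filter (fun v => o v ≠ i (ρ v))).image ρ := by
      intro z hz
      rw [mem_union]
      by_cases hz1 : o z = i (ρ z)
      · right
        rw [mem_image]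
        refine ⟨ρ⁻¹ z, ?_, by simp⟩
        rw [mem_filter]
        exact ⟨mem_univ _, by simpa using hcon z hz hz1⟩
      · left
        exact mem_filter.2 ⟨mem_univ _, hz1⟩
    have h5 := card_le_card hsub
    have h6 := card_union_le (univ.filter (fun v => o v ≠ i (ρ v)))
      ((univ.filter (fun v => o v ≠ i (ρ v))).image ρ)
    have h7 : ((univ.filter (fun v => o v ≠ i (ρ v))).image ρ).card ≤
      (univ.filter (fun v => o v ≠ i (ρ v))).card := card_image_le
    omega
  have hJu : J = univ := by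
    by_contra hne
    obtain ⟨a, ha, b, hb, hab⟩ := h4 J ⟨o v0, (memJ _).2 ⟨v0, Equiv.Perm.SameCycle.refl _ _, rfl,
      hown0⟩⟩ hne
    obtain ⟨u, hu, hua, huo⟩ := (memJ a).1 ha
    rcases hab with hab | hab
    · obtain ⟨z, hz, hz1, hz2⟩ := hgood _ hab
      rw [mem_inter] at hz
      have hza : o z = a := (mem_filter.1 hz.1).2
      have hzb : i z = b := (mem_filter.1 hz.2).2
      have h5 : ρ.SameCycle v0 z := hu.trans (h1 u z huo hz1 (by rw [hua, hza]))
      refine hb ((memJ b).2 ⟨ρ⁻¹ z, ?_, ?_, ?_⟩)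
      · exact (Equiv.Perm.sameCycle_symm_apply_right (f := ρ)).2 h5
      · rw [hz2, hzb]
      · simpa using hz2
    · obtain ⟨z, hz, hz1, hz2⟩ := hgood _ hab
      rw [mem_inter] at hz
      have hzb : o z = b := (mem_filter.1 hz.1).2
      have hza : i z = a := (mem_filter.1 hz.2).2
      have h6 : o (ρ⁻¹ z) = i (ρ (ρ⁻¹ z)) := by simpa using hz2
      have h5 : ρ.SameCycle v0 (ρ⁻¹ z) := hu.trans (h1 u (ρ⁻¹ z) huo h6 (by rw [hua, hz2, hza]))
      refine hb ((memJ b).2 ⟨z, ?_, hzb, hz1⟩)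
      exact (Equiv.Perm.sameCycle_symm_apply_right (f := ρ)).1 h5
  obtain ⟨w', hw', how'⟩ := h2 w
  obtain ⟨u, hu, hua, huo⟩ := (memJ (o w')).1 (by rw [hJu]; exact mem_univ _)
  exact hv0.trans (hu.trans ((h1 u w' huo how' hua).trans hw'.symm))

end Pool.Agent.MPd266dbH
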