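import Pool.Agent.Lib.MP_d266db_co.H.SpecC

/-!
# MP_d266db_co, H: the weighted cut inequality (helper18)
-/

set_option autoImplicit false

namespace Pool.Agent.MPd266dbH

open Finset Pool.Agent.MPd266db

section

variable {n K : ℕ}

theorem low_mem {o : Fin n → Fin K} {J : Finset (Fin K)} {v : Fin n} : v ∈ ClU o J ↔ o v ∈ J := by
  simp [ClU]

theorem low_memC {o : Fin n → Fin K} {a : Fin K} {v : Fin n} : v ∈ Cl o a ↔ o v = a := by
  simp [Cl]

theorem low_left (E : Finset (Fin n × Fin n)) (o : Fin n → Fin K) (J : Finset (Fin K))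
    (Y : Finset (Fin n)) : eb E (ClU o J) Y = ∑ a ∈ J, eb E (Cl o a) Y := by
  classical
  unfold eb
  rw [card_eq_sum_card_fiberwise (f := fun e : Fin n × Fin n => o e.1) (t := J)]
  · refine sum_congr rfl fun a ha => ?_
    congr 1
    ext e
    simp only [mem_filter, low_mem, low_memC]
    constructor
    · rintro ⟨⟨h1, _, h3⟩, h4⟩
      exact ⟨h1, h4, h3⟩
    · rintro ⟨h1, h2, h3⟩
      exact ⟨⟨h1, h2 ▸ ha, h3⟩, h2⟩
  · intro e he
    have he' := (mem_filter.1 (mem_coe.1 he)).2.1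
    exact mem_coe.2 (low_mem.1 he')

theorem low_right (E : Finset (Fin n × Fin n)) (i : Fin n → Fin K) (J : Finset (Fin K))
    (X : Finset (Fin n)) : eb E X (ClU i J) = ∑ b ∈ J, eb E X (Cl i b) := by
  classical
  unfold eb
  rw [card_eq_sum_card_fiberwise (f := fun e : Fin n × Fin n => i e.2) (t := J)]
  · refine sum_congr rfl fun a ha => ?_
    congr 1
    ext e
    simp only [mem_filter, low_mem, low_memC]
    constructor
    · rintro ⟨⟨h1, h2, _⟩, h4⟩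
      exact ⟨h1, h2, h4⟩
    · rintro ⟨h1, h2, h3⟩
      exact ⟨⟨h1, h2, h3 ▸ ha⟩, h3⟩
  · intro e he
    have he' := (mem_filter.1 (mem_coe.1 he)).2.2
    exact mem_coe.2 (low_mem.1 he')

theorem low_crs (R : Finset (Fin n × Fin n)) (o i : Fin n → Fin K) (J : Finset (Fin K)) :
    eb R (ClU o J) (ClU i Jᶜ) = eb (crs o i R) (ClU o J) (ClU i Jᶜ) := by
  classical
  unfold eb crs
  congr 1
  ext e
  simp only [mem_filter, low_mem, mem_compl]
  constructor
  · rintro ⟨h1, h2, h3⟩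
    exact ⟨⟨h1, fun h => h3 (h ▸ h2)⟩, h2, h3⟩
  · rintro ⟨⟨h1, _⟩, h2, h3⟩
    exact ⟨h1, h2, h3⟩

theorem low_card1 (o : Fin n → Fin K) (J : Finset (Fin K)) (X : Finset (Fin n)) :
    (ClU o J \ X).card ≤ ∑ a ∈ J, (Cl o a \ X).card := by
  classical
  refine le_trans (card_le_card ?_) card_biUnion_le
  intro v hv
  rw [mem_sdiff, low_mem] at hv
  exact mem_biUnion.2 ⟨o v, hv.1, mem_sdiff.2 ⟨low_memC.2 rfl, hv.2⟩⟩

theorem low_card2 (o : Fin n → Fin K) (J : Finset (Fin K)) (X : Finset (Fin n)) :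
    (X ∩ ClU o J).card ≤ ∑ a ∈ J, (X ∩ Cl o a).card := by
  classical
  refine le_trans (card_le_card ?_) card_biUnion_le
  intro v hv
  rw [mem_inter, low_mem] at hv
  exact mem_biUnion.2 ⟨o v, hv.2, mem_inter.2 ⟨hv.1, low_memC.2 rfl⟩⟩

/-- sum of two families of cardinalities -/
theorem low_sum {J : Finset (Fin K)} {f g : Fin K → ℕ} {F G : ℕ} {b B : ℝ} (hF : F ≤ ∑ a ∈ J, f a)
    (hG : G ≤ ∑ a ∈ J, g a) (hb : ∀ a ∈ J, (f a : ℝ) + g a ≤ b) (hb0 : 0 ≤ b)
    (hB : (K : ℝ) * b ≤ B) : (F : ℝ) + G ≤ B := by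
  have h1 : (F : ℝ) ≤ ∑ a ∈ J, (f a : ℝ) := by exact_mod_cast hF
  have h2 : (G : ℝ) ≤ ∑ a ∈ J, (g a : ℝ) := by exact_mod_cast hG
  have h3 : ∑ a ∈ J, ((f a : ℝ) + g a) ≤ J.card • b := sum_le_card_nsmul _ _ _ hb
  rw [sum_add_distrib, nsmul_eq_mul] at h3
  have h4 : (J.card : ℝ) ≤ K := by
    have := card_le_univ J
    rw [Fintype.card_fin] at this
    exact_mod_cast this
  have h5 := mul_le_mul_of_nonneg_right h4 hb0
  linarith

/-- summation of the errors for a vertex -/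
theorem low_abs {J : Finset (Fin K)} {f g : Fin K → ℕ} {N : ℕ} {e B : ℝ}
    (h : ∀ b ∈ J, |(N : ℝ) * f b - g b| ≤ e) (he : 0 ≤ e) (hB : (K : ℝ) * e ≤ B) :
    |(N : ℝ) * ((∑ b ∈ J, f b : ℕ) : ℝ) - ((∑ b ∈ J, g b : ℕ) : ℝ)| ≤ B := by
  have h1 : (N : ℝ) * ((∑ b ∈ J, f b : ℕ) : ℝ) - ((∑ b ∈ J, g b : ℕ) : ℝ) =
      ∑ b ∈ J, ((N : ℝ) * f b - g b) := by
    rw [sum_sub_distrib, ← mul_sum, Nat.cast_sum, Nat.cast_sum]
  rw [h1]
  refine (abs_sum_le_sum_abs _ _).trans ?_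
  have h2 : ∑ b ∈ J, |(N : ℝ) * f b - g b| ≤ J.card • e := sum_le_card_nsmul _ _ _ h
  rw [nsmul_eq_mul] at h2
  have h4 : (J.card : ℝ) ≤ K := by
    have := card_le_univ J
    rw [Fintype.card_fin] at this
    exact_mod_cast this
  have h5 := mul_le_mul_of_nonneg_right h4 he
  linarith

end

theorem tLow (hLowF : S_LowF) (hLowN : S_LowN) : S_Low := by
  classical
  intro α ε K0 hα hα1 hε hε1 hK0
  have hK0r : (1 : ℝ) ≤ K0 := by exact_mod_cast hK0
  have hK0p : (0 : ℝ) < K0 := by linarith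
  obtain ⟨θ, hθ⟩ : ∃ θ : ℝ, θ = α / K0 := ⟨_, rfl⟩
  have hθ0 : 0 < θ := by rw [hθ]; positivity
  have hθα : θ ≤ α := by rw [hθ]; exact div_le_self hα.le hK0r
  have hθ1 : θ ≤ 1 := hθα.trans hα1
  have hθ2 : 0 < θ ^ 2 := by positivity
  have hθK : θ * K0 = α := by rw [hθ]; field_simp
  obtain ⟨ε2, hε2⟩ : ∃ e : ℝ, e = ε * θ ^ 2 / 20 := ⟨_, rfl⟩
  have hε20 : 0 < ε2 := by rw [hε2]; positivity
  have hε2a : 10 * ε2 ≤ θ ^ 2 := by
    rw [hε2]
    have := mul_le_mul_of_nonneg_right hε1 hθ2.le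
    linarith
  have hε2b : 5 * ε2 / θ ≤ ε := by
    rw [div_le_iff₀ hθ0, hε2]
    have h1 : θ ^ 2 ≤ θ := by
      have := mul_le_mul_of_nonneg_left hθ1 hθ0.le
      rw [mul_one] at this
      calc θ ^ 2 = θ * θ := by ring
        _ ≤ θ := this
    have h2 := mul_le_mul_of_nonneg_left h1 hε.le
    have h3 : 0 < ε * θ := by positivity
    linarith
  obtain ⟨ε1, hε1'⟩ : ∃ e : ℝ, e = ε2 / K0 ^ 2 := ⟨_, rfl⟩
  have hε10 : 0 < ε1 := by rw [hε1']; positivity
  have hε1K : (K0 : ℝ) ^ 2 * ε1 = ε2 := by rw [hε1']; field_simp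
  have hK01 : (1 : ℝ) ≤ (K0 : ℝ) ^ 2 := one_le_pow₀ hK0r
  have hε12 : ε1 ≤ ε2 := by
    have := mul_le_mul_of_nonneg_right hK01 hε10.le
    linarith
  have hε1K' : (K0 : ℝ) * ε1 ≤ ε2 := by
    have h1 : (K0 : ℝ) ≤ (K0 : ℝ) ^ 2 := by
      have := mul_le_mul_of_nonneg_left hK0r hK0p.le
      calc (K0 : ℝ) = K0 * 1 := by ring
        _ ≤ K0 * K0 := this
        _ = (K0 : ℝ) ^ 2 := by ring
    have := mul_le_mul_of_nonneg_right h1 hε10.le
    linarith
  refine ⟨ε1, hε10, fun N hN => ?_⟩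
  have hNr : (1 : ℝ) ≤ N := by exact_mod_cast hN
  have hNp : (0 : ℝ) < N := by linarith
  obtain ⟨β, hβ⟩ : ∃ β : ℝ, β = ε2 / (N * K0) := ⟨_, rfl⟩
  have hβ0 : 0 < β := by rw [hβ]; positivity
  have hβK : (N : ℝ) * (K0 * β) = ε2 := by rw [hβ]; field_simp
  have hβK0 : 0 < K0 * β := by positivity
  have hβK' : K0 * β ≤ ε2 := by
    have := mul_le_mul_of_nonneg_right hNr hβK0.le
    linarith
  refine ⟨β, hβ0, fun ν hν => ?_⟩
  refine ⟨min (ε * ν / 2) (ν / 4), min (θ ^ 2 / 12) (ν / 12), lt_min (by positivity) (by positivity),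
    lt_min (by positivity) (by positivity), ?_⟩
  intro n r K R C o i hReg hαr hK1 hKK hC hcrs hRob hod hid hC1 hC2 hC3 X Y hXY
  have hn1 : 1 ≤ n := by
    have h1 := card_le_univ X
    have h2 := card_le_univ Y
    rw [Fintype.card_fin] at h1 h2
    omega
  have hnr : (1 : ℝ) ≤ n := by exact_mod_cast hn1
  have hnp : (0 : ℝ) < n := by linarith
  have hKr : (K : ℝ) ≤ K0 := by exact_mod_cast hKK
  have ht : (0 : ℝ) ≤ (X.card : ℝ) + Y.card - n := by
    have h1 : ((n + 1 : ℕ) : ℝ) ≤ ((X.card + Y.card : ℕ) : ℝ) := by exact_mod_cast hXY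
    push_cast at h1
    linarith
  have hNC : (0 : ℝ) ≤ N * eb C X Y := by positivity
  by_cases hcase : ∃ a : Fin K, β * n ≤ ((X ∩ Cl o a).card : ℝ) + (Cl i a \ Y).card ∧
      β * n ≤ ((Cl o a \ X).card : ℝ) + (Y ∩ Cl i a).card
  · obtain ⟨a, ha1, ha2⟩ := hcase
    obtain ⟨h1, h2⟩ := hLowF n r K R o i β ν (min (ε * ν / 2) (ν / 4)) ε a X Y hReg hν
      (le_min (by positivity) (by positivity))
      (by have := min_le_left (ε * ν / 2) (ν / 4); linarith)
      (by have := min_le_right (ε * ν / 2) (ν / 4); linarith) hcrs hRob hXY ha1 ha2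
    refine ⟨by linarith, ∅, ?_⟩
    have h3 : ((symmDiff X (ClU o ∅)).card : ℝ) ≤ n := by
      have := card_le_univ (symmDiff X (ClU o ∅))
      rw [Fintype.card_fin] at this
      exact_mod_cast this
    have h4 : ((symmDiff Y (ClU i ∅ᶜ)).card : ℝ) ≤ n := by
      have := card_le_univ (symmDiff Y (ClU i ∅ᶜ))
      rw [Fintype.card_fin] at this
      exact_mod_cast this
    have h5 : min (θ ^ 2 / 12) (ν / 12) * n ≤ ν / 12 * n :=
      mul_le_mul_of_nonneg_right (min_le_right _ _) hnp.le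
    have h6 : (1 : ℝ) + (symmDiff X (ClU o ∅)).card + (symmDiff Y (ClU i ∅ᶜ)).card ≤ 3 * n := by
      linarith
    have h7 : min (θ ^ 2 / 12) (ν / 12) * n * (1 + (symmDiff X (ClU o ∅)).card +
        (symmDiff Y (ClU i ∅ᶜ)).card) ≤ ν / 12 * n * (3 * n) :=
      mul_le_mul h5 h6 (by positivity) (by positivity)
    have h8 : ν / 12 * n * (3 * n) = ν * (n : ℝ) ^ 2 / 4 := by ring
    linarith
  · push Not at hcase
    obtain ⟨J, hJ⟩ : ∃ J : Finset (Fin K), J = univ.filter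
        (fun a => ((Cl o a \ X).card : ℝ) + (Y ∩ Cl i a).card < β * n) := ⟨_, rfl⟩
    have hJ1 : ∀ a ∈ J, ((Cl o a \ X).card : ℝ) + (Y ∩ Cl i a).card ≤ β * n := by
      intro a ha
      rw [hJ, mem_filter] at ha
      exact ha.2.le
    have hJ2 : ∀ a ∈ Jᶜ, ((X ∩ Cl o a).card : ℝ) + (Cl i a \ Y).card ≤ β * n := by
      intro a ha
      rw [hJ, mem_compl, mem_filter] at ha
      by_contra hc
      exact ha ⟨mem_univ _, hcase a (not_le.1 hc).le⟩
    have hβn : 0 ≤ β * n := by positivity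
    have hKβ : (K : ℝ) * (β * n) ≤ K0 * β * n := by
      have := mul_le_mul_of_nonneg_right hKr hβn
      linarith
    have hKε : (K : ℝ) * (ε1 * n) ≤ ε2 * n := by
      have h1 := mul_le_mul_of_nonneg_right hKr hε10.le
      have h2 := mul_le_mul_of_nonneg_right (h1.trans hε1K') hnp.le
      linarith
    have hdeg : ∀ d : ℕ, r ≤ K * d → θ * n ≤ d := by
      intro d hd
      have h1 : (r : ℝ) ≤ K * d := by exact_mod_cast hd
      have h2 : (K : ℝ) * d ≤ K0 * d := mul_le_mul_of_nonneg_right hKr (Nat.cast_nonneg d)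
      have h3 : K0 * (θ * n) ≤ K0 * (d : ℝ) := by
        have h4 : (K0 : ℝ) * (θ * n) = α * n := by rw [← hθK]; ring
        linarith
      exact le_of_mul_le_mul_left h3 hK0p
    have hN1 : (1 - ε2) * eb R (ClU o J) (ClU i Jᶜ) - ε2 * n ≤
        N * (eb C (ClU o J) (ClU i Jᶜ) : ℝ) := by
      rw [low_crs, low_left, low_left]
      have h1 : ∀ a ∈ J, (1 - ε1) * (eb (crs o i R) (Cl o a) (ClU i Jᶜ) : ℝ) - K0 * ε1 * n ≤
          N * (eb C (Cl o a) (ClU i Jᶜ) : ℝ) := by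
        intro a _
        rw [low_right, low_right]
        push_cast
        rw [mul_sum, mul_sum]
        have h2 : ∑ b ∈ Jᶜ, ((1 - ε1) * (eb (crs o i R) (Cl o a) (Cl i b) : ℝ) - ε1 * n) ≤
            ∑ b ∈ Jᶜ, (N : ℝ) * eb C (Cl o a) (Cl i b) := sum_le_sum fun b _ => hC1 a b
        rw [sum_sub_distrib, sum_const, nsmul_eq_mul] at h2
        have h4 : ((Jᶜ).card : ℝ) ≤ K := by
          have := card_le_univ Jᶜ
          rw [Fintype.card_fin] at this
          exact_mod_cast this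
        have h5 := mul_le_mul_of_nonneg_right (h4.trans hKr) (show 0 ≤ ε1 * n by positivity)
        linarith
      have h2 : ∑ a ∈ J, ((1 - ε1) * (eb (crs o i R) (Cl o a) (ClU i Jᶜ) : ℝ) - K0 * ε1 * n) ≤
          ∑ a ∈ J, (N : ℝ) * eb C (Cl o a) (ClU i Jᶜ) := sum_le_sum h1
      rw [sum_sub_distrib, sum_const, nsmul_eq_mul, ← mul_sum, ← mul_sum] at h2
      push_cast
      have h4 : ((J).card : ℝ) ≤ K := by
        have := card_le_univ J
        rw [Fintype.card_fin] at this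
        exact_mod_cast this
      have h5 := mul_le_mul_of_nonneg_right (h4.trans hKr) (show 0 ≤ K0 * ε1 * n by positivity)
      have h6 : (K0 : ℝ) * (K0 * ε1 * n) = ε2 * n := by rw [← hε1K]; ring
      have h7 : (0 : ℝ) ≤ ∑ a ∈ J, (eb (crs o i R) (Cl o a) (ClU i Jᶜ) : ℝ) :=
        sum_nonneg fun _ _ => Nat.cast_nonneg _
      have h8 := mul_le_mul_of_nonneg_right hε12 h7
      linarith
    have hN2 : ∀ v, |N * (eb C {v} (ClU i Jᶜ) : ℝ) - eb (crs o i R) {v} (ClU i Jᶜ)| ≤ ε2 * n := by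
      intro v
      rw [low_right, low_right]
      exact low_abs (fun b _ => hC2 v b) (by positivity) hKε
    have hN3 : ∀ v, |N * (eb C (ClU o J) {v} : ℝ) - eb (crs o i R) (ClU o J) {v}| ≤ ε2 * n := by
      intro v
      rw [low_left, low_left]
      exact low_abs (fun b _ => hC3 v b) (by positivity) hKε
    obtain ⟨h1, h2⟩ := hLowN n r K N R C o i J X Y α θ ε2 (K0 * β) hReg hN hαr hθ0 hθα hα1 hε20
      hε2a hβK0 hβK' hβK.le hC (fun v => hdeg _ (hod v)) (fun v => hdeg _ (hid v)) hN1 hN2 hN3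
      (low_sum (low_card1 o J X) (low_card2 i J Y) hJ1 hβn hKβ)
      (low_sum (low_card2 o Jᶜ X) (low_card1 i Jᶜ Y) hJ2 hβn hKβ) hXY
    refine ⟨?_, J, ?_⟩
    · refine le_trans ?_ h1
      have h3 : (0 : ℝ) ≤ r * ((X.card : ℝ) + Y.card - n) := mul_nonneg (Nat.cast_nonneg r) ht
      have h4 := mul_le_mul_of_nonneg_right hε2b h3
      linarith
    · refine le_trans ?_ h2
      have h3 : (0 : ℝ) ≤ n * (1 + (symmDiff X (ClU o J)).card + (symmDiff Y (ClU i Jᶜ)).card) := by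
        positivity
      have h4 := mul_le_mul_of_nonneg_right (min_le_left (θ ^ 2 / 12) (ν / 12)) h3
      linarith

end Pool.Agent.MPd266dbH
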