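import Pool.Agent.Lib.MP_d266db_co.H.SpecC

/-!
# MP_d266db_co, H, LowF: pairs which are far from unions of classes
-/

set_option autoImplicit false

namespace Pool.Agent.MPd266dbH

open Finset Pool.Agent.MPd266db

/-- every arc is own or cross -/
theorem lowf_split {n K : ℕ} (o i : Fin n → Fin K) (R : Finset (Fin n × Fin n))
    (X Y : Finset (Fin n)) : eb R X Y ≤ eb (own o i R) X Y + (crs o i R).card := by
  classical
  have h1 : (R.filter (fun e => e.1 ∈ X ∧ e.2 ∈ Y)) ⊆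
      ((own o i R).filter (fun e => e.1 ∈ X ∧ e.2 ∈ Y)) ∪ crs o i R := by
    intro e he
    rw [mem_filter] at he
    rw [mem_union]
    by_cases h : o e.1 = i e.2
    · left
      rw [mem_filter]
      exact ⟨mem_filter.2 ⟨he.1, h⟩, he.2⟩
    · right
      exact mem_filter.2 ⟨he.1, h⟩
  exact (card_le_card h1).trans (card_union_le _ _)

theorem tLowF : S_LowF := by
  intro n r K R o i β ν γ ε a X Y hR hν hγ h1 h2 hc hRob ht hA hB
  classical
  -- Rob
  have hX : Cl o a \ (X ∩ Cl o a) = Cl o a \ X := by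
    ext v
    simp only [mem_sdiff, mem_inter]
    tauto
  have hY : Cl i a \ (Y ∩ Cl i a) = Cl i a \ Y := by
    ext v
    simp only [mem_sdiff, mem_inter]
    tauto
  have hrob := hRob a (X ∩ Cl o a) (Y ∩ Cl i a) inter_subset_right inter_subset_right
    (by rw [hY]; exact hA) (by rw [hX]; exact hB)
  rw [hX, hY] at hrob
  have m1 : (eb R (X ∩ Cl o a) (Y ∩ Cl i a) : ℝ) ≤ eb R X Y := by
    exact_mod_cast eb_mono (subset_refl R) inter_subset_left inter_subset_left
  have m2 : (eb R (Cl o a \ X) (Cl i a \ Y) : ℝ) ≤ eb R Xᶜ Yᶜ := by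
    have e1 : Cl o a \ X ⊆ Xᶜ := fun v hv => by
      rw [mem_sdiff] at hv
      exact mem_compl.2 hv.2
    have e2 : Cl i a \ Y ⊆ Yᶜ := fun v hv => by
      rw [mem_sdiff] at hv
      exact mem_compl.2 hv.2
    exact_mod_cast eb_mono (subset_refl R) e1 e2
  -- regularity
  have r1 : (eb R X Y : ℝ) + eb R X Yᶜ = r * X.card := by
    exact_mod_cast Reg.out X Y hR
  have r2 : (eb R X Yᶜ : ℝ) + eb R Xᶜ Yᶜ = r * Yᶜ.card := by
    exact_mod_cast Reg.in X Yᶜ hR
  have r3 : (Yᶜ.card : ℝ) = n - Y.card := by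
    have := card_add_card_compl Y
    rw [Fintype.card_fin] at this
    have h : (Y.card : ℝ) + Yᶜ.card = n := by exact_mod_cast this
    linarith
  have hs : (eb R X Y : ℝ) ≤ eb (own o i R) X Y + (crs o i R).card := by
    exact_mod_cast lowf_split o i R X Y
  have ht' : (n : ℝ) + 1 ≤ (X.card : ℝ) + Y.card := by exact_mod_cast ht
  have hr0 : (0 : ℝ) ≤ r := Nat.cast_nonneg r
  have hn0 : (0 : ℝ) ≤ (n : ℝ) ^ 2 := by positivity
  have hd : (eb R X Y : ℝ) - eb R Xᶜ Yᶜ = r * ((X.card : ℝ) + Y.card - n) := by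
    rw [r3] at r2
    linarith [mul_sub (r : ℝ) n Y.card, mul_sub (r : ℝ) ((X.card : ℝ) + Y.card) n,
      mul_add (r : ℝ) X.card Y.card]
  have ht0 : (0 : ℝ) ≤ r * ((X.card : ℝ) + Y.card - n) := mul_nonneg hr0 (by linarith)
  have hhalf : ν * (n : ℝ) ^ 2 / 2 ≤ eb R X Y := by linarith
  have hcomp : (0 : ℝ) ≤ eb R Xᶜ Yᶜ := Nat.cast_nonneg _
  have hge : (r : ℝ) * ((X.card : ℝ) + Y.card - n) ≤ eb R X Y := by linarith
  have hcr : (crs o i R).card ≤ γ * (n : ℝ) ^ 2 := hc
  have hγν : γ * (n : ℝ) ^ 2 ≤ ν * (n : ℝ) ^ 2 / 4 := by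
    have := mul_le_mul_of_nonneg_right h2 hn0
    linarith
  have hγε : 2 * (γ * (n : ℝ) ^ 2) ≤ ε * (ν * (n : ℝ) ^ 2) := by
    have := mul_le_mul_of_nonneg_right h1 hn0
    linarith
  constructor
  · -- first inequality
    have hε : 0 ≤ ε := by
      by_contra hneg
      push Not at hneg
      nlinarith
    have h5 : ε * (ν * (n : ℝ) ^ 2 / 2) ≤ ε * eb R X Y := mul_le_mul_of_nonneg_left hhalf hε
    rcases le_total ε 1 with h6 | h6
    · have h7 : (1 - ε) * (r * ((X.card : ℝ) + Y.card - n)) ≤ (1 - ε) * eb R X Y :=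
        mul_le_mul_of_nonneg_left hge (by linarith)
      have h8 : (1 - ε) * r * ((X.card : ℝ) + Y.card - n) =
        (1 - ε) * (r * ((X.card : ℝ) + Y.card - n)) := by ring
      rw [h8]
      nlinarith
    · have h8 : (1 - ε) * r * ((X.card : ℝ) + Y.card - n) =
        -((ε - 1) * (r * ((X.card : ℝ) + Y.card - n))) := by ring
      rw [h8]
      have h9 : 0 ≤ (ε - 1) * (r * ((X.card : ℝ) + Y.card - n)) :=
        mul_nonneg (by linarith) ht0
      have h10 : (0 : ℝ) ≤ eb (own o i R) X Y := Nat.cast_nonneg _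
      linarith
  · linarith

end Pool.Agent.MPd266dbH
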