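import Pool.Agent.Lib.MP_d266db_co.H.SpecC

/-!
# MP_d266db_co, H: pairs which are close to a union of classes
-/

set_option autoImplicit false

namespace Pool.Agent.MPd266dbH

open Finset Pool.Agent.MPd266db

/-- the numerical part -/
private theorem lown_num (n r t P1 P2 Q1 Q2 eOI eP eQ w N α θ ε β : ℝ) (hn : 0 ≤ n) (hrn : r ≤ n)
    (hαr : α * n ≤ r) (hθ : 0 < θ) (hθα : θ ≤ α) (hα : α ≤ 1) (hε : 0 < ε) (hεθ : 10 * ε ≤ θ ^ 2)
    (hβ : 0 < β) (hβε : β ≤ ε) (hNβ : N * β ≤ ε) (hN : 1 ≤ N) (ht : 1 ≤ t)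
    (h1 : 0 ≤ P1) (h2 : 0 ≤ P2) (h3 : 0 ≤ Q1) (h4 : 0 ≤ Q2) (h5 : P1 + Q2 ≤ β * n)
    (h6 : P2 + Q1 ≤ β * n) (h7 : θ * n * P2 ≤ eP) (h8 : θ * n * Q2 ≤ eQ) (h9 : 0 ≤ eOI)
    (hw : ((1 - ε) * eOI - ε * n) - P1 * (r - θ * n + ε * n) - Q1 * (r - θ * n + ε * n) +
      (eP - ε * n * P2) - N * (P2 * Q1) + (eQ - ε * n * Q2) - N * (P1 * Q2) ≤ w)
    (hS : r * (t + (P1 + Q1)) - P2 * Q2 ≤ eOI + eP + eQ) :
    (1 - 5 * ε / θ) * r * t ≤ w ∧ θ ^ 2 / 12 * n * (1 + (P1 + P2) + (Q1 + Q2)) ≤ w := by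
  have hθ1 : θ ≤ 1 := hθα.trans hα
  have hθn : θ * n ≤ r := (mul_le_mul_of_nonneg_right hθα hn).trans hαr
  have hr0 : 0 ≤ r := (mul_nonneg hθ.le hn).trans hθn
  obtain ⟨z, hz⟩ : ∃ z, z = ε / θ := ⟨_, rfl⟩
  have hzθ : z * θ = ε := by rw [hz]; field_simp
  have hz0 : 0 < z := by rw [hz]; positivity
  have hz10 : 10 * z ≤ θ := by
    have h : 10 * z * θ ≤ θ * θ := by
      have e1 : 10 * z * θ = 10 * (z * θ) := by ring
      have e2 : θ * θ = θ ^ 2 := by ring
      rw [e1, e2, hzθ]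
      exact hεθ
    exact le_of_mul_le_mul_right h hθ
  have hz1 : 10 * z ≤ 1 := hz10.trans hθ1
  have hεz : ε ≤ z := by
    rw [← hzθ]
    exact mul_le_of_le_one_right hz0.le hθ1
  have e5 : 5 * ε / θ = 5 * z := by rw [hz]; ring
  rw [e5]
  obtain ⟨p, hp⟩ : ∃ p, p = P1 + Q1 := ⟨_, rfl⟩
  obtain ⟨q, hq⟩ : ∃ q, q = P2 + Q2 := ⟨_, rfl⟩
  obtain ⟨sm, hsm⟩ : ∃ s, s = eOI + eP + eQ := ⟨_, rfl⟩
  have hp0 : 0 ≤ p := by rw [hp]; positivity
  have hq0 : 0 ≤ q := by rw [hq]; positivity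
  -- (5)
  have hsmq : θ * (n * q) ≤ sm := by
    rw [hsm, hq]
    have e1 : θ * (n * (P2 + Q2)) = θ * n * P2 + θ * n * Q2 := by ring
    linarith
  have hnq : n * q * θ ≤ sm := by linarith [mul_comm θ (n * q)]
  have hεnq : ε * (n * q) ≤ z * sm := by
    have h : z * (θ * (n * q)) ≤ z * sm := mul_le_mul_of_nonneg_left hsmq hz0.le
    have h' : z * (θ * (n * q)) = ε * (n * q) := by rw [← hzθ]; ring
    linarith
  have hsm0 : 0 ≤ sm := le_trans (by positivity) hsmq
  have hβn : 0 ≤ β * n := by positivity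
  have hN1 : N * (P2 * Q1) ≤ ε * (n * P2) := by
    have hQ1 : Q1 ≤ β * n := by linarith
    have h : P2 * Q1 ≤ P2 * (β * n) := mul_le_mul_of_nonneg_left hQ1 h2
    have h' : N * (P2 * Q1) ≤ N * (P2 * (β * n)) := mul_le_mul_of_nonneg_left h (by linarith)
    have h'' : N * (P2 * (β * n)) = (N * β) * (n * P2) := by ring
    have h3' : (N * β) * (n * P2) ≤ ε * (n * P2) :=
      mul_le_mul_of_nonneg_right hNβ (by positivity)
    linarith
  have hN2 : N * (P1 * Q2) ≤ ε * (n * Q2) := by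
    have hQ1 : P1 ≤ β * n := by linarith
    have h : P1 * Q2 ≤ (β * n) * Q2 := mul_le_mul_of_nonneg_right hQ1 h4
    have h' : N * (P1 * Q2) ≤ N * ((β * n) * Q2) := mul_le_mul_of_nonneg_left h (by linarith)
    have h'' : N * ((β * n) * Q2) = (N * β) * (n * Q2) := by ring
    have h3' : (N * β) * (n * Q2) ≤ ε * (n * Q2) :=
      mul_le_mul_of_nonneg_right hNβ (by positivity)
    linarith
  have hw5 : (1 - 3 * z) * sm - ε * n - p * (r - θ * n + ε * n) ≤ w := by
    have ha : ((1 - ε) * eOI - ε * n) - P1 * (r - θ * n + ε * n) - Q1 * (r - θ * n + ε * n) +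
      (eP - ε * n * P2) - N * (P2 * Q1) + (eQ - ε * n * Q2) - N * (P1 * Q2) =
      sm - ε * eOI - ε * n - p * (r - θ * n + ε * n) - ε * (n * q) - N * (P2 * Q1) -
        N * (P1 * Q2) := by
      rw [hsm, hp, hq]; ring
    have hb : ε * (n * P2) + ε * (n * Q2) = ε * (n * q) := by rw [hq]; ring
    have hc : ε * eOI ≤ z * sm := by
      have h' : eOI ≤ sm := by
        rw [hsm]
        have : 0 ≤ eP := le_trans (by positivity) h7
        have : 0 ≤ eQ := le_trans (by positivity) h8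
        linarith
      exact mul_le_mul hεz h' h9 hz0.le
    rw [ha] at hw
    linarith
  -- (6)
  have hPQ : P2 * Q2 ≤ z * sm := by
    have ha : P2 ≤ β * n := by linarith
    have hb : P2 * Q2 ≤ (β * n) * Q2 := mul_le_mul_of_nonneg_right ha h4
    have hc : (β * n) * Q2 ≤ ε * (n * q) := by
      have h' : (β * n) * Q2 = β * (n * Q2) := by ring
      rw [h']
      have h'' : n * Q2 ≤ n * q := mul_le_mul_of_nonneg_left (by rw [hq]; linarith) hn
      exact mul_le_mul hβε h'' (by positivity) hε.le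
    linarith
  have hS' : r * (t + p) ≤ (1 + z) * sm := by
    rw [← hsm, ← hp] at hS
    linarith
  have hS6 : (1 - z) * (r * (t + p)) ≤ sm := by
    have h' : (1 - z) * (r * (t + p)) ≤ (1 - z) * ((1 + z) * sm) :=
      mul_le_mul_of_nonneg_left hS' (by linarith)
    have h'' : (1 - z) * ((1 + z) * sm) = sm - z ^ 2 * sm := by ring
    have h3' : 0 ≤ z ^ 2 * sm := by positivity
    linarith
  have hrtp : 0 ≤ r * (t + p) := mul_nonneg hr0 (by linarith)
  -- (7)
  have hw7 : (1 - 4 * z) * (r * (t + p)) - ε * n - p * (r - θ * n + ε * n) ≤ w := by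
    have h' : (1 - 3 * z) * ((1 - z) * (r * (t + p))) ≤ (1 - 3 * z) * sm :=
      mul_le_mul_of_nonneg_left hS6 (by linarith)
    have h'' : (1 - 3 * z) * ((1 - z) * (r * (t + p))) =
        (1 - 4 * z) * (r * (t + p)) + 3 * z ^ 2 * (r * (t + p)) := by ring
    have h3' : 0 ≤ 3 * z ^ 2 * (r * (t + p)) := by positivity
    linarith
  have hεn : ε * n ≤ z * (r * t) := by
    have h' : ε * n = z * (θ * n) := by rw [← hzθ]; ring
    rw [h']
    refine mul_le_mul_of_nonneg_left ?_ hz0.le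
    exact hθn.trans (le_mul_of_one_le_right hr0 ht)
  have hpn : 0 ≤ p * n := by positivity
  have hw7' : (1 - 5 * z) * r * t + θ / 2 * (n * p) ≤ w := by
    have ha : (1 - 4 * z) * (r * (t + p)) - ε * n - p * (r - θ * n + ε * n) =
      (1 - 4 * z) * (r * t) - ε * n + (p * n) * (θ - ε) - 4 * z * (p * r) := by ring
    have hb : 4 * z * (p * r) ≤ 4 * z * (p * n) := by
      refine mul_le_mul_of_nonneg_left ?_ (by positivity)
      exact mul_le_mul_of_nonneg_left hrn hp0
    have hc : (p * n) * (θ / 2) ≤ (p * n) * (θ - ε - 4 * z) := by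
      refine mul_le_mul_of_nonneg_left ?_ hpn
      linarith
    have hd : (1 - 5 * z) * r * t + θ / 2 * (n * p) = (1 - 4 * z) * (r * t) - z * (r * t) +
      (p * n) * (θ / 2) := by ring
    have he : (p * n) * (θ - ε - 4 * z) = (p * n) * (θ - ε) - 4 * z * (p * n) := by ring
    linarith
  have hrt : 0 ≤ r * t := mul_nonneg hr0 (by linarith)
  have hθp : 0 ≤ θ / 2 * (n * p) := by positivity
  refine ⟨by linarith, ?_⟩
  -- (8)
  have hθnt : θ * n ≤ r * t := hθn.trans (le_mul_of_one_le_right hr0 ht)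
  have hw8 : θ * n / 2 + θ / 2 * (n * p) ≤ w := by
    have ha : r * t / 2 ≤ (1 - 5 * z) * r * t := by
      have hb : (1 - 5 * z) * r * t = r * t / 2 + (1 / 2 - 5 * z) * (r * t) := by ring
      have hc : 0 ≤ (1 / 2 - 5 * z) * (r * t) := mul_nonneg (by linarith) hrt
      linarith
    linarith
  have hw0 : 0 ≤ w := le_trans (by positivity) hw8
  have hn8 : θ * n ≤ 2 * w := by linarith
  have hp8 : θ * (n * p) ≤ 2 * w := by
    have : 0 ≤ θ * n / 2 := by positivity
    linarith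
  have hsm8 : sm / 2 ≤ w + ε * n + n * p := by
    have ha : sm / 2 ≤ (1 - 3 * z) * sm := by
      have hb : (1 - 3 * z) * sm = sm / 2 + (1 / 2 - 3 * z) * sm := by ring
      have hc : 0 ≤ (1 / 2 - 3 * z) * sm := mul_nonneg (by linarith) hsm0
      linarith
    have hb : p * (r - θ * n + ε * n) ≤ p * n := by
      refine mul_le_mul_of_nonneg_left ?_ hp0
      have : ε * n ≤ θ * n := mul_le_mul_of_nonneg_right (by linarith) hn
      linarith
    have hc : p * n = n * p := mul_comm _ _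
    linarith
  have hεw : ε * n ≤ w := by
    have h' : ε * n = z * (θ * n) := by rw [← hzθ]; ring
    have h'' : z * (θ * n) ≤ z * (2 * w) := mul_le_mul_of_nonneg_left hn8 hz0.le
    have e1 : z * (2 * w) = (2 * z) * w := by ring
    have e2 : (2 * z) * w ≤ 1 * w := mul_le_mul_of_nonneg_right (by linarith) hw0
    linarith
  have hq8 : θ ^ 2 * (n * q) ≤ 8 * w := by
    have ha : θ * (θ * (n * q)) ≤ θ * sm := mul_le_mul_of_nonneg_left hsmq hθ.le
    have hb : θ * sm ≤ θ * (4 * w + 2 * (n * p)) := mul_le_mul_of_nonneg_left (by linarith) hθ.le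
    have hc : θ * w ≤ w := mul_le_of_le_one_left hw0 hθ1
    have hd : θ * (θ * (n * q)) = θ ^ 2 * (n * q) := by ring
    have he : θ * (4 * w + 2 * (n * p)) = 4 * (θ * w) + 2 * (θ * (n * p)) := by ring
    linarith
  have hfin : θ ^ 2 / 12 * n * (1 + (P1 + P2) + (Q1 + Q2)) =
      (θ * (θ * n) + θ * (θ * (n * p)) + θ ^ 2 * (n * q)) / 12 := by
    rw [hp, hq]; ring
  rw [hfin]
  have ha : θ * (θ * n) ≤ 2 * w := by
    have h' : θ * (θ * n) ≤ 1 * (θ * n) := mul_le_mul_of_nonneg_right hθ1 (by positivity)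
    linarith
  have hb : θ * (θ * (n * p)) ≤ 2 * w := by
    have h' : θ * (θ * (n * p)) ≤ 1 * (θ * (n * p)) := mul_le_mul_of_nonneg_right hθ1 (by positivity)
    linarith
  linarith

section comb

variable {n K : ℕ} {o i : Fin n → Fin K} {R C : Finset (Fin n × Fin n)}

private theorem lown_R (A B : Finset (Fin n)) :
    eb R A B = eb (own o i R) A B + eb (crs o i R) A B := by
  unfold eb own crs
  rw [Finset.filter_filter, Finset.filter_filter, ← Finset.card_union_of_disjoint]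
  · congr 1
    ext e
    simp only [mem_filter, mem_union]
    tauto
  · rw [Finset.disjoint_left]
    intro e he he'
    simp only [mem_filter] at he he'
    exact he'.2.1 he.2.1

private theorem lown_sumL (E : Finset (Fin n × Fin n)) (A B : Finset (Fin n)) :
    (eb E A B : ℝ) = ∑ v ∈ A, (eb E {v} B : ℝ) := by
  classical
  induction A using Finset.induction_on with
  | empty => simp [eb]
  | insert a A ha ih =>
    rw [Finset.sum_insert ha, ← ih, Finset.insert_eq, eb_union_left]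
    · push_cast; ring
    · simpa using ha

private theorem lown_sumR (E : Finset (Fin n × Fin n)) (A B : Finset (Fin n)) :
    (eb E A B : ℝ) = ∑ v ∈ B, (eb E A {v} : ℝ) := by
  classical
  induction B using Finset.induction_on with
  | empty => simp [eb]
  | insert a B ha ih =>
    rw [Finset.sum_insert ha, ← ih, Finset.insert_eq, eb_union_right]
    · push_cast; ring
    · simpa using ha

private theorem lown_zero {J : Finset (Fin K)} {A B : Finset (Fin n)} (hA : A ⊆ ClU o J)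
    (hB : B ⊆ ClU i Jᶜ) : eb (own o i R) A B = 0 := by
  unfold eb own
  rw [Finset.card_eq_zero, Finset.filter_eq_empty_iff]
  rintro e he ⟨h1, h2⟩
  rw [mem_filter] at he
  have h3 := hA h1
  have h4 := hB h2
  simp only [ClU, mem_filter, mem_univ, true_and, mem_compl] at h3 h4
  rw [he.2] at h3
  exact h4 h3

end comb

theorem tLowN : S_LowN := by
  classical
  intro n r K N R C o i J X Y α θ ε β hreg hN hαr hθ hθα hα hε hεθ hβ hβε hNβ hC hown hown' hglob
    hL hR hc1 hc2 hXY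
  have hN' : (1 : ℝ) ≤ N := by exact_mod_cast hN
  have hn0 : 0 < n := by
    rcases Nat.eq_zero_or_pos n with h | h
    · subst h
      have h1 : X.card ≤ 0 := (Finset.card_le_univ X).trans (by simp)
      have h2 : Y.card ≤ 0 := (Finset.card_le_univ Y).trans (by simp)
      omega
    · exact h
  obtain ⟨v0⟩ : Nonempty (Fin n) := ⟨⟨0, hn0⟩⟩
  have hrn : r ≤ n := by
    rw [← (hreg v0).1]
    have h1 : eb R {v0} univ = od R v0 := by rw [eb_univ_right, sum_singleton]
    rw [← h1]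
    refine (eb_le_card_mul _ _ _).trans ?_
    simp
  -- notation
  obtain ⟨O, hO⟩ : ∃ O, O = ClU o J := ⟨_, rfl⟩
  obtain ⟨I, hI⟩ : ∃ I, I = ClU i Jᶜ := ⟨_, rfl⟩
  have hOc : ClU o Jᶜ = Oᶜ := by
    rw [hO]
    ext z
    simp [ClU]
  have hIc : ClU i J = Iᶜ := by
    rw [hI]
    ext z
    simp [ClU]
  rw [hIc] at hc1
  rw [hOc] at hc2
  rw [← hO, ← hI] at hglob ⊢
  rw [← hO] at hR hc1
  rw [← hI] at hL hc2
  have hw : ∀ A B : Finset (Fin n), (0 : ℝ) ≤ (eb (own o i R) A B : ℝ) + N * eb C A B := by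
    intro A B
    positivity
  obtain ⟨w, hwd⟩ : ∃ w : Finset (Fin n) → Finset (Fin n) → ℝ,
    w = fun A B => (eb (own o i R) A B : ℝ) + N * eb C A B := ⟨_, rfl⟩
  have hwA : ∀ A B, w A B = (eb (own o i R) A B : ℝ) + N * eb C A B := by
    intro A B
    rw [hwd]
  have hw0 : ∀ A B, 0 ≤ w A B := by
    intro A B
    rw [hwA]
    exact hw A B
  have hwL : ∀ A A' B, Disjoint A A' → w (A ∪ A') B = w A B + w A' B := by
    intro A A' B h
    rw [hwA, hwA, hwA, eb_union_left _ _ h, eb_union_left _ _ h]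
    push_cast
    ring
  have hwR : ∀ A B B', Disjoint B B' → w A (B ∪ B') = w A B + w A B' := by
    intro A B B' h
    rw [hwA, hwA, hwA, eb_union_right _ _ h, eb_union_right _ _ h]
    push_cast
    ring
  have hwle : ∀ A B : Finset (Fin n), w A B ≤ N * ((A.card : ℝ) * B.card) := by
    intro A B
    have h1 : eb C A B ≤ eb (crs o i R) A B := eb_mono hC (subset_refl _) (subset_refl _)
    have h2 := lown_R (o := o) (i := i) (R := R) A B
    have h3 := eb_le_card_mul R A B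
    have h4 : (eb (own o i R) A B : ℝ) + eb C A B ≤ (A.card : ℝ) * B.card := by
      exact_mod_cast (by omega : eb (own o i R) A B + eb C A B ≤ A.card * B.card)
    rw [hwA]
    have h5 : (N : ℝ) * ((eb (own o i R) A B : ℝ) + eb C A B) ≤ N * ((A.card : ℝ) * B.card) :=
      mul_le_mul_of_nonneg_left h4 (by positivity)
    have h6 : (0 : ℝ) ≤ eb (own o i R) A B := by positivity
    have h7 : (eb (own o i R) A B : ℝ) ≤ N * eb (own o i R) A B := le_mul_of_one_le_left h6 hN'
    have h8 : (N : ℝ) * ((eb (own o i R) A B : ℝ) + eb C A B) =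
      N * eb (own o i R) A B + N * eb C A B := by ring
    linarith
  have hwsL : ∀ A B, w A B = ∑ v ∈ A, w {v} B := by
    intro A B
    rw [hwA, lown_sumL, lown_sumL, Finset.mul_sum, ← Finset.sum_add_distrib]
    exact Finset.sum_congr rfl fun v _ => (hwA _ _).symm
  have hwsR : ∀ A B, w A B = ∑ v ∈ B, w A {v} := by
    intro A B
    rw [hwA, lown_sumR, lown_sumR, Finset.mul_sum, ← Finset.sum_add_distrib]
    exact Finset.sum_congr rfl fun v _ => (hwA _ _).symm
  obtain ⟨P1, hP1⟩ : ∃ P, P = O \ X := ⟨_, rfl⟩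
  obtain ⟨P2, hP2⟩ : ∃ P, P = X \ O := ⟨_, rfl⟩
  obtain ⟨Q1, hQ1⟩ : ∃ P, P = I \ Y := ⟨_, rfl⟩
  obtain ⟨Q2, hQ2⟩ : ∃ P, P = Y \ I := ⟨_, rfl⟩
  have hP2' : X ∩ Oᶜ = P2 := by rw [hP2]; exact (Finset.sdiff_eq_inter_compl X O).symm
  have hQ2' : Y ∩ Iᶜ = Q2 := by rw [hQ2]; exact (Finset.sdiff_eq_inter_compl Y I).symm
  rw [hQ2', ← hP1] at hc1
  rw [hP2', ← hQ1] at hc2
  have hP1O : P1 ⊆ O := by rw [hP1]; exact sdiff_subset
  have hQ1I : Q1 ⊆ I := by rw [hQ1]; exact sdiff_subset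
  have hP2O : ∀ v ∈ P2, v ∉ O := by
    intro v hv
    rw [hP2, mem_sdiff] at hv
    exact hv.2
  have hQ2I : ∀ v ∈ Q2, v ∉ I := by
    intro v hv
    rw [hQ2, mem_sdiff] at hv
    exact hv.2
  -- own degrees
  have hodu : ∀ (E : Finset (Fin n × Fin n)) (v : Fin n), eb E {v} univ = od E v := by
    intro E v
    rw [eb_univ_right, sum_singleton]
  have hidu : ∀ (E : Finset (Fin n × Fin n)) (v : Fin n), eb E univ {v} = idg E v := by
    intro E v
    rw [eb_univ_left, sum_singleton]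
  have hoI : ∀ v, v ∉ O → eb (own o i R) {v} I = od (own o i R) v := by
    intro v hv
    rw [← hodu]
    unfold eb
    congr 1
    ext e
    simp only [own, mem_filter, mem_singleton, mem_univ, and_true]
    constructor
    · rintro ⟨h1, h2, h3⟩
      exact ⟨h1, h2⟩
    · rintro ⟨⟨h1, h2⟩, h3⟩
      refine ⟨⟨h1, h2⟩, h3, ?_⟩
      rw [hI]
      rw [hO] at hv
      simp only [ClU, mem_filter, mem_univ, true_and, mem_compl] at hv ⊢
      rw [← h2, h3]
      exact hv
  have hoO : ∀ v, v ∉ I → eb (own o i R) O {v} = idg (own o i R) v := by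
    intro v hv
    rw [← hidu]
    unfold eb
    congr 1
    ext e
    simp only [own, mem_filter, mem_singleton, mem_univ, true_and]
    constructor
    · rintro ⟨h1, h2, h3⟩
      exact ⟨h1, h3⟩
    · rintro ⟨⟨h1, h2⟩, h3⟩
      refine ⟨⟨h1, h2⟩, ?_, h3⟩
      rw [hO]
      rw [hI] at hv
      simp only [ClU, mem_filter, mem_univ, true_and, mem_compl, not_not] at hv ⊢
      rw [h2, h3]
      exact hv
  -- (3)
  have h3a : ∀ v ∈ P1, w {v} I ≤ (r : ℝ) - θ * n + ε * n := by
    intro v hv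
    have hz : eb (own o i R) {v} I = 0 := by
      rw [hI]
      refine lown_zero (J := J) ?_ (subset_refl _)
      rw [← hO]
      exact singleton_subset_iff.mpr (hP1O hv)
    rw [hwA, hz]
    have h1 := (abs_le.mp (hL v)).2
    have h2 : (eb (crs o i R) {v} I : ℝ) ≤ r - θ * n := by
      have ha : eb (crs o i R) {v} I ≤ eb (crs o i R) {v} univ :=
        eb_mono (subset_refl _) (subset_refl _) (subset_univ _)
      have hb := lown_R (o := o) (i := i) (R := R) {v} univ
      rw [hodu, hodu, (hreg v).1] at hb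
      have hc := hown v
      have hd : (r : ℝ) = od (own o i R) v + eb (crs o i R) {v} univ := by exact_mod_cast hb
      have he : (eb (crs o i R) {v} I : ℝ) ≤ eb (crs o i R) {v} univ := by exact_mod_cast ha
      linarith
    push_cast
    linarith
  have h3b : ∀ v ∈ Q1, w O {v} ≤ (r : ℝ) - θ * n + ε * n := by
    intro v hv
    have hz : eb (own o i R) O {v} = 0 := by
      rw [hO]
      refine lown_zero (J := J) (subset_refl _) ?_
      rw [← hI]
      exact singleton_subset_iff.mpr (hQ1I hv)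
    rw [hwA, hz]
    have h1 := (abs_le.mp (hR v)).2
    have h2 : (eb (crs o i R) O {v} : ℝ) ≤ r - θ * n := by
      have ha : eb (crs o i R) O {v} ≤ eb (crs o i R) univ {v} :=
        eb_mono (subset_refl _) (subset_univ _) (subset_refl _)
      have hb := lown_R (o := o) (i := i) (R := R) univ {v}
      rw [hidu, hidu, (hreg v).2] at hb
      have hc := hown' v
      have hd : (r : ℝ) = idg (own o i R) v + eb (crs o i R) univ {v} := by exact_mod_cast hb
      have he : (eb (crs o i R) O {v} : ℝ) ≤ eb (crs o i R) univ {v} := by exact_mod_cast ha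
      linarith
    push_cast
    linarith
  -- (4)
  have h4a : ∀ v, (eb R {v} I : ℝ) - ε * n ≤ w {v} I := by
    intro v
    have h1 := (abs_le.mp (hL v)).1
    have h2 : (eb R {v} I : ℝ) = eb (own o i R) {v} I + eb (crs o i R) {v} I := by
      exact_mod_cast lown_R (o := o) (i := i) (R := R) {v} I
    rw [hwA]
    linarith
  have h4b : ∀ v, (eb R O {v} : ℝ) - ε * n ≤ w O {v} := by
    intro v
    have h1 := (abs_le.mp (hR v)).1
    have h2 : (eb R O {v} : ℝ) = eb (own o i R) O {v} + eb (crs o i R) O {v} := by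
      exact_mod_cast lown_R (o := o) (i := i) (R := R) O {v}
    rw [hwA]
    linarith
  have h4c : ∀ v ∈ P2, θ * n ≤ (eb R {v} I : ℝ) := by
    intro v hv
    have h1 := hown v
    rw [← hoI v (hP2O v hv)] at h1
    have h2 : (eb R {v} I : ℝ) = eb (own o i R) {v} I + eb (crs o i R) {v} I := by
      exact_mod_cast lown_R (o := o) (i := i) (R := R) {v} I
    have h3 : (0 : ℝ) ≤ eb (crs o i R) {v} I := by positivity
    linarith
  have h4d : ∀ v ∈ Q2, θ * n ≤ (eb R O {v} : ℝ) := by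
    intro v hv
    have h1 := hown' v
    rw [← hoO v (hQ2I v hv)] at h1
    have h2 : (eb R O {v} : ℝ) = eb (own o i R) O {v} + eb (crs o i R) O {v} := by
      exact_mod_cast lown_R (o := o) (i := i) (R := R) O {v}
    have h3 : (0 : ℝ) ≤ eb (crs o i R) O {v} := by positivity
    linarith
  have hsum_le : ∀ (A : Finset (Fin n)) (f : Fin n → ℝ) (c : ℝ), (∀ v ∈ A, f v ≤ c) →
      ∑ v ∈ A, f v ≤ A.card * c := by
    intro A f c h
    have := Finset.sum_le_sum h
    rwa [Finset.sum_const, nsmul_eq_mul] at this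
  have hsum_ge : ∀ (A : Finset (Fin n)) (f : Fin n → ℝ) (c : ℝ), (∀ v ∈ A, c ≤ f v) →
      A.card * c ≤ ∑ v ∈ A, f v := by
    intro A f c h
    have := Finset.sum_le_sum h
    rwa [Finset.sum_const, nsmul_eq_mul] at this
  have hwP1 : w P1 I ≤ P1.card * ((r : ℝ) - θ * n + ε * n) := by
    rw [hwsL]
    exact hsum_le _ _ _ h3a
  have hwQ1 : w O Q1 ≤ Q1.card * ((r : ℝ) - θ * n + ε * n) := by
    rw [hwsR]
    exact hsum_le _ _ _ h3b
  have hwP2 : (eb R P2 I : ℝ) - ε * n * P2.card ≤ w P2 I := by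
    rw [hwsL, lown_sumL]
    have h1 := Finset.sum_le_sum (s := P2) (fun v _ => h4a v)
    rw [Finset.sum_sub_distrib, Finset.sum_const, nsmul_eq_mul] at h1
    linarith
  have hwQ2 : (eb R O Q2 : ℝ) - ε * n * Q2.card ≤ w O Q2 := by
    rw [hwsR, lown_sumR]
    have h1 := Finset.sum_le_sum (s := Q2) (fun v _ => h4b v)
    rw [Finset.sum_sub_distrib, Finset.sum_const, nsmul_eq_mul] at h1
    linarith
  have heP2 : θ * n * P2.card ≤ (eb R P2 I : ℝ) := by
    rw [lown_sumL]
    have := hsum_ge P2 _ _ h4c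
    linarith
  have heQ2 : θ * n * Q2.card ≤ (eb R O Q2 : ℝ) := by
    rw [lown_sumR]
    have := hsum_ge Q2 _ _ h4d
    linarith
  -- decompositions
  have hXd : X = (O \ P1) ∪ P2 := by
    rw [hP1, hP2]
    ext z
    simp only [mem_union, mem_sdiff]
    tauto
  have hYd : Y = (I \ Q1) ∪ Q2 := by
    rw [hQ1, hQ2]
    ext z
    simp only [mem_union, mem_sdiff]
    tauto
  have hdX : Disjoint (O \ P1) P2 := by
    rw [Finset.disjoint_left]
    intro z hz hz'
    exact hP2O z hz' (mem_sdiff.mp hz).1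
  have hdY : Disjoint (I \ Q1) Q2 := by
    rw [Finset.disjoint_left]
    intro z hz hz'
    exact hQ2I z hz' (mem_sdiff.mp hz).1
  have hOd : w O I = w (O \ P1) I + w P1 I := by
    rw [← hwL _ _ _ sdiff_disjoint, sdiff_union_of_subset hP1O]
  have hOd2 : w (O \ P1) I = w (O \ P1) (I \ Q1) + w (O \ P1) Q1 := by
    rw [← hwR _ _ _ sdiff_disjoint, sdiff_union_of_subset hQ1I]
  have hOd3 : w O Q1 = w (O \ P1) Q1 + w P1 Q1 := by
    rw [← hwL _ _ _ sdiff_disjoint, sdiff_union_of_subset hP1O]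
  have hPd : w P2 I = w P2 (I \ Q1) + w P2 Q1 := by
    rw [← hwR _ _ _ sdiff_disjoint, sdiff_union_of_subset hQ1I]
  have hQd : w O Q2 = w (O \ P1) Q2 + w P1 Q2 := by
    rw [← hwL _ _ _ sdiff_disjoint, sdiff_union_of_subset hP1O]
  have hwXY : w X Y = w (O \ P1) (I \ Q1) + w (O \ P1) Q2 + (w P2 (I \ Q1) + w P2 Q2) := by
    have h1 : w X Y = w ((O \ P1) ∪ P2) ((I \ Q1) ∪ Q2) := by rw [← hXd, ← hYd]
    rw [h1, hwL _ _ _ hdX, hwR _ _ _ hdY, hwR _ _ _ hdY]
  have hwOI : (1 - ε) * eb R O I - ε * n ≤ w O I := by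
    rw [hwA]
    have : (0 : ℝ) ≤ eb (own o i R) O I := by positivity
    linarith
  have hb1 := hwle P2 Q1
  have hb2 := hwle P1 Q2
  have hw1 := hw0 P1 Q1
  have hw2 := hw0 P2 Q2
  -- (6)
  have hreg1 : (eb R O I : ℝ) + eb R O Iᶜ = r * O.card := by
    exact_mod_cast Reg.out O I hreg
  have hreg2 : (eb R O Iᶜ : ℝ) + eb R Oᶜ Iᶜ = r * (Iᶜ).card := by
    exact_mod_cast Reg.in O Iᶜ hreg
  have hreg3 : (eb R P2 I : ℝ) + eb R P2 Iᶜ = r * P2.card := by
    exact_mod_cast Reg.out P2 I hreg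
  have hreg4 : (eb R O Q2 : ℝ) + eb R Oᶜ Q2 = r * Q2.card := by
    exact_mod_cast Reg.in O Q2 hreg
  have hP2c : P2 ⊆ Oᶜ := fun v hv => mem_compl.mpr (hP2O v hv)
  have hQ2c : Q2 ⊆ Iᶜ := fun v hv => mem_compl.mpr (hQ2I v hv)
  have hsplit : eb R P2 Iᶜ + eb R Oᶜ Q2 ≤ eb R Oᶜ Iᶜ + eb R P2 Q2 := by
    have h1 : eb R Oᶜ Iᶜ = eb R (Oᶜ \ P2) Iᶜ + eb R P2 Iᶜ := by
      rw [← eb_union_left _ _ sdiff_disjoint, sdiff_union_of_subset hP2c]
    have h2 : eb R Oᶜ Q2 = eb R (Oᶜ \ P2) Q2 + eb R P2 Q2 := by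
      rw [← eb_union_left _ _ sdiff_disjoint, sdiff_union_of_subset hP2c]
    have h3 : eb R (Oᶜ \ P2) Q2 ≤ eb R (Oᶜ \ P2) Iᶜ :=
      eb_mono (subset_refl _) (subset_refl _) hQ2c
    omega
  have hsplit' : (eb R P2 Iᶜ : ℝ) + eb R Oᶜ Q2 ≤ eb R Oᶜ Iᶜ + eb R P2 Q2 := by
    exact_mod_cast hsplit
  have hPQ : (eb R P2 Q2 : ℝ) ≤ P2.card * Q2.card := by
    exact_mod_cast eb_le_card_mul R P2 Q2
  have hcX : X.card + P1.card = O.card + P2.card := by
    have h1 := Finset.card_sdiff_add_card X O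
    have h2 := Finset.card_sdiff_add_card O X
    rw [← hP2] at h1
    rw [← hP1, Finset.union_comm] at h2
    omega
  have hcY : Y.card + Q1.card = I.card + Q2.card := by
    have h1 := Finset.card_sdiff_add_card Y I
    have h2 := Finset.card_sdiff_add_card I Y
    rw [← hQ2] at h1
    rw [← hQ1, Finset.union_comm] at h2
    omega
  have hcI : I.card + (Iᶜ).card = n := by
    rw [Finset.card_add_card_compl, Fintype.card_fin]
  have hcX' : (X.card : ℝ) + P1.card = O.card + P2.card := by exact_mod_cast hcX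
  have hcY' : (Y.card : ℝ) + Q1.card = I.card + Q2.card := by exact_mod_cast hcY
  have hcI' : (I.card : ℝ) + (Iᶜ).card = n := by exact_mod_cast hcI
  have ht : (1 : ℝ) ≤ (X.card : ℝ) + Y.card - n := by
    have : ((n + 1 : ℕ) : ℝ) ≤ ((X.card + Y.card : ℕ) : ℝ) := by exact_mod_cast hXY
    push_cast at this
    linarith
  have key := lown_num n r ((X.card : ℝ) + Y.card - n) P1.card P2.card Q1.card Q2.card (eb R O I)
    (eb R P2 I) (eb R O Q2) (w X Y) N α θ ε β (Nat.cast_nonneg _) (by exact_mod_cast hrn) hαr hθ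
    hθα hα hε hεθ hβ hβε hNβ hN' ht (Nat.cast_nonneg _) (Nat.cast_nonneg _) (Nat.cast_nonneg _)
    (Nat.cast_nonneg _) (by linarith) (by linarith) heP2 heQ2 (Nat.cast_nonneg _) (by
      rw [hwXY]
      linarith) (by
      have h1 : (r : ℝ) * ((X.card : ℝ) + Y.card - n + (P1.card + Q1.card)) =
          r * O.card - r * (Iᶜ).card + r * P2.card + r * Q2.card := by
        have h2 : (X.card : ℝ) + Y.card - n + (P1.card + Q1.card) =
            O.card - (Iᶜ).card + P2.card + Q2.card := by linarith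
        rw [h2]
        ring
      rw [h1]
      linarith)
  have hsX : ((symmDiff X O).card : ℝ) = P1.card + P2.card := by
    have h1 : symmDiff X O = P2 ∪ P1 := by rw [hP1, hP2]; rfl
    have h2 : Disjoint P2 P1 := by
      rw [Finset.disjoint_left]
      intro z hz hz'
      exact hP2O z hz (hP1O hz')
    rw [h1, Finset.card_union_of_disjoint h2]
    push_cast
    ring
  have hsY : ((symmDiff Y I).card : ℝ) = Q1.card + Q2.card := by
    have h1 : symmDiff Y I = Q2 ∪ Q1 := by rw [hQ1, hQ2]; rfl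
    have h2 : Disjoint Q2 Q1 := by
      rw [Finset.disjoint_left]
      intro z hz hz'
      exact hQ2I z hz (hQ1I hz')
    rw [h1, Finset.card_union_of_disjoint h2]
    push_cast
    ring
  rw [hsX, hsY, ← hwA]
  exact key

end Pool.Agent.MPd266dbH
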