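import Pool.Agent.Lib.MP_d266db_co.H.SpecP

/-!
# MP_d266db_co, H, Mer: a transposition merges two cycles (helper86)
-/

set_option autoImplicit false

namespace Pool.Agent.MPd266dbH

open Finset Pool.Agent.MPd266db

theorem mer_val {n : ℕ} (σ : Equiv.Perm (Fin n)) (x y v : Fin n) (hx : v ≠ x) (hy : v ≠ y) :
    (σ * Equiv.swap x y) v = σ v := by
  rw [Equiv.Perm.mul_apply, Equiv.swap_apply_of_ne_of_ne hx hy]

/-- along the `σ`-cycle of `z` one gets to `z` with `g` -/
theorem mer_to {n : ℕ} {σ : Equiv.Perm (Fin n)} {x y z z' : Fin n}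
    (hz : (z = x ∧ z' = y) ∨ (z = y ∧ z' = x)) (hzz : ¬ σ.SameCycle z z') {v : Fin n}
    (hv : σ.SameCycle v z) : (σ * Equiv.swap x y).SameCycle v z := by
  classical
  have hex : ∃ i : ℕ, (σ ^ i) v = z := hv.exists_nat_pow_eq
  have hi := Nat.find_spec hex
  have hmin : ∀ s < Nat.find hex, (σ ^ s) v ≠ z := fun s hs => Nat.find_min hex hs
  set i := Nat.find hex with hidef
  have hne' : ∀ s : ℕ, (σ ^ s) v ≠ z' := by
    intro s hs
    apply hzz
    have h1 : σ.SameCycle v z' := ⟨(s : ℤ), by rw [zpow_natCast]; exact hs⟩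
    exact hv.symm.trans h1
  have hpow : ∀ s ≤ i, ((σ * Equiv.swap x y) ^ s) v = (σ ^ s) v := by
    intro s
    induction s with
    | zero => intro _; rfl
    | succ s ih =>
      intro hs
      have h1 := hmin s (by omega)
      have h2 := hne' s
      have hvx : (σ ^ s) v ≠ x ∧ (σ ^ s) v ≠ y := by
        rcases hz with ⟨rfl, rfl⟩ | ⟨rfl, rfl⟩
        · exact ⟨h1, h2⟩
        · exact ⟨h2, h1⟩
      rw [pow_succ', pow_succ', Equiv.Perm.mul_apply, ih (by omega), mer_val _ _ _ _ hvx.1 hvx.2,
        ← Equiv.Perm.mul_apply]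
  exact ⟨(i : ℤ), by rw [zpow_natCast, hpow i le_rfl, hi]⟩

theorem mer_iff {n : ℕ} {σ : Equiv.Perm (Fin n)} {x y : Fin n} (hxy : ¬ σ.SameCycle x y)
    (v w : Fin n) : (σ * Equiv.swap x y).SameCycle v w ↔ (σ.SameCycle v w ∨
      ((σ.SameCycle x v ∨ σ.SameCycle y v) ∧ (σ.SameCycle x w ∨ σ.SameCycle y w))) := by
  classical
  have hyx : ¬ σ.SameCycle y x := fun h => hxy h.symm
  have hne : x ≠ y := by
    rintro rfl
    exact hxy (Equiv.Perm.SameCycle.refl _ _)
  constructor
  · intro h
    obtain ⟨i, hi⟩ := h.exists_nat_pow_eq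
    have hstep : ∀ i : ℕ, σ.SameCycle v (((σ * Equiv.swap x y) ^ i) v) ∨
        ((σ.SameCycle x v ∨ σ.SameCycle y v) ∧ (σ.SameCycle x (((σ * Equiv.swap x y) ^ i) v) ∨
          σ.SameCycle y (((σ * Equiv.swap x y) ^ i) v))) := by
      intro i
      induction i with
      | zero => exact Or.inl (Equiv.Perm.SameCycle.refl _ _)
      | succ i ih =>
        rw [pow_succ', Equiv.Perm.mul_apply]
        set u := ((σ * Equiv.swap x y) ^ i) v with hu
        by_cases hux : u = x
        · right
          have e1 : (σ * Equiv.swap x y) u = σ y := by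
            rw [hux, Equiv.Perm.mul_apply, Equiv.swap_apply_left]
          rw [e1]
          refine ⟨?_, Or.inr ?_⟩
          · rcases ih with h1 | h1
            · left
              rw [hux] at h1
              exact h1.symm
            · exact h1.1
          · rw [Equiv.Perm.sameCycle_apply_right]
        · by_cases huy : u = y
          · right
            have e1 : (σ * Equiv.swap x y) u = σ x := by
              rw [huy, Equiv.Perm.mul_apply, Equiv.swap_apply_right]
            rw [e1]
            refine ⟨?_, Or.inl ?_⟩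
            · rcases ih with h1 | h1
              · right
                rw [huy] at h1
                exact h1.symm
              · exact h1.1
            · rw [Equiv.Perm.sameCycle_apply_right]
          · rw [mer_val _ _ _ _ hux huy]
            simp only [Equiv.Perm.sameCycle_apply_right]
            exact ih
    have h1 := hstep i
    rwa [hi] at h1
  · have hA : ∀ v, σ.SameCycle x v → (σ * Equiv.swap x y).SameCycle v x := fun v hv =>
      mer_to (Or.inl ⟨rfl, rfl⟩) hxy hv.symm
    have hB : ∀ v, σ.SameCycle y v → (σ * Equiv.swap x y).SameCycle v y := fun v hv =>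
      mer_to (Or.inr ⟨rfl, rfl⟩) hyx hv.symm
    have hxy' : (σ * Equiv.swap x y).SameCycle x y := by
      have h1 : (σ * Equiv.swap x y).SameCycle (σ y) y := by
        apply hB
        rw [Equiv.Perm.sameCycle_apply_right]
      have e1 : (σ * Equiv.swap x y) x = σ y := by
        rw [Equiv.Perm.mul_apply, Equiv.swap_apply_left]
      rw [← e1, Equiv.Perm.sameCycle_apply_left] at h1
      exact h1
    have hAB : ∀ v, (σ.SameCycle x v ∨ σ.SameCycle y v) →
        (σ * Equiv.swap x y).SameCycle v x := by
      rintro v (hv | hv)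
      · exact hA v hv
      · exact (hB v hv).trans hxy'.symm
    rintro (h | ⟨h1, h2⟩)
    · by_cases hv : σ.SameCycle x v ∨ σ.SameCycle y v
      · have hw : σ.SameCycle x w ∨ σ.SameCycle y w := by
          rcases hv with hv | hv
          · exact Or.inl (hv.trans h)
          · exact Or.inr (hv.trans h)
        exact (hAB v hv).trans (hAB w hw).symm
      · push Not at hv
        obtain ⟨i, hi⟩ := h.exists_nat_pow_eq
        have hpow : ∀ s : ℕ, ((σ * Equiv.swap x y) ^ s) v = (σ ^ s) v := by
          intro s
          induction s with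
          | zero => rfl
          | succ s ih =>
            have hs : σ.SameCycle v ((σ ^ s) v) := ⟨(s : ℤ), by rw [zpow_natCast]⟩
            have h1 : (σ ^ s) v ≠ x := by
              intro h'
              rw [h'] at hs
              exact hv.1 hs.symm
            have h2 : (σ ^ s) v ≠ y := by
              intro h'
              rw [h'] at hs
              exact hv.2 hs.symm
            rw [pow_succ', pow_succ', Equiv.Perm.mul_apply, ih, mer_val _ _ _ _ h1 h2,
              ← Equiv.Perm.mul_apply]
        exact ⟨(i : ℤ), by rw [zpow_natCast, hpow i, hi]⟩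
    · exact (hAB v h1).trans (hAB w h2).symm

theorem tMer : S_Mer := by
  classical
  intro n σ x y hxy
  refine ⟨?_, mer_iff hxy⟩
  have hne : cls σ x ≠ cls σ y := fun h => hxy (cls_eq.1 h)
  have hgx : ∀ v, (σ.SameCycle x v ∨ σ.SameCycle y v) →
      cls (σ * Equiv.swap x y) v = cls σ x ∪ cls σ y := by
    intro v hv
    ext w
    rw [mem_cls, mem_union, mem_cls, mem_cls, mer_iff hxy]
    constructor
    · rintro (h | h)
      · rcases hv with hv | hv
        · exact Or.inl (hv.trans h)
        · exact Or.inr (hv.trans h)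
      · exact h.2
    · intro h
      exact Or.inr ⟨hv, h⟩
  have hgo : ∀ v, ¬ (σ.SameCycle x v ∨ σ.SameCycle y v) →
      cls (σ * Equiv.swap x y) v = cls σ v := by
    intro v hv
    ext w
    rw [mem_cls, mem_cls, mer_iff hxy]
    constructor
    · rintro (h | h)
      · exact h
      · exact absurd h.1 hv
    · intro h
      exact Or.inl h
  have himg : univ.image (cls (σ * Equiv.swap x y)) =
      insert (cls σ x ∪ cls σ y) (((univ.image (cls σ)).erase (cls σ x)).erase (cls σ y)) := by
    ext c
    simp only [mem_image, mem_univ, true_and, mem_insert, mem_erase]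
    constructor
    · rintro ⟨v, rfl⟩
      by_cases hv : σ.SameCycle x v ∨ σ.SameCycle y v
      · exact Or.inl (hgx v hv)
      · right
        rw [hgo v hv]
        push Not at hv
        refine ⟨fun h => hv.2 (cls_eq.1 h).symm, fun h => hv.1 (cls_eq.1 h).symm, v, rfl⟩
    · rintro (rfl | ⟨h1, h2, v, rfl⟩)
      · exact ⟨x, hgx x (Or.inl (Equiv.Perm.SameCycle.refl _ _))⟩
      · refine ⟨v, hgo v ?_⟩
        rintro (h | h)
        · exact h2 (cls_eq.2 h.symm)
        · exact h1 (cls_eq.2 h.symm)
  have hnot : cls σ x ∪ cls σ y ∉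
      ((univ.image (cls σ)).erase (cls σ x)).erase (cls σ y) := by
    intro h
    simp only [mem_image, mem_univ, true_and, mem_erase] at h
    obtain ⟨-, h2, v, hv⟩ := h
    apply h2
    have hx : x ∈ cls σ v := by
      rw [hv]
      exact mem_union_left _ (mem_cls.2 (Equiv.Perm.SameCycle.refl _ _))
    rw [← hv]
    exact cls_eq.2 (mem_cls.1 hx)
  unfold cyc
  rw [himg, card_insert_of_notMem hnot]
  have hx1 : cls σ x ∈ univ.image (cls σ) := mem_image_of_mem _ (mem_univ x)
  have hy1 : cls σ y ∈ (univ.image (cls σ)).erase (cls σ x) :=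
    mem_erase.2 ⟨hne.symm, mem_image_of_mem _ (mem_univ y)⟩
  have c1 := card_erase_add_one hx1
  have c2 := card_erase_add_one hy1
  omega

end Pool.Agent.MPd266dbH
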