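import Pool.Agent.Lib.MP_d266db_co.H.SpecM

/-!
# MP_d266db_co, H: descent inside the clusters
-/

set_option autoImplicit false

namespace Pool.Agent.MPd266dbH

open Finset Pool.Agent.MPd266db

theorem tMinC (hTyp : S_Typ) : S_MinC := by
  classical
  intro n K k S o i cl X Y Γ h x y d c ν hX hd hd1 hh hx hyx σ ρ1 U Q hXU hU hinv
  set C : Finset (Equiv.Perm (Fin n)) := univ.filter (fun ρ' =>
    (∀ v, (∀ p, v ∉ X p \ Q) → ρ' v = ρ1 v) ∧ (∀ p, ∀ v ∈ X p \ Q, ρ' v ∈ Y p) ∧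
      ∀ v, ρ' v = ρ1 v ∨ (v, ρ' v) ∈ S) with hC
  have memC : ∀ ρ', ρ' ∈ C ↔ (∀ v, (∀ p, v ∉ X p \ Q) → ρ' v = ρ1 v) ∧
      (∀ p, ∀ v ∈ X p \ Q, ρ' v ∈ Y p) ∧ ∀ v, ρ' v = ρ1 v ∨ (v, ρ' v) ∈ S := by
    intro ρ'
    rw [hC, mem_filter]
    exact ⟨fun h => h.2, fun h => ⟨mem_univ _, h⟩⟩
  have h1 : ρ1 ∈ C := (memC ρ1).2 ⟨fun _ _ => rfl,
    fun p v hv => hinv.st p v (mem_sdiff.1 hv).1 (mem_sdiff.1 hv).2, fun v => Or.inl rfl⟩
  obtain ⟨ρ, hρC, hmin⟩ := exists_min_image C cyc ⟨ρ1, h1⟩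
  obtain ⟨ha, hb, hc⟩ := (memC ρ).1 hρC
  refine ⟨ρ, ⟨?_, ?_, ?_, ?_, ?_⟩, hmin ρ1 h1, ?_⟩
  · exact fun p v hv hvQ => hb p v (mem_sdiff.2 ⟨hv, hvQ⟩)
  · intro v hvU hvQ
    rw [ha v (fun p hp => hvU (hXU p (mem_sdiff.1 hp).1))]
    exact hinv.off v hvU hvQ
  · intro v hv
    rcases hc v with h | h
    · rw [h]
      exact hinv.arc v hv
    · exact Or.inr h
  · exact fun v hv => absurd hv (notMem_empty v)
  · intro v hv
    have hvU : v ∉ U := fun h => hv (hU v h)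
    rw [ha v (fun p hp => hvU (hXU p (mem_sdiff.1 hp).1))]
    exact hinv.cro v hv
  · intro p hp
    refine hTyp n K k S o i cl X Y Γ h x y d c ν hX hd hd1 hh hx hyx ρ Q p
      (fun v hv hvQ => hb p v (mem_sdiff.2 ⟨hv, hvQ⟩)) hp ?_
    intro ρ' e1 e2 e3
    refine hmin ρ' ((memC ρ').2 ⟨?_, ?_, ?_⟩)
    · intro v hv
      rw [e1 v (hv p), ha v hv]
    · intro p' v hv
      by_cases hpp : p' = p
      · subst hpp
        exact e2 v hv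
      · have : v ∉ X p \ Q := fun h =>
          disjoint_left.1 (hX.dX p' p hpp) (mem_sdiff.1 hv).1 (mem_sdiff.1 h).1
        rw [e1 v this]
        exact hb p' v hv
    · intro v
      rcases e3 v with h | h
      · rw [h]
        exact hc v
      · exact Or.inr h

end Pool.Agent.MPd266dbH
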