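import Pool.Agent.Lib.MP_d266db_co.H.SpecR

/-!
# MP_d266db_co, H, NPM: almost perfect matchings
-/

set_option autoImplicit false

namespace Pool.Agent.MPd266dbH

open Finset Pool.Agent.MPd266db

theorem tNPM : S_NPM := by
  classical
  intro n h S A B hS
  obtain ⟨X, hX, hmax⟩ := Finset.exists_max_image
    (A.powerset.filter (fun X : Finset (Fin n) => ∃ φ : Fin n → Fin n,
      Set.InjOn φ (X : Set (Fin n)) ∧ ∀ v ∈ X, φ v ∈ B ∧ (v, φ v) ∈ S)) Finset.card
    ⟨∅, Finset.mem_filter.mpr ⟨Finset.empty_mem_powerset A, id, by simp, by simp⟩⟩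
  obtain ⟨hXA, φ, hφ, hφB⟩ := Finset.mem_filter.mp hX
  rw [Finset.mem_powerset] at hXA
  refine ⟨X, φ, hXA, hφ, hφB, ?_⟩
  by_contra hcon
  rw [not_or, not_le, not_le] at hcon
  have h1 : h ≤ (A \ X).card := by
    have := Finset.card_le_card_sdiff_add_card (s := A) (t := X)
    omega
  have h2 : h ≤ (B \ X.image φ).card := by
    have h3 := Finset.card_le_card_sdiff_add_card (s := B) (t := X.image φ)
    have h4 := Finset.card_image_le (s := X) (f := φ)
    omega
  obtain ⟨a, ha, b, hb, hab⟩ := hS (A \ X) (B \ X.image φ) Finset.sdiff_subset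
    Finset.sdiff_subset h1 h2
  rw [Finset.mem_sdiff] at ha hb
  have h5 := hmax (insert a X) (Finset.mem_filter.mpr ⟨?_, Function.update φ a b, ?_, ?_⟩)
  · rw [Finset.card_insert_of_notMem ha.2] at h5
    omega
  · rw [Finset.mem_powerset]
    exact Finset.insert_subset ha.1 hXA
  · have h6 : ∀ v ∈ X, Function.update φ a b v = φ v := by
      intro v hv
      rw [Function.update_of_ne]
      rintro rfl
      exact ha.2 hv
    intro u hu v hv huv
    rw [Finset.mem_coe, Finset.mem_insert] at hu hv
    rcases hu with rfl | hu <;> rcases hv with rfl | hv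
    · rfl
    · exfalso
      rw [h6 v hv, Function.update_self] at huv
      exact hb.2 (Finset.mem_image.mpr ⟨v, hv, huv.symm⟩)
    · exfalso
      rw [h6 u hu, Function.update_self] at huv
      exact hb.2 (Finset.mem_image.mpr ⟨u, hu, huv⟩)
    · rw [h6 u hu, h6 v hv] at huv
      exact hφ hu hv huv
  · intro v hv
    rw [Finset.mem_insert] at hv
    by_cases hva : v = a
    · subst hva
      rw [Function.update_self]
      exact ⟨hb.1, hab⟩
    · rw [Function.update_of_ne hva]
      rcases hv with hv | hv
      · exact absurd hv hva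
      · exact hφB v hv

end Pool.Agent.MPd266dbH
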