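import Pool.Agent.Lib.MP_d266db_co.H.SpecF

/-!
# MP_d266db_co, H, NrR: the reservoir satisfies `MHyp`
-/

set_option autoImplicit false

namespace Pool.Agent.MPd266dbH

open Finset Pool.Agent.MPd266db

/-- the exceptional vertices of a degree function which is almost proportional to another one -/
theorem nrr_half (n r : ℕ) (x δ γ g ρ : ℝ) (f fA : Fin n → ℕ) (hn : 1 ≤ n) (hx : 1 ≤ x)
    (hρ : x * ρ = r) (hg : 0 < g) (hgd : γ + 2 * δ ≤ g ^ 2)
    (hS : ∀ X : Finset (Fin n), |x * ((∑ v ∈ X, f v : ℕ) : ℝ) - ((∑ v ∈ X, fA v : ℕ) : ℝ)|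
      ≤ δ * (n : ℝ) ^ 2)
    (hup : ∀ X : Finset (Fin n), ((∑ v ∈ X, fA v : ℕ) : ℝ) ≤ r * X.card)
    (hlo : ∀ X : Finset (Fin n), (r : ℝ) * X.card ≤ ((∑ v ∈ X, fA v : ℕ) : ℝ) + γ * (n : ℝ) ^ 2) :
    ((univ.filter (fun v => g * n < |(f v : ℝ) - ρ|)).card : ℝ) ≤ g * n := by
  have hn' : (1 : ℝ) ≤ n := by exact_mod_cast hn
  have hn0 : (0 : ℝ) < n := by linarith
  have hx0 : 0 < x := by linarith
  set X : Finset (Fin n) := univ.filter (fun v => g * n < (f v : ℝ) - ρ) with hX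
  set X' : Finset (Fin n) := univ.filter (fun v => g * n < ρ - (f v : ℝ)) with hX'
  have hsub : univ.filter (fun v => g * n < |(f v : ℝ) - ρ|) ⊆ X ∪ X' := by
    intro v hv
    rw [mem_filter] at hv
    rw [mem_union, hX, hX', mem_filter, mem_filter]
    rcases lt_abs.1 hv.2 with h | h
    · exact Or.inl ⟨mem_univ v, h⟩
    · exact Or.inr ⟨mem_univ v, by linarith⟩
  have hcard : ((univ.filter (fun v => g * n < |(f v : ℝ) - ρ|)).card : ℝ) ≤ X.card + X'.card := by
    have := (card_le_card hsub).trans (card_union_le X X')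
    exact_mod_cast this
  -- upper part
  have h1 : (ρ + g * n) * X.card ≤ ((∑ v ∈ X, f v : ℕ) : ℝ) := by
    have : ∑ v ∈ X, (ρ + g * n) ≤ ∑ v ∈ X, (f v : ℝ) := by
      apply sum_le_sum
      intro v hv
      rw [hX, mem_filter] at hv
      linarith [hv.2]
    rw [sum_const, nsmul_eq_mul] at this
    push_cast
    linarith
  have h2 : ((∑ v ∈ X', f v : ℕ) : ℝ) ≤ (ρ - g * n) * X'.card := by
    have : ∑ v ∈ X', (f v : ℝ) ≤ ∑ v ∈ X', (ρ - g * n) := by
      apply sum_le_sum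
      intro v hv
      rw [hX', mem_filter] at hv
      linarith [hv.2]
    rw [sum_const, nsmul_eq_mul] at this
    push_cast
    linarith
  have e1 := abs_le.1 (hS X)
  have e2 := abs_le.1 (hS X')
  have u1 := hup X
  have l2 := hlo X'
  have k1 : x * ((ρ + g * n) * X.card) ≤ x * ((∑ v ∈ X, f v : ℕ) : ℝ) :=
    mul_le_mul_of_nonneg_left h1 hx0.le
  have k2 : x * ((∑ v ∈ X', f v : ℕ) : ℝ) ≤ x * ((ρ - g * n) * X'.card) :=
    mul_le_mul_of_nonneg_left h2 hx0.le
  have m1 : x * ((ρ + g * n) * X.card) = r * X.card + x * (g * n * X.card) := by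
    rw [← hρ]; ring
  have m2 : x * ((ρ - g * n) * X'.card) = r * X'.card - x * (g * n * X'.card) := by
    rw [← hρ]; ring
  have p1 : x * (g * n * X.card) ≤ δ * (n : ℝ) ^ 2 := by linarith [e1.2]
  have p2 : x * (g * n * X'.card) ≤ (γ + δ) * (n : ℝ) ^ 2 := by linarith [e2.1]
  have q1 : g * n * X.card ≤ x * (g * n * X.card) :=
    le_mul_of_one_le_left (by positivity) hx
  have q2 : g * n * X'.card ≤ x * (g * n * X'.card) :=
    le_mul_of_one_le_left (by positivity) hx
  have s1 : (g * n) * ((X.card : ℝ) + X'.card) ≤ (g * n) * (g * n) := by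
    have : (γ + 2 * δ) * (n : ℝ) ^ 2 ≤ g ^ 2 * (n : ℝ) ^ 2 :=
      mul_le_mul_of_nonneg_right hgd (by positivity)
    nlinarith
  exact hcard.trans (le_of_mul_le_mul_left s1 (by positivity))

/-- the arcs of `E` from `X` to `Y` are own or cross -/
theorem nrr_oc {n K : ℕ} (o i : Fin n → Fin K) (E : Finset (Fin n × Fin n)) (X Y : Finset (Fin n)) :
    eb E X Y ≤ eb (own o i E) X Y + (crs o i E).card := by
  have h : E.filter (fun e => e.1 ∈ X ∧ e.2 ∈ Y) ⊆
      (own o i E).filter (fun e => e.1 ∈ X ∧ e.2 ∈ Y) ∪ crs o i E := by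
    intro e he
    rw [mem_filter] at he
    rw [mem_union, mem_filter]
    by_cases hoi : o e.1 = i e.2
    · exact Or.inl ⟨mem_filter.2 ⟨he.1, hoi⟩, he.2⟩
    · exact Or.inr (mem_filter.2 ⟨he.1, hoi⟩)
  exact (card_le_card h).trans (card_union_le _ _)

/-- inside of a class all arcs are own -/
theorem nrr_in {n K : ℕ} (o i : Fin n → Fin K) (E : Finset (Fin n × Fin n)) (a : Fin K)
    (X Y : Finset (Fin n)) (hX : X ⊆ Cl o a) (hY : Y ⊆ Cl i a) :
    eb E X Y ≤ eb (own o i E) X Y := by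
  apply card_le_card
  intro e he
  rw [mem_filter] at he ⊢
  refine ⟨mem_filter.2 ⟨he.1, ?_⟩, he.2⟩
  have h1 := hX he.2.1
  have h2 := hY he.2.2
  rw [Cl, mem_filter] at h1 h2
  rw [h1.2, h2.2]

/-- the lower bound for the degrees -/
theorem nrr_deg (r K K0 dA dS : ℕ) (n : ℕ) (x α δ : ℝ) (hx : 0 < x) (hK1 : 1 ≤ K) (hK : K ≤ K0)
    (hα : α * n ≤ r) (hδ : 2 * δ ≤ 1) (h1 : r ≤ K * dA) (h2 : (1 - δ) * dA ≤ x * dS) :
    α / (2 * K0 * x) * n ≤ dS := by
  have hK0 : (1 : ℝ) ≤ K0 := by exact_mod_cast hK1.trans hK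
  have hKK : (K : ℝ) ≤ K0 := by exact_mod_cast hK
  have h1' : (r : ℝ) ≤ K * dA := by exact_mod_cast h1
  have hdA : (0 : ℝ) ≤ dA := Nat.cast_nonneg dA
  have h3 : (K : ℝ) * dA ≤ K0 * dA := mul_le_mul_of_nonneg_right hKK hdA
  have h4 : (dA : ℝ) ≤ 2 * (x * dS) := by nlinarith
  have h5 : (K0 : ℝ) * dA ≤ K0 * (2 * (x * dS)) := mul_le_mul_of_nonneg_left h4 (by linarith)
  have hp : 0 < 2 * (K0 : ℝ) * x := by positivity
  rw [div_mul_eq_mul_div, div_le_iff₀ hp]
  nlinarith

theorem tNrR : S_NrR := by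
  intro n r K K0 M R S o i α γ δ g β ν hn hR hα hα0 hK1 hK hγ hδ hδ1 hg hν hgd hS hcr hrob
    hod hid hSX hSo hSi
  have hn' : (1 : ℝ) ≤ n := by exact_mod_cast hn
  have hM0 : (0 : ℝ) ≤ M := Nat.cast_nonneg M
  have hx1 : (1 : ℝ) ≤ (M : ℝ) + 1 := by linarith
  have hx : (0 : ℝ) < (M : ℝ) + 1 := by linarith
  have hK0 : (1 : ℝ) ≤ K0 := by exact_mod_cast hK1.trans hK
  have hr0 : (0 : ℝ) ≤ r := Nat.cast_nonneg r
  have hrn : r ≤ n := by
    have h1 := Reg.out univ univ hR
    have h2 := eb_le_card_mul R univ univ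
    have h3 : eb R univ (univ : Finset (Fin n))ᶜ = 0 := by
      rw [compl_univ]
      simp [eb]
    rw [h3, add_zero] at h1
    rw [h1, card_univ, Fintype.card_fin] at h2
    exact Nat.le_of_mul_le_mul_right h2 hn
  have hrn' : (r : ℝ) ≤ n := by exact_mod_cast hrn
  have hxρ : ((M : ℝ) + 1) * (r / (M + 1)) = r := by
    field_simp
  refine ⟨?_, ?_, ?_, ?_, ?_, ?_, ?_⟩
  · intro e he
    exact (mem_filter.1 (hS he)).2
  · intro v
    exact nrr_deg r K K0 _ _ n _ α δ hx hK1 hK hα hδ1 (hod v) (hSo v)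
  · intro v
    exact nrr_deg r K K0 _ _ n _ α δ hx hK1 hK hα hδ1 (hid v) (hSi v)
  · refine ⟨?_, ?_⟩
    · apply nrr_half n r _ δ γ g _ (od S) (od (own o i R)) hn hx1 hxρ hg hgd
      · intro X
        rw [← eb_univ_right, ← eb_univ_right]
        exact hSX X univ
      · intro X
        have h1 : eb (own o i R) X univ ≤ eb R X univ := eb_mono (filter_subset _ _) subset_rfl subset_rfl
        rw [eb_univ_right, eb_univ_right, sum_congr rfl (fun v _ => (hR v).1), sum_const,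
          smul_eq_mul, mul_comm] at h1
        exact_mod_cast h1
      · intro X
        have h1 := nrr_oc o i R X univ
        rw [eb_univ_right, eb_univ_right, sum_congr rfl (fun v _ => (hR v).1), sum_const,
          smul_eq_mul, mul_comm] at h1
        have h2 : (r : ℝ) * X.card ≤ ((∑ v ∈ X, od (own o i R) v : ℕ) : ℝ) + (crs o i R).card := by
          exact_mod_cast h1
        linarith
    · apply nrr_half n r _ δ γ g _ (idg S) (idg (own o i R)) hn hx1 hxρ hg hgd
      · intro X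
        rw [← eb_univ_left, ← eb_univ_left]
        exact hSX univ X
      · intro X
        have h1 : eb (own o i R) univ X ≤ eb R univ X := eb_mono (filter_subset _ _) subset_rfl subset_rfl
        rw [eb_univ_left, eb_univ_left, sum_congr rfl (fun v _ => (hR v).2), sum_const,
          smul_eq_mul, mul_comm] at h1
        exact_mod_cast h1
      · intro X
        have h1 := nrr_oc o i R univ X
        rw [eb_univ_left, eb_univ_left, sum_congr rfl (fun v _ => (hR v).2), sum_const,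
          smul_eq_mul, mul_comm] at h1
        have h2 : (r : ℝ) * X.card ≤ ((∑ v ∈ X, idg (own o i R) v : ℕ) : ℝ) + (crs o i R).card := by
          exact_mod_cast h1
        linarith
  · rw [div_mul_eq_mul_div, div_le_div_iff₀ (by positivity) hx]
    have h1 : 0 ≤ α * n := by positivity
    have h2 : α * n * (M + 1) ≤ r * (M + 1) := mul_le_mul_of_nonneg_right hα hx.le
    have h3 : (r : ℝ) * (M + 1) ≤ r * (2 * K0 * (M + 1)) := by
      apply mul_le_mul_of_nonneg_left _ hr0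
      nlinarith
    linarith
  · rw [div_le_iff₀ hx]
    nlinarith
  · intro a X Y hX hY h1 h2
    have h3 := hrob a X Y hX hY h1 h2
    have h4 : (eb R X Y : ℝ) ≤ eb (own o i R) X Y := by
      exact_mod_cast nrr_in o i R a X Y hX hY
    have h5 : (eb R (Cl o a \ X) (Cl i a \ Y) : ℝ) ≤ eb (own o i R) (Cl o a \ X) (Cl i a \ Y) := by
      exact_mod_cast nrr_in o i R a _ _ sdiff_subset sdiff_subset
    have h6 := (abs_le.1 (hSX X Y)).1
    have h7 := (abs_le.1 (hSX (Cl o a \ X) (Cl i a \ Y))).1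
    have h8 : 4 * δ * (n : ℝ) ^ 2 ≤ ν * (n : ℝ) ^ 2 := mul_le_mul_of_nonneg_right hν (by positivity)
    rw [div_mul_eq_mul_div, div_le_iff₀ (by positivity)]
    nlinarith

end Pool.Agent.MPd266dbH
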