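import Pool.Agent.Lib.MP_d266db_co.H.SpecR

/-!
# MP_d266db_co, H, NrS: sums of degrees of an almost regular digraph
-/

set_option autoImplicit false

namespace Pool.Agent.MPd266dbH

open Finset Pool.Agent.MPd266db

theorem nrs_aux {n : ℕ} (d : Fin n → ℕ) (ρ τ : ℝ) (h0 : 0 ≤ ρ) (hn : ρ ≤ n) (hτ : 0 ≤ τ)
    (hd : ∀ v, d v ≤ n)
    (hc : ((univ.filter (fun v => τ * n < |(d v : ℝ) - ρ|)).card : ℝ) ≤ τ * n)
    (X : Finset (Fin n)) : |(∑ v ∈ X, (d v : ℝ)) - ρ * X.card| ≤ 2 * τ * (n : ℝ) ^ 2 := by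
  have hn0 : (0 : ℝ) ≤ n := Nat.cast_nonneg n
  have h1 : (∑ v ∈ X, (d v : ℝ)) - ρ * X.card = ∑ v ∈ X, ((d v : ℝ) - ρ) := by
    rw [Finset.sum_sub_distrib, Finset.sum_const, nsmul_eq_mul]
    ring
  rw [h1]
  have h2 : ∀ v, |(d v : ℝ) - ρ| ≤ τ * n + (if τ * n < |(d v : ℝ) - ρ| then (n : ℝ) else 0) := by
    intro v
    have h3 : (d v : ℝ) ≤ n := by exact_mod_cast hd v
    have h4 : (0 : ℝ) ≤ d v := Nat.cast_nonneg _
    have h5 : 0 ≤ τ * n := mul_nonneg hτ hn0
    split_ifs with h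
    · have h6 : |(d v : ℝ) - ρ| ≤ n := by
        rw [abs_le]
        constructor <;> linarith
      linarith
    · rw [not_lt] at h
      linarith
  calc |∑ v ∈ X, ((d v : ℝ) - ρ)| ≤ ∑ v ∈ X, |(d v : ℝ) - ρ| := Finset.abs_sum_le_sum_abs _ _
    _ ≤ ∑ v, |(d v : ℝ) - ρ| :=
        Finset.sum_le_sum_of_subset_of_nonneg (Finset.subset_univ X) (fun _ _ _ => abs_nonneg _)
    _ ≤ ∑ v, (τ * n + (if τ * n < |(d v : ℝ) - ρ| then (n : ℝ) else 0)) :=
        Finset.sum_le_sum (fun v _ => h2 v)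
    _ = n * (τ * n) + ((univ.filter (fun v => τ * n < |(d v : ℝ) - ρ|)).card : ℝ) * n := by
        rw [Finset.sum_add_distrib, Finset.sum_const, Finset.card_univ, Fintype.card_fin,
          nsmul_eq_mul, ← Finset.sum_filter, Finset.sum_const, nsmul_eq_mul]
    _ ≤ n * (τ * n) + (τ * n) * n := by
        have := mul_le_mul_of_nonneg_right hc hn0
        linarith
    _ = 2 * τ * (n : ℝ) ^ 2 := by ring

theorem nrs_od {n : ℕ} (S : Finset (Fin n × Fin n)) (v : Fin n) : od S v ≤ n := by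
  have h : (S.filter (fun e => e.1 = v)).card ≤ (univ : Finset (Fin n)).card := by
    apply Finset.card_le_card_of_injOn Prod.snd (fun _ _ => Finset.mem_univ _)
    intro a ha b hb hab
    have ha' := (Finset.mem_filter.mp ha).2
    have hb' := (Finset.mem_filter.mp hb).2
    exact Prod.ext (ha'.trans hb'.symm) hab
  rw [Finset.card_univ, Fintype.card_fin] at h
  exact h

theorem nrs_idg {n : ℕ} (S : Finset (Fin n × Fin n)) (v : Fin n) : idg S v ≤ n := by
  have h : (S.filter (fun e => e.2 = v)).card ≤ (univ : Finset (Fin n)).card := by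
    apply Finset.card_le_card_of_injOn Prod.fst (fun _ _ => Finset.mem_univ _)
    intro a ha b hb hab
    have ha' := (Finset.mem_filter.mp ha).2
    have hb' := (Finset.mem_filter.mp hb).2
    exact Prod.ext hab (ha'.trans hb'.symm)
  rw [Finset.card_univ, Fintype.card_fin] at h
  exact h

theorem tNrS : S_NrS := by
  intro n S ρ τ h0 hn hτ hS X
  exact ⟨nrs_aux (od S) ρ τ h0 hn hτ (nrs_od S) hS.1 X,
    nrs_aux (idg S) ρ τ h0 hn hτ (nrs_idg S) hS.2 X⟩

end Pool.Agent.MPd266dbH
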