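import Pool.Agent.Lib.MP_d266db_co.H.SpecR

/-!
# MP_d266db_co, H, NuX: the numbers in the merging lemma
-/

set_option autoImplicit false

namespace Pool.Agent.MPd266dbH

open Finset Pool.Agent.MPd266db

theorem nux_main (n k s Q h x y L V cy θ ν ε β1 : ℝ) (hn : 1 ≤ n) (hk : 0 ≤ k) (hs : 1 ≤ s)
    (hQ : 1 ≤ Q) (hx : 0 ≤ x) (hL : 6 ≤ L)
    (hθ : 0 < θ) (hθ1 : θ ≤ 1) (hν : 0 < ν) (hε : 0 < ε)
    (h1 : 100000 * L ^ 2 * ε ≤ ν * θ ^ 2) (h2 : h ≤ β1 * s + 1) (h3 : 16 * Q * β1 ≤ ε)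
    (h4 : 4 * Q * x ≤ 3 * s) (h5 : θ * s ≤ 20 * Q * y) (h6 : Q * V ≤ ε * n)
    (h7 : Q * cy ≤ ε * n) (h8 : n ≤ 2 * (k * s)) (h9 : k * s ≤ n) (h10 : 20 * Q * k ≤ ε * n) :
    8 * (L * V + L * (k + L * V + 2 * h * k + V + cy + 8 * x * (L * V) / y)) ≤ ν * k * y := by
  have hQ0 : 0 < Q := by linarith
  have hs0 : 0 < s := by linarith
  have hL0 : 0 < L := by linarith
  have hn0 : 0 < n := by linarith
  obtain ⟨E, hE⟩ : ∃ E, E = ε * n / Q := ⟨_, rfl⟩
  have hQE : Q * E = ε * n := by rw [hE]; field_simp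
  have hE0 : 0 < E := by rw [hE]; positivity
  have hy0 : 0 < y := by
    by_contra hcon
    rw [not_lt] at hcon
    have h11 : 0 < θ * s := mul_pos hθ hs0
    have h12 : 20 * Q * y ≤ 0 := mul_nonpos_of_nonneg_of_nonpos (by positivity) hcon
    linarith
  have hVE : V ≤ E := by
    have : Q * V ≤ Q * E := by rw [hQE]; exact h6
    exact le_of_mul_le_mul_left this hQ0
  have hcE : cy ≤ E := by
    have : Q * cy ≤ Q * E := by rw [hQE]; exact h7
    exact le_of_mul_le_mul_left this hQ0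
  have hkE : 20 * k ≤ E := by
    have : Q * (20 * k) ≤ Q * E := by rw [hQE]; linarith
    exact le_of_mul_le_mul_left this hQ0
  have hhk : 2 * h * k ≤ 9 / 40 * E := by
    have h11 : h * k ≤ (β1 * s + 1) * k := mul_le_mul_of_nonneg_right h2 hk
    have h12 : (16 * Q * β1) * (k * s) ≤ ε * (k * s) :=
      mul_le_mul_of_nonneg_right h3 (mul_nonneg hk hs0.le)
    have h13 : ε * (k * s) ≤ ε * n := mul_le_mul_of_nonneg_left h9 hε.le
    have h14 : Q * (16 * (β1 * (k * s))) ≤ Q * E := by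
      rw [hQE]
      linarith
    have h15 := le_of_mul_le_mul_left h14 hQ0
    have h16 : (β1 * s + 1) * k = β1 * (k * s) + k := by ring
    linarith
  have hxy : x / y ≤ 15 / θ := by
    rw [div_le_div_iff₀ hy0 hθ]
    have h11 : θ * (4 * Q * x) ≤ θ * (3 * s) := mul_le_mul_of_nonneg_left h4 hθ.le
    have h12 : Q * (x * θ) ≤ Q * (15 * y) := by linarith
    exact le_of_mul_le_mul_left h12 hQ0
  have hxv : 8 * x * (L * V) / y ≤ 120 * (L * E / θ) := by
    have h11 : 8 * x * (L * V) / y = 8 * (L * V) * (x / y) := by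
      field_simp
    have h12 : 120 * (L * E / θ) = 8 * (L * E) * (15 / θ) := by
      field_simp
      ring
    rw [h11, h12]
    apply mul_le_mul _ hxy (div_nonneg hx hy0.le) (by positivity)
    have : L * V ≤ L * E := mul_le_mul_of_nonneg_left hVE hL0.le
    linarith
  have hLV : L * V ≤ L * E := mul_le_mul_of_nonneg_left hVE hL0.le
  have hLθ : L * E ≤ L * E / θ := by
    rw [le_div_iff₀ hθ]
    have : 0 < L * E := mul_pos hL0 hE0
    nlinarith
  have hE1 : 6 * E ≤ L * E := mul_le_mul_of_nonneg_right hL hE0.le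
  have hleft : 8 * (L * V + L * (k + L * V + 2 * h * k + V + cy + 8 * x * (L * V) / y)) ≤
      8 * (L * (122 * (L * E / θ))) := by
    have h11 : V + (k + L * V + 2 * h * k + V + cy + 8 * x * (L * V) / y) ≤
        122 * (L * E / θ) := by
      linarith
    have h12 := mul_le_mul_of_nonneg_left h11 hL0.le
    linarith
  refine hleft.trans ?_
  have h11 : θ * n ≤ 40 * Q * (k * y) := by
    have h12 : k * (θ * s) ≤ k * (20 * Q * y) := mul_le_mul_of_nonneg_left h5 hk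
    have h13 : θ * n ≤ θ * (2 * (k * s)) := mul_le_mul_of_nonneg_left h8 hθ.le
    linarith
  have h12 : 8 * (L * (122 * (L * E / θ))) = 976 * L ^ 2 * E / θ := by
    field_simp
    ring
  rw [h12, div_le_iff₀ hθ]
  have h13 : 39040 * L ^ 2 * ε ≤ ν * θ ^ 2 := by
    have : 0 ≤ L ^ 2 * ε := by positivity
    linarith
  have h14 : Q * (40 * (976 * L ^ 2 * E)) ≤ Q * (40 * (ν * k * y * θ)) := by
    have h15 : Q * (40 * (976 * L ^ 2 * E)) = 39040 * L ^ 2 * ε * n := by
      have : Q * (40 * (976 * L ^ 2 * E)) = 39040 * L ^ 2 * (Q * E) := by ring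
      rw [this, hQE]
      ring
    rw [h15]
    have h16 : 39040 * L ^ 2 * ε * n ≤ ν * θ ^ 2 * n := mul_le_mul_of_nonneg_right h13 hn0.le
    have h17 : ν * θ * (θ * n) ≤ ν * θ * (40 * Q * (k * y)) :=
      mul_le_mul_of_nonneg_left h11 (by positivity)
    linarith
  have h15 := le_of_mul_le_mul_left h14 hQ0
  linarith

theorem tNuX : S_NuX := by
  intro n k s Q h x y ℓ V cy θ ν ε β1 hn hs hQ hθ hθ1 hν hε h1 h2 h3 h4 h5 h6 h7 h8 h9 h10
  exact nux_main n k s Q h x y (4 * ℓ + 6) V cy θ ν ε β1 (by exact_mod_cast hn)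
    (Nat.cast_nonneg k) (by exact_mod_cast hs) (by exact_mod_cast hQ) (Nat.cast_nonneg x)
    (by have : (0 : ℝ) ≤ ℓ := Nat.cast_nonneg ℓ
        linarith) hθ hθ1 hν hε h1 h2 h3 (by exact_mod_cast h4) h5 h6 h7
    (by exact_mod_cast h8) (by exact_mod_cast h9) h10

end Pool.Agent.MPd266dbH
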