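import Pool.Agent.Lib.MP_d266db_co.H.SpecR

/-!
# MP_d266db_co, H, One: from one cycle per class to one cycle
-/

set_option autoImplicit false

namespace Pool.Agent.MPd266dbH

open Finset Pool.Agent.MPd266db

theorem tOne (hLnk : S_Lnk) : S_One := by
  classical
  intro n K o i S σ ρ g lam hn hg hlam hS hσ hL h1 h2 h3
  have key : ∀ v, o v = i (σ v) → o v = i (ρ v) := by
    intro v hv
    rcases h1 v with h | h
    · rw [h]
      exact hv
    · exact hS _ h
  have hn' : (0 : ℝ) < n := by exact_mod_cast hn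
  apply hLnk n K o i ρ ⌊g * n⌋₊ h3
  · intro v
    by_contra hcon
    push Not at hcon
    -- on the cycle of `v` the permutations agree
    have h4 : ∀ w, ρ.SameCycle v w → ρ w = σ w ∧ o w ≠ i (σ w) := by
      intro w hw
      have h5 : o w ≠ i (σ w) := fun h => hcon w hw (key w h)
      exact ⟨h2 w h5, h5⟩
    have h6 : ∀ k : ℕ, (σ ^ k) v = (ρ ^ k) v := by
      intro k
      induction k with
      | zero => rfl
      | succ k ih =>
        rw [pow_succ', pow_succ', Equiv.Perm.mul_apply, Equiv.Perm.mul_apply, ih]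
        exact (h4 ((ρ ^ k) v) ⟨k, by rw [zpow_natCast]⟩).1.symm
    obtain ⟨w, hw, hwo⟩ := hσ.own v
    obtain ⟨k, _, hk⟩ := hw.exists_pow_eq'
    apply (h4 w ?_).2 hwo
    refine ⟨k, ?_⟩
    rw [zpow_natCast, ← h6, hk]
  · apply Nat.le_floor
    refine le_trans ?_ hσ.cross
    exact_mod_cast Finset.card_le_card (by
      intro v hv
      rw [Finset.mem_filter] at hv ⊢
      exact ⟨hv.1, fun h => hv.2 (key v h)⟩)
  · intro J hJ hJ'
    obtain ⟨a, ha, b, hb, hab⟩ := hL J hJ hJ'
    refine ⟨a, ha, b, hb, Or.inr ?_⟩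
    have h4 : ((⌊g * n⌋₊ : ℕ) : ℝ) ≤ g * n := Nat.floor_le (by positivity)
    have h5 : 0 < g * n := by positivity
    have h6 : 4 * g * n ≤ lam * n := by
      exact mul_le_mul_of_nonneg_right hlam hn'.le
    have h7 : ((2 * ⌊g * n⌋₊ : ℕ) : ℝ) < ((Cl o b ∩ Cl i a).card : ℝ) := by
      push_cast
      linarith
    exact_mod_cast h7

end Pool.Agent.MPd266dbH
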