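import Pool.Agent.Lib.MP_d266db_co.H.SpecR

/-!
# MP_d266db_co, H: cutting sets into pieces of the same size (`S_Pcs`)
-/

set_option autoImplicit false

namespace Pool.Agent.MPd266dbH

open Finset Pool.Agent.MPd266db

private theorem pcs_aux (n m s : ℕ) (hs : 1 ≤ s) : ∀ (N : ℕ) (F : Fin m → Finset (Fin n)),
    (∑ j, (F j).card) ≤ N → (∀ j j', j ≠ j' → Disjoint (F j) (F j')) →
    ∃ (k : ℕ) (T : Fin k → Finset (Fin n)) (f : Fin k → Fin m),
      (∀ p, T p ⊆ F (f p) ∧ (T p).card = s) ∧ (∀ p p', p ≠ p' → Disjoint (T p) (T p')) ∧
      (univ.biUnion F \ univ.biUnion T).card ≤ m * s := by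
  intro N
  induction N with
  | zero =>
    intro F hF hd
    refine ⟨0, fun p => p.elim0, fun p => p.elim0, fun p => p.elim0, fun p => p.elim0, ?_⟩
    calc (univ.biUnion F \ univ.biUnion (fun p : Fin 0 => (p.elim0 : Finset (Fin n)))).card
        ≤ (univ.biUnion F).card := card_le_card sdiff_subset
      _ ≤ ∑ j, (F j).card := card_biUnion_le
      _ ≤ m * s := by omega
  | succ N ih =>
    intro F hF hd
    by_cases hall : ∀ j, (F j).card < s
    · refine ⟨0, fun p => p.elim0, fun p => p.elim0, fun p => p.elim0, fun p => p.elim0, ?_⟩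
      calc (univ.biUnion F \ univ.biUnion (fun p : Fin 0 => (p.elim0 : Finset (Fin n)))).card
          ≤ (univ.biUnion F).card := card_le_card sdiff_subset
        _ ≤ ∑ j, (F j).card := card_biUnion_le
        _ ≤ ∑ _j : Fin m, s := sum_le_sum fun j _ => (hall j).le
        _ = m * s := by simp
    · push Not at hall
      obtain ⟨j, hj⟩ := hall
      obtain ⟨A, hA, hAs⟩ := Finset.exists_subset_card_eq hj
      let F' : Fin m → Finset (Fin n) := fun i => if i = j then F j \ A else F i
      have hF'j : F' j = F j \ A := by simp [F']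
      have hF'i : ∀ i, i ≠ j → F' i = F i := fun i hi => by simp [F', hi]
      have hsub : ∀ i, F' i ⊆ F i := by
        intro i
        by_cases hi : i = j
        · subst hi
          rw [hF'j]
          exact sdiff_subset
        · rw [hF'i i hi]
      have hlt : ∑ i, (F' i).card < ∑ i, (F i).card := by
        apply sum_lt_sum (fun i _ => card_le_card (hsub i))
        refine ⟨j, mem_univ j, ?_⟩
        rw [hF'j, card_sdiff_of_subset hA, hAs]
        omega
      have hd' : ∀ i i', i ≠ i' → Disjoint (F' i) (F' i') := fun i i' h =>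
        (hd i i' h).mono (hsub i) (hsub i')
      obtain ⟨k, T, f, h1, h2, h3⟩ := ih F' (by omega) hd'
      have hAT : ∀ q, Disjoint A (T q) := by
        intro q
        have hq := (h1 q).1
        by_cases hf : f q = j
        · rw [hf, hF'j] at hq
          exact disjoint_sdiff.mono_right hq
        · rw [hF'i _ hf] at hq
          exact (hd j (f q) (fun h => hf h.symm)).mono hA hq
      refine ⟨k + 1, Fin.cons A T, Fin.cons j f, ?_, ?_, ?_⟩
      · intro p
        refine Fin.cases ?_ (fun q => ?_) p
        · simp only [Fin.cons_zero]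
          exact ⟨hA, hAs⟩
        · simp only [Fin.cons_succ]
          exact ⟨(h1 q).1.trans (hsub _), (h1 q).2⟩
      · intro p p'
        refine Fin.cases ?_ (fun q => ?_) p
        · refine Fin.cases ?_ (fun q' => ?_) p'
          · intro h
            exact absurd rfl h
          · intro _
            simp only [Fin.cons_zero, Fin.cons_succ]
            exact hAT q'
        · refine Fin.cases ?_ (fun q' => ?_) p'
          · intro _
            simp only [Fin.cons_zero, Fin.cons_succ]
            exact (hAT q).symm
          · intro h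
            simp only [Fin.cons_succ]
            exact h2 q q' (fun h' => h (by rw [h']))
      · refine (card_le_card ?_).trans h3
        intro x hx
        rw [mem_sdiff, mem_biUnion, mem_biUnion] at hx ⊢
        obtain ⟨⟨i, -, hxi⟩, hxT⟩ := hx
        have hxA : x ∉ A := fun h => hxT ⟨0, mem_univ _, by simpa using h⟩
        refine ⟨⟨i, mem_univ _, ?_⟩, ?_⟩
        · by_cases hi : i = j
          · subst hi
            rw [hF'j, mem_sdiff]
            exact ⟨hxi, hxA⟩
          · rw [hF'i i hi]
            exact hxi
        · rintro ⟨q, -, hq⟩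
          exact hxT ⟨q.succ, mem_univ _, by simpa using hq⟩

theorem tPcs : S_Pcs := fun n m s F hs hd => pcs_aux n m s hs _ F le_rfl hd

end Pool.Agent.MPd266dbH
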