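import Pool.Agent.Lib.MP_d266db_co.H.SpecP

/-!
# MP_d266db_co, H, Pos: positions of the cycles (helper86)
-/

set_option autoImplicit false

namespace Pool.Agent.MPd266dbH

open Finset Pool.Agent.MPd266db

theorem tPos : S_Pos := by
  classical
  intro n ρ
  have hne : ∀ v : Fin n, (cls ρ v).Nonempty := fun v =>
    ⟨v, mem_cls.2 (Equiv.Perm.SameCycle.refl _ _)⟩
  let B : Fin n → Fin n := fun v => (cls ρ v).min' (hne v)
  have hB : ∀ v, ρ.SameCycle v (B v) := fun v => mem_cls.1 (min'_mem _ (hne v))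
  have hBe : ∀ v w, ρ.SameCycle v w → B v = B w := by
    intro v w h
    have h1 : cls ρ v = cls ρ w := cls_eq.2 h
    simp only [B, h1]
  have hex : ∀ v, ∃ j : ℕ, (ρ ^ j) (B v) = v := fun v => (hB v).symm.exists_nat_pow_eq
  let idx : Fin n → ℕ := fun v => Nat.find (hex v)
  have hidx : ∀ v, (ρ ^ (idx v)) (B v) = v := fun v => Nat.find_spec (hex v)
  have hmin : ∀ v (j : ℕ), (ρ ^ j) (B v) = v → idx v ≤ j := fun v j h => Nat.find_min' (hex v) h
  let N : ℕ := (∑ v, idx v) + 1
  have hN : ∀ v, idx v < N := fun v =>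
    Nat.lt_succ_of_le (Finset.single_le_sum (f := idx) (fun _ _ => Nat.zero_le _) (mem_univ v))
  have hN0 : 0 < N := Nat.succ_pos _
  refine ⟨fun v => idx v + (B v : ℕ) * N, ?_, ?_⟩
  · intro v w h
    simp only at h
    have h1 : (idx v + (B v : ℕ) * N) / N = (idx w + (B w : ℕ) * N) / N := by rw [h]
    rw [Nat.add_mul_div_right _ _ hN0, Nat.add_mul_div_right _ _ hN0, Nat.div_eq_of_lt (hN v),
      Nat.div_eq_of_lt (hN w), zero_add, zero_add] at h1
    rw [h1] at h
    have h2 : idx v = idx w := Nat.add_right_cancel h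
    have h3 : B v = B w := Fin.ext h1
    rw [← hidx v, ← hidx w, h2, h3]
  · intro x y hxy hlt
    simp only at hlt
    have hBxy := hBe x y hxy
    rw [hBxy] at hlt
    have hlt' : idx x < idx y := Nat.lt_of_add_lt_add_right hlt
    have hy : ∀ s : ℕ, (ρ ^ (idx x + s)) (B y) = (ρ ^ s) x := by
      intro s
      rw [add_comm, pow_add, Equiv.Perm.mul_apply, ← hBxy, hidx x]
    have hym : y = (ρ ^ (idx y - idx x)) x := by
      rw [← hy, Nat.add_sub_cancel' hlt'.le, hidx y]
    refine ⟨idx y - idx x, by omega, hym, fun s hs => ?_⟩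
    have hsame : ρ.SameCycle ((ρ ^ s) x) y := by
      have h1 : ρ.SameCycle x ((ρ ^ s) x) := ⟨(s : ℤ), by rw [zpow_natCast]⟩
      exact h1.symm.trans hxy
    have hBs := hBe _ _ hsame
    have h1 : idx ((ρ ^ s) x) ≤ idx x + s := by
      apply hmin
      rw [hBs]
      exact hy s
    have h2 : idx ((ρ ^ s) x) = idx x + s := by
      by_contra hcon
      have h3 : idx ((ρ ^ s) x) < idx x + s := by omega
      have h4 : (ρ ^ (idx ((ρ ^ s) x))) (B y) = (ρ ^ (idx x + s)) (B y) := by
        rw [hy s, ← hBs]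
        exact hidx _
      have h5 : (ρ ^ (idx y - (idx x + s) + idx ((ρ ^ s) x))) (B y) = y := by
        rw [pow_add, Equiv.Perm.mul_apply, h4, ← Equiv.Perm.mul_apply, ← pow_add,
          Nat.sub_add_cancel (by omega), hidx y]
      have h6 := hmin y _ h5
      omega
    simp only
    rw [h2, hBs, hBxy]
    constructor
    · omega
    · have : idx x + s ≤ idx y := by omega
      omega

end Pool.Agent.MPd266dbH
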