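import Pool.Agent.Lib.MP_d266db_co.H.SpecQ

/-!
# MP_d266db_co, H, PrC: all cuts of a random part
-/

set_option autoImplicit false

namespace Pool.Agent.MPd266dbH

open Finset Pool.Agent.MPd266db

theorem prc_lt {M T a b : ℕ} (ha : a < M + 1) (hb : b < T) : b + T * a < (M + 1) * T := by
  have h1 : T * a + T ≤ (M + 1) * T := by
    have := Nat.mul_le_mul_right T (show a + 1 ≤ M + 1 from ha)
    linarith
  omega

/-- labels with a given quotient and remainder -/
theorem prc_card1 {M T m s : ℕ} (hm : m < M + 1) (hs : s < T) :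
    (univ.filter (fun l : Fin ((M + 1) * T) => (l : ℕ) / T = m ∧ (l : ℕ) % T = s)).card = 1 := by
  have hT : 0 < T := by omega
  rw [Finset.card_eq_one]
  refine ⟨⟨s + T * m, prc_lt hm hs⟩, ?_⟩
  ext l
  simp only [mem_filter, mem_univ, true_and, mem_singleton]
  constructor
  · rintro ⟨h1, h2⟩
    apply Fin.ext
    show (l : ℕ) = s + T * m
    rw [← h1, ← h2]
    exact (Nat.mod_add_div _ _).symm
  · rintro rfl
    show (s + T * m) / T = m ∧ (s + T * m) % T = s
    rw [Nat.add_mul_div_left _ _ hT, Nat.div_eq_of_lt hs, zero_add, Nat.add_mul_mod_self_left,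
      Nat.mod_eq_of_lt hs]
    exact ⟨rfl, rfl⟩

/-- labels with a given remainder -/
theorem prc_card2 {M T s : ℕ} (hs : s < T) :
    (univ.filter (fun l : Fin ((M + 1) * T) => (l : ℕ) % T = s)).card = M + 1 := by
  have hT : 0 < T := by omega
  have h : (univ.filter (fun l : Fin ((M + 1) * T) => (l : ℕ) % T = s)) =
      (univ : Finset (Fin (M + 1))).map ⟨fun a => ⟨s + T * a, prc_lt a.2 hs⟩, by
        intro a a' haa
        have h' : s + T * (a : ℕ) = s + T * (a' : ℕ) := congrArg Fin.val haa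
        have h'' : T * (a : ℕ) = T * (a' : ℕ) := by omega
        exact Fin.ext (Nat.eq_of_mul_eq_mul_left hT h'')⟩ := by
    ext l
    simp only [mem_filter, mem_univ, true_and, mem_map, Function.Embedding.coeFn_mk]
    constructor
    · intro hl
      have hq : (l : ℕ) / T < M + 1 := by
        rw [Nat.div_lt_iff_lt_mul hT]
        exact l.2
      refine ⟨⟨(l : ℕ) / T, hq⟩, ?_⟩
      apply Fin.ext
      show s + T * ((l : ℕ) / T) = l
      rw [← hl]
      exact Nat.mod_add_div _ _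
    · rintro ⟨a, rfl⟩
      show (s + T * (a : ℕ)) % T = s
      rw [Nat.add_mul_mod_self_left, Nat.mod_eq_of_lt hs]
  rw [h, Finset.card_map, Finset.card_univ, Fintype.card_fin]

theorem prc_eb {n L : ℕ} (T m s : ℕ) (A0 Cm : Finset (Fin n × Fin n)) (hd : Disjoint A0 Cm)
    (c : Fin n × Fin n → Fin L) (X Y : Finset (Fin n)) :
    (((A0 ∪ Cm).filter (fun e => e.1 ∈ X ∧ e.2 ∈ Y)).filter (fun e => c e ∈
      (if e ∈ A0 then univ.filter (fun l : Fin L => (l : ℕ) / T = m ∧ (l : ℕ) % T = s)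
        else univ.filter (fun l : Fin L => (l : ℕ) % T = s)))).card = eb (PP T m s A0 Cm c) X Y := by
  classical
  rw [eb, PP]
  congr 1
  ext e
  simp only [mem_filter, mem_union]
  by_cases he : e ∈ A0
  · have he' : e ∉ Cm := Finset.disjoint_left.1 hd he
    simp only [he, he', if_true, mem_filter, mem_univ, true_and, or_false, false_and]
    tauto
  · simp only [he, if_false, mem_filter, mem_univ, true_and, false_or, false_and]
    tauto

/-- one pair of sets -/
theorem prc_one (hChf : S_Chf) {n M T m s : ℕ} (A0 Cm : Finset (Fin n × Fin n)) (c0 δ : ℝ)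
    (hn : 1 ≤ n) (hm : m < M) (hs : s < T) (hd : Disjoint A0 Cm) (hδ : 0 < δ)
    (hδ1 : δ ≤ 1) (h12 : 12 * ((M : ℝ) + 1) * T * Real.log n ≤ δ ^ 2 * c0 * n)
    (X Y : Finset (Fin n)) (j : ℕ)
    (hj : c0 * n * (1 + j) ≤ (eb A0 X Y : ℝ) + (M + 1) * eb Cm X Y) :
    ((univ.filter (fun c : Fin n × Fin n → Fin ((M + 1) * T) =>
      ((M : ℝ) + 1) * T * eb (PP T m s A0 Cm c) X Y <
        (1 - δ) * ((eb A0 X Y : ℝ) + (M + 1) * eb Cm X Y))).card : ℝ) ≤
      (((M + 1) * T : ℕ) : ℝ) ^ (n * n) * (((n : ℝ) ^ 6)⁻¹) ^ (1 + j) := by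
  classical
  have hT : 0 < T := by omega
  have hT' : (0 : ℝ) < T := by exact_mod_cast hT
  have hM' : (0 : ℝ) < (M : ℝ) + 1 := by positivity
  have hn' : (0 : ℝ) < n := by exact_mod_cast hn
  set F := (A0 ∪ Cm).filter (fun e => e.1 ∈ X ∧ e.2 ∈ Y) with hF
  set A : Fin n × Fin n → Finset (Fin ((M + 1) * T)) := fun e =>
    if e ∈ A0 then univ.filter (fun l : Fin ((M + 1) * T) => (l : ℕ) / T = m ∧ (l : ℕ) % T = s)
        else univ.filter (fun l : Fin ((M + 1) * T) => (l : ℕ) % T = s) with hA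
  have h1 := hChf (Fin n × Fin n) ((M + 1) * T) F A δ (Nat.mul_pos (Nat.succ_pos M) hT) hδ.le hδ1
  rw [Fintype.card_prod, Fintype.card_fin] at h1
  have hμ : ∑ e ∈ F, (((A e).card : ℝ) / (((M + 1) * T : ℕ) : ℝ)) =
      ((eb A0 X Y : ℝ) + (M + 1) * eb Cm X Y) / (((M : ℝ) + 1) * T) := by
    have hF2 : F = A0.filter (fun e => e.1 ∈ X ∧ e.2 ∈ Y) ∪ Cm.filter (fun e => e.1 ∈ X ∧ e.2 ∈ Y) := by
      rw [hF, Finset.filter_union]
    rw [hF2, Finset.sum_union (Finset.disjoint_filter_filter hd)]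
    have e1 : ∑ e ∈ A0.filter (fun e => e.1 ∈ X ∧ e.2 ∈ Y),
        (((A e).card : ℝ) / (((M + 1) * T : ℕ) : ℝ)) = (eb A0 X Y : ℝ) * (1 / (((M : ℝ) + 1) * T)) := by
      rw [Finset.sum_congr rfl (g := fun _ => 1 / (((M : ℝ) + 1) * T)), Finset.sum_const,
        nsmul_eq_mul]
      · rfl
      · intro e he
        have he' : e ∈ A0 := (mem_filter.1 he).1
        simp only [hA, if_pos he']
        rw [prc_card1 (hm.trans (Nat.lt_succ_self M)) hs]
        push_cast
        rfl
    have e2 : ∑ e ∈ Cm.filter (fun e => e.1 ∈ X ∧ e.2 ∈ Y),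
        (((A e).card : ℝ) / (((M + 1) * T : ℕ) : ℝ)) =
          (eb Cm X Y : ℝ) * (((M : ℝ) + 1) / (((M : ℝ) + 1) * T)) := by
      rw [Finset.sum_congr rfl (g := fun _ => ((M : ℝ) + 1) / (((M : ℝ) + 1) * T)), Finset.sum_const,
        nsmul_eq_mul]
      · rfl
      · intro e he
        have he' : e ∉ A0 := Finset.disjoint_right.1 hd (mem_filter.1 he).1
        simp only [hA, if_neg he']
        rw [prc_card2 hs]
        push_cast
        rfl
    rw [e1, e2]
    field_simp
  rw [hμ] at h1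
  refine le_trans (Nat.cast_le.2 (Finset.card_le_card ?_)) (h1.trans ?_)
  · intro c hc
    rw [mem_filter] at hc ⊢
    refine ⟨mem_univ _, ?_⟩
    have h2 : (F.filter (fun e => c e ∈ A e)).card = eb (PP T m s A0 Cm c) X Y :=
      prc_eb T m s A0 Cm hd c X Y
    rw [h2, ← mul_div_assoc, le_div_iff₀ (by positivity)]
    linarith [hc.2]
  · apply mul_le_mul_of_nonneg_left _ (by positivity)
    have h3 : (((n : ℝ) ^ 6)⁻¹) ^ (1 + j) = Real.exp (-((1 + j) * (6 * Real.log n))) := by
      have h4 : ((n : ℝ) ^ 6)⁻¹ = Real.exp (-(6 * Real.log n)) := by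
        rw [Real.exp_neg]
        congr 1
        have := Real.exp_nat_mul (Real.log n) 6
        rw [Real.exp_log hn'] at this
        rw [← this]
        norm_num
      rw [h4, ← Real.exp_nat_mul]
      congr 1
      push_cast
      ring
    rw [h3]
    apply Real.exp_le_exp.2
    apply neg_le_neg
    have h5 : δ ^ 2 * (((eb A0 X Y : ℝ) + (M + 1) * eb Cm X Y) / (((M : ℝ) + 1) * T)) / 2 =
        δ ^ 2 * ((eb A0 X Y : ℝ) + (M + 1) * eb Cm X Y) / (2 * (((M : ℝ) + 1) * T)) := by
      field_simp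
    rw [h5, le_div_iff₀ (by positivity)]
    have h6 : δ ^ 2 * (c0 * n * (1 + j)) ≤ δ ^ 2 * ((eb A0 X Y : ℝ) + (M + 1) * eb Cm X Y) :=
      mul_le_mul_of_nonneg_left hj (by positivity)
    have h7 : (12 * ((M : ℝ) + 1) * T * Real.log n) * (1 + j) ≤ (δ ^ 2 * c0 * n) * (1 + j) :=
      mul_le_mul_of_nonneg_right h12 (by positivity)
    linarith

/-- the sum over all sets -/
theorem prc_sum {n : ℕ} (r : ℝ) (O : Finset (Fin n)) :
    ∑ X : Finset (Fin n), r ^ (symmDiff X O).card = (1 + r) ^ n := by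
  classical
  have h1 : ∑ X : Finset (Fin n), r ^ (symmDiff X O).card = ∑ X : Finset (Fin n), r ^ X.card := by
    apply Finset.sum_bijective (fun X : Finset (Fin n) => symmDiff X O)
    · exact Function.Involutive.bijective fun X => symmDiff_symmDiff_cancel_right O X
    · intro X
      simp
    · intro X _
      rfl
  rw [h1]
  have h2 := Fintype.sum_pow_mul_eq_add_pow (Fin n) r 1
  simp only [one_pow, mul_one, Fintype.card_fin] at h2
  rw [h2, add_comm]

theorem prc_prod {n : ℕ} (f g : Finset (Fin n) → ℝ) :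
    ∑ p : Finset (Fin n) × Finset (Fin n), f p.1 * g p.2 = (∑ X, f X) * ∑ Y, g Y := by
  rw [Fintype.sum_prod_type, Finset.sum_mul_sum]

theorem tPrC (hChf : S_Chf) : S_PrC := by
  intro n K M T m s o i A0 Cm c0 δ hn hm hs hd hc0 hδ hδ1 h12 hcut
  classical
  set N : ℝ := (((M + 1) * T : ℕ) : ℝ) ^ (n * n) with hN
  set r : ℝ := ((n : ℝ) ^ 6)⁻¹ with hr
  have hN0 : 0 ≤ N := by positivity
  have hr0 : 0 ≤ r := by positivity
  set B : Finset (Fin n) × Finset (Fin n) → Finset (Fin n × Fin n → Fin ((M + 1) * T)) := fun p =>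
    univ.filter (fun c => n + 1 ≤ p.1.card + p.2.card ∧ ((M : ℝ) + 1) * T *
      eb (PP T m s A0 Cm c) p.1 p.2 < (1 - δ) * ((eb A0 p.1 p.2 : ℝ) + (M + 1) * eb Cm p.1 p.2))
    with hB
  have hb : ∀ p, ((B p).card : ℝ) ≤ ∑ J : Finset (Fin K),
      N * r * (r ^ (symmDiff p.1 (ClU o J)).card * r ^ (symmDiff p.2 (ClU i Jᶜ)).card) := by
    intro p
    by_cases h : n + 1 ≤ p.1.card + p.2.card
    · obtain ⟨J, hJ⟩ := hcut p.1 p.2 h
      have h1 := prc_one hChf A0 Cm c0 δ hn hm hs hd hδ hδ1 h12 p.1 p.2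
        ((symmDiff p.1 (ClU o J)).card + (symmDiff p.2 (ClU i Jᶜ)).card) (by
          push_cast
          rw [← add_assoc]
          exact hJ)
      have h2 : ((B p).card : ℝ) ≤ N * r ^ (1 + ((symmDiff p.1 (ClU o J)).card +
          (symmDiff p.2 (ClU i Jᶜ)).card)) := by
        refine le_trans (Nat.cast_le.2 (Finset.card_le_card ?_)) h1
        intro c hc
        rw [hB, mem_filter] at hc
        rw [mem_filter]
        exact ⟨mem_univ _, hc.2.2⟩
      refine h2.trans ?_
      have h3 : N * r ^ (1 + ((symmDiff p.1 (ClU o J)).card + (symmDiff p.2 (ClU i Jᶜ)).card)) =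
          N * r * (r ^ (symmDiff p.1 (ClU o J)).card * r ^ (symmDiff p.2 (ClU i Jᶜ)).card) := by
        rw [pow_add, pow_add, pow_one]
        ring
      rw [h3]
      exact Finset.single_le_sum (f := fun J : Finset (Fin K) =>
        N * r * (r ^ (symmDiff p.1 (ClU o J)).card * r ^ (symmDiff p.2 (ClU i Jᶜ)).card))
        (fun J _ => by positivity) (mem_univ J)
    · have : B p = ∅ := by
        rw [hB, Finset.filter_eq_empty_iff]
        rintro c - ⟨h', -⟩
        exact h h'
      rw [this]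
      simp only [card_empty, Nat.cast_zero]
      exact Finset.sum_nonneg fun J _ => by positivity
  have hsub : (univ.filter (fun c : Fin n × Fin n → Fin ((M + 1) * T) => ∃ X Y : Finset (Fin n),
      n + 1 ≤ X.card + Y.card ∧ ((M : ℝ) + 1) * T * eb (PP T m s A0 Cm c) X Y <
        (1 - δ) * ((eb A0 X Y : ℝ) + (M + 1) * eb Cm X Y))) ⊆ univ.biUnion B := by
    intro c hc
    rw [mem_filter] at hc
    obtain ⟨-, X, Y, hXY⟩ := hc
    rw [mem_biUnion]
    refine ⟨(X, Y), mem_univ _, ?_⟩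
    rw [hB, mem_filter]
    exact ⟨mem_univ _, hXY⟩
  have hcard := (Finset.card_le_card hsub).trans Finset.card_biUnion_le
  refine (Nat.cast_le.2 hcard).trans ?_
  push_cast
  calc ∑ p : Finset (Fin n) × Finset (Fin n), ((B p).card : ℝ) ≤
      ∑ p : Finset (Fin n) × Finset (Fin n), ∑ J : Finset (Fin K),
        N * r * (r ^ (symmDiff p.1 (ClU o J)).card * r ^ (symmDiff p.2 (ClU i Jᶜ)).card) :=
        Finset.sum_le_sum fun p _ => hb p
    _ = ∑ J : Finset (Fin K), N * r * ((1 + r) ^ n * (1 + r) ^ n) := by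
        rw [Finset.sum_comm]
        apply Finset.sum_congr rfl
        intro J _
        rw [← Finset.mul_sum]
        congr 1
        rw [prc_prod (fun X => r ^ (symmDiff X (ClU o J)).card)
          (fun Y => r ^ (symmDiff Y (ClU i Jᶜ)).card), prc_sum, prc_sum]
    _ = N * (2 ^ K * r * (1 + r) ^ (2 * n)) := by
        rw [Finset.sum_const, Finset.card_univ, Fintype.card_finset, Fintype.card_fin, nsmul_eq_mul,
          two_mul, pow_add]
        push_cast
        ring

end Pool.Agent.MPd266dbH
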