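import Pool.Agent.Lib.MP_d266db_co.H.SpecQ

/-!
# MP_d266db_co, H, PrD: degrees of the reservoir
-/

set_option autoImplicit false

namespace Pool.Agent.MPd266dbH

open Finset Pool.Agent.MPd266db

/-- labels with a given quotient -/
theorem prd_card {M T : ℕ} (m : ℕ) (hm : m < M + 1) :
    (univ.filter (fun l : Fin ((M + 1) * T) => (l : ℕ) / T = m)).card = T := by
  classical
  rcases Nat.eq_zero_or_pos T with rfl | hT
  · rw [Finset.card_eq_zero, Finset.filter_eq_empty_iff]
    intro l
    exact absurd l.2 (by simp)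
  have hv : ∀ b : Fin T, (b : ℕ) + T * m < (M + 1) * T := by
    intro b
    have h1 : T * m + T ≤ (M + 1) * T := by
      have := Nat.mul_le_mul_right T (show m + 1 ≤ M + 1 from hm)
      linarith
    have := b.2
    omega
  have h : (univ.filter (fun l : Fin ((M + 1) * T) => (l : ℕ) / T = m)) =
      (univ : Finset (Fin T)).map ⟨fun b => ⟨(b : ℕ) + T * m, hv b⟩, by
        intro b b' hb
        have hb' : (b : ℕ) + T * m = (b' : ℕ) + T * m := congrArg Fin.val hb
        exact Fin.ext (by omega)⟩ := by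
    ext l
    simp only [mem_filter, mem_univ, true_and, mem_map, Function.Embedding.coeFn_mk]
    constructor
    · intro hl
      refine ⟨⟨(l : ℕ) % T, Nat.mod_lt _ hT⟩, ?_⟩
      apply Fin.ext
      show (l : ℕ) % T + T * m = l
      rw [← hl]
      exact Nat.mod_add_div _ _
    · rintro ⟨b, rfl⟩
      show ((b : ℕ) + T * m) / T = m
      rw [Nat.add_mul_div_left _ _ hT, Nat.div_eq_of_lt b.2, zero_add]
  rw [h, Finset.card_map, Finset.card_univ, Fintype.card_fin]

theorem prd_one (hChf : S_Chf) {n M T : ℕ} (A0 : Finset (Fin n × Fin n)) (δ θ : ℝ) (hT : 1 ≤ T)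
    (hδ : 0 < δ) (hδ1 : δ ≤ 1) (F : Finset (Fin n × Fin n)) (hF : F ⊆ A0) (hθ : θ * n ≤ F.card) :
    ((univ.filter (fun c : Fin n × Fin n → Fin ((M + 1) * T) =>
      ((M : ℝ) + 1) * (F.filter (fun e => (c e : ℕ) / T = M)).card < (1 - δ) * F.card)).card : ℝ) ≤
      (((M + 1) * T : ℕ) : ℝ) ^ (n * n) * Real.exp (-(δ ^ 2 * θ * n / (2 * ((M : ℝ) + 1)))) := by
  have hT' : (0 : ℝ) < T := by exact_mod_cast hT
  have hM' : (0 : ℝ) < (M : ℝ) + 1 := by positivity
  have h1 := hChf (Fin n × Fin n) ((M + 1) * T) F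
    (fun _ => univ.filter (fun l : Fin ((M + 1) * T) => (l : ℕ) / T = M)) δ
    (Nat.mul_pos (Nat.succ_pos M) hT) hδ.le hδ1
  rw [Fintype.card_prod, Fintype.card_fin] at h1
  have hμ : ∑ e ∈ F, (((univ.filter (fun l : Fin ((M + 1) * T) => (l : ℕ) / T = M)).card : ℝ) /
      (((M + 1) * T : ℕ) : ℝ)) = F.card / ((M : ℝ) + 1) := by
    rw [prd_card M (Nat.lt_succ_self M), Finset.sum_const, nsmul_eq_mul]
    push_cast
    field_simp
  rw [hμ] at h1
  refine le_trans (Nat.cast_le.2 (Finset.card_le_card ?_)) (h1.trans ?_)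
  · intro c hc
    rw [mem_filter] at hc ⊢
    refine ⟨mem_univ _, ?_⟩
    have h2 : (F.filter (fun e => c e ∈ univ.filter (fun l : Fin ((M + 1) * T) => (l : ℕ) / T = M))) =
        F.filter (fun e => (c e : ℕ) / T = M) := by
      ext e
      simp
    rw [h2, ← mul_div_assoc, le_div_iff₀ hM']
    linarith [hc.2]
  · apply mul_le_mul_of_nonneg_left _ (by positivity)
    apply Real.exp_le_exp.2
    have h3 : δ ^ 2 * θ * n / (2 * ((M : ℝ) + 1)) ≤ δ ^ 2 * (F.card / ((M : ℝ) + 1)) / 2 := by
      rw [show δ ^ 2 * (F.card / ((M : ℝ) + 1)) / 2 = δ ^ 2 * F.card / (2 * ((M : ℝ) + 1)) by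
        field_simp]
      apply div_le_div_of_nonneg_right _ (by positivity)
      rw [mul_assoc]
      exact mul_le_mul_of_nonneg_left hθ (by positivity)
    linarith

theorem tPrD (hChf : S_Chf) : S_PrD := by
  intro n M T A0 δ θ hT hδ hδ1 hθ
  classical
  set N : ℝ := (((M + 1) * T : ℕ) : ℝ) ^ (n * n) with hN
  set x : ℝ := Real.exp (-(δ ^ 2 * θ * n / (2 * ((M : ℝ) + 1)))) with hx
  have hN0 : 0 ≤ N := by positivity
  have hx0 : 0 < x := Real.exp_pos _
  set Bo : Fin n → Finset (Fin n × Fin n → Fin ((M + 1) * T)) := fun v =>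
    univ.filter (fun c => θ * n ≤ od A0 v ∧ ((M : ℝ) + 1) * od (PS M T A0 c) v < (1 - δ) * od A0 v)
    with hBo
  set Bi : Fin n → Finset (Fin n × Fin n → Fin ((M + 1) * T)) := fun v =>
    univ.filter (fun c => θ * n ≤ idg A0 v ∧ ((M : ℝ) + 1) * idg (PS M T A0 c) v < (1 - δ) * idg A0 v)
    with hBi
  have ho : ∀ v, ((Bo v).card : ℝ) ≤ N * x := by
    intro v
    by_cases h : θ * n ≤ od A0 v
    · refine le_trans (Nat.cast_le.2 (Finset.card_le_card ?_))
        (prd_one hChf (M := M) (T := T) A0 δ θ hT hδ hδ1 (A0.filter (fun e => e.1 = v))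
          (Finset.filter_subset _ _) h)
      intro c hc
      rw [hBo, mem_filter] at hc
      rw [mem_filter]
      refine ⟨mem_univ _, ?_⟩
      have h2 : (A0.filter (fun e => e.1 = v)).filter (fun e => (c e : ℕ) / T = M) =
          (PS M T A0 c).filter (fun e => e.1 = v) := by
        rw [PS, Finset.filter_filter, Finset.filter_filter]
        ext e
        simp only [mem_filter]
        tauto
      rw [h2]
      exact hc.2.2
    · have : Bo v = ∅ := by
        rw [hBo, Finset.filter_eq_empty_iff]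
        rintro c - ⟨h', -⟩
        exact h h'
      rw [this]
      simp only [card_empty, Nat.cast_zero]
      positivity
  have hi : ∀ v, ((Bi v).card : ℝ) ≤ N * x := by
    intro v
    by_cases h : θ * n ≤ idg A0 v
    · refine le_trans (Nat.cast_le.2 (Finset.card_le_card ?_))
        (prd_one hChf (M := M) (T := T) A0 δ θ hT hδ hδ1 (A0.filter (fun e => e.2 = v))
          (Finset.filter_subset _ _) h)
      intro c hc
      rw [hBi, mem_filter] at hc
      rw [mem_filter]
      refine ⟨mem_univ _, ?_⟩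
      have h2 : (A0.filter (fun e => e.2 = v)).filter (fun e => (c e : ℕ) / T = M) =
          (PS M T A0 c).filter (fun e => e.2 = v) := by
        rw [PS, Finset.filter_filter, Finset.filter_filter]
        ext e
        simp only [mem_filter]
        tauto
      rw [h2]
      exact hc.2.2
    · have : Bi v = ∅ := by
        rw [hBi, Finset.filter_eq_empty_iff]
        rintro c - ⟨h', -⟩
        exact h h'
      rw [this]
      simp only [card_empty, Nat.cast_zero]
      positivity
  have hsub : (univ.filter (fun c : Fin n × Fin n → Fin ((M + 1) * T) => ∃ v : Fin n,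
      (θ * n ≤ od A0 v ∧ ((M : ℝ) + 1) * od (PS M T A0 c) v < (1 - δ) * od A0 v) ∨
      (θ * n ≤ idg A0 v ∧ ((M : ℝ) + 1) * idg (PS M T A0 c) v < (1 - δ) * idg A0 v))) ⊆
      univ.biUnion (fun v => Bo v ∪ Bi v) := by
    intro c hc
    rw [mem_filter] at hc
    obtain ⟨-, v, hv⟩ := hc
    rw [mem_biUnion]
    refine ⟨v, mem_univ _, ?_⟩
    rw [mem_union, hBo, hBi, mem_filter, mem_filter]
    rcases hv with hv | hv
    · exact Or.inl ⟨mem_univ _, hv⟩
    · exact Or.inr ⟨mem_univ _, hv⟩
  have hcard := (Finset.card_le_card hsub).trans Finset.card_biUnion_le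
  have hcard' : ((univ.filter (fun c : Fin n × Fin n → Fin ((M + 1) * T) => ∃ v : Fin n,
      (θ * n ≤ od A0 v ∧ ((M : ℝ) + 1) * od (PS M T A0 c) v < (1 - δ) * od A0 v) ∨
      (θ * n ≤ idg A0 v ∧ ((M : ℝ) + 1) * idg (PS M T A0 c) v < (1 - δ) * idg A0 v))).card : ℝ) ≤
      ((∑ v : Fin n, (Bo v ∪ Bi v).card : ℕ) : ℝ) := Nat.cast_le.2 hcard
  refine hcard'.trans ?_
  push_cast
  calc ∑ v : Fin n, ((Bo v ∪ Bi v).card : ℝ) ≤ ∑ v : Fin n, (2 * (N * x)) := by
        apply Finset.sum_le_sum
        intro v _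
        have h1 : ((Bo v ∪ Bi v).card : ℝ) ≤ (Bo v).card + (Bi v).card := by
          exact_mod_cast Finset.card_union_le _ _
        linarith [ho v, hi v]
    _ = N * (2 * n * x) := by
        rw [Finset.sum_const, Finset.card_univ, Fintype.card_fin, nsmul_eq_mul]
        ring

end Pool.Agent.MPd266dbH
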