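import Pool.Agent.Lib.MP_d266db_co.H.SpecQ

/-! # MP_d266db_co, H: the numbers for the random parts -/

set_option autoImplicit false

namespace Pool.Agent.MPd266dbH

open Finset Pool.Agent.MPd266db Filter

theorem prn_s1 (K0 M : ℕ) : ∀ᶠ n : ℕ in atTop, ∀ t : ℝ, 0 ≤ t → t ≤ n →
    (M : ℝ) * t * (2 ^ K0 * ((n : ℝ) ^ 6)⁻¹ * (1 + ((n : ℝ) ^ 6)⁻¹) ^ (2 * n)) < 1 / 4 := by
  have h1 : Tendsto (fun n : ℕ => ((M : ℝ) * 2 ^ K0 * Real.exp 2) / (n : ℝ)) atTop (nhds 0) :=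
    tendsto_const_div_atTop_nhds_zero_nat _
  have h2 : ∀ᶠ n : ℕ in atTop, ((M : ℝ) * 2 ^ K0 * Real.exp 2) / (n : ℝ) < 1 / 4 :=
    h1.eventually_lt_const (by norm_num)
  filter_upwards [h2, eventually_ge_atTop 1] with n hn hn1 t ht0 htn
  have hn1' : (1 : ℝ) ≤ n := by exact_mod_cast hn1
  have hn0 : (0 : ℝ) < n := by linarith
  have hx0 : 0 < ((n : ℝ) ^ 6)⁻¹ := by positivity
  have hx1 : ((n : ℝ) ^ 6)⁻¹ * n ≤ 1 := by
    rw [inv_mul_le_iff₀ (by positivity)]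
    have := one_le_pow₀ hn1' (n := 5)
    nlinarith [pow_succ (n : ℝ) 5]
  have he : (1 + ((n : ℝ) ^ 6)⁻¹) ^ (2 * n) ≤ Real.exp 2 := by
    have h3 : 1 + ((n : ℝ) ^ 6)⁻¹ ≤ Real.exp (((n : ℝ) ^ 6)⁻¹) := by
      have := Real.add_one_le_exp (((n : ℝ) ^ 6)⁻¹)
      linarith
    calc (1 + ((n : ℝ) ^ 6)⁻¹) ^ (2 * n) ≤ (Real.exp (((n : ℝ) ^ 6)⁻¹)) ^ (2 * n) :=
          pow_le_pow_left₀ (by positivity) h3 _
      _ = Real.exp (((2 * n : ℕ) : ℝ) * ((n : ℝ) ^ 6)⁻¹) := by rw [Real.exp_nat_mul]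
      _ ≤ Real.exp 2 := by
          apply Real.exp_le_exp.2
          push_cast
          nlinarith
  have hx2 : ((n : ℝ) ^ 6)⁻¹ * n ≤ 1 / n := by
    rw [inv_mul_le_iff₀ (by positivity), pow_succ, mul_assoc]
    have := one_le_pow₀ hn1' (n := 5)
    rw [mul_one_div_cancel hn0.ne']
    have := one_le_pow₀ hn1' (n := 4)
    nlinarith [pow_succ (n : ℝ) 4]
  calc (M : ℝ) * t * (2 ^ K0 * ((n : ℝ) ^ 6)⁻¹ * (1 + ((n : ℝ) ^ 6)⁻¹) ^ (2 * n))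
      ≤ (M : ℝ) * n * (2 ^ K0 * ((n : ℝ) ^ 6)⁻¹ * Real.exp 2) := by gcongr
    _ = ((M : ℝ) * 2 ^ K0 * Real.exp 2) * (((n : ℝ) ^ 6)⁻¹ * n) := by ring
    _ ≤ ((M : ℝ) * 2 ^ K0 * Real.exp 2) * (1 / n) := by gcongr
    _ = ((M : ℝ) * 2 ^ K0 * Real.exp 2) / n := by ring
    _ < 1 / 4 := hn

theorem prn_s2 (M : ℕ) (c γ : ℝ) (hc : 0 < c) (hγ : 0 < γ) (hγ1 : γ ≤ 1) : ∀ᶠ n : ℕ in atTop, ∀ t : ℝ,
    0 < t → t ≤ n → c * n / (2 * Real.log n) ≤ t →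
    (M : ℝ) * t * (4 ^ n * (n : ℝ) ^ (n - ⌈γ * n⌉₊) / t ^ n) < 1 / 4 := by
  have h1 : Tendsto (fun n : ℕ => (M : ℝ) * ((n : ℝ) ^ 1 * (1 / 2 : ℝ) ^ n)) atTop (nhds 0) := by
    have := tendsto_pow_const_mul_const_pow_of_abs_lt_one 1 (r := (1 / 2 : ℝ))
      (by rw [abs_of_pos] <;> norm_num)
    simpa using this.const_mul (M : ℝ)
  have h2 : ∀ᶠ n : ℕ in atTop, (M : ℝ) * ((n : ℝ) ^ 1 * (1 / 2 : ℝ) ^ n) < 1 / 4 :=
    h1.eventually_lt_const (by norm_num)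
  have h3 : ∀ᶠ x : ℝ in atTop, ‖Real.log x‖ ≤ c / 16 * ‖x ^ γ‖ :=
    (isLittleO_log_rpow_atTop hγ).bound (by positivity)
  have h4 : ∀ᶠ n : ℕ in atTop, ‖Real.log (n : ℝ)‖ ≤ c / 16 * ‖(n : ℝ) ^ γ‖ :=
    tendsto_natCast_atTop_atTop.eventually h3
  filter_upwards [h2, h4, eventually_ge_atTop 3] with n hn hlog hn1 t ht0 htn htc
  have hn1' : (3 : ℝ) ≤ n := by exact_mod_cast hn1
  have hn0 : (0 : ℝ) < n := by linarith
  have hl0 : 0 < Real.log n := Real.log_pos (by linarith)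
  have hg0 : 0 < (n : ℝ) ^ γ := Real.rpow_pos_of_pos hn0 _
  rw [Real.norm_of_nonneg hl0.le, Real.norm_of_nonneg hg0.le] at hlog
  -- the power
  have h5 : 4 ^ n * (n : ℝ) ^ (n - ⌈γ * n⌉₊) / t ^ n ≤ (1 / 2 : ℝ) ^ n := by
    have h6 : (n : ℝ) ^ (n - ⌈γ * n⌉₊) ≤ ((n : ℝ) ^ (1 - γ)) ^ n := by
      rw [← Real.rpow_natCast, ← Real.rpow_natCast, ← Real.rpow_mul hn0.le]
      apply Real.rpow_le_rpow_of_exponent_le (by linarith)
      have hk : ⌈γ * n⌉₊ ≤ n := by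
        rw [Nat.ceil_le]
        nlinarith
      rw [Nat.cast_sub hk]
      have := Nat.le_ceil (γ * (n : ℝ))
      linarith
    have h7 : 8 * (n : ℝ) ^ (1 - γ) ≤ t := by
      refine le_trans ?_ htc
      rw [le_div_iff₀ (by positivity), Real.rpow_sub hn0, Real.rpow_one]
      have h8 : 8 * ((n : ℝ) / n ^ γ) * (2 * Real.log n) ≤ 8 * ((n : ℝ) / n ^ γ) * (2 * (c / 16 * n ^ γ)) := by
        gcongr
      have h9 : 8 * ((n : ℝ) / n ^ γ) * (2 * (c / 16 * n ^ γ)) = c * n := by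
        field_simp
        ring
      linarith
    have hg1 : 0 < (n : ℝ) ^ (1 - γ) := Real.rpow_pos_of_pos hn0 _
    calc 4 ^ n * (n : ℝ) ^ (n - ⌈γ * n⌉₊) / t ^ n ≤ 4 ^ n * ((n : ℝ) ^ (1 - γ)) ^ n / t ^ n := by gcongr
      _ = (4 * (n : ℝ) ^ (1 - γ) / t) ^ n := by rw [div_pow, mul_pow]
      _ ≤ (1 / 2 : ℝ) ^ n := by
          apply pow_le_pow_left₀ (by positivity)
          rw [div_le_iff₀ ht0]
          linarith
  calc (M : ℝ) * t * (4 ^ n * (n : ℝ) ^ (n - ⌈γ * n⌉₊) / t ^ n)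
      ≤ (M : ℝ) * n * (1 / 2 : ℝ) ^ n := by
        gcongr
    _ = (M : ℝ) * ((n : ℝ) ^ 1 * (1 / 2 : ℝ) ^ n) := by ring
    _ < 1 / 4 := hn

theorem prn_s3 (a : ℝ) (ha : 0 < a) : ∀ᶠ n : ℕ in atTop,
    2 * 4 ^ n * Real.exp (-(a * (n : ℝ) ^ 2)) < 1 / 4 := by
  have h1 : ∀ᶠ n : ℕ in atTop, (4 : ℝ) / a ≤ n := tendsto_natCast_atTop_atTop.eventually_ge_atTop _
  have h2 : Tendsto (fun n : ℕ => 2 * (4 * Real.exp (-4)) ^ n) atTop (nhds 0) := by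
    have h3 : (4 * Real.exp (-4)) < 1 := by
      rw [Real.exp_neg, ← div_eq_mul_inv, div_lt_one (Real.exp_pos _)]
      have := Real.add_one_lt_exp (x := (4 : ℝ)) (by norm_num)
      linarith
    have := tendsto_pow_atTop_nhds_zero_of_lt_one (by positivity) h3
    simpa using this.const_mul (2 : ℝ)
  filter_upwards [h1, h2.eventually_lt_const (show (0 : ℝ) < 1 / 4 by norm_num)] with n hn hn2
  have h4 : Real.exp (-(a * (n : ℝ) ^ 2)) ≤ (Real.exp (-4)) ^ n := by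
    rw [← Real.exp_nat_mul]
    apply Real.exp_le_exp.2
    rw [div_le_iff₀ ha] at hn
    nlinarith [Nat.cast_nonneg (α := ℝ) n]
  calc 2 * 4 ^ n * Real.exp (-(a * (n : ℝ) ^ 2)) ≤ 2 * 4 ^ n * (Real.exp (-4)) ^ n := by gcongr
    _ = 2 * (4 * Real.exp (-4)) ^ n := by rw [mul_pow]; ring
    _ < 1 / 4 := hn2

theorem prn_s4 (b : ℝ) (hb : 0 < b) : ∀ᶠ n : ℕ in atTop,
    2 * n * Real.exp (-(b * n)) < 1 / 4 := by
  have h1 : Tendsto (fun n : ℕ => (2 : ℝ) * ((n : ℝ) ^ 1 * (Real.exp (-b)) ^ n)) atTop (nhds 0) := by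
    have := tendsto_pow_const_mul_const_pow_of_abs_lt_one 1 (r := Real.exp (-b))
      (by rw [abs_of_pos (Real.exp_pos _)]; exact Real.exp_lt_one_iff.2 (by linarith))
    simpa using this.const_mul (2 : ℝ)
  filter_upwards [h1.eventually_lt_const (show (0 : ℝ) < 1 / 4 by norm_num)] with n hn
  rw [← Real.exp_nat_mul] at hn
  have : (n : ℝ) * -b = -(b * n) := by ring
  rw [this] at hn
  linarith [hn]

theorem tPrN : S_PrN := by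
  intro K0 M c0 δ γ θ hM hc0 hδ hδ1 hγ hγ1 hθ
  have hM' : (1 : ℝ) ≤ M := by exact_mod_cast hM
  set c : ℝ := δ ^ 2 * c0 / (12 * (M + 1)) with hc
  have hcpos : 0 < c := by positivity
  have hlog : Tendsto (fun n : ℕ => Real.log (n : ℝ)) atTop atTop :=
    Real.tendsto_log_atTop.comp tendsto_natCast_atTop_atTop
  have e1 := hlog.eventually_ge_atTop (c / δ)
  have e2 : ∀ᶠ n : ℕ in atTop, ‖Real.log (n : ℝ)‖ ≤ c / 2 * ‖(n : ℝ)‖ :=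
    tendsto_natCast_atTop_atTop.eventually (Real.isLittleO_log_id_atTop.bound (by positivity))
  have e3 := prn_s1 K0 M
  have e4 := prn_s2 M c γ hcpos hγ hγ1
  have e5 := prn_s3 (δ ^ 3 / (2 * ((M : ℝ) + 1) ^ 3)) (by positivity)
  have e6 := prn_s4 (δ ^ 2 * θ / (2 * ((M : ℝ) + 1))) (by positivity)
  obtain ⟨n0, hn0⟩ := eventually_atTop.1 (e1.and (e2.and (e3.and (e4.and (e5.and (e6.and
    (eventually_ge_atTop 3)))))))
  refine ⟨n0, fun n hn => ?_⟩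
  obtain ⟨f1, f2, f3, f4, f5, f6, f7⟩ := hn0 n hn
  have hn3 : (3 : ℝ) ≤ n := by exact_mod_cast f7
  have hnp : (0 : ℝ) < n := by linarith
  have hl0 : 0 < Real.log n := Real.log_pos (by linarith)
  rw [Real.norm_of_nonneg hl0.le, Real.norm_of_nonneg hnp.le] at f2
  refine ⟨by omega, ⌊c * n / Real.log n⌋₊, ?_⟩
  set x : ℝ := c * n / Real.log n with hx
  have hx2 : 2 ≤ x := by
    rw [hx, le_div_iff₀ hl0]
    linarith
  have hfl : (⌊x⌋₊ : ℝ) ≤ x := Nat.floor_le (by linarith)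
  have hfl2 : x < ⌊x⌋₊ + 1 := Nat.lt_floor_add_one x
  have hT1 : 1 ≤ ⌊x⌋₊ := by
    rw [Nat.one_le_floor_iff]
    linarith
  have hxd : x ≤ δ * n := by
    rw [hx, div_le_iff₀ hl0]
    rw [div_le_iff₀ hδ] at f1
    nlinarith
  have hxn : x ≤ n := by nlinarith
  have hTp : (0 : ℝ) < ⌊x⌋₊ := by exact_mod_cast hT1
  have hhalf : c * n / (2 * Real.log n) ≤ ⌊x⌋₊ := by
    have : c * n / (2 * Real.log n) = x / 2 := by
      rw [hx]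
      field_simp
    rw [this]
    linarith
  refine ⟨hT1, hfl.trans hxd, ?_, ?_⟩
  · have h1 : (⌊x⌋₊ : ℝ) * Real.log n ≤ c * n := by
      calc (⌊x⌋₊ : ℝ) * Real.log n ≤ x * Real.log n := by gcongr
        _ = c * n := by rw [hx]; field_simp
    have h2 : 12 * ((M : ℝ) + 1) * c = δ ^ 2 * c0 := by
      rw [hc]
      field_simp
    calc 12 * ((M : ℝ) + 1) * ⌊x⌋₊ * Real.log n = 12 * ((M : ℝ) + 1) * (⌊x⌋₊ * Real.log n) := by ring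
      _ ≤ 12 * ((M : ℝ) + 1) * (c * n) := by gcongr
      _ = δ ^ 2 * c0 * n := by rw [← h2]; ring
  · have g3 := f3 ⌊x⌋₊ hTp.le (hfl.trans hxn)
    have g4 := f4 ⌊x⌋₊ hTp (hfl.trans hxn) hhalf
    have h5 : δ ^ 3 * (n : ℝ) ^ 2 / (2 * ((M : ℝ) + 1) ^ 3) = δ ^ 3 / (2 * ((M : ℝ) + 1) ^ 3) * (n : ℝ) ^ 2 := by
      ring
    have h6 : δ ^ 2 * θ * n / (2 * ((M : ℝ) + 1)) = δ ^ 2 * θ / (2 * ((M : ℝ) + 1)) * n := by ring
    rw [h5, h6]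
    linarith

end Pool.Agent.MPd266dbH
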