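import Pool.Agent.Lib.MP_d266db_co.H.SpecQ

/-!
# MP_d266db_co, H, PrS: all cuts of the reservoir
-/

set_option autoImplicit false

namespace Pool.Agent.MPd266dbH

open Finset Pool.Agent.MPd266db

/-- labels with a given quotient -/
theorem prs_card {M T : ℕ} (m : ℕ) (hm : m < M + 1) :
    (univ.filter (fun l : Fin ((M + 1) * T) => (l : ℕ) / T = m)).card = T := by
  classical
  rcases Nat.eq_zero_or_pos T with rfl | hT
  · rw [Finset.card_eq_zero, Finset.filter_eq_empty_iff]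
    intro l
    exact absurd l.2 (by simp)
  have hv : ∀ b : Fin T, (b : ℕ) + T * m < (M + 1) * T := by
    intro b
    have h1 : T * m + T ≤ (M + 1) * T := by
      have := Nat.mul_le_mul_right T (show m + 1 ≤ M + 1 from hm)
      linarith
    have := b.2
    omega
  have h : (univ.filter (fun l : Fin ((M + 1) * T) => (l : ℕ) / T = m)) =
      (univ : Finset (Fin T)).map ⟨fun b => ⟨(b : ℕ) + T * m, hv b⟩, by
        intro b b' hb
        have hb' : (b : ℕ) + T * m = (b' : ℕ) + T * m := congrArg Fin.val hb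
        exact Fin.ext (by omega)⟩ := by
    ext l
    simp only [mem_filter, mem_univ, true_and, mem_map, Function.Embedding.coeFn_mk]
    constructor
    · intro hl
      refine ⟨⟨(l : ℕ) % T, Nat.mod_lt _ hT⟩, ?_⟩
      apply Fin.ext
      show (l : ℕ) % T + T * m = l
      rw [← hl]
      exact Nat.mod_add_div _ _
    · rintro ⟨b, rfl⟩
      show ((b : ℕ) + T * m) / T = m
      rw [Nat.add_mul_div_left _ _ hT, Nat.div_eq_of_lt b.2, zero_add]
  rw [h, Finset.card_map, Finset.card_univ, Fintype.card_fin]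

theorem prs_card' {M T : ℕ} :
    (univ.filter (fun l : Fin ((M + 1) * T) => (l : ℕ) / T ≠ M)).card = M * T := by
  have h1 := Finset.card_filter_add_card_filter_not (s := (univ : Finset (Fin ((M + 1) * T))))
    (fun l => (l : ℕ) / T = M)
  rw [prs_card M (Nat.lt_succ_self M), Finset.card_univ, Fintype.card_fin] at h1
  have h2 : (M + 1) * T = M * T + T := by ring
  have h3 := h1.trans h2
  have h4 : (univ.filter (fun l : Fin ((M + 1) * T) => ¬ (l : ℕ) / T = M)).card = M * T := by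
    generalize (univ.filter (fun l : Fin ((M + 1) * T) => ¬ (l : ℕ) / T = M)).card = z at h3 ⊢
    generalize M * T = w at h3 ⊢
    omega
  exact h4

/-- the lower tail -/
theorem prs_low (hChf : S_Chf) {n M T : ℕ} (δ : ℝ) (hT : 1 ≤ T)
    (hδ : 0 < δ) (hδ1 : δ ≤ 1) (F : Finset (Fin n × Fin n)) (hF : δ * (n : ℝ) ^ 2 ≤ F.card) :
    ((univ.filter (fun c : Fin n × Fin n → Fin ((M + 1) * T) =>
      ((M : ℝ) + 1) * (F.filter (fun e => (c e : ℕ) / T = M)).card < (1 - δ) * F.card)).card : ℝ) ≤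
      (((M + 1) * T : ℕ) : ℝ) ^ (n * n) *
        Real.exp (-(δ ^ 3 * (n : ℝ) ^ 2 / (2 * ((M : ℝ) + 1) ^ 3))) := by
  have hT' : (0 : ℝ) < T := by exact_mod_cast hT
  have hM' : (0 : ℝ) < (M : ℝ) + 1 := by positivity
  have hM1 : (1 : ℝ) ≤ (M : ℝ) + 1 := by linarith [Nat.cast_nonneg (α := ℝ) M]
  have h1 := hChf (Fin n × Fin n) ((M + 1) * T) F
    (fun _ => univ.filter (fun l : Fin ((M + 1) * T) => (l : ℕ) / T = M)) δ
    (Nat.mul_pos (Nat.succ_pos M) hT) hδ.le hδ1
  rw [Fintype.card_prod, Fintype.card_fin] at h1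
  have hμ : ∑ e ∈ F, (((univ.filter (fun l : Fin ((M + 1) * T) => (l : ℕ) / T = M)).card : ℝ) /
      (((M + 1) * T : ℕ) : ℝ)) = F.card / ((M : ℝ) + 1) := by
    rw [prs_card M (Nat.lt_succ_self M), Finset.sum_const, nsmul_eq_mul]
    push_cast
    field_simp
  rw [hμ] at h1
  refine le_trans (Nat.cast_le.2 (Finset.card_le_card ?_)) (h1.trans ?_)
  · intro c hc
    rw [mem_filter] at hc ⊢
    refine ⟨mem_univ _, ?_⟩
    have h2 : (F.filter (fun e => c e ∈ univ.filter (fun l : Fin ((M + 1) * T) => (l : ℕ) / T = M))) =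
        F.filter (fun e => (c e : ℕ) / T = M) := by
      ext e
      simp
    rw [h2, ← mul_div_assoc, le_div_iff₀ hM']
    linarith [hc.2]
  · apply mul_le_mul_of_nonneg_left _ (by positivity)
    apply Real.exp_le_exp.2
    have h3 : δ ^ 3 * (n : ℝ) ^ 2 / (2 * ((M : ℝ) + 1) ^ 3) ≤
        δ ^ 2 * (F.card / ((M : ℝ) + 1)) / 2 := by
      rw [show δ ^ 2 * (F.card / ((M : ℝ) + 1)) / 2 = δ ^ 2 * F.card / (2 * ((M : ℝ) + 1)) by
        field_simp]
      have h4 : δ ^ 3 * (n : ℝ) ^ 2 ≤ δ ^ 2 * F.card := by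
        rw [show δ ^ 3 * (n : ℝ) ^ 2 = δ ^ 2 * (δ * (n : ℝ) ^ 2) by ring]
        exact mul_le_mul_of_nonneg_left hF (by positivity)
      apply div_le_div₀ (by positivity) h4 (by positivity)
      have h5 : ((M : ℝ) + 1) ≤ ((M : ℝ) + 1) ^ 3 := by
        nlinarith [mul_nonneg hM'.le (sub_nonneg.2 hM1), mul_nonneg (mul_nonneg hM'.le hM'.le)
          (sub_nonneg.2 hM1)]
      linarith
    linarith

/-- the upper tail -/
theorem prs_upp (hChf : S_Chf) {n M T : ℕ} (δ : ℝ) (hM : 1 ≤ M) (hT : 1 ≤ T)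
    (hδ : 0 < δ) (hδ1 : δ ≤ 1) (F : Finset (Fin n × Fin n))
    (hF : δ * (n : ℝ) ^ 2 ≤ ((M : ℝ) + 1) * F.card) :
    ((univ.filter (fun c : Fin n × Fin n → Fin ((M + 1) * T) =>
      ((M : ℝ) + 1) * (F.filter (fun e => (c e : ℕ) / T ≠ M)).card <
        ((M : ℝ) - δ) * F.card)).card : ℝ) ≤
      (((M + 1) * T : ℕ) : ℝ) ^ (n * n) *
        Real.exp (-(δ ^ 3 * (n : ℝ) ^ 2 / (2 * ((M : ℝ) + 1) ^ 3))) := by
  have hT' : (0 : ℝ) < T := by exact_mod_cast hT
  have hM0 : (1 : ℝ) ≤ M := by exact_mod_cast hM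
  have hM' : (0 : ℝ) < (M : ℝ) + 1 := by positivity
  have hMp : (0 : ℝ) < M := by linarith
  have h1 := hChf (Fin n × Fin n) ((M + 1) * T) F
    (fun _ => univ.filter (fun l : Fin ((M + 1) * T) => (l : ℕ) / T ≠ M)) (δ / M)
    (Nat.mul_pos (Nat.succ_pos M) hT) (by positivity) (by rw [div_le_one hMp]; linarith)
  rw [Fintype.card_prod, Fintype.card_fin] at h1
  have hμ : ∑ e ∈ F, (((univ.filter (fun l : Fin ((M + 1) * T) => (l : ℕ) / T ≠ M)).card : ℝ) /
      (((M + 1) * T : ℕ) : ℝ)) = M * F.card / ((M : ℝ) + 1) := by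
    rw [prs_card', Finset.sum_const, nsmul_eq_mul]
    push_cast
    field_simp
  rw [hμ] at h1
  refine le_trans (Nat.cast_le.2 (Finset.card_le_card ?_)) (h1.trans ?_)
  · intro c hc
    rw [mem_filter] at hc ⊢
    refine ⟨mem_univ _, ?_⟩
    have h2 : (F.filter (fun e => c e ∈ univ.filter (fun l : Fin ((M + 1) * T) => (l : ℕ) / T ≠ M))) =
        F.filter (fun e => (c e : ℕ) / T ≠ M) := by
      ext e
      simp
    have h3 : (1 - δ / M) * (M * F.card / ((M : ℝ) + 1)) = ((M : ℝ) - δ) * F.card / ((M : ℝ) + 1) := by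
      field_simp
    rw [h2, h3, le_div_iff₀ hM']
    linarith [hc.2]
  · apply mul_le_mul_of_nonneg_left _ (by positivity)
    apply Real.exp_le_exp.2
    have h3 : δ ^ 3 * (n : ℝ) ^ 2 / (2 * ((M : ℝ) + 1) ^ 3) ≤
        (δ / M) ^ 2 * (M * F.card / ((M : ℝ) + 1)) / 2 := by
      rw [show (δ / M) ^ 2 * (M * F.card / ((M : ℝ) + 1)) / 2 =
        δ ^ 2 * F.card / (2 * M * ((M : ℝ) + 1)) by field_simp]
      rw [div_le_div_iff₀ (by positivity) (by positivity)]
      have h4 : δ ^ 3 * (n : ℝ) ^ 2 ≤ δ ^ 2 * (((M : ℝ) + 1) * F.card) := by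
        rw [show δ ^ 3 * (n : ℝ) ^ 2 = δ ^ 2 * (δ * (n : ℝ) ^ 2) by ring]
        exact mul_le_mul_of_nonneg_left hF (by positivity)
      calc δ ^ 3 * (n : ℝ) ^ 2 * (2 * M * ((M : ℝ) + 1)) ≤
          δ ^ 2 * (((M : ℝ) + 1) * F.card) * (2 * M * ((M : ℝ) + 1)) :=
            mul_le_mul_of_nonneg_right h4 (by positivity)
        _ ≤ δ ^ 2 * (((M : ℝ) + 1) * F.card) * (2 * (M + 1) * ((M : ℝ) + 1)) := by
            apply mul_le_mul_of_nonneg_left _ (by positivity)
            nlinarith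
        _ = δ ^ 2 * F.card * (2 * ((M : ℝ) + 1) ^ 3) := by ring
    linarith

theorem tPrS (hChf : S_Chf) : S_PrS := by
  intro n M T A0 δ hM hT hδ hδ1
  classical
  set N : ℝ := (((M + 1) * T : ℕ) : ℝ) ^ (n * n) with hN
  set x : ℝ := Real.exp (-(δ ^ 3 * (n : ℝ) ^ 2 / (2 * ((M : ℝ) + 1) ^ 3))) with hx
  have hN0 : 0 ≤ N := by positivity
  have hx0 : 0 < x := Real.exp_pos _
  have hM' : (0 : ℝ) < (M : ℝ) + 1 := by positivity
  set Bl : Finset (Fin n) × Finset (Fin n) → Finset (Fin n × Fin n → Fin ((M + 1) * T)) := fun p =>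
    univ.filter (fun c => ((M : ℝ) + 1) * eb (PS M T A0 c) p.1 p.2 <
      eb A0 p.1 p.2 - δ * (n : ℝ) ^ 2) with hBl
  set Bu : Finset (Fin n) × Finset (Fin n) → Finset (Fin n × Fin n → Fin ((M + 1) * T)) := fun p =>
    univ.filter (fun c => eb A0 p.1 p.2 + δ * (n : ℝ) ^ 2 <
      ((M : ℝ) + 1) * eb (PS M T A0 c) p.1 p.2) with hBu
  have hebn : ∀ X Y : Finset (Fin n), (eb A0 X Y : ℝ) ≤ (n : ℝ) ^ 2 := by
    intro X Y
    have h1 := eb_le_card_mul A0 X Y
    have h2 : X.card * Y.card ≤ n * n :=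
      Nat.mul_le_mul (card_le_univ X |>.trans_eq (Fintype.card_fin n))
        (card_le_univ Y |>.trans_eq (Fintype.card_fin n))
    rw [sq]
    exact_mod_cast h1.trans h2
  have hPS : ∀ (X Y : Finset (Fin n)) (c : Fin n × Fin n → Fin ((M + 1) * T)),
      eb (PS M T A0 c) X Y =
        ((A0.filter (fun e => e.1 ∈ X ∧ e.2 ∈ Y)).filter (fun e => (c e : ℕ) / T = M)).card := by
    intro X Y c
    rw [eb, PS]
    congr 1
    ext e
    simp only [mem_filter]
    tauto
  have hl : ∀ p, ((Bl p).card : ℝ) ≤ N * x := by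
    intro p
    by_cases h : δ * (n : ℝ) ^ 2 ≤ (eb A0 p.1 p.2 : ℝ)
    · refine le_trans (Nat.cast_le.2 (Finset.card_le_card ?_))
        (prs_low hChf (M := M) (T := T) δ hT hδ hδ1 (A0.filter (fun e => e.1 ∈ p.1 ∧ e.2 ∈ p.2)) h)
      intro c hc
      rw [hBl, mem_filter] at hc
      rw [mem_filter, ← hPS]
      refine ⟨mem_univ _, ?_⟩
      have h3 := mul_le_mul_of_nonneg_left (hebn p.1 p.2) hδ.le
      have h4 : ((A0.filter (fun e => e.1 ∈ p.1 ∧ e.2 ∈ p.2)).card : ℝ) = eb A0 p.1 p.2 := rfl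
      rw [h4]
      linarith [hc.2]
    · have : Bl p = ∅ := by
        rw [hBl, Finset.filter_eq_empty_iff]
        intro c _ h'
        have h5 : 0 ≤ ((M : ℝ) + 1) * eb (PS M T A0 c) p.1 p.2 := by positivity
        push Not at h
        linarith
      rw [this]
      simp only [card_empty, Nat.cast_zero]
      positivity
  have hu : ∀ p, ((Bu p).card : ℝ) ≤ N * x := by
    intro p
    by_cases h : δ * (n : ℝ) ^ 2 ≤ ((M : ℝ) + 1) * (eb A0 p.1 p.2 : ℝ)
    · refine le_trans (Nat.cast_le.2 (Finset.card_le_card ?_))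
        (prs_upp hChf (M := M) (T := T) δ hM hT hδ hδ1
          (A0.filter (fun e => e.1 ∈ p.1 ∧ e.2 ∈ p.2)) h)
      intro c hc
      rw [hBu, mem_filter] at hc
      rw [mem_filter]
      refine ⟨mem_univ _, ?_⟩
      have h3 := mul_le_mul_of_nonneg_left (hebn p.1 p.2) hδ.le
      have h4 : ((A0.filter (fun e => e.1 ∈ p.1 ∧ e.2 ∈ p.2)).card : ℝ) = eb A0 p.1 p.2 := rfl
      have h5 := Finset.card_filter_add_card_filter_not
        (s := A0.filter (fun e => e.1 ∈ p.1 ∧ e.2 ∈ p.2)) (fun e => (c e : ℕ) / T = M)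
      rw [← hPS] at h5
      have h6 : ((eb (PS M T A0 c) p.1 p.2 : ℝ)) +
          (((A0.filter (fun e => e.1 ∈ p.1 ∧ e.2 ∈ p.2)).filter (fun e => (c e : ℕ) / T ≠ M)).card : ℝ)
          = eb A0 p.1 p.2 := by
        rw [← h4]
        exact_mod_cast h5
      rw [h4]
      have h7 : ((M : ℝ) + 1) * ((eb (PS M T A0 c) p.1 p.2 : ℝ) +
          (((A0.filter (fun e => e.1 ∈ p.1 ∧ e.2 ∈ p.2)).filter
            (fun e => (c e : ℕ) / T ≠ M)).card : ℝ)) = ((M : ℝ) + 1) * eb A0 p.1 p.2 := by rw [h6]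
      linarith [hc.2]
    · have : Bu p = ∅ := by
        rw [hBu, Finset.filter_eq_empty_iff]
        intro c _ h'
        have h5 : (eb (PS M T A0 c) p.1 p.2 : ℝ) ≤ eb A0 p.1 p.2 := by
          exact_mod_cast eb_mono (Finset.filter_subset _ _) (Finset.Subset.refl _)
            (Finset.Subset.refl _)
        have h6 := mul_le_mul_of_nonneg_left h5 hM'.le
        have h7 : (0 : ℝ) ≤ eb A0 p.1 p.2 := Nat.cast_nonneg _
        push Not at h
        linarith
      rw [this]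
      simp only [card_empty, Nat.cast_zero]
      positivity
  have hsub : (univ.filter (fun c : Fin n × Fin n → Fin ((M + 1) * T) => ∃ X Y : Finset (Fin n),
      δ * (n : ℝ) ^ 2 < |((M : ℝ) + 1) * eb (PS M T A0 c) X Y - eb A0 X Y|)) ⊆
      univ.biUnion (fun p => Bl p ∪ Bu p) := by
    intro c hc
    rw [mem_filter] at hc
    obtain ⟨-, X, Y, hXY⟩ := hc
    rw [mem_biUnion]
    refine ⟨(X, Y), mem_univ _, ?_⟩
    rw [mem_union, hBl, hBu, mem_filter, mem_filter]
    rcases lt_abs.1 hXY with h | h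
    · exact Or.inr ⟨mem_univ _, by linarith⟩
    · exact Or.inl ⟨mem_univ _, by linarith⟩
  have hcard := (Finset.card_le_card hsub).trans Finset.card_biUnion_le
  have hcard' : ((univ.filter (fun c : Fin n × Fin n → Fin ((M + 1) * T) => ∃ X Y : Finset (Fin n),
      δ * (n : ℝ) ^ 2 < |((M : ℝ) + 1) * eb (PS M T A0 c) X Y - eb A0 X Y|)).card : ℝ) ≤
      ((∑ p : Finset (Fin n) × Finset (Fin n), (Bl p ∪ Bu p).card : ℕ) : ℝ) := Nat.cast_le.2 hcard
  refine hcard'.trans ?_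
  push_cast
  calc ∑ p : Finset (Fin n) × Finset (Fin n), ((Bl p ∪ Bu p).card : ℝ) ≤
      ∑ _p : Finset (Fin n) × Finset (Fin n), (2 * (N * x)) := by
        apply Finset.sum_le_sum
        intro v _
        have h1 : ((Bl v ∪ Bu v).card : ℝ) ≤ (Bl v).card + (Bu v).card := by
          exact_mod_cast Finset.card_union_le _ _
        linarith [hl v, hu v]
    _ = N * (2 * 4 ^ n * x) := by
        rw [Finset.sum_const, Finset.card_univ, Fintype.card_prod, Fintype.card_finset,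
          Fintype.card_fin, nsmul_eq_mul]
        push_cast
        rw [← mul_pow]
        norm_num
        ring

end Pool.Agent.MPd266dbH
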