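import Pool.Agent.Lib.MP_d266db_co.H.SpecQ

/-! # MP_d266db_co, H: random parts -/

set_option autoImplicit false

namespace Pool.Agent.MPd266dbH

open Finset Pool.Agent.MPd266db

theorem prt_disj_S {n M T : ℕ} {A0 Cm : Finset (Fin n × Fin n)} {m s : ℕ} (hm : m < M)
    (h : Disjoint A0 Cm) (c : Fin n × Fin n → Fin ((M + 1) * T)) :
    Disjoint (PS M T A0 c) (PP T m s A0 Cm c) := by
  rw [Finset.disjoint_left]
  intro e he he'
  rw [PS, mem_filter] at he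
  rw [PP, mem_union, mem_filter, mem_filter] at he'
  rcases he' with h' | h'
  · have := he.2.symm.trans h'.2.1
    omega
  · exact (Finset.disjoint_left.1 h) he.1 h'.1

theorem prt_disj_P {n M T : ℕ} {A0 : Finset (Fin n × Fin n)} {C : Fin M → Finset (Fin n × Fin n)}
    (hA : ∀ m, Disjoint A0 (C m)) (hC : ∀ m m', m ≠ m' → Disjoint (C m) (C m'))
    (c : Fin n × Fin n → Fin ((M + 1) * T)) (m : Fin M) (s : Fin T) (m' : Fin M) (s' : Fin T)
    (hne : (m, s) ≠ (m', s')) :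
    Disjoint (PP T m s A0 (C m) c) (PP T m' s' A0 (C m') c) := by
  rw [Finset.disjoint_left]
  intro e he he'
  rw [PP, mem_union, mem_filter, mem_filter] at he he'
  rcases he with h | h <;> rcases he' with h' | h'
  · apply hne
    have h1 : (m : ℕ) = m' := h.2.1.symm.trans h'.2.1
    have h2 : (s : ℕ) = s' := h.2.2.symm.trans h'.2.2
    rw [Prod.mk.injEq]
    exact ⟨Fin.ext h1, Fin.ext h2⟩
  · exact (Finset.disjoint_left.1 (hA m')) h.1 h'.1
  · exact (Finset.disjoint_left.1 (hA m)) h'.1 h.1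
  · have h2 : (s : ℕ) = s' := h.2.symm.trans h'.2
    have hmm : m ≠ m' := by
      intro hmm
      apply hne
      rw [Prod.mk.injEq]
      exact ⟨hmm, Fin.ext h2⟩
    exact (Finset.disjoint_left.1 (hC m m' hmm)) h.1 h'.1

theorem tPrt (hPrC : S_PrC) (hPrB : S_PrB) (hPrS : S_PrS) (hPrD : S_PrD) (hPrN : S_PrN) : S_Prt := by
  classical
  intro K0 M c0 δ γ θ hM hc0 hδ hδ1 hγ hγ1 hθ
  obtain ⟨n0, hn0⟩ := hPrN K0 M c0 δ γ θ hM hc0 hδ hδ1 hγ hγ1 hθ
  refine ⟨n0, fun n hn K o i A0 C hK hAC hCC hcut => ?_⟩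
  obtain ⟨hn1, T, hT1, hTδ, hTlog, hsum⟩ := hn0 n hn
  have hkn : ⌈γ * n⌉₊ ≤ n := by
    rw [Nat.ceil_le]
    have : (0 : ℝ) ≤ n := Nat.cast_nonneg n
    nlinarith
  set L : ℕ := (M + 1) * T with hL
  set B1 : Fin M × Fin T → Finset (Fin n × Fin n → Fin ((M + 1) * T)) := fun p =>
    univ.filter (fun c : Fin n × Fin n → Fin ((M + 1) * T) => ∃ X Y : Finset (Fin n),
      n + 1 ≤ X.card + Y.card ∧ ((M : ℝ) + 1) * T * eb (PP T p.1 p.2 A0 (C p.1) c) X Y <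
        (1 - δ) * ((eb A0 X Y : ℝ) + (M + 1) * eb (C p.1) X Y)) with hB1
  set B2 : Fin M × Fin T → Finset (Fin n × Fin n → Fin ((M + 1) * T)) := fun p =>
    univ.filter (fun c : Fin n × Fin n → Fin ((M + 1) * T) => ∃ σ : Equiv.Perm (Fin n),
      (∀ v, (v, σ v) ∈ PP T p.1 p.2 A0 (C p.1) c) ∧ ⌈γ * n⌉₊ ≤ cyc σ) with hB2
  set B3 : Finset (Fin n × Fin n → Fin ((M + 1) * T)) :=
    univ.filter (fun c : Fin n × Fin n → Fin ((M + 1) * T) => ∃ X Y : Finset (Fin n),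
      δ * (n : ℝ) ^ 2 < |((M : ℝ) + 1) * eb (PS M T A0 c) X Y - eb A0 X Y|) with hB3
  set B4 : Finset (Fin n × Fin n → Fin ((M + 1) * T)) :=
    univ.filter (fun c : Fin n × Fin n → Fin ((M + 1) * T) => ∃ v : Fin n,
      (θ * n ≤ od A0 v ∧ ((M : ℝ) + 1) * od (PS M T A0 c) v < (1 - δ) * od A0 v) ∨
      (θ * n ≤ idg A0 v ∧ ((M : ℝ) + 1) * idg (PS M T A0 c) v < (1 - δ) * idg A0 v)) with hB4
  set Q : ℝ := (((M + 1) * T : ℕ) : ℝ) ^ (n * n) with hQ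
  have hTpos : 0 < T := hT1
  have hLpos : 0 < (M + 1) * T := by positivity
  have hQpos : 0 < Q := by
    rw [hQ]
    have : (0 : ℝ) < (((M + 1) * T : ℕ) : ℝ) := by exact_mod_cast hLpos
    positivity
  have hTr : (0 : ℝ) < T := by exact_mod_cast hTpos
  -- the bounds
  have b1 : ∀ p, ((B1 p).card : ℝ) ≤ Q * (2 ^ K0 * ((n : ℝ) ^ 6)⁻¹ * (1 + ((n : ℝ) ^ 6)⁻¹) ^ (2 * n)) := by
    intro p
    have h := hPrC n K M T p.1 p.2 o i A0 (C p.1) c0 δ hn1 p.1.2 p.2.2 (hAC p.1) hc0 hδ hδ1 hTlog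
      (hcut p.1)
    refine h.trans ?_
    have h2 : (2 : ℝ) ^ K ≤ 2 ^ K0 := pow_le_pow_right₀ (by norm_num) hK
    have h3 : (0 : ℝ) ≤ ((n : ℝ) ^ 6)⁻¹ := by positivity
    gcongr
  have b2 : ∀ p, ((B2 p).card : ℝ) ≤ Q * (4 ^ n * (n : ℝ) ^ (n - ⌈γ * n⌉₊) / (T : ℝ) ^ n) := by
    intro p
    have h := hPrB n ⌈γ * n⌉₊ M T p.1 p.2 A0 (C p.1) hkn p.1.2 p.2.2 (hAC p.1)
    have h' : ((B2 p).card : ℝ) * (T : ℝ) ^ n ≤ Q * (4 ^ n * (n : ℝ) ^ (n - ⌈γ * n⌉₊)) := by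
      rw [hQ]
      exact_mod_cast h
    rw [← mul_div_assoc, le_div_iff₀ (by positivity)]
    exact h'
  have b3 := hPrS n M T A0 δ hM hT1 hδ hδ1
  have b4 := hPrD n M T A0 δ θ hT1 hδ hδ1 hθ
  have hcardF : (Fintype.card (Fin n × Fin n → Fin ((M + 1) * T)) : ℝ) = Q := by
    rw [Fintype.card_fun, Fintype.card_fin, Fintype.card_prod, Fintype.card_fin, hQ]
    push_cast
    rfl
  set U : Finset (Fin n × Fin n → Fin ((M + 1) * T)) :=
    (univ.biUnion B1 ∪ univ.biUnion B2) ∪ (B3 ∪ B4) with hU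
  have hMT : (Fintype.card (Fin M × Fin T) : ℝ) = M * T := by
    rw [Fintype.card_prod, Fintype.card_fin, Fintype.card_fin]
    push_cast
    rfl
  have u1 : ((univ.biUnion B1).card : ℝ) ≤
      M * T * (Q * (2 ^ K0 * ((n : ℝ) ^ 6)⁻¹ * (1 + ((n : ℝ) ^ 6)⁻¹) ^ (2 * n))) := by
    calc ((univ.biUnion B1).card : ℝ) ≤ ∑ p, ((B1 p).card : ℝ) := by exact_mod_cast card_biUnion_le
      _ ≤ ∑ _p : Fin M × Fin T, Q * (2 ^ K0 * ((n : ℝ) ^ 6)⁻¹ * (1 + ((n : ℝ) ^ 6)⁻¹) ^ (2 * n)) :=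
          sum_le_sum (fun p _ => b1 p)
      _ = _ := by rw [sum_const, nsmul_eq_mul, card_univ, hMT]
  have u2 : ((univ.biUnion B2).card : ℝ) ≤
      M * T * (Q * (4 ^ n * (n : ℝ) ^ (n - ⌈γ * n⌉₊) / (T : ℝ) ^ n)) := by
    calc ((univ.biUnion B2).card : ℝ) ≤ ∑ p, ((B2 p).card : ℝ) := by exact_mod_cast card_biUnion_le
      _ ≤ ∑ _p : Fin M × Fin T, Q * (4 ^ n * (n : ℝ) ^ (n - ⌈γ * n⌉₊) / (T : ℝ) ^ n) :=
          sum_le_sum (fun p _ => b2 p)
      _ = _ := by rw [sum_const, nsmul_eq_mul, card_univ, hMT]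
  have hUcard : (U.card : ℝ) < Q := by
    have h1 : (U.card : ℝ) ≤ ((univ.biUnion B1).card : ℝ) + (univ.biUnion B2).card + (B3.card + B4.card) := by
      have : U.card ≤ (univ.biUnion B1).card + (univ.biUnion B2).card + (B3.card + B4.card) :=
        (card_union_le _ _).trans (add_le_add (card_union_le _ _) (card_union_le _ _))
      exact_mod_cast this
    have h2 := mul_lt_mul_of_pos_left hsum hQpos
    rw [mul_one] at h2
    refine lt_of_le_of_lt h1 (lt_of_le_of_lt ?_ h2)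
    calc ((univ.biUnion B1).card : ℝ) + (univ.biUnion B2).card + (B3.card + B4.card)
        ≤ M * T * (Q * (2 ^ K0 * ((n : ℝ) ^ 6)⁻¹ * (1 + ((n : ℝ) ^ 6)⁻¹) ^ (2 * n))) +
          M * T * (Q * (4 ^ n * (n : ℝ) ^ (n - ⌈γ * n⌉₊) / (T : ℝ) ^ n)) +
          (Q * (2 * 4 ^ n * Real.exp (-(δ ^ 3 * (n : ℝ) ^ 2 / (2 * ((M : ℝ) + 1) ^ 3)))) +
            Q * (2 * n * Real.exp (-(δ ^ 2 * θ * n / (2 * ((M : ℝ) + 1)))))) :=
          add_le_add (add_le_add u1 u2) (add_le_add b3 b4)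
      _ = _ := by ring
  have hex : ∃ c, c ∉ U := by
    by_contra hcon
    push Not at hcon
    have h1 : U = univ := eq_univ_iff_forall.2 hcon
    rw [h1, card_univ, hcardF] at hUcard
    exact lt_irrefl _ hUcard
  obtain ⟨c, hc⟩ := hex
  simp only [hU, mem_union, mem_biUnion, mem_univ, true_and, not_or, not_exists] at hc
  obtain ⟨⟨hc1, hc2⟩, hc3, hc4⟩ := hc
  simp only [hB1, mem_filter, mem_univ, true_and, not_exists, not_and, not_lt] at hc1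
  simp only [hB2, mem_filter, mem_univ, true_and, not_exists, not_and, not_le] at hc2
  simp only [hB3, mem_filter, mem_univ, true_and, not_exists, not_lt] at hc3
  simp only [hB4, mem_filter, mem_univ, true_and, not_exists, not_or, not_and, not_lt] at hc4
  refine ⟨T, PS M T A0 c, fun m s => PP T m s A0 (C m) c, hT1, hTδ, filter_subset _ _, ?_, ?_, ?_,
    ?_, ?_, hc3, fun v => (hc4 v).1, fun v => (hc4 v).2⟩
  · intro m s
    exact union_subset_union (filter_subset _ _) (filter_subset _ _)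
  · intro m s
    exact prt_disj_S m.2 (hAC m) c
  · intro m s m' s' hne
    exact prt_disj_P hAC hCC c m s m' s' hne
  · intro m s X Y hXY
    exact hc1 (m, s) X Y hXY
  · intro m s σ hσ
    exact (Nat.lt_ceil.1 (hc2 (m, s) σ hσ)).le

end Pool.Agent.MPd266dbH
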