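import Pool.Agent.Lib.MP_d266db_co.H.SpecP

/-!
# MP_d266db_co, H: short walks in a digraph all of whose cuts are dense
-/

set_option autoImplicit false

namespace Pool.Agent.MPd266dbH

open Finset Pool.Agent.MPd266db

theorem tRP : S_RP := by
  classical
  intro ν hν
  refine ⟨⌊1 / ν⌋₊ + 2, ?_⟩
  intro k Γ c A P Q hloop hcut hPA hQA hPne hP hQ
  have hk : 0 < k := by
    obtain ⟨p, hp⟩ := hPne
    exact Nat.pos_of_ne_zero (by rintro rfl; exact p.elim0)
  have hk' : (0 : ℝ) < k := by exact_mod_cast hk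
  obtain ⟨R, hR0, hRs⟩ : ∃ R : ℕ → Finset (Fin k), R 0 = P ∧
      ∀ i, R (i + 1) = R i ∪ A.filter (fun p' => ∃ p ∈ R i, Γ p p') :=
    ⟨fun i => Nat.rec P (fun _ B => B ∪ A.filter (fun p' => ∃ p ∈ B, Γ p p')) i, rfl, fun i => rfl⟩
  have hRA : ∀ i, R i ⊆ A := by
    intro i
    induction i with
    | zero => rw [hR0]; exact hPA
    | succ i ih => rw [hRs]; exact union_subset ih (filter_subset _ _)
  have hPR : ∀ i, P ⊆ R i := by
    intro i
    induction i with
    | zero => rw [hR0]
    | succ i ih => rw [hRs]; exact ih.trans subset_union_left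
  -- growth
  have grow : ∀ i, Disjoint (R i) Q → ((R i).card : ℝ) + ν * k ≤ (R (i + 1)).card := by
    intro i hd
    have h1 : c * k ≤ (R i).card := hP.trans (by exact_mod_cast card_le_card (hPR i))
    have h2 : c * k ≤ (A \ R i).card := by
      refine hQ.trans ?_
      have : Q ⊆ A \ R i := fun q hq =>
        mem_sdiff.2 ⟨hQA hq, fun h => disjoint_left.1 hd h hq⟩
      exact_mod_cast card_le_card this
    obtain ⟨W, hW, hΓ, hWc⟩ := hcut (R i) (hRA i) h1 h2
    have h3 : W ⊆ R i ×ˢ (R (i + 1) \ R i) := by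
      intro w hw
      have hw' := mem_product.1 (hW hw)
      rw [mem_sdiff] at hw'
      rw [mem_product, mem_sdiff, hRs, mem_union, mem_filter]
      exact ⟨hw'.1, Or.inr ⟨hw'.2.1, w.1, hw'.1, hΓ w hw⟩, hw'.2.2⟩
    have h4 : W.card ≤ k * (R (i + 1) \ R i).card := by
      refine (card_le_card h3).trans ?_
      rw [card_product]
      refine Nat.mul_le_mul_right _ ?_
      exact (card_le_univ _).trans (by simp)
    have h5 : ν * (k : ℝ) ^ 2 ≤ k * (R (i + 1) \ R i).card := hWc.trans (by exact_mod_cast h4)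
    have h6 : ν * k ≤ (R (i + 1) \ R i).card := by
      have : (k : ℝ) * (ν * k) ≤ k * (R (i + 1) \ R i).card := by nlinarith
      exact le_of_mul_le_mul_left this hk'
    have h7 : (R (i + 1)).card = (R i).card + (R (i + 1) \ R i).card := by
      have hsub : R i ⊆ R (i + 1) := by rw [hRs]; exact subset_union_left
      rw [card_sdiff_of_subset hsub]
      have := card_le_card hsub
      omega
    rw [h7]
    push_cast
    linarith
  -- some `R i` meets `Q`
  have hex : ∃ i ≤ ⌊1 / ν⌋₊, ¬ Disjoint (R i) Q := by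
    by_contra hcon
    push Not at hcon
    have h1 : ∀ i ≤ ⌊1 / ν⌋₊ + 1, (i : ℝ) * (ν * k) ≤ (R i).card := by
      intro i
      induction i with
      | zero => intro _; simp
      | succ i ih =>
        intro hi
        have h2 := ih (by omega)
        have h3 := grow i (hcon i (by omega))
        push_cast
        linarith
    have h2 := h1 _ le_rfl
    have h3 : ((R (⌊1 / ν⌋₊ + 1)).card : ℝ) ≤ k := by
      have : (R (⌊1 / ν⌋₊ + 1)).card ≤ k := (card_le_univ _).trans (by simp)
      exact_mod_cast this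
    have h4 : 1 / ν < ((⌊1 / ν⌋₊ + 1 : ℕ) : ℝ) := by
      push_cast
      exact Nat.lt_floor_add_one _
    have h5 : 1 < ((⌊1 / ν⌋₊ + 1 : ℕ) : ℝ) * ν := by
      rwa [div_lt_iff₀ hν] at h4
    nlinarith
  obtain ⟨i, hi, hid⟩ := hex
  rw [not_disjoint_iff] at hid
  obtain ⟨q, hqR, hqQ⟩ := hid
  -- walks
  have walk : ∀ i, ∀ p ∈ R i, ∃ w : ℕ → Fin k, w 0 ∈ P ∧ w i = p ∧ (∀ j ≤ i, w j ∈ A) ∧
      ∀ j < i, Γ (w j) (w (j + 1)) := by
    intro i
    induction i with
    | zero =>
      intro p hp
      rw [hR0] at hp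
      exact ⟨fun _ => p, hp, rfl, fun j _ => hPA hp, fun j hj => absurd hj (Nat.not_lt_zero j)⟩
    | succ i ih =>
      intro p hp
      have hp' : ∃ q ∈ R i, Γ q p := by
        rw [hRs, mem_union, mem_filter] at hp
        rcases hp with hp | ⟨_, h⟩
        · exact ⟨p, hp, hloop p (hRA i hp)⟩
        · exact h
      obtain ⟨q, hq, hqp⟩ := hp'
      obtain ⟨w, h0, hwi, hwA, hwΓ⟩ := ih q hq
      refine ⟨fun j => if j ≤ i then w j else p, ?_, ?_, ?_, ?_⟩
      · simpa using h0
      · simp
      · intro j hj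
        by_cases h : j ≤ i
        · simp only [h, if_true]; exact hwA j h
        · simp only [h, if_false]; exact hRA _ hp
      · intro j hj
        by_cases h : j + 1 ≤ i
        · have h' : j ≤ i := by omega
          simp only [h, h', if_true]
          exact hwΓ j (by omega)
        · have h' : j = i := by omega
          subst h'
          simp only [le_refl, if_true, h, if_false, hwi]
          exact hqp
  have hq1 : q ∈ R (i + 1) := by rw [hRs]; exact mem_union_left _ hqR
  obtain ⟨w, h0, hwi, hwA, hwΓ⟩ := walk (i + 1) q hq1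
  exact ⟨i + 1, w, by omega, by omega, h0, by rw [hwi]; exact hqQ, hwA, hwΓ⟩

end Pool.Agent.MPd266dbH
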