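import Pool.Agent.Lib.MP_d266db_co.H.SpecQ

/-!
# MP_d266db_co, H: round robin
-/

set_option autoImplicit false

namespace Pool.Agent.MPd266dbH

open Finset Pool.Agent.MPd266db

/-- the number of `j < s` with a given remainder -/
theorem rr_count (s q l : ℕ) (hl : l < q) :
    |((q : ℝ) * ((Finset.range s).filter (fun j => j % q = l)).card) - s| ≤ q := by
  have hq : 0 < q := by omega
  have h1 : ((Finset.range s).filter (fun j => j % q = l)).card =
      s / q + if l < s % q then 1 else 0 := by
    have h2 := Nat.count_modEq_card s hq l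
    rw [Nat.mod_eq_of_lt hl] at h2
    rw [← h2, Nat.count_eq_card_filter_range]
    congr 1
    refine Finset.filter_congr fun j _ => ?_
    unfold Nat.ModEq
    rw [Nat.mod_eq_of_lt hl]
  have h3 : q * (s / q) + s % q = s := Nat.div_add_mod s q
  have h4 : s % q < q := Nat.mod_lt _ hq
  have h3' : (q : ℝ) * ((s / q : ℕ) : ℝ) + ((s % q : ℕ) : ℝ) = s := by exact_mod_cast h3
  have h4' : ((s % q : ℕ) : ℝ) < q := by exact_mod_cast h4
  have h5 : (0 : ℝ) ≤ ((s % q : ℕ) : ℝ) := Nat.cast_nonneg _
  rw [h1]
  push_cast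
  rw [abs_le]
  split_ifs
  · constructor <;> linarith
  · constructor <;> linarith

/-- one key -/
theorem rr_one {n M : ℕ} (S : Finset (Fin n × Fin n)) (G : Finset (Fin M)) :
    ∃ g : Fin n × Fin n → Option (Fin M), (∀ e m, g e = some m → e ∈ S ∧ m ∈ G) ∧
      ∀ m ∈ G, |((G.card : ℝ) * (S.filter (fun e => g e = some m)).card) - S.card| ≤ G.card := by
  classical
  rcases G.eq_empty_or_nonempty with rfl | hG
  · exact ⟨fun _ => none, fun e m h => by simp at h, fun m hm => by simp at hm⟩
  · have hq : 0 < G.card := hG.card_pos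
    let φ := S.equivFin
    let ψ := G.equivFin
    refine ⟨fun e => if h : e ∈ S then
      some (ψ.symm ⟨(φ ⟨e, h⟩ : ℕ) % G.card, Nat.mod_lt _ hq⟩ : G).1 else none, ?_, ?_⟩
    · intro e m h
      by_cases he : e ∈ S
      · simp only [dif_pos he, Option.some.injEq] at h
        exact ⟨he, h ▸ (ψ.symm ⟨(φ ⟨e, he⟩ : ℕ) % G.card, Nat.mod_lt _ hq⟩).2⟩
      · simp only [dif_neg he] at h
        exact absurd h (by simp)
    · intro m hm
      have hcard : (S.filter (fun e => (if h : e ∈ S then
          some (ψ.symm ⟨(φ ⟨e, h⟩ : ℕ) % G.card, Nat.mod_lt _ hq⟩ : G).1 else none) = some m)).card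
          = ((Finset.range S.card).filter (fun j => j % G.card = (ψ ⟨m, hm⟩ : ℕ))).card := by
        have key : ∀ (e : Fin n × Fin n) (he : e ∈ S),
            (ψ.symm ⟨(φ ⟨e, he⟩ : ℕ) % G.card, Nat.mod_lt _ hq⟩ : G).1 = m ↔
              (φ ⟨e, he⟩ : ℕ) % G.card = (ψ ⟨m, hm⟩ : ℕ) := by
          intro e he
          constructor
          · intro h
            have h1 : ψ.symm ⟨(φ ⟨e, he⟩ : ℕ) % G.card, Nat.mod_lt _ hq⟩ = ⟨m, hm⟩ :=
              Subtype.ext h
            rw [← h1, Equiv.apply_symm_apply]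
          · intro h
            have h1 : (⟨(φ ⟨e, he⟩ : ℕ) % G.card, Nat.mod_lt _ hq⟩ : Fin G.card) = ψ ⟨m, hm⟩ :=
              Fin.ext h
            rw [h1, Equiv.symm_apply_apply]
        refine Finset.card_bij (fun e he => (φ ⟨e, (Finset.mem_filter.1 he).1⟩ : ℕ)) ?_ ?_ ?_
        · intro e he
          have he1 := (Finset.mem_filter.1 he).1
          have he2 := (Finset.mem_filter.1 he).2
          rw [dif_pos he1, Option.some.injEq] at he2
          rw [Finset.mem_filter, Finset.mem_range]
          exact ⟨(φ ⟨e, he1⟩).2, (key e he1).1 he2⟩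
        · intro e he e' he' h
          have h1 := φ.injective (Fin.ext h)
          exact congrArg Subtype.val h1
        · intro j hj
          rw [Finset.mem_filter, Finset.mem_range] at hj
          obtain ⟨⟨e, he⟩, hej⟩ := φ.surjective ⟨j, hj.1⟩
          have hej' : (φ ⟨e, he⟩ : ℕ) = j := by rw [hej]
          refine ⟨e, ?_, hej'⟩
          rw [Finset.mem_filter]
          refine ⟨he, ?_⟩
          rw [dif_pos he, Option.some.injEq, key e he, hej']
          exact hj.2
      rw [hcard]
      exact rr_count S.card G.card _ (ψ ⟨m, hm⟩).2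

theorem tRR : S_RR := by
  classical
  intro n M A κ _ key G
  choose g hg1 hg2 using fun x : κ => rr_one (A.filter (fun e => key e = x)) (G x)
  refine ⟨fun e => g (key e) e, ?_, ?_⟩
  · intro e m h
    have h1 := hg1 (key e) e m h
    exact ⟨(Finset.mem_filter.1 h1.1).1, h1.2⟩
  · intro x m hm
    have h1 := hg2 x m hm
    have h2 : A.filter (fun e => key e = x ∧ g (key e) e = some m) =
        (A.filter (fun e => key e = x)).filter (fun e => g x e = some m) := by
      rw [Finset.filter_filter]
      refine Finset.filter_congr fun e _ => ?_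
      constructor
      · rintro ⟨rfl, h⟩
        exact ⟨rfl, h⟩
      · rintro ⟨rfl, h⟩
        exact ⟨rfl, h⟩
    rw [h2]
    exact h1

end Pool.Agent.MPd266dbH
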