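import Pool.Agent.Lib.MP_d266db_co.H.SpecQ
import Pool.Agent.Lib.MP_d266db_co.Fac

/-!
# MP_d266db_co, H: a regular subdigraph of a part
-/

set_option autoImplicit false

namespace Pool.Agent.MPd266dbH

open Finset Pool.Agent.MPd266db

theorem tRgx : S_Rgx := by
  classical
  intro n d P hP
  obtain ⟨H, hH, h⟩ := tFac n P (fun _ => d) (fun _ => d) rfl (by
    intro X Y
    simp only [sum_const, smul_eq_mul]
    have hY : Yᶜ.card = n - Y.card := by rw [card_compl, Fintype.card_fin]
    have hYn : Y.card ≤ n := by
      have := card_le_univ Y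
      rwa [Fintype.card_fin] at this
    rw [hY]
    by_cases hc : n + 1 ≤ X.card + Y.card
    · have h1 := hP X Y hc
      have h2 : ((X.card * d : ℕ) : ℝ) ≤ ((eb P X Y + (n - Y.card) * d : ℕ) : ℝ) := by
        push_cast [Nat.cast_sub hYn]
        linarith
      exact_mod_cast h2
    · have h3 : X.card ≤ n - Y.card := by omega
      have := Nat.mul_le_mul_right d h3
      omega)
  exact ⟨H, hH, h⟩

end Pool.Agent.MPd266dbH
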