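import Pool.Agent.Lib.MP_d266db_co.H.SpecR

/-!
# MP_d266db_co, H, Rmt: rematching a slice
-/

set_option autoImplicit false

namespace Pool.Agent.MPd266dbH

open Finset Pool.Agent.MPd266db

/-! ### small lemmas -/

/-- intersection with a set whose complement is small -/
private theorem rmt_int {n : ℕ} (A O : Finset (Fin n)) : A.card ≤ (A ∩ O).card + (Oᶜ).card := by
  have h : A ⊆ (A ∩ O) ∪ Oᶜ := by
    intro v hv
    by_cases h : v ∈ O
    · exact mem_union_left _ (mem_inter.2 ⟨hv, h⟩)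
    · exact mem_union_right _ (mem_compl.2 h)
  exact (card_le_card h).trans (card_union_le _ _)

/-- the slice -/
private theorem rmt_slice {n k Q : ℕ} {η θ' : ℝ}
    (hS : ∀ 𝓕 : Finset (Finset (Fin n)), 𝓕.card ≤ n ^ 2 → ∃ U : Finset (Fin n), ∀ F ∈ 𝓕,
      θ' * n ≤ F.card → (1 - η) * F.card ≤ Q * ((U ∩ F).card : ℝ) ∧
        Q * ((U ∩ F).card : ℝ) ≤ (1 + η) * F.card)
    (hn : 2 * k + 10 ≤ n) (F0 : Finset (Fin n)) (F1 F2 : Fin k → Finset (Fin n))
    (F3 F4 : Fin n → Finset (Fin n)) (h0 : θ' * n ≤ F0.card) (h1 : ∀ p, θ' * n ≤ (F1 p).card)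
    (h2 : ∀ p, θ' * n ≤ (F2 p).card) (h3 : ∀ u, θ' * n ≤ (F3 u).card)
    (h4 : ∀ u, θ' * n ≤ (F4 u).card) :
    ∃ U : Finset (Fin n), (Q * ((U ∩ F0).card : ℝ) ≤ (1 + η) * F0.card) ∧
      (∀ p, (1 - η) * (F1 p).card ≤ Q * ((U ∩ F1 p).card : ℝ) ∧
        Q * ((U ∩ F1 p).card : ℝ) ≤ (1 + η) * (F1 p).card) ∧
      (∀ p, (1 - η) * (F2 p).card ≤ Q * ((U ∩ F2 p).card : ℝ)) ∧
      (∀ u, (1 - η) * (F3 u).card ≤ Q * ((U ∩ F3 u).card : ℝ)) ∧
      ∀ u, (1 - η) * (F4 u).card ≤ Q * ((U ∩ F4 u).card : ℝ) := by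
  classical
  have hcard : (({F0} ∪ univ.image F1 ∪ univ.image F2 ∪ univ.image F3 ∪ univ.image F4 :
      Finset (Finset (Fin n)))).card ≤ n ^ 2 := by
    have e0 : ({F0} : Finset (Finset (Fin n))).card = 1 := card_singleton _
    have e1 : (univ.image F1).card ≤ k := by
      have := card_image_le (s := (univ : Finset (Fin k))) (f := F1)
      rwa [card_univ, Fintype.card_fin] at this
    have e2 : (univ.image F2).card ≤ k := by
      have := card_image_le (s := (univ : Finset (Fin k))) (f := F2)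
      rwa [card_univ, Fintype.card_fin] at this
    have e3 : (univ.image F3).card ≤ n := by
      have := card_image_le (s := (univ : Finset (Fin n))) (f := F3)
      rwa [card_univ, Fintype.card_fin] at this
    have e4 : (univ.image F4).card ≤ n := by
      have := card_image_le (s := (univ : Finset (Fin n))) (f := F4)
      rwa [card_univ, Fintype.card_fin] at this
    have f1 := card_union_le ({F0} : Finset (Finset (Fin n))) (univ.image F1)
    have f2 := card_union_le ({F0} ∪ univ.image F1 : Finset (Finset (Fin n))) (univ.image F2)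
    have f3 := card_union_le ({F0} ∪ univ.image F1 ∪ univ.image F2 : Finset (Finset (Fin n)))
      (univ.image F3)
    have f4 := card_union_le ({F0} ∪ univ.image F1 ∪ univ.image F2 ∪ univ.image F3 :
      Finset (Finset (Fin n))) (univ.image F4)
    have e5 : 3 * n ≤ n ^ 2 := by
      rw [sq]
      exact Nat.mul_le_mul_right n (by omega)
    omega
  obtain ⟨U, hU⟩ := hS _ hcard
  refine ⟨U, (hU F0 ?_ h0).2, fun p => hU (F1 p) ?_ (h1 p), fun p => (hU (F2 p) ?_ (h2 p)).1,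
    fun u => (hU (F3 u) ?_ (h3 u)).1, fun u => (hU (F4 u) ?_ (h4 u)).1⟩
  · simp
  · exact mem_union_left _ (mem_union_left _ (mem_union_left _ (mem_union_right _
      (mem_image_of_mem _ (mem_univ p)))))
  · exact mem_union_left _ (mem_union_left _ (mem_union_right _ (mem_image_of_mem _ (mem_univ p))))
  · exact mem_union_left _ (mem_union_right _ (mem_image_of_mem _ (mem_univ u)))
  · exact mem_union_right _ (mem_image_of_mem _ (mem_univ u))

/-- the matching inside a pair of clusters -/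
private theorem rmt_match (hNPM : S_NPM) {n s h : ℕ} {S : Finset (Fin n × Fin n)} {β1 d : ℝ}
    {T H A B : Finset (Fin n)}
    (hdens : ∀ A B : Finset (Fin n), A ⊆ T → B ⊆ H → β1 * s ≤ A.card → β1 * s ≤ B.card →
      d * A.card * B.card ≤ eb S A B) (hd : 0 < d) (hh : β1 * s ≤ h) (hh1 : 1 ≤ h) (hA : A ⊆ T)
    (hB : B ⊆ H) :
    ∃ (X : Finset (Fin n)) (φ : Fin n → Fin n), X ⊆ A ∧ Set.InjOn φ X ∧
      (∀ v ∈ X, φ v ∈ B ∧ (v, φ v) ∈ S) ∧ (A.card ≤ X.card + h ∨ B.card ≤ X.card + h) := by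
  refine hNPM n h S A B fun A' B' hA' hB' h1 h2 => ?_
  have c1 : (h : ℝ) ≤ A'.card := by exact_mod_cast h1
  have c2 : (h : ℝ) ≤ B'.card := by exact_mod_cast h2
  have c3 : (1 : ℝ) ≤ h := by exact_mod_cast hh1
  have e1 := hdens A' B' (hA'.trans hA) (hB'.trans hB) (hh.trans c1) (hh.trans c2)
  have e2 : 0 < d * A'.card * B'.card :=
    mul_pos (mul_pos hd (by linarith)) (by linarith)
  have e3 : 0 < eb S A' B' := by exact_mod_cast e2.trans_le e1
  unfold eb at e3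
  obtain ⟨e, he⟩ := card_pos.1 e3
  rw [mem_filter] at he
  exact ⟨e.1, he.2.1, e.2, he.2.2, he.1⟩

/-- gluing functions on disjoint sets -/
private theorem rmt_glue {n k : ℕ} (X : Fin k → Finset (Fin n))
    (hX : ∀ p p', p ≠ p' → Disjoint (X p) (X p')) (φ : Fin k → Fin n → Fin n) :
    ∃ ψ : Fin n → Fin n, ∀ p, ∀ v ∈ X p, ψ v = φ p v := by
  classical
  refine ⟨fun v => if h : ∃ p, v ∈ X p then φ h.choose v else v, fun p v hv => ?_⟩
  have h : ∃ p, v ∈ X p := ⟨p, hv⟩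
  have e : h.choose = p := by
    by_contra hne
    exact disjoint_left.1 (hX _ _ hne) h.choose_spec hv
  simp only [dif_pos h, e]

/-- counting with a partial cover -/
private theorem rmt_cnt {n k : ℕ} (Y : Fin k → Finset (Fin n)) (D : Finset (Fin n))
    (P : Fin n → Prop) [DecidablePred P] :
    (D.filter P).card ≤ ∑ p, ((Y p).filter P).card + (D \ univ.biUnion Y).card := by
  have h : D.filter P ⊆ univ.biUnion (fun p => (Y p).filter P) ∪ (D \ univ.biUnion Y) := by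
    intro v hv
    rw [mem_filter] at hv
    by_cases h : v ∈ univ.biUnion Y
    · rw [mem_biUnion] at h
      obtain ⟨p, hp, hvp⟩ := h
      exact mem_union_left _ (mem_biUnion.2 ⟨p, hp, mem_filter.2 ⟨hvp, hv.2⟩⟩)
    · exact mem_union_right _ (mem_sdiff.2 ⟨hv.1, h⟩)
  exact (card_le_card h).trans ((card_union_le _ _).trans (Nat.add_le_add_right card_biUnion_le _))

/-- the complement of a union of disjoint subsets -/
private theorem rmt_cmp {n k : ℕ} (Y : Fin k → Finset (Fin n)) (D : Finset (Fin n))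
    (hY : ∀ p p', p ≠ p' → Disjoint (Y p) (Y p')) (hD : ∀ p, Y p ⊆ D) :
    (D \ univ.biUnion Y).card + ∑ p, (Y p).card = D.card := by
  have e1 : (univ.biUnion Y).card = ∑ p, (Y p).card :=
    card_biUnion fun p _ p' _ hne => hY p p' hne
  rw [← e1]
  refine card_sdiff_add_card_eq_card ?_
  intro v hv
  obtain ⟨p, _, hvp⟩ := mem_biUnion.1 hv
  exact hD p hvp

private theorem rmt_num1 {Q a x h s η t : ℝ} (h1 : (1 - η) * t ≤ Q * a) (ht : (1 - η) * s ≤ t)
    (ha : a ≤ x + h) (hQh : Q * h ≤ η * s) (hs : 0 ≤ s) (hQ : 0 ≤ Q) (hη : η ≤ 1) :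
    (1 - 3 * η) * s ≤ Q * x := by
  have e1 := mul_le_mul_of_nonneg_left ht (by linarith : (0 : ℝ) ≤ 1 - η)
  have e2 := mul_le_mul_of_nonneg_left ha hQ
  have e3 := mul_nonneg (sq_nonneg η) hs
  linarith [e1, e2, e3]

private theorem rmt_num2 {Q U V sg n ks η : ℝ} (hU : Q * U ≤ (1 + η) * n)
    (hV : V + sg = U) (hsg : (1 - 3 * η) * ks ≤ Q * sg) (hks : (1 - η) * n ≤ ks)
    (hη : 3 * η ≤ 1) (hn : 0 ≤ n) : Q * V ≤ 5 * η * n := by
  have e1 := mul_le_mul_of_nonneg_left hks (by linarith : (0 : ℝ) ≤ 1 - 3 * η)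
  have e2 := mul_nonneg (sq_nonneg η) hn
  have e3 : Q * V = Q * U - Q * sg := by
    rw [← hV]
    ring
  rw [e3]
  linarith [e1, e2]

private theorem rmt_num3 {Q W sg V n θ η gn F : ℝ} (hW : (1 - η) * F ≤ Q * W)
    (hF : θ * n - gn ≤ F) (hg : gn ≤ η * n) (hc : W ≤ sg + V) (hV : Q * V ≤ 5 * η * n)
    (hη0 : 0 ≤ η) (hη : η ≤ 1) (hθ : θ ≤ 1) (hηθ : 14 * η ≤ θ) (hn : 0 ≤ n) (hQ : 0 ≤ Q) :
    θ * n ≤ 2 * Q * sg := by
  have e0 : (θ - η) * n ≤ F := by linarith
  have e1 := mul_le_mul_of_nonneg_left e0 (by linarith : (0 : ℝ) ≤ 1 - η)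
  have e2 := mul_le_mul_of_nonneg_left hc hQ
  have e3 := mul_nonneg (mul_nonneg hη0 hη0) hn
  have e4 := mul_nonneg (mul_nonneg hη0 (by linarith : (0 : ℝ) ≤ 1 - θ)) hn
  have e5 := mul_nonneg (by linarith : (0 : ℝ) ≤ θ - 14 * η) hn
  linarith [e1, e2, e3, e4, e5]

/-! ### the main part -/

/-- everything after the choice of the slice -/
private theorem rmt_main (hNPM : S_NPM) (hExt : S_Ext) {n K k s Q : ℕ}
    {S : Finset (Fin n × Fin n)} {o i : Fin n → Fin K} {cl : Fin k → Fin K}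
    {T H : Fin k → Finset (Fin n)} {Γ : Fin k → Fin k → Prop} {β1 d c ν η ε gn θ : ℝ}
    (hR : RSys S o i cl T H Γ s β1 d c ν η) (hη0 : 0 < η) (hε : ε = 8 * η) (hη1 : 14 * η ≤ θ)
    (hθ1 : θ ≤ 1) (hd : 0 < d) (σ : Equiv.Perm (Fin n)) (OT U' : Finset (Fin n))
    (hOT : ∀ v, v ∈ OT ↔ o v = i (σ v)) (hc : ((OTᶜ).card : ℝ) ≤ gn) (hgs : gn ≤ η * s)
    (hgn : gn ≤ η * n) (hQ : 1 ≤ Q) (h : ℕ) (hh : β1 * s ≤ h) (hh1 : 1 ≤ h)
    (hQh : (Q : ℝ) * h ≤ η * s) (hod : ∀ v, θ * n ≤ od S v) (hid : ∀ v, θ * n ≤ idg S v)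
    (u0 : Q * ((U' ∩ OT).card : ℝ) ≤ (1 + η) * OT.card)
    (u1 : ∀ p, (1 - η) * ((T p ∩ OT).card : ℝ) ≤ Q * ((U' ∩ (T p ∩ OT)).card : ℝ) ∧
      Q * ((U' ∩ (T p ∩ OT)).card : ℝ) ≤ (1 + η) * (T p ∩ OT).card)
    (u2 : ∀ p, (1 - η) * ((univ.filter (fun v => σ v ∈ H p) ∩ OT).card : ℝ) ≤
      Q * ((U' ∩ (univ.filter (fun v => σ v ∈ H p) ∩ OT)).card : ℝ))
    (u3 : ∀ u, (1 - η) * ((univ.filter (fun v => (u, σ v) ∈ S) ∩ OT).card : ℝ) ≤
      Q * ((U' ∩ (univ.filter (fun v => (u, σ v) ∈ S) ∩ OT)).card : ℝ))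
    (u4 : ∀ w, (1 - η) * ((univ.filter (fun v => (v, w) ∈ S) ∩ OT).card : ℝ) ≤
      Q * ((U' ∩ (univ.filter (fun v => (v, w) ∈ S) ∩ OT)).card : ℝ)) :
    ∃ (U V : Finset (Fin n)) (X Y : Fin k → Finset (Fin n)) (ρ0 : Equiv.Perm (Fin n)),
        (∀ v ∈ U, o v = i (σ v)) ∧
        (∀ p, X p ⊆ U ∧ X p ⊆ T p ∧ Y p ⊆ H p ∧ (X p).card = (Y p).card ∧
          (1 - ε) * s ≤ Q * ((X p).card : ℝ) ∧ Q * ((X p).card : ℝ) ≤ (1 + ε) * s) ∧
        XInv S o i X Y σ ρ0 U ∅ V ∧ V = U \ univ.biUnion X ∧ Q * (V.card : ℝ) ≤ ε * n ∧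
        Q * (U.card : ℝ) ≤ 2 * n ∧
        (∀ v, θ * n ≤ 2 * Q * ∑ p, (((Y p).filter (fun w => (v, w) ∈ S)).card : ℝ)) ∧
        ∀ w, θ * n ≤ 2 * Q * ∑ p, (((X p).filter (fun v => (v, w) ∈ S)).card : ℝ) := by
  classical
  have hQ0 : (0 : ℝ) ≤ Q := Nat.cast_nonneg _
  have hs0 : (0 : ℝ) ≤ s := Nat.cast_nonneg _
  have hn0 : (0 : ℝ) ≤ n := Nat.cast_nonneg _
  have hη2 : 14 * η ≤ 1 := hη1.trans hθ1
  obtain ⟨U, hU⟩ : ∃ U, U = U' ∩ OT := ⟨_, rfl⟩
  -- the sizes of the sets in the clusters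
  have a1 : ∀ p, (1 - η) * s ≤ ((T p ∩ OT).card : ℝ) := by
    intro p
    have e1 := rmt_int (T p) OT
    rw [hR.sT p] at e1
    have e2 : (s : ℝ) ≤ (T p ∩ OT).card + (OTᶜ).card := by exact_mod_cast e1
    linarith
  have a2 : ∀ p, (1 - η) * s ≤ ((univ.filter (fun v => σ v ∈ H p) ∩ OT).card : ℝ) := by
    intro p
    have e1 := rmt_int (univ.filter (fun v => σ v ∈ H p)) OT
    have e3 : (univ.filter (fun v => σ v ∈ H p)).card = s := by
      rw [← hR.sH p]
      refine card_bij (fun v _ => σ v) (fun v hv => (mem_filter.1 hv).2)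
        (fun v _ w _ hvw => σ.injective hvw) fun w hw => ?_
      exact ⟨σ.symm w, mem_filter.2 ⟨mem_univ _, by rwa [σ.apply_symm_apply]⟩, σ.apply_symm_apply w⟩
    rw [e3] at e1
    have e2 : (s : ℝ) ≤ (univ.filter (fun v => σ v ∈ H p) ∩ OT).card + (OTᶜ).card := by
      exact_mod_cast e1
    linarith
  have a3 : ∀ p, ((T p ∩ OT).card : ℝ) ≤ s := by
    intro p
    have := card_le_card (inter_subset_left : T p ∩ OT ⊆ T p)
    rw [hR.sT p] at this
    exact_mod_cast this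
  -- the matchings
  have hA : ∀ p, U' ∩ (T p ∩ OT) ⊆ T p := fun p v hv => (mem_inter.1 (mem_inter.1 hv).2).1
  have hB : ∀ p, (U' ∩ (univ.filter (fun v => σ v ∈ H p) ∩ OT)).image σ ⊆ H p := by
    intro p w hw
    obtain ⟨v, hv, rfl⟩ := mem_image.1 hw
    exact (mem_filter.1 (mem_inter.1 (mem_inter.1 hv).2).1).2
  have hBc : ∀ p, ((U' ∩ (univ.filter (fun v => σ v ∈ H p) ∩ OT)).image σ).card =
      (U' ∩ (univ.filter (fun v => σ v ∈ H p) ∩ OT)).card := fun p =>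
    card_image_of_injective _ σ.injective
  choose X φ hXA hφi hφ hXc using fun p => rmt_match hNPM (hR.dens p p (hR.loop p)) hd hh hh1
    (hA p) (hB p)
  have hXU : ∀ p, X p ⊆ U := by
    intro p v hv
    have h1 := mem_inter.1 (hXA p hv)
    rw [hU]
    exact mem_inter.2 ⟨h1.1, (mem_inter.1 h1.2).2⟩
  have hXT : ∀ p, X p ⊆ T p := fun p => (hXA p).trans (hA p)
  have hφH : ∀ p, ∀ v ∈ X p, φ p v ∈ H p := fun p v hv => hB p (hφ p v hv).1
  have hφU : ∀ p, ∀ v ∈ X p, φ p v ∈ U.image σ := by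
    intro p v hv
    obtain ⟨w, hw, e⟩ := mem_image.1 (hφ p v hv).1
    have h1 := mem_inter.1 hw
    rw [← e, hU]
    exact mem_image_of_mem _ (mem_inter.2 ⟨h1.1, (mem_inter.1 h1.2).2⟩)
  have hdX : ∀ p p', p ≠ p' → Disjoint (X p) (X p') := fun p p' hne =>
    (hR.dT p p' hne).mono (hXT p) (hXT p')
  obtain ⟨Y, hY⟩ : ∃ Y : Fin k → Finset (Fin n), ∀ p, Y p = (X p).image (φ p) := ⟨_, fun _ => rfl⟩
  have hYH : ∀ p, Y p ⊆ H p := by
    intro p w hw
    rw [hY p] at hw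
    obtain ⟨v, hv, rfl⟩ := mem_image.1 hw
    exact hφH p v hv
  have hYU : ∀ p, Y p ⊆ U.image σ := by
    intro p w hw
    rw [hY p] at hw
    obtain ⟨v, hv, rfl⟩ := mem_image.1 hw
    exact hφU p v hv
  have hdY : ∀ p p', p ≠ p' → Disjoint (Y p) (Y p') := fun p p' hne =>
    (hR.dH p p' hne).mono (hYH p) (hYH p')
  have hXY : ∀ p, (X p).card = (Y p).card := by
    intro p
    rw [hY p, card_image_of_injOn (hφi p)]
  have hXlow : ∀ p, (1 - 3 * η) * s ≤ Q * ((X p).card : ℝ) := by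
    intro p
    rcases hXc p with h1 | h1
    · have h2 : ((U' ∩ (T p ∩ OT)).card : ℝ) ≤ (X p).card + h := by exact_mod_cast h1
      exact rmt_num1 (u1 p).1 (a1 p) h2 hQh hs0 hQ0 (by linarith)
    · rw [hBc p] at h1
      have h2 : ((U' ∩ (univ.filter (fun v => σ v ∈ H p) ∩ OT)).card : ℝ) ≤ (X p).card + h := by
        exact_mod_cast h1
      exact rmt_num1 (u2 p) (a2 p) h2 hQh hs0 hQ0 (by linarith)
  have hXup : ∀ p, Q * ((X p).card : ℝ) ≤ (1 + η) * s := by
    intro p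
    have h1 : ((X p).card : ℝ) ≤ (U' ∩ (T p ∩ OT)).card := by
      exact_mod_cast card_le_card (hXA p)
    have h2 := mul_le_mul_of_nonneg_left h1 hQ0
    have h3 := mul_le_mul_of_nonneg_left (a3 p) (by linarith : (0 : ℝ) ≤ 1 + η)
    exact h2.trans ((u1 p).2.trans h3)
  -- the permutation
  obtain ⟨ψ, hψ⟩ := rmt_glue X hdX φ
  have hZU : univ.biUnion X ⊆ U := by
    intro v hv
    obtain ⟨p, _, hvp⟩ := mem_biUnion.1 hv
    exact hXU p hvp
  have hUo : ∀ v ∈ U, o v = i (σ v) := by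
    intro v hv
    rw [hU] at hv
    exact (hOT v).1 (mem_inter.1 hv).2
  obtain ⟨ρ0, hρ1, hρ2, hρ3⟩ := hExt n K o i σ U (univ.biUnion X) ψ hUo hZU (by
    intro v hv
    obtain ⟨p, _, hvp⟩ := mem_biUnion.1 hv
    rw [hψ p v hvp]
    exact ⟨hφU p v hvp, by rw [hR.iH p _ (hφH p v hvp), hR.oT p _ (hXT p hvp)]⟩) (by
    intro v hv v' hv' e
    obtain ⟨p, _, hvp⟩ := mem_biUnion.1 (mem_coe.1 hv)
    obtain ⟨p', _, hvp'⟩ := mem_biUnion.1 (mem_coe.1 hv')
    rw [hψ p v hvp, hψ p' v' hvp'] at e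
    by_cases hpp : p = p'
    · subst hpp
      exact hφi p hvp hvp' e
    · exfalso
      refine disjoint_left.1 (hR.dH p p' hpp) (hφH p v hvp) ?_
      rw [e]
      exact hφH p' v' hvp')
  -- the numbers
  have hUc : Q * (U.card : ℝ) ≤ (1 + η) * n := by
    have h1 : (OT.card : ℝ) ≤ n := by
      have := card_le_univ OT
      rw [Fintype.card_fin] at this
      exact_mod_cast this
    rw [hU]
    exact u0.trans (mul_le_mul_of_nonneg_left h1 (by linarith))
  have hVc : Q * ((U \ univ.biUnion X).card : ℝ) ≤ 5 * η * n := by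
    have h1 := rmt_cmp X U hdX hXU
    have h2 : ((U \ univ.biUnion X).card : ℝ) + ∑ p, ((X p).card : ℝ) = U.card := by
      exact_mod_cast h1
    refine rmt_num2 (ks := k * (s : ℝ)) hUc h2 ?_ hR.cov (by linarith) hn0
    rw [mul_sum]
    have h3 : ∑ _p : Fin k, (1 - 3 * η) * (s : ℝ) ≤ ∑ p, Q * ((X p).card : ℝ) :=
      sum_le_sum fun p _ => hXlow p
    rw [sum_const, card_univ, Fintype.card_fin, nsmul_eq_mul] at h3
    linarith
  have hVc' : ((U.image σ \ univ.biUnion Y).card : ℝ) = (U \ univ.biUnion X).card := by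
    have h1 := rmt_cmp X U hdX hXU
    have h2 := rmt_cmp Y (U.image σ) hdY hYU
    rw [card_image_of_injective _ σ.injective] at h2
    have h3 : ∑ p, (Y p).card = ∑ p, (X p).card := sum_congr rfl fun p _ => (hXY p).symm
    have h4 : (U.image σ \ univ.biUnion Y).card = (U \ univ.biUnion X).card := by omega
    exact_mod_cast h4
  refine ⟨U, U \ univ.biUnion X, X, Y, ρ0, hUo, fun p => ⟨hXU p, hXT p, hYH p, hXY p, ?_, ?_⟩,
    ⟨?_, ?_, ?_, ?_, ?_⟩, rfl, ?_, ?_, ?_, ?_⟩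
  · have h1 := hXlow p
    have h2 := mul_nonneg hη0.le hs0
    rw [hε]
    linarith
  · have h1 := hXup p
    have h2 := mul_nonneg hη0.le hs0
    rw [hε]
    linarith
  · intro p v hv _
    rw [hρ1 v (mem_biUnion.2 ⟨p, mem_univ p, hv⟩), hψ p v hv, hY p]
    exact mem_image_of_mem _ hv
  · intro v hv _
    exact hρ2 v hv
  · intro v hv
    by_cases hvU : v ∈ U
    · have hvZ : v ∈ univ.biUnion X := by
        by_contra hcon
        exact hv (mem_sdiff.2 ⟨hvU, hcon⟩)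
      obtain ⟨p, _, hvp⟩ := mem_biUnion.1 hvZ
      rw [hρ1 v hvZ, hψ p v hvp]
      exact Or.inr (hφ p v hvp).2
    · exact Or.inl (hρ2 v hvU)
  · intro v hv
    exact (hρ3 v (mem_sdiff.1 hv).1).2
  · intro v hv
    exact hρ2 v fun hvU => hv (hUo v hvU)
  · have h2 := mul_nonneg hη0.le hn0
    rw [hε]
    linarith
  · have h2 := mul_nonneg (by linarith : (0 : ℝ) ≤ 1 - η) hn0
    linarith
  · intro u
    have h1 := rmt_cnt Y (U.image σ) (fun w => (u, w) ∈ S)
    have h2 : (((U.image σ).filter (fun w => (u, w) ∈ S)).card : ℝ) ≤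
        ∑ p, (((Y p).filter (fun w => (u, w) ∈ S)).card : ℝ) + (U \ univ.biUnion X).card := by
      rw [← hVc']
      exact_mod_cast h1
    have h3 : ((U.image σ).filter (fun w => (u, w) ∈ S)).card =
        (U' ∩ (univ.filter (fun v => (u, σ v) ∈ S) ∩ OT)).card := by
      rw [← card_image_of_injective (U' ∩ (univ.filter (fun v => (u, σ v) ∈ S) ∩ OT)) σ.injective]
      congr 1
      ext w
      rw [mem_filter, mem_image, mem_image]
      constructor
      · rintro ⟨⟨v, hv, rfl⟩, hw⟩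
        rw [hU, mem_inter] at hv
        exact ⟨v, mem_inter.2 ⟨hv.1, mem_inter.2 ⟨mem_filter.2 ⟨mem_univ _, hw⟩, hv.2⟩⟩, rfl⟩
      · rintro ⟨v, hv, rfl⟩
        have h4 := mem_inter.1 hv
        have h5 := mem_inter.1 h4.2
        refine ⟨⟨v, ?_, rfl⟩, (mem_filter.1 h5.1).2⟩
        rw [hU]
        exact mem_inter.2 ⟨h4.1, h5.2⟩
    rw [h3] at h2
    have h4 : θ * n - gn ≤ ((univ.filter (fun v => (u, σ v) ∈ S) ∩ OT).card : ℝ) := by
      have e1 := rmt_int (univ.filter (fun v => (u, σ v) ∈ S)) OT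
      have e3 : (univ.filter (fun v => (u, σ v) ∈ S)).card = od S u := by
        unfold od
        refine card_bij (fun v _ => (u, σ v)) (fun v hv => mem_filter.2 ⟨(mem_filter.1 hv).2, rfl⟩)
          (fun v _ w _ hvw => σ.injective (Prod.ext_iff.1 hvw).2) fun e he => ?_
        rw [mem_filter] at he
        refine ⟨σ.symm e.2, mem_filter.2 ⟨mem_univ _, ?_⟩, ?_⟩
        · rw [σ.apply_symm_apply, ← he.2]
          exact he.1
        · rw [σ.apply_symm_apply, ← he.2]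
      rw [e3] at e1
      have e2 : (od S u : ℝ) ≤ (univ.filter (fun v => (u, σ v) ∈ S) ∩ OT).card + (OTᶜ).card := by
        exact_mod_cast e1
      have := hod u
      linarith
    exact rmt_num3 (u3 u) h4 hgn h2 hVc hη0.le (by linarith) hθ1 hη1 hn0 hQ0
  · intro w
    have h1 := rmt_cnt X U (fun v => (v, w) ∈ S)
    have h2 : ((U.filter (fun v => (v, w) ∈ S)).card : ℝ) ≤
        ∑ p, (((X p).filter (fun v => (v, w) ∈ S)).card : ℝ) + (U \ univ.biUnion X).card := by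
      exact_mod_cast h1
    have h3 : U.filter (fun v => (v, w) ∈ S) = U' ∩ (univ.filter (fun v => (v, w) ∈ S) ∩ OT) := by
      ext v
      rw [mem_filter, mem_inter, mem_inter, mem_filter, hU, mem_inter]
      constructor
      · rintro ⟨⟨h4, h5⟩, h6⟩
        exact ⟨h4, ⟨mem_univ _, h6⟩, h5⟩
      · rintro ⟨h4, ⟨_, h6⟩, h5⟩
        exact ⟨⟨h4, h5⟩, h6⟩
    rw [h3] at h2
    have h4 : θ * n - gn ≤ ((univ.filter (fun v => (v, w) ∈ S) ∩ OT).card : ℝ) := by
      have e1 := rmt_int (univ.filter (fun v => (v, w) ∈ S)) OT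
      have e3 : (univ.filter (fun v => (v, w) ∈ S)).card = idg S w := by
        unfold idg
        refine card_bij (fun v _ => (v, w)) (fun v hv => mem_filter.2 ⟨(mem_filter.1 hv).2, rfl⟩)
          (fun v _ v' _ hvw => (Prod.ext_iff.1 hvw).1) fun e he => ?_
        rw [mem_filter] at he
        refine ⟨e.1, mem_filter.2 ⟨mem_univ _, ?_⟩, ?_⟩
        · rw [← he.2]
          exact he.1
        · rw [← he.2]
      rw [e3] at e1
      have e2 : (idg S w : ℝ) ≤ (univ.filter (fun v => (v, w) ∈ S) ∩ OT).card + (OTᶜ).card := by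
        exact_mod_cast e1
      have := hid w
      linarith
    exact rmt_num3 (u4 w) h4 hgn h2 hVc hη0.le (by linarith) hθ1 hη1 hn0 hQ0

theorem tRmt (hSlc : S_Slc) (hNPM : S_NPM) (hExt : S_Ext) : S_Rmt := by
  intro Q kmax ε θ hQ hθ hθ1 hε hεθ
  rcases Nat.eq_zero_or_pos kmax with hk0 | hk0
  · refine ⟨1, 0, one_pos, ?_⟩
    intro n _ K k s S o i cl T H Γ β1 d c ν _ _ _ _ hk hk'
    omega
  have hkR : (1 : ℝ) ≤ kmax := by exact_mod_cast hk0
  obtain ⟨η, hη⟩ : ∃ η, η = ε / 8 := ⟨_, rfl⟩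
  have hη0 : 0 < η := by
    rw [hη]
    linarith
  have hε8 : ε = 8 * η := by
    rw [hη]
    ring
  obtain ⟨θ', hθ'⟩ : ∃ θ', θ' = min (1 / (2 * (kmax : ℝ))) (θ / 2) := ⟨_, rfl⟩
  have hθ'0 : 0 < θ' := by
    rw [hθ']
    exact lt_min (by positivity) (by linarith)
  have hθ'1 : θ' ≤ 1 / (2 * (kmax : ℝ)) := hθ' ▸ min_le_left _ _
  have hθ'2 : θ' ≤ θ / 2 := hθ' ▸ min_le_right _ _
  obtain ⟨n1, hn1⟩ := hSlc Q η θ' hQ hη0 (by linarith) hθ'0
  obtain ⟨n2, hn2⟩ := exists_nat_ge (16 * Q * kmax / ε)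
  refine ⟨η / kmax, max n1 (max n2 (2 * kmax + 10)), by positivity, ?_⟩
  intro n hn K k s S o i cl T H Γ β1 d c ν hR hβ0 hβ hd hk1 hk2 hns hod hid σ hσ
  have hnn1 : n1 ≤ n := (le_max_left _ _).trans hn
  have hnn2 : n2 ≤ n := (le_max_left _ _).trans ((le_max_right _ _).trans hn)
  have hnn3 : 2 * kmax + 10 ≤ n := (le_max_right _ _).trans ((le_max_right _ _).trans hn)
  have hnR : (n : ℝ) ≤ kmax * s := by exact_mod_cast hns
  have hn0 : (0 : ℝ) ≤ n := Nat.cast_nonneg _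
  have hQR : (2 : ℝ) ≤ Q := by exact_mod_cast hQ
  have hbig : 16 * (Q : ℝ) * kmax ≤ ε * n := by
    have h1 : 16 * (Q : ℝ) * kmax / ε ≤ n := hn2.trans (by exact_mod_cast hnn2)
    rw [div_le_iff₀ hε] at h1
    linarith
  have hsbig : 16 * (Q : ℝ) ≤ ε * s := by
    have h1 := mul_le_mul_of_nonneg_left hnR hε.le
    have h2 : (kmax : ℝ) * (16 * Q) ≤ kmax * (ε * s) := by linarith
    exact le_of_mul_le_mul_left h2 (by linarith)
  have hs0 : (0 : ℝ) < s := by
    by_contra hcon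
    have h1 : (s : ℝ) ≤ 0 := not_lt.1 hcon
    have h2 := mul_le_mul_of_nonneg_left h1 hε.le
    linarith
  have hgs : η / kmax * n ≤ η * s := by
    rw [div_mul_eq_mul_div, div_le_iff₀ (by linarith)]
    have h1 := mul_le_mul_of_nonneg_left hnR hη0.le
    linarith
  have hgn : η / kmax * n ≤ η * n := by
    rw [div_mul_eq_mul_div, div_le_iff₀ (by linarith)]
    have h1 := mul_le_mul_of_nonneg_left hkR (mul_nonneg hη0.le hn0)
    linarith
  have hθs : θ' * n ≤ s / 2 := by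
    have h1 := mul_le_mul hθ'1 hnR hn0 (by positivity)
    have h2 : 1 / (2 * (kmax : ℝ)) * (kmax * s) = s / 2 := by
      field_simp
    linarith
  have hθn : θ' * n ≤ θ / 2 * n := mul_le_mul_of_nonneg_right hθ'2 hn0
  obtain ⟨OT, hOT⟩ : ∃ OT : Finset (Fin n), ∀ v, v ∈ OT ↔ o v = i (σ v) :=
    ⟨univ.filter (fun v => o v = i (σ v)), fun v => by simp⟩
  have hc : ((OTᶜ).card : ℝ) ≤ η / kmax * n := by
    have e : OTᶜ = univ.filter (fun v => o v ≠ i (σ v)) := by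
      ext v
      rw [mem_compl, hOT, mem_filter]
      exact ⟨fun h => ⟨mem_univ _, h⟩, fun h => h.2⟩
    rw [e]
    exact hσ
  have hint : ∀ A : Finset (Fin n), (A.card : ℝ) - η / kmax * n ≤ (A ∩ OT).card := by
    intro A
    have e2 : (A.card : ℝ) ≤ (A ∩ OT).card + (OTᶜ).card := by exact_mod_cast rmt_int A OT
    linarith
  have hη32 : 32 * η ≤ θ := by linarith
  have hηs := mul_nonneg hη0.le hs0.le
  have hηn := mul_nonneg hη0.le hn0
  have h16s : 32 * η * s ≤ 1 * s := mul_le_mul_of_nonneg_right (by linarith) hs0.le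
  have h16n : 32 * η * n ≤ θ * n := mul_le_mul_of_nonneg_right hη32 hn0
  have hθnn : θ * n ≤ 1 * n := mul_le_mul_of_nonneg_right hθ1 hn0
  obtain ⟨U', u0, u1, u2, u3, u4⟩ := rmt_slice (hn1 n hnn1) (by omega) OT (fun p => T p ∩ OT)
    (fun p => univ.filter (fun v => σ v ∈ H p) ∩ OT)
    (fun u => univ.filter (fun v => (u, σ v) ∈ S) ∩ OT)
    (fun w => univ.filter (fun v => (v, w) ∈ S) ∩ OT) (by
      have h1 := hint univ
      rw [univ_inter, card_univ, Fintype.card_fin] at h1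
      linarith) (fun p => by
      have h1 := hint (T p)
      rw [hR.sT p] at h1
      linarith) (fun p => by
      have h1 := hint (univ.filter (fun v => σ v ∈ H p))
      have e3 : (univ.filter (fun v => σ v ∈ H p)).card = s := by
        rw [← hR.sH p]
        refine card_bij (fun v _ => σ v) (fun v hv => (mem_filter.1 hv).2)
          (fun v _ w _ hvw => σ.injective hvw) fun w hw => ?_
        exact ⟨σ.symm w, mem_filter.2 ⟨mem_univ _, by rwa [σ.apply_symm_apply]⟩,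
          σ.apply_symm_apply w⟩
      rw [e3] at h1
      linarith) (fun u => by
      have h1 := hint (univ.filter (fun v => (u, σ v) ∈ S))
      have e3 : (univ.filter (fun v => (u, σ v) ∈ S)).card = od S u := by
        unfold od
        refine card_bij (fun v _ => (u, σ v)) (fun v hv => mem_filter.2 ⟨(mem_filter.1 hv).2, rfl⟩)
          (fun v _ w _ hvw => σ.injective (Prod.ext_iff.1 hvw).2) fun e he => ?_
        rw [mem_filter] at he
        refine ⟨σ.symm e.2, mem_filter.2 ⟨mem_univ _, ?_⟩, ?_⟩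
        · rw [σ.apply_symm_apply, ← he.2]
          exact he.1
        · rw [σ.apply_symm_apply, ← he.2]
      rw [e3] at h1
      have h2 := hod u
      linarith) (fun w => by
      have h1 := hint (univ.filter (fun v => (v, w) ∈ S))
      have e3 : (univ.filter (fun v => (v, w) ∈ S)).card = idg S w := by
        unfold idg
        refine card_bij (fun v _ => (v, w)) (fun v hv => mem_filter.2 ⟨(mem_filter.1 hv).2, rfl⟩)
          (fun v _ v' _ hvw => (Prod.ext_iff.1 hvw).1) fun e he => ?_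
        rw [mem_filter] at he
        refine ⟨e.1, mem_filter.2 ⟨mem_univ _, ?_⟩, ?_⟩
        · rw [← he.2]
          exact he.1
        · rw [← he.2]
      rw [e3] at h1
      have h2 := hid w
      linarith)
  have hβs : 0 < β1 * s := mul_pos hβ0 hs0
  have hh1 : 1 ≤ ⌈β1 * s⌉₊ := Nat.one_le_ceil_iff.2 hβs
  have hh2 : (⌈β1 * s⌉₊ : ℝ) < β1 * s + 1 := Nat.ceil_lt_add_one hβs.le
  have hQh : (Q : ℝ) * ⌈β1 * s⌉₊ ≤ η * s := by
    have h1 := mul_le_mul_of_nonneg_left hh2.le (by linarith : (0 : ℝ) ≤ Q)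
    have h2 := mul_le_mul_of_nonneg_right hβ hs0.le
    rw [hη]
    linarith
  rw [← hη] at hR
  exact rmt_main hNPM hExt hR hη0 hε8 (by linarith) hθ1 hd σ OT U' hOT hc hgs hgn (by omega)
    ⌈β1 * s⌉₊ (Nat.le_ceil _) hh1 hQh hod hid u0 u1 u2 u3 u4

end Pool.Agent.MPd266dbH
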