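import Pool.Agent.Lib.MP_d266db_co.H.SpecM

/-!
# MP_d266db_co, H: few saturated clusters
-/

set_option autoImplicit false

namespace Pool.Agent.MPd266dbH

open Finset Pool.Agent.MPd266db

theorem tSat : S_Sat := by
  classical
  intro n K k S o i cl X Y Γ h x y d c ν hX hν hνc hy ρ Q hst hQ
  have hy' : (0 : ℝ) < y := by exact_mod_cast hy
  have hk0 : (0 : ℝ) ≤ k := Nat.cast_nonneg k
  set N : Finset (Fin k) := univ.filter (fun p => ¬ 4 * (X p ∩ Q).card ≤ y) with hN
  have memN : ∀ p, p ∉ N ↔ 4 * (X p ∩ Q).card ≤ y := by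
    intro p
    rw [hN, mem_filter, not_and, not_not]
    exact ⟨fun h => h (mem_univ _), fun h _ => h⟩
  -- the number of saturated clusters
  have hNc : (N.card : ℝ) ≤ ν / 2 * k := by
    have h1 : N.card * y ≤ 4 * Q.card := by
      have h2 : N.card * y ≤ ∑ p ∈ N, 4 * (X p ∩ Q).card := by
        rw [← smul_eq_mul]
        refine card_nsmul_le_sum _ _ _ fun p hp => ?_
        by_contra hlt
        exact (memN p).2 (by omega) hp
      refine h2.trans ?_
      rw [← mul_sum]
      refine Nat.mul_le_mul_left _ ?_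
      rw [← card_biUnion]
      · refine card_le_card ?_
        intro v hv
        obtain ⟨p, _, hp⟩ := mem_biUnion.1 hv
        exact (mem_inter.1 hp).2
      · intro p _ p' _ hpp
        exact (hX.dX p p' hpp).mono inter_subset_left inter_subset_left
    have h3 : (N.card : ℝ) * y ≤ 4 * Q.card := by exact_mod_cast h1
    have h4 : (N.card : ℝ) * y ≤ ν / 2 * k * y := by nlinarith
    exact le_of_mul_le_mul_right h4 hy'
  have hP : ∀ P : Finset (Fin k), 2 * c * k ≤ P.card → c * k ≤ (P \ N).card := by
    intro P hP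
    have h1 : P.card ≤ (P \ N).card + N.card := by
      have h3 : (P \ N).card + (P ∩ N).card = P.card := card_sdiff_add_card_inter _ _
      have h4 : (P ∩ N).card ≤ N.card := card_le_card inter_subset_right
      omega
    have h2 : (P.card : ℝ) ≤ (P \ N).card + N.card := by exact_mod_cast h1
    nlinarith
  refine ⟨N, memN, ?_, ?_, ?_⟩
  · intro u
    obtain ⟨P, h1, h2⟩ := hX.domO u
    refine ⟨P \ N, ?_, hP P h2, ?_⟩
    · intro p hp
      rw [mem_sdiff] at hp ⊢
      exact ⟨mem_filter.2 ⟨mem_univ _, (h1 p hp.1).1⟩, hp.2⟩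
    · intro p hp
      rw [mem_sdiff] at hp
      have h3 := (h1 p hp.1).2
      have h4 := (memN p).1 hp.2
      -- the image of `X p \ Q`
      have h5 : ((X p \ Q).image ρ) ⊆ Y p := by
        intro w hw
        obtain ⟨v, hv, rfl⟩ := mem_image.1 hw
        exact hst p v (mem_sdiff.1 hv).1 (mem_sdiff.1 hv).2
      have h6 : ((X p \ Q).image ρ).card = (X p \ Q).card :=
        card_image_of_injective _ ρ.injective
      have h7 : (Y p).filter (fun w => (u, w) ∈ S) ⊆
          (((X p \ Q).filter (fun v => (u, ρ v) ∈ S)).image ρ) ∪ (Y p \ (X p \ Q).image ρ) := by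
        intro w hw
        rw [mem_filter] at hw
        rw [mem_union]
        by_cases hwi : w ∈ (X p \ Q).image ρ
        · left
          obtain ⟨v, hv, rfl⟩ := mem_image.1 hwi
          exact mem_image_of_mem _ (mem_filter.2 ⟨hv, hw.2⟩)
        · right
          exact mem_sdiff.2 ⟨hw.1, hwi⟩
      have h8 := (card_le_card h7).trans (card_union_le _ _)
      have h9 : (((X p \ Q).filter (fun v => (u, ρ v) ∈ S)).image ρ).card =
        ((X p \ Q).filter (fun v => (u, ρ v) ∈ S)).card := card_image_of_injective _ ρ.injective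
      have h10 : (Y p \ (X p \ Q).image ρ).card = (Y p).card - (X p \ Q).card := by
        rw [card_sdiff_of_subset h5, h6]
      have h11 : (X p \ Q).card + (X p ∩ Q).card = (X p).card := card_sdiff_add_card_inter _ _
      have h12 := (hX.sz p).1
      omega
  · intro w
    obtain ⟨P, h1, h2⟩ := hX.domI w
    refine ⟨P \ N, ?_, hP P h2, ?_⟩
    · intro p hp
      rw [mem_sdiff] at hp ⊢
      exact ⟨mem_filter.2 ⟨mem_univ _, (h1 p hp.1).1⟩, hp.2⟩
    · intro p hp
      rw [mem_sdiff] at hp
      have h3 := (h1 p hp.1).2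
      have h4 := (memN p).1 hp.2
      have h7 : (X p).filter (fun v => (v, w) ∈ S) ⊆
          ((X p \ Q).filter (fun v => (v, w) ∈ S)) ∪ (X p ∩ Q) := by
        intro v hv
        rw [mem_filter] at hv
        rw [mem_union, mem_filter, mem_sdiff, mem_inter]
        by_cases hvQ : v ∈ Q
        · exact Or.inr ⟨hv.1, hvQ⟩
        · exact Or.inl ⟨⟨hv.1, hvQ⟩, hv.2⟩
      have h8 := (card_le_card h7).trans (card_union_le _ _)
      omega
  · intro a B hB h1 h2
    obtain ⟨W, hW, hΓ, hWc⟩ := hX.exp a B (hB.trans sdiff_subset) h1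
      (h2.trans (by exact_mod_cast card_le_card (sdiff_subset_sdiff sdiff_subset subset_rfl)))
    refine ⟨W.filter (fun w => w.2 ∉ N), ?_, ?_, ?_⟩
    · intro w hw
      rw [mem_filter] at hw
      have h3 := mem_product.1 (hW hw.1)
      rw [mem_sdiff] at h3
      rw [mem_product, mem_sdiff, mem_sdiff]
      exact ⟨h3.1, ⟨h3.2.1, hw.2⟩, h3.2.2⟩
    · exact fun w hw => hΓ w (mem_filter.1 hw).1
    · have h3 : W.card = (W.filter (fun w => w.2 ∈ N)).card + (W.filter (fun w => w.2 ∉ N)).card :=
        (card_filter_add_card_filter_not _).symm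
      have h4 : (W.filter (fun w => w.2 ∈ N)).card ≤ k * N.card := by
        have : W.filter (fun w => w.2 ∈ N) ⊆ (univ : Finset (Fin k)) ×ˢ N := by
          intro w hw
          exact mem_product.2 ⟨mem_univ _, (mem_filter.1 hw).2⟩
        have := card_le_card this
        rwa [card_product, card_univ, Fintype.card_fin] at this
      have h5 : ((W.filter (fun w => w.2 ∈ N)).card : ℝ) ≤ k * N.card := by exact_mod_cast h4
      have h6 : (W.card : ℝ) = (W.filter (fun w => w.2 ∈ N)).card +
        (W.filter (fun w => w.2 ∉ N)).card := by exact_mod_cast h3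
      have h7 : (k : ℝ) * N.card ≤ k * (ν / 2 * k) := mul_le_mul_of_nonneg_left hNc hk0
      nlinarith

end Pool.Agent.MPd266dbH
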