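import Pool.Agent.Lib.MP_d266db_co.H.SpecP

/-!
# MP_d266db_co, H, Spl: a transposition splits a cycle (helper86)
-/

set_option autoImplicit false

namespace Pool.Agent.MPd266dbH

open Finset Pool.Agent.MPd266db

theorem tSpl : S_Mer → S_Spl := by
  classical
  intro hMer n σ x y hxy hs
  have hns : ¬ (σ * Equiv.swap x y).SameCycle x y := by
    have hex : ∃ i : ℕ, (σ ^ i) x = y := hs.exists_nat_pow_eq
    have hm := Nat.find_spec hex
    have hmin : ∀ s < Nat.find hex, (σ ^ s) x ≠ y := fun s hs => Nat.find_min hex hs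
    set m := Nat.find hex with hmdef
    have hm0 : m ≠ 0 := by
      intro h0
      rw [h0] at hm
      exact hxy hm
    have hxB : ∀ i : ℕ, 1 ≤ i → i ≤ m → (σ ^ i) x ≠ x := by
      intro i h1 h2 h
      have h3 : i ≠ m := by
        intro h'
        rw [h', hm] at h
        exact hxy h.symm
      apply hmin (m - i) (by omega)
      have h4 : (σ ^ m) x = (σ ^ (m - i)) ((σ ^ i) x) := by
        rw [← Equiv.Perm.mul_apply, ← pow_add, Nat.sub_add_cancel h2]
      rw [h, hm] at h4
      exact h4.symm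
    have hstep : ∀ s : ℕ, ∃ i : ℕ, 1 ≤ i ∧ i ≤ m ∧
        ((σ * Equiv.swap x y) ^ s) y = (σ ^ i) x := by
      intro s
      induction s with
      | zero => exact ⟨m, by omega, le_rfl, by rw [hm]; rfl⟩
      | succ s ih =>
        obtain ⟨i, h1, h2, h3⟩ := ih
        rw [pow_succ', Equiv.Perm.mul_apply, h3]
        by_cases him : i = m
        · refine ⟨1, le_rfl, by omega, ?_⟩
          rw [him, hm, Equiv.Perm.mul_apply, Equiv.swap_apply_right, pow_one]
        · refine ⟨i + 1, by omega, by omega, ?_⟩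
          rw [Equiv.Perm.mul_apply, Equiv.swap_apply_of_ne_of_ne (hxB i h1 h2)
            (hmin i (by omega)), ← Equiv.Perm.mul_apply, ← pow_succ']
    intro h
    obtain ⟨s, hs⟩ := h.symm.exists_nat_pow_eq
    obtain ⟨i, h1, h2, h3⟩ := hstep s
    rw [hs] at h3
    exact hxB i h1 h2 h3.symm
  refine ⟨?_, hns⟩
  have h1 := (hMer n (σ * Equiv.swap x y) x y hns).1
  rw [mul_assoc, Equiv.swap_mul_self, mul_one] at h1
  exact h1.symm

end Pool.Agent.MPd266dbH
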