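import Pool.Agent.Lib.MP_d266db_co.H.SpecP

/-!
# MP_d266db_co, H: switching along a closed walk
-/

set_option autoImplicit false

namespace Pool.Agent.MPd266dbH

theorem tSw : S_Sw := by
  intro n ρ m
  induction m with
  | zero =>
    intro x _
    exact ⟨ρ, fun i hi => absurd hi (Nat.not_lt_zero i), rfl, fun v _ => rfl⟩
  | succ m ih =>
    intro x hx
    obtain ⟨ρ1, h1, h2, h3⟩ := ih x (fun i hi j hj hij => hx i (by omega) j (by omega) hij)
    refine ⟨ρ1 * Equiv.swap (x m) (x (m + 1)), ?_, ?_, ?_⟩
    · intro i hi
      rw [Equiv.Perm.mul_apply]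
      rcases Nat.lt_or_ge i m with h | h
      · rw [Equiv.swap_apply_of_ne_of_ne (hx i (by omega) m (by omega) (by omega))
          (hx i (by omega) (m + 1) (by omega) (by omega)), h1 i h]
      · have him : i = m := by omega
        rw [him, Equiv.swap_apply_left]
        exact h3 _ (fun j hj => hx (m + 1) (by omega) j (by omega) (by omega))
    · rw [Equiv.Perm.mul_apply, Equiv.swap_apply_right, h2]
    · intro v hv
      rw [Equiv.Perm.mul_apply, Equiv.swap_apply_of_ne_of_ne (hv m (by omega))
        (hv (m + 1) (by omega))]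
      exact h3 v (fun i hi => hv i (by omega))

end Pool.Agent.MPd266dbH
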