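import Pool.Agent.Lib.MP_d266db_co.H.SpecR

/-!
# MP_d266db_co, H, Sys: the system of matched clusters
-/

set_option autoImplicit false

namespace Pool.Agent.MPd266dbH

open Finset Pool.Agent.MPd266db

theorem tSys (hClu : S_Clu) (hMat : S_Mat) (hExpR : S_ExpR) : S_Sys := by
  classical
  intro K0 θ ν τ hK0 hθ hθ1 hν hτ hτ2
  set τ1 : ℝ := min (θ * τ / 7) (min (θ / 14) (θ * ν / 33)) with hτ1
  have h1 : τ1 ≤ θ * τ / 7 := min_le_left _ _
  have h2 : τ1 ≤ θ / 14 := (min_le_right _ _).trans (min_le_left _ _)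
  have h3 : τ1 ≤ θ * ν / 33 := (min_le_right _ _).trans (min_le_right _ _)
  have h0 : 0 < τ1 := by
    refine lt_min (by positivity) (lt_min (by positivity) (by positivity))
  have h11 : τ1 ≤ 1 := by linarith
  obtain ⟨d, hd, hd1, hClu'⟩ := hClu K0 τ1 hK0 h0 h11
  refine ⟨d, hd, hd1, ?_⟩
  intro β1 hβ hβ1
  obtain ⟨kmax, n0, hC0⟩ := hClu' β1 hβ hβ1
  refine ⟨τ1, kmax, n0, h0, ?_⟩
  intro n hn K S o i ρ hK hM
  obtain ⟨s, kt, kh, T, H, ct, ch, D, hn1, hs1, hnk, hC⟩ := hC0 n hn K S o i hK hM.own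
  have hn0 : (0 : ℝ) < n := by exact_mod_cast hn1
  have hs0 : (0 : ℝ) < s := by exact_mod_cast hs1
  have hρ0 : 0 ≤ ρ := le_trans (by positivity) hM.rge
  obtain ⟨k, f, g, hf, hg, hfg, hk⟩ := hMat n K kt kh s S o i T H ct ch D β1 d τ1 θ ρ hC hn1 hs1
    h0 hθ hθ1 hM.rge hM.rle hM.nr
  have h7 : 7 * τ1 / θ ≤ τ := by
    rw [div_le_iff₀ hθ]; linarith
  have h8 : 7 * τ1 / θ + 4 * τ1 ≤ ν / 3 := by
    have e1 : τ1 ≤ τ1 / θ := by
      rw [le_div_iff₀ hθ]; nlinarith
    have e2 : τ1 / θ ≤ ν / 33 := by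
      rw [div_le_iff₀ hθ]; linarith
    have e3 : 7 * τ1 / θ = 7 * (τ1 / θ) := by ring
    rw [e3]; linarith
  have hcov : (1 - τ) * n ≤ k * (s : ℝ) := by
    refine le_trans ?_ hk
    exact mul_le_mul_of_nonneg_right (by linarith) hn0.le
  have hcard : (univ.biUnion (fun p : Fin k => T (f p))).card = k * s := by
    rw [card_biUnion (fun p _ p' _ h => hC.dT _ _ (fun h' => h (hf h'))),
      sum_congr rfl (fun p _ => hC.sT (f p)), sum_const, smul_eq_mul, card_univ, Fintype.card_fin]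
  have hks : k * s ≤ n := by
    rw [← hcard]
    simpa using card_le_univ (univ.biUnion (fun p : Fin k => T (f p)))
  have hkmax : k ≤ kmax := by
    have h9 : k * s ≤ kmax * s := hks.trans hnk
    exact Nat.le_of_mul_le_mul_right h9 hs1
  have hk1 : 1 ≤ k := by
    rcases Nat.eq_zero_or_pos k with h9 | h9
    · exfalso
      rw [h9] at hcov
      have h10 : 0 < (1 - τ) * n := mul_pos (by linarith) hn0
      simp at hcov
      linarith
    · exact h9
  refine ⟨s, k, fun p => ct (f p), fun p => T (f p), fun p => H (g p),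
    fun p p' => (f p, g p') ∈ D, hs1, hk1, hkmax, hnk, ?_⟩
  refine ⟨fun p => hC.sT _, fun p => hC.sH _, fun p p' h => hC.dT _ _ (fun h' => h (hf h')),
    fun p p' h => hC.dH _ _ (fun h' => h (hg h')), fun p v hv => hC.oT _ v hv, ?_, hfg, ?_, ?_,
    ?_, hcov⟩
  · intro p w hw
    rw [hC.iH _ w hw]
    exact (hC.cls _ (hfg p)).symm
  · intro p p' h
    have e1 := hC.cls _ h
    have e2 := hC.cls _ (hfg p')
    exact e1.trans e2.symm
  · intro p p' h A B hA hB h9 h10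
    exact hC.den _ h A B hA hB h9 h10
  · intro a B hB h9 h10
    exact hExpR n K kt kh s k S o i T H ct ch D β1 d τ1 θ ρ ν f g hC hM.own hn1 hs1 h0 hθ hθ1 hρ0
      hM.rle hM.nr hM.rob hf hg hfg hk (by linarith) h8 a B hB h9 h10

end Pool.Agent.MPd266dbH
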