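import Pool.Agent.Lib.MP_d266db_co.H.SpecR

/-!
# MP_d266db_co, H: the regularity lemma for digraphs
-/

set_option autoImplicit false

namespace Pool.Agent.MPd266dbH

open Finset Pool.Agent.MPd266db

/-- the bipartite graph of a digraph -/
def szr_G {n : ℕ} (S : Finset (Fin n × Fin n)) : SimpleGraph (Fin n ⊕ Fin n) where
  Adj a b := (∃ u x, a = Sum.inl u ∧ b = Sum.inr x ∧ (u, x) ∈ S) ∨
    ∃ u x, b = Sum.inl u ∧ a = Sum.inr x ∧ (u, x) ∈ S
  symm := ⟨fun _ _ h => Or.symm h⟩
  loopless := ⟨fun a h => by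
    rcases h with ⟨u, x, h1, h2, -⟩ | ⟨u, x, h1, h2, -⟩
    · rw [h1] at h2
      exact absurd h2 (by simp)
    · rw [h1] at h2
      exact absurd h2 (by simp)⟩

theorem szr_adj {n : ℕ} {S : Finset (Fin n × Fin n)} {u x : Fin n} :
    (szr_G S).Adj (Sum.inl u) (Sum.inr x) ↔ (u, x) ∈ S := by
  constructor
  · rintro (⟨u', x', h1, h2, h3⟩ | ⟨u', x', h1, h2, h3⟩)
    · obtain rfl := Sum.inl_injective h1
      obtain rfl := Sum.inr_injective h2
      exact h3
    · exact absurd h1 (by simp)
  · intro h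
    exact Or.inl ⟨u, x, rfl, rfl, h⟩

theorem szr_inter {n : ℕ} (S : Finset (Fin n × Fin n)) [DecidableRel (szr_G S).Adj]
    (A B : Finset (Fin n)) :
    ((szr_G S).interedges (A.map Function.Embedding.inl) (B.map Function.Embedding.inr)).card =
      eb S A B := by
  classical
  unfold eb
  symm
  apply Finset.card_bij (fun e _ => (Sum.inl e.1, Sum.inr e.2))
  · intro e he
    rw [mem_filter] at he
    rw [SimpleGraph.mem_interedges_iff]
    exact ⟨mem_map_of_mem Function.Embedding.inl he.2.1,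
      mem_map_of_mem Function.Embedding.inr he.2.2, szr_adj.2 he.1⟩
  · intro e _ e' _ h
    rw [Prod.mk.injEq] at h
    exact Prod.ext (Sum.inl_injective h.1) (Sum.inr_injective h.2)
  · rintro ⟨a, b⟩ h
    rw [SimpleGraph.mem_interedges_iff] at h
    obtain ⟨h1, h2, h3⟩ := h
    rw [mem_map] at h1 h2
    obtain ⟨u, hu, rfl⟩ := h1
    obtain ⟨x, hx, rfl⟩ := h2
    exact ⟨(u, x), by
      rw [mem_filter]
      exact ⟨szr_adj.1 h3, hu, hx⟩, rfl⟩

theorem tSzr : S_Szr := by
  classical
  intro ε l hε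
  obtain ⟨ε', hε'⟩ : ∃ ε' : ℝ, ε' = min ε 1 := ⟨_, rfl⟩
  have he0 : 0 < ε' := by
    rw [hε']
    exact lt_min hε one_pos
  have he1 : ε' ≤ ε := by
    rw [hε']
    exact min_le_left _ _
  refine ⟨SzemerediRegularity.bound ε' l, max l (SzemerediRegularity.bound ε' l), ?_⟩
  intro n hn S
  have hln : l ≤ n := (le_max_left _ _).trans hn
  have hbn : SzemerediRegularity.bound ε' l ≤ n := (le_max_right _ _).trans hn
  have hcard : Fintype.card (Fin n ⊕ Fin n) = 2 * n := by
    rw [Fintype.card_sum, Fintype.card_fin, two_mul]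
  obtain ⟨P, hP1, hP2, hP3, hP4⟩ := szemeredi_regularity (szr_G S) he0
    (l := l) (by rw [hcard]; omega)
  obtain ⟨M, hM⟩ : ∃ M, M = P.parts.card := ⟨_, rfl⟩
  have e : P.parts ≃ Fin M := by
    rw [hM]
    exact P.parts.equivFin
  obtain ⟨Q, hQ⟩ : ∃ Q : Fin M → Finset (Fin n ⊕ Fin n), ∀ j, Q j = (e.symm j).1 := ⟨_, fun _ => rfl⟩
  have hQm : ∀ j, Q j ∈ P.parts := fun j => by
    rw [hQ]
    exact (e.symm j).2
  have hQi : Function.Injective Q := by
    intro j j' h
    rw [hQ, hQ] at h
    exact e.symm.injective (Subtype.ext h)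
  obtain ⟨pp, hpp⟩ : ∃ pp : Fin n ⊕ Fin n → Fin M, ∀ a j, pp a = j ↔ a ∈ Q j := by
    refine ⟨fun a => e ⟨P.part a, P.part_mem.2 (mem_univ a)⟩, fun a j => ?_⟩
    constructor
    · rintro rfl
      rw [hQ, Equiv.symm_apply_apply]
      exact P.mem_part (mem_univ a)
    · intro h
      rw [← e.symm.injective.eq_iff, Equiv.symm_apply_apply]
      apply Subtype.ext
      rw [← hQ]
      exact P.part_eq_of_mem (hQm j) h
  have hmt : ∀ j, (Cl (fun v => pp (Sum.inl v)) j).map Function.Embedding.inl ⊆ Q j := by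
    intro j a ha
    rw [mem_map] at ha
    obtain ⟨v, hv, rfl⟩ := ha
    unfold Cl at hv
    rw [mem_filter] at hv
    exact (hpp _ _).1 hv.2
  have hmh : ∀ j, (Cl (fun v => pp (Sum.inr v)) j).map Function.Embedding.inr ⊆ Q j := by
    intro j a ha
    rw [mem_map] at ha
    obtain ⟨v, hv, rfl⟩ := ha
    unfold Cl at hv
    rw [mem_filter] at hv
    exact (hpp _ _).1 hv.2
  have hQc : ∀ j, (Cl (fun v => pp (Sum.inl v)) j).card + (Cl (fun v => pp (Sum.inr v)) j).card =
      (Q j).card := by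
    intro j
    rw [← Finset.card_disjSum]
    congr 1
    ext a
    rcases a with v | v
    · rw [Finset.inl_mem_disjSum]
      unfold Cl
      rw [mem_filter]
      exact ⟨fun h => (hpp _ _).1 h.2, fun h => ⟨mem_univ _, (hpp _ _).2 h⟩⟩
    · rw [Finset.inr_mem_disjSum]
      unfold Cl
      rw [mem_filter]
      exact ⟨fun h => (hpp _ _).1 h.2, fun h => ⟨mem_univ _, (hpp _ _).2 h⟩⟩
  have hMQ : ∀ j, M * (Q j).card ≤ 3 * n := by
    intro j
    have h1 := hP1.card_part_le_average_add_one (hQm j)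
    rw [card_univ, hcard, ← hM] at h1
    have h2 : M * (2 * n / M) ≤ 2 * n := Nat.mul_div_le _ _
    have h3 : M * (Q j).card ≤ M * (2 * n / M + 1) := Nat.mul_le_mul_left _ h1
    rw [Nat.mul_add, Nat.mul_one] at h3
    have h4 : M ≤ n := by
      rw [hM]
      exact hP3.trans hbn
    omega
  obtain ⟨Bd, hBd⟩ : ∃ Bd : Finset (Fin M × Fin M), Bd = univ.filter
      (fun p => p.1 = p.2 ∨ ¬ (szr_G S).IsUniform ε' (Q p.1) (Q p.2)) := ⟨_, rfl⟩
  refine ⟨M, fun v => pp (Sum.inl v), fun v => pp (Sum.inr v), Bd,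
    fun j j' => (((szr_G S).edgeDensity (Q j) (Q j') : ℚ) : ℝ), ?_, ?_, ?_, ?_, ?_⟩
  · rw [hM]
    exact hP2
  · rw [hM]
    exact hP3
  · intro j
    rw [hQc]
    exact hMQ j
  · -- the number of bad pairs
    have h1 : Bd ⊆ (univ.image fun j : Fin M => (j, j)) ∪
        univ.filter (fun p : Fin M × Fin M => (Q p.1, Q p.2) ∈ P.nonUniforms (szr_G S) ε') := by
      rintro ⟨j, j'⟩ h
      rw [hBd, mem_filter] at h
      rw [mem_union]
      by_cases hj : j = j'
      · left
        rw [hj]
        exact mem_image_of_mem _ (mem_univ _)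
      · right
        rw [mem_filter, Finpartition.mk_mem_nonUniforms]
        exact ⟨mem_univ _, hQm _, hQm _, fun h2 => hj (hQi h2), h.2.resolve_left hj⟩
    have h2 : (univ.filter (fun p : Fin M × Fin M =>
        (Q p.1, Q p.2) ∈ P.nonUniforms (szr_G S) ε')).card ≤ (P.nonUniforms (szr_G S) ε').card := by
      apply Finset.card_le_card_of_injOn (fun p : Fin M × Fin M => (Q p.1, Q p.2))
      · intro p hp
        exact (mem_filter.1 (mem_coe.1 hp)).2
      · intro p _ q _ h
        rw [Prod.mk.injEq] at h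
        exact Prod.ext (hQi h.1) (hQi h.2)
    have h3 : (univ.image fun j : Fin M => (j, j)).card ≤ M := by
      refine card_image_le.trans ?_
      rw [card_univ, Fintype.card_fin]
    have h4 : Bd.card ≤ M + (P.nonUniforms (szr_G S) ε').card :=
      (card_le_card h1).trans ((card_union_le _ _).trans (Nat.add_le_add h3 h2))
    have h5 : (Bd.card : ℝ) ≤ M + (P.nonUniforms (szr_G S) ε').card := by exact_mod_cast h4
    have h6 : ((P.nonUniforms (szr_G S) ε').card : ℝ) ≤ (M * (M - 1) : ℕ) * ε' := by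
      rw [hM]
      exact hP4
    have h7 : ((M * (M - 1) : ℕ) : ℝ) ≤ (M : ℝ) ^ 2 := by
      rw [sq]
      exact_mod_cast Nat.mul_le_mul_left M (Nat.sub_le M 1)
    have h8 : ((M * (M - 1) : ℕ) : ℝ) * ε' ≤ (M : ℝ) ^ 2 * ε :=
      mul_le_mul h7 he1 he0.le (by positivity)
    linarith
  · intro j j' hj
    have hM0 : (0 : ℝ) < (M : ℝ) := by
      have : 0 < M := lt_of_le_of_lt (Nat.zero_le _) j.isLt
      exact_mod_cast this
    have hun : (szr_G S).IsUniform ε' (Q j) (Q j') := by
      by_contra h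
      apply hj
      rw [hBd, mem_filter]
      exact ⟨mem_univ _, Or.inr h⟩
    have hQr : ∀ j, (M : ℝ) * ((Q j).card : ℝ) ≤ 3 * n := by
      intro j
      exact_mod_cast hMQ j
    have hδ : (((szr_G S).edgeDensity (Q j) (Q j') : ℚ) : ℝ) * ((Q j).card * (Q j').card) =
        (((szr_G S).interedges (Q j) (Q j')).card : ℝ) := by
      rw [SimpleGraph.edgeDensity_def]
      push_cast
      have h1 : ((Q j).card : ℝ) ≠ 0 := by
        have := P.nonempty_of_mem_parts (hQm j)
        exact_mod_cast (card_pos.2 this).ne'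
      have h2 : ((Q j').card : ℝ) ≠ 0 := by
        have := P.nonempty_of_mem_parts (hQm j')
        exact_mod_cast (card_pos.2 this).ne'
      rw [div_mul_cancel₀]
      exact mul_ne_zero h1 h2
    have hδ0 : 0 ≤ (((szr_G S).edgeDensity (Q j) (Q j') : ℚ) : ℝ) := by
      exact_mod_cast (szr_G S).edgeDensity_nonneg (Q j) (Q j')
    refine ⟨?_, ?_⟩
    · have h1 : eb S (Cl (fun v => pp (Sum.inl v)) j) (Cl (fun v => pp (Sum.inr v)) j') ≤
          ((szr_G S).interedges (Q j) (Q j')).card := by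
        rw [← szr_inter]
        exact card_le_card (SimpleGraph.interedges_mono (szr_G S) (hmt j) (hmh j'))
      have h2 : (eb S (Cl (fun v => pp (Sum.inl v)) j) (Cl (fun v => pp (Sum.inr v)) j') : ℝ) ≤
          (((szr_G S).edgeDensity (Q j) (Q j') : ℚ) : ℝ) * ((Q j).card * (Q j').card) := by
        rw [hδ]
        exact_mod_cast h1
      have h3 : ((M : ℝ) * (Q j).card) * ((M : ℝ) * (Q j').card) ≤ (3 * n) ^ 2 := by
        rw [sq]
        exact mul_le_mul (hQr j) (hQr j') (by positivity) (by positivity)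
      have h4 := mul_le_mul_of_nonneg_left h3 hδ0
      have h5 := mul_le_mul_of_nonneg_right h2 (by positivity : (0 : ℝ) ≤ (M : ℝ) ^ 2)
      refine h5.trans (le_trans (le_of_eq ?_) h4)
      ring
    · intro A B hA hB hA1 hB1
      have key : ∀ (j : Fin M) (C : ℝ), ε * (3 * n) ≤ M * C → ((Q j).card : ℝ) * ε' ≤ C := by
        intro j C hC
        have h1 : (M : ℝ) * (((Q j).card : ℝ) * ε') ≤ M * C := by
          refine le_trans ?_ hC
          have h2 : (M : ℝ) * ((Q j).card : ℝ) * ε' ≤ (3 * n) * ε :=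
            mul_le_mul (hQr j) he1 he0.le (by positivity)
          linarith
        exact le_of_mul_le_mul_left h1 hM0
      have hA2 := key j (A.card : ℝ) hA1
      have hB2 := key j' (B.card : ℝ) hB1
      have h1 := hun (s' := A.map Function.Embedding.inl)
        ((map_subset_map.2 hA).trans (hmt j)) (t' := B.map Function.Embedding.inr)
        ((map_subset_map.2 hB).trans (hmh j')) (by rw [card_map]; exact hA2)
        (by rw [card_map]; exact hB2)
      rw [SimpleGraph.edgeDensity_def, szr_inter, card_map, card_map] at h1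
      push_cast at h1
      rcases Nat.eq_zero_or_pos A.card with hA0 | hA0
      · have h2 := eb_le_card_mul S A B
        rw [hA0, zero_mul] at h2
        have h3 : eb S A B = 0 := by omega
        rw [h3, hA0]
        simp
      rcases Nat.eq_zero_or_pos B.card with hB0 | hB0
      · have h2 := eb_le_card_mul S A B
        rw [hB0, mul_zero] at h2
        have h3 : eb S A B = 0 := by omega
        rw [h3, hB0]
        simp
      have hpos : (0 : ℝ) < (A.card : ℝ) * B.card := by
        have h2 : (0 : ℝ) < (A.card : ℝ) := by exact_mod_cast hA0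
        have h3 : (0 : ℝ) < (B.card : ℝ) := by exact_mod_cast hB0
        positivity
      have h2 : (eb S A B : ℝ) - (((szr_G S).edgeDensity (Q j) (Q j') : ℚ) : ℝ) *
          (A.card * B.card) = ((eb S A B : ℝ) / (A.card * B.card) -
            (((szr_G S).edgeDensity (Q j) (Q j') : ℚ) : ℝ)) * (A.card * B.card) := by
        rw [sub_mul, div_mul_cancel₀ _ hpos.ne']
      rw [h2, abs_mul, abs_of_pos hpos]
      exact mul_le_mul_of_nonneg_right (h1.le.trans he1) hpos.le

end Pool.Agent.MPd266dbH
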