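import Pool.Agent.Lib.MP_d266db_co.H.SpecF

/-!
# MP_d266db_co, H/Thm: almost all of a cut-dense regular digraph is a union of Hamilton cycles (helper69)
-/

set_option autoImplicit false

namespace Pool.Agent.MPd266dbH

open Finset Pool.Agent.MPd266db

/-- **Theorem: almost all of a regular digraph with dense cuts decomposes into Hamilton cycles.** -/
theorem tThm (hDcp : S_Dcp) (hMrg : S_Mrg) (hItr : S_Itr) : S_Thm := by
  classical
  intro α η ε hα hη hε
  obtain ⟨K0, θ, lam, hK0, hθ, hθ1, hlam, hD⟩ := hDcp (min α 1) η (min ε 1) (lt_min hα one_pos)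
    (min_le_right _ _) hη (lt_min hε one_pos) (min_le_right _ _)
  have hM : ∀ x : ℝ, ∃ (g : ℝ) (n0 : ℕ), 0 < x → (0 < g ∧ ∀ n : ℕ, n0 ≤ n →
      ∀ (K : ℕ) (S : Finset (Fin n × Fin n)) (o i : Fin n → Fin K) (ρ : ℝ)
        (σ : Equiv.Perm (Fin n)), K ≤ K0 → MHyp S o i θ ρ g (θ / 32) (x / 2) → SHyp o i σ g →
        Lin o i lam → MrgOK o i S σ (x / 2)) := by
    intro x
    by_cases hx : 0 < x
    · obtain ⟨g, n0, hg, h⟩ := hMrg K0 θ lam (x / 2) (x / 2) hK0 hθ hθ1 hlam (by positivity)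
        (by positivity)
      exact ⟨g, n0, fun _ => ⟨hg, h⟩⟩
    · exact ⟨0, 0, fun h => absurd h hx⟩
  choose gf nf hgn using hM
  obtain ⟨νs, hνs, n1, hn1⟩ := hD gf (fun x hx => (hgn x hx).1)
  refine ⟨max (max 1 n1) ((range (K0 + 1)).sup fun K => nf (νs K)), ?_⟩
  intro n hn r R hl hR hr hcut
  have hn1' : n1 ≤ n := by
    have := le_max_left (max 1 n1) ((range (K0 + 1)).sup fun K => nf (νs K))
    have := le_max_right 1 n1
    omega
  have hn0 : 1 ≤ n := by
    have := le_max_left (max 1 n1) ((range (K0 + 1)).sup fun K => nf (νs K))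
    have := le_max_left 1 n1
    omega
  have hr' : min α 1 * n ≤ r :=
    (mul_le_mul_of_nonneg_right (min_le_left _ _) (Nat.cast_nonneg n)).trans hr
  obtain ⟨K, o, i, hK, S, ρ, t, σ, hSR, ht, hσR, hσd, hMH, hSH, hLin⟩ := hn1 n hn1' r R hl hR hr' hcut
  have htn : t ≤ n := by
    have hinj : Function.Injective (fun j : Fin t => σ j ⟨0, hn0⟩) := by
      intro j j' h
      by_contra hne
      exact hσd j j' hne _ h
    have := Fintype.card_le_of_injective _ hinj
    simpa using this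
  have hnf : nf (νs K) ≤ n := by
    have h1 : nf (νs K) ≤ (range (K0 + 1)).sup fun K => nf (νs K) :=
      Finset.le_sup (f := fun K => nf (νs K)) (mem_range.2 (by omega))
    have h2 := le_max_right (max 1 n1) ((range (K0 + 1)).sup fun K => nf (νs K))
    omega
  obtain ⟨-, hgn2⟩ := hgn (νs K) (hνs K)
  obtain ⟨τ, hτ1, hτ2, hτ3⟩ := hItr n K t o i S θ ρ (gf (νs K)) (θ / 32) (νs K) (νs K / 2) σ htn
    (by have := hνs K; positivity) (by linarith) hMH (fun j v => (hσR j v).2) hσd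
    (fun S' hS' j => hgn2 n hnf K S' o i ρ (σ j) hK hS' (hSH j) hLin)
  refine ⟨t, τ, ?_, ?_, hτ1, hτ2⟩
  · refine le_trans ?_ ht
    apply mul_le_mul_of_nonneg_right _ (Nat.cast_nonneg r)
    have := min_le_left ε 1
    linarith
  · intro j v
    rcases hτ3 j v with h | ⟨j', h⟩
    · exact hSR h
    · rw [h]
      exact (hσR j' v).1

end Pool.Agent.MPd266dbH
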