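import Pool.Agent.Lib.MP_d266db_co.H.SpecM

/-!
# MP_d266db_co, H: almost all of a cluster is in one cycle
-/

set_option autoImplicit false

namespace Pool.Agent.MPd266dbH

open Finset Pool.Agent.MPd266db

private theorem typ_row {n : ℕ} (R : Fin n → Fin n → Prop) [DecidableRel R] (A B : Finset (Fin n)) :
    ((A ×ˢ B).filter (fun q => R q.1 q.2)).card = ∑ a ∈ A, (B.filter (fun b => R a b)).card := by
  rw [Finset.card_filter, Finset.sum_product]
  simp only [Finset.card_filter]

private theorem typ_col {n : ℕ} (R : Fin n → Fin n → Prop) [DecidableRel R] (A B : Finset (Fin n)) :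
    ((A ×ˢ B).filter (fun q => R q.1 q.2)).card = ∑ b ∈ B, (A.filter (fun a => R a b)).card := by
  rw [Finset.card_filter, Finset.sum_product_right]
  simp only [Finset.card_filter]

/-- few vertices with small degree into `B` -/
private theorem typ_few {n : ℕ} (R : Fin n → Fin n → Prop) [DecidableRel R] (h : ℕ) (d r : ℝ) (hh : 1 ≤ h)
    (A B : Finset (Fin n)) (hA : h ≤ A.card)
    (H : d * A.card * B.card ≤ ((A ×ˢ B).filter (fun q => R q.1 q.2)).card)
    (hr : ∀ a ∈ A, ((B.filter (fun b => R a b)).card : ℝ) < r) : d * B.card < r := by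
  have hA0 : (0 : ℝ) < A.card := by exact_mod_cast (lt_of_lt_of_le (Nat.lt_of_lt_of_le one_pos hh) hA)
  have hne : A.Nonempty := Finset.card_pos.mp (by omega)
  rw [typ_row] at H
  push_cast at H
  have h1 : ∑ a ∈ A, ((B.filter (fun b => R a b)).card : ℝ) < ∑ a ∈ A, r :=
    Finset.sum_lt_sum_of_nonempty hne hr
  rw [Finset.sum_const, nsmul_eq_mul] at h1
  have h2 : (A.card : ℝ) * (d * B.card) < A.card * r := by
    calc (A.card : ℝ) * (d * B.card) = d * A.card * B.card := by ring
      _ ≤ _ := H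
      _ < _ := h1
  exact lt_of_mul_lt_mul_left h2 hA0.le

private theorem typ_few' {n : ℕ} (R : Fin n → Fin n → Prop) [DecidableRel R] (h : ℕ) (d r : ℝ) (hh : 1 ≤ h)
    (A B : Finset (Fin n)) (hA : h ≤ A.card)
    (H : d * B.card * A.card ≤ ((B ×ˢ A).filter (fun q => R q.1 q.2)).card)
    (hr : ∀ a ∈ A, ((B.filter (fun b => R b a)).card : ℝ) < r) : d * B.card < r := by
  have hA0 : (0 : ℝ) < A.card := by exact_mod_cast (lt_of_lt_of_le (Nat.lt_of_lt_of_le one_pos hh) hA)
  have hne : A.Nonempty := Finset.card_pos.mp (by omega)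
  rw [typ_col] at H
  push_cast at H
  have h1 : ∑ a ∈ A, ((B.filter (fun b => R b a)).card : ℝ) < ∑ a ∈ A, r :=
    Finset.sum_lt_sum_of_nonempty hne hr
  rw [Finset.sum_const, nsmul_eq_mul] at h1
  have h2 : (A.card : ℝ) * (d * B.card) < A.card * r := by
    calc (A.card : ℝ) * (d * B.card) = d * B.card * A.card := by ring
      _ ≤ _ := H
      _ < _ := h1
  exact lt_of_mul_lt_mul_left h2 hA0.le

private theorem typ_abs {n : ℕ} (R E : Fin n → Fin n → Prop) [DecidableRel R] [DecidableRel E] (hE : Equivalence E)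
    (X : Finset (Fin n)) (h : ℕ) (d : ℝ) (hd : 0 < d) (hd1 : d ≤ 1) (hh : 1 ≤ h)
    (hM : 16 * (h : ℝ) ≤ d ^ 2 * X.card)
    (H1 : ∀ A ⊆ X, ∀ B ⊆ X, h ≤ A.card → h ≤ B.card →
      d * A.card * B.card ≤ ((A ×ˢ B).filter (fun q => R q.1 q.2)).card)
    (H3 : ∀ u ∈ X, (X.filter (fun w => R u w ∧ ¬ E u w)).card < 8 * h ∨
      (X.filter (fun w => R w u ∧ ¬ E u w)).card < 2 * h) :
    ∃ T ⊆ X, X.card ≤ T.card + 2 * h ∧ ∀ v ∈ T, ∀ w ∈ T, E v w := by
  have hh0 : (1 : ℝ) ≤ h := by exact_mod_cast hh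
  have hM0 : (0 : ℝ) ≤ X.card := Nat.cast_nonneg _
  have hdM : d ^ 2 * X.card ≤ d * X.card := by
    apply mul_le_mul_of_nonneg_right _ hM0
    nlinarith
  have hdM' : d * X.card ≤ X.card := by nlinarith
  have hXh : h ≤ X.card := by
    have : (h : ℝ) ≤ X.card := by linarith
    exact_mod_cast this
  obtain ⟨Ap, hAp⟩ : ∃ A : Finset (Fin n), A = X.filter (fun u =>
    ((X.filter (fun w => R u w)).card : ℝ) < d * X.card) := ⟨_, rfl⟩
  obtain ⟨Am, hAm⟩ : ∃ A : Finset (Fin n), A = X.filter (fun u =>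
    ((X.filter (fun w => R w u)).card : ℝ) < d * X.card) := ⟨_, rfl⟩
  have hApX : Ap ⊆ X := by rw [hAp]; exact Finset.filter_subset _ _
  have hAmX : Am ⊆ X := by rw [hAm]; exact Finset.filter_subset _ _
  have hApc : Ap.card < h := by
    by_contra hc
    have hc : h ≤ Ap.card := not_lt.mp hc
    have h1 := typ_few R h d (d * X.card) hh Ap X hc (H1 Ap hApX X (Finset.Subset.refl _) hc hXh)
      (by
        intro a ha
        rw [hAp] at ha
        exact (Finset.mem_filter.mp ha).2)
    exact lt_irrefl _ h1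
  have hAmc : Am.card < h := by
    by_contra hc
    have hc : h ≤ Am.card := not_lt.mp hc
    have h1 := typ_few' R h d (d * X.card) hh Am X hc (H1 X (Finset.Subset.refl _) Am hAmX hXh hc)
      (by
        intro a ha
        rw [hAm] at ha
        exact (Finset.mem_filter.mp ha).2)
    exact lt_irrefl _ h1
  -- step (4)
  have h4 : ∀ u ∈ X \ (Ap ∪ Am), d * X.card / 2 ≤ ((X.filter (fun w => E u w)).card : ℝ) := by
    intro u hu
    rw [Finset.mem_sdiff, Finset.mem_union, not_or] at hu
    obtain ⟨huX, huA, huB⟩ := hu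
    have hp : d * X.card ≤ ((X.filter (fun w => R u w)).card : ℝ) := by
      by_contra hc
      exact huA (by rw [hAp]; exact Finset.mem_filter.mpr ⟨huX, not_le.mp hc⟩)
    have hm : d * X.card ≤ ((X.filter (fun w => R w u)).card : ℝ) := by
      by_contra hc
      exact huB (by rw [hAm]; exact Finset.mem_filter.mpr ⟨huX, not_le.mp hc⟩)
    rcases H3 u huX with h3 | h3
    · have h5 : (X.filter (fun w => R u w)).card ≤
          (X.filter (fun w => R u w ∧ ¬ E u w)).card + (X.filter (fun w => E u w)).card := by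
        rw [← Finset.card_union_of_disjoint]
        · apply Finset.card_le_card
          intro w hw
          rw [Finset.mem_filter] at hw
          rw [Finset.mem_union, Finset.mem_filter, Finset.mem_filter]
          tauto
        · rw [Finset.disjoint_left]
          intro w hw hw'
          rw [Finset.mem_filter] at hw hw'
          exact hw.2.2 hw'.2
      have h6 : ((X.filter (fun w => R u w)).card : ℝ) ≤ 8 * h + (X.filter (fun w => E u w)).card := by
        exact_mod_cast h5.trans (by omega)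
      linarith
    · have h5 : (X.filter (fun w => R w u)).card ≤
          (X.filter (fun w => R w u ∧ ¬ E u w)).card + (X.filter (fun w => E u w)).card := by
        rw [← Finset.card_union_of_disjoint]
        · apply Finset.card_le_card
          intro w hw
          rw [Finset.mem_filter] at hw
          rw [Finset.mem_union, Finset.mem_filter, Finset.mem_filter]
          tauto
        · rw [Finset.disjoint_left]
          intro w hw hw'
          rw [Finset.mem_filter] at hw hw'
          exact hw.2.2 hw'.2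
      have h6 : ((X.filter (fun w => R w u)).card : ℝ) ≤ 8 * h + (X.filter (fun w => E u w)).card := by
        exact_mod_cast h5.trans (by omega)
      linarith
  refine ⟨X \ (Ap ∪ Am), Finset.sdiff_subset, ?_, ?_⟩
  · have h1 := Finset.card_union_le Ap Am
    have h2 := Finset.card_le_card_sdiff_add_card (s := X) (t := Ap ∪ Am)
    omega
  · intro u hu u' hu'
    by_contra hne
    have hP := h4 u hu
    have hP' := h4 u' hu'
    obtain ⟨P, hPd⟩ : ∃ P, P = X.filter (fun w => E u w) := ⟨_, rfl⟩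
    obtain ⟨P', hPd'⟩ : ∃ P', P' = X.filter (fun w => E u' w) := ⟨_, rfl⟩
    rw [← hPd] at hP
    rw [← hPd'] at hP'
    have hPX : P ⊆ X := by rw [hPd]; exact Finset.filter_subset _ _
    have hPX' : P' ⊆ X := by rw [hPd']; exact Finset.filter_subset _ _
    have hP'h : h ≤ P'.card := by
      have : (h : ℝ) ≤ P'.card := by linarith
      exact_mod_cast this
    have hPh : 8 * h ≤ P.card := by
      have : 8 * (h : ℝ) ≤ P.card := by linarith
      exact_mod_cast this
    have hdP : 8 * (h : ℝ) ≤ d * P'.card := by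
      have h1 : d * (d * X.card / 2) ≤ d * P'.card := mul_le_mul_of_nonneg_left hP' hd.le
      have h2 : d * (d * X.card / 2) = d ^ 2 * X.card / 2 := by ring
      rw [h2] at h1
      linarith
    obtain ⟨A, hA⟩ : ∃ A, A = P.filter (fun w =>
      ((P'.filter (fun z => R w z)).card : ℝ) < 8 * h) := ⟨_, rfl⟩
    obtain ⟨B, hB⟩ : ∃ B, B = P.filter (fun w =>
      ((P'.filter (fun z => R z w)).card : ℝ) < 8 * h) := ⟨_, rfl⟩
    have hAP : A ⊆ P := by rw [hA]; exact Finset.filter_subset _ _
    have hBP : B ⊆ P := by rw [hB]; exact Finset.filter_subset _ _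
    have hAc : A.card < h := by
      by_contra hc
      have hc : h ≤ A.card := not_lt.mp hc
      have h1 := typ_few R h d (8 * h) hh A P' hc (H1 A (hAP.trans hPX) P' hPX' hc hP'h)
        (by
          intro a ha
          rw [hA] at ha
          exact (Finset.mem_filter.mp ha).2)
      linarith
    have hBc : B.card < h := by
      by_contra hc
      have hc : h ≤ B.card := not_lt.mp hc
      have h1 := typ_few' R h d (8 * h) hh B P' hc (H1 P' hPX' B (hBP.trans hPX) hP'h hc)
        (by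
          intro a ha
          rw [hB] at ha
          exact (Finset.mem_filter.mp ha).2)
      linarith
    obtain ⟨w, hw⟩ : ∃ w, w ∈ P \ (A ∪ B) := by
      have h1 := Finset.card_union_le A B
      have h2 := Finset.card_le_card_sdiff_add_card (s := P) (t := A ∪ B)
      have h3 : 0 < (P \ (A ∪ B)).card := by omega
      exact Finset.card_pos.mp h3
    rw [Finset.mem_sdiff, Finset.mem_union, not_or] at hw
    obtain ⟨hwP, hwA, hwB⟩ := hw
    have huw : E u w := by
      rw [hPd] at hwP
      exact (Finset.mem_filter.mp hwP).2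
    have hwP' : ∀ z ∈ P', z ∈ X ∧ ¬ E w z := by
      intro z hz
      rw [hPd', Finset.mem_filter] at hz
      refine ⟨hz.1, fun hwz => hne ?_⟩
      exact hE.trans (hE.trans huw hwz) (hE.symm hz.2)
    have hp : 8 * h ≤ (P'.filter (fun z => R w z)).card := by
      by_contra hc
      apply hwA
      rw [hA, Finset.mem_filter]
      refine ⟨hwP, ?_⟩
      have h1 : (P'.filter (fun z => R w z)).card < 8 * h := not_le.mp hc
      exact_mod_cast h1
    have hm : 8 * h ≤ (P'.filter (fun z => R z w)).card := by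
      by_contra hc
      apply hwB
      rw [hB, Finset.mem_filter]
      refine ⟨hwP, ?_⟩
      have h1 : (P'.filter (fun z => R z w)).card < 8 * h := not_le.mp hc
      exact_mod_cast h1
    have hp' : (P'.filter (fun z => R w z)).card ≤ (X.filter (fun z => R w z ∧ ¬ E w z)).card := by
      apply Finset.card_le_card
      intro z hz
      rw [Finset.mem_filter] at hz
      rw [Finset.mem_filter]
      exact ⟨(hwP' z hz.1).1, hz.2, (hwP' z hz.1).2⟩
    have hm' : (P'.filter (fun z => R z w)).card ≤ (X.filter (fun z => R z w ∧ ¬ E w z)).card := by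
      apply Finset.card_le_card
      intro z hz
      rw [Finset.mem_filter] at hz
      rw [Finset.mem_filter]
      exact ⟨(hwP' z hz.1).1, hz.2, (hwP' z hz.1).2⟩
    rcases H3 w (hPX hwP) with h3 | h3 <;> omega

/-- an arc between two large sets -/
private theorem typ_arc {n : ℕ} {R : Fin n → Fin n → Prop} [DecidableRel R] {h : ℕ} {d : ℝ} (hd : 0 < d)
    (hh : 1 ≤ h) {A B : Finset (Fin n)} (hA : h ≤ A.card) (hB : h ≤ B.card)
    (H : d * A.card * B.card ≤ ((A ×ˢ B).filter (fun q => R q.1 q.2)).card) :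
    ∃ a ∈ A, ∃ b ∈ B, R a b := by
  have hA0 : (0 : ℝ) < A.card := by exact_mod_cast (lt_of_lt_of_le (Nat.lt_of_lt_of_le one_pos hh) hA)
  have hB0 : (0 : ℝ) < B.card := by exact_mod_cast (lt_of_lt_of_le (Nat.lt_of_lt_of_le one_pos hh) hB)
  have h1 : (0 : ℝ) < ((A ×ˢ B).filter (fun q => R q.1 q.2)).card :=
    lt_of_lt_of_le (mul_pos (mul_pos hd hA0) hB0) H
  have h2 : 0 < ((A ×ˢ B).filter (fun q => R q.1 q.2)).card := by exact_mod_cast h1
  obtain ⟨q, hq⟩ := Finset.card_pos.mp h2
  rw [Finset.mem_filter, Finset.mem_product] at hq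
  exact ⟨q.1, hq.1.1, q.2, hq.1.2, hq.2⟩

theorem tTyp (hFour : S_Four) (hPos : S_Pos) (hHlv : S_Hlv) : S_Typ := by
  classical
  intro n K k S o i cl X Y Γ h x y d c ν hX hd hd1 hh hhx hyx ρ Q p hρ hQ hmin
  have hh0 : (1 : ℝ) ≤ h := by exact_mod_cast hh
  obtain ⟨X', hX'⟩ : ∃ X', X' = X p \ Q := ⟨_, rfl⟩
  rw [← hX'] at hmin ⊢
  have hX'X : X' ⊆ X p := by rw [hX']; exact Finset.sdiff_subset
  have hρ' : ∀ v ∈ X', ρ v ∈ Y p := by
    intro v hv
    rw [hX', Finset.mem_sdiff] at hv
    exact hρ v hv.1 hv.2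
  have hcard : 3 * x ≤ 4 * X'.card := by
    have h1 : X'.card + (X p ∩ Q).card = (X p).card := by
      rw [hX']
      exact Finset.card_sdiff_add_card_inter _ _
    have h2 := (hX.sz p).2.1
    omega
  have hM : 16 * (h : ℝ) ≤ d ^ 2 * X'.card := by
    have h1 : (x : ℝ) ≤ 2 * X'.card := by
      have h2 : x ≤ 2 * X'.card := by omega
      exact_mod_cast h2
    have h2 : d ^ 2 * x ≤ d ^ 2 * (2 * X'.card) := mul_le_mul_of_nonneg_left h1 (by positivity)
    linarith
  have H1 : ∀ A ⊆ X', ∀ B ⊆ X', h ≤ A.card → h ≤ B.card →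
      d * A.card * B.card ≤ ((A ×ˢ B).filter (fun q => (q.1, ρ q.2) ∈ S)).card := by
    intro A hA B hB hAc hBc
    have h1 : (B.map ρ.toEmbedding).card = B.card := Finset.card_map _
    have h2 := hX.dens p p (hX.loop p) A (B.map ρ.toEmbedding) (hA.trans hX'X) (by
      intro z hz
      rw [Finset.mem_map] at hz
      obtain ⟨b, hb, rfl⟩ := hz
      exact hρ' b (hB hb)) hAc (by rw [h1]; exact hBc)
    rw [h1] at h2
    refine h2.trans ?_
    have h3 : eb S A (B.map ρ.toEmbedding) ≤
        ((A ×ˢ B).filter (fun q => (q.1, ρ q.2) ∈ S)).card := by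
      unfold eb
      apply Finset.card_le_card_of_injOn (fun e => (e.1, ρ.symm e.2))
      · intro e he
        rw [Finset.mem_coe, Finset.mem_filter] at he
        rw [Finset.mem_coe, Finset.mem_filter, Finset.mem_product]
        obtain ⟨he, heA, heB⟩ := he
        rw [Finset.mem_map] at heB
        obtain ⟨b, hb, hbe⟩ := heB
        have hbe' : ρ b = e.2 := hbe
        refine ⟨⟨heA, ?_⟩, ?_⟩
        · show ρ.symm e.2 ∈ B
          rw [← hbe', Equiv.symm_apply_apply]
          exact hb
        · show (e.1, ρ (ρ.symm e.2)) ∈ S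
          rw [Equiv.apply_symm_apply]
          exact he
      · intro e _ e' _ hee
        have h4 : (e.1, ρ.symm e.2) = (e'.1, ρ.symm e'.2) := hee
        rw [Prod.mk.injEq] at h4
        exact Prod.ext h4.1 (ρ.symm.injective h4.2)
    exact_mod_cast h3
  -- step (3)
  have H3 : ∀ u ∈ X', (X'.filter (fun w => (u, ρ w) ∈ S ∧ ¬ ρ.SameCycle u w)).card < 8 * h ∨
      (X'.filter (fun w => (w, ρ u) ∈ S ∧ ¬ ρ.SameCycle u w)).card < 2 * h := by
    intro u hu
    by_contra hcon
    rw [not_or, not_lt, not_lt] at hcon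
    obtain ⟨hcA, hcB⟩ := hcon
    obtain ⟨A, hA⟩ : ∃ A, A = X'.filter (fun w => (u, ρ w) ∈ S ∧ ¬ ρ.SameCycle u w) := ⟨_, rfl⟩
    obtain ⟨B, hB⟩ : ∃ B, B = X'.filter (fun w => (w, ρ u) ∈ S ∧ ¬ ρ.SameCycle u w) := ⟨_, rfl⟩
    rw [← hA] at hcA
    rw [← hB] at hcB
    have hAX : A ⊆ X' := by rw [hA]; exact Finset.filter_subset _ _
    have hBX : B ⊆ X' := by rw [hB]; exact Finset.filter_subset _ _
    obtain ⟨pos, hpi, hpos⟩ := hPos n ρ
    obtain ⟨A1, Z, B1, hA1, hZ, hB1, hA1c, hZc, hB1c, hlt, hout⟩ : ∃ A1 Z B1 : Finset (Fin n),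
        A1 ⊆ A ∧ Z ⊆ A ∧ B1 ⊆ B ∧ A1.card = 2 * h ∧ Z.card = 2 * h ∧ h ≤ B1.card ∧
        (∀ a ∈ A1, ∀ b ∈ Z, pos a < pos b) ∧
        ∀ a ∈ A1, ∀ b ∈ Z, ∀ v ∈ B1, pos v < pos a ∨ pos b < pos v := by
      obtain ⟨Al, Ah, hAl, hAh, hAlc, hAhc, hlh⟩ := hHlv n (4 * h) pos A hpi (by omega)
      have hAhn : Ah.Nonempty := Finset.card_pos.mp (by omega)
      obtain ⟨z0, hz0, hz0min⟩ := Finset.exists_min_image Ah pos hAhn
      by_cases hcase : h ≤ (B.filter (fun v => pos z0 ≤ pos v)).card
      · obtain ⟨A1, Z, hA1, hZ, hA1c, hZc, hlt⟩ := hHlv n (2 * h) pos Al hpi (by omega)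
        refine ⟨A1, Z, B.filter (fun v => pos z0 ≤ pos v), hA1.trans hAl, hZ.trans hAl,
          Finset.filter_subset _ _, hA1c, hZc, hcase, hlt, ?_⟩
        intro a _ b hb v hv
        right
        exact lt_of_lt_of_le (hlh b (hZ hb) z0 hz0) (Finset.mem_filter.mp hv).2
      · obtain ⟨A1, Z, hA1, hZ, hA1c, hZc, hlt⟩ := hHlv n (2 * h) pos Ah hpi (by omega)
        refine ⟨A1, Z, B.filter (fun v => ¬ pos z0 ≤ pos v), hA1.trans hAh, hZ.trans hAh,
          Finset.filter_subset _ _, hA1c, hZc, ?_, hlt, ?_⟩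
        · have h1 := Finset.card_filter_add_card_filter_not (s := B) (fun v => pos z0 ≤ pos v)
          omega
        · intro a ha b _ v hv
          left
          have h1 := (Finset.mem_filter.mp hv).2
          exact lt_of_lt_of_le (not_le.mp h1) (hz0min a (hA1 ha))
    obtain ⟨Z', hZ'⟩ : ∃ Z', Z' = Z.filter (fun b => ∃ a ∈ A1, (a, ρ b) ∈ S) := ⟨_, rfl⟩
    have hZ'Z : Z' ⊆ Z := by rw [hZ']; exact Finset.filter_subset _ _
    have hZ'c : h ≤ Z'.card := by
      by_contra hc
      have h1 := Finset.card_sdiff_add_card_eq_card hZ'Z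
      have h2 : h ≤ (Z \ Z').card := by omega
      obtain ⟨a, ha, b, hb, hab⟩ := typ_arc (R := fun v w => (v, ρ w) ∈ S) hd hh
        (A := A1) (B := Z \ Z') (by omega) h2
        (H1 A1 (hA1.trans hAX) (Z \ Z') ((Finset.sdiff_subset.trans hZ).trans hAX) (by omega) h2)
      rw [Finset.mem_sdiff] at hb
      apply hb.2
      rw [hZ', Finset.mem_filter]
      exact ⟨hb.1, a, ha, hab⟩
    obtain ⟨b, hb, v, hv, hbv⟩ := typ_arc (R := fun v w => (v, ρ w) ∈ S) hd hh hZ'c hB1c
      (H1 Z' ((hZ'Z.trans hZ).trans hAX) B1 (hB1.trans hBX) hZ'c hB1c)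
    have hbv : (b, ρ v) ∈ S := hbv
    have hb2 := hb
    rw [hZ', Finset.mem_filter] at hb2
    obtain ⟨hbZ, a, ha, hab⟩ := hb2
    have haA := hA1 ha
    have hbA := hZ hbZ
    have hvB := hB1 hv
    have haX := hAX haA
    have hbX := hAX hbA
    have hvX := hBX hvB
    rw [hA, Finset.mem_filter] at haA hbA
    rw [hB, Finset.mem_filter] at hvB
    obtain ⟨-, hua, hnua⟩ := haA
    obtain ⟨-, -, hnub⟩ := hbA
    obtain ⟨-, hvu, hnuv⟩ := hvB
    have hpab := hlt a ha b hbZ
    have hpv := hout a ha b hbZ v hv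
    have hneab : a ≠ b := by
      rintro rfl
      exact lt_irrefl _ hpab
    have hneua : u ≠ a := by
      rintro rfl
      exact hnua (Equiv.Perm.SameCycle.refl _ _)
    have hneub : u ≠ b := by
      rintro rfl
      exact hnub (Equiv.Perm.SameCycle.refl _ _)
    have hneva : v ≠ a := by
      rintro rfl
      rcases hpv with h1 | h1
      · exact lt_irrefl _ h1
      · exact lt_irrefl _ (h1.trans hpab)
    have hnevb : v ≠ b := by
      rintro rfl
      rcases hpv with h1 | h1
      · exact lt_irrefl _ (h1.trans hpab)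
      · exact lt_irrefl _ h1
    have hcase : (¬ ρ.SameCycle a b ∧ ¬ ρ.SameCycle u a ∧ ¬ ρ.SameCycle u b) ∨
        ∃ m : ℕ, b = (ρ ^ m) a ∧ ∀ s ≤ m, (ρ ^ s) a ≠ u ∧ (ρ ^ s) a ≠ v := by
      by_cases hsab : ρ.SameCycle a b
      · right
        obtain ⟨m, -, hbm, hm⟩ := hpos a b hsab hpab
        refine ⟨m, hbm, fun s hs => ⟨?_, ?_⟩⟩
        · intro h1
          apply hnua
          rw [← h1]
          exact (Equiv.Perm.sameCycle_pow_right.mpr (Equiv.Perm.SameCycle.refl _ _)).symm
        · intro h1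
          have h2 := hm s hs
          rw [h1] at h2
          rcases hpv with h3 | h3 <;> omega
      · exact Or.inl ⟨hsab, hnua, hnub⟩
    obtain ⟨ρ1, hcyc, hoth, hS⟩ := hFour n ρ S u a b v hnuv hneab hneua hneub hneva hnevb hcase
      hua hab hbv hvu
    refine absurd (hmin ρ1 ?_ ?_ ?_) (not_le.mpr hcyc)
    · intro z hz
      apply hoth
      · rintro rfl; exact hz hu
      · rintro rfl; exact hz haX
      · rintro rfl; exact hz hbX
      · rintro rfl; exact hz hvX
    · intro z hz
      obtain ⟨z', hz'⟩ : ∃ z', z' = ρ.symm (ρ1 z) := ⟨_, rfl⟩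
      have hρz' : ρ z' = ρ1 z := by rw [hz', Equiv.apply_symm_apply]
      rw [← hρz']
      apply hρ'
      by_contra hcon
      have h1 : ρ1 z' = ρ z' := by
        apply hoth
        · rintro rfl; exact hcon hu
        · rintro rfl; exact hcon haX
        · rintro rfl; exact hcon hbX
        · rintro rfl; exact hcon hvX
      rw [hρz'] at h1
      have h2 := ρ1.injective h1
      rw [h2] at hcon
      exact hcon hz
    · intro z
      by_cases h1 : z = u
      · rw [h1]; exact Or.inr hS.1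
      by_cases h2 : z = a
      · rw [h2]; exact Or.inr hS.2.1
      by_cases h3 : z = b
      · rw [h3]; exact Or.inr hS.2.2.1
      by_cases h4 : z = v
      · rw [h4]; exact Or.inr hS.2.2.2
      exact Or.inl (hoth z h1 h2 h3 h4)
  exact typ_abs (fun v w => (v, ρ w) ∈ S) (fun v w => ρ.SameCycle v w)
    ⟨fun v => Equiv.Perm.SameCycle.refl _ _, fun h => h.symm, fun h h' => h.trans h'⟩ X' h d hd hd1
    hh hM H1 H3

end Pool.Agent.MPd266dbH
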