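import Pool.Agent.Lib.MP_d266db_co.H.SpecP

/-!
# MP_d266db_co, H: a virtual transposition
-/

set_option autoImplicit false

namespace Pool.Agent.MPd266dbH

open Finset Pool.Agent.MPd266db

/-- inserting the pairs `(a i, b i)`, `i = q - 1, q - 2, ..., q - t`, after `x` -/
theorem vt_loop (hChn : S_Chn) {n : ℕ} (ρ g : Equiv.Perm (Fin n)) (F0 : Finset (Fin n))
    (x : Fin n) (a b : ℕ → Fin n) (m : ℕ → ℕ) (p q : ℕ)
    (hg : ∀ v, v ∉ F0 → g v = ρ v) (hx : x ∈ F0)
    (hab : ∀ i, p ≤ i → i < q → a i ≠ b i ∧ b i = (ρ ^ (m i)) (a i))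
    (hF : ∀ i, p ≤ i → i < q → ∀ s ≤ m i, (ρ ^ s) (a i) ∉ F0)
    (hd : ∀ i, p ≤ i → i < q → ∀ j, p ≤ j → j < q → i ≠ j → ∀ s ≤ m i, ∀ t ≤ m j,
      (ρ ^ s) (a i) ≠ (ρ ^ t) (a j)) :
    ∀ t : ℕ, p + t ≤ q → ∃ g' : Equiv.Perm (Fin n), cyc g' = cyc g ∧
      g' x = (if t = 0 then g x else ρ (a (q - t))) ∧
      (∀ i, q - t ≤ i → i < q → g' (a i) = ρ (b i) ∧
        g' (b i) = (if i + 1 < q then ρ (a (i + 1)) else g x)) ∧
      ∀ w, w ≠ x → (∀ i, q - t ≤ i → i < q → w ≠ a i ∧ w ≠ b i) → g' w = g w := by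
  classical
  intro t
  induction t with
  | zero =>
    intro _
    exact ⟨g, rfl, by simp, fun i h1 h2 => absurd h1 (by omega), fun w _ _ => rfl⟩
  | succ t ih =>
    intro ht
    obtain ⟨g1, h1, h2, h3, h4⟩ := ih (by omega)
    -- the new index
    obtain ⟨i, hi⟩ : ∃ i, i = q - (t + 1) := ⟨_, rfl⟩
    have hip : p ≤ i := by omega
    have hiq : i < q := by omega
    have hit : q - t = i + 1 := by omega
    rw [hit] at h2 h3 h4
    obtain ⟨hne, hbi⟩ := hab i hip hiq
    let F : Finset (Fin n) := F0 ∪ (Finset.Ico (i + 1) q).image a ∪ (Finset.Ico (i + 1) q).image b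
    have hFmem : ∀ w, w ∈ F ↔ (w ∈ F0 ∨ ∃ j, i + 1 ≤ j ∧ j < q ∧ (w = a j ∨ w = b j)) := by
      intro w
      simp only [F, mem_union, mem_image, Finset.mem_Ico]
      constructor
      · rintro ((h | ⟨j, ⟨hj1, hj2⟩, rfl⟩) | ⟨j, ⟨hj1, hj2⟩, rfl⟩)
        · exact Or.inl h
        · exact Or.inr ⟨j, hj1, hj2, Or.inl rfl⟩
        · exact Or.inr ⟨j, hj1, hj2, Or.inr rfl⟩
      · rintro (h | ⟨j, hj1, hj2, (rfl | rfl)⟩)
        · exact Or.inl (Or.inl h)
        · exact Or.inl (Or.inr ⟨j, ⟨hj1, hj2⟩, rfl⟩)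
        · exact Or.inr ⟨j, ⟨hj1, hj2⟩, rfl⟩
    have hpiece : ∀ s ≤ m i, (ρ ^ s) (a i) ∉ F := by
      intro s hs hmem
      rcases (hFmem _).1 hmem with h | ⟨j, hj1, hj2, (h | h)⟩
      · exact hF i hip hiq s hs h
      · exact hd i hip hiq j (by omega) hj2 (by omega) s hs 0 (Nat.zero_le _) (by
          rw [h]; simp)
      · exact hd i hip hiq j (by omega) hj2 (by omega) s hs (m j) le_rfl (by
          rw [h]; exact (hab j (by omega) hj2).2)
    obtain ⟨g', c1, c2, c3, c4, c5⟩ := hChn n ρ g1 F x (a i) (b i) (m i)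
      (fun w hw => by
        rw [hFmem] at hw
        push Not at hw
        rw [h4 w (fun h => hw.1 (h ▸ hx)) (fun j hj1 hj2 => hw.2 j hj1 hj2)]
        exact hg w hw.1)
      ((hFmem x).2 (Or.inl hx)) hne hbi hpiece
    have hax : ∀ j, p ≤ j → j < q → a j ≠ x ∧ b j ≠ x := by
      intro j hj1 hj2
      refine ⟨fun h => ?_, fun h => ?_⟩
      · exact hF j hj1 hj2 0 (Nat.zero_le _) (by simpa [h] using hx)
      · exact hF j hj1 hj2 (m j) le_rfl (by rw [← (hab j hj1 hj2).2, h]; exact hx)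
    have hzero : ∀ j, a j = (ρ ^ 0) (a j) := fun j => by simp
    refine ⟨g', c1.trans h1, ?_, ?_, ?_⟩
    · rw [c2, if_neg (Nat.succ_ne_zero t), ← hi]
    · intro j hj1 hj2
      rw [← hi] at hj1
      rcases Nat.lt_or_ge i j with hlt | hge
      · have e1 := h3 j hlt hj2
        have d1 : a j ≠ a i := fun h => hd j (by omega) hj2 i hip hiq (by omega) 0
          (Nat.zero_le _) 0 (Nat.zero_le _) (by simpa using h)
        have d2 : a j ≠ b i := fun h => hd j (by omega) hj2 i hip hiq (by omega) 0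
          (Nat.zero_le _) (m i) le_rfl (by rw [← hbi]; simpa using h)
        have d3 : b j ≠ a i := fun h => hd j (by omega) hj2 i hip hiq (by omega) (m j)
          le_rfl 0 (Nat.zero_le _) (by rw [← (hab j (by omega) hj2).2]; simpa using h)
        have d4 : b j ≠ b i := fun h => hd j (by omega) hj2 i hip hiq (by omega) (m j)
          le_rfl (m i) le_rfl (by rw [← (hab j (by omega) hj2).2, ← hbi]; exact h)
        have d5 := hax j (by omega) hj2
        rw [c5 (a j) d5.1 d1 d2, c5 (b j) d5.2 d3 d4]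
        exact e1
      · have hji : j = i := by omega
        subst hji
        refine ⟨c3, ?_⟩
        rw [c4, h2]
        by_cases h0 : t = 0
        · rw [if_pos h0, if_neg (by omega)]
        · rw [if_neg h0, if_pos (by omega)]
    · intro w hw hw'
      rw [← hi] at hw'
      have e1 := hw' i le_rfl hiq
      rw [c5 w hw e1.1 e1.2]
      exact h4 w hw fun j hj1 hj2 => hw' j (by omega) hj2

theorem tVT (hMer : S_Mer) (hChn : S_Chn) : S_VT := by
  classical
  intro n ρ S u v k l a b m huv hk hl hab hav hd s0 s1 s2 s3 s4 s5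
  have huv' : u ≠ v := fun h => huv (h ▸ Equiv.Perm.SameCycle.refl _ _)
  have hzero : ∀ j, a j = (ρ ^ 0) (a j) := fun j => by simp
  have hcyc := (hMer n ρ u v huv).1
  have g0u : (ρ * Equiv.swap u v) u = ρ v := by simp
  have g0v : (ρ * Equiv.swap u v) v = ρ u := by simp
  have g0w : ∀ w, w ≠ u → w ≠ v → (ρ * Equiv.swap u v) w = ρ w := fun w h1 h2 => by
    rw [Equiv.Perm.mul_apply, Equiv.swap_apply_of_ne_of_ne h1 h2]
  -- the first loop
  obtain ⟨g1, c1, c2, c3, c4⟩ := vt_loop hChn ρ (ρ * Equiv.swap u v) {u, v} u a b m 0 k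
    (fun w hw => g0w w (fun h => hw (by simp [h])) (fun h => hw (by simp [h])))
    (by simp) (fun i _ h2 => hab i (by omega))
    (fun i _ h2 s hs hmem => by
      rcases Finset.mem_insert.1 hmem with h | h
      · exact (hav i (by omega) s hs).1 h
      · exact (hav i (by omega) s hs).2 (Finset.mem_singleton.1 h))
    (fun i _ h2 j _ h4 hij => hd i (by omega) j (by omega) hij) k (by omega)
  rw [Nat.sub_self] at c2 c3 c4
  rw [if_neg (by omega)] at c2
  rw [g0u] at c3
  -- distinctness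
  have hau : ∀ i < k + l, a i ≠ u ∧ b i ≠ u ∧ a i ≠ v ∧ b i ≠ v := by
    intro i hi
    have e1 := hav i hi 0 (Nat.zero_le _)
    have e2 := hav i hi (m i) le_rfl
    rw [← (hab i hi).2] at e2
    rw [← hzero] at e1
    exact ⟨e1.1, e2.1, e1.2, e2.2⟩
  have hdd : ∀ i < k + l, ∀ j < k + l, i ≠ j → a i ≠ a j ∧ a i ≠ b j ∧ b i ≠ a j ∧ b i ≠ b j := by
    intro i hi j hj hij
    refine ⟨fun h => ?_, fun h => ?_, fun h => ?_, fun h => ?_⟩
    · exact hd i hi j hj hij 0 (Nat.zero_le _) 0 (Nat.zero_le _) (by simpa using h)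
    · exact hd i hi j hj hij 0 (Nat.zero_le _) (m j) le_rfl (by
        rw [← (hab j hj).2]; simpa using h)
    · exact hd i hi j hj hij (m i) le_rfl 0 (Nat.zero_le _) (by
        rw [← (hab i hi).2]; simpa using h)
    · exact hd i hi j hj hij (m i) le_rfl (m j) le_rfl (by
        rw [← (hab i hi).2, ← (hab j hj).2]; exact h)
  have g1v : g1 v = ρ u := by
    rw [c4 v huv'.symm fun i _ h2 => ⟨(hau i (by omega)).2.2.1.symm, (hau i (by omega)).2.2.2.symm⟩,
      g0v]
  -- the second loop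
  let F1 : Finset (Fin n) := {u, v} ∪ (Finset.range k).image a ∪ (Finset.range k).image b
  have hF1 : ∀ w, w ∈ F1 ↔ (w = u ∨ w = v ∨ ∃ j, j < k ∧ (w = a j ∨ w = b j)) := by
    intro w
    simp only [F1, mem_union, mem_image, Finset.mem_range, Finset.mem_insert,
      Finset.mem_singleton]
    constructor
    · rintro (((h | h) | ⟨j, hj, rfl⟩) | ⟨j, hj, rfl⟩)
      · exact Or.inl h
      · exact Or.inr (Or.inl h)
      · exact Or.inr (Or.inr ⟨j, hj, Or.inl rfl⟩)
      · exact Or.inr (Or.inr ⟨j, hj, Or.inr rfl⟩)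
    · rintro (h | h | ⟨j, hj, (rfl | rfl)⟩)
      · exact Or.inl (Or.inl (Or.inl h))
      · exact Or.inl (Or.inl (Or.inr h))
      · exact Or.inl (Or.inr ⟨j, hj, rfl⟩)
      · exact Or.inr ⟨j, hj, rfl⟩
  obtain ⟨g2, e1, e2, e3, e4⟩ := vt_loop hChn ρ g1 F1 v a b m k (k + l)
    (fun w hw => by
      rw [hF1] at hw
      push Not at hw
      rw [c4 w hw.1 fun i _ h2 => hw.2.2 i h2, g0w w hw.1 hw.2.1])
    ((hF1 v).2 (Or.inr (Or.inl rfl))) (fun i _ h2 => hab i h2)
    (fun i h1 h2 s hs hmem => by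
      rcases (hF1 _).1 hmem with h | h | ⟨j, hj, (h | h)⟩
      · exact (hav i h2 s hs).1 h
      · exact (hav i h2 s hs).2 h
      · exact hd i h2 j (by omega) (by omega) s hs 0 (Nat.zero_le _) (by rw [h]; simp)
      · exact hd i h2 j (by omega) (by omega) s hs (m j) le_rfl (by
          rw [h]; exact (hab j (by omega)).2))
    (fun i _ h2 j _ h4 hij => hd i h2 j h4 hij) l le_rfl
  have hkl : k + l - l = k := by omega
  rw [hkl] at e2 e3 e4
  rw [if_neg (by omega)] at e2
  rw [g1v] at e3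
  have f1 : ∀ i < k, g2 (a i) = ρ (b i) ∧ g2 (b i) = (if i + 1 < k then ρ (a (i + 1)) else ρ v) := by
    intro i hi
    have q1 := hau i (by omega)
    rw [e4 (a i) q1.2.2.1 fun j h1 h2 => by
        have := hdd i (by omega) j h2 (by omega)
        exact ⟨this.1, this.2.1⟩,
      e4 (b i) q1.2.2.2 fun j h1 h2 => by
        have := hdd i (by omega) j h2 (by omega)
        exact ⟨this.2.2.1, this.2.2.2⟩]
    exact c3 i (Nat.zero_le _) hi
  have f2 : g2 u = ρ (a 0) := by
    rw [e4 u huv' fun j h1 h2 => ⟨(hau j h2).1.symm, (hau j h2).2.1.symm⟩, c2]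
  let F : Finset (Fin n) := {u, v} ∪ (Finset.range (k + l)).image a ∪ (Finset.range (k + l)).image b
  have hFm : ∀ w, w ∈ F ↔ (w = u ∨ w = v ∨ ∃ j, j < k + l ∧ (w = a j ∨ w = b j)) := by
    intro w
    simp only [F, mem_union, mem_image, Finset.mem_range, Finset.mem_insert,
      Finset.mem_singleton]
    constructor
    · rintro (((h | h) | ⟨j, hj, rfl⟩) | ⟨j, hj, rfl⟩)
      · exact Or.inl h
      · exact Or.inr (Or.inl h)
      · exact Or.inr (Or.inr ⟨j, hj, Or.inl rfl⟩)
      · exact Or.inr (Or.inr ⟨j, hj, Or.inr rfl⟩)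
    · rintro (h | h | ⟨j, hj, (rfl | rfl)⟩)
      · exact Or.inl (Or.inl (Or.inl h))
      · exact Or.inl (Or.inl (Or.inr h))
      · exact Or.inl (Or.inr ⟨j, hj, rfl⟩)
      · exact Or.inr ⟨j, hj, rfl⟩
  refine ⟨g2, F, ?_, ?_, ?_, ?_, ?_⟩
  · rw [e1, c1]; omega
  · have t1 : ({u, v} : Finset (Fin n)).card ≤ 2 := Finset.card_le_two
    have t2 : ((Finset.range (k + l)).image a).card ≤ k + l :=
      Finset.card_image_le.trans (by simp)
    have t3 : ((Finset.range (k + l)).image b).card ≤ k + l :=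
      Finset.card_image_le.trans (by simp)
    have t4 := Finset.card_union_le ({u, v} ∪ (Finset.range (k + l)).image a)
      ((Finset.range (k + l)).image b)
    have t5 := Finset.card_union_le ({u, v} : Finset (Fin n)) ((Finset.range (k + l)).image a)
    change ({u, v} ∪ (Finset.range (k + l)).image a ∪ (Finset.range (k + l)).image b).card ≤ _
    omega
  · intro w hw
    rcases (hFm w).1 hw with rfl | rfl | ⟨j, hj, (rfl | rfl)⟩
    · rw [f2]; exact s0
    · rw [e2]; exact s4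
    · rcases Nat.lt_or_ge j k with hjk | hjk
      · rw [(f1 j hjk).1]; exact s1 j hj
      · rw [(e3 j hjk hj).1]; exact s1 j hj
    · rcases Nat.lt_or_ge j k with hjk | hjk
      · rw [(f1 j hjk).2]
        by_cases h : j + 1 < k
        · rw [if_pos h]; exact s2 j (by omega) (by omega)
        · rw [if_neg h]
          have : j = k - 1 := by omega
          rw [this]; exact s3
      · rw [(e3 j hjk hj).2]
        by_cases h : j + 1 < k + l
        · rw [if_pos h]; exact s2 j h (by omega)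
        · rw [if_neg h]
          have : j = k + l - 1 := by omega
          rw [this]; exact s5
  · intro w hw
    rw [hFm] at hw
    push Not at hw
    rw [e4 w hw.2.1 fun i _ h2 => hw.2.2 i h2, c4 w hw.1 fun i _ h2 => hw.2.2 i (by omega),
      g0w w hw.1 hw.2.1]
  · intro w hw
    rcases (hFm w).1 hw with h | h | ⟨j, hj, h⟩
    · exact Or.inl h
    · exact Or.inr (Or.inl h)
    · exact Or.inr (Or.inr ⟨j, hj, h⟩)

end Pool.Agent.MPd266dbH
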