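import Pool.Agent.Lib.MP_d266db_co.H.SpecM

/-!
# MP_d266db_co, H: merging two cycles of one class
-/

set_option autoImplicit false

namespace Pool.Agent.MPd266dbH

open Finset Pool.Agent.MPd266db

/-- an arc between two large sets -/
private theorem vts_arc {n K k : ℕ} {S : Finset (Fin n × Fin n)} {o i : Fin n → Fin K}
    {cl : Fin k → Fin K} {X Y : Fin k → Finset (Fin n)} {Γ : Fin k → Fin k → Prop} {h x y : ℕ}
    {d c ν : ℝ} (hX : XSys S o i cl X Y Γ h x y d c ν) (hd : 0 < d) (hh : 1 ≤ h)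
    {ρ : Equiv.Perm (Fin n)} {Q : Finset (Fin n)} (hρ : ∀ p, ∀ v ∈ X p, v ∉ Q → ρ v ∈ Y p)
    {p p' : Fin k} (hp : Γ p p') {A B : Finset (Fin n)} (hA : A ⊆ X p \ Q) (hB : B ⊆ X p' \ Q)
    (hAc : h ≤ A.card) (hBc : h ≤ B.card) : ∃ a ∈ A, ∃ b ∈ B, (a, ρ b) ∈ S := by
  have h1 : (B.map ρ.toEmbedding).card = B.card := Finset.card_map _
  have h2 := hX.dens p p' hp A (B.map ρ.toEmbedding) (hA.trans Finset.sdiff_subset) (by
    intro z hz
    rw [Finset.mem_map] at hz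
    obtain ⟨b, hb, rfl⟩ := hz
    have hb' := hB hb
    rw [Finset.mem_sdiff] at hb'
    exact hρ p' b hb'.1 hb'.2) hAc (by rw [h1]; exact hBc)
  rw [h1] at h2
  have hA0 : (0 : ℝ) < A.card := by exact_mod_cast (lt_of_lt_of_le (Nat.lt_of_lt_of_le one_pos hh) hAc)
  have hB0 : (0 : ℝ) < B.card := by exact_mod_cast (lt_of_lt_of_le (Nat.lt_of_lt_of_le one_pos hh) hBc)
  have h3 : (0 : ℝ) < eb S A (B.map ρ.toEmbedding) :=
    lt_of_lt_of_le (mul_pos (mul_pos hd hA0) hB0) h2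
  have h4 : 0 < eb S A (B.map ρ.toEmbedding) := by exact_mod_cast h3
  obtain ⟨e, he⟩ := Finset.card_pos.mp h4
  rw [Finset.mem_filter, Finset.mem_map] at he
  obtain ⟨heS, heA, b, hb, hbe⟩ := he
  refine ⟨e.1, heA, b, hb, ?_⟩
  have hbe' : ρ b = e.2 := hbe
  rw [hbe']
  exact heS

/-- a walk through the lower and upper parts -/
private theorem vts_walk (hLay : S_Lay) {n K k : ℕ} {S : Finset (Fin n × Fin n)}
    {o i : Fin n → Fin K}
    {cl : Fin k → Fin K} {X Y : Fin k → Finset (Fin n)} {Γ : Fin k → Fin k → Prop} {h x y : ℕ}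
    {d c ν : ℝ} (hX : XSys S o i cl X Y Γ h x y d c ν) (hd : 0 < d) (hh : 1 ≤ h)
    {ρ : Equiv.Perm (Fin n)} {Q : Finset (Fin n)} (hρ : ∀ p, ∀ v ∈ X p, v ∉ Q → ρ v ∈ Y p)
    (m : ℕ) (pp : ℕ → Fin k) (Dm Dp : ℕ → Finset (Fin n))
    (hDm : ∀ j ≤ m, Dm j ⊆ X (pp j) \ Q ∧ 2 * h ≤ (Dm j).card)
    (hDp : ∀ j ≤ m, Dp j ⊆ X (pp j) \ Q ∧ 2 * h ≤ (Dp j).card)
    (hΓ : ∀ j < m, Γ (pp j) (pp (j + 1))) :
    ∃ a b : ℕ → Fin n, (∀ j ≤ m, a j ∈ Dm j ∧ b j ∈ Dp j ∧ (a j, ρ (b j)) ∈ S) ∧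
      ∀ j < m, (b j, ρ (a (j + 1))) ∈ S := by
  obtain ⟨Λ, hΛ⟩ : ∃ Λ : ℕ → Finset (Fin n), Λ = fun t => if t % 2 = 0 then Dm (t / 2) else Dp (t / 2) :=
    ⟨_, rfl⟩
  have hΛ0 : ∀ j, Λ (2 * j) = Dm j := by
    intro j
    rw [hΛ]
    show (if (2 * j) % 2 = 0 then Dm ((2 * j) / 2) else Dp ((2 * j) / 2)) = Dm j
    rw [if_pos (by omega), show (2 * j) / 2 = j by omega]
  have hΛ1 : ∀ j, Λ (2 * j + 1) = Dp j := by
    intro j
    rw [hΛ]
    show (if (2 * j + 1) % 2 = 0 then Dm ((2 * j + 1) / 2) else Dp ((2 * j + 1) / 2)) = Dp j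
    rw [if_neg (by omega), show (2 * j + 1) / 2 = j by omega]
  obtain ⟨z, hz, hz'⟩ := hLay n (2 * m + 1) h Λ (fun _ v w => (v, ρ w) ∈ S) hh (by
    intro t ht
    rcases Nat.even_or_odd' t with ⟨j, rfl | rfl⟩
    · rw [hΛ0]; exact (hDm j (by omega)).2
    · rw [hΛ1]; exact (hDp j (by omega)).2) (by
    intro t ht A B hA hB hAc hBc
    rcases Nat.even_or_odd' t with ⟨j, rfl | rfl⟩
    · rw [hΛ0] at hA
      rw [hΛ1] at hB
      exact vts_arc hX hd hh hρ (hX.loop (pp j)) (hA.trans (hDm j (by omega)).1)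
        (hB.trans (hDp j (by omega)).1) hAc hBc
    · rw [hΛ1] at hA
      rw [show 2 * j + 1 + 1 = 2 * (j + 1) by ring, hΛ0] at hB
      exact vts_arc hX hd hh hρ (hΓ j (by omega)) (hA.trans (hDp j (by omega)).1)
        (hB.trans (hDm (j + 1) (by omega)).1) hAc hBc)
  refine ⟨fun j => z (2 * j), fun j => z (2 * j + 1), ?_, ?_⟩
  · intro j hj
    refine ⟨?_, ?_, hz' (2 * j) (by omega)⟩
    · have h1 := hz (2 * j) (by omega)
      rwa [hΛ0] at h1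
    · have h1 := hz (2 * j + 1) (by omega)
      rwa [hΛ1] at h1
  · intro j hj
    exact hz' (2 * j + 1) (by omega)

theorem tVTs (hSat : S_Sat) (hLay : S_Lay) (hCake : S_Cake) (hHlv : S_Hlv) (hPos : S_Pos)
    (hVT : S_VT) : S_VTs := by
  classical
  intro n K k S o i cl X Y Γ h x y ℓ d c ν hX hd hν hνc hRP hk hh hy hyx ρ Q hρ hQ hTyp u v hu hv
    huv hnuv
  have hℓ : 1 * (12 * h + 2) ≤ (ℓ + 1) * (12 * h + 2) := Nat.mul_le_mul_right _ (by omega)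
  have hy2 : 4 * ((ℓ + 1) * (12 * h + 2)) ≤ y := by
    have h1 : 4 * (ℓ + 1) * (12 * h + 2) = 4 * ((ℓ + 1) * (12 * h + 2)) := by ring
    omega
  have hy1 : 1 ≤ y := by omega
  have hy8 : 8 * h ≤ y := by omega
  have hck : 0 < c * (k : ℝ) := by
    have hk' : (0 : ℝ) < k := by exact_mod_cast hk
    exact mul_pos (lt_of_lt_of_le hν hνc) hk'
  obtain ⟨N, hN, hOut, hIn, hExp⟩ := hSat n K k S o i cl X Y Γ h x y d c ν hX hν hνc hy1 ρ Q hρ hQ
  -- the sets `T p`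
  have hTex : ∀ p, ∃ T : Finset (Fin n), p ∉ N → (T ⊆ X p \ Q ∧ (X p \ Q).card ≤ T.card + 2 * h ∧
      ∀ v ∈ T, ∀ w ∈ T, ρ.SameCycle v w) := by
    intro p
    by_cases hp : p ∈ N
    · exact ⟨∅, fun h => absurd hp h⟩
    · obtain ⟨T, hT1, hT2, hT3⟩ := hTyp p ((hN p).mp hp)
      exact ⟨T, fun _ => ⟨hT1, hT2, hT3⟩⟩
  choose T hT using hTex
  -- walks
  have hne : ∀ P : Finset (Fin k), c * k ≤ P.card → P.Nonempty := by
    intro P hP
    apply Finset.card_pos.mp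
    have : (0 : ℝ) < P.card := lt_of_lt_of_le hck hP
    exact_mod_cast this
  have hwalk : ∀ s t : Fin n, o s = o u → i (ρ t) = o u → ∃ (m : ℕ) (w : ℕ → Fin k), 1 ≤ m ∧ m ≤ ℓ ∧
      (3 * y ≤ 4 * ((X (w 0) \ Q).filter (fun z => (s, ρ z) ∈ S)).card) ∧
      (3 * y ≤ 4 * ((X (w m) \ Q).filter (fun z => (z, ρ t) ∈ S)).card) ∧
      (∀ j ≤ m, w j ∈ Cl cl (o u) \ N) ∧ ∀ j < m, Γ (w j) (w (j + 1)) := by
    intro s t hs ht
    obtain ⟨P, hP, hPc, hPz⟩ := hOut s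
    obtain ⟨P', hP', hPc', hPz'⟩ := hIn (ρ t)
    rw [hs] at hP
    rw [ht] at hP'
    obtain ⟨m, w, hm1, hm2, hw0, hwm, hwA, hwΓ⟩ := hRP k Γ c (Cl cl (o u) \ N) P P'
      (fun p _ => hX.loop p) (fun B hB h1 h2 => hExp (o u) B hB h1 h2) hP hP' (hne P hPc) hPc hPc'
    exact ⟨m, w, hm1, hm2, hPz _ hw0, hPz' _ hwm, hwA, hwΓ⟩
  obtain ⟨m, w, hm1, hm2, hw0, hwm, hwA, hwΓ⟩ := hwalk u v rfl (by rw [← hv, huv])
  obtain ⟨m', w', hm1', hm2', hw0', hwm', hwA', hwΓ'⟩ := hwalk v u huv.symm hu.symm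
  obtain ⟨p, hp⟩ : ∃ p : ℕ → Fin k, p = fun j => if j ≤ m then w j else w' (j - (m + 1)) := ⟨_, rfl⟩
  have hp1 : ∀ j ≤ m, p j = w j := by
    intro j hj
    rw [hp]
    exact if_pos hj
  have hp2 : ∀ j, p (m + 1 + j) = w' j := by
    intro j
    rw [hp]
    show (if m + 1 + j ≤ m then w (m + 1 + j) else w' (m + 1 + j - (m + 1))) = w' j
    rw [if_neg (by omega), show m + 1 + j - (m + 1) = j by omega]
  have hpA : ∀ j < m + 1 + (m' + 1), p j ∈ Cl cl (o u) \ N := by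
    intro j hj
    by_cases hjm : j ≤ m
    · rw [hp1 j hjm]
      exact hwA j hjm
    · obtain ⟨t, rfl⟩ := Nat.exists_eq_add_of_le (show m + 1 ≤ j by omega)
      rw [hp2]
      exact hwA' t (by omega)
  have hpN : ∀ j < m + 1 + (m' + 1), p j ∉ N := fun j hj => (Finset.mem_sdiff.mp (hpA j hj)).2
  -- the sets `D j`
  obtain ⟨Cd, hCd⟩ : ∃ Cd : ℕ → Fin n → Prop, Cd = fun j z => (j = 0 → (u, ρ z) ∈ S) ∧
      (j = m → (z, ρ v) ∈ S) ∧ (j = m + 1 → (v, ρ z) ∈ S) ∧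
      (j = m + 1 + m' → (z, ρ u) ∈ S) := ⟨_, rfl⟩
  have hCd' : ∀ j z, Cd j z ↔ (j = 0 → (u, ρ z) ∈ S) ∧
      (j = m → (z, ρ v) ∈ S) ∧ (j = m + 1 → (v, ρ z) ∈ S) ∧
      (j = m + 1 + m' → (z, ρ u) ∈ S) := by
    intro j z
    rw [hCd]
  have hXQ : ∀ j < m + 1 + (m' + 1), 3 * y ≤ 4 * ((X (p j) \ Q).filter (Cd j)).card := by
    intro j hj
    by_cases h0 : j = 0
    · have h1 : (X (p j) \ Q).filter (Cd j) = (X (w 0) \ Q).filter (fun z => (u, ρ z) ∈ S) := by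
        rw [hp1 j (by omega), h0]
        apply Finset.filter_congr
        intro z _
        rw [hCd']
        constructor
        · intro h2; exact h2.1 rfl
        · intro h2
          exact ⟨fun _ => h2, fun h3 => by omega, fun h3 => by omega, fun h3 => by omega⟩
      rw [h1]
      exact hw0
    by_cases h1 : j = m
    · have h1 : (X (p j) \ Q).filter (Cd j) = (X (w m) \ Q).filter (fun z => (z, ρ v) ∈ S) := by
        rw [hp1 j (by omega), h1]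
        apply Finset.filter_congr
        intro z _
        rw [hCd']
        constructor
        · intro h2; exact h2.2.1 rfl
        · intro h2
          exact ⟨fun h3 => by omega, fun _ => h2, fun h3 => by omega, fun h3 => by omega⟩
      rw [h1]
      exact hwm
    by_cases h2 : j = m + 1
    · have h1 : (X (p j) \ Q).filter (Cd j) = (X (w' 0) \ Q).filter (fun z => (v, ρ z) ∈ S) := by
        rw [h2, show p (m + 1) = w' 0 from hp2 0]
        apply Finset.filter_congr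
        intro z _
        rw [hCd']
        constructor
        · intro h2; exact h2.2.2.1 rfl
        · intro h2
          exact ⟨fun h3 => by omega, fun h3 => by omega, fun _ => h2, fun h3 => by omega⟩
      rw [h1]
      exact hw0'
    by_cases h3 : j = m + 1 + m'
    · have h1 : (X (p j) \ Q).filter (Cd j) = (X (w' m') \ Q).filter (fun z => (z, ρ u) ∈ S) := by
        rw [h3, hp2 m']
        apply Finset.filter_congr
        intro z _
        rw [hCd']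
        constructor
        · intro h2; exact h2.2.2.2 rfl
        · intro h2
          exact ⟨fun h3 => by omega, fun h3 => by omega, fun h3 => by omega, fun _ => h2⟩
      rw [h1]
      exact hwm'
    · have h4 : (X (p j) \ Q).filter (Cd j) = X (p j) \ Q := by
        apply Finset.filter_true_of_mem
        intro z _
        rw [hCd']
        exact ⟨fun h => absurd h h0, fun h => absurd h h1, fun h => absurd h h2,
          fun h => absurd h h3⟩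
      rw [h4]
      have h5 := (hN (p j)).mp (hpN j hj)
      have h6 := (hX.sz (p j)).2.1
      have h7 := Finset.card_sdiff_add_card_inter (X (p j)) Q
      omega
  obtain ⟨D, hD⟩ : ∃ D : ℕ → Finset (Fin n), D = fun j => (T (p j)).filter (Cd j) := ⟨_, rfl⟩
  have hDT : ∀ j, D j ⊆ T (p j) := by
    intro j
    rw [hD]
    exact Finset.filter_subset _ _
  have hDC : ∀ j, ∀ z ∈ D j, Cd j z := by
    intro j z hz
    rw [hD] at hz
    exact (Finset.mem_filter.mp hz).2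
  have hDc : ∀ j < m + 1 + (m' + 1), (m + 1 + (m' + 1)) * (3 * (4 * h) + 2) ≤ (D j).card := by
    intro j hj
    have h1 := hXQ j hj
    obtain ⟨hT1, hT2, -⟩ := hT (p j) (hpN j hj)
    have h2 : (X (p j) \ Q).filter (Cd j) ⊆ D j ∪ ((X (p j) \ Q) \ T (p j)) := by
      intro z hz
      rw [Finset.mem_filter] at hz
      rw [Finset.mem_union, Finset.mem_sdiff]
      by_cases hzT : z ∈ T (p j)
      · left
        rw [hD]
        exact Finset.mem_filter.mpr ⟨hzT, hz.2⟩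
      · exact Or.inr ⟨hz.1, hzT⟩
    have h3 := (Finset.card_le_card h2).trans (Finset.card_union_le _ _)
    have h4 := Finset.card_sdiff_add_card_eq_card hT1
    have h5 : (m + 1 + (m' + 1)) * (3 * (4 * h) + 2) ≤ (2 * (ℓ + 1)) * (3 * (4 * h) + 2) :=
      Nat.mul_le_mul_right _ (by omega)
    have h6 : (2 * (ℓ + 1)) * (3 * (4 * h) + 2) = 2 * ((ℓ + 1) * (12 * h + 2)) := by ring
    omega
  obtain ⟨pos, hpi, hpos⟩ := hPos n ρ
  obtain ⟨D', lo', hi', hD', hdis'⟩ := hCake n (m + 1 + (m' + 1)) (4 * h) pos u v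
    (fun j => D j) hpi (fun j => hDc j j.2)
  -- lower and upper parts
  have hparts : ∀ j, ∃ (Dm Dp : Finset (Fin n)) (lo hi : ℕ), ∀ hj : j < m + 1 + (m' + 1),
      lo = lo' ⟨j, hj⟩ ∧ hi = hi' ⟨j, hj⟩ ∧ Dm ⊆ D j ∧ Dp ⊆ D j ∧ 2 * h ≤ Dm.card ∧
      2 * h ≤ Dp.card ∧ (∀ a ∈ Dm, ∀ b ∈ Dp, pos a < pos b ∧ lo ≤ pos a ∧ pos b < hi) ∧
      ¬ (lo ≤ pos u ∧ pos u < hi) ∧ ¬ (lo ≤ pos v ∧ pos v < hi) := by
    intro j
    by_cases hj : j < m + 1 + (m' + 1)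
    · obtain ⟨h1, h2, h3, h4, h5⟩ := hD' ⟨j, hj⟩
      obtain ⟨A, B, hA, hB, hAc, hBc, hAB⟩ := hHlv n (2 * h) pos (D' ⟨j, hj⟩) hpi (by omega)
      refine ⟨A, B, lo' ⟨j, hj⟩, hi' ⟨j, hj⟩, fun _ => ⟨rfl, rfl, hA.trans h1, hB.trans h1,
        by omega, by omega, fun a ha b hb => ⟨hAB a ha b hb, (h3 a (hA ha)).1,
          (h3 b (hB hb)).2⟩, h4, h5⟩⟩
    · exact ⟨∅, ∅, 0, 0, fun h => absurd h hj⟩
  choose Dm Dp lo hi hprt using hparts
  have hdis : ∀ j < m + 1 + (m' + 1), ∀ t < m + 1 + (m' + 1), j ≠ t → hi j ≤ lo t ∨ hi t ≤ lo j := by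
    intro j hj t ht hjt
    obtain ⟨h1, h2, -⟩ := hprt j hj
    obtain ⟨h3, h4, -⟩ := hprt t ht
    rw [h1, h2, h3, h4]
    exact hdis' ⟨j, hj⟩ ⟨t, ht⟩ (fun h => hjt (congrArg Fin.val h))
  have hDX : ∀ j < m + 1 + (m' + 1), D j ⊆ X (p j) \ Q := fun j hj =>
    (hDT j).trans (hT (p j) (hpN j hj)).1
  obtain ⟨a1, b1, hab1, hab1'⟩ := vts_walk hLay hX hd hh hρ m p Dm Dp
    (fun j hj => ⟨(hprt j (by omega)).2.2.1.trans (hDX j (by omega)),
      (hprt j (by omega)).2.2.2.2.1⟩)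
    (fun j hj => ⟨(hprt j (by omega)).2.2.2.1.trans (hDX j (by omega)),
      (hprt j (by omega)).2.2.2.2.2.1⟩)
    (fun j hj => by
      rw [hp1 j hj.le, hp1 (j + 1) hj]
      exact hwΓ j hj)
  obtain ⟨a2, b2, hab2, hab2'⟩ := vts_walk hLay hX hd hh hρ m' (fun j => p (m + 1 + j))
    (fun j => Dm (m + 1 + j)) (fun j => Dp (m + 1 + j))
    (fun j hj => ⟨(hprt (m + 1 + j) (by omega)).2.2.1.trans (hDX (m + 1 + j) (by omega)),
      (hprt (m + 1 + j) (by omega)).2.2.2.2.1⟩)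
    (fun j hj => ⟨(hprt (m + 1 + j) (by omega)).2.2.2.1.trans (hDX (m + 1 + j) (by omega)),
      (hprt (m + 1 + j) (by omega)).2.2.2.2.2.1⟩)
    (fun j hj => by
      show Γ (p (m + 1 + j)) (p (m + 1 + (j + 1)))
      rw [hp2, hp2]
      exact hwΓ' j hj)
  obtain ⟨a, ha⟩ : ∃ a : ℕ → Fin n, a = fun j => if j ≤ m then a1 j else a2 (j - (m + 1)) := ⟨_, rfl⟩
  obtain ⟨b, hb⟩ : ∃ b : ℕ → Fin n, b = fun j => if j ≤ m then b1 j else b2 (j - (m + 1)) := ⟨_, rfl⟩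
  have ha1 : ∀ j ≤ m, a j = a1 j := by
    intro j hj
    rw [ha]
    exact if_pos hj
  have hb1 : ∀ j ≤ m, b j = b1 j := by
    intro j hj
    rw [hb]
    exact if_pos hj
  have ha2 : ∀ j, a (m + 1 + j) = a2 j := by
    intro j
    rw [ha]
    show (if m + 1 + j ≤ m then a1 (m + 1 + j) else a2 (m + 1 + j - (m + 1))) = a2 j
    rw [if_neg (by omega), show m + 1 + j - (m + 1) = j by omega]
  have hb2 : ∀ j, b (m + 1 + j) = b2 j := by
    intro j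
    rw [hb]
    show (if m + 1 + j ≤ m then b1 (m + 1 + j) else b2 (m + 1 + j - (m + 1))) = b2 j
    rw [if_neg (by omega), show m + 1 + j - (m + 1) = j by omega]
  have hab : ∀ j < m + 1 + (m' + 1), a j ∈ Dm j ∧ b j ∈ Dp j ∧ (a j, ρ (b j)) ∈ S := by
    intro j hj
    by_cases hjm : j ≤ m
    · rw [ha1 j hjm, hb1 j hjm]
      exact hab1 j hjm
    · obtain ⟨t, rfl⟩ := Nat.exists_eq_add_of_le (show m + 1 ≤ j by omega)
      rw [ha2, hb2]
      exact hab2 t (by omega)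
  have haD : ∀ j < m + 1 + (m' + 1), a j ∈ D j := fun j hj => (hprt j hj).2.2.1 (hab j hj).1
  have hbD : ∀ j < m + 1 + (m' + 1), b j ∈ D j := fun j hj => (hprt j hj).2.2.2.1 (hab j hj).2.1
  have hpp : ∀ j < m + 1 + (m' + 1), pos (a j) < pos (b j) ∧ lo j ≤ pos (a j) ∧ pos (b j) < hi j :=
    fun j hj => (hprt j hj).2.2.2.2.2.2.1 _ (hab j hj).1 _ (hab j hj).2.1
  have hmex : ∀ j, ∃ t : ℕ, j < m + 1 + (m' + 1) → (b j = (ρ ^ t) (a j) ∧
      ∀ s ≤ t, lo j ≤ pos ((ρ ^ s) (a j)) ∧ pos ((ρ ^ s) (a j)) < hi j) := by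
    intro j
    by_cases hj : j < m + 1 + (m' + 1)
    · obtain ⟨h1, h2, h3⟩ := hpp j hj
      obtain ⟨t, -, ht, ht'⟩ := hpos (a j) (b j)
        ((hT (p j) (hpN j hj)).2.2 _ (hDT j (haD j hj)) _ (hDT j (hbD j hj))) h1
      exact ⟨t, fun _ => ⟨ht, fun s hs => ⟨h2.trans (ht' s hs).1, (ht' s hs).2.trans_lt h3⟩⟩⟩
    · exact ⟨0, fun h => absurd h hj⟩
  choose M hM using hmex
  have g1 : ∀ j < m + 1 + (m' + 1), a j ≠ b j ∧ b j = (ρ ^ M j) (a j) := by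
    intro j hj
    refine ⟨?_, (hM j hj).1⟩
    intro h1
    have h2 := (hpp j hj).1
    rw [h1] at h2
    exact lt_irrefl _ h2
  have g2 : ∀ j < m + 1 + (m' + 1), ∀ s ≤ M j, (ρ ^ s) (a j) ≠ u ∧ (ρ ^ s) (a j) ≠ v := by
    intro j hj s hs
    have h1 := (hM j hj).2 s hs
    have h2 := (hprt j hj).2.2.2.2.2.2.2
    refine ⟨fun h3 => h2.1 ?_, fun h3 => h2.2 ?_⟩
    · rw [← h3]; exact h1
    · rw [← h3]; exact h1
  have g3 : ∀ j < m + 1 + (m' + 1), ∀ t < m + 1 + (m' + 1), j ≠ t → ∀ s ≤ M j, ∀ r ≤ M t,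
      (ρ ^ s) (a j) ≠ (ρ ^ r) (a t) := by
    intro j hj t ht hjt s hs r hr h3
    have h1 := (hM j hj).2 s hs
    have h2 := (hM t ht).2 r hr
    rw [h3] at h1
    rcases hdis j hj t ht hjt with h4 | h4 <;> omega
  have g4 : (u, ρ (a 0)) ∈ S := ((hCd' 0 _).mp (hDC 0 _ (haD 0 (by omega)))).1 rfl
  have g5 : ∀ j, j + 1 < m + 1 + (m' + 1) → j + 1 ≠ m + 1 → (b j, ρ (a (j + 1))) ∈ S := by
    intro j hj hjm
    by_cases hj' : j < m
    · rw [hb1 j hj'.le, ha1 (j + 1) hj']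
      exact hab1' j hj'
    · obtain ⟨t, rfl⟩ := Nat.exists_eq_add_of_le (show m + 1 ≤ j by omega)
      rw [hb2, show m + 1 + t + 1 = m + 1 + (t + 1) by ring, ha2]
      exact hab2' t (by omega)
  have g6 : (b (m + 1 - 1), ρ v) ∈ S := by
    rw [show m + 1 - 1 = m by omega]
    exact ((hCd' m _).mp (hDC m _ (hbD m (by omega)))).2.1 rfl
  have g7 : (v, ρ (a (m + 1))) ∈ S :=
    ((hCd' (m + 1) _).mp (hDC (m + 1) _ (haD (m + 1) (by omega)))).2.2.1 rfl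
  have g8 : (b (m + 1 + (m' + 1) - 1), ρ u) ∈ S := by
    rw [show m + 1 + (m' + 1) - 1 = m + 1 + m' by omega]
    exact ((hCd' (m + 1 + m') _).mp (hDC (m + 1 + m') _ (hbD (m + 1 + m') (by omega)))).2.2.2 rfl
  obtain ⟨ρ', F, hcyc, hFc, hFS, hFo, hFe⟩ := hVT n ρ S u v (m + 1) (m' + 1) a b M hnuv (by omega)
    (by omega) g1 g2 g3 g4 (fun j hj => (hab j hj).2.2) g5 g6 g7 g8
  refine ⟨ρ', F, hcyc, by omega, hFS, hFo, ?_⟩
  intro z hz
  have hzz : ∀ j < m + 1 + (m' + 1), ∀ z ∈ D j, o z = i (ρ z) := by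
    intro j hj z hz
    have h1 := hDX j hj hz
    rw [Finset.mem_sdiff] at h1
    rw [hX.oX (p j) z h1.1, hX.iY (p j) (ρ z) (hρ (p j) z h1.1 h1.2)]
  rcases hFe z hz with h1 | h1 | ⟨j, hj, h1 | h1⟩
  · rw [h1]; exact hu
  · rw [h1]; exact hv
  · rw [h1]; exact hzz j hj _ (haD j hj)
  · rw [h1]; exact hzz j hj _ (hbD j hj)

end Pool.Agent.MPd266dbH
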