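import Pool.Agent.Lib.MP_d266db_co.H.SpecM

/-!
# MP_d266db_co, H: all own tails of a class in one cycle
-/

set_option autoImplicit false

namespace Pool.Agent.MPd266dbH

open Finset Pool.Agent.MPd266db

/-- the invariants after a change on `F` -/
private theorem xm_step {n K k : ℕ} {S : Finset (Fin n × Fin n)} {o i : Fin n → Fin K}
    {X Y : Fin k → Finset (Fin n)} {σ ρ ρ' : Equiv.Perm (Fin n)} {U Q V F : Finset (Fin n)}
    (h : XInv S o i X Y σ ρ U Q V) (h1 : ∀ v ∈ F, (v, ρ' v) ∈ S) (h2 : ∀ v, v ∉ F → ρ' v = ρ v)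
    (h3 : ∀ v ∈ F, o v = i (ρ v)) : XInv S o i X Y σ ρ' U (Q ∪ F) (V \ F) := by
  refine ⟨?_, ?_, ?_, ?_, ?_⟩
  · intro p v hv hQ
    rw [mem_union, not_or] at hQ
    rw [h2 v hQ.2]
    exact h.st p v hv hQ.1
  · intro v hU hQ
    rw [mem_union, not_or] at hQ
    rw [h2 v hQ.2]
    exact h.off v hU hQ.1
  · intro v hv
    by_cases hF : v ∈ F
    · exact Or.inr (h1 v hF)
    · have hV : v ∉ V := fun hV => hv (mem_sdiff.2 ⟨hV, hF⟩)
      rw [h2 v hF]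
      exact h.arc v hV
  · intro v hv
    rw [mem_sdiff] at hv
    rw [h2 v hv.2]
    exact h.vir v hv.1
  · intro v hv
    have h4 := h.cro v hv
    have hF : v ∉ F := fun hF => hv (by rw [← h4]; exact h3 v hF)
    rw [h2 v hF, h4]

/-- removing the virtual arcs -/
private theorem xm_vir (hFix : S_Fix) {n K k : ℕ} {S : Finset (Fin n × Fin n)}
    {o i : Fin n → Fin K} {cl : Fin k → Fin K}
    {X Y : Fin k → Finset (Fin n)} {Γ : Fin k → Fin k → Prop} {h x y ℓ : ℕ} {d c ν : ℝ}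
    (hX : XSys S o i cl X Y Γ h x y d c ν) (hd : 0 < d) (hν : 0 < ν) (hνc : ν ≤ c)
    (hRP : RPp (ν / 2) ℓ) (hk : 1 ≤ k) (hh : 1 ≤ h) (hy : 4 * (ℓ + 1) * (12 * h + 2) ≤ y)
    (hyx : y ≤ x) {σ : Equiv.Perm (Fin n)} {U : Finset (Fin n)} (m : ℕ) :
    ∀ (ρ : Equiv.Perm (Fin n)) (Q V : Finset (Fin n)), V.card ≤ m → XInv S o i X Y σ ρ U Q V →
      8 * ((Q.card : ℝ) + (4 * ℓ + 6) * V.card) ≤ ν * k * y →
      ∃ (ρ1 : Equiv.Perm (Fin n)) (Q1 : Finset (Fin n)), XInv S o i X Y σ ρ1 U Q1 ∅ ∧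
        Q1.card ≤ Q.card + (4 * ℓ + 6) * V.card := by
  classical
  induction m with
  | zero =>
    intro ρ Q V hV hI _
    have hV0 : V = ∅ := by
      rw [← Finset.card_eq_zero]
      omega
    subst hV0
    exact ⟨ρ, Q, hI, by simp⟩
  | succ m ih =>
    intro ρ Q V hV hI hnum
    rcases V.eq_empty_or_nonempty with rfl | ⟨u, hu⟩
    · exact ⟨ρ, Q, hI, by simp⟩
    · have hQ : 8 * (Q.card : ℝ) ≤ ν * k * y := by
        have : (0 : ℝ) ≤ (4 * ℓ + 6) * V.card := by positivity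
        linarith
      obtain ⟨ρ', F, huF, hF, h1, h2, h3⟩ := hFix n K k S o i cl X Y Γ h x y ℓ d c ν hX hd hν hνc
        hRP hk hh hy hyx ρ Q hI.st hQ u (hI.vir u hu)
      have hI' := xm_step hI h1 h2 h3
      have hc1 : (V \ F).card + 1 ≤ V.card := by
        have : V \ F ⊆ V.erase u := by
          intro v hv
          rw [mem_sdiff] at hv
          rw [mem_erase]
          exact ⟨fun h => hv.2 (h ▸ huF), hv.1⟩
        have h4 := card_le_card this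
        rw [card_erase_of_mem hu] at h4
        have h5 : 0 < V.card := card_pos.2 ⟨u, hu⟩
        omega
      have hc2 : (Q ∪ F).card ≤ Q.card + (4 * ℓ + 6) := (card_union_le _ _).trans (by omega)
      have hc3 : (Q ∪ F).card + (4 * ℓ + 6) * (V \ F).card ≤ Q.card + (4 * ℓ + 6) * V.card := by
        calc (Q ∪ F).card + (4 * ℓ + 6) * (V \ F).card
            ≤ Q.card + (4 * ℓ + 6) + (4 * ℓ + 6) * (V \ F).card := by omega
          _ = Q.card + (4 * ℓ + 6) * ((V \ F).card + 1) := by ring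
          _ ≤ Q.card + (4 * ℓ + 6) * V.card := by
            have := Nat.mul_le_mul_left (4 * ℓ + 6) hc1
            omega
      obtain ⟨ρ1, Q1, hI1, hQ1⟩ := ih ρ' (Q ∪ F) (V \ F) (by omega) hI' (by
        have h6 : (((Q ∪ F).card + (4 * ℓ + 6) * (V \ F).card : ℕ) : ℝ) ≤
            ((Q.card + (4 * ℓ + 6) * V.card : ℕ) : ℝ) := by exact_mod_cast hc3
        push_cast at h6
        linarith)
      exact ⟨ρ1, Q1, hI1, hQ1.trans hc3⟩

/-- merging the cycles -/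
private theorem xm_mer (hMinC : S_MinC) (hVTs : S_VTs) {n K k : ℕ} {S : Finset (Fin n × Fin n)}
    {o i : Fin n → Fin K} {cl : Fin k → Fin K}
    {X Y : Fin k → Finset (Fin n)} {Γ : Fin k → Fin k → Prop} {h x y ℓ : ℕ} {d c ν : ℝ}
    (hX : XSys S o i cl X Y Γ h x y d c ν) (hd : 0 < d) (hd1 : d ≤ 1) (hν : 0 < ν) (hνc : ν ≤ c)
    (hRP : RPp (ν / 2) ℓ) (hk : 1 ≤ k) (hh : 1 ≤ h) (hdx : 32 * (h : ℝ) ≤ d ^ 2 * x)
    (hy : 4 * (ℓ + 1) * (12 * h + 2) ≤ y)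
    (hyx : y ≤ x) {σ : Equiv.Perm (Fin n)} {U : Finset (Fin n)} (hXU : ∀ p, X p ⊆ U)
    (hU : ∀ v ∈ U, o v = i (σ v)) (j : ℕ) :
    ∀ (ρ : Equiv.Perm (Fin n)) (Q : Finset (Fin n)), cyc ρ ≤ j → XInv S o i X Y σ ρ U Q ∅ →
      XTyp X h y ρ Q → 8 * ((Q.card : ℝ) + (4 * ℓ + 6) * j) ≤ ν * k * y →
      ∃ (ρ : Equiv.Perm (Fin n)) (F : Finset (Fin n)), 8 * (F.card : ℝ) ≤ ν * k * y ∧
        (∀ v, v ∉ U → v ∉ F → ρ v = σ v) ∧ (∀ v, ρ v = σ v ∨ (v, ρ v) ∈ S) ∧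
        (∀ v, o v ≠ i (σ v) → ρ v = σ v) ∧
        ∀ u v, o u = i (ρ u) → o v = i (ρ v) → o u = o v → ρ.SameCycle u v := by
  classical
  induction j with
  | zero =>
    intro ρ Q hc hI hT hnum
    refine ⟨ρ, Q, by simpa using hnum, hI.off, fun v => hI.arc v (notMem_empty v), hI.cro, ?_⟩
    intro u v hu hv huv
    by_contra hcon
    have hnum' : 8 * (Q.card : ℝ) ≤ ν * k * y := by simpa using hnum
    obtain ⟨ρ', F, hlt, -⟩ := hVTs n K k S o i cl X Y Γ h x y ℓ d c ν hX hd hν hνc hRP hk hh hy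
      hyx ρ Q hI.st hnum' hT u v hu hv huv hcon
    omega
  | succ j ih =>
    intro ρ Q hc hI hT hnum
    have hQ : 8 * (Q.card : ℝ) ≤ ν * k * y := by
      have : (0 : ℝ) ≤ (4 * ℓ + 6) * ((j + 1 : ℕ) : ℝ) := by positivity
      linarith
    by_cases hall : ∀ u v, o u = i (ρ u) → o v = i (ρ v) → o u = o v → ρ.SameCycle u v
    · exact ⟨ρ, Q, hQ, hI.off, fun v => hI.arc v (notMem_empty v), hI.cro, hall⟩
    · push Not at hall
      obtain ⟨u, v, hu, hv, huv, hcon⟩ := hall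
      obtain ⟨ρ', F, hlt, hF, h1, h2, h3⟩ := hVTs n K k S o i cl X Y Γ h x y ℓ d c ν hX hd hν hνc
        hRP hk hh hy hyx ρ Q hI.st hQ hT u v hu hv huv hcon
      have hI' := xm_step hI h1 h2 h3
      rw [empty_sdiff] at hI'
      obtain ⟨ρ'', hI'', hc'', hT''⟩ := hMinC n K k S o i cl X Y Γ h x y d c ν hX hd hd1 hh hdx hyx
        σ ρ' U (Q ∪ F) hXU hU hI'
      refine ih ρ'' (Q ∪ F) (by omega) hI'' hT'' ?_
      have hc2 : (Q ∪ F).card ≤ Q.card + (4 * ℓ + 6) := (card_union_le _ _).trans (by omega)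
      have hc3 : ((Q ∪ F).card : ℝ) ≤ Q.card + (4 * ℓ + 6) := by exact_mod_cast hc2
      push_cast at hnum
      nlinarith

theorem tXM (hMinC : S_MinC) (hCnt : S_Cnt) (hFix : S_Fix) (hVTs : S_VTs) : S_XM := by
  classical
  intro n K k S o i cl X Y Γ h x y ℓ d c ν hX hd hd1 hν hνc hRP hk hh hdx hy hyx σ ρ0 U V hXU hU
    hI0 hnum
  have hy0 : 0 < y := by
    have : 0 < 4 * (ℓ + 1) * (12 * h + 2) := by positivity
    omega
  have hyR : (0 : ℝ) < y := by exact_mod_cast hy0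
  set L : ℝ := 4 * ℓ + 6 with hL
  have hL0 : 0 < L := by rw [hL]; positivity
  set Z : ℝ := k + L * V.card + 2 * h * k + (U \ univ.biUnion X).card + cyc σ +
    8 * x * (L * V.card) / y with hZ
  have hZ0 : 0 ≤ Z := by rw [hZ]; positivity
  have hnum1 : 8 * (((∅ : Finset (Fin n)).card : ℝ) + (4 * ℓ + 6) * V.card) ≤ ν * k * y := by
    rw [card_empty, Nat.cast_zero, zero_add]
    have : 0 ≤ L * Z := by positivity
    linarith
  obtain ⟨ρ1, Q1, hI1, hQ1⟩ := xm_vir hFix hX hd hν hνc hRP hk hh hy hyx V.card ρ0 ∅ V le_rfl hI0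
    hnum1
  rw [card_empty, zero_add] at hQ1
  obtain ⟨ρ2, hI2, hc2, hT2⟩ := hMinC n K k S o i cl X Y Γ h x y d c ν hX hd hd1 hh hdx hyx
    σ ρ1 U Q1 hXU hU hI1
  have hcnt := hCnt n k X h x y σ ρ2 U Q1 hX.dX (fun p => (hX.sz p).2.2) hI2.off hT2
  have hQ1R : (Q1.card : ℝ) ≤ L * V.card := by
    have : ((Q1.card : ℕ) : ℝ) ≤ (((4 * ℓ + 6) * V.card : ℕ) : ℝ) := by exact_mod_cast hQ1
    push_cast at this
    rw [hL]
    exact this
  have hcntR : (y : ℝ) * cyc ρ2 ≤ y * (k + Q1.card + 2 * h * k + (U \ univ.biUnion X).card +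
      cyc σ) + 8 * x * Q1.card := by exact_mod_cast hcnt
  have hcR : (cyc ρ2 : ℝ) ≤ Z := by
    have h1 : (y : ℝ) * Z = y * (k + L * V.card + 2 * h * k + (U \ univ.biUnion X).card +
        cyc σ) + 8 * x * (L * V.card) := by
      rw [hZ]
      field_simp
    have h2 : (y : ℝ) * cyc ρ2 ≤ y * Z := by
      rw [h1]
      refine hcntR.trans (add_le_add ?_ ?_)
      · apply mul_le_mul_of_nonneg_left _ hyR.le
        linarith
      · apply mul_le_mul_of_nonneg_left hQ1R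
        positivity
    exact le_of_mul_le_mul_left h2 hyR
  refine xm_mer hMinC hVTs hX hd hd1 hν hνc hRP hk hh hdx hy hyx hXU hU (cyc ρ2) ρ2 Q1 le_rfl hI2
    hT2 ?_
  have h3 : L * (cyc ρ2 : ℝ) ≤ L * Z := mul_le_mul_of_nonneg_left hcR hL0.le
  have h4 : 8 * ((Q1.card : ℝ) + L * (cyc ρ2 : ℝ)) ≤ 8 * (L * V.card + L * Z) := by linarith
  exact h4.trans hnum

end Pool.Agent.MPd266dbH
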