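import Pool.Agent.Lib.MP_d266db_co.H.SpecR

/-!
# MP_d266db_co, H, XSy: the system of the slices
-/

set_option autoImplicit false

namespace Pool.Agent.MPd266dbH

open Finset Pool.Agent.MPd266db

theorem xsy_dom (n k s Q y : ℕ) (θ ε : ℝ) (f : Fin k → ℕ) (A : Fin k → Prop) [DecidablePred A]
    (hθ : 0 < θ) (hε4 : 4 * ε ≤ 1) (hA : ∀ p, ¬ A p → f p = 0)
    (hf : ∀ p, Q * (f p : ℝ) ≤ (1 + ε) * s)
    (hsum : θ * n ≤ 2 * Q * ∑ p, (f p : ℝ)) (hks : k * s ≤ n) (hs : 0 < s)
    (hy : 16 * Q * (y : ℝ) ≤ θ * s) :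
    2 * (θ / 16) * k ≤ ((univ.filter (fun p => A p ∧ y ≤ f p)).card : ℝ) := by
  classical
  set P := univ.filter (fun p => A p ∧ y ≤ f p) with hP
  have hsR : (0 : ℝ) < s := by exact_mod_cast hs
  have h1 : ∀ p ∈ (univ : Finset (Fin k)), (Q : ℝ) * (f p : ℝ) ≤
      (if p ∈ P then 5 / 4 * (s : ℝ) else 0) + Q * y := by
    intro p _
    by_cases hp : p ∈ P
    · rw [if_pos hp]
      have h2 := hf p
      have h3 : (0 : ℝ) ≤ Q * y := by positivity
      nlinarith
    · rw [if_neg hp, zero_add]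
      by_cases hAp : A p
      · have h4 : f p < y := by
          by_contra h5
          exact hp (mem_filter.mpr ⟨mem_univ _, hAp, by omega⟩)
        have h5 : (f p : ℝ) ≤ y := by exact_mod_cast h4.le
        exact mul_le_mul_of_nonneg_left h5 (by positivity)
      · rw [hA p hAp]
        push_cast
        rw [mul_zero]
        positivity
  have h2 := Finset.sum_le_sum h1
  rw [← Finset.mul_sum, Finset.sum_add_distrib, Finset.sum_ite_mem, Finset.univ_inter,
    Finset.sum_const, Finset.sum_const, Finset.card_univ, Fintype.card_fin, nsmul_eq_mul,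
    nsmul_eq_mul] at h2
  have h3 : (k : ℝ) * s ≤ n := by exact_mod_cast hks
  have h4 : (k : ℝ) * (16 * Q * (y : ℝ)) ≤ k * (θ * s) :=
    mul_le_mul_of_nonneg_left hy (by positivity)
  have h5 : θ * (k * s) ≤ θ * n := mul_le_mul_of_nonneg_left h3 hθ.le
  have h6 : (7 / 8 * θ * k) * s ≤ (5 / 2 * (P.card : ℝ)) * s := by nlinarith
  have h7 : 7 / 8 * θ * k ≤ 5 / 2 * (P.card : ℝ) := le_of_mul_le_mul_right h6 hsR
  have h8 : 0 ≤ θ * k := by positivity
  nlinarith

theorem xsy_ks {n k s : ℕ} (T : Fin k → Finset (Fin n)) (hT : ∀ p, (T p).card = s)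
    (hd : ∀ p p', p ≠ p' → Disjoint (T p) (T p')) : k * s ≤ n := by
  classical
  have h1 : (univ.biUnion T).card = ∑ p, (T p).card :=
    card_biUnion fun p _ p' _ h => hd p p' h
  have h2 : ∑ p, (T p).card = k * s := by
    rw [Finset.sum_congr rfl fun p _ => hT p, Finset.sum_const, card_univ, Fintype.card_fin,
      smul_eq_mul]
  have h3 := card_le_univ (univ.biUnion T)
  rw [Fintype.card_fin] at h3
  omega

theorem tXSy : S_XSy := by
  classical
  intro n K k s Q S o i cl T H X Y Γ β1 d ν ν' τ θ ε h x y hR hown hθ hθ1 hε hε4 hQ hXY hdO hdI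
    hβ h5s h4x hy1 hy hν
  have hks : k * s ≤ n := xsy_ks T hR.sT hR.dT
  have hQR : (1 : ℝ) ≤ Q := by exact_mod_cast hQ
  have hyR : (1 : ℝ) ≤ y := by exact_mod_cast hy1
  have hs : 0 < s := by
    by_contra h0
    have h1 : s = 0 := by omega
    rw [h1] at hy
    push_cast at hy
    rw [mul_zero] at hy
    nlinarith
  have hsR : (0 : ℝ) < s := by exact_mod_cast hs
  have h5R : 5 * (s : ℝ) ≤ 8 * Q * x := by exact_mod_cast h5s
  have h4R : 4 * (Q : ℝ) * x ≤ 3 * s := by exact_mod_cast h4x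
  have hcX : ∀ p, (Q : ℝ) * ((X p).card : ℝ) ≤ (1 + ε) * s := fun p => (hXY p).2.2.2.2
  refine ⟨hown, ?_, ?_, ?_, ?_, ?_, hR.loop, hR.same, ?_, ?_, ?_, ?_⟩
  · intro p
    obtain ⟨_, _, h3, h4, h5⟩ := hXY p
    refine ⟨h3, ?_, ?_⟩
    · have h6 : (Q : ℝ) * x ≤ Q * ((X p).card : ℝ) := by nlinarith
      have h7 := le_of_mul_le_mul_left h6 (by linarith)
      exact_mod_cast h7
    · have h6 : (Q : ℝ) * ((X p).card : ℝ) ≤ Q * (2 * x) := by nlinarith
      have h7 := le_of_mul_le_mul_left h6 (by linarith)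
      exact_mod_cast h7
  · exact fun p p' hp => (hR.dT p p' hp).mono (hXY p).1 (hXY p').1
  · exact fun p p' hp => (hR.dH p p' hp).mono (hXY p).2.1 (hXY p').2.1
  · exact fun p v hv => hR.oT p v ((hXY p).1 hv)
  · exact fun p w hw => hR.iH p w ((hXY p).2.1 hw)
  · intro p p' hΓ A B hA hB hhA hhB
    refine hR.dens p p' hΓ A B (hA.trans (hXY p).1) (hB.trans (hXY p').2.1) ?_ ?_
    · exact hβ.trans (by exact_mod_cast hhA)
    · exact hβ.trans (by exact_mod_cast hhB)
  · intro v
    refine ⟨univ.filter (fun p => cl p = o v ∧ y ≤ ((Y p).filter (fun w => (v, w) ∈ S)).card),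
      fun p hp => (mem_filter.mp hp).2, ?_⟩
    refine xsy_dom n k s Q y θ ε (fun p => ((Y p).filter (fun w => (v, w) ∈ S)).card)
      (fun p => cl p = o v) hθ hε4 ?_ ?_ (hdO v) hks hs hy
    · intro p hp
      rw [card_eq_zero, filter_eq_empty_iff]
      intro w hw hS
      have h1 := hown (v, w) hS
      have h2 := hR.iH p w ((hXY p).2.1 hw)
      exact hp (h2.symm.trans h1.symm)
    · intro p
      have h1 : (((Y p).filter (fun w => (v, w) ∈ S)).card : ℝ) ≤ ((X p).card : ℝ) := by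
        rw [(hXY p).2.2.1]
        exact_mod_cast card_filter_le _ _
      exact (mul_le_mul_of_nonneg_left h1 (by positivity)).trans (hcX p)
  · intro w
    refine ⟨univ.filter (fun p => cl p = i w ∧ y ≤ ((X p).filter (fun v => (v, w) ∈ S)).card),
      fun p hp => (mem_filter.mp hp).2, ?_⟩
    refine xsy_dom n k s Q y θ ε (fun p => ((X p).filter (fun v => (v, w) ∈ S)).card)
      (fun p => cl p = i w) hθ hε4 ?_ ?_ (hdI w) hks hs hy
    · intro p hp
      rw [card_eq_zero, filter_eq_empty_iff]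
      intro v hv hS
      have h1 := hown (v, w) hS
      have h2 := hR.oT p v ((hXY p).1 hv)
      exact hp (h2.symm.trans h1)
    · intro p
      have h1 : (((X p).filter (fun v => (v, w) ∈ S)).card : ℝ) ≤ ((X p).card : ℝ) := by
        exact_mod_cast card_filter_le _ _
      exact (mul_le_mul_of_nonneg_left h1 (by positivity)).trans (hcX p)
  · intro a B hB h1 h2
    obtain ⟨W, hW1, hW2, hW3⟩ := hR.exp a B hB h1 h2
    exact ⟨W, hW1, hW2, (mul_le_mul_of_nonneg_right hν (by positivity)).trans hW3⟩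

end Pool.Agent.MPd266dbH
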