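import Pool.Agent.Lib.MP_d266db_co.H.SpecF

/-!
# MP_d266db_co, H: the decomposition for given classes and parts
-/

set_option autoImplicit false

namespace Pool.Agent.MPd266dbH

open Finset Pool.Agent.MPd266db

/-- a permutation which increases a rank along a whole cycle does not exist -/
theorem dca_rk {n : ℕ} (σ : Equiv.Perm (Fin n)) (rk : Fin n → ℕ) (v : Fin n)
    (h : ∀ w, σ.SameCycle v w → rk w < rk (σ w)) : False := by
  have key : ∀ q : ℕ, rk v + q ≤ rk ((σ ^ q) v) := by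
    intro q
    induction q with
    | zero => simp
    | succ q ih =>
      have h1 : σ.SameCycle v ((σ ^ q) v) := ⟨q, by simp⟩
      have h2 := h _ h1
      have h3 : (σ ^ (q + 1)) v = σ ((σ ^ q) v) := by
        rw [pow_succ', Equiv.Perm.mul_apply]
      rw [h3]
      omega
  have hpos : 0 < orderOf σ := orderOf_pos σ
  have h1 := key (orderOf σ)
  rw [pow_orderOf_eq_one, Equiv.Perm.one_apply] at h1
  omega

/-- the number of permutations left -/
theorem dca_num (M T d t r n : ℕ) (α ε γ δ g : ℝ) (hε : 0 < ε) (hε1 : ε ≤ 1)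
    (hM : 8 ≤ ε * (M + 1)) (hMδ : 8 * (M * δ) ≤ ε * α) (hg : 0 < g)
    (hγα : 8 * γ ≤ ε * α * g) (har : α * n ≤ r) (hT : 1 ≤ T) (hTδ : (T : ℝ) ≤ δ * n)
    (hd : (1 - 2 * (ε / 8)) * r / ((M + 1) * T) < (d : ℝ) + 1)
    (ht : g * ((M * T * d : ℕ) : ℝ) ≤ g * t + γ * n) : (1 - ε) * r ≤ (t : ℝ) := by
  have hM0 : (0 : ℝ) ≤ M := Nat.cast_nonneg M
  have hT0 : (1 : ℝ) ≤ T := by exact_mod_cast hT
  have hr0 : (0 : ℝ) ≤ r := Nat.cast_nonneg r
  have hn0 : (0 : ℝ) ≤ n := Nat.cast_nonneg n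
  have hMT : (0 : ℝ) < (M + 1) * T := by positivity
  rw [div_lt_iff₀ hMT] at hd
  -- gamma n / g
  have h1 : γ * n ≤ g * (ε / 8 * r) := by
    have : 8 * γ * n ≤ ε * α * g * n := mul_le_mul_of_nonneg_right hγα hn0
    have h2 : ε * g * (α * n) ≤ ε * g * r := mul_le_mul_of_nonneg_left har (by positivity)
    nlinarith
  have h2 : ((M * T * d : ℕ) : ℝ) ≤ t + ε / 8 * r := by
    have : g * ((M * T * d : ℕ) : ℝ) ≤ g * (t + ε / 8 * r) := by
      rw [mul_add]; linarith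
    exact le_of_mul_le_mul_left this hg
  have h3 : ((M * T * d : ℕ) : ℝ) = M * T * d := by push_cast; ring
  rw [h3] at h2
  -- M T ≤ ε/8 r
  have h4 : (M : ℝ) * T ≤ ε / 8 * r := by
    have h5 : (M : ℝ) * T ≤ M * (δ * n) := mul_le_mul_of_nonneg_left hTδ hM0
    have h6 : 8 * (M * δ) * n ≤ ε * α * n := mul_le_mul_of_nonneg_right hMδ hn0
    have h7 : ε * (α * n) ≤ ε * r := mul_le_mul_of_nonneg_left har hε.le
    nlinarith
  -- M/(M+1) (1-2ε') r
  have h5 : (M : ℝ) * ((1 - 2 * (ε / 8)) * r) ≤ (M + 1) * (M * T * d + M * T) := by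
    have := mul_le_mul_of_nonneg_left hd.le hM0
    nlinarith
  have h6 : (M + 1 : ℝ) * ((1 - ε / 8) * ((1 - 2 * (ε / 8)) * r)) ≤
      M * ((1 - 2 * (ε / 8)) * r) := by
    have h7 : (0 : ℝ) ≤ (1 - 2 * (ε / 8)) * r := by
      apply mul_nonneg _ hr0; linarith
    have h8 : (M + 1 : ℝ) * (1 - ε / 8) ≤ M := by nlinarith
    calc (M + 1 : ℝ) * ((1 - ε / 8) * ((1 - 2 * (ε / 8)) * r)) =
        ((M + 1 : ℝ) * (1 - ε / 8)) * ((1 - 2 * (ε / 8)) * r) := by ring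
      _ ≤ _ := mul_le_mul_of_nonneg_right h8 h7
  have h7 : (1 - ε / 8) * ((1 - 2 * (ε / 8)) * r) ≤ M * T * d + M * T := by
    have : (M + 1 : ℝ) * ((1 - ε / 8) * ((1 - 2 * (ε / 8)) * r)) ≤
        (M + 1) * (M * T * d + M * T) := h6.trans h5
    exact le_of_mul_le_mul_left this (by positivity)
  have h8 : (0 : ℝ) ≤ ε * ε * r := by positivity
  have h9 : (0 : ℝ) ≤ ε * r := by positivity
  nlinarith

theorem tDcA (hLnC : S_LnC) (hNrR : S_NrR) (hFct : S_Fct) (hDis : S_Dis) : S_DcA := by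
  intro n r K K0 M T R S o i C P α η ε γ δ g ν hn hReg har hα hη hε hε1 hK hKK0 hM hγ hδ hδε hMδ
    hδ2 hg hδν hγg hγα hγη hcut hcrs hRob hod hid hO hCc hrk hlow hT hTδ hS hP hSP hPP hPcut hPcyc
    hSe hSo hSi
  have hK0 : 1 ≤ K0 := hK.trans hKK0
  have hKR : (1 : ℝ) ≤ K := by exact_mod_cast hK
  have hK0R : (1 : ℝ) ≤ K0 := by exact_mod_cast hK0
  have hKK0R : (K : ℝ) ≤ K0 := by exact_mod_cast hKK0
  have hnR : (1 : ℝ) ≤ n := by exact_mod_cast hn
  have hM0 : (0 : ℝ) ≤ M := Nat.cast_nonneg M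
  have hT0 : (1 : ℝ) ≤ T := by exact_mod_cast hT
  have hr0 : (0 : ℝ) ≤ r := Nat.cast_nonneg r
  have hMT : (0 : ℝ) < (M + 1) * T := by positivity
  have hnum0 : (0 : ℝ) ≤ (1 - 2 * (ε / 8)) * r / ((M + 1) * T) := by
    apply div_nonneg _ hMT.le
    apply mul_nonneg _ hr0; linarith
  obtain ⟨d, hd⟩ : ∃ d : ℕ, d = ⌊(1 - 2 * (ε / 8)) * r / ((M + 1) * T)⌋₊ := ⟨_, rfl⟩
  have hd1 : (d : ℝ) ≤ (1 - 2 * (ε / 8)) * r / ((M + 1) * T) := by
    rw [hd]; exact Nat.floor_le hnum0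
  have hd2 : (1 - 2 * (ε / 8)) * r / ((M + 1) * T) < (d : ℝ) + 1 := by
    rw [hd]; exact Nat.lt_floor_add_one _
  rw [le_div_iff₀ hMT] at hd1
  -- the cuts
  have hcutd : ∀ m s, ∀ X Y : Finset (Fin n), n + 1 ≤ X.card + Y.card →
      (d : ℝ) * ((X.card : ℝ) + Y.card - n) ≤ eb (P m s) X Y := by
    intro m s X Y hXY
    have ht : (0 : ℝ) ≤ (X.card : ℝ) + Y.card - n := by
      have : ((n + 1 : ℕ) : ℝ) ≤ ((X.card + Y.card : ℕ) : ℝ) := by exact_mod_cast hXY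
      push_cast at this
      linarith
    have h1 := hPcut m s X Y hXY
    have h2 := hlow m X Y hXY
    have hδ1 : (0 : ℝ) ≤ 1 - δ := by linarith
    have h3 := mul_le_mul_of_nonneg_left h2 hδ1
    have h4 := h3.trans h1
    have hrt : (0 : ℝ) ≤ r * ((X.card : ℝ) + Y.card - n) := mul_nonneg hr0 ht
    have h5 : (1 - 2 * (ε / 8)) * (r * ((X.card : ℝ) + Y.card - n)) ≤
        (1 - δ) * ((1 - ε / 8) * r * ((X.card : ℝ) + Y.card - n)) := by
      have h6 : (1 - 2 * (ε / 8)) ≤ (1 - δ) * (1 - ε / 8) := by nlinarith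
      have := mul_le_mul_of_nonneg_right h6 hrt
      nlinarith
    have h7 := mul_le_mul_of_nonneg_right hd1 ht
    have h8 : ((M + 1 : ℝ) * T) * (d * ((X.card : ℝ) + Y.card - n)) ≤
        ((M + 1 : ℝ) * T) * eb (P m s) X Y := by
      calc ((M + 1 : ℝ) * T) * (d * ((X.card : ℝ) + Y.card - n)) =
          (d : ℝ) * ((M + 1) * T) * ((X.card : ℝ) + Y.card - n) := by ring
        _ ≤ (1 - 2 * (ε / 8)) * r * ((X.card : ℝ) + Y.card - n) := h7
        _ = (1 - 2 * (ε / 8)) * (r * ((X.card : ℝ) + Y.card - n)) := by ring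
        _ ≤ _ := h5
        _ ≤ _ := h4
    exact le_of_mul_le_mul_left h8 hMT
  obtain ⟨τ, hτP, hτd⟩ := hFct n d M T P hPP hcutd
  have hownR : own o i R ⊆ R := filter_subset _ _
  have hcrsR : crs o i R ⊆ R := filter_subset _ _
  have hPR : ∀ m s, P m s ⊆ R := by
    intro m s e he
    rcases mem_union.1 (hP m s he) with h | h
    · exact hownR h
    · exact hcrsR (hCc m h)
  have hτR : ∀ j v, (v, τ j v) ∈ R := by
    intro j v
    obtain ⟨m, s, h⟩ := hτP j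
    exact hPR m s (h v)
  have hτS : ∀ j v, (v, τ j v) ∉ S := by
    intro j v hv
    obtain ⟨m, s, h⟩ := hτP j
    exact (Finset.disjoint_left.1 (hSP m s)) hv (h v)
  obtain ⟨t, f, hfinj, ht, hcross⟩ := hDis n (M * T * d) K R o i τ γ g hn hg hτR hτd hcrs
  have htr := dca_num M T d t r n α ε γ δ g hε hε1 hM hMδ hg hγα har hT hTδ hd2 ht
  refine ⟨S, r / (M + 1), t, fun j => τ (f j), hS.trans hownR, htr,
    fun j v => ⟨hτR _ _, hτS _ _⟩, ?_, ?_, ?_, ?_⟩
  · intro j j' hjj v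
    exact hτd _ _ (fun h => hjj (hfinj h)) v
  · exact hNrR n r K K0 M R S o i α γ δ g _ ν hn hReg har hα hK hKK0 hγ hδ hδ2 hg hδν hγg hS hcrs
      hRob hod hid hSe hSo hSi
  · intro j
    refine ⟨?_, hcross j, ?_⟩
    · obtain ⟨m, s, h⟩ := hτP (f j)
      exact hPcyc m s _ h
    · intro v
      by_contra hcon
      push Not at hcon
      obtain ⟨m, s, h⟩ := hτP (f j)
      obtain ⟨rk, hrk'⟩ := hrk m
      apply dca_rk (τ (f j)) rk v
      intro w hw
      have h1 := hcon w hw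
      have h2 := hP m s (h w)
      rcases mem_union.1 h2 with h3 | h3
      · exact absurd (mem_filter.1 h3).2 h1
      · exact hrk' _ h3
  · apply hLnC n K R o i α η γ _ hα hη hγ (by positivity) _ hcut hcrs hO
    have h1 : (K : ℝ) ^ 2 * (η * α ^ 2 / (16 * K0 ^ 2)) ≤ η * α ^ 2 / 16 := by
      have h2 : (K : ℝ) ^ 2 ≤ (K0 : ℝ) ^ 2 := by
        apply pow_le_pow_left₀ (by linarith) hKK0R
      have hpos : (0 : ℝ) < 16 * K0 ^ 2 := by positivity
      rw [← mul_div_assoc, div_le_div_iff₀ hpos (by norm_num)]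
      have h3 : (0 : ℝ) ≤ η * α ^ 2 := by positivity
      have h4 := mul_le_mul_of_nonneg_right h2 h3
      nlinarith
    have h5 : (0 : ℝ) < η * α ^ 2 := by positivity
    linarith

end Pool.Agent.MPd266dbH
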