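import Pool.Agent.Lib.MP_d266db_co.H.SpecR

/-!
# MP_d266db_co, H, HlD: Hall's theorem with deficiency
-/

set_option autoImplicit false

namespace Pool.Agent.MPd266dbH

open Finset Pool.Agent.MPd266db

theorem tHlD : S_HlD := by
  classical
  intro kt kh m D hD
  let t : Fin kt → Finset (Fin kh ⊕ Fin m) := fun p =>
    univ.filter (fun x => Sum.elim (fun q => (p, q) ∈ D) (fun _ => True) x)
  have hall : ∀ s : Finset (Fin kt), s.card ≤ (s.biUnion t).card := by
    intro s
    rcases s.eq_empty_or_nonempty with rfl | ⟨p₀, hp₀⟩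
    · simp
    have h1 : ((((D.filter (fun e => e.1 ∈ s)).image Prod.snd).image
        (Sum.inl : Fin kh → Fin kh ⊕ Fin m)) ∪
        (univ : Finset (Fin m)).image (Sum.inr : Fin m → Fin kh ⊕ Fin m)) ⊆ s.biUnion t := by
      intro x hx
      rw [Finset.mem_biUnion]
      rcases Finset.mem_union.mp hx with hx | hx
      · obtain ⟨q, hq, rfl⟩ := Finset.mem_image.mp hx
        obtain ⟨e, he, rfl⟩ := Finset.mem_image.mp hq
        obtain ⟨heD, hes⟩ := Finset.mem_filter.mp he
        exact ⟨e.1, hes, Finset.mem_filter.mpr ⟨Finset.mem_univ _, heD⟩⟩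
      · obtain ⟨j, _, rfl⟩ := Finset.mem_image.mp hx
        exact ⟨p₀, hp₀, Finset.mem_filter.mpr ⟨Finset.mem_univ _, trivial⟩⟩
    have h2 := Finset.card_le_card h1
    rw [Finset.card_union_of_disjoint, Finset.card_image_of_injective _ Sum.inl_injective,
      Finset.card_image_of_injective _ Sum.inr_injective, Finset.card_univ (α := Fin m),
      Fintype.card_fin] at h2
    · exact (hD s).trans h2
    · rw [Finset.disjoint_left]
      intro x hx hx'
      obtain ⟨q, _, rfl⟩ := Finset.mem_image.mp hx
      obtain ⟨j, _, hj⟩ := Finset.mem_image.mp hx'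
      exact absurd hj (by simp)
  obtain ⟨F, hF, hFt⟩ := (Finset.all_card_le_biUnion_card_iff_exists_injective t).mp hall
  let P : Finset (Fin kt) := univ.filter (fun p => ∃ q, F p = Sum.inl q)
  have hP : ∀ x : P, ∃ q, F x.1 = Sum.inl q := fun x => (Finset.mem_filter.mp x.2).2
  choose G hG using hP
  refine ⟨P.card, fun x => (P.equivFin.symm x).1, fun x => G (P.equivFin.symm x), ?_, ?_, ?_, ?_⟩
  · intro x y hxy
    exact P.equivFin.symm.injective (Subtype.ext hxy)
  · intro x y hxy
    apply P.equivFin.symm.injective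
    apply Subtype.ext
    apply hF
    rw [hG, hG, show G (P.equivFin.symm x) = G (P.equivFin.symm y) from hxy]
  · intro x
    have h1 := (Finset.mem_filter.mp (hFt (P.equivFin.symm x).1)).2
    rw [hG] at h1
    exact h1
  · have h1 : (univ.filter (fun p => ¬ ∃ q, F p = Sum.inl q)).card ≤
        ((univ : Finset (Fin m)).image (Sum.inr : Fin m → Fin kh ⊕ Fin m)).card := by
      apply Finset.card_le_card_of_injOn F
      · intro p hp
        have hp' := (Finset.mem_filter.mp hp).2
        rw [Finset.mem_coe, Finset.mem_image]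
        rcases hp0 : F p with q | j
        · exact absurd ⟨q, hp0⟩ hp'
        · exact ⟨j, Finset.mem_univ _, rfl⟩
      · exact hF.injOn
    rw [Finset.card_image_of_injective _ Sum.inr_injective, Finset.card_univ,
      Fintype.card_fin] at h1
    have h2 := Finset.card_filter_add_card_filter_not (s := (univ : Finset (Fin kt)))
      (fun p => ∃ q, F p = Sum.inl q)
    rw [Finset.card_univ, Fintype.card_fin] at h2
    have h3 : P.card = (univ.filter (fun p => ∃ q, F p = Sum.inl q)).card := rfl
    omega

end Pool.Agent.MPd266dbH
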