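import Pool.Agent.Lib.MP_d266db_co.H.SpecR

/-!
# MP_d266db_co, H, Mat: the matching of the clusters
-/

set_option autoImplicit false

namespace Pool.Agent.MPd266dbH

open Finset Pool.Agent.MPd266db

theorem mat_right {n : ℕ} {ι : Type} [DecidableEq ι] (E : Finset (Fin n × Fin n))
    (X : Finset (Fin n)) (B : Finset ι) (H : ι → Finset (Fin n)) :
    eb E X (B.biUnion H) ≤ ∑ q ∈ B, eb E X (H q) := by
  classical
  unfold eb
  refine le_trans (card_le_card ?_) card_biUnion_le
  intro e he
  simp only [mem_filter, mem_biUnion] at he ⊢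
  obtain ⟨h1, h2, q, hq, h3⟩ := he
  exact ⟨q, hq, h1, h2, h3⟩

theorem mat_left {n : ℕ} {ι : Type} [DecidableEq ι] (E : Finset (Fin n × Fin n))
    (Y : Finset (Fin n)) (A : Finset ι) (T : ι → Finset (Fin n)) :
    eb E (A.biUnion T) Y ≤ ∑ p ∈ A, eb E (T p) Y := by
  classical
  unfold eb
  refine le_trans (card_le_card ?_) card_biUnion_le
  intro e he
  simp only [mem_filter, mem_biUnion] at he ⊢
  obtain ⟨h1, ⟨p, hp, h2⟩, h3⟩ := he
  exact ⟨p, hp, h1, h2, h3⟩

theorem mat_union {n : ℕ} (E : Finset (Fin n × Fin n)) (X Y Y' : Finset (Fin n)) :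
    eb E X (Y ∪ Y') ≤ eb E X Y + eb E X Y' := by
  classical
  unfold eb
  refine le_trans (card_le_card ?_) (card_union_le _ _)
  intro e he
  simp only [mem_filter, mem_union] at he ⊢
  tauto

theorem mat_card {n k s : ℕ} (T : Fin k → Finset (Fin n)) (A : Finset (Fin k))
    (h1 : ∀ p, (T p).card = s) (h2 : ∀ p p', p ≠ p' → Disjoint (T p) (T p')) :
    (A.biUnion T).card = A.card * s := by
  rw [card_biUnion (fun p _ p' _ h => h2 p p' h), sum_congr rfl (fun p _ => h1 p), sum_const,
    smul_eq_mul]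

theorem tMat (hNrS : S_NrS) (hHlD : S_HlD) : S_Mat := by
  classical
  intro n K kt kh s S o i T H ct ch D β1 d τ θ ρ hC hn hs hτ hθ hθ1 hρθ hρn hNr
  have hn0 : (0 : ℝ) < n := by exact_mod_cast hn
  have hs0 : (0 : ℝ) < s := by exact_mod_cast hs
  have hρ0 : 0 ≤ ρ := le_trans (by positivity) hρθ
  have hnn : (0 : ℝ) ≤ (n : ℝ) ^ 2 := by positivity
  -- the main inequality
  have hmain : ∀ A : Finset (Fin kt),
      ρ * ((A.card : ℝ) * s) ≤
        ρ * ((((D.filter (fun e => e.1 ∈ A)).image Prod.snd).card : ℝ) * s) +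
          6 * τ * (n : ℝ) ^ 2 := by
    intro A
    set N := (D.filter (fun e => e.1 ∈ A)).image Prod.snd with hN
    have hTA : ((A.biUnion T).card : ℝ) = A.card * s := by
      rw [mat_card T A hC.sT hC.dT]; push_cast; ring
    have hHN : ((N.biUnion H).card : ℝ) = N.card * s := by
      rw [mat_card H N hC.sH hC.dH]; push_cast; ring
    have h1 := (hNrS n S ρ τ hρ0 hρn hτ.le hNr (A.biUnion T)).1
    have h2 := (hNrS n S ρ τ hρ0 hρn hτ.le hNr (N.biUnion H)).2
    have h1' := (abs_le.1 h1).1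
    have h2' := (abs_le.1 h2).2
    have hsplit : (univ : Finset (Fin n)) ⊆
        (univ \ univ.biUnion H) ∪ (N.biUnion H ∪ (univ \ N).biUnion H) := by
      intro w _
      by_cases hw : w ∈ univ.biUnion H
      · rw [mem_biUnion] at hw
        obtain ⟨q, _, hq⟩ := hw
        rw [mem_union, mem_union]
        right
        by_cases hqN : q ∈ N
        · left; exact mem_biUnion.2 ⟨q, hqN, hq⟩
        · right; exact mem_biUnion.2 ⟨q, mem_sdiff.2 ⟨mem_univ _, hqN⟩, hq⟩
      · rw [mem_union]
        left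
        exact mem_sdiff.2 ⟨mem_univ _, hw⟩
    have h3 : eb S (A.biUnion T) univ ≤ eb S (A.biUnion T) (univ \ univ.biUnion H) +
        (eb S (A.biUnion T) (N.biUnion H) + eb S (A.biUnion T) ((univ \ N).biUnion H)) := by
      refine le_trans (eb_mono (Subset.refl _) (Subset.refl _) hsplit) ?_
      refine le_trans (mat_union _ _ _ _) ?_
      exact Nat.add_le_add_left (mat_union _ _ _ _) _
    have h4 : (eb S (A.biUnion T) (univ \ univ.biUnion H) : ℝ) ≤ τ * (n : ℝ) ^ 2 := by
      have h5 : eb S (A.biUnion T) (univ \ univ.biUnion H) ≤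
          n * (univ \ univ.biUnion H).card := by
        refine le_trans (eb_le_card_mul _ _ _) ?_
        refine Nat.mul_le_mul_right _ ?_
        simpa using card_le_univ (A.biUnion T)
      have h6 : (eb S (A.biUnion T) (univ \ univ.biUnion H) : ℝ) ≤
          n * ((univ \ univ.biUnion H).card : ℝ) := by exact_mod_cast h5
      have h7 := mul_le_mul_of_nonneg_left hC.uH hn0.le
      nlinarith
    have h5 : (eb S (A.biUnion T) (N.biUnion H) : ℝ) ≤ ∑ w ∈ N.biUnion H, (idg S w : ℝ) := by
      have h6 : eb S (A.biUnion T) (N.biUnion H) ≤ ∑ w ∈ N.biUnion H, idg S w := by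
        rw [← eb_univ_left]
        exact eb_mono (Subset.refl _) (subset_univ _) (Subset.refl _)
      exact_mod_cast h6
    have h6 : (eb S (A.biUnion T) ((univ \ N).biUnion H) : ℝ) ≤ τ * (n : ℝ) ^ 2 := by
      have h7 : eb S (A.biUnion T) ((univ \ N).biUnion H) ≤
          ∑ e ∈ A ×ˢ (univ \ N), eb S (T e.1) (H e.2) := by
        refine le_trans (mat_left _ _ _ _) ?_
        rw [sum_product]
        exact sum_le_sum (fun p _ => mat_right _ _ _ _)
      have h8 : (∑ e ∈ A ×ˢ (univ \ N), (eb S (T e.1) (H e.2) : ℝ)) ≤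
          ∑ e ∈ Dᶜ, (eb S (T e.1) (H e.2) : ℝ) := by
        refine sum_le_sum_of_subset_of_nonneg ?_ (fun _ _ _ => Nat.cast_nonneg _)
        intro e he
        rw [mem_product] at he
        rw [mem_compl]
        intro hD
        refine (mem_sdiff.1 he.2).2 ?_
        rw [hN, mem_image]
        exact ⟨e, mem_filter.2 ⟨hD, he.1⟩, rfl⟩
      have h9 : (eb S (A.biUnion T) ((univ \ N).biUnion H) : ℝ) ≤
          ∑ e ∈ A ×ˢ (univ \ N), (eb S (T e.1) (H e.2) : ℝ) := by exact_mod_cast h7
      exact h9.trans (h8.trans hC.rest)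
    have h7 : (eb S (A.biUnion T) univ : ℝ) ≤ (eb S (A.biUnion T) (univ \ univ.biUnion H) : ℝ) +
        ((eb S (A.biUnion T) (N.biUnion H) : ℝ) +
          (eb S (A.biUnion T) ((univ \ N).biUnion H) : ℝ)) := by exact_mod_cast h3
    have h8 : (eb S (A.biUnion T) univ : ℝ) = ∑ v ∈ A.biUnion T, (od S v : ℝ) := by
      rw [eb_univ_right]; push_cast; rfl
    rw [h8] at h7
    rw [hTA] at h1'
    rw [hHN] at h2'
    linarith
  set m : ℕ := ⌊6 * τ * n / (θ * s)⌋₊ with hm
  have hdef : ∀ A : Finset (Fin kt), A.card ≤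
      ((D.filter (fun e => e.1 ∈ A)).image Prod.snd).card + m := by
    intro A
    set N := (D.filter (fun e => e.1 ∈ A)).image Prod.snd with hN
    rcases le_total A.card N.card with h | h
    · omega
    · have h1 := hmain A
      have h2 : ((A.card - N.card : ℕ) : ℝ) = (A.card : ℝ) - N.card := by
        push_cast [Nat.cast_sub h]; ring
      have h3 : A.card - N.card ≤ m := by
        rw [hm]
        refine Nat.le_floor ?_
        rw [le_div_iff₀ (by positivity), h2]
        have h4 : (0 : ℝ) ≤ (A.card : ℝ) - N.card := by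
          rw [← h2]; exact Nat.cast_nonneg _
        have h5 : θ * n * (((A.card : ℝ) - N.card) * s) ≤ ρ * (((A.card : ℝ) - N.card) * s) :=
          mul_le_mul_of_nonneg_right hρθ (by positivity)
        have h6 : ρ * (((A.card : ℝ) - N.card) * s) ≤ 6 * τ * (n : ℝ) ^ 2 := by
          have : ρ * (((A.card : ℝ) - N.card) * s) =
            ρ * ((A.card : ℝ) * s) - ρ * ((N.card : ℝ) * s) := by ring
          rw [this]; linarith
        have h7 : n * (((A.card : ℝ) - N.card) * (θ * s)) ≤ n * (6 * τ * n) := by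
          have e1 : n * (((A.card : ℝ) - N.card) * (θ * s)) =
            θ * n * (((A.card : ℝ) - N.card) * s) := by ring
          have e2 : n * (6 * τ * n) = 6 * τ * (n : ℝ) ^ 2 := by ring
          rw [e1, e2]; linarith
        exact le_of_mul_le_mul_left h7 hn0
      omega
  obtain ⟨k, f, g, hf, hg, hfg, hk⟩ := hHlD kt kh m D hdef
  refine ⟨k, f, g, hf, hg, hfg, ?_⟩
  have hTc : (univ.biUnion T).card = kt * s := by
    rw [mat_card T univ hC.sT hC.dT, card_univ, Fintype.card_fin]
  have h1 : (univ \ univ.biUnion T).card + (univ.biUnion T).card = n := by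
    rw [card_sdiff_add_card_eq_card (subset_univ _), card_univ, Fintype.card_fin]
  have h2 : (n : ℝ) ≤ τ * n + kt * s := by
    have h3 : ((univ \ univ.biUnion T).card : ℝ) + ((univ.biUnion T).card : ℝ) = n := by
      exact_mod_cast h1
    have h4 := hC.uT
    rw [hTc] at h3
    push_cast at h3
    linarith
  have h3 : (kt : ℝ) ≤ k + m := by exact_mod_cast hk
  have h4 : (m : ℝ) ≤ 6 * τ * n / (θ * s) := Nat.floor_le (by positivity)
  have h5 : (m : ℝ) * s ≤ 6 * τ * n / θ := by
    have h6 := mul_le_mul_of_nonneg_right h4 hs0.le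
    have h7 : 6 * τ * n / (θ * s) * s = 6 * τ * n / θ := by
      field_simp
    rwa [h7] at h6
  have h6 : (kt : ℝ) * s ≤ k * s + m * s := by
    have := mul_le_mul_of_nonneg_right h3 hs0.le
    linarith
  have h7 : τ ≤ τ / θ := by
    rw [le_div_iff₀ hθ]; nlinarith
  have h8 : τ * n ≤ τ / θ * n := mul_le_mul_of_nonneg_right h7 hn0.le
  have h9 : (1 - 7 * τ / θ) * n = n - τ / θ * n - 6 * τ * n / θ := by ring
  rw [h9]
  linarith

end Pool.Agent.MPd266dbH
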