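import Pool.Agent.Lib.MP_d266db_co.H.SpecQ

/-!
# MP_d266db_co, H, PrB: no permutation with many cycles in a random part (helper43)
-/

set_option autoImplicit false

namespace Pool.Agent.MPd266dbH

open Finset Pool.Agent.MPd266db

private theorem prb_B (M T s : ℕ) :
    (univ.filter (fun l : Fin ((M + 1) * T) => (l : ℕ) % T = s)).card ≤ M + 1 := by
  have h := Finset.card_le_card_of_injOn
    (s := univ.filter (fun l : Fin ((M + 1) * T) => (l : ℕ) % T = s)) (t := range (M + 1))
    (fun l => (l : ℕ) / T) (by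
      intro l _
      have hl : (l : ℕ) < T * (M + 1) := lt_of_lt_of_eq l.2 (mul_comm _ _)
      rw [mem_coe, mem_range]
      exact Nat.div_lt_of_lt_mul hl) (by
      intro l hl l' hl' h
      rw [mem_coe, mem_filter] at hl hl'
      have h1 := Nat.div_add_mod (l : ℕ) T
      have h2 := Nat.div_add_mod (l' : ℕ) T
      apply Fin.ext
      have h3 : (l : ℕ) / T = (l' : ℕ) / T := h
      rw [← h1, ← h2, h3, hl.2, hl'.2])
  rw [card_range] at h
  exact h

private theorem prb_one (n M T s : ℕ) (σ : Equiv.Perm (Fin n)) :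
    (univ.filter (fun c : Fin n × Fin n → Fin ((M + 1) * T) =>
      ∀ v, (c (v, σ v) : ℕ) % T = s)).card * T ^ n ≤ ((M + 1) * T) ^ (n * n) := by
  classical
  set B : Finset (Fin ((M + 1) * T)) := univ.filter (fun l => (l : ℕ) % T = s) with hB
  have hsub : (univ.filter (fun c : Fin n × Fin n → Fin ((M + 1) * T) =>
      ∀ v, (c (v, σ v) : ℕ) % T = s)) ⊆
      Fintype.piFinset (fun e : Fin n × Fin n => if σ e.1 = e.2 then B else univ) := by
    intro c hc
    rw [mem_filter] at hc
    rw [Fintype.mem_piFinset]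
    rintro ⟨a, b⟩
    by_cases hab : σ a = b
    · subst hab
      simp only [if_true]
      rw [hB, mem_filter]
      exact ⟨mem_univ _, hc.2 a⟩
    · simp only [hab, if_false]
      exact mem_univ _
  have hcard := Finset.card_le_card hsub
  rw [Fintype.card_piFinset, Fintype.prod_prod_type] at hcard
  have hT : (T : ℕ) ^ n = ∏ a : Fin n, ∏ b : Fin n, (if σ a = b then T else 1) := by
    have : ∀ a : Fin n, ∏ b : Fin n, (if σ a = b then T else 1) = T := by
      intro a
      rw [Finset.prod_ite_eq, if_pos (mem_univ _)]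
    rw [Finset.prod_congr rfl fun a _ => this a, Finset.prod_const, Finset.card_univ,
      Fintype.card_fin]
  refine (Nat.mul_le_mul_right _ hcard).trans ?_
  rw [hT, ← Finset.prod_mul_distrib]
  have hrhs : ((M + 1) * T) ^ (n * n) = ∏ a : Fin n, ∏ b : Fin n, ((M + 1) * T) := by
    rw [Finset.prod_const, Finset.prod_const, Finset.card_univ, Fintype.card_fin, ← pow_mul]
  rw [hrhs]
  refine Finset.prod_le_prod' fun a _ => ?_
  rw [← Finset.prod_mul_distrib]
  refine Finset.prod_le_prod' fun b _ => ?_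
  by_cases hab : σ a = b
  · simp only [hab, if_true]
    exact Nat.mul_le_mul_right _ (prb_B M T s)
  · simp only [hab, if_false, mul_one, Finset.card_univ, Fintype.card_fin]
    exact le_rfl

theorem tPrB (hBad : S_Bad) : S_PrB := by
  intro n k M T m s A0 Cm hk hm hs hdis
  classical
  have hsub : (univ.filter (fun c : Fin n × Fin n → Fin ((M + 1) * T) =>
      ∃ σ : Equiv.Perm (Fin n), (∀ v, (v, σ v) ∈ PP T m s A0 Cm c) ∧ k ≤ cyc σ)) ⊆
      (univ.filter (fun σ : Equiv.Perm (Fin n) => k ≤ cyc σ)).biUnion (fun σ =>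
        univ.filter (fun c : Fin n × Fin n → Fin ((M + 1) * T) =>
          ∀ v, (c (v, σ v) : ℕ) % T = s)) := by
    intro c hc
    rw [mem_filter] at hc
    obtain ⟨_, σ, h1, h2⟩ := hc
    rw [mem_biUnion]
    refine ⟨σ, by rw [mem_filter]; exact ⟨mem_univ _, h2⟩, ?_⟩
    rw [mem_filter]
    refine ⟨mem_univ _, fun v => ?_⟩
    have h3 := h1 v
    rw [PP, mem_union, mem_filter, mem_filter] at h3
    rcases h3 with h3 | h3
    · exact h3.2.2
    · exact h3.2
  calc (univ.filter (fun c : Fin n × Fin n → Fin ((M + 1) * T) =>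
      ∃ σ : Equiv.Perm (Fin n), (∀ v, (v, σ v) ∈ PP T m s A0 Cm c) ∧ k ≤ cyc σ)).card * T ^ n
      ≤ (∑ σ ∈ univ.filter (fun σ : Equiv.Perm (Fin n) => k ≤ cyc σ),
          (univ.filter (fun c : Fin n × Fin n → Fin ((M + 1) * T) =>
            ∀ v, (c (v, σ v) : ℕ) % T = s)).card) * T ^ n :=
        Nat.mul_le_mul_right _ ((Finset.card_le_card hsub).trans Finset.card_biUnion_le)
    _ = ∑ σ ∈ univ.filter (fun σ : Equiv.Perm (Fin n) => k ≤ cyc σ),
          (univ.filter (fun c : Fin n × Fin n → Fin ((M + 1) * T) =>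
            ∀ v, (c (v, σ v) : ℕ) % T = s)).card * T ^ n := by
        rw [Finset.sum_mul]
    _ ≤ ∑ σ ∈ univ.filter (fun σ : Equiv.Perm (Fin n) => k ≤ cyc σ),
          ((M + 1) * T) ^ (n * n) := Finset.sum_le_sum fun σ _ => prb_one n M T s σ
    _ = (univ.filter (fun σ : Equiv.Perm (Fin n) => k ≤ cyc σ)).card *
          ((M + 1) * T) ^ (n * n) := by rw [Finset.sum_const, smul_eq_mul]
    _ ≤ (4 ^ n * n ^ (n - k)) * ((M + 1) * T) ^ (n * n) :=
        Nat.mul_le_mul_right _ (hBad n k hk)
    _ = ((M + 1) * T) ^ (n * n) * (4 ^ n * n ^ (n - k)) := mul_comm _ _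

end Pool.Agent.MPd266dbH
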