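import Pool.Agent.Lib.MP_d266db_co.H.SpecR

/-!
# MP_d266db_co, H: a random slice
-/

set_option autoImplicit false

open Finset

namespace Pool.Agent.MPd266dbH

/-- the numbers -/
theorem slc_lim (b : ℝ) (hb : 0 < b) : ∃ n0 : ℕ, ∀ n : ℕ, n0 ≤ n →
    2 * (n : ℝ) ^ 2 * Real.exp (-(b * n)) < 1 := by
  have h1 : Filter.Tendsto (fun n : ℕ => (b * (n : ℝ)) ^ 2 * Real.exp (-(b * (n : ℝ))))
      Filter.atTop (nhds 0) :=
    (Real.tendsto_pow_mul_exp_neg_atTop_nhds_zero 2).comp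
      (Filter.Tendsto.const_mul_atTop hb tendsto_natCast_atTop_atTop)
  have h2 : ∀ᶠ n : ℕ in Filter.atTop,
      (b * (n : ℝ)) ^ 2 * Real.exp (-(b * (n : ℝ))) < b ^ 2 / 2 :=
    h1.eventually_lt_const (by positivity)
  obtain ⟨n0, hn0⟩ := Filter.eventually_atTop.mp h2
  refine ⟨n0, fun n hn => ?_⟩
  have h3 := hn0 n hn
  have hb2 : 0 < b ^ 2 := by positivity
  have h4 : b ^ 2 * (2 * (n : ℝ) ^ 2 * Real.exp (-(b * n))) < b ^ 2 * 1 := by
    have : b ^ 2 * (2 * (n : ℝ) ^ 2 * Real.exp (-(b * n))) =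
        2 * ((b * (n : ℝ)) ^ 2 * Real.exp (-(b * (n : ℝ)))) := by ring
    rw [this]
    linarith
  exact lt_of_mul_lt_mul_left h4 hb2.le

theorem tSlc (hChf : S_Chf) : S_Slc := by
  classical
  intro Q ε θ hQ hε hε1 hθ
  have hQ2 : (2 : ℝ) ≤ Q := by exact_mod_cast hQ
  have hQ0 : (0 : ℝ) < Q := by linarith
  have hQ1 : (0 : ℝ) < (Q : ℝ) - 1 := by linarith
  set b : ℝ := ε ^ 2 * θ / (2 * (Q : ℝ) ^ 2) with hb
  have hb0 : 0 < b := by positivity
  obtain ⟨n0, hn0⟩ := slc_lim b hb0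
  refine ⟨n0, fun n hn 𝓕 h𝓕 => ?_⟩
  by_contra hcon
  push Not at hcon
  let z : Fin Q := ⟨0, by omega⟩
  let A1 : Fin n → Finset (Fin Q) := fun _ => {z}
  let A2 : Fin n → Finset (Fin Q) := fun _ => {z}ᶜ
  let bad : (Fin n → Finset (Fin Q)) → ℝ → Finset (Fin n) → Finset (Fin n → Fin Q) :=
    fun A δ F => univ.filter (fun c : Fin n → Fin Q =>
      ((F.filter (fun e => c e ∈ A e)).card : ℝ) ≤ (1 - δ) * ∑ e ∈ F, ((A e).card : ℝ) / Q)
  have hs1 : ∀ F : Finset (Fin n), ∑ e ∈ F, ((A1 e).card : ℝ) / Q = F.card / Q := by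
    intro F
    simp only [A1, Finset.card_singleton, Finset.sum_const, nsmul_eq_mul, Nat.cast_one]
    ring
  have hs2 : ∀ F : Finset (Fin n), ∑ e ∈ F, ((A2 e).card : ℝ) / Q =
      F.card * ((Q : ℝ) - 1) / Q := by
    intro F
    have h3 : ((({z} : Finset (Fin Q))ᶜ).card : ℝ) = (Q : ℝ) - 1 := by
      rw [Finset.card_compl, Finset.card_singleton, Fintype.card_fin, Nat.cast_sub (by omega),
        Nat.cast_one]
    simp only [A2, Finset.sum_const, nsmul_eq_mul]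
    rw [h3]
    ring
  have hb1 : ∀ F : Finset (Fin n), θ * n ≤ F.card →
      ((bad A1 ε F).card : ℝ) ≤ (Q : ℝ) ^ n * Real.exp (-(b * n)) := by
    intro F hF
    refine (hChf (Fin n) Q F A1 ε (by omega) hε.le hε1).trans ?_
    rw [Fintype.card_fin, hs1]
    apply mul_le_mul_of_nonneg_left _ (by positivity)
    apply Real.exp_le_exp.mpr
    apply neg_le_neg
    have e1 : b * n = ε ^ 2 * (θ * n) / (2 * (Q : ℝ) ^ 2) := by
      rw [hb]
      ring
    have e2 : ε ^ 2 * ((F.card : ℝ) / Q) / 2 = ε ^ 2 * (F.card : ℝ) / (2 * Q) := by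
      field_simp
    rw [e1, e2]
    apply div_le_div₀ (by positivity) (mul_le_mul_of_nonneg_left hF (by positivity))
      (by positivity)
    nlinarith
  have hδ0 : 0 ≤ ε / ((Q : ℝ) - 1) := by positivity
  have hδ1 : ε / ((Q : ℝ) - 1) ≤ 1 := by
    rw [div_le_one hQ1]
    linarith
  have hb2 : ∀ F : Finset (Fin n), θ * n ≤ F.card →
      ((bad A2 (ε / ((Q : ℝ) - 1)) F).card : ℝ) ≤ (Q : ℝ) ^ n * Real.exp (-(b * n)) := by
    intro F hF
    refine (hChf (Fin n) Q F A2 (ε / ((Q : ℝ) - 1)) (by omega) hδ0 hδ1).trans ?_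
    rw [Fintype.card_fin, hs2]
    apply mul_le_mul_of_nonneg_left _ (by positivity)
    apply Real.exp_le_exp.mpr
    apply neg_le_neg
    have e1 : b * n = ε ^ 2 * (θ * n) / (2 * (Q : ℝ) ^ 2) := by
      rw [hb]
      ring
    have e2 : (ε / ((Q : ℝ) - 1)) ^ 2 * ((F.card : ℝ) * ((Q : ℝ) - 1) / Q) / 2 =
        ε ^ 2 * (F.card : ℝ) / (2 * (((Q : ℝ) - 1) * Q)) := by
      field_simp
    rw [e1, e2]
    apply div_le_div₀ (by positivity) (mul_le_mul_of_nonneg_left hF (by positivity))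
      (by positivity)
    nlinarith
  have hcov : (univ : Finset (Fin n → Fin Q)) ⊆ (𝓕.filter (fun F => θ * n ≤ (F.card : ℝ))).biUnion
      (fun F => bad A1 ε F ∪ bad A2 (ε / ((Q : ℝ) - 1)) F) := by
    intro c _
    obtain ⟨F, hF, hFθ, hFc⟩ := hcon (univ.filter (fun v => c v = z))
    rw [Finset.mem_biUnion]
    refine ⟨F, Finset.mem_filter.mpr ⟨hF, hFθ⟩, ?_⟩
    have hU : (univ.filter (fun v => c v = z)) ∩ F = F.filter (fun e => c e ∈ A1 e) := by
      ext v
      simp only [A1, Finset.mem_inter, Finset.mem_filter, Finset.mem_univ, true_and,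
        Finset.mem_singleton]
      tauto
    have hU2 : F.filter (fun e => c e ∈ A2 e) = F.filter (fun e => ¬ (c e ∈ A1 e)) := by
      apply Finset.filter_congr
      intro v _
      simp only [A1, A2, Finset.mem_compl]
    have hcard : ((F.filter (fun e => c e ∈ A1 e)).card : ℝ) +
        ((F.filter (fun e => c e ∈ A2 e)).card : ℝ) = F.card := by
      rw [hU2]
      exact_mod_cast Finset.card_filter_add_card_filter_not (s := F) (fun e => c e ∈ A1 e)
    rw [hU] at hFc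
    rw [Finset.mem_union]
    by_cases h3 : (1 - ε) * (F.card : ℝ) ≤ Q * ((F.filter (fun e => c e ∈ A1 e)).card : ℝ)
    · right
      have h4 := hFc h3
      refine Finset.mem_filter.mpr ⟨Finset.mem_univ _, ?_⟩
      rw [hs2]
      have e3 : (1 - ε / ((Q : ℝ) - 1)) * ((F.card : ℝ) * ((Q : ℝ) - 1) / Q) =
          ((Q : ℝ) - 1 - ε) * F.card / Q := by
        field_simp
      rw [e3, le_div_iff₀ hQ0]
      have e4 : ((F.filter (fun e => c e ∈ A2 e)).card : ℝ) =
          F.card - ((F.filter (fun e => c e ∈ A1 e)).card : ℝ) := by linarith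
      rw [e4]
      nlinarith
    · left
      refine Finset.mem_filter.mpr ⟨Finset.mem_univ _, ?_⟩
      rw [hs1, mul_div_assoc', le_div_iff₀ hQ0]
      push Not at h3
      linarith
  have h5 : ((univ : Finset (Fin n → Fin Q)).card : ℝ) ≤
      ∑ F ∈ 𝓕.filter (fun F => θ * n ≤ (F.card : ℝ)), 2 * ((Q : ℝ) ^ n * Real.exp (-(b * n))) := by
    refine (Nat.cast_le.mpr (Finset.card_le_card hcov)).trans ?_
    refine (Nat.cast_le.mpr Finset.card_biUnion_le).trans ?_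
    rw [Nat.cast_sum]
    apply Finset.sum_le_sum
    intro F hF
    have hF2 := (Finset.mem_filter.mp hF).2
    have h6 : ((bad A1 ε F ∪ bad A2 (ε / ((Q : ℝ) - 1)) F).card : ℝ) ≤
        (bad A1 ε F).card + (bad A2 (ε / ((Q : ℝ) - 1)) F).card := by
      exact_mod_cast Finset.card_union_le _ _
    have := hb1 F hF2
    have := hb2 F hF2
    linarith
  rw [Finset.sum_const, nsmul_eq_mul, Finset.card_univ, Fintype.card_fun, Fintype.card_fin,
    Fintype.card_fin, Nat.cast_pow] at h5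
  have h6 : ((𝓕.filter (fun F => θ * n ≤ (F.card : ℝ))).card : ℝ) ≤ (n : ℝ) ^ 2 := by
    exact_mod_cast (Finset.card_filter_le _ _).trans h𝓕
  have hQn : (0 : ℝ) < (Q : ℝ) ^ n := by positivity
  have h7 : (Q : ℝ) ^ n ≤ (n : ℝ) ^ 2 * (2 * ((Q : ℝ) ^ n * Real.exp (-(b * n)))) :=
    h5.trans (mul_le_mul_of_nonneg_right h6 (by positivity))
  have h8 := hn0 n hn
  have h9 : (n : ℝ) ^ 2 * (2 * ((Q : ℝ) ^ n * Real.exp (-(b * n)))) =
      (Q : ℝ) ^ n * (2 * (n : ℝ) ^ 2 * Real.exp (-(b * n))) := by ring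
  rw [h9] at h7
  have h10 := mul_lt_mul_of_pos_left h8 hQn
  linarith

end Pool.Agent.MPd266dbH
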