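import Pool.Agent.Lib.MP_d266db_co.H.Bad
import Pool.Agent.Lib.MP_d266db_co.H.Cake
import Pool.Agent.Lib.MP_d266db_co.H.Cel
import Pool.Agent.Lib.MP_d266db_co.H.ChB
import Pool.Agent.Lib.MP_d266db_co.H.ChL
import Pool.Agent.Lib.MP_d266db_co.H.Chf
import Pool.Agent.Lib.MP_d266db_co.H.Chn
import Pool.Agent.Lib.MP_d266db_co.H.Cls
import Pool.Agent.Lib.MP_d266db_co.H.Clu
import Pool.Agent.Lib.MP_d266db_co.H.Cnt
import Pool.Agent.Lib.MP_d266db_co.H.DcA
import Pool.Agent.Lib.MP_d266db_co.H.Dcp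
import Pool.Agent.Lib.MP_d266db_co.H.Dec1
import Pool.Agent.Lib.MP_d266db_co.H.Dis
import Pool.Agent.Lib.MP_d266db_co.H.ExpR
import Pool.Agent.Lib.MP_d266db_co.H.Ext
import Pool.Agent.Lib.MP_d266db_co.H.Fct
import Pool.Agent.Lib.MP_d266db_co.H.Fix
import Pool.Agent.Lib.MP_d266db_co.H.Four
import Pool.Agent.Lib.MP_d266db_co.H.Grp
import Pool.Agent.Lib.MP_d266db_co.H.Had
import Pool.Agent.Lib.MP_d266db_co.H.HlD
import Pool.Agent.Lib.MP_d266db_co.H.Hlv
import Pool.Agent.Lib.MP_d266db_co.H.Ins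
import Pool.Agent.Lib.MP_d266db_co.H.InsB
import Pool.Agent.Lib.MP_d266db_co.H.Itr
import Pool.Agent.Lib.MP_d266db_co.H.Lay
import Pool.Agent.Lib.MP_d266db_co.H.LnC
import Pool.Agent.Lib.MP_d266db_co.H.Lnk
import Pool.Agent.Lib.MP_d266db_co.H.Low
import Pool.Agent.Lib.MP_d266db_co.H.LowF
import Pool.Agent.Lib.MP_d266db_co.H.LowN
import Pool.Agent.Lib.MP_d266db_co.H.Mat
import Pool.Agent.Lib.MP_d266db_co.H.Mer
import Pool.Agent.Lib.MP_d266db_co.H.MinC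
import Pool.Agent.Lib.MP_d266db_co.H.Mrg
import Pool.Agent.Lib.MP_d266db_co.H.NPM
import Pool.Agent.Lib.MP_d266db_co.H.NrR
import Pool.Agent.Lib.MP_d266db_co.H.NrS
import Pool.Agent.Lib.MP_d266db_co.H.NuX
import Pool.Agent.Lib.MP_d266db_co.H.One
import Pool.Agent.Lib.MP_d266db_co.H.Pcs
import Pool.Agent.Lib.MP_d266db_co.H.Pos
import Pool.Agent.Lib.MP_d266db_co.H.PrB
import Pool.Agent.Lib.MP_d266db_co.H.PrC
import Pool.Agent.Lib.MP_d266db_co.H.PrD
import Pool.Agent.Lib.MP_d266db_co.H.PrNum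
import Pool.Agent.Lib.MP_d266db_co.H.PrS
import Pool.Agent.Lib.MP_d266db_co.H.Prt
import Pool.Agent.Lib.MP_d266db_co.H.RP
import Pool.Agent.Lib.MP_d266db_co.H.RR
import Pool.Agent.Lib.MP_d266db_co.H.Rgx
import Pool.Agent.Lib.MP_d266db_co.H.Rmt
import Pool.Agent.Lib.MP_d266db_co.H.Sat
import Pool.Agent.Lib.MP_d266db_co.H.Slc
import Pool.Agent.Lib.MP_d266db_co.H.Spl
import Pool.Agent.Lib.MP_d266db_co.H.Sw
import Pool.Agent.Lib.MP_d266db_co.H.Sys
import Pool.Agent.Lib.MP_d266db_co.H.Szr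
import Pool.Agent.Lib.MP_d266db_co.H.Thm
import Pool.Agent.Lib.MP_d266db_co.H.Typ
import Pool.Agent.Lib.MP_d266db_co.H.VT
import Pool.Agent.Lib.MP_d266db_co.H.VTs
import Pool.Agent.Lib.MP_d266db_co.H.XM
import Pool.Agent.Lib.MP_d266db_co.H.XSy

/-!
# MP_d266db_co, H: assembly

Almost all of a regular digraph of linear degree in which all cuts are dense is a union of pairwise
arc-disjoint Hamilton cycles.
-/

set_option autoImplicit false

namespace Pool.Agent.MPd266dbH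

theorem tAll : S_Thm := by
  have hMer : S_Mer := tMer
  have hSpl : S_Spl := tSpl hMer
  have hIns : S_Ins := tIns hMer hSpl
  have hInsB : S_InsB := tInsB hMer hSpl
  have hChn : S_Chn := tChn hIns
  have hVT : S_VT := tVT hMer hChn
  have hFour : S_Four := tFour hMer hInsB hChn
  have hTyp : S_Typ := tTyp hFour tPos tHlv
  have hMinC : S_MinC := tMinC hTyp
  have hFix : S_Fix := tFix tSat tLay tSw
  have hVTs : S_VTs := tVTs tSat tLay tCake tHlv tPos hVT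
  have hXM : S_XM := tXM hMinC tCnt hFix hVTs
  have hSys : S_Sys := tSys (tClu tSzr tPcs) (tMat tNrS tHlD) (tExpR tNrS)
  have hRmt : S_Rmt := tRmt (tSlc tChf) tNPM tExt
  have hMrg : S_Mrg := tMrg tRP hXM hSys hRmt tXSy tNuX (tOne tLnk)
  have hGrp : S_Grp := tGrp tHad tRR (tCel tChL tChB)
  have hPrt : S_Prt := tPrt (tPrC tChf) (tPrB tBad) (tPrS tChf) (tPrD tChf) tPrN
  have hDcA : S_DcA := tDcA tLnC tNrR (tFct tRgx tDec1) tDis
  have hDcp : S_Dcp := tDcp tCls (tLow tLowF tLowN) hGrp hPrt hDcA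
  exact tThm hDcp hMrg tItr

end Pool.Agent.MPd266dbH
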