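import Pool.Agent.Lib.MP_d266db_co.Defs

/-!
# MP_d266db_co, H: almost all of a cut-dense regular digraph is a union of Hamilton cycles; definitions
-/

set_option autoImplicit false

namespace Pool.Agent.MPd266dbH

open Finset Pool.Agent.MPd266db

/-! ## Permutations -/

/-- the cycle of `v` -/
def cls {n : ℕ} (σ : Equiv.Perm (Fin n)) (v : Fin n) : Finset (Fin n) :=
  univ.filter (fun w => σ.SameCycle v w)

/-- the number of cycles of a permutation (fixed points are cycles) -/
def cyc {n : ℕ} (σ : Equiv.Perm (Fin n)) : ℕ := (univ.image (cls σ)).card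

theorem mem_cls {n : ℕ} {σ : Equiv.Perm (Fin n)} {v w : Fin n} : w ∈ cls σ v ↔ σ.SameCycle v w := by
  simp [cls]

theorem cls_eq {n : ℕ} {σ : Equiv.Perm (Fin n)} {v w : Fin n} : cls σ v = cls σ w ↔ σ.SameCycle v w := by
  constructor
  · intro h
    have : w ∈ cls σ w := mem_cls.2 (Equiv.Perm.SameCycle.refl _ _)
    rw [← h] at this
    exact mem_cls.1 this
  · intro h
    ext x
    rw [mem_cls, mem_cls]
    exact ⟨fun h' => h.symm.trans h', fun h' => h.trans h'⟩

/-- if every cycle meets `W` then there are at most `|W|` cycles -/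
theorem cyc_le {n : ℕ} {σ : Equiv.Perm (Fin n)} (W : Finset (Fin n))
    (h : ∀ v, ∃ w ∈ W, σ.SameCycle v w) : cyc σ ≤ W.card := by
  have : univ.image (cls σ) ⊆ W.image (cls σ) := by
    intro c hc
    rw [mem_image] at hc ⊢
    obtain ⟨v, -, rfl⟩ := hc
    obtain ⟨w, hw, hvw⟩ := h v
    exact ⟨w, hw, (cls_eq.2 hvw).symm⟩
  exact (card_le_card this).trans card_image_le

/-- there is a set with exactly one vertex of every cycle -/
theorem cyc_trans {n : ℕ} (σ : Equiv.Perm (Fin n)) : ∃ W : Finset (Fin n), W.card = cyc σ ∧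
    (∀ v, ∃ w ∈ W, σ.SameCycle v w) ∧ ∀ v ∈ W, ∀ w ∈ W, σ.SameCycle v w → v = w := by
  classical
  have hne : ∀ c ∈ univ.image (cls σ), ∃ v, cls σ v = c := by
    intro c hc
    rw [mem_image] at hc
    obtain ⟨v, -, h⟩ := hc
    exact ⟨v, h⟩
  rcases isEmpty_or_nonempty (Fin n) with hn | hn
  · refine ⟨∅, ?_, fun v => (hn.false v).elim, fun v hv => by simp at hv⟩
    simp [cyc, Finset.univ_eq_empty]
  choose! f hf using hne
  refine ⟨(univ.image (cls σ)).image f, ?_, ?_, ?_⟩
  · rw [card_image_of_injOn]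
    · rfl
    · intro c hc d hd hcd
      have h1 := hf c hc
      have h2 := hf d hd
      rw [← h1, ← h2, hcd]
  · intro v
    have hv : cls σ v ∈ univ.image (cls σ) := mem_image_of_mem _ (mem_univ v)
    refine ⟨f (cls σ v), mem_image_of_mem _ hv, ?_⟩
    exact cls_eq.1 (hf _ hv).symm
  · intro v hv w hw hvw
    rw [mem_image] at hv hw
    obtain ⟨c, hc, rfl⟩ := hv
    obtain ⟨d, hd, rfl⟩ := hw
    have h1 := hf c hc
    have h2 := hf d hd
    have h3 := cls_eq.2 hvw
    rw [h1, h2] at h3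
    rw [h3]

/-! ## Classes of tails and heads -/

/-- the vertices of class `a` -/
def Cl {n K : ℕ} (o : Fin n → Fin K) (a : Fin K) : Finset (Fin n) := univ.filter (fun v => o v = a)

/-- the vertices whose class is in `J` -/
def ClU {n K : ℕ} (o : Fin n → Fin K) (J : Finset (Fin K)) : Finset (Fin n) :=
  univ.filter (fun v => o v ∈ J)

/-- the own arcs: `(u, v)` with `o u = i v` (`o` classes of tails, `i` classes of heads) -/
def own {n K : ℕ} (o i : Fin n → Fin K) (E : Finset (Fin n × Fin n)) : Finset (Fin n × Fin n) :=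
  E.filter (fun e => o e.1 = i e.2)

/-- the cross arcs -/
def crs {n K : ℕ} (o i : Fin n → Fin K) (E : Finset (Fin n × Fin n)) : Finset (Fin n × Fin n) :=
  E.filter (fun e => o e.1 ≠ i e.2)

/-- Robustness of the classes: for every class `a`, if `X ∪ (I_a \ Y)` and `(O_a \ X) ∪ Y` both have
at least `β n` elements (`X ⊆ O_a` tails, `Y ⊆ I_a` heads) then at least `ν n²` arcs of `E` join the
two sides. -/
def Rob {n K : ℕ} (o i : Fin n → Fin K) (E : Finset (Fin n × Fin n)) (β ν : ℝ) : Prop :=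
  ∀ (a : Fin K) (X Y : Finset (Fin n)), X ⊆ Cl o a → Y ⊆ Cl i a →
    β * n ≤ (X.card : ℝ) + (Cl i a \ Y).card → β * n ≤ ((Cl o a \ X).card : ℝ) + Y.card →
    ν * (n : ℝ) ^ 2 ≤ (eb E X Y : ℝ) + eb E (Cl o a \ X) (Cl i a \ Y)

end Pool.Agent.MPd266dbH
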