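import Pool.Agent.Lib.MP_d266db_co.H.Defs

/-!
# MP_d266db_co, H, SpecC: classes of tails and heads; the weighted cut inequality

Every `S_...` is a statement to be proved in its own file
`Pool/Agent/Lib/MP_d266db_co/H/....lean`; the docstring contains the complete proof.

Notation in the docstrings: `O_a = Cl o a`, `I_a = Cl i a`, `O_J = ClU o J`, `I_J = ClU i J`, `e_R(X, Y)` is
`eb R X Y`; `own = own o i R`, `crs = crs o i R`.
-/

set_option autoImplicit false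

namespace Pool.Agent.MPd266dbH

open Finset Pool.Agent.MPd266db

/-- (about 250 lines) **A robust partition into classes.**

Proof.  Let `K0 = ⌊2/α⌋`.  Define `s_(K0+1) = min (αβ/4) (α²/8)` and, going down,
`s_j = min (f (s_(j+1)/2)) (s_(j+1)/2)`; all are positive, increasing in `j`, and at most
`min (αβ/4) (α²/8)`.  Let `νs K = s_(K+1)/2` for `K ≤ K0` (and `1` otherwise).
Call a pair `(o, i)` of functions to `Fin K` admissible if all `O_a` and `I_a` have at least `α n / 2`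
elements.  If an admissible pair exists then `K α n / 2 ≤ n`, so `α K ≤ 2`, `K ≤ K0`.  For `K = 1` the
constant functions are admissible and have no cross arcs.  Let `K` be maximal such that there is an
admissible pair with `|crs| ≤ s_K n²`, and for this `K` let `(o, i)` be an admissible pair with
the least number of cross arcs.  So `|crs| ≤ s_K n² ≤ f (νs K) n²`.
(a) Sizes.  The `r |I_a|` arcs into `I_a` come from `O_a` or are cross, so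
`r |I_a| ≤ |O_a| |I_a| + s_K n²` and `|O_a| ≥ α n - 2 s_K n / α ≥ 3 α n / 4`; the same for `|I_a|`.
(b) Own degrees.  Let `v` be a vertex, `a = o v`, and suppose that `v` has more out-neighbours in `I_b` than
in `I_a`.  Changing `o v` to `b` decreases the number of cross arcs, and the new pair is admissible as
`3 α n / 4 - 1 ≥ α n / 2` (`4 ≤ α n`): a contradiction.  So the own out-degree of `v` is at least
its number of out-neighbours in every `I_b`, and `K` times it is at least `r`.  The same for heads.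
(c) Robustness.  Let `X ⊆ O_a`, `Y ⊆ I_a`, both sides with at least `β n` elements, and suppose
`e(X, Y) + e(O_a \ X, I_a \ Y) < νs K · n²`.  Define `K + 1` classes: the tails in `O_a \ X` and the heads
in `Y` get the new class (side 2), the rest is unchanged (the class `a` becomes `X`, `I_a \ Y`, side 1).
The new number of cross arcs is `|crs| + e(X, Y) + e(O_a \ X, I_a \ Y) ≤ (s_K + s_(K+1)/2) n² ≤ s_(K+1) n²`.
The new pair is admissible: let `T ⊆ V` be the tails and `H ⊆ V` the heads of side 1 (or side 2);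
`|T| + |H| ≥ β n`, `r |T| ≤ |T| |H| + s_(K+1) n²` and `r |H| ≤ |T| |H| + s_(K+1) n²`.  If `|T| ≥ β n / 2` then
`|H| ≥ α n - 2 s_(K+1) n / β ≥ α n / 2`, and then `|T| ≥ α n - 2 s_(K+1) n / α ≥ α n / 2`; if
`|H| ≥ β n / 2` exchange the roles.  This contradicts the maximality of `K` (`K + 1 ≤ K0` by
admissibility, so `s_(K+1)` is the right threshold). -/
def S_Cls : Prop :=
  ∀ (α β : ℝ), 0 < α → α ≤ 1 → 0 < β → ∀ f : ℝ → ℝ, (∀ x, 0 < x → 0 < f x) →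
    ∃ νs : ℕ → ℝ, (∀ K, 0 < νs K) ∧
      ∀ (n r : ℕ) (R : Finset (Fin n × Fin n)), 4 ≤ α * n → Reg R r → α * n ≤ r →
        ∃ K : ℕ, 1 ≤ K ∧ α * K ≤ 2 ∧ ∃ o i : Fin n → Fin K,
          ((crs o i R).card : ℝ) ≤ f (νs K) * (n : ℝ) ^ 2 ∧ Rob o i R β (νs K) ∧
          (∀ v, r ≤ K * od (own o i R) v) ∧ (∀ v, r ≤ K * idg (own o i R) v) ∧
          ∀ a, α * n ≤ 2 * (Cl o a).card ∧ α * n ≤ 2 * (Cl i a).card

/-- (about 80 lines) **Links between the classes.**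

Proof.  Suppose that `|O_b ∩ I_a| < λ n` for all `a ∈ J`, `b ∉ J` (so `n > 0`).  Let `W = O_J`; its
complement is `O_(J^c)`.  Let `(x, y)` be an arc from `W` to `W^c`.  If `i y ∈ J` then `y ∈ O_b ∩ I_a` with
`b = o y ∉ J`, `a = i y ∈ J`; there are at most `K² λ n` such vertices `y`, so at most `K² λ n²` such
arcs.  Otherwise `o x ∈ J` and `i y ∉ J`, so `(x, y)` is a cross arc.  So
`η |W| |W^c| ≤ (K² λ + γ) n²`.  But `|W|, |W^c| ≥ α n / 2` (both contain some `O_a`), so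
`η α² / 4 ≤ K² λ + γ`, a contradiction. -/
def S_LnC : Prop :=
  ∀ (n K : ℕ) (R : Finset (Fin n × Fin n)) (o i : Fin n → Fin K) (α η γ lam : ℝ),
    0 < α → 0 < η → 0 ≤ γ → 0 ≤ lam → (K : ℝ) ^ 2 * lam + γ < η * α ^ 2 / 4 →
    (∀ W : Finset (Fin n), η * W.card * Wᶜ.card ≤ eb R W Wᶜ) →
    ((crs o i R).card : ℝ) ≤ γ * (n : ℝ) ^ 2 → (∀ a, α * n ≤ 2 * (Cl o a).card) →
    ∀ J : Finset (Fin K), J.Nonempty → J ≠ univ →
      ∃ a ∈ J, ∃ b, b ∉ J ∧ lam * n ≤ (Cl o b ∩ Cl i a).card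

/-- (about 80 lines) **Pairs which are far from unions of classes.**

Proof.  Let `t = |X| + |Y| - n ≥ 1`.  `Rob` for `X ∩ O_a`, `Y ∩ I_a` gives
`e_R(X, Y) + e_R(X^c, Y^c) ≥ ν n²` (the two sets of arcs counted by `Rob` are contained in these two).
By regularity `e_R(X, Y) - e_R(X^c, Y^c) = r |X| - r |Y^c| = r t ≥ 0`.  So `e_R(X, Y) ≥ ν n² / 2`, and
`e_own(X, Y) ≥ e_R(X, Y) - γ n² ≥ (1 - 2γ/ν) e_R(X, Y)`.  As `2γ/ν ≤ ε`, `2γ/ν ≤ 1/2` and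
`e_R(X, Y) ≥ r t` the two inequalities follow. -/
def S_LowF : Prop :=
  ∀ (n r K : ℕ) (R : Finset (Fin n × Fin n)) (o i : Fin n → Fin K) (β ν γ ε : ℝ) (a : Fin K)
    (X Y : Finset (Fin n)), Reg R r → 0 < ν → 0 ≤ γ → 2 * γ ≤ ε * ν → 4 * γ ≤ ν →
    ((crs o i R).card : ℝ) ≤ γ * (n : ℝ) ^ 2 → Rob o i R β ν → n + 1 ≤ X.card + Y.card →
    β * n ≤ ((X ∩ Cl o a).card : ℝ) + (Cl i a \ Y).card →
    β * n ≤ ((Cl o a \ X).card : ℝ) + (Y ∩ Cl i a).card →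
    (1 - ε) * r * ((X.card : ℝ) + Y.card - n) ≤ eb (own o i R) X Y ∧
      ν * (n : ℝ) ^ 2 / 4 ≤ eb (own o i R) X Y

/-- (about 250 lines) **Pairs which are close to a union of classes.**

Proof.  Write `w(A, B) = e_own(A, B) + N e_C(A, B)`, `I = I_(J^c)`, `P1 = O_J \ X`, `P2 = X \ O_J`,
`Q1 = I \ Y`, `Q2 = Y \ I = Y ∩ I_J`, `p = |P1| + |Q1|`, `q = |P2| + |Q2|`, `t = |X| + |Y| - n ≥ 1`; so
`|symmDiff X O_J| + |symmDiff Y I| = p + q` and `|P1|, |P2|, |Q1|, |Q2| ≤ β n`.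
(1) By additivity `w(X, Y) ≥ w(O_J \ P1, I \ Q1) + w(P2, I \ Q1) + w(O_J \ P1, Q2)`,
`w(O_J \ P1, I \ Q1) ≥ w(O_J, I) - w(P1, I) - w(O_J, Q1)`, `w(P2, I \ Q1) ≥ w(P2, I) - N |P2| |Q1|`,
`w(O_J \ P1, Q2) ≥ w(O_J, Q2) - N |P1| |Q2|` (`own` and `C` are disjoint, `N ≥ 1`).
(2) All arcs from `O_J` to `I` are cross: `w(O_J, I) = N e_C(O_J, I) ≥ (1 - ε) e_R(O_J, I) - ε n`.
(3) `x ∈ P1`: `w(x, I) = N e_C(x, I) ≤ e_crs(x, I) + ε n ≤ r - θ n + ε n`, as the own out-neighbours of `x` are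
in `I_J`.  Same for `y ∈ Q1`: `w(O_J, y) ≤ r - θ n + ε n`.
(4) `x ∈ P2`: `w(x, I) = e_own(x, I) + N e_C(x, I) ≥ e_R(x, I) - ε n` and `e_R(x, I) ≥ e_own(x, I) ≥ θ n` (all
own out-neighbours of `x` are in `I`).  `y ∈ Q2`: `w(O_J, y) ≥ e_R(O_J, y) - ε n`, `e_R(O_J, y) ≥ θ n`.
(5) Let `Σ = e_R(O_J, I) + e_R(P2, I) + e_R(O_J, Q2) ≥ θ n q`.  As `N β ≤ ε`, the two products in (1) are
at most `ε n q` together, so
`w(X, Y) ≥ (1 - ε) Σ - ε n - 2 ε n q - p (r - θ n + ε n) ≥ (1 - 3ε/θ) Σ - ε n - p (r - θ n + ε n)`.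
(6) By regularity `e_R(O_J, I) = r (|O_J| - |I_J|) + e_R(O_(J^c), I_J)`, and
`e_R(O_(J^c), I_J) ≥ e_R(P2, I_J) + e_R(O_(J^c), Q2) - |P2| |Q2|`; so
`Σ ≥ r (|O_J| - |I_J| + |P2| + |Q2|) - |P2| |Q2| = r (t + p) - |P2| |Q2|`, and
`|P2| |Q2| ≤ β n |P2| ≤ (ε/θ) Σ` (as `β ≤ ε`).  So `Σ ≥ (1 - ε/θ) r (t + p)`.
(7) `w(X, Y) ≥ (1 - 4ε/θ) r (t + p) - ε n - p (r - θ n + ε n) ≥ (1 - 4ε/θ) r t - ε n + p (θ n - 5 ε n/θ)
≥ (1 - 5ε/θ) r t + (θ/2) n p`, as `r ≤ n`, `ε n ≤ (ε/α) r ≤ (ε/θ) r t` and `10 ε ≤ θ²`.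
(8) So `w ≥ α n / 2 + (θ/2) n p` (`5ε/θ ≤ 1/2`), hence `n ≤ 2w/α`, `n p ≤ 2w/θ`; and from (5),
`(θ/2) n q ≤ (1 - 3ε/θ) Σ ≤ w + ε n + n p ≤ w (2 + 2/θ)` (`3ε/θ ≤ 1/2`, `ε n ≤ w`, `r - θ n + ε n ≤ n`),
so `n q ≤ 8 w / θ²` and `n (1 + p + q) ≤ w (2/θ + 2/θ + 8/θ²) ≤ 12 w / θ²`. -/
def S_LowN : Prop :=
  ∀ (n r K N : ℕ) (R C : Finset (Fin n × Fin n)) (o i : Fin n → Fin K) (J : Finset (Fin K))
    (X Y : Finset (Fin n)) (α θ ε β : ℝ), Reg R r → 1 ≤ N → α * n ≤ r → 0 < θ → θ ≤ α → α ≤ 1 →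
    0 < ε → 10 * ε ≤ θ ^ 2 → 0 < β → β ≤ ε → N * β ≤ ε → C ⊆ crs o i R →
    (∀ v, θ * n ≤ od (own o i R) v) → (∀ v, θ * n ≤ idg (own o i R) v) →
    (1 - ε) * eb R (ClU o J) (ClU i Jᶜ) - ε * n ≤ N * (eb C (ClU o J) (ClU i Jᶜ) : ℝ) →
    (∀ v, |N * (eb C {v} (ClU i Jᶜ) : ℝ) - eb (crs o i R) {v} (ClU i Jᶜ)| ≤ ε * n) →
    (∀ v, |N * (eb C (ClU o J) {v} : ℝ) - eb (crs o i R) (ClU o J) {v}| ≤ ε * n) →
    ((ClU o J \ X).card : ℝ) + (Y ∩ ClU i J).card ≤ β * n →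
    ((X ∩ ClU o Jᶜ).card : ℝ) + (ClU i Jᶜ \ Y).card ≤ β * n →
    n + 1 ≤ X.card + Y.card →
    (1 - 5 * ε / θ) * r * ((X.card : ℝ) + Y.card - n) ≤
      (eb (own o i R) X Y : ℝ) + N * eb C X Y ∧
    θ ^ 2 / 12 * n * (1 + (symmDiff X (ClU o J)).card + (symmDiff Y (ClU i Jᶜ)).card) ≤
      (eb (own o i R) X Y : ℝ) + N * eb C X Y

/-- (about 150 lines; uses `S_LowF`, `S_LowN`) **The weighted cut inequality.**

Proof.  Let `θ = α/K0`, `ε2 = ε θ² / 20`, `ε1 = ε2 / K0²`.  Given `N` let `β = ε2 / (N K0)` (`≤ ε2`; note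
`β K0 N ≤ ε2`).  Given `ν` let `γ = min (ε ν / 2) (ν / 4)` and `c = min (θ²/12) (ν/12)`.
The own degrees are at least `r/K ≥ α n / K0 = θ n`.  Let `X, Y` be given, `n ≥ 1`.
If for some class `a` both `|X ∩ O_a| + |I_a \ Y|` and `|O_a \ X| + |Y ∩ I_a|` are at least `β n`, use `S_LowF`:
the first inequality holds, and the second with `J = ∅`, as `c n (1 + n + n) ≤ 3 c n² ≤ ν n² / 4`.
Otherwise let `J = {a : |O_a \ X| + |Y ∩ I_a| < β n}`; for `a ∉ J`, `|X ∩ O_a| + |I_a \ Y| < β n`.  Summing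
over the classes, the two cardinality hypotheses of `S_LowN` hold with `β' = K0 β`
(`β' ≤ ε2`, `N β' ≤ ε2`).  The other hypotheses of `S_LowN` with `ε2`: the arcs from `O_J` to `I_(J^c)` are
all cross, and summing the hypothesis over `a ∈ J`, `b ∉ J` gives the error
`K² ε1 n ≤ ε2 n` (and `1 - ε1 ≥ 1 - ε2`); summing over `b ∉ J` resp. `a ∈ J` gives the errors
`K ε1 n ≤ ε2 n` for the vertices (for the class of `v` itself both numbers are `0`, as `C` and `crs`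
contain no own arcs).  `5 ε2 / θ ≤ ε`. -/
def S_Low : Prop :=
  ∀ (α ε : ℝ) (K0 : ℕ), 0 < α → α ≤ 1 → 0 < ε → ε ≤ 1 → 1 ≤ K0 →
    ∃ ε1 : ℝ, 0 < ε1 ∧ ∀ N : ℕ, 1 ≤ N → ∃ β : ℝ, 0 < β ∧ ∀ ν : ℝ, 0 < ν →
      ∃ γ c : ℝ, 0 < γ ∧ 0 < c ∧
        ∀ (n r K : ℕ) (R C : Finset (Fin n × Fin n)) (o i : Fin n → Fin K),
          Reg R r → α * n ≤ r → 1 ≤ K → K ≤ K0 → C ⊆ crs o i R →
          ((crs o i R).card : ℝ) ≤ γ * (n : ℝ) ^ 2 → Rob o i R β ν →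
          (∀ v, r ≤ K * od (own o i R) v) → (∀ v, r ≤ K * idg (own o i R) v) →
          (∀ a b, (1 - ε1) * eb (crs o i R) (Cl o a) (Cl i b) - ε1 * n ≤
            N * (eb C (Cl o a) (Cl i b) : ℝ)) →
          (∀ v b, |N * (eb C {v} (Cl i b) : ℝ) - eb (crs o i R) {v} (Cl i b)| ≤ ε1 * n) →
          (∀ v a, |N * (eb C (Cl o a) {v} : ℝ) - eb (crs o i R) (Cl o a) {v}| ≤ ε1 * n) →
          ∀ X Y : Finset (Fin n), n + 1 ≤ X.card + Y.card →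
            (1 - ε) * r * ((X.card : ℝ) + Y.card - n) ≤
              (eb (own o i R) X Y : ℝ) + N * eb C X Y ∧
            ∃ J : Finset (Fin K), c * n * (1 + (symmDiff X (ClU o J)).card +
              (symmDiff Y (ClU i Jᶜ)).card) ≤ (eb (own o i R) X Y : ℝ) + N * eb C X Y

end Pool.Agent.MPd266dbH
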