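import Pool.Agent.Lib.MP_d266db_co.H.SpecR
import Pool.Agent.Lib.MP_d266db_co.H.SpecC

/-!
# MP_d266db_co, H, SpecF: the decomposition, the iteration, the theorem

Every `S_...` is a statement to be proved in its own file
`Pool/Agent/Lib/MP_d266db_co/H/....lean`; the docstring contains the complete proof.
-/

set_option autoImplicit false

namespace Pool.Agent.MPd266dbH

open Finset Pool.Agent.MPd266db

/-- (about 200 lines) **The reservoir satisfies `MHyp`.**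

Proof.  Let `A0 = own o i R`, `ρ = r/(M+1)`, `x = (M + 1 : ℝ)`.  `own`: `S ⊆ A0`.  `odl`:
`x od S v ≥ (1-δ) od A0 v ≥ (1/2) r/K ≥ α n/(2 K0)`; same for `idl`.  `rge`: `ρ ≥ α n/x ≥ θ n`; `rle`: `r ≤ n`.
`nr`: let `X = {v : od S v - ρ > g n}` and `X' = {v : od S v - ρ < -g n}`.
`x (ρ + g n) |X| ≤ x ∑_{X} od S v = x eb S X univ ≤ eb A0 X univ + δ n² ≤ r |X| + δ n²`, so
`x g |X| ≤ δ n`.  `x (ρ - g n) |X'| ≥ x eb S X' univ ≥ eb A0 X' univ - δ n² ≥ eb R X' univ - |crs| - δ n²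
≥ r |X'| - (γ + δ) n²`, so `x g |X'| ≤ (γ + δ) n`.  Together `|X| + |X'| ≤ (γ + 2δ) n/(x g) ≤ g n`.  Same
for the in-degrees.
`rob`: for `X ⊆ Cl o a`, `Y ⊆ Cl i a` all arcs of `R` from `X` to `Y` are own, `eb A0 X Y = eb R X Y`; so
`x (eb S X Y + eb S (Cl o a \ X) (Cl i a \ Y)) ≥ ν n² - 2 δ n² ≥ (ν/2) n²`. -/
def S_NrR : Prop :=
  ∀ (n r K K0 M : ℕ) (R S : Finset (Fin n × Fin n)) (o i : Fin n → Fin K) (α γ δ g β ν : ℝ),
    1 ≤ n → Reg R r → α * n ≤ r → 0 < α → 1 ≤ K → K ≤ K0 → 0 ≤ γ → 0 < δ → 2 * δ ≤ 1 → 0 < g →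
    4 * δ ≤ ν → γ + 2 * δ ≤ g ^ 2 → S ⊆ own o i R →
    ((crs o i R).card : ℝ) ≤ γ * (n : ℝ) ^ 2 → Rob o i R β ν →
    (∀ v, r ≤ K * od (own o i R) v) → (∀ v, r ≤ K * idg (own o i R) v) →
    (∀ X Y, |((M : ℝ) + 1) * eb S X Y - eb (own o i R) X Y| ≤ δ * (n : ℝ) ^ 2) →
    (∀ v, (1 - δ) * od (own o i R) v ≤ ((M : ℝ) + 1) * od S v) →
    (∀ v, (1 - δ) * idg (own o i R) v ≤ ((M : ℝ) + 1) * idg S v) →
    MHyp S o i (α / (2 * K0 * (M + 1))) (r / (M + 1)) g β (ν / (2 * (M + 1)))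

/-- (about 80 lines; uses `S_Rgx`, `S_Dec1`) **Factors of the parts.**

Proof.  `S_Rgx` gives `d`-regular `H m s ⊆ P m s` and `S_Dec1` permutations `τ m s j`, `j : Fin d`.  Take
`t0 = M T d` and enumerate the triples (`finProdFinEquiv` twice).  For different triples with the same
`(m, s)` use `S_Dec1`; otherwise `(v, σ v)` would be in two different, disjoint parts. -/
def S_Fct : Prop :=
  ∀ (n d M T : ℕ) (P : Fin M → Fin T → Finset (Fin n × Fin n)),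
    (∀ m s m' s', (m, s) ≠ (m', s') → Disjoint (P m s) (P m' s')) →
    (∀ m s, ∀ X Y : Finset (Fin n), n + 1 ≤ X.card + Y.card →
      (d : ℝ) * ((X.card : ℝ) + Y.card - n) ≤ eb (P m s) X Y) →
    ∃ σ : Fin (M * T * d) → Equiv.Perm (Fin n), (∀ j, ∃ m s, ∀ v, (v, σ j v) ∈ P m s) ∧
      ∀ j j', j ≠ j' → ∀ v, σ j v ≠ σ j' v

/-- (about 80 lines) **Discarding factors with many cross arcs.**

Proof.  Let `B` be the set of the `j` for which more than `g n` vertices `v` have `o v ≠ i (σ j v)`.  The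
arcs `(v, σ j v)`, `j ∈ B`, `o v ≠ i (σ j v)`, are different and in `crs o i R`; so
`|B| g n ≤ γ n²`, `g |B| ≤ γ n`.  Enumerate the complement of `B`. -/
def S_Dis : Prop :=
  ∀ (n t0 K : ℕ) (R : Finset (Fin n × Fin n)) (o i : Fin n → Fin K)
    (σ : Fin t0 → Equiv.Perm (Fin n)) (γ g : ℝ), 1 ≤ n → 0 < g →
    (∀ j v, (v, σ j v) ∈ R) → (∀ j j', j ≠ j' → ∀ v, σ j v ≠ σ j' v) →
    ((crs o i R).card : ℝ) ≤ γ * (n : ℝ) ^ 2 →
    ∃ (t : ℕ) (f : Fin t → Fin t0), Function.Injective f ∧ g * t0 ≤ g * t + γ * n ∧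
      ∀ j, ((univ.filter (fun v => o v ≠ i (σ (f j) v))).card : ℝ) ≤ g * n

/-- the conclusion of `S_Dcp` for given numbers -/
def DcpC (n K r : ℕ) (R : Finset (Fin n × Fin n)) (o i : Fin n → Fin K) (θ lam ε g ν : ℝ) : Prop :=
  ∃ (S : Finset (Fin n × Fin n)) (ρ : ℝ) (t : ℕ) (σ : Fin t → Equiv.Perm (Fin n)),
    S ⊆ R ∧ (1 - ε) * r ≤ t ∧ (∀ j v, (v, σ j v) ∈ R ∧ (v, σ j v) ∉ S) ∧
    (∀ j j', j ≠ j' → ∀ v, σ j v ≠ σ j' v) ∧ MHyp S o i θ ρ g (θ / 32) ν ∧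
    (∀ j, SHyp o i (σ j) g) ∧ Lin o i lam

/-- (about 250 lines; uses `S_LnC`, `S_NrR`, `S_Fct`, `S_Dis`) **Decomposition, for given
classes and parts.**

The hypotheses: `x = M + 1`; `A0 = own o i R`; the parts `P m s` and the reservoir `S` are as in the
conclusion of `S_Prt`; `C m` are ranked sets of cross arcs.

Proof.  Let `ε' = ε/8` and `d = ⌊(1 - 2ε') r/((M+1) T)⌋`.  For `X, Y` with `|X| + |Y| ≥ n + 1`, by `hcut`
and the lower bound for the weighted number: `(M+1) T eb (P m s) X Y ≥ (1-δ)(1-ε') r (|X|+|Y|-n) ≥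
(1-2ε') r (|X|+|Y|-n) ≥ (M+1) T d (|X|+|Y|-n)` (`δ ≤ ε'`).  `S_Fct` gives `M T d` permutations `τ_j`, with
arcs in the parts, so in `R \ S`.  `M T d ≥ (M/(M+1)) (1-2ε') r - M T ≥ (1-ε')(1-2ε') r - M δ n ≥
(1-3ε') r - ε' r` (`1/(M+1) ≤ ε'`, `T ≤ δ n`, `M δ ≤ ε' α`, `α n ≤ r`).  `S_Dis` (with `γ`, `g`) gives `t, f`
with `t ≥ M T d - γ n/g ≥ M T d - ε' α n ≥ (1 - 5ε') r` (`γ ≤ ε' α g`); `σ j = τ (f j)`.
`SHyp`: `cyc` by the hypothesis on the permutations in a part (`γ' ≤ g`); `cross` by `S_Dis`; `own`: let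
`v` be a vertex and suppose `o w ≠ i (σ w)` for all `w` in its cycle; then all these arcs `(w, σ w)` are
in `P m s ⊆ A0 ∪ C m` and not in `A0`, hence in `C m`, so `rk w < rk (σ w)`; with `q = orderOf σ`,
`rk v < rk (σ^q v) = rk v` by induction, a contradiction.
`MHyp`: `S_NrR` (monotonicity of `Rob` in the first number is not needed: `β = θ/32`).
`Lin`: `S_LnC` with `K² lam + γ ≤ η α²/16 + η α²/16 < η α²/4`. -/
def S_DcA : Prop :=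
  ∀ (n r K K0 M T : ℕ) (R S : Finset (Fin n × Fin n)) (o i : Fin n → Fin K)
    (C : Fin M → Finset (Fin n × Fin n)) (P : Fin M → Fin T → Finset (Fin n × Fin n))
    (α η ε γ δ g ν : ℝ), 1 ≤ n → Reg R r → α * n ≤ r → 0 < α → 0 < η → 0 < ε → ε ≤ 1 →
    1 ≤ K → K ≤ K0 → 8 ≤ ε * (M + 1) → 0 ≤ γ → 0 < δ → 8 * δ ≤ ε → 8 * (M * δ) ≤ ε * α →
    2 * δ ≤ 1 → 0 < g → 4 * δ ≤ ν → γ + 2 * δ ≤ g ^ 2 → 8 * γ ≤ ε * α * g →
    16 * γ ≤ η * α ^ 2 →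
    (∀ W : Finset (Fin n), η * W.card * Wᶜ.card ≤ eb R W Wᶜ) →
    ((crs o i R).card : ℝ) ≤ γ * (n : ℝ) ^ 2 → Rob o i R (α / (2 * K0 * (M + 1)) / 32) ν →
    (∀ v, r ≤ K * od (own o i R) v) → (∀ v, r ≤ K * idg (own o i R) v) →
    (∀ a, α * n ≤ 2 * (Cl o a).card) →
    (∀ m, C m ⊆ crs o i R) → (∀ m, ∃ rk : Fin n → ℕ, ∀ e ∈ C m, rk e.1 < rk e.2) →
    (∀ m, ∀ X Y : Finset (Fin n), n + 1 ≤ X.card + Y.card →
      (1 - ε / 8) * r * ((X.card : ℝ) + Y.card - n) ≤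
        (eb (own o i R) X Y : ℝ) + (M + 1) * eb (C m) X Y) →
    1 ≤ T → (T : ℝ) ≤ δ * n → S ⊆ own o i R → (∀ m s, P m s ⊆ own o i R ∪ C m) →
    (∀ m s, Disjoint S (P m s)) →
    (∀ m s m' s', (m, s) ≠ (m', s') → Disjoint (P m s) (P m' s')) →
    (∀ m s, ∀ X Y : Finset (Fin n), n + 1 ≤ X.card + Y.card →
      (1 - δ) * ((eb (own o i R) X Y : ℝ) + (M + 1) * eb (C m) X Y) ≤
        ((M : ℝ) + 1) * T * eb (P m s) X Y) →
    (∀ m s, ∀ σ : Equiv.Perm (Fin n), (∀ v, (v, σ v) ∈ P m s) → (cyc σ : ℝ) ≤ g * n) →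
    (∀ X Y, |((M : ℝ) + 1) * eb S X Y - eb (own o i R) X Y| ≤ δ * (n : ℝ) ^ 2) →
    (∀ v, (1 - δ) * od (own o i R) v ≤ ((M : ℝ) + 1) * od S v) →
    (∀ v, (1 - δ) * idg (own o i R) v ≤ ((M : ℝ) + 1) * idg S v) →
    DcpC n K r R o i (α / (2 * K0 * (M + 1))) (η * α ^ 2 / (16 * K0 ^ 2)) ε g (ν / (2 * (M + 1)))

/-- (about 250 lines; uses `S_Cls`, `S_Low`, `S_Grp`, `S_Prt`, `S_DcA`) **The decomposition.**

Proof.  Let `K0 = ⌊2/α⌋` (`≥ 1`, as `α ≤ 1`; `α K ≤ 2` implies `K ≤ K0`).  `S_Low` for `α, ε/8, K0` gives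
`ε1`; `S_Grp` for `K0, M0 = ⌈8/ε⌉, ε1` gives `M ≥ M0`, `γ_G`, `n_G`; `S_Low` for `N = M + 1` gives `β_L`.
Let `θ = α/(2 K0 (M+1))`, `β = min β_L (θ/32)`, `lam = η α²/(16 K0²)`.  Given `gf` let, for `x > 0`,
`g x = min (gf (x/(2 (M+1)))) 1`, `γ_L x, c x` the numbers from `S_Low` for `ν = x`, and
`f x = min (γ_L x) (min γ_G (min (η α²/16) (min (ε α g x/8) (g x ²/16))))`.  `S_Cls` for `α, β, f` gives `νs0`;
`νs K = νs0 K/(2 (M+1))`.  For every `K ≤ K0` let, with `x = νs0 K`,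
`δ_K = min (ε/8) (min (ε α/(8 (M+1))) (min (g x ²/16) (min (x/4) (1/2))))`, and `n_K` the number from
`S_Prt` for `K0, M, c0 = c x, δ_K, γ = g x, θ = α/K0`.  `n0` is at least `n_G`, all `n_K` (`K ≤ K0`), `4/α`
and `1`.
Given `R`: `S_Cls` gives `K, o, i`, `K ≤ K0`.  `S_Grp` for `A = crs o i R` gives `C`.  For every `m`, `S_Low`
for `C m` (`Rob` with `β` implies `Rob` with `β_L`, since the hypotheses of `Rob` for `β_L` are stronger;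
in the same way for `θ/32`; `((M + 1 : ℕ) : ℝ) = M + 1`) gives the two lower bounds for
`eb (own o i R) X Y + (M+1) eb (C m) X Y`.  `own` and `C m ⊆ crs` are disjoint.  `S_Prt` gives
`T, S, P`; the own degrees are at least `r/K ≥ (α/K0) n`.  Now `S_DcA` with `γ = f x` (`x = νs0 K`), `ν = x`,
`g = g x`: the numerical hypotheses hold by definition.  The conclusion is for `g x ≤ gf (νs K)`;
`MHyp` and `SHyp` are monotone in `g` (for `Nr` the set of the exceptional vertices gets smaller). -/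
def S_Dcp : Prop :=
  ∀ (α η ε : ℝ), 0 < α → α ≤ 1 → 0 < η → 0 < ε → ε ≤ 1 →
    ∃ (K0 : ℕ) (θ lam : ℝ), 1 ≤ K0 ∧ 0 < θ ∧ θ ≤ 1 ∧ 0 < lam ∧
      ∀ gf : ℝ → ℝ, (∀ x, 0 < x → 0 < gf x) →
        ∃ νs : ℕ → ℝ, (∀ K, 0 < νs K) ∧ ∃ n0 : ℕ, ∀ n : ℕ, n0 ≤ n →
          ∀ (r : ℕ) (R : Finset (Fin n × Fin n)), (∀ e ∈ R, e.1 ≠ e.2) → Reg R r → α * n ≤ r →
            (∀ W : Finset (Fin n), η * W.card * Wᶜ.card ≤ eb R W Wᶜ) →
            ∃ (K : ℕ) (o i : Fin n → Fin K), K ≤ K0 ∧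
              DcpC n K r R o i θ lam ε (gf (νs K)) (νs K)

/-- (about 200 lines) **The iteration.**

Proof.  By induction on `q ≤ t` we construct `S_q` and `τ_j`, `j < q`, such that
(1) `S_q` is own, `od S_q v = od S v`, `idg S_q v = idg S v` for all `v`; (2) `|S \ S_q| ≤ q κ n`;
(3) `S_q ⊆ S ∪ {(v, σ_j v) : j < q}`; (4) `(v, τ_j v) ∉ S_q` for `j < q`, `(v, σ_j v) ∉ S_q` for `j ≥ q`;
(5) `τ_j` (`j < q`) has a single cycle, its arcs are in `S` or of the form `(v, σ_j' v)`;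
`τ_j v ≠ τ_j' v` for `j ≠ j'`; `τ_j v ≠ σ_j' v` for `j < q ≤ j'`.
`q = 0`: `S_0 = S`.  Step.  `MHyp S_q` holds with `ν/2`: degrees by (1), and for `Rob`:
`eb S_q X Y + eb S_q X' Y' ≥ eb S X Y + eb S X' Y' - |S \ S_q| ≥ ν n² - κ n · n ≥ (ν/2) n²` (`X × Y` and
`X' × Y'` are disjoint; `q ≤ t ≤ n`).  So `MrgOK` for `σ = σ_q` gives `ρ`; let `τ_q = ρ`,
`N = {(v, ρ v) : ρ v ≠ σ v} ⊆ S_q`, `O = {(v, σ v) : ρ v ≠ σ v}` and `S_(q+1) = (S_q \ N) ∪ O`.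
(1): `v` with `ρ v ≠ σ v` is not a cross tail, so `o v = i (σ v)`; `O` is own.  `O ∩ S_q = ∅` by (4).  The
out-degree of `v`: if `ρ v ≠ σ v` one arc is removed and one is added.  The in-degree of `w`: if
`ρ⁻¹ w ≠ σ⁻¹ w` then with `v = ρ⁻¹ w`, `ρ v ≠ σ v`, exactly the arc `(v, w)` is removed, and exactly the arc
`(σ⁻¹ w, w)` is added; otherwise nothing is removed or added.  (2): `|N| ≤ κ n`.  (3) clear.
(4): `(v, ρ v)`: if `ρ v ≠ σ v` it is in `N` and not in `O`; if `ρ v = σ v` it is not in `S_q` and not in `O`.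
`(v, τ_j v)`, `j < q`: not in `S_q`, and not in `O` by (5).  `(v, σ_j v)`, `j > q`: not in `S_q`, and not in
`O` as `σ_j v ≠ σ_q v`.  (5): the arcs `(v, ρ v)` are in `S_q` or equal to `(v, σ_q v)`; by (4) for
`τ_j`, `j < q`, and (5), `ρ v ≠ τ_j v`; for `j > q`, `ρ v ≠ σ_j v` by (4) and the hypothesis. -/
def S_Itr : Prop :=
  ∀ (n K t : ℕ) (o i : Fin n → Fin K) (S : Finset (Fin n × Fin n)) (θ ρ g β ν κ : ℝ)
    (σ : Fin t → Equiv.Perm (Fin n)), t ≤ n → 0 ≤ κ → 2 * κ ≤ ν → MHyp S o i θ ρ g β ν →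
    (∀ j v, (v, σ j v) ∉ S) → (∀ j j', j ≠ j' → ∀ v, σ j v ≠ σ j' v) →
    (∀ S' : Finset (Fin n × Fin n), MHyp S' o i θ ρ g β (ν / 2) → ∀ j, MrgOK o i S' (σ j) κ) →
    ∃ τ : Fin t → Equiv.Perm (Fin n), (∀ j v w, (τ j).SameCycle v w) ∧
      (∀ j j', j ≠ j' → ∀ v, τ j v ≠ τ j' v) ∧ ∀ j v, (v, τ j v) ∈ S ∨ ∃ j', τ j v = σ j' v

/-- (about 120 lines; uses `S_Dcp`, `S_Mrg`, `S_Itr`) **Theorem: almost all of a regular digraph with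
dense cuts decomposes into Hamilton cycles.**

Proof.  Let `α' = min α 1`, `ε' = min ε 1`; `S_Dcp` for `α', η, ε'` gives `K0, θ, lam`.  For `x > 0` let
`gf x`, `nf x` be the numbers from `S_Mrg` for `K0, θ, lam, ν = x/2, κ = x/2`.  `S_Dcp` gives `νs`, `n1`.  Let
`n0` be at least `1`, `n1` and all `nf (νs K)`, `K ≤ K0`.  Given `R` take `K, o, i` and
`S, ρ, t, σ` from `S_Dcp`; `ν = νs K`.  `t ≤ n`: `j ↦ σ_j v` is injective for a fixed vertex `v`.  By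
`S_Mrg`, `MrgOK o i S' (σ j) (ν/2)` for every `S'` with `MHyp S' o i θ ρ (gf ν) (θ/32) (ν/2)`.  `S_Itr` with
`κ = ν/2` gives the `τ_j`; their arcs are in `S ⊆ R` or arcs of the `σ_j'`, so in `R`. -/
def S_Thm : Prop :=
  ∀ (α η ε : ℝ), 0 < α → 0 < η → 0 < ε → ∃ n0 : ℕ, ∀ n : ℕ, n0 ≤ n →
    ∀ (r : ℕ) (R : Finset (Fin n × Fin n)), (∀ e ∈ R, e.1 ≠ e.2) → Reg R r → α * n ≤ r →
      (∀ W : Finset (Fin n), η * W.card * Wᶜ.card ≤ eb R W Wᶜ) →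
      ∃ (t : ℕ) (τ : Fin t → Equiv.Perm (Fin n)), (1 - ε) * r ≤ t ∧
        (∀ j v, (v, τ j v) ∈ R) ∧ (∀ j v w, (τ j).SameCycle v w) ∧
        ∀ j j', j ≠ j' → ∀ v, τ j v ≠ τ j' v

end Pool.Agent.MPd266dbH
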