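import Pool.Agent.Lib.MP_d266db_co.H.SpecP

/-!
# MP_d266db_co, H, SpecM: merging the cycles of a permutation with the arcs of a set `S`

Every `S_...` is a statement to be proved in its own file
`Pool/Agent/Lib/MP_d266db_co/H/....lean`; the docstring contains the complete proof.
-/

set_option autoImplicit false

namespace Pool.Agent.MPd266dbH

open Finset Pool.Agent.MPd266db

/-- A system of clusters.  `X p` (tails) and `Y p` (heads) have the same size, between `x` and `2x`;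
`Γ p p'` means that the pair `(X p, Y p')` is dense without large holes (threshold `h`); `Γ p p` always
holds; every vertex has many out-neighbours in many of the `Y p` and many in-neighbours in many of the
`X p` of its class; inside a class all cuts of `Γ` are dense. -/
structure XSys {n K k : ℕ} (S : Finset (Fin n × Fin n)) (o i : Fin n → Fin K) (cl : Fin k → Fin K)
    (X Y : Fin k → Finset (Fin n)) (Γ : Fin k → Fin k → Prop) (h x y : ℕ) (d c ν : ℝ) : Prop where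
  own : ∀ e ∈ S, o e.1 = i e.2
  sz : ∀ p, (X p).card = (Y p).card ∧ x ≤ (X p).card ∧ (X p).card ≤ 2 * x
  dX : ∀ p p', p ≠ p' → Disjoint (X p) (X p')
  dY : ∀ p p', p ≠ p' → Disjoint (Y p) (Y p')
  oX : ∀ p, ∀ v ∈ X p, o v = cl p
  iY : ∀ p, ∀ w ∈ Y p, i w = cl p
  loop : ∀ p, Γ p p
  same : ∀ p p', Γ p p' → cl p = cl p'
  dens : ∀ p p', Γ p p' → ∀ A B : Finset (Fin n), A ⊆ X p → B ⊆ Y p' → h ≤ A.card → h ≤ B.card →
    d * A.card * B.card ≤ eb S A B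
  domO : ∀ v, ∃ P : Finset (Fin k), (∀ p ∈ P, cl p = o v ∧
    y ≤ ((Y p).filter (fun w => (v, w) ∈ S)).card) ∧ 2 * c * k ≤ P.card
  domI : ∀ w, ∃ P : Finset (Fin k), (∀ p ∈ P, cl p = i w ∧
    y ≤ ((X p).filter (fun v => (v, w) ∈ S)).card) ∧ 2 * c * k ≤ P.card
  exp : ∀ (a : Fin K) (B : Finset (Fin k)), B ⊆ Cl cl a → c * k ≤ B.card →
    c * k ≤ (Cl cl a \ B).card →
    ∃ W : Finset (Fin k × Fin k), W ⊆ B ×ˢ (Cl cl a \ B) ∧ (∀ w ∈ W, Γ w.1 w.2) ∧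
      ν * (k : ℝ) ^ 2 ≤ W.card

/-- the conclusion of `S_RP` for given `ν`, `ℓ` -/
def RPp (ν : ℝ) (ℓ : ℕ) : Prop :=
  ∀ (k : ℕ) (Γ : Fin k → Fin k → Prop) (c : ℝ)
    (A P Q : Finset (Fin k)), (∀ p ∈ A, Γ p p) →
    (∀ B : Finset (Fin k), B ⊆ A → c * k ≤ B.card → c * k ≤ (A \ B).card →
      ∃ W : Finset (Fin k × Fin k), W ⊆ B ×ˢ (A \ B) ∧ (∀ w ∈ W, Γ w.1 w.2) ∧
        ν * (k : ℝ) ^ 2 ≤ W.card) →
    P ⊆ A → Q ⊆ A → P.Nonempty → c * k ≤ P.card → c * k ≤ Q.card →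
    ∃ (m : ℕ) (w : ℕ → Fin k), 1 ≤ m ∧ m ≤ ℓ ∧ w 0 ∈ P ∧ w m ∈ Q ∧ (∀ i ≤ m, w i ∈ A) ∧
      ∀ i < m, Γ (w i) (w (i + 1))

/-- The typical property: `ρ` is a permutation, `Q` the set of spoiled vertices; a cluster `p` is ok if
`4 |X p ∩ Q| ≤ y`; in every ok cluster all but `2h` of the vertices of `X p \ Q` are in one cycle. -/
def XTyp {n k : ℕ} (X : Fin k → Finset (Fin n)) (h y : ℕ) (ρ : Equiv.Perm (Fin n))
    (Q : Finset (Fin n)) : Prop :=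
  ∀ p, 4 * (X p ∩ Q).card ≤ y → ∃ T ⊆ X p \ Q, (X p \ Q).card ≤ T.card + 2 * h ∧
    ∀ v ∈ T, ∀ w ∈ T, ρ.SameCycle v w

/-- The invariants: `σ` the original, `ρ` the current permutation, `U` the slice, `Q` the spoiled
vertices, `V` the set of the tails of virtual arcs. -/
structure XInv {n K k : ℕ} (S : Finset (Fin n × Fin n)) (o i : Fin n → Fin K)
    (X Y : Fin k → Finset (Fin n)) (σ ρ : Equiv.Perm (Fin n)) (U Q V : Finset (Fin n)) : Prop where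
  st : ∀ p, ∀ v ∈ X p, v ∉ Q → ρ v ∈ Y p
  off : ∀ v, v ∉ U → v ∉ Q → ρ v = σ v
  arc : ∀ v, v ∉ V → ρ v = σ v ∨ (v, ρ v) ∈ S
  vir : ∀ v ∈ V, o v = i (ρ v)
  cro : ∀ v, o v ≠ i (σ v) → ρ v = σ v

/-- (about 60 lines) **Few saturated clusters; many good clusters for every vertex.**

Proof.  Let `N` be the set of all `p` with `4 |X p ∩ Q| > y`.  As the `X p` are disjoint,
`|N| y ≤ ∑_p 4 |X p ∩ Q| ≤ 4 |Q| ≤ (ν/2) k y`, and `y > 0`, so `|N| ≤ (ν/2) k`.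
(1) Take `P` from `domO u` and remove `N`: at least `2 c k - (ν/2) k ≥ c k` elements remain.  For such
`p`: `ρ` maps `X p \ Q` injectively into `Y p`, so at most `|Y p| - |X p \ Q| = |X p ∩ Q| ≤ y/4` elements
of `Y p` are not in the image; so at least `y - y/4` elements `w` of `Y p` with `(u, w) ∈ S` are of the
form `ρ v`, `v ∈ X p \ Q`.  (2) Take `P` from `domI w` and remove `N`.
(3) If `B ⊆ Cl cl a \ N`, `c k ≤ |B|`, `c k ≤ |(Cl cl a \ N) \ B|`, take `W` from `exp a B` and remove the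
pairs with second entry in `N`, at most `k (ν/2) k` pairs. -/
def S_Sat : Prop :=
  ∀ (n K k : ℕ) (S : Finset (Fin n × Fin n)) (o i : Fin n → Fin K) (cl : Fin k → Fin K)
    (X Y : Fin k → Finset (Fin n)) (Γ : Fin k → Fin k → Prop) (h x y : ℕ) (d c ν : ℝ),
    XSys S o i cl X Y Γ h x y d c ν → 0 < ν → ν ≤ c → 1 ≤ y →
    ∀ (ρ : Equiv.Perm (Fin n)) (Q : Finset (Fin n)), (∀ p, ∀ v ∈ X p, v ∉ Q → ρ v ∈ Y p) →
      8 * (Q.card : ℝ) ≤ ν * k * y →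
      ∃ N : Finset (Fin k), (∀ p, p ∉ N ↔ 4 * (X p ∩ Q).card ≤ y) ∧
        (∀ u, ∃ P : Finset (Fin k), P ⊆ Cl cl (o u) \ N ∧ c * k ≤ P.card ∧ ∀ p ∈ P,
          3 * y ≤ 4 * ((X p \ Q).filter (fun v => (u, ρ v) ∈ S)).card) ∧
        (∀ w, ∃ P : Finset (Fin k), P ⊆ Cl cl (i w) \ N ∧ c * k ≤ P.card ∧ ∀ p ∈ P,
          3 * y ≤ 4 * ((X p \ Q).filter (fun v => (v, w) ∈ S)).card) ∧
        ∀ (a : Fin K) (B : Finset (Fin k)), B ⊆ Cl cl a \ N → c * k ≤ B.card →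
          c * k ≤ ((Cl cl a \ N) \ B).card →
          ∃ W : Finset (Fin k × Fin k), W ⊆ B ×ˢ ((Cl cl a \ N) \ B) ∧ (∀ w ∈ W, Γ w.1 w.2) ∧
            ν / 2 * (k : ℝ) ^ 2 ≤ W.card

/-- (about 250 lines; uses `S_Four`, `S_Pos`, `S_Hlv`) **If no closed walk of length four inside a
cluster reduces the number of cycles then almost the whole cluster is in one cycle.**

Proof.  Let `X' = X p \ Q`, `M = |X'|`; `M ≥ x - y/4 ≥ x/2`, so `16 h ≤ d² M ≤ d M ≤ M`.  For `u ∈ X'` let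
`N⁺(u) = {w ∈ X' : (u, ρ w) ∈ S}`, `N⁻(u) = {w ∈ X' : (w, ρ u) ∈ S}`, and `C(u)` the cycle of `u`.
(1) For `A, B ⊆ X'` with `|A|, |B| ≥ h` the number of pairs `(v, w) ∈ A × B` with `w ∈ N⁺(v)` is
`eb S A (ρ B) ≥ d |A| |B| > 0` (as `ρ B ⊆ Y p` and `Γ p p`).
(2) Let `T` be the set of all `u ∈ X'` with `|N⁺(u)| ≥ d M` and `|N⁻(u)| ≥ d M`.  The set `A` of those
with `|N⁺(u)| < d M` has fewer than `h` elements: otherwise (1) with `B = X'` gives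
`d |A| M ≤ ∑_{u ∈ A} |N⁺(u)| < |A| d M`.  Same for `N⁻`.  So `M ≤ |T| + 2h`.
(3) Claim: for every `u ∈ X'`, `|N⁺(u) \ C(u)| < 8h` or `|N⁻(u) \ C(u)| < 2h`.  Suppose not, let `A`, `B`
be these two sets and `pos` from `S_Pos`.  `S_Hlv` (`q = 4h`) gives `A_low, A_high ⊆ A`; let `t` be the
minimum of `pos` on `A_high`; all `pos` on `A_low` are `< t`.  If at least `h` elements `v ∈ B` have
`pos v ≥ t`, let `B1` be the set of these and apply `S_Hlv` (`q = 2h`) to `A_low` to get `A1, Z`; otherwise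
at least `h` elements `v ∈ B` have `pos v < t`, let `B1` be the set of these and apply `S_Hlv` to `A_high`.
In both cases `|A1| = |Z| = 2h`, `|B1| ≥ h`, and `pos a < pos b`, `pos v` is not in
`[pos a, pos b]` for `a ∈ A1`, `b ∈ Z`, `v ∈ B1`.  Let `Z'` be the set of the `b ∈ Z` with
`b ∈ N⁺(a)` for some `a ∈ A1`; by (1) (for `A1`, `Z \ Z'`) `|Z \ Z'| < h`, so `|Z'| ≥ h`, and by (1) for
`Z', B1` there are `b ∈ Z'`, `v ∈ B1` with `v ∈ N⁺(b)`.  Choose `a`.  Then `(u, ρ a), (a, ρ b), (b, ρ v),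
(v, ρ u) ∈ S`; `a, b, v ∉ C(u)`; `a, b, v` are different.  If `a ~ b` then `b = ρ^m a` with
`pos (ρ^s a) ∈ [pos a, pos b]` for `s ≤ m`, so `ρ^s a ≠ v`, and `ρ^s a ≠ u` as `u` is in another cycle.
So `S_Four` gives `ρ'` with `cyc ρ' < cyc ρ` which differs from `ρ` only on `{u, a, b, v} ⊆ X'`; as both are
bijective, `ρ'` maps this set onto its `ρ`-image, which is in `Y p`.  This contradicts the
hypothesis.
(4) For `u ∈ T`: `|C(u) ∩ X'| ≥ d M - 8h ≥ d M / 2`.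
(5) Suppose `u, u' ∈ T` are in different cycles; let `P, P'` be the intersections of the two cycles
with `X'`; both have at least `d M / 2 ≥ 8h` elements (`16 h ≤ d M`).  Let `A = {w ∈ P : |N⁺(w) ∩ P'| < 8h}`; if
`|A| ≥ h` then by (1) `d |A| |P'| < 8 h |A|`, so `d² M / 2 < 8h`, a contradiction.  So `|A| < h`, and in
the same way fewer than `h` elements `w ∈ P` have `|N⁻(w) ∩ P'| < 8h`.  As `|P| ≥ 2h`, there is `w ∈ P` with
`|N⁺(w) \ C(w)| ≥ 8h` and `|N⁻(w) \ C(w)| ≥ 8h`, against (3). -/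
def S_Typ : Prop :=
  ∀ (n K k : ℕ) (S : Finset (Fin n × Fin n)) (o i : Fin n → Fin K) (cl : Fin k → Fin K)
    (X Y : Fin k → Finset (Fin n)) (Γ : Fin k → Fin k → Prop) (h x y : ℕ) (d c ν : ℝ),
    XSys S o i cl X Y Γ h x y d c ν → 0 < d → d ≤ 1 → 1 ≤ h → 32 * (h : ℝ) ≤ d ^ 2 * x → y ≤ x →
    ∀ (ρ : Equiv.Perm (Fin n)) (Q : Finset (Fin n)) (p : Fin k),
      (∀ v ∈ X p, v ∉ Q → ρ v ∈ Y p) → 4 * (X p ∩ Q).card ≤ y →
      (∀ ρ' : Equiv.Perm (Fin n), (∀ v, v ∉ X p \ Q → ρ' v = ρ v) → (∀ v ∈ X p \ Q, ρ' v ∈ Y p) →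
        (∀ v, ρ' v = ρ v ∨ (v, ρ' v) ∈ S) → cyc ρ ≤ cyc ρ') →
      ∃ T ⊆ X p \ Q, (X p \ Q).card ≤ T.card + 2 * h ∧ ∀ v ∈ T, ∀ w ∈ T, ρ.SameCycle v w

/-- (about 80 lines; uses `S_Typ`) **Descent inside the clusters.**

Proof.  Let `𝒞` be the (finite, nonempty: `ρ1`) set of all permutations `ρ'` with: `ρ' v = ρ1 v` for all
`v` which are in no `X p \ Q`; `ρ' v ∈ Y p` for `v ∈ X p \ Q`; `ρ' v = ρ1 v ∨ (v, ρ' v) ∈ S` for all `v`.  Let `ρ`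
be an element of `𝒞` with minimal `cyc`.  The invariants hold for `ρ`: `st` by definition; `off`:
`v ∉ U`, `v ∉ Q` is in no `X p ⊆ U`; `arc`: from `arc` for `ρ1`; `vir`: `V = ∅`; `cro`: if
`o v ≠ i (σ v)` then `v ∉ U`, so `v` is in no `X p` and `ρ v = ρ1 v = σ v`.  `XTyp`: for `p` with
`4 |X p ∩ Q| ≤ y` use `S_Typ`; a permutation `ρ'` as in its hypothesis is in `𝒞` (for `v ∈ X p' \ Q`,
`p' ≠ p`, `v ∉ X p` so `ρ' v = ρ v ∈ Y p'`), so `cyc ρ ≤ cyc ρ'`. -/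
def S_MinC : Prop :=
  ∀ (n K k : ℕ) (S : Finset (Fin n × Fin n)) (o i : Fin n → Fin K) (cl : Fin k → Fin K)
    (X Y : Fin k → Finset (Fin n)) (Γ : Fin k → Fin k → Prop) (h x y : ℕ) (d c ν : ℝ),
    XSys S o i cl X Y Γ h x y d c ν → 0 < d → d ≤ 1 → 1 ≤ h → 32 * (h : ℝ) ≤ d ^ 2 * x → y ≤ x →
    ∀ (σ ρ1 : Equiv.Perm (Fin n)) (U Q : Finset (Fin n)), (∀ p, X p ⊆ U) →
      (∀ v ∈ U, o v = i (σ v)) → XInv S o i X Y σ ρ1 U Q ∅ →
      ∃ ρ : Equiv.Perm (Fin n), XInv S o i X Y σ ρ U Q ∅ ∧ cyc ρ ≤ cyc ρ1 ∧ XTyp X h y ρ Q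

/-- (about 100 lines) **Counting cycles.**

Proof.  Let `N` be the set of the `p` with `4 |X p ∩ Q| > y`; the `X p` are disjoint, so
`|N| y ≤ 4 |Q|`.  For `p ∉ N` let `T_p` be as in `XTyp`.  Let `W` be the union of: one element of every
nonempty `T_p`, `p ∉ N` (at most `k` elements); `Q`; the `X p` with `p ∈ N` (at most `2 x |N|`); the sets
`(X p \ Q) \ T_p`, `p ∉ N` (at most `2 h k`); `U \ ⋃ X p`; a set with exactly one element of every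
cycle of `σ` (`cyc_trans`).  Every cycle `C` of `ρ` meets `W`: suppose not.  If `z ∈ C ∩ U` then `z ∈ X p` for
some `p` (as `C ∩ (U \ ⋃ X p) = ∅`), `p ∉ N`, `z ∉ Q`, so `z ∈ T_p`, and the chosen element of `T_p` is in `C`,
a contradiction.  So `C` is disjoint from `U ∪ Q`, `ρ = σ` on `C`, hence `C` is also a cycle of `σ` (all
powers of `ρ` and `σ` agree on `C`) and meets the last set.  So `cyc ρ ≤ |W|` (`cyc_le`). -/
def S_Cnt : Prop :=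
  ∀ (n k : ℕ) (X : Fin k → Finset (Fin n)) (h x y : ℕ) (σ ρ : Equiv.Perm (Fin n))
    (U Q : Finset (Fin n)), (∀ p p', p ≠ p' → Disjoint (X p) (X p')) → (∀ p, (X p).card ≤ 2 * x) →
    (∀ v, v ∉ U → v ∉ Q → ρ v = σ v) → XTyp X h y ρ Q →
    y * cyc ρ ≤ y * (k + Q.card + 2 * h * k + (U \ univ.biUnion X).card + cyc σ) + 8 * x * Q.card

/-- (about 150 lines; uses `S_Sat`, `S_Lay`, `S_Sw`) **Removing a virtual arc.**

Proof.  Take `N` from `S_Sat`, `P` for `u` (first statement) and `P'` for `w = ρ u` (second statement);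
both are subsets of `A = Cl cl (o u) \ N`, as `i (ρ u) = o u`.  They have at least `c k > 0` elements.  By
`RPp (ν/2) ℓ` for `A, P, P'` there is a walk `w_0 ∈ P, ..., w_m ∈ P'` in `A`, `1 ≤ m ≤ ℓ`.  Let `D_0` be
the set of the `v ∈ X (w_0) \ Q` with `(u, ρ v) ∈ S`, `D_m` the set of the `v ∈ X (w_m) \ Q` with
`(v, ρ u) ∈ S`, and `D_j = X (w_j) \ Q` for `0 < j < m`.  All have at least `3y/4` elements (for the
middle ones: `|X p \ Q| ≥ x - y/4 ≥ 3y/4`), and `3y/4 ≥ 2h (ℓ + 1) + 1`.  So one can choose, one after the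
other, pairwise disjoint subsets `Λ_j ⊆ D_j \ {u}` with `2h` elements.  `S_Lay` with
`R v w :⟺ (v, ρ w) ∈ S` (holes: `dens` for `Γ (w_j) (w_(j+1))`, `A ⊆ X (w_j)`, `ρ B ⊆ Y (w_(j+1))`) gives
`x_j ∈ Λ_j`, `j ≤ m`, with `(x_j, ρ x_(j+1)) ∈ S`.  Apply `S_Sw` to `u, x_0, ..., x_m`.  Let `F` be the set of
these `m + 2 ≤ ℓ + 2` vertices.  `(v, ρ' v) ∈ S` for `v ∈ F`.  The vertices `x_j ∈ X p \ Q` satisfy
`ρ x_j ∈ Y p`, so `o x_j = cl p = i (ρ x_j)`. -/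
def S_Fix : Prop :=
  ∀ (n K k : ℕ) (S : Finset (Fin n × Fin n)) (o i : Fin n → Fin K) (cl : Fin k → Fin K)
    (X Y : Fin k → Finset (Fin n)) (Γ : Fin k → Fin k → Prop) (h x y ℓ : ℕ) (d c ν : ℝ),
    XSys S o i cl X Y Γ h x y d c ν → 0 < d → 0 < ν → ν ≤ c → RPp (ν / 2) ℓ → 1 ≤ k → 1 ≤ h →
    4 * (ℓ + 1) * (12 * h + 2) ≤ y → y ≤ x →
    ∀ (ρ : Equiv.Perm (Fin n)) (Q : Finset (Fin n)), (∀ p, ∀ v ∈ X p, v ∉ Q → ρ v ∈ Y p) →
      8 * (Q.card : ℝ) ≤ ν * k * y → ∀ u, o u = i (ρ u) →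
      ∃ (ρ' : Equiv.Perm (Fin n)) (F : Finset (Fin n)), u ∈ F ∧ F.card ≤ 4 * ℓ + 6 ∧
        (∀ v ∈ F, (v, ρ' v) ∈ S) ∧ (∀ v, v ∉ F → ρ' v = ρ v) ∧ ∀ v ∈ F, o v = i (ρ v)

/-- (about 250 lines; uses `S_Sat`, `S_Lay`, `S_Cake`, `S_Hlv`, `S_Pos`, `S_VT`) **Merging two cycles of
one class.**

Proof.  Take `N` from `S_Sat` and for `p ∉ N` the set `T_p` from `XTyp`.  Let `a = o u = o v = i (ρ u) = i (ρ v)`
and `A = Cl cl a \ N`.  `S_Sat` gives `P_u, P_v` (out-neighbours of `u`, `v`) and `P'_u, P'_v`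
(in-neighbours of `ρ u`, `ρ v`), subsets of `A` with at least `c k > 0` elements.  By `RPp (ν/2) ℓ` there
are walks `w_0 ∈ P_u, ..., w_m ∈ P'_v` and `w'_0 ∈ P_v, ..., w'_m' ∈ P'_u`, `1 ≤ m, m' ≤ ℓ`.  Put
`κ = m + 1`, `λ = m' + 1`, `L = κ + λ ≤ 2 (ℓ + 1)`, `p_j = w_j` for `j < κ` and `p_(κ+j) = w'_j` for `j < λ`.
Let `D_j = T_(p_j)`, intersected for `j = 0` with `{z : (u, ρ z) ∈ S}`, for `j = κ - 1` with
`{z : (z, ρ v) ∈ S}`, for `j = κ` with `{z : (v, ρ z) ∈ S}`, for `j = κ + λ - 1` with `{z : (z, ρ u) ∈ S}` (four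
different indices).  Then `|D_j| ≥ 3y/4 - 2h ≥ y/2 ≥ L (3 (4h) + 2)` (for the other `j`:
`|T_p| ≥ |X p \ Q| - 2h ≥ x - y/4 - 2h`).  Take `pos` from `S_Pos` for `ρ` and apply `S_Cake` with
`q = 4h`: sets `D'_j ⊆ D_j`, `|D'_j| ≥ 4h`, in disjoint intervals `[lo_j, hi_j)` which do not contain
`pos u`, `pos v`.  `S_Hlv` with `q = 2h` gives `D_j⁻, D_j⁺ ⊆ D'_j` with `2h` elements each and
`pos a < pos b` for `a ∈ D_j⁻`, `b ∈ D_j⁺`.
Apply `S_Lay` to the layers `D_0⁻, D_0⁺, D_1⁻, ..., D_(κ-1)⁺` with `R z z' :⟺ (z, ρ z') ∈ S`; the holes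
condition is `dens` for `Γ (p_j) (p_j)` between `D_j⁻` and `D_j⁺` and for `Γ (p_j) (p_(j+1))` between `D_j⁺`
and `D_(j+1)⁻` (`ρ` maps `X p \ Q` into `Y p`).  We get `a_j ∈ D_j⁻`, `b_j ∈ D_j⁺`, `j < κ`, with
`(a_j, ρ b_j) ∈ S`, `(b_j, ρ a_(j+1)) ∈ S`.  In the same way for `κ ≤ j < κ + λ`.
`a_j, b_j ∈ T_(p_j)` are in one cycle of `ρ` and `pos a_j < pos b_j`, so `S_Pos` gives `m_j` with
`b_j = ρ^(m_j) a_j` and `lo_j ≤ pos a_j ≤ pos (ρ^s a_j) ≤ pos b_j < hi_j` for `s ≤ m_j`; so the pieces are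
disjoint and do not contain `u`, `v`.  All hypotheses of `S_VT` hold (with `k = κ`, `l = λ`; extend `a`,
`b`, `m` to `ℕ` arbitrarily).  Its `F` has at most `2 L + 2 ≤ 4 ℓ + 6` elements; its elements are `u`, `v` or
elements `z` of some `X p \ Q`, for which `o z = cl p = i (ρ z)`. -/
def S_VTs : Prop :=
  ∀ (n K k : ℕ) (S : Finset (Fin n × Fin n)) (o i : Fin n → Fin K) (cl : Fin k → Fin K)
    (X Y : Fin k → Finset (Fin n)) (Γ : Fin k → Fin k → Prop) (h x y ℓ : ℕ) (d c ν : ℝ),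
    XSys S o i cl X Y Γ h x y d c ν → 0 < d → 0 < ν → ν ≤ c → RPp (ν / 2) ℓ → 1 ≤ k → 1 ≤ h →
    4 * (ℓ + 1) * (12 * h + 2) ≤ y → y ≤ x →
    ∀ (ρ : Equiv.Perm (Fin n)) (Q : Finset (Fin n)), (∀ p, ∀ v ∈ X p, v ∉ Q → ρ v ∈ Y p) →
      8 * (Q.card : ℝ) ≤ ν * k * y → XTyp X h y ρ Q →
      ∀ u v, o u = i (ρ u) → o v = i (ρ v) → o u = o v → ¬ ρ.SameCycle u v →
      ∃ (ρ' : Equiv.Perm (Fin n)) (F : Finset (Fin n)), cyc ρ' < cyc ρ ∧ F.card ≤ 4 * ℓ + 6 ∧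
        (∀ v ∈ F, (v, ρ' v) ∈ S) ∧ (∀ v, v ∉ F → ρ' v = ρ v) ∧ ∀ v ∈ F, o v = i (ρ v)

/-- (about 200 lines; uses `S_MinC`, `S_Cnt`, `S_Fix`, `S_VTs`) **All own tails of a class in one cycle.**

Proof.  Let `ℓ' = 4 ℓ + 6`.
(0) If `XInv` holds for `(ρ, Q, V')` and `ρ'`, `F` are as in the conclusion of `S_Fix` or `S_VTs` then
`XInv` holds for `(ρ', Q ∪ F, V' \ F)`: `st`: for `v ∈ X p`, `v ∉ Q ∪ F`, `ρ' v = ρ v`; `off`, `vir`: same;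
`arc`: for `v ∈ F`, `(v, ρ' v) ∈ S`, otherwise `ρ' v = ρ v`; `cro`: if `o v ≠ i (σ v)` then `ρ v = σ v` and
`o v ≠ i (ρ v)`, so `v ∉ F`.
(1) Virtual arcs.  Start with `(ρ0, ∅, V)`; while `V'` is not empty choose `u ∈ V'`; `o u = i (ρ u)` by `vir`;
apply `S_Fix`.  In every step `|V'|` decreases by at least one and `|Q|` increases by at most `ℓ'`;
`8 |Q| ≤ ν k y` holds during the process because `|Q| ≤ ℓ' |V|` and by the numerical hypothesis.  We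
end with `(ρ1, Q1, ∅)`, `|Q1| ≤ ℓ' |V|`.
(2) Apply `S_MinC` to `(ρ1, Q1)`: `ρ2` with `XInv` and `XTyp`.  By `S_Cnt`, as real numbers,
`cyc ρ2 ≤ t := k + ℓ'|V| + 2hk + |U \ ⋃ X| + cyc σ + 8x ℓ'|V| / y`.
(3) Claim by induction on `j`: if `(ρ, Q, ∅)` satisfies `XInv` and `XTyp`, `cyc ρ ≤ j` and
`8 (|Q| + ℓ' j) ≤ ν k y`, then the conclusion holds.  If any two `u, v` with `o u = i (ρ u)`,
`o v = i (ρ v)`, `o u = o v` are in the same cycle, take `ρ` and `F = Q`.  Otherwise `S_VTs` gives `ρ', F`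
with `cyc ρ' < cyc ρ ≤ j`, and `S_MinC` for `(ρ', Q ∪ F)` gives `ρ''` with `XInv`, `XTyp`, `cyc ρ'' ≤ j - 1`; the
induction hypothesis applies, as `8 (|Q ∪ F| + ℓ' (j - 1)) ≤ 8 (|Q| + ℓ' j) ≤ ν k y`.
Apply (3) to `(ρ2, Q1)` with `j = cyc ρ2`. -/
def S_XM : Prop :=
  ∀ (n K k : ℕ) (S : Finset (Fin n × Fin n)) (o i : Fin n → Fin K) (cl : Fin k → Fin K)
    (X Y : Fin k → Finset (Fin n)) (Γ : Fin k → Fin k → Prop) (h x y ℓ : ℕ) (d c ν : ℝ),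
    XSys S o i cl X Y Γ h x y d c ν → 0 < d → d ≤ 1 → 0 < ν → ν ≤ c → RPp (ν / 2) ℓ → 1 ≤ k →
    1 ≤ h → 32 * (h : ℝ) ≤ d ^ 2 * x → 4 * (ℓ + 1) * (12 * h + 2) ≤ y → y ≤ x →
    ∀ (σ ρ0 : Equiv.Perm (Fin n)) (U V : Finset (Fin n)), (∀ p, X p ⊆ U) →
      (∀ v ∈ U, o v = i (σ v)) → XInv S o i X Y σ ρ0 U ∅ V →
      8 * ((4 * ℓ + 6 : ℝ) * V.card + (4 * ℓ + 6) * (k + (4 * ℓ + 6) * V.card + 2 * h * k +
        (U \ univ.biUnion X).card + cyc σ + 8 * x * ((4 * ℓ + 6) * V.card) / y)) ≤ ν * k * y →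
      ∃ (ρ : Equiv.Perm (Fin n)) (F : Finset (Fin n)), 8 * (F.card : ℝ) ≤ ν * k * y ∧
        (∀ v, v ∉ U → v ∉ F → ρ v = σ v) ∧ (∀ v, ρ v = σ v ∨ (v, ρ v) ∈ S) ∧
        (∀ v, o v ≠ i (σ v) → ρ v = σ v) ∧
        ∀ u v, o u = i (ρ u) → o v = i (ρ v) → o u = o v → ρ.SameCycle u v

/-- (about 60 lines) **Linking the classes.**

Proof.  Let `v0` be any vertex with `o v0 = i (ρ v0)` (if there is no vertex at all nothing is to be shown;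
otherwise the second hypothesis gives one), `C` its cycle and `J = {o u : u ∈ C, o u = i (ρ u)}`,
nonempty.  If `a ∈ J` then all `u` with `o u = a = i (ρ u)` are in `C`.  Suppose `J ≠ univ` and take `a ∈ J`,
`b ∉ J` from the last hypothesis.  Case `|O_a ∩ I_b| > 2g`: at most `g` vertices `z` have
`o z ≠ i (ρ z)` and at most `g` vertices `z` have `o (ρ⁻¹ z) ≠ i z`; so there is `z` with `o z = a = i (ρ z)` and
`i z = b = o (ρ⁻¹ z)`.  Then `z ∈ C`, so `ρ⁻¹ z ∈ C`, and `o (ρ⁻¹ z) = b = i (ρ (ρ⁻¹ z))`, i.e. `b ∈ J`, a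
contradiction.  Case `|O_b ∩ I_a| > 2g`: there is `z` with `o z = b = i (ρ z)` and `i z = a = o (ρ⁻¹ z)`; then
`ρ⁻¹ z ∈ C`, so `z ∈ C` and `b ∈ J`, a contradiction.  So `J = univ`; every cycle contains some
`u` with `o u = i (ρ u)`, which is in `C`. -/
def S_Lnk : Prop :=
  ∀ (n K : ℕ) (o i : Fin n → Fin K) (ρ : Equiv.Perm (Fin n)) (g : ℕ),
    (∀ u v, o u = i (ρ u) → o v = i (ρ v) → o u = o v → ρ.SameCycle u v) →
    (∀ v, ∃ w, ρ.SameCycle v w ∧ o w = i (ρ w)) →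
    (univ.filter (fun v => o v ≠ i (ρ v))).card ≤ g →
    (∀ J : Finset (Fin K), J.Nonempty → J ≠ univ → ∃ a ∈ J, ∃ b, b ∉ J ∧
      (2 * g < (Cl o a ∩ Cl i b).card ∨ 2 * g < (Cl o b ∩ Cl i a).card)) →
    ∀ v w, ρ.SameCycle v w

end Pool.Agent.MPd266dbH
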