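import Pool.Agent.Lib.MP_d266db_co.H.Defs

/-!
# MP_d266db_co, H, SpecP: permutations, positions, layers

Every `S_...` is a statement to be proved in its own file
`Pool/Agent/Lib/MP_d266db_co/H/....lean`; the docstring contains the complete proof.

`σ * Equiv.swap x y` sends `x` to `σ y`, `y` to `σ x` and every other `v` to `σ v`.
`v ~ w` in the docstrings means `σ.SameCycle v w`.
-/

set_option autoImplicit false

namespace Pool.Agent.MPd266dbH

open Finset Pool.Agent.MPd266db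

/-- (about 120 lines) **A transposition merges two cycles.**

Proof.  Let `g = σ * swap x y`, `A` the `σ`-cycle of `x`, `B` the `σ`-cycle of `y` (disjoint, so
`x ≠ y`); `g x = σ y`, `g y = σ x`, `g v = σ v` otherwise.
(1) Every `v ∈ A` satisfies `v ~_g x`: let `i` be minimal with `σ^i v = x` (exists, `A` is finite); for
`s < i` the vertex `σ^s v ∈ A` is neither `x` nor `y`, so `g^i v = σ^i v = x`.  In the same way every
`w ∈ B` satisfies `w ~_g y`.  (2) `x ~_g y`: `g x = σ y ∈ B`, and by the argument of (1) `g^i (σ y) = y`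
for some `i`.  (3) `A ∪ B` and its complement are invariant under `g` and `g = σ` on the complement, so
for `v ∉ A ∪ B` the `g`-cycle of `v` is its `σ`-cycle (all powers `g^s v = σ^s v`, `s : ℕ` or `ℤ`), and no
`v ∉ A ∪ B` is in the `g`-cycle of an element of `A ∪ B`.  So the `g`-cycles are `A ∪ B` and the
`σ`-cycles other than `A`, `B`.  This gives the second statement, and
`univ.image (cls g) = insert (A ∪ B) ((univ.image (cls σ)).erase A |>.erase B)` gives the first. -/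
def S_Mer : Prop :=
  ∀ (n : ℕ) (σ : Equiv.Perm (Fin n)) (x y : Fin n), ¬ σ.SameCycle x y →
    cyc (σ * Equiv.swap x y) + 1 = cyc σ ∧
    ∀ v w, (σ * Equiv.swap x y).SameCycle v w ↔ (σ.SameCycle v w ∨
      ((σ.SameCycle x v ∨ σ.SameCycle y v) ∧ (σ.SameCycle x w ∨ σ.SameCycle y w)))

/-- (about 60 lines; uses `S_Mer`) **A transposition splits a cycle.**

Proof.  Let `g = σ * swap x y`; `g * swap x y = σ`.  By `S_Mer` for `g` it is enough to show that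
`¬ g.SameCycle x y`.  Let `m ≥ 1` be minimal with `σ^m x = y` and `B = {σ^i x : 1 ≤ i ≤ m}`.  Then
`x ∉ B`: if `σ^i x = x`, `1 ≤ i ≤ m`, then `i < m` (as `y ≠ x`) and `σ^(m-i) x = y`, against the
minimality.  For `1 ≤ i < m` the vertex `σ^i x` is not `x` and not `y`, so `g (σ^i x) = σ^(i+1) x ∈ B`;
and `g y = σ x ∈ B`.  So `g` maps `B` into `B`; hence all `g^s y`, `s : ℕ`, lie in `B`, and as
`SameCycle` in a finite type is witnessed by a natural power, `x` is not in the cycle of `y`. -/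
def S_Spl : Prop :=
  ∀ (n : ℕ) (σ : Equiv.Perm (Fin n)) (x y : Fin n), x ≠ y → σ.SameCycle x y →
    cyc (σ * Equiv.swap x y) = cyc σ + 1 ∧ ¬ (σ * Equiv.swap x y).SameCycle x y

/-- (about 60 lines; uses `S_Mer`, `S_Spl`) **Inserting a pair: the number of cycles does not change.**

Proof.  `x ≠ a` and `x ≠ b` (`s = 0`, `s = m`).  Let `g1 = g * swap x b`.
Case 1, `¬ g.SameCycle x b`.  By `S_Mer`, `cyc g1 + 1 = cyc g` and `g1.SameCycle x a` (as
`g.SameCycle b a`); by `S_Spl` for `g1, x, a`: `cyc (g1 * swap x a) = cyc g1 + 1`.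
Case 2, `g.SameCycle x b`.  By `S_Spl`, `cyc g1 = cyc g + 1` and `¬ g1.SameCycle x b`.  Let `m'` be
minimal with `g^m' a = b` (`m' ≤ m`); for `s < m'` the vertex `g^s a` is not `b` and not `x`, so
`g1 (g^s a) = g^(s+1) a`; hence `g1^m' a = b` and `g1.SameCycle a b`, so `¬ g1.SameCycle x a`.  By
`S_Mer` for `g1, x, a`: `cyc (g1 * swap x a) + 1 = cyc g1`. -/
def S_Ins : Prop :=
  ∀ (n : ℕ) (g : Equiv.Perm (Fin n)) (x a b : Fin n) (m : ℕ), a ≠ b → b = (g ^ m) a →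
    (∀ s ≤ m, (g ^ s) a ≠ x) → cyc (g * Equiv.swap x b * Equiv.swap x a) = cyc g

/-- (about 40 lines; uses `S_Mer`, `S_Spl`) **Inserting a pair from two cycles.**

Proof.  Let `g1 = g * swap x b`.  Case 1, `¬ g.SameCycle x b`: `cyc g1 + 1 = cyc g` (`S_Mer`) and
`cyc (g1 * swap x a) ≤ cyc g1 + 1` (`S_Mer` or `S_Spl`).  Case 2, `g.SameCycle x b`:
`cyc g1 = cyc g + 1` and `¬ g1.SameCycle x b` (`S_Spl`).  As `g1 * swap x b = g`, `S_Mer` for `g1, x, b`
gives `g1.SameCycle x a → g.SameCycle x a`, and `g.SameCycle x a` together with `g.SameCycle x b` would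
give `g.SameCycle a b`.  So `¬ g1.SameCycle x a` and `cyc (g1 * swap x a) + 1 = cyc g1 = cyc g + 1`. -/
def S_InsB : Prop :=
  ∀ (n : ℕ) (g : Equiv.Perm (Fin n)) (x a b : Fin n), x ≠ a → x ≠ b → ¬ g.SameCycle a b →
    cyc (g * Equiv.swap x b * Equiv.swap x a) ≤ cyc g

/-- (about 60 lines; uses `S_Ins`) **Inserting a pair which is far from the changes.**

Proof.  By induction on `s ≤ m`, `g^s a = ρ^s a` (as `ρ^s a ∉ F`, `g (ρ^s a) = ρ^(s+1) a`).  So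
`b = g^m a` and `g^s a ≠ x` for `s ≤ m` (as `x ∈ F`).  Put `g' = g * swap x b * swap x a` and use
`S_Ins`.  The values: `g' x = g a = ρ a`, `g' a = g b = ρ b`, `g' b = g x` (as `x, a, b` are
distinct and `a, b ∉ F`). -/
def S_Chn : Prop :=
  ∀ (n : ℕ) (ρ g : Equiv.Perm (Fin n)) (F : Finset (Fin n)) (x a b : Fin n) (m : ℕ),
    (∀ v, v ∉ F → g v = ρ v) → x ∈ F → a ≠ b → b = (ρ ^ m) a → (∀ s ≤ m, (ρ ^ s) a ∉ F) →
    ∃ g' : Equiv.Perm (Fin n), cyc g' = cyc g ∧ g' x = ρ a ∧ g' a = ρ b ∧ g' b = g x ∧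
      ∀ v, v ≠ x → v ≠ a → v ≠ b → g' v = g v

/-- (about 200 lines; uses `S_Mer`, `S_Chn`) **A virtual transposition.**

The closed walk is `u → a_0 → b_0 → a_1 → ... → b_(k-1) → v → a_k → b_k → ... → b_(k+l-1) → u`, where
`x → y` means `(x, ρ y) ∈ S`, and from `a_i` one gets to `b_i` by a piece `ρ^s (a_i)`, `s ≤ m_i`, of a
cycle of `ρ`; the pieces are disjoint and do not contain `u`, `v`.

Proof.  `u ≠ v`.  Let `g_0 = ρ * swap u v`: `g_0 u = ρ v`, `g_0 v = ρ u`, `cyc g_0 + 1 = cyc ρ`.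
First loop: for `j = 0, ..., k` there is `g` with `cyc g = cyc g_0`, `g = ρ` outside of
`F_j = {u, v} ∪ {a_i, b_i : k - j ≤ i < k}`, `g v = ρ u`, `g u = ρ v` if `j = 0` and
`g u = ρ (a_(k-j))` if `j ≥ 1`, `g (a_i) = ρ (b_i)` for `k - j ≤ i < k`, `g (b_i) = ρ (a_(i+1))` for
`k - j ≤ i < k - 1`, and `g (b_(k-1)) = ρ v` if `j ≥ 1`.  Step `j → j + 1 ≤ k`: apply `S_Chn` with
`x = u`, `(a, b) = (a_i, b_i)`, `i = k - j - 1`, `F = F_j` (the piece of `i` avoids `F_j`, because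
`a_i', b_i'` are in the piece of `i'`).
Second loop: starting from the result, insert after `v` the pairs `i = k + l - 1, k + l - 2, ..., k` in
the same way (`F` now also contains `a_i, b_i` for `i < k` and for the indices already inserted); at
the end `g v = ρ (a_k)`, `g (b_i) = ρ (a_(i+1))` for `k ≤ i < k + l - 1`, `g (b_(k+l-1)) = ρ u`.
Let `ρ'` be the final permutation and `F` the final set. -/
def S_VT : Prop :=
  ∀ (n : ℕ) (ρ : Equiv.Perm (Fin n)) (S : Finset (Fin n × Fin n)) (u v : Fin n) (k l : ℕ)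
    (a b : ℕ → Fin n) (m : ℕ → ℕ),
    ¬ ρ.SameCycle u v → 1 ≤ k → 1 ≤ l →
    (∀ i < k + l, a i ≠ b i ∧ b i = (ρ ^ (m i)) (a i)) →
    (∀ i < k + l, ∀ s ≤ m i, (ρ ^ s) (a i) ≠ u ∧ (ρ ^ s) (a i) ≠ v) →
    (∀ i < k + l, ∀ j < k + l, i ≠ j → ∀ s ≤ m i, ∀ t ≤ m j, (ρ ^ s) (a i) ≠ (ρ ^ t) (a j)) →
    (u, ρ (a 0)) ∈ S → (∀ i < k + l, (a i, ρ (b i)) ∈ S) →
    (∀ i, i + 1 < k + l → i + 1 ≠ k → (b i, ρ (a (i + 1))) ∈ S) →
    (b (k - 1), ρ v) ∈ S → (v, ρ (a k)) ∈ S → (b (k + l - 1), ρ u) ∈ S →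
    ∃ (ρ' : Equiv.Perm (Fin n)) (F : Finset (Fin n)), cyc ρ' < cyc ρ ∧
      F.card ≤ 2 * (k + l) + 2 ∧ (∀ x ∈ F, (x, ρ' x) ∈ S) ∧ (∀ x, x ∉ F → ρ' x = ρ x) ∧
      ∀ x ∈ F, x = u ∨ x = v ∨ ∃ i < k + l, x = a i ∨ x = b i

/-- (about 80 lines; uses `S_Mer`, `S_InsB`, `S_Chn`) **A closed walk of length four that reduces the
number of cycles.**

Proof.  `u ≠ v`.  Let `g_0 = ρ * swap u v`, `cyc g_0 + 1 = cyc ρ` (`S_Mer`), and
`ρ' = g_0 * swap u b * swap u a`; then `ρ' u = ρ a`, `ρ' a = ρ b`, `ρ' b = g_0 u = ρ v`, `ρ' v = ρ u` and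
`ρ' x = ρ x` otherwise.  In the second case take `ρ'` from `S_Chn` with `F = {u, v}`, `x = u`:
`cyc ρ' = cyc g_0`.  In the first case, `¬ g_0.SameCycle a b` by the second part of `S_Mer`:
`a ~ b` is false, and `(u ~ a ∨ v ~ a) ∧ (u ~ b ∨ v ~ b)` would give `v ~ a` and `v ~ b`.  So `S_InsB`
gives `cyc ρ' ≤ cyc g_0`. -/
def S_Four : Prop :=
  ∀ (n : ℕ) (ρ : Equiv.Perm (Fin n)) (S : Finset (Fin n × Fin n)) (u a b v : Fin n),
    ¬ ρ.SameCycle u v → a ≠ b → u ≠ a → u ≠ b → v ≠ a → v ≠ b →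
    ((¬ ρ.SameCycle a b ∧ ¬ ρ.SameCycle u a ∧ ¬ ρ.SameCycle u b) ∨
      ∃ m : ℕ, b = (ρ ^ m) a ∧ ∀ s ≤ m, (ρ ^ s) a ≠ u ∧ (ρ ^ s) a ≠ v) →
    (u, ρ a) ∈ S → (a, ρ b) ∈ S → (b, ρ v) ∈ S → (v, ρ u) ∈ S →
    ∃ ρ' : Equiv.Perm (Fin n), cyc ρ' < cyc ρ ∧
      (∀ x, x ≠ u → x ≠ a → x ≠ b → x ≠ v → ρ' x = ρ x) ∧
      ((u, ρ' u) ∈ S ∧ (a, ρ' a) ∈ S ∧ (b, ρ' b) ∈ S ∧ (v, ρ' v) ∈ S)

/-- (about 50 lines) **Switching along a closed walk.**

Proof by induction on `m`.  For `m = 0` take `ρ' = ρ`.  Step: let `ρ1` be the permutation for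
`x_0, ..., x_m`; then `ρ' = ρ1 * swap (x_m) (x_(m+1))` works: `ρ' (x_m) = ρ1 (x_(m+1)) = ρ (x_(m+1))` and
`ρ' (x_(m+1)) = ρ1 (x_m) = ρ (x_0)`. -/
def S_Sw : Prop :=
  ∀ (n : ℕ) (ρ : Equiv.Perm (Fin n)) (m : ℕ) (x : ℕ → Fin n),
    (∀ i ≤ m, ∀ j ≤ m, i ≠ j → x i ≠ x j) →
    ∃ ρ' : Equiv.Perm (Fin n), (∀ i < m, ρ' (x i) = ρ (x (i + 1))) ∧ ρ' (x m) = ρ (x 0) ∧
      ∀ v, (∀ i ≤ m, v ≠ x i) → ρ' v = ρ v

/-- (about 100 lines) **Positions: the cycles are written down one after the other.**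

Proof.  Let `N = orderOf ρ > 0`, `B v` the least element of the cycle of `v` and `idx v < N` the least
`j : ℕ` with `ρ^j (B v) = v` (it exists and is `< N`, as `SameCycle` gives some power, and powers can be
reduced modulo `N`).  Put `pos v = (B v) * N + idx v`.  If `pos v = pos w` then `B v = B w` and
`idx v = idx w`, so `v = w`.  Let `x ~ y`, `pos x < pos y`: `B x = B y =: B`, `idx x < idx y`, and
`y = ρ^m x` with `m = idx y - idx x`.  For `s ≤ m` we have `idx (ρ^s x) = idx x + s`: otherwise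
`ρ^j B = ρ^(idx x + s) B` for some `j < idx x + s`; with `p = idx x + s - j > 0`, `p ≤ idx y`, applying a
power of `ρ` gives `ρ^(idx y - p) B = ρ^(idx y) B = y`, against the minimality of `idx y`.  So
`pos (ρ^s x) = pos x + s` is between `pos x` and `pos y`. -/
def S_Pos : Prop :=
  ∀ (n : ℕ) (ρ : Equiv.Perm (Fin n)), ∃ pos : Fin n → ℕ, Function.Injective pos ∧
    ∀ x y, ρ.SameCycle x y → pos x < pos y → ∃ m : ℕ, 1 ≤ m ∧ y = (ρ ^ m) x ∧
      ∀ s ≤ m, pos x ≤ pos ((ρ ^ s) x) ∧ pos ((ρ ^ s) x) ≤ pos y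

/-- (about 150 lines) **Disjoint intervals for several sets.**

Proof.  Let `q' = 3 q + 2`.  Claim, by induction on `m`: for every set `I` of `m` indices and every
`t : ℕ` such that `#{x ∈ D i : t ≤ pos x} ≥ m q'` for all `i ∈ I` there are `lo, hi` with `t ≤ lo i`,
`#{x ∈ D i : lo i ≤ pos x < hi i} ≥ q'` for `i ∈ I` and `hi i ≤ lo j ∨ hi j ≤ lo i` for different
`i, j ∈ I`.  For `m = 0` nothing is to be shown.  Let `m ≥ 1` and let `h` be the least number such that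
some `i ∈ I` has `#{x ∈ D i : t ≤ pos x < h} ≥ q'` (it exists; `h > t` as `q' > 0`).  Then for all
`j ∈ I`: `#{x ∈ D j : t ≤ pos x < h - 1} < q'`, and as `pos` is injective
`#{x ∈ D j : t ≤ pos x < h} ≤ q'`; so `#{x ∈ D j : h ≤ pos x} ≥ (m - 1) q'`.  Put `lo i = t`, `hi i = h`
and use the induction hypothesis for `I \ {i}` and `h`.
Apply the claim to all indices, `t = 0`.  Then, for every `i`, cut: let `p1 ≤ p2` be the two numbers
`pos u`, `pos v`; the three intervals `[lo, min hi p1)`, `[max lo (p1+1), min hi p2)`,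
`[max lo (p2+1), hi)` do not contain `p1`, `p2`, and every element of `D i` with position in
`[lo, hi)`, except at most two, has its position in one of them.  So one of them contains at least
`q` elements of `D i`; take it as new interval and `D' i` the set of these elements. -/
def S_Cake : Prop :=
  ∀ (n L q : ℕ) (pos : Fin n → ℕ) (u v : Fin n) (D : Fin L → Finset (Fin n)),
    Function.Injective pos → (∀ i, L * (3 * q + 2) ≤ (D i).card) →
    ∃ (D' : Fin L → Finset (Fin n)) (lo hi : Fin L → ℕ),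
      (∀ i, D' i ⊆ D i ∧ q ≤ (D' i).card ∧ (∀ x ∈ D' i, lo i ≤ pos x ∧ pos x < hi i) ∧
        ¬ (lo i ≤ pos u ∧ pos u < hi i) ∧ ¬ (lo i ≤ pos v ∧ pos v < hi i)) ∧
      ∀ i j, i ≠ j → hi i ≤ lo j ∨ hi j ≤ lo i

/-- (about 50 lines) **Lower and upper part.**

Proof.  `q = 0`: empty sets.  Let `h` be the least number with `#{x ∈ D : pos x < h} ≥ q`; as `pos` is
injective this number is exactly `q`.  `A` is this set and `B` a subset with `q` elements of the rest,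
which has at least `2q - q` elements, all with `pos ≥ h`. -/
def S_Hlv : Prop :=
  ∀ (n q : ℕ) (pos : Fin n → ℕ) (D : Finset (Fin n)), Function.Injective pos → 2 * q ≤ D.card →
    ∃ A B : Finset (Fin n), A ⊆ D ∧ B ⊆ D ∧ A.card = q ∧ B.card = q ∧
      ∀ a ∈ A, ∀ b ∈ B, pos a < pos b

/-- (about 60 lines) **Paths through layers without large holes.**

Proof.  Let `R_0 = Λ 0` and `R_(j+1)` the set of all `y ∈ Λ (j+1)` such that `R j x y` for some
`x ∈ R_j`.  By induction `|R_j| ≥ h` for `j ≤ m`: the set `B = Λ (j+1) \ R_(j+1)` has no `R j`-neighbour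
in `R_j`, so `|B| < h` and `|R_(j+1)| ≥ 2h - h`.  Choose `x_m ∈ R_m` and go back (a path to every element of
`R_j` exists, by induction on `j`). -/
def S_Lay : Prop :=
  ∀ (n m h : ℕ) (Λ : ℕ → Finset (Fin n)) (R : ℕ → Fin n → Fin n → Prop), 1 ≤ h →
    (∀ i ≤ m, 2 * h ≤ (Λ i).card) →
    (∀ i < m, ∀ A B : Finset (Fin n), A ⊆ Λ i → B ⊆ Λ (i + 1) → h ≤ A.card → h ≤ B.card →
      ∃ a ∈ A, ∃ b ∈ B, R i a b) →
    ∃ x : ℕ → Fin n, (∀ i ≤ m, x i ∈ Λ i) ∧ ∀ i < m, R i (x i) (x (i + 1))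

/-- (about 80 lines) **Short walks in a digraph all of whose cuts are dense.**

Proof.  `ℓ = ⌊1/ν⌋ + 2`.  Let `A_0 = P` and `A_(i+1) = A_i ∪ {p' ∈ A : ∃ p ∈ A_i, Γ p p'}`.  If
`A_i ∩ Q = ∅` then `Q ⊆ A \ A_i` and `P ⊆ A_i`, so at least `ν k²` pairs `(p, p')`, `p ∈ A_i`,
`p' ∈ A \ A_i` satisfy `Γ p p'`; all these `p'` are in `A_(i+1) \ A_i` and each of them is in at most `k`
pairs, so `|A_(i+1)| ≥ |A_i| + ν k`.  If `A_i ∩ Q = ∅` for all `i ≤ ⌊1/ν⌋` then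
`|A_(⌊1/ν⌋+1)| ≥ (⌊1/ν⌋ + 1) ν k > k`, a contradiction (`k > 0` as `P` is nonempty).  So
some `A_i`, `i ≤ ⌊1/ν⌋`, contains an element `q ∈ Q`.  By induction, every element of `A_i` is the
end of a walk of length exactly `i` which starts in `P` and stays in `A` (use the loops `Γ p p`).
Take such a walk to `q` and add the loop at `q`: length `m = i + 1`. -/
def S_RP : Prop :=
  ∀ ν : ℝ, 0 < ν → ∃ ℓ : ℕ, ∀ (k : ℕ) (Γ : Fin k → Fin k → Prop) (c : ℝ)
    (A P Q : Finset (Fin k)), (∀ p ∈ A, Γ p p) →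
    (∀ B : Finset (Fin k), B ⊆ A → c * k ≤ B.card → c * k ≤ (A \ B).card →
      ∃ W : Finset (Fin k × Fin k), W ⊆ B ×ˢ (A \ B) ∧ (∀ w ∈ W, Γ w.1 w.2) ∧
        ν * (k : ℝ) ^ 2 ≤ W.card) →
    P ⊆ A → Q ⊆ A → P.Nonempty → c * k ≤ P.card → c * k ≤ Q.card →
    ∃ (m : ℕ) (w : ℕ → Fin k), 1 ≤ m ∧ m ≤ ℓ ∧ w 0 ∈ P ∧ w m ∈ Q ∧ (∀ i ≤ m, w i ∈ A) ∧
      ∀ i < m, Γ (w i) (w (i + 1))

end Pool.Agent.MPd266dbH
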