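import Pool.Agent.Lib.MP_d266db_co.H.Defs

/-!
# MP_d266db_co, H, SpecQ: groups of cross arcs, random parts, factors

Every `S_...` is a statement to be proved in its own file
`Pool/Agent/Lib/MP_d266db_co/H/....lean`; the docstring contains the complete proof.
-/

set_option autoImplicit false

namespace Pool.Agent.MPd266dbH

open Finset Pool.Agent.MPd266db

/-! ## Groups of cross arcs -/

/-- (about 120 lines) **Characters of `(ℤ/2)^k`.**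

Proof.  Identify `Fin (2^k - 1)` with the nonzero elements of `Fin k → ZMod 2` and let `b m p` be true iff
`⟨m, p⟩ = ∑ m_j p_j = 1`.  It is symmetric.  For `p ≠ 0` choose `j` with `p_j = 1`; `m ↦ m + e_j` changes
`⟨m, p⟩`, so exactly half of the `2^k` elements `m` (all of them nonzero) have `⟨m, p⟩ = 1`.  For nonzero
`p ≠ q` there is `e` with `⟨e, p⟩ = 1`, `⟨e, q⟩ = 0`: if `p_j = 1`, `q_j = 0` for some `j` take `e_j`; otherwise
the support of `p` is a proper nonempty subset of the support of `q`; take `e_j + e_l` with `p_j = 1`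
(so `q_j = 1`), `p_l = 0`, `q_l = 1`.  `m ↦ m + e` is a bijection between the `m` with
`⟨m, q⟩ = 1`, `⟨m, p⟩ = 0` and those with `⟨m, q⟩ = 1`, `⟨m, p⟩ = 1`; together these are `2^(k-1)`, and all
are nonzero. -/
def S_Had : Prop :=
  ∀ k : ℕ, 2 ≤ k → ∃ b : Fin (2 ^ k - 1) → Fin (2 ^ k - 1) → Bool, (∀ m p, b m p = b p m) ∧
    (∀ p, (univ.filter (fun m => b m p = true)).card = 2 ^ (k - 1)) ∧
    ∀ p q, p ≠ q → (univ.filter (fun m => b m p = false ∧ b m q = true)).card = 2 ^ (k - 2)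

/-- (about 80 lines) **Round robin.**

Proof.  For every key `κ` with `G κ` nonempty enumerate the arcs of `A` with this key as
`e_0, ..., e_(s-1)` and `G κ` as `m_0, ..., m_(q-1)`, and let `g e_j = m_(j mod q)`.  For all other arcs
`g e = none`.  The fibre of `m_l` has `⌊s/q⌋` or `⌊s/q⌋ + 1` elements, so `q` times it differs from `s` by at
most `q`.  (It may be convenient to use `Finset.equitabilise` or `Nat` division facts.) -/
def S_RR : Prop :=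
  ∀ (n M : ℕ) (A : Finset (Fin n × Fin n)) (κ : Type) [DecidableEq κ] (key : Fin n × Fin n → κ)
    (G : κ → Finset (Fin M)), ∃ g : Fin n × Fin n → Option (Fin M),
      (∀ e m, g e = some m → e ∈ A ∧ m ∈ G (key e)) ∧
      ∀ (x : κ) (m : Fin M), m ∈ G x →
        |(((G x).card : ℝ) * (A.filter (fun e => key e = x ∧ g e = some m)).card) -
          (A.filter (fun e => key e = x)).card| ≤ (G x).card

/-- (about 120 lines) **Chebyshev, linear form.**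

Proof.  Put `β = |B|/M` and `f p = (if p ∈ B then 1 else 0) - β`, so `∑_p f p = 0` and
`∑_p f p ^ 2 ≤ M`.  Then `∑_c (∑_v w v * f (c v))^2 = ∑_{v, v'} w v * w v' * ∑_c f (c v) * f (c v')`, and the
inner sum is `0` for `v ≠ v'` and `M^(n-1) ∑_p f p ^ 2 ≤ M^n` for `v = v'`.  So the sum is at most
`M^n ∑ w v ^ 2`; every `c` of the set on the left contributes at least `t ^ 2`. -/
def S_ChL : Prop :=
  ∀ (n M : ℕ) (B : Finset (Fin M)) (w : Fin n → ℝ) (t : ℝ), 1 ≤ M → 0 < t →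
    ((univ.filter (fun c : Fin n → Fin M =>
      t ≤ |∑ v, w v * (if c v ∈ B then 1 else 0) - (B.card : ℝ) / M * ∑ v, w v|)).card : ℝ) * t ^ 2 ≤
      (M : ℝ) ^ n * ∑ v, w v ^ 2

/-- (about 150 lines) **Chebyshev, bilinear form.**

Proof.  Let `Z c = #{(u, v) ∈ L : c u ∈ B1, c v ∈ B2}` and `μ = |B1| |B2| / M² · |L|`.  As `u ≠ v` for
`(u, v) ∈ L`, `∑_c Z c = M^n μ`.  `∑_c Z c ^ 2` is the sum over `(e, e') ∈ L²` of the number of `c` for which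
both arcs are good; if `e`, `e'` have no common vertex this number is
`M^(n-4) |B1|² |B2|²`, otherwise it is at most `M^n`.  For given `e` at most `4 Δ` arcs `e'` of `L` have a
vertex in common with `e`.  So `∑_c (Z c - μ)^2 = ∑_c Z c ^ 2 - M^n μ² ≤ M^n · 4 Δ |L|`. -/
def S_ChB : Prop :=
  ∀ (n M Δ : ℕ) (B1 B2 : Finset (Fin M)) (L : Finset (Fin n × Fin n)) (t : ℝ), 1 ≤ M → 0 < t →
    (∀ e ∈ L, e.1 ≠ e.2) → (∀ v, od L v ≤ Δ ∧ idg L v ≤ Δ) →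
    ((univ.filter (fun c : Fin n → Fin M =>
      t ≤ |((L.filter (fun e => c e.1 ∈ B1 ∧ c e.2 ∈ B2)).card : ℝ) -
        (B1.card : ℝ) * B2.card / M ^ 2 * L.card|)).card : ℝ) * t ^ 2 ≤
      (M : ℝ) ^ n * (4 * Δ * L.card)

/-- (about 250 lines; uses `S_ChL`, `S_ChB`) **The cells.**

`ρb = 2^(k-1)/(2^k - 1)` is the proportion of `p` with `b m p = true`, `ρr = (2^(k-1) - 1)/(2^k - 1)` of those
with `b m p = false`.

Proof.  Let `M = 2^k - 1`, `N = 2^k`, `γ1 = min (ε / N) (ε² / (16 M K0²))` and `γ > 0` so small that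
`2 γ / γ1 ≤ min γ1 (ε / N³)` and `2 γ / γ1 ≤ ε² / (64 M K0²)`.  Let `V0` be the set of all `v` such that
`γ1 n ≤ eb A {v} (Cl i a)` or `γ1 n ≤ eb A (Cl o a) {v}` for some `a`.  As the out-degrees sum to `|A| ≤ γ n²`,
at most `(γ/γ1) n` vertices have out-degree `≥ γ1 n`, the same for in-degrees; `|V0| ≤ 2 (γ/γ1) n`.
Choose `c : Fin n → Fin M` uniformly at random; each of the following events fails for few `c`.
(1) For `u ∈ V0`, `m`, `a`: `S_ChL` with the indicator function `w` of the set of the `w ∉ V0` with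
`(u, w) ∈ A`, `i w = a`, `B = {p : b m p = true}` and `t = ε n`: fails for at most `M^n / (ε² n)` functions `c`.
The same for in-neighbours with `B = {p : b m p = false}`.  Together at most
`2 |V0| M K0 M^n / (ε² n) ≤ 4 (γ/γ1) M K0 M^n / ε² ≤ M^n / 8`.
(2) For `m`, `a`, `a'`: let `H` be the set of the `(u, w) ∈ A` with `u ∈ V0`, `w ∉ V0`, `o u = a`, `i w = a'`.
`S_ChL` with `w v = #{u : (u, v) ∈ H} ≤ |V0|`, `∑ w = |H|`, `∑ w² ≤ |V0| |H|`, `t = ε (|H| + n)`,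
`t² ≥ 4 ε² |H| n`: fails for at most `M^n |V0| / (4 ε² n)` (none if `H = ∅`, as then the deviation is `0`).
The same for the arcs into `V0`.  Together at most `2 M K0² M^n (γ/γ1) / (2 ε²) ≤ M^n / 8`.
(3) For `m`, `a`, `a'`: let `L` be the set of the `(u, w) ∈ A` with `u ∈ V0 ↔ w ∈ V0`, `o u = a`, `i w = a'`.  All
degrees in `L` are at most `Δ = ⌊γ1 n⌋`: a vertex outside `V0` by definition of `V0`, a vertex in `V0`
because its neighbours in `L` are in `V0` and `|V0| ≤ γ1 n`.  `S_ChB` with `t = ε (|L| + n)`: fails for at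
most `M^n 4 γ1 n |L| / (4 ε² |L| n) = M^n γ1 / ε²`.  Together at most `M K0² M^n γ1 / ε² ≤ M^n / 16`.
So some `c` satisfies everything. -/
def S_Cel : Prop :=
  ∀ (K0 k : ℕ) (ε : ℝ), 1 ≤ K0 → 2 ≤ k → 0 < ε → ∃ γ1 γ : ℝ, 0 < γ1 ∧ 0 < γ ∧
    (2 : ℝ) ^ k * γ1 ≤ ε ∧
    ∀ (n K : ℕ) (A : Finset (Fin n × Fin n)) (o i : Fin n → Fin K)
      (b : Fin (2 ^ k - 1) → Fin (2 ^ k - 1) → Bool), 1 ≤ n → K ≤ K0 →
      (∀ m, (univ.filter (fun p => b m p = true)).card = 2 ^ (k - 1)) →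
      (A.card : ℝ) ≤ γ * (n : ℝ) ^ 2 → (∀ e ∈ A, e.1 ≠ e.2) →
      ∃ (V0 : Finset (Fin n)) (c : Fin n → Fin (2 ^ k - 1)),
        (2 : ℝ) ^ (3 * k) * V0.card ≤ ε * n ∧
        (∀ v, v ∉ V0 → ∀ a, (eb A {v} (Cl i a) : ℝ) < γ1 * n ∧ (eb A (Cl o a) {v} : ℝ) < γ1 * n) ∧
        (∀ m a, ∀ u ∈ V0,
          |((univ.filter (fun w => w ∉ V0 ∧ (u, w) ∈ A ∧ i w = a ∧ b m (c w) = true)).card : ℝ) -
            2 ^ (k - 1) / (2 ^ k - 1) *
            (univ.filter (fun w => w ∉ V0 ∧ (u, w) ∈ A ∧ i w = a)).card| ≤ ε * n ∧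
          |((univ.filter (fun w => w ∉ V0 ∧ (w, u) ∈ A ∧ o w = a ∧ b m (c w) = false)).card : ℝ) -
            (2 ^ (k - 1) - 1) / (2 ^ k - 1) *
            (univ.filter (fun w => w ∉ V0 ∧ (w, u) ∈ A ∧ o w = a)).card| ≤ ε * n) ∧
        ∀ m a a',
          (2 ^ (k - 1) / (2 ^ k - 1) *
            ((A.filter (fun e => e.1 ∈ V0 ∧ e.2 ∉ V0 ∧ o e.1 = a ∧ i e.2 = a')).card : ℝ) -
            ε * ((A.filter (fun e => e.1 ∈ V0 ∧ e.2 ∉ V0 ∧ o e.1 = a ∧ i e.2 = a')).card + n) ≤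
            (A.filter (fun e => (e.1 ∈ V0 ∧ e.2 ∉ V0 ∧ o e.1 = a ∧ i e.2 = a') ∧
              b m (c e.2) = true)).card) ∧
          ((2 ^ (k - 1) - 1) / (2 ^ k - 1) *
            ((A.filter (fun e => e.1 ∉ V0 ∧ e.2 ∈ V0 ∧ o e.1 = a ∧ i e.2 = a')).card : ℝ) -
            ε * ((A.filter (fun e => e.1 ∉ V0 ∧ e.2 ∈ V0 ∧ o e.1 = a ∧ i e.2 = a')).card + n) ≤
            (A.filter (fun e => (e.1 ∉ V0 ∧ e.2 ∈ V0 ∧ o e.1 = a ∧ i e.2 = a') ∧
              b m (c e.1) = false)).card) ∧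
          (2 ^ (k - 1) * (2 ^ (k - 1) - 1) / (2 ^ k - 1) ^ 2 *
            ((A.filter (fun e => (e.1 ∈ V0 ↔ e.2 ∈ V0) ∧ o e.1 = a ∧ i e.2 = a')).card : ℝ) -
            ε * ((A.filter (fun e => (e.1 ∈ V0 ↔ e.2 ∈ V0) ∧ o e.1 = a ∧ i e.2 = a')).card + n) ≤
            (A.filter (fun e => ((e.1 ∈ V0 ↔ e.2 ∈ V0) ∧ o e.1 = a ∧ i e.2 = a') ∧
              b m (c e.1) = false ∧ b m (c e.2) = true)).card)

/-- (about 300 lines; uses `S_Had`, `S_RR`, `S_Cel`) **The groups of cross arcs.**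

Proof.  Choose `k ≥ 2` with `2^k - 1 ≥ M0` and `1/(2^k - 1) ≤ ε1/8`, let `N = 2^k`, `M = N - 1` (`M + 1 = N`),
`ε = min (ε1/64) (1/4)`, `γ` from `S_Cel` and `n0` with `N³ ≤ ε n0`, `n0 ≥ 1`.  Let `b` be from `S_Had` (by
symmetry also `#{p : b m p = true} = 2^(k-1)`), `V0`, `c` from `S_Cel`.  `u` is red for `m` if
`b m (c u) = false`, blue otherwise.  Apply `S_RR` to `A` with the key of `(u, v)` being
(H+) `(1, u, i v, c v)` if `u ∈ V0`, `v ∉ V0`, `G = {m : b m (c v) = true}`, of size `N/2`;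
(H-) `(2, v, o u, c u)` if `u ∉ V0`, `v ∈ V0`, `G = {m : b m (c u) = false}`, of size `N/2 - 1`;
(L) `(3, o u, i v, c u, c v)` otherwise, `G = {m : b m (c u) = false ∧ b m (c v) = true}`, of size `N/4` if
`c u ≠ c v` and empty otherwise.
Let `C m = {e ∈ A : g e = some m}`.  Rank for `m`: `0` for red vertices outside `V0`, `1` for red
vertices in `V0`, `2` for blue vertices in `V0`, `3` for blue vertices outside `V0`; along the arcs of
`C m` it increases (L: `0 → 3` or `1 → 2`; H+: `{1, 2} → 3`; H-: `0 → {1, 2}`).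
Types.  For fixed `m, a, a'` (classes of tail and head): by round robin, a fibre `F` over a key with
`s` arcs, `m ∈ G`, satisfies `N F ≥ 4 s - N` (L), `N F ≥ 2 s - N` (H+), `N F ≥ (N/(N/2-1)) s - N ≥ 2 s - N`
(H-).  Summing over the keys (at most `M²` for L, at most `|V0| M` for H+, H-) and using `S_Cel`
(`4 ρr ρb = 1 - 1/(N-1)²`, `2 ρb ≥ 1`, `2 ρr = 1 - 1/(N-1)`):
`N e_(C m) ≥ (1 - 1/(N-1)) e_A - 4 ε (e_A + 3 n) - N³ - 2 N² |V0| ≥ (1 - ε1) e_A - ε1 n`, as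
`N² |V0| ≤ ε n`, `N³ ≤ ε n`, `16 ε ≤ ε1 / 4`.
Vertices as tails.  Let `y = eb A {v} (Cl i a)`, `x = eb (C m) {v} (Cl i a) ≤ y`.  If `v ∉ V0` then
`N x, y ≤ N γ1 n ≤ ε n`.  If `v ∈ V0`: arcs to `V0`: `N x' ≤ N |V0| ≤ ε n`, `y' ≤ ε n`.  Arcs to `w ∉ V0`: by
round robin `|N x'' - 2 #{blue ones}| ≤ N M`, and by `S_Cel` `|2 #{blue ones} - 2 ρb y''| ≤ 2 ε n`,
`|2 ρb y'' - y''| ≤ n/(N-1)`.  Together `|N x - y| ≤ 2 ε n + N² + 2 ε n + n/(N-1) ≤ ε1 n`.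
Vertices as heads: in the same way, with `|N x'' - (N/(N/2-1)) #{red ones}| ≤ N M`,
`N/(N/2-1) ≤ 4`, `(N/(N/2-1)) ρr = N/(N-1)`. -/
def S_Grp : Prop :=
  ∀ (K0 M0 : ℕ) (ε1 : ℝ), 1 ≤ K0 → 0 < ε1 → ∃ M : ℕ, M0 ≤ M ∧ 1 ≤ M ∧ ∃ γ : ℝ, 0 < γ ∧
    ∃ n0 : ℕ, ∀ n, n0 ≤ n → ∀ (K : ℕ) (A : Finset (Fin n × Fin n)) (o i : Fin n → Fin K), K ≤ K0 →
      (A.card : ℝ) ≤ γ * (n : ℝ) ^ 2 → (∀ e ∈ A, e.1 ≠ e.2) →
      ∃ C : Fin M → Finset (Fin n × Fin n), (∀ m, C m ⊆ A) ∧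
        (∀ m m', m ≠ m' → Disjoint (C m) (C m')) ∧
        (∀ m, ∃ rk : Fin n → ℕ, ∀ e ∈ C m, rk e.1 < rk e.2) ∧
        (∀ m a b, (1 - ε1) * eb A (Cl o a) (Cl i b) - ε1 * n ≤
          (M + 1 : ℝ) * (eb (C m) (Cl o a) (Cl i b) : ℝ)) ∧
        (∀ m v b, |(M + 1 : ℝ) * (eb (C m) {v} (Cl i b) : ℝ) - eb A {v} (Cl i b)| ≤ ε1 * n) ∧
        ∀ m v a, |(M + 1 : ℝ) * (eb (C m) (Cl o a) {v} : ℝ) - eb A (Cl o a) {v}| ≤ ε1 * n

/-! ## Random parts -/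

/-- (about 120 lines) **Chernoff bound (lower tail) for random functions.**

Proof.  Let `p_e = |A e| / Λ`, `μ = ∑_{e ∈ F} p_e`, `Z c = #{e ∈ F : c e ∈ A e}`.  The sum
`∑_c exp(-δ Z c)` over all functions is
`∏_{e ∈ F} ((Λ - |A e|) + |A e| exp(-δ)) · ∏_{e ∉ F} Λ = Λ^|ι| ∏_{e ∈ F} (1 - (1 - exp(-δ)) p_e)
≤ Λ^|ι| exp(-(1 - exp(-δ)) μ)` (`Finset.prod_univ_sum` or `Fintype.piFinset`).  Every `c` of the set has
`exp(-δ Z c) ≥ exp(-δ (1 - δ) μ)`.  So the number is at most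
`Λ^|ι| exp(-(1 - exp(-δ)) μ + δ (1 - δ) μ)`, and `1 - exp(-δ) ≥ δ - δ²/2` for `δ ≥ 0`. -/
def S_Chf : Prop :=
  ∀ (ι : Type) [Fintype ι] [DecidableEq ι] (Λ : ℕ) (F : Finset ι) (A : ι → Finset (Fin Λ)) (δ : ℝ),
    1 ≤ Λ → 0 ≤ δ → δ ≤ 1 →
    ((univ.filter (fun c : ι → Fin Λ => ((F.filter (fun e => c e ∈ A e)).card : ℝ) ≤
      (1 - δ) * ∑ e ∈ F, ((A e).card : ℝ) / Λ)).card : ℝ) ≤
      (Λ : ℝ) ^ (Fintype.card ι) * Real.exp (-(δ ^ 2 * (∑ e ∈ F, ((A e).card : ℝ) / Λ) / 2))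

/-- (about 120 lines) **Few permutations have many cycles.**

Proof.  For `σ` with `k ≤ cyc σ` choose a set `W` of `k` vertices in different cycles (`cyc_trans`), let
`Z = {v : σ v ∈ W}` (`k` elements).  The map `σ ↦ (W, Z, σ restricted to the complement of Z)` is
injective: let `σ'` have the same data, `z ∈ Z`, `w = σ z ∈ W`.  The cycle of `w` in `σ` contains only one
element of `W`, hence only one element of `Z`, namely `z`; so `w, σ w, ..., σ^L w = z` with all vertices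
but the last outside `Z`, and `σ'^j w = σ^j w` for `j ≤ L`.  So `z` is in the `σ'`-cycle of `w`, and so is
`σ' z ∈ W`; `σ' z = w` as the elements of `W` are in different cycles of `σ'`.  There are at most
`2^n · 2^n · n^(n-k)` triples. -/
def S_Bad : Prop :=
  ∀ n k : ℕ, k ≤ n →
    (univ.filter (fun σ : Equiv.Perm (Fin n) => k ≤ cyc σ)).card ≤ 4 ^ n * n ^ (n - k)

/-- the reservoir for the labelling `c` -/
def PS {n L : ℕ} (M T : ℕ) (A0 : Finset (Fin n × Fin n)) (c : Fin n × Fin n → Fin L) :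
    Finset (Fin n × Fin n) :=
  A0.filter (fun e => (c e : ℕ) / T = M)

/-- the part `(m, s)` for the labelling `c`: own arcs `A0`, cross arcs `Cm` -/
def PP {n L : ℕ} (T m s : ℕ) (A0 Cm : Finset (Fin n × Fin n)) (c : Fin n × Fin n → Fin L) :
    Finset (Fin n × Fin n) :=
  A0.filter (fun e => (c e : ℕ) / T = m ∧ (c e : ℕ) % T = s) ∪ Cm.filter (fun e => (c e : ℕ) % T = s)

/-- (about 200 lines; uses `S_Chf`) **All cuts of a random part.**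

Proof.  Write `L = (M + 1) T`, `w(X, Y) = e_A0(X, Y) + (M + 1) e_Cm(X, Y)`.  Fix `X, Y` with
`n + 1 ≤ |X| + |Y|` and `J` from the hypothesis, `j = |symmDiff X O_J| + |symmDiff Y I_(J^c)|`.  Apply
`S_Chf` with `ι = Fin n × Fin n`, `Λ = L`, `F` the set of the arcs of `A0 ∪ Cm` from `X` to `Y`,
`A e = {l : l / T = m ∧ l % T = s}` (one element) for `e ∈ A0` and `A e = {l : l % T = s}` (`M + 1` elements)
for `e ∈ Cm`: then `#{e ∈ F : c e ∈ A e} = e_PP(X, Y)` and `μ = w(X, Y)/L ≥ c0 n (1 + j)/L`, so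
`δ² μ / 2 ≥ 6 (1 + j) log n`.  So the number of the `c` with `L e_PP(X, Y) < (1 - δ) w(X, Y)` is at most
`L^(n²) n^(-6(1+j))`.  Sum over all `X, Y`: for fixed `J` the map
`(X, Y) ↦ (symmDiff X O_J, symmDiff Y I_(J^c))` is injective, so the sum is at most
`∑_J ∑_A ∑_B n^(-6(1+|A|+|B|)) = 2^K n^(-6) (1 + n^(-6))^(2n)`. -/
def S_PrC : Prop :=
  ∀ (n K M T m s : ℕ) (o i : Fin n → Fin K) (A0 Cm : Finset (Fin n × Fin n)) (c0 δ : ℝ),
    1 ≤ n → m < M → s < T → Disjoint A0 Cm → 0 < c0 → 0 < δ → δ ≤ 1 →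
    12 * ((M : ℝ) + 1) * T * Real.log n ≤ δ ^ 2 * c0 * n →
    (∀ X Y : Finset (Fin n), n + 1 ≤ X.card + Y.card → ∃ J : Finset (Fin K),
      c0 * n * (1 + (symmDiff X (ClU o J)).card + (symmDiff Y (ClU i Jᶜ)).card) ≤
        (eb A0 X Y : ℝ) + (M + 1) * eb Cm X Y) →
    ((univ.filter (fun c : Fin n × Fin n → Fin ((M + 1) * T) => ∃ X Y : Finset (Fin n),
      n + 1 ≤ X.card + Y.card ∧ ((M : ℝ) + 1) * T * eb (PP T m s A0 Cm c) X Y <
        (1 - δ) * ((eb A0 X Y : ℝ) + (M + 1) * eb Cm X Y))).card : ℝ) ≤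
      (((M + 1) * T : ℕ) : ℝ) ^ (n * n) * (2 ^ K * ((n : ℝ) ^ 6)⁻¹ * (1 + ((n : ℝ) ^ 6)⁻¹) ^ (2 * n))

/-- (about 120 lines; uses `S_Bad`) **No permutation with many cycles in a random part.**

Proof.  Let `σ` be a permutation; its `n` arcs `(v, σ v)` are different.  If they are all in `A0 ∪ Cm`, the
number of the `c` for which they are all in `PP` is at most
`(M + 1)^n L^(n² - n)` (`L = (M + 1) T`; at most `M + 1` values are allowed for each of them), and this times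
`T^n` is at most `L^(n²)`; otherwise it is `0`.  Sum over the `σ` with `k ≤ cyc σ` (`S_Bad`). -/
def S_PrB : Prop :=
  ∀ (n k M T m s : ℕ) (A0 Cm : Finset (Fin n × Fin n)), k ≤ n → m < M → s < T → Disjoint A0 Cm →
    (univ.filter (fun c : Fin n × Fin n → Fin ((M + 1) * T) => ∃ σ : Equiv.Perm (Fin n),
      (∀ v, (v, σ v) ∈ PP T m s A0 Cm c) ∧ k ≤ cyc σ)).card * T ^ n ≤
      ((M + 1) * T) ^ (n * n) * (4 ^ n * n ^ (n - k))

/-- (about 150 lines; uses `S_Chf`) **All cuts of the reservoir.**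

Proof.  `L = (M + 1) T`.  Fix `X, Y`, `F` the arcs of `A0` from `X` to `Y`, `e = |F| ≤ n²`.
Lower bound `(M + 1) e_S ≥ e - δ n²`: trivial if `e ≤ δ n²`; otherwise `S_Chf` with
`A = {l : l / T = M}` (`T` elements), `μ = e/(M + 1) > δ n² / (M + 1)`: outside of
`L^(n²) exp(-δ² μ / 2)` functions, `(M + 1) e_S ≥ (1 - δ) e ≥ e - δ n²`.
Upper bound `(M + 1) e_S ≤ e + δ n²`: trivial if `e ≤ δ n² / (M + 1)`; otherwise `S_Chf` with
`A = {l : l / T ≠ M}` (`M T` elements), `δ' = δ/M`, `μ = M e / (M + 1) ≥ M δ n² / (M + 1)²`: outside of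
`L^(n²) exp(-δ'² μ / 2)` functions the number `e - e_S` of the other arcs is at least
`(1 - δ/M) M e / (M + 1)`, so `(M + 1) e_S ≤ (M + 1) e - M e + δ e ≤ e + δ n²`.
Both exponentials are at most `exp(-δ³ n² / (2 (M + 1)³))`; there are `4^n` pairs `(X, Y)`. -/
def S_PrS : Prop :=
  ∀ (n M T : ℕ) (A0 : Finset (Fin n × Fin n)) (δ : ℝ), 1 ≤ M → 1 ≤ T → 0 < δ → δ ≤ 1 →
    ((univ.filter (fun c : Fin n × Fin n → Fin ((M + 1) * T) => ∃ X Y : Finset (Fin n),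
      δ * (n : ℝ) ^ 2 < |((M : ℝ) + 1) * eb (PS M T A0 c) X Y - eb A0 X Y|)).card : ℝ) ≤
      (((M + 1) * T : ℕ) : ℝ) ^ (n * n) *
        (2 * 4 ^ n * Real.exp (-(δ ^ 3 * (n : ℝ) ^ 2 / (2 * ((M : ℝ) + 1) ^ 3))))

/-- (about 80 lines; uses `S_Chf`) **Degrees of the reservoir.**

Proof.  For every `v` and each of the two directions `S_Chf` with `A = {l : l / T = M}`,
`μ = od A0 v / (M + 1) ≥ θ n / (M + 1)`. -/
def S_PrD : Prop :=
  ∀ (n M T : ℕ) (A0 : Finset (Fin n × Fin n)) (δ θ : ℝ), 1 ≤ T → 0 < δ → δ ≤ 1 → 0 < θ →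
    ((univ.filter (fun c : Fin n × Fin n → Fin ((M + 1) * T) => ∃ v : Fin n,
      (θ * n ≤ od A0 v ∧ ((M : ℝ) + 1) * od (PS M T A0 c) v < (1 - δ) * od A0 v) ∨
      (θ * n ≤ idg A0 v ∧ ((M : ℝ) + 1) * idg (PS M T A0 c) v < (1 - δ) * idg A0 v))).card : ℝ) ≤
      (((M + 1) * T : ℕ) : ℝ) ^ (n * n) *
        (2 * n * Real.exp (-(δ ^ 2 * θ * n / (2 * ((M : ℝ) + 1)))))

/-- (about 200 lines, pure analysis) **The numbers.**

Proof.  Let `c' = δ² c0 / (12 (M + 1))` and `T = ⌊c' n / log n⌋` (for large `n`; `log n > 0`).  Then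
`12 (M + 1) T log n ≤ δ² c0 n`; `T ≤ δ n` as soon as `c'/log n ≤ δ`; `T ≥ 1` and `T ≥ c' n / (2 log n)` for
large `n`.  With `k = ⌈γ n⌉ ≤ n` the four summands tend to `0`:
`M T 2^K0 n^(-6) (1 + n^(-6))^(2n) ≤ M n 2^K0 n^(-6) exp(2)`;
`M T 4^n n^(n-k) / T^n ≤ M n (4 · 2 log n / c')^n n^n n^(-k) / n^n ≤ M n (8 log n / (c' n^γ))^n`, and
`8 log n / (c' n^γ) ≤ 1/2` for large `n`; the last two are clear. -/
def S_PrN : Prop :=
  ∀ (K0 M : ℕ) (c0 δ γ θ : ℝ), 1 ≤ M → 0 < c0 → 0 < δ → δ ≤ 1 → 0 < γ → γ ≤ 1 → 0 < θ →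
    ∃ n0 : ℕ, ∀ n : ℕ, n0 ≤ n → 1 ≤ n ∧ ∃ T : ℕ, 1 ≤ T ∧ (T : ℝ) ≤ δ * n ∧
      12 * ((M : ℝ) + 1) * T * Real.log n ≤ δ ^ 2 * c0 * n ∧
      (M : ℝ) * T * (2 ^ K0 * ((n : ℝ) ^ 6)⁻¹ * (1 + ((n : ℝ) ^ 6)⁻¹) ^ (2 * n)) +
        M * T * (4 ^ n * (n : ℝ) ^ (n - ⌈γ * n⌉₊) / (T : ℝ) ^ n) +
        2 * 4 ^ n * Real.exp (-(δ ^ 3 * (n : ℝ) ^ 2 / (2 * ((M : ℝ) + 1) ^ 3))) +
        2 * n * Real.exp (-(δ ^ 2 * θ * n / (2 * ((M : ℝ) + 1)))) < 1

/-- (about 200 lines; uses `S_PrC`, `S_PrB`, `S_PrS`, `S_PrD`, `S_PrN`) **Random parts.**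

Proof.  Take `n0` from `S_PrN` (for `K0, M, c0, δ, γ, θ`), `T` from there.  The four lemmas (the first two
for all `m < M`, `s < T`; `k = ⌈γ n⌉`, `2^K ≤ 2^K0`) and the last inequality of `S_PrN` show that not
all `((M + 1) T)^(n²)` labellings `c` are bad.  Take a good `c`, `S = PS M T A0 c`,
`P m s = PP T m s A0 (C m) c`.  They are disjoint: an arc of `A0` has one label `(l / T, l % T)`, an arc of
`C m` is only in the parts `(m, s)` and has only one value `l % T`; `S ⊆ A0` consists of the arcs with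
`l / T = M`.  If `σ` has its arcs in `P m s` then `cyc σ < ⌈γ n⌉`, so `cyc σ ≤ γ n`. -/
def S_Prt : Prop :=
  ∀ (K0 M : ℕ) (c0 δ γ θ : ℝ), 1 ≤ M → 0 < c0 → 0 < δ → δ ≤ 1 → 0 < γ → γ ≤ 1 → 0 < θ →
    ∃ n0 : ℕ, ∀ n : ℕ, n0 ≤ n → ∀ (K : ℕ) (o i : Fin n → Fin K) (A0 : Finset (Fin n × Fin n))
      (C : Fin M → Finset (Fin n × Fin n)), K ≤ K0 → (∀ m, Disjoint A0 (C m)) →
      (∀ m m', m ≠ m' → Disjoint (C m) (C m')) →
      (∀ m, ∀ X Y : Finset (Fin n), n + 1 ≤ X.card + Y.card → ∃ J : Finset (Fin K),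
        c0 * n * (1 + (symmDiff X (ClU o J)).card + (symmDiff Y (ClU i Jᶜ)).card) ≤
          (eb A0 X Y : ℝ) + (M + 1) * eb (C m) X Y) →
      ∃ (T : ℕ) (S : Finset (Fin n × Fin n)) (P : Fin M → Fin T → Finset (Fin n × Fin n)),
        1 ≤ T ∧ (T : ℝ) ≤ δ * n ∧ S ⊆ A0 ∧ (∀ m s, P m s ⊆ A0 ∪ C m) ∧
        (∀ m s, Disjoint S (P m s)) ∧
        (∀ m s m' s', (m, s) ≠ (m', s') → Disjoint (P m s) (P m' s')) ∧
        (∀ m s, ∀ X Y : Finset (Fin n), n + 1 ≤ X.card + Y.card →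
          (1 - δ) * ((eb A0 X Y : ℝ) + (M + 1) * eb (C m) X Y) ≤
            ((M : ℝ) + 1) * T * eb (P m s) X Y) ∧
        (∀ m s, ∀ σ : Equiv.Perm (Fin n), (∀ v, (v, σ v) ∈ P m s) → (cyc σ : ℝ) ≤ γ * n) ∧
        (∀ X Y, |((M : ℝ) + 1) * eb S X Y - eb A0 X Y| ≤ δ * (n : ℝ) ^ 2) ∧
        (∀ v, θ * n ≤ od A0 v → (1 - δ) * od A0 v ≤ ((M : ℝ) + 1) * od S v) ∧
        (∀ v, θ * n ≤ idg A0 v → (1 - δ) * idg A0 v ≤ ((M : ℝ) + 1) * idg S v)

/-! ## Factors -/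

/-- (about 80 lines; uses `S_Fac` of the first package, `Pool.Agent.MPd266db.S_Fac`) **A `d`-regular
digraph is a union of `d` permutations.**

Proof by induction on `d`.  For `d = 0` nothing is to be shown.  Let `H` be `(d+1)`-regular.  For all
`X, Y`: `(d+1) |X| = e(X, Y) + e(X, Y^c) ≤ e(X, Y) + (d+1) |Y^c|`, so `|X| ≤ e(X, Y) + |Y^c|` (if
`|X| > |Y^c|` then `e(X, Y) ≥ (d+1) (|X| - |Y^c|)`).  `S_Fac` with `f = g = 1` gives a `1`-regular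
`H₁ ⊆ H`, the graph of a permutation (every vertex has exactly one out-neighbour; this function is
injective by the in-degrees).  `H \ H₁` is `d`-regular. -/
def S_Dec1 : Prop :=
  ∀ (n d : ℕ) (H : Finset (Fin n × Fin n)), Reg H d →
    ∃ σ : Fin d → Equiv.Perm (Fin n), (∀ j v, (v, σ j v) ∈ H) ∧
      ∀ j j', j ≠ j' → ∀ v, σ j v ≠ σ j' v

/-- (about 40 lines; uses `Pool.Agent.MPd266db.S_Fac`) **A regular subdigraph of a part.**

Proof.  `S_Fac` with `f = g = d`: the condition is `d |X| ≤ e_P(X, Y) + d |Y^c|`.  If `|X| ≤ |Y^c|` it is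
clear; otherwise `|X| + |Y| ≥ n + 1` and it is the hypothesis, as `|X| - |Y^c| = |X| + |Y| - n`. -/
def S_Rgx : Prop :=
  ∀ (n d : ℕ) (P : Finset (Fin n × Fin n)),
    (∀ X Y : Finset (Fin n), n + 1 ≤ X.card + Y.card →
      (d : ℝ) * ((X.card : ℝ) + Y.card - n) ≤ eb P X Y) →
    ∃ H ⊆ P, Reg H d

end Pool.Agent.MPd266dbH
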