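import Pool.Agent.Lib.MP_d266db_co.H.SpecM
import Pool.Agent.Lib.MP_d266db_co.H.SpecQ

/-!
# MP_d266db_co, H, SpecR: the regularity lemma, slices, and the merging lemma

Every `S_...` is a statement to be proved in its own file
`Pool/Agent/Lib/MP_d266db_co/H/....lean`; the docstring contains the complete proof.
-/

set_option autoImplicit false

namespace Pool.Agent.MPd266dbH

open Finset Pool.Agent.MPd266db

/-! ## Clusters from the regularity lemma -/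

/-- (about 200 lines) **The regularity lemma for digraphs.**  `pt v` is the part of `v` as a tail,
`ph v` the part of `v` as a head; `Bd` is the set of the bad pairs of parts.

Proof.  Let `V' = Fin n ⊕ Fin n` (`2 n` elements) and `G : SimpleGraph V'` with `inl u` adjacent to `inr x`
(and `inr x` to `inl u`) iff `(u, x) ∈ S`.  Apply `szemeredi_regularity G` with `ε' = min ε 1` and `l`
(`l ≤ 2 n`; put `Mx = SzemerediRegularity.bound ε' l`, `n0 = max l Mx`): an equipartition `P` with `M` parts,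
`l ≤ M ≤ Mx`.  Number the parts `P_j`, `j : Fin M` (for instance by `P.parts.equivFin`); `pt v = j` iff
`inl v ∈ P_j`, `ph v = j` iff `inr v ∈ P_j`.  By `Finpartition.IsEquipartition.card_part_le_average_add_one`,
`|P_j| ≤ 2n/M + 1`, so `M |P_j| ≤ 2 n + M ≤ 3 n`, and `|P_j|` is the sum of the two cardinalities.
`Bd` is the set of all `(j, j)` and of all `(j, j')` with `j ≠ j'` for which `(P_j, P_j')` is not
`ε'`-uniform: at most `M + M (M - 1) ε'` pairs (`Finpartition.IsUniform`, `Finpartition.nonUniforms`).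
For `(j, j') ∉ Bd` let `δ = G.edgeDensity P_j P_j'` (cast to `ℝ`).  All arcs of `S` from `Cl pt j` to
`Cl ph j'` are edges between `P_j` and `P_j'`, so their number is at most `δ |P_j| |P_j'| ≤ δ (3n/M)²`.  If
`A ⊆ Cl pt j`, `B ⊆ Cl ph j'` have at least `ε 3 n / M ≥ ε' |P|` elements then for `s' = inl A`, `t' = inr B`
the number of edges between `s'` and `t'` is `eb S A B`, and `IsUniform` gives
`|eb S A B / (|A| |B|) - δ| < ε'`; multiply with `|A| |B|` (if this is `0`, both sides are `0`). -/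
def S_Szr : Prop :=
  ∀ (ε : ℝ) (l : ℕ), 0 < ε → ∃ Mx n0 : ℕ, ∀ n : ℕ, n0 ≤ n → ∀ S : Finset (Fin n × Fin n),
    ∃ (M : ℕ) (pt ph : Fin n → Fin M) (Bd : Finset (Fin M × Fin M)) (δ : Fin M → Fin M → ℝ),
      l ≤ M ∧ M ≤ Mx ∧ (∀ j, M * ((Cl pt j).card + (Cl ph j).card) ≤ 3 * n) ∧
      (Bd.card : ℝ) ≤ ε * (M : ℝ) ^ 2 + M ∧
      ∀ j j', (j, j') ∉ Bd →
        (eb S (Cl pt j) (Cl ph j') : ℝ) * (M : ℝ) ^ 2 ≤ δ j j' * (3 * n) ^ 2 ∧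
        ∀ A B : Finset (Fin n), A ⊆ Cl pt j → B ⊆ Cl ph j' → ε * (3 * n) ≤ M * (A.card : ℝ) →
          ε * (3 * n) ≤ M * (B.card : ℝ) →
          |(eb S A B : ℝ) - δ j j' * (A.card * B.card)| ≤ ε * (A.card * B.card)

/-- (about 60 lines) **Cutting sets into pieces of the same size.**

Proof by induction on `∑ |F j|`.  If all `|F j| < s` take `k = 0`: the union of the `F j` has at most
`m s` elements.  Otherwise choose `j` with `|F j| ≥ s` and a subset `A ⊆ F j` with `s` elements, apply the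
induction hypothesis to the family with `F j \ A` in the place of `F j` and add the piece `A`
(`Fin.cons` or `Fin.snoc`). -/
def S_Pcs : Prop :=
  ∀ (n m s : ℕ) (F : Fin m → Finset (Fin n)), 1 ≤ s → (∀ j j', j ≠ j' → Disjoint (F j) (F j')) →
    ∃ (k : ℕ) (T : Fin k → Finset (Fin n)) (f : Fin k → Fin m),
      (∀ p, T p ⊆ F (f p) ∧ (T p).card = s) ∧ (∀ p p', p ≠ p' → Disjoint (T p) (T p')) ∧
      (univ.biUnion F \ univ.biUnion T).card ≤ m * s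

/-- Clusters `T p` of tails and `H q` of heads, all with `s` elements; the pairs in `D` are dense without
large holes, and few arcs are outside of them. -/
structure CSys {n K kt kh : ℕ} (S : Finset (Fin n × Fin n)) (o i : Fin n → Fin K)
    (T : Fin kt → Finset (Fin n)) (H : Fin kh → Finset (Fin n)) (ct : Fin kt → Fin K)
    (ch : Fin kh → Fin K) (D : Finset (Fin kt × Fin kh)) (s : ℕ) (β1 d τ : ℝ) : Prop where
  sT : ∀ p, (T p).card = s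
  sH : ∀ q, (H q).card = s
  dT : ∀ p p', p ≠ p' → Disjoint (T p) (T p')
  dH : ∀ q q', q ≠ q' → Disjoint (H q) (H q')
  oT : ∀ p, ∀ v ∈ T p, o v = ct p
  iH : ∀ q, ∀ w ∈ H q, i w = ch q
  uT : ((univ \ univ.biUnion T).card : ℝ) ≤ τ * n
  uH : ((univ \ univ.biUnion H).card : ℝ) ≤ τ * n
  cls : ∀ e ∈ D, ct e.1 = ch e.2
  den : ∀ e ∈ D, ∀ A B : Finset (Fin n), A ⊆ T e.1 → B ⊆ H e.2 → β1 * s ≤ A.card →
    β1 * s ≤ B.card → d * A.card * B.card ≤ eb S A B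
  rest : ∑ e ∈ Dᶜ, (eb S (T e.1) (H e.2) : ℝ) ≤ τ * (n : ℝ) ^ 2

/-- (about 200 lines; uses `S_Szr`, `S_Pcs`) **Clusters.**

Proof.  Let `ξ = τ/(8 K0)`, `d0 = τ/16`, `d = τ/32`, `l = ⌈100/τ⌉`; given `β1` let
`ε = min (τ/100) (min (β1 ξ/6) (d0/2))`, `Mx, n1` from `S_Szr`, `kmax = ⌈2 Mx/ξ⌉ + 1` and
`n0 ≥ max n1 (2 Mx/ξ)`, `n0 ≥ 1`.  Given `n ≥ n0` take `M, pt, ph, Bd, δ` from `S_Szr` (`1 ≤ l ≤ M ≤ Mx`) and
`s = ⌊ξ n / M⌋`; as `ξ n / M ≥ 2`, `s ≥ 1` and `s ≥ ξ n/(2 M)`, so `n ≤ (2 M/ξ) s ≤ kmax s`.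
Apply `S_Pcs` to the `M K` sets `{v : pt v = j, o v = a}` (index set `Fin M × Fin K`, use
`finProdFinEquiv`) and to the `M K` sets `{v : ph v = j, i v = a}`; the rest has at most
`M K s ≤ K0 ξ n ≤ τ n` elements in both cases.  For a cluster `T p` let `jt p`, `ct p` be its part and its
class, for `H q` let them be `jh q`, `ch q`.  `D` is the set of the `(p, q)` with `ct p = ch q`,
`(jt p, jh q) ∉ Bd` and `d0 ≤ δ (jt p) (jh q)`.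
`den`: `M |A| ≥ M β1 s ≥ β1 ξ n/2 ≥ ε 3 n`, same for `B`; so `eb S A B ≥ (d0 - ε) |A| |B| ≥ d |A| |B|`.
`rest`: if `(p, q) ∉ D` and `ct p ≠ ch q` then `eb S (T p) (H q) = 0`, as all arcs of `S` are own.  The
others: group them by `(j, j') = (jt p, jh q)`; for fixed `(j, j')` the sum of `eb S (T p) (H q)` is at
most `eb S (Cl pt j) (Cl ph j')` (disjoint clusters).  For `(j, j') ∈ Bd` this is at most
`|Cl pt j| |Cl ph j'| ≤ (3n/M)²`, together at most `(ε M² + M) 9 n²/M² ≤ 9 (ε + 1/M) n² ≤ (18/100) τ n²`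
(`1/M ≤ 1/l ≤ τ/100`); for `(j, j') ∉ Bd` with `δ j j' < d0` it is at most `d0 9 n²/M²`, together at most
`9 d0 n² = (9/16) τ n²`. -/
def S_Clu : Prop :=
  ∀ (K0 : ℕ) (τ : ℝ), 1 ≤ K0 → 0 < τ → τ ≤ 1 → ∃ d : ℝ, 0 < d ∧ d ≤ 1 ∧
    ∀ β1 : ℝ, 0 < β1 → β1 ≤ 1 → ∃ kmax n0 : ℕ, ∀ n : ℕ, n0 ≤ n →
      ∀ (K : ℕ) (S : Finset (Fin n × Fin n)) (o i : Fin n → Fin K), K ≤ K0 →
        (∀ e ∈ S, o e.1 = i e.2) →
        ∃ (s kt kh : ℕ) (T : Fin kt → Finset (Fin n)) (H : Fin kh → Finset (Fin n))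
          (ct : Fin kt → Fin K) (ch : Fin kh → Fin K) (D : Finset (Fin kt × Fin kh)),
          1 ≤ n ∧ 1 ≤ s ∧ n ≤ kmax * s ∧ CSys S o i T H ct ch D s β1 d τ

/-! ## Almost regular digraphs; the matching of the clusters -/

/-- almost all in- and out-degrees are close to `ρ` -/
def Nr {n : ℕ} (S : Finset (Fin n × Fin n)) (ρ g : ℝ) : Prop :=
  ((univ.filter (fun v => g * n < |(od S v : ℝ) - ρ|)).card : ℝ) ≤ g * n ∧
  ((univ.filter (fun v => g * n < |(idg S v : ℝ) - ρ|)).card : ℝ) ≤ g * n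

/-- the hypotheses on the reservoir `S` -/
structure MHyp {n K : ℕ} (S : Finset (Fin n × Fin n)) (o i : Fin n → Fin K) (θ ρ g β ν : ℝ) :
    Prop where
  own : ∀ e ∈ S, o e.1 = i e.2
  odl : ∀ v, θ * n ≤ od S v
  idl : ∀ v, θ * n ≤ idg S v
  nr : Nr S ρ g
  rge : θ * n ≤ ρ
  rle : ρ ≤ n
  rob : Rob o i S β ν

/-- (about 50 lines) **Sums of degrees.**

Proof.  All degrees are between `0` and `n`, so `|od S v - ρ| ≤ n`.  In `∑_{v ∈ X} (od S v - ρ)` the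
vertices with `|od S v - ρ| ≤ τ n` contribute at most `n · τ n`, the others (at most `τ n`) at most
`τ n · n`.  The same for the in-degrees. -/
def S_NrS : Prop :=
  ∀ (n : ℕ) (S : Finset (Fin n × Fin n)) (ρ τ : ℝ), 0 ≤ ρ → ρ ≤ n → 0 ≤ τ → Nr S ρ τ →
    ∀ X : Finset (Fin n), |(∑ v ∈ X, (od S v : ℝ)) - ρ * X.card| ≤ 2 * τ * (n : ℝ) ^ 2 ∧
      |(∑ v ∈ X, (idg S v : ℝ)) - ρ * X.card| ≤ 2 * τ * (n : ℝ) ^ 2

/-- (about 60 lines) **Hall's theorem with deficiency.**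

Proof.  Apply Hall's theorem (`Finset.all_card_le_biUnion_card_iff_exists_injective`) to
`t p = {inl q : (p, q) ∈ D} ∪ {inr j : j : Fin m}`, subsets of `Fin kh ⊕ Fin m`; for nonempty `A` the union
has `|N(A)| + m` elements.  The injective choice takes the value `inr _` at most `m` times; enumerate the
others by `Fin k` (`k` their number). -/
def S_HlD : Prop :=
  ∀ (kt kh m : ℕ) (D : Finset (Fin kt × Fin kh)),
    (∀ A : Finset (Fin kt), A.card ≤ ((D.filter (fun e => e.1 ∈ A)).image Prod.snd).card + m) →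
    ∃ (k : ℕ) (f : Fin k → Fin kt) (g : Fin k → Fin kh), Function.Injective f ∧
      Function.Injective g ∧ (∀ p, (f p, g p) ∈ D) ∧ kt ≤ k + m

/-- (about 150 lines; uses `S_NrS`, `S_HlD`) **The matching of the clusters.**

Proof.  Let `A` be a set of clusters of tails, `N` the set of the `q` with `(p, q) ∈ D` for some `p ∈ A`,
`TA = ⋃_{p ∈ A} T p` (`s |A|` elements), `HN = ⋃_{q ∈ N} H q` (`s |N|` elements).  By `S_NrS`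
`eb S TA univ ≥ ρ s |A| - 2 τ n²`.  The arcs out of `TA` go to: heads in no cluster, at most `τ n · n`;
`HN`, at most `∑_{w ∈ HN} idg S w ≤ ρ s |N| + 2 τ n²`; `H q` with `q ∉ N`: these arcs are in
pairs `(p, q) ∉ D`, at most `τ n²`.  So `ρ s (|A| - |N|) ≤ 6 τ n²`, and, as `ρ ≥ θ n`,
`|A| - |N| ≤ 6 τ n/(θ s)`.  Apply `S_HlD` with `m = ⌊6 τ n/(θ s)⌋`: a matching with
`k s ≥ kt s - m s ≥ (1 - τ) n - 6 τ n/θ ≥ (1 - 7 τ/θ) n` (`kt s = |⋃ T p| ≥ n - τ n`). -/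
def S_Mat : Prop :=
  ∀ (n K kt kh s : ℕ) (S : Finset (Fin n × Fin n)) (o i : Fin n → Fin K)
    (T : Fin kt → Finset (Fin n)) (H : Fin kh → Finset (Fin n)) (ct : Fin kt → Fin K)
    (ch : Fin kh → Fin K) (D : Finset (Fin kt × Fin kh)) (β1 d τ θ ρ : ℝ),
    CSys S o i T H ct ch D s β1 d τ → 1 ≤ n → 1 ≤ s → 0 < τ → 0 < θ → θ ≤ 1 → θ * n ≤ ρ →
    ρ ≤ n → Nr S ρ τ →
    ∃ (k : ℕ) (f : Fin k → Fin kt) (g : Fin k → Fin kh), Function.Injective f ∧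
      Function.Injective g ∧ (∀ p, (f p, g p) ∈ D) ∧ (1 - 7 * τ / θ) * n ≤ k * (s : ℝ)

/-- (about 200 lines; uses `S_NrS`) **Expansion of the reduced digraph.**

Proof.  Let `cl p = ct (f p)` (`= ch (g p)`), `B' = Cl cl a \ B`, `X = ⋃_{p ∈ B} T (f p) ⊆ Cl o a`
(`s |B|` elements) and `Y = ⋃_{p ∈ B'} H (g p) ⊆ Cl i a` (`s |B'|` elements).  As `k s ≥ n/2`
(`7 τ/θ ≤ 1/2`), `|X| ≥ s (θ/16) k ≥ (θ/32) n` and in the same way `|Y| ≥ (θ/32) n`, so `Rob` gives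
`ν n² ≤ e(X, Y) + e(O_a \ X, I_a \ Y)`, where `O_a = Cl o a`, `I_a = Cl i a`.  All arcs with tail in `O_a` have
their head in `I_a`, so `e(X, Y) + e(X, I_a \ Y) = ∑_{v ∈ X} od v ≥ ρ |X| - 2 τ n²` and
`e(O_a \ X, I_a \ Y) + e(X, I_a \ Y) = ∑_{w ∈ I_a \ Y} idg w ≤ ρ |I_a \ Y| + 2 τ n²`.  The heads in
`I_a \ Y` are in `⋃_{p ∈ B} H (g p)` (`s |B| = |X|` elements) or in no `H (g p)`, at most
`n - k s ≤ (7 τ/θ) n` of them (for `p` with `cl p ≠ a` the set `H (g p)` is disjoint from `I_a`); so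
`|I_a \ Y| ≤ |X| + (7 τ/θ) n`.  Subtract: `e(O_a \ X, I_a \ Y) ≤ e(X, Y) + (7 τ/θ + 4 τ) n²`, hence
`2 e(X, Y) ≥ (ν - 7 τ/θ - 4 τ) n² ≥ (2/3) ν n²`.  Let `W` be the set of the `(p, p') ∈ B × B'` with
`(f p, g p') ∈ D`.  `e(X, Y) = ∑_{B × B'} eb S (T (f p)) (H (g p')) ≤ s² |W| + τ n²` (`rest`; `(p, p') ↦
(f p, g p')` is injective).  So `s² |W| ≥ (ν/3 - τ) n² ≥ (ν/4) n² ≥ (ν/4) (k s)²` (`4 τ ≤ ν/3`,
`k s ≤ n`). -/
def S_ExpR : Prop :=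
  ∀ (n K kt kh s k : ℕ) (S : Finset (Fin n × Fin n)) (o i : Fin n → Fin K)
    (T : Fin kt → Finset (Fin n)) (H : Fin kh → Finset (Fin n)) (ct : Fin kt → Fin K)
    (ch : Fin kh → Fin K) (D : Finset (Fin kt × Fin kh)) (β1 d τ θ ρ ν : ℝ)
    (f : Fin k → Fin kt) (g : Fin k → Fin kh),
    CSys S o i T H ct ch D s β1 d τ → (∀ e ∈ S, o e.1 = i e.2) → 1 ≤ n → 1 ≤ s → 0 < τ → 0 < θ →
    θ ≤ 1 → 0 ≤ ρ → ρ ≤ n → Nr S ρ τ → Rob o i S (θ / 32) ν → Function.Injective f →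
    Function.Injective g → (∀ p, (f p, g p) ∈ D) → (1 - 7 * τ / θ) * n ≤ k * (s : ℝ) →
    14 * τ ≤ θ → 7 * τ / θ + 4 * τ ≤ ν / 3 →
    ∀ (a : Fin K) (B : Finset (Fin k)), B ⊆ Cl (fun p => ct (f p)) a →
      θ / 16 * k ≤ B.card → θ / 16 * k ≤ (Cl (fun p => ct (f p)) a \ B).card →
      ∃ W : Finset (Fin k × Fin k), W ⊆ B ×ˢ (Cl (fun p => ct (f p)) a \ B) ∧
        (∀ w ∈ W, (f w.1, g w.2) ∈ D) ∧ ν / 4 * (k : ℝ) ^ 2 ≤ W.card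

/-- Matched clusters. -/
structure RSys {n K k : ℕ} (S : Finset (Fin n × Fin n)) (o i : Fin n → Fin K) (cl : Fin k → Fin K)
    (T H : Fin k → Finset (Fin n)) (Γ : Fin k → Fin k → Prop) (s : ℕ) (β1 d c ν τ : ℝ) : Prop where
  sT : ∀ p, (T p).card = s
  sH : ∀ p, (H p).card = s
  dT : ∀ p p', p ≠ p' → Disjoint (T p) (T p')
  dH : ∀ p p', p ≠ p' → Disjoint (H p) (H p')
  oT : ∀ p, ∀ v ∈ T p, o v = cl p
  iH : ∀ p, ∀ w ∈ H p, i w = cl p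
  loop : ∀ p, Γ p p
  same : ∀ p p', Γ p p' → cl p = cl p'
  dens : ∀ p p', Γ p p' → ∀ A B : Finset (Fin n), A ⊆ T p → B ⊆ H p' → β1 * s ≤ A.card →
    β1 * s ≤ B.card → d * A.card * B.card ≤ eb S A B
  exp : ∀ (a : Fin K) (B : Finset (Fin k)), B ⊆ Cl cl a → c * k ≤ B.card →
    c * k ≤ (Cl cl a \ B).card →
    ∃ W : Finset (Fin k × Fin k), W ⊆ B ×ˢ (Cl cl a \ B) ∧ (∀ w ∈ W, Γ w.1 w.2) ∧
      ν * (k : ℝ) ^ 2 ≤ W.card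
  cov : (1 - τ) * n ≤ k * (s : ℝ)

/-- (about 120 lines; uses `S_Clu`, `S_Mat`, `S_ExpR`) **The system of matched clusters.**

Proof.  Let `τ1 = min (θ τ/7) (min (θ/14) (θ ν/33))` (`≤ 1`); then `7 τ1/θ ≤ τ`, `14 τ1 ≤ θ`,
`7 τ1/θ + 4 τ1 ≤ 11 τ1/θ ≤ ν/3`.  Take `d` from `S_Clu` for `K0, τ1`; given `β1` take `kmax, n0` from there and
`g = τ1`.  Let `MHyp` hold.  `S_Clu` gives a `CSys`; `S_Mat` (with `nr : Nr S ρ τ1`) gives `k, f, g`.  Put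
`cl p = ct (f p)`, `T' p = T (f p)`, `H' p = H (g p)`, `Γ p p' :⟺ (f p, g p') ∈ D`.  By `cls`,
`ct (f p) = ch (g p)` and `Γ p p'` implies `ct (f p) = ch (g p') = ct (f p')`.  `exp` is `S_ExpR`.
`k ≤ kmax`: `k s ≤ n ≤ kmax s`.  `1 ≤ k` as `(1 - τ) n > 0`. -/
def S_Sys : Prop :=
  ∀ (K0 : ℕ) (θ ν τ : ℝ), 1 ≤ K0 → 0 < θ → θ ≤ 1 → 0 < ν → 0 < τ → τ ≤ 1 / 2 →
    ∃ d : ℝ, 0 < d ∧ d ≤ 1 ∧ ∀ β1 : ℝ, 0 < β1 → β1 ≤ 1 → ∃ (g : ℝ) (kmax n0 : ℕ), 0 < g ∧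
      ∀ n : ℕ, n0 ≤ n → ∀ (K : ℕ) (S : Finset (Fin n × Fin n)) (o i : Fin n → Fin K) (ρ : ℝ),
        K ≤ K0 → MHyp S o i θ ρ g (θ / 32) ν →
        ∃ (s k : ℕ) (cl : Fin k → Fin K) (T H : Fin k → Finset (Fin n)) (Γ : Fin k → Fin k → Prop),
          1 ≤ s ∧ 1 ≤ k ∧ k ≤ kmax ∧ n ≤ kmax * s ∧ RSys S o i cl T H Γ s β1 d (θ / 16) (ν / 4) τ

/-! ## Slices -/

/-- (about 120 lines; uses `S_Chf`) **A random slice.**

Proof.  Choose `c : Fin n → Fin Q` and let `U = {v : c v = 0}`.  Fix `F ∈ 𝓕` with `|F| ≥ θ n`.  `S_Chf` with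
`ι = Fin n`, `Λ = Q`, `A v = {0}`, `δ = ε`: at most `Q^n exp(-ε² |F|/(2 Q))` functions have
`|U ∩ F| ≤ (1 - ε) |F|/Q`.  `S_Chf` with `A v = {0}ᶜ` (`Q - 1` elements), `δ = ε/(Q - 1)`: at most
`Q^n exp(-ε² |F|/(2 Q (Q - 1)))` functions have `|F \ U| ≤ (1 - ε/(Q-1)) |F| (Q-1)/Q`, and otherwise
`Q |U ∩ F| = Q |F| - Q |F \ U| ≤ Q |F| - (Q - 1 - ε) |F| = (1 + ε) |F|`.  Both bounds are at most
`Q^n exp(-ε² θ n/(2 Q²))`.  As `|𝓕| ≤ n²` and `2 n² exp(-ε² θ n/(2 Q²)) < 1` for large `n`, some `c` is good for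
all `F ∈ 𝓕`. -/
def S_Slc : Prop :=
  ∀ (Q : ℕ) (ε θ : ℝ), 2 ≤ Q → 0 < ε → ε ≤ 1 → 0 < θ → ∃ n0 : ℕ, ∀ n : ℕ, n0 ≤ n →
    ∀ 𝓕 : Finset (Finset (Fin n)), 𝓕.card ≤ n ^ 2 → ∃ U : Finset (Fin n), ∀ F ∈ 𝓕,
      θ * n ≤ F.card → (1 - ε) * F.card ≤ Q * ((U ∩ F).card : ℝ) ∧
        Q * ((U ∩ F).card : ℝ) ≤ (1 + ε) * F.card

/-- (about 60 lines) **Almost perfect matchings.**

Proof.  Among all sets `X ⊆ A` for which there is `φ`, injective on `X`, with `φ v ∈ B` and `(v, φ v) ∈ S` for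
`v ∈ X`, take one with the most elements (the empty set is one of them).  Let `A' = A \ X`,
`B' = B \ φ(X)`.  There is no arc of `S` from `A'` to `B'`, otherwise `X` could be enlarged (change `φ` at
the new vertex, `Function.update`).  So `|A'| < h` or `|B'| < h`; `|B'| ≥ |B| - |X|`. -/
def S_NPM : Prop :=
  ∀ (n h : ℕ) (S : Finset (Fin n × Fin n)) (A B : Finset (Fin n)),
    (∀ A' B' : Finset (Fin n), A' ⊆ A → B' ⊆ B → h ≤ A'.card → h ≤ B'.card →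
      ∃ a ∈ A', ∃ b ∈ B', (a, b) ∈ S) →
    ∃ (X : Finset (Fin n)) (φ : Fin n → Fin n), X ⊆ A ∧ Set.InjOn φ X ∧
      (∀ v ∈ X, φ v ∈ B ∧ (v, φ v) ∈ S) ∧ (A.card ≤ X.card + h ∨ B.card ≤ X.card + h)

/-- (about 100 lines) **Extension to a permutation which respects the classes.**

Proof.  Let `a` be a class, `A1 = {v ∈ U : o v = a}`, `B1 = {w ∈ σ(U) : i w = a}`; `σ` is a bijection from
`A1` to `B1`.  `φ` is a bijection from `{v ∈ Z : o v = a}` to `{w ∈ φ(Z) : i w = a}` and these are subsets of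
`A1`, `B1`; so `A_a = {v ∈ U \ Z : o v = a}` and `B_a = {w ∈ σ(U) \ φ(Z) : i w = a}` have the same number
of elements; let `ψ_a` be a bijection from `A_a` to `B_a` (`Finset.equivOfCardEq` or
`Finset.exists_bijOn...`).  Define `ρ0 v = φ v` on `Z`, `ψ_(o v) v` on `U \ Z`, `σ v` outside of `U`.  It
is injective: the three kinds of values are in `φ(Z)`, `σ(U) \ φ(Z)` and outside of `σ(U)`; two
elements of `U \ Z` with the same value `w` have the same class `i w`.  An injective map of a finite set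
is a permutation (`Equiv.ofBijective`, `Finite.injective_iff_bijective`). -/
def S_Ext : Prop :=
  ∀ (n K : ℕ) (o i : Fin n → Fin K) (σ : Equiv.Perm (Fin n)) (U Z : Finset (Fin n))
    (φ : Fin n → Fin n), (∀ v ∈ U, o v = i (σ v)) → Z ⊆ U →
    (∀ v ∈ Z, φ v ∈ U.image σ ∧ i (φ v) = o v) → Set.InjOn φ Z →
    ∃ ρ0 : Equiv.Perm (Fin n), (∀ v ∈ Z, ρ0 v = φ v) ∧ (∀ v, v ∉ U → ρ0 v = σ v) ∧
      ∀ v ∈ U, ρ0 v ∈ U.image σ ∧ o v = i (ρ0 v)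

/-- (about 250 lines; uses `S_Slc`, `S_NPM`, `S_Ext`) **Rematching a slice.**

Proof.  Let `η = ε/8` and `g = min (η/kmax) η` (if `kmax = 0` the hypotheses `1 ≤ k ≤ kmax` are
contradictory).  Let `θ' = min (1/(2 kmax)) (θ/2)` and `n0` so large that `S_Slc` (for `Q, η, θ'`) can be
used, `n0 ≥ 16 Q kmax/ε`, `n0 ≥ 2 kmax + 10`.  Note `ε ≤ θ/4 ≤ 1/4`, `s ≥ n/kmax`, so
`1 ≤ ε s/(16 Q)` and `g n ≤ η s`, `g n ≤ η n`.
Let `OT = {v : o v = i (σ v)}` (own tails), at most `g n` vertices are not in `OT`.  The family `𝓕` consists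
of `OT`; `T p ∩ OT`; `σ⁻¹(H p) ∩ OT`; `{v ∈ OT : (u, σ v) ∈ S}` for all `u`;
`{v ∈ OT : (v, w) ∈ S}` for all `w`; at most `1 + 2 k + 2 n ≤ n²` sets.  They have at least
`(1-η) n`, `s - g n ≥ (1-η) s`, `(1-η) s`, `θ n - g n`, `θ n - g n` elements, all of them at least
`θ' n`.  Take `U'` from `S_Slc` and `U = U' ∩ OT`.
Let `A_p = U ∩ T p`, `B_p = σ(U) ∩ H p`; `|B_p| = |U' ∩ (σ⁻¹(H p) ∩ OT)|`.  Both `Q |A_p|` and `Q |B_p|`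
are between `(1-η)² s` and `(1+η) s`.  Let `h = ⌈β1 s⌉` (`≥ 1`), `h ≤ ε s/(16 Q) + 1 ≤ η s/Q`.  By `dens`
for `Γ p p` (`loop`), `S_NPM` with this `h` can be applied to `A_p, B_p` (`eb S A' B' ≥ d |A'| |B'| > 0`):
`X p ⊆ A_p`, `φ_p`; let `Y p = φ_p(X p) ⊆ B_p`.  So `Q |X p| ≥ (1-η)² s - η s ≥ (1 - 3η) s` and
`Q |X p| ≤ (1+η) s`.  Let `Z = ⋃ X p`, `φ = φ_p` on `X p` (the `X p` are disjoint, the `Y p` are disjoint);
`i (φ v) = cl p = o v`.  `S_Ext` gives `ρ0`.  Let `V = U \ Z`.  `XInv` (with `Q = ∅`): `st`: `ρ0 v = φ v ∈ Y p`;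
`off`: clear; `arc`: `v ∉ V` is outside of `U` or in some `X p`; `vir`: `S_Ext`; `cro`: `o v ≠ i (σ v)` implies
`v ∉ U`.  `Q |U| ≤ (1+η) n ≤ 2 n`, `Q |V| = Q |U| - ∑ Q |X p| ≤ (1+η) n - (1-3η) k s ≤
(1+η) n - (1-3η)(1-η) n ≤ 5 η n ≤ ε n`.
Out-neighbours of `u`: `σ` maps `U' ∩ {v ∈ OT : (u, σ v) ∈ S}` injectively into
`{w ∈ σ(U) : (u, w) ∈ S}`, which therefore has at least `(1-η)(θ n - g n)/Q` elements; those which are in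
no `Y p` are in `σ(U) \ φ(Z)`, a set with `|V| ≤ 5 η n/Q` elements.  So
`Q ∑_p |{w ∈ Y p : (u, w) ∈ S}| ≥ (1-η)(θ-η) n - 5 η n ≥ (θ - 7 η) n ≥ (θ/2) n`, as `7 η ≤ ε ≤ θ/4`.
In-neighbours of `w`: `{v ∈ U : (v, w) ∈ S}` has at least `(1-η)(θ n - g n)/Q` elements, at most `|V|` of
them are in no `X p`. -/
def S_Rmt : Prop :=
  ∀ (Q kmax : ℕ) (ε θ : ℝ), 2 ≤ Q → 0 < θ → θ ≤ 1 → 0 < ε → 4 * ε ≤ θ →
    ∃ (g : ℝ) (n0 : ℕ), 0 < g ∧ ∀ n : ℕ, n0 ≤ n → ∀ (K k s : ℕ) (S : Finset (Fin n × Fin n))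
      (o i : Fin n → Fin K) (cl : Fin k → Fin K) (T H : Fin k → Finset (Fin n))
      (Γ : Fin k → Fin k → Prop) (β1 d c ν : ℝ), RSys S o i cl T H Γ s β1 d c ν (ε / 8) →
      0 < β1 → 16 * Q * β1 ≤ ε → 0 < d → 1 ≤ k → k ≤ kmax → n ≤ kmax * s →
      (∀ v, θ * n ≤ od S v) → (∀ v, θ * n ≤ idg S v) → ∀ σ : Equiv.Perm (Fin n),
      ((univ.filter (fun v => o v ≠ i (σ v))).card : ℝ) ≤ g * n →
      ∃ (U V : Finset (Fin n)) (X Y : Fin k → Finset (Fin n)) (ρ0 : Equiv.Perm (Fin n)),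
        (∀ v ∈ U, o v = i (σ v)) ∧
        (∀ p, X p ⊆ U ∧ X p ⊆ T p ∧ Y p ⊆ H p ∧ (X p).card = (Y p).card ∧
          (1 - ε) * s ≤ Q * ((X p).card : ℝ) ∧ Q * ((X p).card : ℝ) ≤ (1 + ε) * s) ∧
        XInv S o i X Y σ ρ0 U ∅ V ∧ V = U \ univ.biUnion X ∧ Q * (V.card : ℝ) ≤ ε * n ∧
        Q * (U.card : ℝ) ≤ 2 * n ∧
        (∀ v, θ * n ≤ 2 * Q * ∑ p, (((Y p).filter (fun w => (v, w) ∈ S)).card : ℝ)) ∧
        ∀ w, θ * n ≤ 2 * Q * ∑ p, (((X p).filter (fun v => (v, w) ∈ S)).card : ℝ)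

/-- (about 150 lines) **The system of the slices.**

Proof.  `s ≥ 1` as `1 ≤ y`, `16 Q y ≤ θ s`.  `sz`: `4 Q x ≤ 3 s ≤ 4 (1-ε) s ≤ 4 Q |X p|` and
`Q |X p| ≤ (5/4) s ≤ 2 Q x`.  `dX`, `dY`, `oX`, `iY`: subsets of `T p`, `H p`.  `dens`: `β1 s ≤ h`.  `exp`:
`ν' ≤ ν`.  `domO`: let `P = {p : cl p = o v ∧ y ≤ |{w ∈ Y p : (v, w) ∈ S}|}`.  If `p ∉ P` then
`cl p ≠ o v` and the set is empty (`(v, w) ∈ S` implies `i w = o v`, and `i w = cl p` for `w ∈ H p`) or the set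
has at most `y` elements.  So `∑_p |{...}| ≤ |P| (5/4) s/Q + k y`, and with `2 Q k y ≤ θ k s/8 ≤ θ n/8`
(`k s ≤ n` because the `T p` are disjoint): `θ n ≤ (5/2) s |P| + θ n/8`, so
`|P| ≥ (7/20) θ n/s ≥ (7/20) θ k ≥ 2 (θ/16) k`.  `domI` in the same way. -/
def S_XSy : Prop :=
  ∀ (n K k s Q : ℕ) (S : Finset (Fin n × Fin n)) (o i : Fin n → Fin K) (cl : Fin k → Fin K)
    (T H X Y : Fin k → Finset (Fin n)) (Γ : Fin k → Fin k → Prop) (β1 d ν ν' τ θ ε : ℝ)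
    (h x y : ℕ), RSys S o i cl T H Γ s β1 d (θ / 16) ν τ → (∀ e ∈ S, o e.1 = i e.2) → 0 < θ →
    θ ≤ 1 → 0 < ε → 4 * ε ≤ 1 → 1 ≤ Q →
    (∀ p, X p ⊆ T p ∧ Y p ⊆ H p ∧ (X p).card = (Y p).card ∧
      (1 - ε) * s ≤ Q * ((X p).card : ℝ) ∧ Q * ((X p).card : ℝ) ≤ (1 + ε) * s) →
    (∀ v, θ * n ≤ 2 * Q * ∑ p, (((Y p).filter (fun w => (v, w) ∈ S)).card : ℝ)) →
    (∀ w, θ * n ≤ 2 * Q * ∑ p, (((X p).filter (fun v => (v, w) ∈ S)).card : ℝ)) →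
    β1 * s ≤ h → 5 * s ≤ 8 * Q * x → 4 * Q * x ≤ 3 * s → 1 ≤ y → 16 * Q * (y : ℝ) ≤ θ * s →
    ν' ≤ ν → XSys S o i cl X Y Γ h x y d (θ / 16) ν'

/-! ## The merging lemma -/

/-- (about 80 lines, pure inequality) **The numbers.**

Proof.  Let `L = 4 ℓ + 6 ≥ 6` and `E = ε n/Q`.  `V ≤ E`, `cy ≤ E`, `k ≤ E/20`,
`2 h k ≤ 2 β1 k s + 2 k ≤ E/8 + E/10` (`β1 ≤ ε/(16 Q)`, `k s ≤ n`), `x ≤ 3 s/(4 Q)`, `y ≥ θ s/(20 Q) > 0`, so
`8 x L V/y ≤ 120 L E/θ`.  The left side is at most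
`8 L E (1 + 1/20 + L + 1/8 + 1/10 + 1 + 1 + 120 L/θ) ≤ 8 L² E/θ (1 + 1 + 120) = 976 L² E/θ` (as
`3.275 ≤ L ≤ L/θ`).  The right side is at least `ν k θ s/(20 Q) ≥ ν θ n/(40 Q)`.  And
`976 L² ε/θ ≤ ν θ/40`. -/
def S_NuX : Prop :=
  ∀ (n k s Q h x y ℓ V cy : ℕ) (θ ν ε β1 : ℝ), 1 ≤ n → 1 ≤ s → 1 ≤ Q → 0 < θ → θ ≤ 1 → 0 < ν →
    0 < ε → 100000 * (4 * ℓ + 6) ^ 2 * ε ≤ ν * θ ^ 2 → (h : ℝ) ≤ β1 * s + 1 → 16 * Q * β1 ≤ ε →
    4 * Q * x ≤ 3 * s → θ * s ≤ 20 * Q * (y : ℝ) → Q * (V : ℝ) ≤ ε * n → Q * (cy : ℝ) ≤ ε * n →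
    n ≤ 2 * (k * s) → k * s ≤ n → 20 * Q * (k : ℝ) ≤ ε * n →
    8 * ((4 * ℓ + 6 : ℝ) * V + (4 * ℓ + 6) * (k + (4 * ℓ + 6) * V + 2 * h * k + V + cy +
      8 * x * ((4 * ℓ + 6) * V) / y)) ≤ ν * k * y

/-- the hypotheses on the permutation `σ` -/
structure SHyp {n K : ℕ} (o i : Fin n → Fin K) (σ : Equiv.Perm (Fin n)) (g : ℝ) : Prop where
  cyc : (cyc σ : ℝ) ≤ g * n
  cross : ((univ.filter (fun v => o v ≠ i (σ v))).card : ℝ) ≤ g * n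
  own : ∀ v, ∃ w, σ.SameCycle v w ∧ o w = i (σ w)

/-- the classes are linked -/
def Lin {n K : ℕ} (o i : Fin n → Fin K) (lam : ℝ) : Prop :=
  ∀ J : Finset (Fin K), J.Nonempty → J ≠ univ →
    ∃ a ∈ J, ∃ b, b ∉ J ∧ lam * n ≤ (Cl o b ∩ Cl i a).card

/-- the result of merging -/
def MrgOK {n K : ℕ} (o i : Fin n → Fin K) (S : Finset (Fin n × Fin n)) (σ : Equiv.Perm (Fin n))
    (κ : ℝ) : Prop :=
  ∃ ρ : Equiv.Perm (Fin n), (∀ v w, ρ.SameCycle v w) ∧ (∀ v, ρ v = σ v ∨ (v, ρ v) ∈ S) ∧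
    (∀ v, o v ≠ i (σ v) → ρ v = σ v) ∧
    ((univ.filter (fun v => ρ v ≠ σ v)).card : ℝ) ≤ κ * n

/-- (about 80 lines; uses `S_Lnk`) **From one cycle per class to one cycle.**

Proof.  `o v = i (ρ v)` iff `o v = i (σ v)`: if `o v ≠ i (σ v)` then `ρ v = σ v`; if `o v = i (σ v)` then
`ρ v = σ v` or `(v, ρ v) ∈ S`, and in both cases `o v = i (ρ v)`.  Apply `S_Lnk` with the number `⌊g n⌋`: every
cycle of `ρ` contains some `w` with `o w = i (ρ w)`: otherwise `ρ = σ` on this cycle, so it is a cycle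
of `σ` (the powers of `ρ` and of `σ` agree on it), which contains some `w` with `o w = i (σ w)`.  The
number of the `v` with `o v ≠ i (ρ v)` is at most `g n`.  For `J` take `a, b` from `Lin`:
`|Cl o b ∩ Cl i a| ≥ lam n ≥ 4 g n > 2 ⌊g n⌋`. -/
def S_One : Prop :=
  ∀ (n K : ℕ) (o i : Fin n → Fin K) (S : Finset (Fin n × Fin n)) (σ ρ : Equiv.Perm (Fin n))
    (g lam : ℝ), 1 ≤ n → 0 < g → 4 * g ≤ lam → (∀ e ∈ S, o e.1 = i e.2) → SHyp o i σ g →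
    Lin o i lam → (∀ v, ρ v = σ v ∨ (v, ρ v) ∈ S) → (∀ v, o v ≠ i (σ v) → ρ v = σ v) →
    (∀ u v, o u = i (ρ u) → o v = i (ρ v) → o u = o v → ρ.SameCycle u v) →
    ∀ v w, ρ.SameCycle v w

/-- (about 250 lines; uses `S_RP`, `S_XM`, `S_Sys`, `S_Rmt`, `S_XSy`, `S_NuX`, `S_One`) **The merging
lemma.**

Proof.  Let `ν4 = min (ν/4) (θ/16)`, `ℓ` from `S_RP` for `ν4/2` (so `RPp (ν4/2) ℓ`), `L = 4 ℓ + 6`,
`Q = ⌈8/κ⌉ + 2`, `ε = ν4 θ²/(100000 L²)` (`4 ε ≤ θ ≤ 1`), `τ = ε/8`, `d` from `S_Sys` for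
`K0, θ, ν, τ`, `β1 = min (ε/(16 Q)) (min (d²/(200 Q)) (θ/(4000 (ℓ+1) Q)))` (`≤ 1`), `g1, kmax, n1` from
`S_Sys`, `g2, n2` from `S_Rmt` for `Q, kmax, ε, θ`, and `g = min (min g1 g2) (min (ε/Q) (lam/4))`.  Let
`n ≥ n0 ≥ max n1 n2`, `n0 ≥ 20 Q kmax/ε`, `n0 ≥ 1` and `n0 ≥ kmax s0`, where `s0` is so large that the
inequalities (*) hold for `s ≥ s0`.
`MHyp` with `g` implies `MHyp` with `g1` (the set of the exceptional vertices is smaller).  `S_Sys` gives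
`s, k, cl, T, H, Γ` with `s ≥ n/kmax ≥ s0`; `S_Rmt` for `σ` (number of cross tails `≤ g n ≤ g2 n`) gives
`U, V, X, Y, ρ0`.  Let `h = ⌈β1 s⌉`, `x = ⌈5 s/(8 Q)⌉`, `y = ⌊θ s/(16 Q)⌋`.  (*): `1 ≤ h ≤ β1 s + 1`;
`5 s ≤ 8 Q x`; `4 Q x ≤ (5/2) s + 4 Q ≤ 3 s`; `20 Q y ≥ (5/4) θ s - 20 Q ≥ θ s`; `1 ≤ y ≤ x`;
`32 h ≤ 32 β1 s + 32 ≤ (4/25) d² s/Q + 32 ≤ (5/8) d² s/Q ≤ d² x`;
`4 (ℓ+1) (12 h + 2) ≤ 48 (ℓ+1) β1 s + 56 (ℓ+1) ≤ (3/250) θ s/Q + 56 (ℓ+1) ≤ θ s/(16 Q) - 1 ≤ y`.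
`S_XSy` (with `ν' = ν4 ≤ ν/4`) gives the `XSys`.  The numerical hypothesis of `S_XM` is `S_NuX`
(`ν = ν4`; `U \ ⋃ X = V`; `cyc σ ≤ g n ≤ ε n/Q`; `k s ≤ n` as the `T p` are disjoint;
`n ≤ 2 k s` as `1 - τ ≥ 1/2`; `20 Q k ≤ 20 Q kmax ≤ ε n`).  `S_XM` gives `ρ`, `F`; `S_One` shows that `ρ` has
only one cycle.  The `v` with `ρ v ≠ σ v` are in `U ∪ F`; `|U| ≤ 2 n/Q`,
`8 |F| ≤ ν4 k y ≤ k s/(16 Q) ≤ n/(16 Q)` (as `ν4 θ ≤ 1`), so there are at most `3 n/Q ≤ κ n` of them. -/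
def S_Mrg : Prop :=
  ∀ (K0 : ℕ) (θ lam ν κ : ℝ), 1 ≤ K0 → 0 < θ → θ ≤ 1 → 0 < lam → 0 < ν → 0 < κ →
    ∃ (g : ℝ) (n0 : ℕ), 0 < g ∧ ∀ n : ℕ, n0 ≤ n → ∀ (K : ℕ) (S : Finset (Fin n × Fin n))
      (o i : Fin n → Fin K) (ρ : ℝ) (σ : Equiv.Perm (Fin n)), K ≤ K0 →
      MHyp S o i θ ρ g (θ / 32) ν → SHyp o i σ g → Lin o i lam → MrgOK o i S σ κ

end Pool.Agent.MPd266dbH
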